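import Mathlib

/-!
# Growing prime tuples: admissible residue vectors (helper81)
-/

set_option autoImplicit false

namespace Pool.Agent.J4H81.PT

open Finset

/-- admissible tuples of natural numbers -/
def AdmT {k : ℕ} (a : Fin k → ℕ) : Prop := ∀ p : ℕ, p.Prime → ∃ c : ℕ, ∀ i, ¬ a i ≡ c [MOD p]

open Classical in
/-- the classes `c` modulo `W` for which all the `c + h i` are units -/
noncomputable def VV {k W : ℕ} [NeZero W] (h : Fin k → ZMod W) : Finset (ZMod W) :=
  univ.filter (fun c => ∀ i, IsUnit (c + h i))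

open Classical in
/-- the admissible residue vectors -/
noncomputable def AdmZ (k W : ℕ) [NeZero W] : Finset (Fin k → ZMod W) :=
  univ.filter (fun h => (VV h).Nonempty)

theorem isUnit_iff_primes {W : ℕ} [NeZero W] (n : ℕ) :
    IsUnit ((n : ℕ) : ZMod W) ↔ ∀ p ∈ W.primeFactors, ¬ p ∣ n := by
  rw [ZMod.isUnit_iff_coprime]
  constructor
  · intro h p hp hpn
    have := Nat.dvd_gcd hpn (Nat.dvd_of_mem_primeFactors hp)
    rw [h.gcd_eq_one] at this
    exact (Nat.prime_of_mem_primeFactors hp).one_lt.ne' (Nat.dvd_one.1 this)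
  · intro h
    by_contra hcon
    obtain ⟨p, hp, h1, h2⟩ := Nat.Prime.not_coprime_iff_dvd.1 hcon
    exact h p (Nat.mem_primeFactors.2 ⟨hp, h2, NeZero.ne W⟩) h1

/-- admissibility of a tuple in terms of its residues modulo `W` -/
theorem adm_iff {k W : ℕ} [NeZero W] (hW : ∀ p : ℕ, p.Prime → p ≤ k → p ∣ W)
    (a : Fin k → ℕ) : AdmT a ↔ (fun i => ((a i : ℕ) : ZMod W)) ∈ AdmZ k W := by
  classical
  unfold AdmZ VV
  rw [mem_filter]
  simp only [mem_univ, true_and]
  constructor
  · intro h
    choose c hc using h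
    -- the class given by the Chinese remainder theorem
    let cc : ℕ → ℕ := fun p => if hp : p.Prime then (c p hp) * (p - 1) else 0
    obtain ⟨n, hn⟩ : ∃ n : ℕ, ∀ p ∈ W.primeFactors, n ≡ cc p [MOD p] := by
      have hco : ∀ i ∈ W.primeFactors.toList, ∀ j ∈ W.primeFactors.toList, i ≠ j → Nat.Coprime i j := by
        intro i hi j hj hij
        rw [mem_toList] at hi hj
        exact (Nat.coprime_primes (Nat.prime_of_mem_primeFactors hi) (Nat.prime_of_mem_primeFactors hj)).2 hij
      have hpair : (W.primeFactors.toList).Pairwise (Function.onFun Nat.Coprime (fun p => p)) := by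
        have hnd := W.primeFactors.nodup_toList
        rw [List.nodup_iff_pairwise_ne] at hnd
        refine hnd.imp_of_mem ?_
        intro i j hi hj hij
        exact hco i hi j hj hij
      refine ⟨(Nat.chineseRemainderOfList cc (fun p => p) W.primeFactors.toList hpair : ℕ), ?_⟩
      intro p hp
      exact (Nat.chineseRemainderOfList cc (fun p => p) W.primeFactors.toList hpair).2 p (mem_toList.2 hp)
    refine ⟨(n : ZMod W), ?_⟩
    rw [mem_filter]
    refine ⟨mem_univ _, fun i => ?_⟩
    rw [← Nat.cast_add, isUnit_iff_primes]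
    intro p hp hdvd
    have hpp := Nat.prime_of_mem_primeFactors hp
    have h1 := hn p hp
    simp only [cc, hpp, dif_pos] at h1
    apply hc p hpp i
    -- a i ≡ c p
    have h2 : n + a i ≡ 0 [MOD p] := (Nat.modEq_zero_iff_dvd).2 hdvd
    have h3 : c p hpp * (p - 1) + a i ≡ 0 [MOD p] := (Nat.ModEq.add_right _ h1.symm).trans h2
    have h4 : c p hpp * (p - 1) + c p hpp ≡ 0 [MOD p] := by
      have : c p hpp * (p - 1) + c p hpp = c p hpp * p := by
        have hq : p - 1 + 1 = p := by have := hpp.one_lt; omega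
        calc c p hpp * (p - 1) + c p hpp = c p hpp * (p - 1 + 1) := by ring
          _ = _ := by rw [hq]
      rw [this]
      exact (Nat.modEq_zero_iff_dvd).2 (dvd_mul_left _ _)
    exact Nat.ModEq.add_left_cancel' _ (h3.trans h4.symm)
  · rintro ⟨c, hc⟩
    rw [mem_filter] at hc
    intro p hp
    rcases le_or_gt p k with hpk | hpk
    · have hpW := hW p hp hpk
      have hpos := hp.pos
      refine ⟨(p - 1) * c.val, fun i hi => ?_⟩
      have h1 := hc.2 i
      rw [← ZMod.natCast_zmod_val c, ← Nat.cast_add, isUnit_iff_primes] at h1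
      apply h1 p (Nat.mem_primeFactors.2 ⟨hp, hpW, NeZero.ne W⟩)
      rw [← Nat.modEq_zero_iff_dvd]
      have h2 : c.val + a i ≡ c.val + (p - 1) * c.val [MOD p] := Nat.ModEq.add_left _ hi
      refine h2.trans ?_
      rw [Nat.modEq_zero_iff_dvd]
      have : c.val + (p - 1) * c.val = p * c.val := by
        obtain ⟨m, hm⟩ : ∃ m, p = m + 1 := ⟨p - 1, by omega⟩
        rw [hm]; simp; ring
      rw [this]
      exact dvd_mul_right _ _
    · -- pigeonhole
      by_contra hcon
      push Not at hcon
      have hsurj : ∀ c ∈ range p, c ∈ (univ : Finset (Fin k)).image (fun i => a i % p) := by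
        intro c hc
        obtain ⟨i, hi⟩ := hcon c
        rw [mem_image]
        refine ⟨i, mem_univ _, ?_⟩
        rw [hi, Nat.mod_eq_of_lt (mem_range.1 hc)]
      have h1 := card_le_card (show range p ⊆ _ from hsurj)
      have h2 := card_image_le (s := (univ : Finset (Fin k))) (f := fun i => a i % p)
      rw [card_range] at h1
      rw [card_univ, Fintype.card_fin] at h2
      omega

section good

variable {k W : ℕ} [NeZero W]

open Classical in
/-- the weighted number of the admissible vectors with a given value of `c + h i` -/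
noncomputable def SS (i : Fin k) (b : ZMod W) : ℝ :=
  ∑ h ∈ AdmZ k W, (1 / ((VV h).card : ℝ)) * (((VV h).filter (fun c => c + h i = b)).card : ℝ)

theorem VV_smul (u : (ZMod W)ˣ) (h : Fin k → ZMod W) (c : ZMod W) :
    (u : ZMod W) * c ∈ VV (fun i => (u : ZMod W) * h i) ↔ c ∈ VV h := by
  classical
  unfold VV
  rw [mem_filter, mem_filter]
  simp only [mem_univ, true_and]
  refine forall_congr' fun i => ?_
  rw [← mul_add]
  exact Units.isUnit_units_mul u _

theorem SS_smul (i : Fin k) (b : ZMod W) (u : (ZMod W)ˣ) : SS i ((u : ZMod W) * b) = SS i b := by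
  classical
  unfold SS
  symm
  have hVim : ∀ h : Fin k → ZMod W, VV (fun i => (u : ZMod W) * h i) = (VV h).image (fun c => (u : ZMod W) * c) := by
    intro h
    ext c
    rw [mem_image]
    constructor
    · intro hc
      refine ⟨(u⁻¹ : (ZMod W)ˣ) * c, ?_, by rw [← mul_assoc, Units.mul_inv, one_mul]⟩
      rw [← VV_smul u, ← mul_assoc, Units.mul_inv, one_mul]
      exact hc
    · rintro ⟨d, hd, rfl⟩
      exact (VV_smul u h d).2 hd
  have hinj : Function.Injective (fun c : ZMod W => (u : ZMod W) * c) := by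
    intro x y hxy
    simpa using hxy
  have hcard : ∀ h : Fin k → ZMod W, (VV (fun i => (u : ZMod W) * h i)).card = (VV h).card := by
    intro h
    rw [hVim, card_image_of_injective _ hinj]
  refine sum_bij (fun h _ => fun i => (u : ZMod W) * h i) ?_ ?_ ?_ ?_
  · intro h hh
    unfold AdmZ at hh ⊢
    rw [mem_filter] at hh ⊢
    refine ⟨mem_univ _, ?_⟩
    rw [← card_pos, hcard, card_pos]
    exact hh.2
  · intro h1 _ h2 _ heq
    funext j
    have := congrFun heq j
    exact hinj this
  · intro h hh
    refine ⟨fun i => (u⁻¹ : (ZMod W)ˣ) * h i, ?_, ?_⟩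
    · unfold AdmZ at hh ⊢
      rw [mem_filter] at hh ⊢
      refine ⟨mem_univ _, ?_⟩
      rw [← card_pos, ← hcard, card_pos]
      have : (fun i => (u : ZMod W) * ((u⁻¹ : (ZMod W)ˣ) * h i)) = h := by
        funext j
        rw [← mul_assoc, Units.mul_inv, one_mul]
      rw [this]
      exact hh.2
    · funext j
      simp only
      rw [← mul_assoc, Units.mul_inv, one_mul]
  · intro h _
    rw [hcard]
    congr 1
    have : (VV (fun i => (u : ZMod W) * h i)).filter (fun c => c + (u : ZMod W) * h i = u * b) =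
        ((VV h).filter (fun c => c + h i = b)).image (fun c => (u : ZMod W) * c) := by
      rw [hVim]
      ext c
      simp only [mem_filter, mem_image]
      constructor
      · rintro ⟨⟨d, hd, rfl⟩, h2⟩
        refine ⟨d, ⟨hd, ?_⟩, rfl⟩
        apply hinj
        simp only
        rw [mul_add]
        exact h2
      · rintro ⟨d, ⟨hd, h2⟩, rfl⟩
        refine ⟨⟨d, hd, rfl⟩, ?_⟩
        rw [← mul_add, h2]
    rw [this, card_image_of_injective _ hinj]

theorem SS_eq (i : Fin k) {b : ZMod W} (hb : IsUnit b) : (Nat.totient W : ℝ) * SS i b = (AdmZ k W).card := by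
  classical
  have h1 : ∀ u : (ZMod W)ˣ, SS i ((u : ZMod W)) = SS (k := k) i b := by
    intro u
    obtain ⟨v, rfl⟩ := hb
    have := SS_smul (k := k) i (v : ZMod W) (u * v⁻¹)
    rw [← this]
    congr 1
    push_cast
    rw [mul_assoc, Units.inv_mul, mul_one]
  have h2 : ∑ u : (ZMod W)ˣ, SS (k := k) i ((u : ZMod W)) = (AdmZ k W).card := by
    unfold SS
    rw [sum_comm]
    have h3 : ∀ h ∈ AdmZ k W, ∑ u : (ZMod W)ˣ, (1 / ((VV h).card : ℝ)) *
        (((VV h).filter (fun c => c + h i = (u : ZMod W))).card : ℝ) = 1 := by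
      intro h hh
      rw [← mul_sum]
      have h4 : ∑ u : (ZMod W)ˣ, (((VV h).filter (fun c => c + h i = (u : ZMod W))).card : ℝ) = (VV h).card := by
        have h5 : (VV h).card = ∑ u : (ZMod W)ˣ, ((VV h).filter (fun c => c + h i = (u : ZMod W))).card := by
          rw [← Finset.card_biUnion]
          · congr 1
            ext c
            simp only [mem_biUnion, mem_univ, true_and, mem_filter]
            constructor
            · intro hc
              have : IsUnit (c + h i) := by
                unfold VV at hc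
                rw [mem_filter] at hc
                exact hc.2 i
              obtain ⟨u, hu⟩ := this
              exact ⟨u, hc, hu.symm⟩
            · rintro ⟨_, hc, _⟩
              exact hc
          · intro u _ v _ huv
            rw [Function.onFun, disjoint_left]
            intro c hc hc'
            rw [mem_filter] at hc hc'
            apply huv
            apply Units.ext
            rw [← hc.2, ← hc'.2]
        rw [h5]
        push_cast
        rfl
      rw [h4]
      have : 0 < (VV h).card := by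
        rw [card_pos]
        unfold AdmZ at hh
        exact (mem_filter.1 hh).2
      field_simp
    rw [sum_congr rfl h3]
    simp
  rw [← h2, sum_congr rfl (fun u _ => h1 u), sum_const, card_univ, ZMod.card_units_eq_totient, nsmul_eq_mul]

open Classical in
/-- few admissible vectors lead to a bad class for all choices of `c` -/
theorem few_bad_vectors (B : Finset (ZMod W)) (hB : ∀ b ∈ B, IsUnit b) :
    (Nat.totient W : ℝ) * (((AdmZ k W).filter (fun h => ∀ c ∈ VV h, ∃ i, c + h i ∈ B)).card : ℝ) ≤
      k * B.card * (AdmZ k W).card := by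
  have h1 : (((AdmZ k W).filter (fun h => ∀ c ∈ VV h, ∃ i, c + h i ∈ B)).card : ℝ) ≤
      ∑ i : Fin k, ∑ b ∈ B, SS i b := by
    unfold SS
    have e : ∑ i : Fin k, ∑ b ∈ B, ∑ h ∈ AdmZ k W, (1 / ((VV h).card : ℝ)) *
        (((VV h).filter (fun c => c + h i = b)).card : ℝ) =
        ∑ h ∈ AdmZ k W, (1 / ((VV h).card : ℝ)) * ∑ i : Fin k, ∑ b ∈ B,
          (((VV h).filter (fun c => c + h i = b)).card : ℝ) := by
      simp_rw [mul_sum]
      rw [sum_congr rfl (fun i _ => sum_comm)]
      rw [sum_comm]
    rw [e]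
    have h2 : ∀ h ∈ AdmZ k W, (0 : ℝ) ≤ (1 / ((VV h).card : ℝ)) * ∑ i : Fin k, ∑ b ∈ B,
          (((VV h).filter (fun c => c + h i = b)).card : ℝ) := by
      intro h _
      positivity
    have h3 : ∀ h ∈ (AdmZ k W).filter (fun h => ∀ c ∈ VV h, ∃ i, c + h i ∈ B),
        (1 : ℝ) ≤ (1 / ((VV h).card : ℝ)) * ∑ i : Fin k, ∑ b ∈ B,
          (((VV h).filter (fun c => c + h i = b)).card : ℝ) := by
      intro h hh
      rw [mem_filter] at hh
      have hpos : 0 < (VV h).card := by
        rw [card_pos]
        have := hh.1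
        unfold AdmZ at this
        exact (mem_filter.1 this).2
      have h4 : (VV h).card ≤ ∑ i : Fin k, ∑ b ∈ B, ((VV h).filter (fun c => c + h i = b)).card := by
        have h5 : (VV h).card ≤ ((univ : Finset (Fin k)).biUnion (fun i => B.biUnion (fun b =>
            (VV h).filter (fun c => c + h i = b)))).card := by
          apply card_le_card
          intro c hc
          obtain ⟨i, hi⟩ := hh.2 c hc
          simp only [mem_biUnion, mem_univ, true_and, mem_filter]
          exact ⟨i, c + h i, hi, hc, rfl⟩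
        refine h5.trans (card_biUnion_le.trans (sum_le_sum fun i _ => card_biUnion_le))
      have h6 : ((VV h).card : ℝ) ≤ ∑ i : Fin k, ∑ b ∈ B, (((VV h).filter (fun c => c + h i = b)).card : ℝ) := by
        exact_mod_cast h4
      have h7 : (0 : ℝ) < (VV h).card := by exact_mod_cast hpos
      rw [one_div, ← div_eq_inv_mul, le_div_iff₀ h7]
      linarith
    calc (((AdmZ k W).filter (fun h => ∀ c ∈ VV h, ∃ i, c + h i ∈ B)).card : ℝ) =
          ∑ h ∈ (AdmZ k W).filter (fun h => ∀ c ∈ VV h, ∃ i, c + h i ∈ B), (1 : ℝ) := by simp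
      _ ≤ ∑ h ∈ (AdmZ k W).filter (fun h => ∀ c ∈ VV h, ∃ i, c + h i ∈ B), (1 / ((VV h).card : ℝ)) *
          ∑ i : Fin k, ∑ b ∈ B, (((VV h).filter (fun c => c + h i = b)).card : ℝ) := sum_le_sum h3
      _ ≤ _ := sum_le_sum_of_subset_of_nonneg (filter_subset _ _) (fun h hh _ => h2 h hh)
  calc (Nat.totient W : ℝ) * (((AdmZ k W).filter (fun h => ∀ c ∈ VV h, ∃ i, c + h i ∈ B)).card : ℝ) ≤
        (Nat.totient W : ℝ) * ∑ i : Fin k, ∑ b ∈ B, SS i b := by gcongr
    _ = ∑ i : Fin k, ∑ b ∈ B, (Nat.totient W : ℝ) * SS i b := by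
        rw [mul_sum]; exact sum_congr rfl fun i _ => by rw [mul_sum]
    _ = ∑ i : Fin k, ∑ b ∈ B, ((AdmZ k W).card : ℝ) :=
        sum_congr rfl fun i _ => sum_congr rfl fun b hb => SS_eq i (hB b hb)
    _ = _ := by simp; ring

end good

end Pool.Agent.J4H81.PT
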