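import Pool.Agent.J4H81.PT.CMa

/-!
# Growing prime tuples: from the lifts of residue vectors to the admissible sets (helper81)
-/

set_option autoImplicit false

namespace Pool.Agent.J4H81.PT

open Finset

/-- `A` is admissible: every prime `p` has a residue class which contains no element of `A` -/
def Admissible (A : Finset ℕ) : Prop := ∀ p : ℕ, p.Prime → ∃ c : ℕ, ∀ a ∈ A, ¬ a ≡ c [MOD p]

/-- some positive `n ≤ y` makes all the `n + a`, `a ∈ A`, prime -/
def HasPrimes (y : ℕ) (A : Finset ℕ) : Prop := ∃ n : ℕ, 1 ≤ n ∧ n ≤ y ∧ ∀ a ∈ A, (n + a).Prime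

open Classical in
/-- the admissible subsets of `{0, ..., y}` with `k` elements -/
noncomputable def admissibleSets (y k : ℕ) : Finset (Finset ℕ) :=
  ((range (y + 1)).powersetCard k).filter Admissible

/-- the tuple has no `n` -/
def badT (y : ℕ) {k : ℕ} (a : Fin k → ℕ) : Prop := ¬ ∃ n : ℕ, 1 ≤ n ∧ n ≤ y ∧ ∀ i, (n + a i).Prime

theorem admT_iff {k : ℕ} (a : Fin k → ℕ) : AdmT a ↔ Admissible (univ.image a) := by
  unfold AdmT Admissible
  simp

theorem badT_iff (y : ℕ) {k : ℕ} (a : Fin k → ℕ) : badT y a ↔ ¬ HasPrimes y (univ.image a) := by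
  unfold badT HasPrimes
  simp

open Classical in
/-- subsets and injective tuples -/
theorem card_subsets (R : Finset ℕ) (k : ℕ) (Q : Finset ℕ → Prop) :
    ((R.powersetCard k).filter Q).card * k.factorial =
      ((Fintype.piFinset (fun _ : Fin k => R)).filter
        (fun a => Function.Injective a ∧ Q (univ.image a))).card := by
  symm
  rw [Finset.card_eq_sum_card_fiberwise (f := fun a : Fin k → ℕ => univ.image a)
    (t := (R.powersetCard k).filter Q)]
  · rw [sum_const_nat (m := k.factorial)]
    intro A hA
    rw [mem_filter, mem_powersetCard] at hA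
    obtain ⟨⟨hAR, hAk⟩, hQ⟩ := hA
    have e0 : Fin k ≃ {x // x ∈ A} := (A.equivFinOfCardEq hAk).symm
    have hc : (univ : Finset (Fin k ≃ {x // x ∈ A})).card = k.factorial := by
      rw [card_univ, Fintype.card_equiv e0, Fintype.card_fin]
    rw [← hc]
    symm
    refine card_bij (fun e _ => fun i => ((e i : {x // x ∈ A}) : ℕ)) ?_ ?_ ?_
    · intro e _
      have him : univ.image (fun i => ((e i : {x // x ∈ A}) : ℕ)) = A := by
        ext x
        rw [mem_image]
        constructor
        · rintro ⟨i, _, rfl⟩
          exact (e i).2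
        · intro hx
          exact ⟨e.symm ⟨x, hx⟩, mem_univ _, by simp⟩
      rw [mem_filter, mem_filter, Fintype.mem_piFinset]
      refine ⟨⟨fun i => hAR (e i).2, ?_, ?_⟩, him⟩
      · intro i j hij
        exact e.injective (Subtype.ext hij)
      · rw [him]; exact hQ
    · intro e _ e' _ h
      apply Equiv.ext
      intro i
      exact Subtype.ext (congrFun h i)
    · intro a ha
      rw [mem_filter, mem_filter, Fintype.mem_piFinset] at ha
      obtain ⟨⟨_, hinj, _⟩, him⟩ := ha
      have hmem : ∀ i, a i ∈ A := fun i => by rw [← him]; exact mem_image_of_mem _ (mem_univ _)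
      have hbij : Function.Bijective (fun i : Fin k => (⟨a i, hmem i⟩ : {x // x ∈ A})) := by
        constructor
        · intro i j hij
          exact hinj (Subtype.ext_iff.1 hij)
        · rintro ⟨x, hx⟩
          rw [← him, mem_image] at hx
          obtain ⟨i, _, hi⟩ := hx
          exact ⟨i, Subtype.ext hi⟩
      exact ⟨Equiv.ofBijective _ hbij, mem_univ _, by funext i; rfl⟩
  · intro a ha
    rw [mem_coe, mem_filter, Fintype.mem_piFinset] at ha
    rw [mem_coe, mem_filter, mem_powersetCard]
    refine ⟨⟨?_, ?_⟩, ha.2.2⟩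
    · intro x hx
      rw [mem_image] at hx
      obtain ⟨i, _, rfl⟩ := hx
      exact ha.1 i
    · rw [card_image_of_injective _ ha.2.1, card_univ, Fintype.card_fin]

section main

variable {k W y T : ℕ} [NeZero W]

open Classical in
/-- admissible tuples in a range -/
noncomputable def AA (k M : ℕ) : Finset (Fin k → ℕ) := (Fintype.piFinset (fun _ : Fin k => range M)).filter AdmT

theorem adm_update (hW : ∀ p : ℕ, p.Prime → p ≤ k → p ∣ W) (a : Fin k → ℕ) (j : Fin k) (v : ℕ)
    (hv : v % W = a j % W) : AdmT (Function.update a j v) ↔ AdmT a := by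
  rw [adm_iff hW, adm_iff hW]
  have : (fun i => ((Function.update a j v i : ℕ) : ZMod W)) = fun i => ((a i : ℕ) : ZMod W) := by
    funext i
    by_cases h : i = j
    · subst h
      rw [Function.update_self]
      exact (ZMod.natCast_eq_natCast_iff' _ _ _).2 hv
    · rw [Function.update_of_ne h]
  rw [this]

open Classical in
/-- a set of tuples in which one coordinate is determined by its residue and by the other coordinates is small -/
theorem card_determined (hW : ∀ p : ℕ, p.Prime → p ≤ k → p ∣ W) {M : ℕ} (hM : W * T ≤ M) (j : Fin k)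
    (S : Finset (Fin k → ℕ)) (hS : S ⊆ AA k M)
    (hdet : ∀ a ∈ S, ∀ b ∈ S, (∀ l, l ≠ j → a l = b l) → a j % W = b j % W → a j = b j) :
    S.card * T ≤ (AA k M).card := by
  have hW0 : 0 < W := Nat.pos_of_ne_zero (NeZero.ne W)
  have h1 : (S ×ˢ range T).card = S.card * T := by rw [card_product, card_range]
  rw [← h1]
  refine card_le_card_of_injOn (fun x => Function.update x.1 j (x.1 j % W + W * x.2)) ?_ ?_
  · rintro ⟨a, t⟩ hat
    rw [mem_coe, mem_product, mem_range] at hat
    have ha := hS hat.1
    unfold AA at ha ⊢
    rw [mem_coe, mem_filter, Fintype.mem_piFinset] at *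
    refine ⟨fun i => ?_, ?_⟩
    · by_cases h : i = j
      · subst h
        simp only [Function.update_self]
        rw [mem_range]
        have h2 := Nat.mod_lt (a i) hW0
        have h3 : W * t + W ≤ W * T := by
          have : W * (t + 1) ≤ W * T := Nat.mul_le_mul_left _ hat.2
          linarith
        omega
      · simp only [Function.update_of_ne h]
        exact ha.1 i
    · simp only
      rw [adm_update hW]
      · exact ha.2
      · rw [Nat.add_mul_mod_self_left, Nat.mod_mod]
  · rintro ⟨a, t⟩ hat ⟨b, t'⟩ hbt heq
    rw [mem_coe, mem_product] at hat hbt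
    simp only at heq
    have h2 : ∀ l, l ≠ j → a l = b l := by
      intro l hl
      have := congrFun heq l
      rwa [Function.update_of_ne hl, Function.update_of_ne hl] at this
    have h3 : a j % W + W * t = b j % W + W * t' := by
      have := congrFun heq j
      rwa [Function.update_self, Function.update_self] at this
    have h4 : a j % W = b j % W := by
      have := congrArg (· % W) h3
      simpa [Nat.add_mul_mod_self_left] using this
    have h5 : t = t' := by
      rw [h4] at h3
      have : W * t = W * t' := by omega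
      exact Nat.eq_of_mul_eq_mul_left hW0 this
    have h6 := hdet a hat.1 b hbt.1 h2 h4
    have h7 : a = b := by
      funext l
      by_cases h : l = j
      · rw [h]; exact h6
      · exact h2 l h
    rw [h7, h5]

open Classical in
/-- tuples in terms of residues and lifts -/
theorem card_lifts (hW : ∀ p : ℕ, p.Prime → p ≤ k → p ∣ W) (P : (Fin k → ℕ) → Prop) :
    ((AA k (W * T)).filter P).card = ∑ h ∈ AdmZ k W,
      ((Fintype.piFinset (fun _ : Fin k => range T)).filter
        (fun t => P (fun i => (h i).val + W * t i))).card := by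
  have hW0 : 0 < W := Nat.pos_of_ne_zero (NeZero.ne W)
  rw [Finset.card_eq_sum_card_fiberwise (f := fun a : Fin k → ℕ => fun i => ((a i : ℕ) : ZMod W))
    (t := AdmZ k W)]
  · refine sum_congr rfl fun h hh => ?_
    symm
    refine card_bij (fun t _ => fun i => (h i).val + W * t i) ?_ ?_ ?_
    · intro t ht
      rw [mem_filter, Fintype.mem_piFinset] at ht
      have hcast : (fun i => (((h i).val + W * t i : ℕ) : ZMod W)) = h := by
        funext i
        push_cast
        rw [ZMod.natCast_zmod_val, ZMod.natCast_self, zero_mul, add_zero]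
      unfold AA
      rw [mem_filter, mem_filter, mem_filter, Fintype.mem_piFinset]
      refine ⟨⟨⟨fun i => ?_, ?_⟩, ht.2⟩, hcast⟩
      · rw [mem_range]
        have h1 := ZMod.val_lt (h i)
        have h2 := mem_range.1 (ht.1 i)
        have h3 : W * (t i + 1) ≤ W * T := Nat.mul_le_mul_left _ h2
        rw [mul_add, mul_one] at h3
        omega
      · rw [adm_iff hW, hcast]
        exact hh
    · intro t _ t' _ heq
      funext i
      have := congrFun heq i
      have h2 : W * t i = W * t' i := by omega
      exact Nat.eq_of_mul_eq_mul_left hW0 h2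
    · intro a ha
      unfold AA at ha
      rw [mem_filter, mem_filter, mem_filter, Fintype.mem_piFinset] at ha
      obtain ⟨⟨⟨ha1, _⟩, ha2⟩, ha3⟩ := ha
      have hval : ∀ i, (h i).val = a i % W := by
        intro i
        rw [← congrFun ha3 i]
        exact ZMod.val_natCast _ _
      have heq : (fun i => (h i).val + W * (a i / W)) = a := by
        funext i
        rw [hval]
        exact Nat.mod_add_div _ _
      refine ⟨fun i => a i / W, ?_, heq⟩
      rw [mem_filter, Fintype.mem_piFinset, heq]
      refine ⟨fun i => ?_, ha2⟩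
      rw [mem_range]
      have := mem_range.1 (ha1 i)
      exact Nat.div_lt_of_lt_mul this
  · intro a ha
    unfold AA at ha
    rw [mem_coe, mem_filter, mem_filter] at ha
    exact (adm_iff hW a).1 ha.1.2

open Classical in
/-- the final count -/
theorem final_count (hW : ∀ p : ℕ, p.Prime → p ≤ k → p ∣ W) (hT : T = (y + 1) / W) (hT0 : 0 < T)
    (B : Finset (ZMod W)) (hB : ∀ b ∈ B, IsUnit b) {ε : ℝ} (hε : 0 ≤ ε)
    (hbad : ∀ h ∈ AdmZ k W, ∀ c ∈ VV h, (∀ i, c + h i ∉ B) →
      (((Fintype.piFinset (fun _ : Fin k => range T)).filter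
        (fun t => badT y (fun i => (h i).val + W * t i))).card : ℝ) ≤ ε * (T : ℝ) ^ k) :
    (1 - (k : ℝ) ^ 2 / T) * (((admissibleSets y k).filter (fun A => ¬ HasPrimes y A)).card : ℝ) ≤
      (ε + k * B.card / Nat.totient W + k / T) * ((admissibleSets y k).card : ℝ) := by
  have hW0 : 0 < W := Nat.pos_of_ne_zero (NeZero.ne W)
  have hT1 : (0 : ℝ) < T := by exact_mod_cast hT0
  have hWT : W * T ≤ y + 1 := by rw [hT]; exact Nat.mul_div_le _ _
  have hWT2 : y + 1 < W * T + W := by
    rw [hT]
    have := Nat.lt_mul_div_succ (y + 1) hW0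
    rw [mul_add, mul_one] at this
    exact this
  have hphi : (0 : ℝ) < Nat.totient W := by exact_mod_cast Nat.totient_pos.2 hW0
  -- the tuples below `W T`
  have c1 : (((AA k (W * T)).filter (badT y)).card : ℝ) ≤
      (ε + k * B.card / Nat.totient W) * ((AA k (W * T)).card : ℝ) := by
    have h1 : ((AA k (W * T)).card : ℝ) = (AdmZ k W).card * (T : ℝ) ^ k := by
      have h0 : (AA k (W * T)).card = ∑ h ∈ AdmZ k W, T ^ k := by
        have h0 := card_lifts (T := T) hW (fun _ => True)
        convert h0 using 1
        · congr 1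
          ext a
          simp
        · refine sum_congr rfl fun h _ => ?_
          have h00 : ((Fintype.piFinset (fun _ : Fin k => range T)).card) = T ^ k := by
            rw [Fintype.card_piFinset]; simp
          rw [← h00]
          congr 1
          ext a
          simp
      rw [h0, sum_const, smul_eq_mul, Nat.cast_mul, Nat.cast_pow]
    rw [h1, card_lifts hW]
    set Bd := (AdmZ k W).filter (fun h => ∀ c ∈ VV h, ∃ i, c + h i ∈ B) with hBd
    have h2 : ∀ h ∈ AdmZ k W, (((Fintype.piFinset (fun _ : Fin k => range T)).filter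
        (fun t => badT y (fun i => (h i).val + W * t i))).card : ℝ) ≤
        ε * (T : ℝ) ^ k + (if h ∈ Bd then (T : ℝ) ^ k else 0) := by
      intro h hh
      split_ifs with hm
      · have h3 : (((Fintype.piFinset (fun _ : Fin k => range T)).filter
            (fun t => badT y (fun i => (h i).val + W * t i))).card : ℝ) ≤ (T : ℝ) ^ k := by
          have := card_filter_le (Fintype.piFinset (fun _ : Fin k => range T))
            (fun t => badT y (fun i => (h i).val + W * t i))
          rw [Fintype.card_piFinset] at this
          simp only [card_range, prod_const, card_univ, Fintype.card_fin] at this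
          exact_mod_cast this
        have : 0 ≤ ε * (T : ℝ) ^ k := by positivity
        linarith
      · rw [add_zero]
        rw [hBd, mem_filter] at hm
        push Not at hm
        obtain ⟨c, hc, hc2⟩ := hm hh
        exact hbad h hh c hc hc2
    push_cast
    calc _ ≤ ∑ h ∈ AdmZ k W, (ε * (T : ℝ) ^ k + (if h ∈ Bd then (T : ℝ) ^ k else 0)) := sum_le_sum h2
      _ = (AdmZ k W).card * (ε * (T : ℝ) ^ k) + Bd.card * (T : ℝ) ^ k := by
          rw [sum_add_distrib, sum_const, nsmul_eq_mul, ← sum_filter, sum_const, nsmul_eq_mul]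
          congr 2
          rw [filter_mem_eq_inter, inter_eq_right.2 (filter_subset _ _)]
      _ ≤ (AdmZ k W).card * (ε * (T : ℝ) ^ k) + (k * B.card / Nat.totient W * (AdmZ k W).card) * (T : ℝ) ^ k := by
          gcongr
          have h5 := few_bad_vectors (k := k) B hB
          rw [div_mul_eq_mul_div, le_div_iff₀ hphi, mul_comm]
          exact h5
      _ = _ := by ring
  -- all tuples
  have c2 : (((AA k (y + 1)).filter (badT y)).card : ℝ) ≤
      (ε + k * B.card / Nat.totient W + k / T) * ((AA k (y + 1)).card : ℝ) := by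
    have h1 : (AA k (y + 1)).filter (badT y) ⊆ (AA k (W * T)).filter (badT y) ∪
        (univ : Finset (Fin k)).biUnion (fun j => (AA k (y + 1)).filter (fun a => W * T ≤ a j)) := by
      intro a ha
      rw [mem_filter] at ha
      by_cases h : ∀ j, a j < W * T
      · apply mem_union_left
        rw [mem_filter]
        refine ⟨?_, ha.2⟩
        have := ha.1
        unfold AA at this ⊢
        rw [mem_filter, Fintype.mem_piFinset] at this ⊢
        exact ⟨fun i => mem_range.2 (h i), this.2⟩
      · push Not at h
        obtain ⟨j, hj⟩ := h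
        apply mem_union_right
        rw [mem_biUnion]
        exact ⟨j, mem_univ _, mem_filter.2 ⟨ha.1, hj⟩⟩
    have h2 : ∀ j : Fin k, (((AA k (y + 1)).filter (fun a => W * T ≤ a j)).card : ℝ) ≤
        (AA k (y + 1)).card / T := by
      intro j
      rw [le_div_iff₀ hT1]
      have := card_determined (T := T) hW hWT j ((AA k (y + 1)).filter (fun a => W * T ≤ a j))
        (filter_subset _ _) (by
          intro a ha b hb _ hmod
          rw [mem_filter] at ha hb
          have ha1 := ha.1
          have hb1 := hb.1
          unfold AA at ha1 hb1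
          rw [mem_filter, Fintype.mem_piFinset] at ha1 hb1
          have h3 := mem_range.1 (ha1.1 j)
          have h4 := mem_range.1 (hb1.1 j)
          have key : ∀ x : ℕ, W * T ≤ x → x < y + 1 → x = W * T + x % W := by
            intro x hx1 hx2
            obtain ⟨r, hr⟩ := Nat.exists_eq_add_of_le hx1
            rw [hr, Nat.mul_add_mod, Nat.mod_eq_of_lt (by omega)]
          rw [key _ ha.2 h3, key _ hb.2 h4, hmod])
      exact_mod_cast this
    have h3 : (((AA k (y + 1)).filter (badT y)).card : ℝ) ≤ ((AA k (W * T)).filter (badT y)).card +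
        ∑ j : Fin k, (((AA k (y + 1)).filter (fun a => W * T ≤ a j)).card : ℝ) := by
      have := (card_le_card h1).trans (card_union_le _ _)
      have h4 := this.trans (Nat.add_le_add_left card_biUnion_le _)
      exact_mod_cast h4
    have h4 : ((AA k (W * T)).card : ℝ) ≤ (AA k (y + 1)).card := by
      have : AA k (W * T) ⊆ AA k (y + 1) := by
        intro a ha
        unfold AA at ha ⊢
        rw [mem_filter, Fintype.mem_piFinset] at ha ⊢
        exact ⟨fun i => mem_range.2 ((mem_range.1 (ha.1 i)).trans_le hWT), ha.2⟩
      exact_mod_cast card_le_card this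
    calc _ ≤ (((AA k (W * T)).filter (badT y)).card : ℝ) +
          ∑ j : Fin k, (((AA k (y + 1)).filter (fun a => W * T ≤ a j)).card : ℝ) := h3
      _ ≤ (ε + k * B.card / Nat.totient W) * ((AA k (W * T)).card : ℝ) +
          ∑ j : Fin k, ((AA k (y + 1)).card : ℝ) / T := add_le_add c1 (sum_le_sum fun j _ => h2 j)
      _ ≤ (ε + k * B.card / Nat.totient W) * ((AA k (y + 1)).card : ℝ) + k * (((AA k (y + 1)).card : ℝ) / T) := by
          rw [sum_const, card_univ, Fintype.card_fin, nsmul_eq_mul]
          gcongr
      _ = _ := by ring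
  -- injective tuples
  set Inj := (AA k (y + 1)).filter (fun a => Function.Injective a) with hInj
  have c3 : (1 - (k : ℝ) ^ 2 / T) * ((AA k (y + 1)).card : ℝ) ≤ Inj.card := by
    have h1 : AA k (y + 1) ⊆ Inj ∪ (univ : Finset (Fin k × Fin k)).biUnion (fun x =>
        (AA k (y + 1)).filter (fun a => x.1 ≠ x.2 ∧ a x.1 = a x.2)) := by
      intro a ha
      by_cases h : Function.Injective a
      · exact mem_union_left _ (mem_filter.2 ⟨ha, h⟩)
      · apply mem_union_right
        unfold Function.Injective at h
        push Not at h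
        obtain ⟨i, j, h3, h4⟩ := h
        rw [mem_biUnion]
        exact ⟨(i, j), mem_univ _, mem_filter.2 ⟨ha, h4, h3⟩⟩
    have h2 : ∀ x : Fin k × Fin k, (((AA k (y + 1)).filter (fun a => x.1 ≠ x.2 ∧ a x.1 = a x.2)).card : ℝ) ≤
        (AA k (y + 1)).card / T := by
      rintro ⟨i, j⟩
      rw [le_div_iff₀ hT1]
      have := card_determined (T := T) hW hWT j ((AA k (y + 1)).filter (fun a => i ≠ j ∧ a i = a j))
        (filter_subset _ _) (by
          intro a ha b hb hl _
          rw [mem_filter] at ha hb
          rw [← ha.2.2, ← hb.2.2]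
          exact hl i ha.2.1)
      exact_mod_cast this
    have h3 : ((AA k (y + 1)).card : ℝ) ≤ Inj.card + ∑ x : Fin k × Fin k,
        (((AA k (y + 1)).filter (fun a => x.1 ≠ x.2 ∧ a x.1 = a x.2)).card : ℝ) := by
      have := (card_le_card h1).trans (card_union_le _ _)
      have h4 := this.trans (Nat.add_le_add_left card_biUnion_le _)
      exact_mod_cast h4
    have h4 : ∑ x : Fin k × Fin k,
        (((AA k (y + 1)).filter (fun a => x.1 ≠ x.2 ∧ a x.1 = a x.2)).card : ℝ) ≤
        (k : ℝ) ^ 2 * (((AA k (y + 1)).card : ℝ) / T) := by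
      refine (sum_le_sum fun x _ => h2 x).trans (le_of_eq ?_)
      rw [sum_const, card_univ, Fintype.card_prod, Fintype.card_fin, nsmul_eq_mul]
      push_cast
      ring
    have h5 : (1 - (k : ℝ) ^ 2 / T) * ((AA k (y + 1)).card : ℝ) =
        ((AA k (y + 1)).card : ℝ) - (k : ℝ) ^ 2 * (((AA k (y + 1)).card : ℝ) / T) := by ring
    rw [h5]
    linarith
  -- subsets
  have s1 : (admissibleSets y k).card * k.factorial = Inj.card := by
    unfold admissibleSets
    rw [card_subsets, hInj]
    congr 1
    unfold AA
    ext a
    simp only [mem_filter, admT_iff]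
    tauto
  have s2 : ((admissibleSets y k).filter (fun A => ¬ HasPrimes y A)).card * k.factorial ≤
      ((AA k (y + 1)).filter (badT y)).card := by
    unfold admissibleSets
    have h0 := card_subsets (range (y + 1)) k (fun a => Admissible a ∧ ¬ HasPrimes y a)
    rw [filter_filter]
    refine le_trans (le_of_eq ?_) (le_trans (le_of_eq h0) ?_)
    · congr!
    apply card_le_card
    unfold AA
    intro a ha
    simp only [mem_filter, admT_iff, badT_iff] at ha ⊢
    tauto
  have hk0 : (0 : ℝ) < k.factorial := by exact_mod_cast Nat.factorial_pos k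
  have s1' : ((admissibleSets y k).card : ℝ) * k.factorial = Inj.card := by exact_mod_cast s1
  have s2' : (((admissibleSets y k).filter (fun A => ¬ HasPrimes y A)).card : ℝ) * k.factorial ≤
      ((AA k (y + 1)).filter (badT y)).card := by exact_mod_cast s2
  have hE : 0 ≤ ε + k * B.card / Nat.totient W + k / T := by positivity
  rcases le_or_gt (1 - (k : ℝ) ^ 2 / T) 0 with hneg | hpos
  · have h1 : (1 - (k : ℝ) ^ 2 / T) * (((admissibleSets y k).filter (fun A => ¬ HasPrimes y A)).card : ℝ) ≤ 0 :=
      mul_nonpos_of_nonpos_of_nonneg hneg (by positivity)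
    have h2 : 0 ≤ (ε + k * B.card / Nat.totient W + k / T) * ((admissibleSets y k).card : ℝ) := by positivity
    linarith
  · refine le_of_mul_le_mul_right ?_ hk0
    calc (1 - (k : ℝ) ^ 2 / T) * (((admissibleSets y k).filter (fun A => ¬ HasPrimes y A)).card : ℝ) * k.factorial
        = (1 - (k : ℝ) ^ 2 / T) * ((((admissibleSets y k).filter (fun A => ¬ HasPrimes y A)).card : ℝ) * k.factorial) := by
          ring
      _ ≤ (1 - (k : ℝ) ^ 2 / T) * ((ε + k * B.card / Nat.totient W + k / T) * ((AA k (y + 1)).card : ℝ)) := by
          exact mul_le_mul_of_nonneg_left (s2'.trans c2) hpos.le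
      _ = (ε + k * B.card / Nat.totient W + k / T) * ((1 - (k : ℝ) ^ 2 / T) * ((AA k (y + 1)).card : ℝ)) := by ring
      _ ≤ (ε + k * B.card / Nat.totient W + k / T) * Inj.card := by gcongr
      _ = _ := by rw [← s1']; ring

end main

end Pool.Agent.J4H81.PT
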