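import Pool.Agent.J4H81.PT.FCd

/-!
# Growing prime tuples: almost all long admissible tuples (helper81)
-/

set_option autoImplicit false

namespace Pool.Agent.J4H81.PT

open Finset MeasureTheory Filter
open Pool.Agent.J4H81.PT.ZF (NoZ good_scales)

theorem pow_exp_rpow {α c : ℝ} (hα : 0 < α) (hc : 0 < c) (K : ℕ) (C : ℝ) (hC : 0 ≤ C) :
    ∀ᶠ l : ℝ in atTop, C * l ^ K ≤ Real.exp (c * l ^ α) := by
  set m : ℕ := ⌈(K : ℝ) / α⌉₊ with hm
  have h1 := (tendsto_rpow_atTop hα).eventually (poly_exp hc m C)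
  filter_upwards [h1, eventually_ge_atTop (1 : ℝ)] with l hl hl1
  refine le_trans (mul_le_mul_of_nonneg_left ?_ hC) hl
  have h2 : (K : ℝ) ≤ α * m := by
    have : (K : ℝ) / α ≤ m := Nat.le_ceil _
    rwa [div_le_iff₀ hα, mul_comm] at this
  calc l ^ K = l ^ (K : ℝ) := (Real.rpow_natCast l K).symm
    _ ≤ l ^ (α * m) := Real.rpow_le_rpow_of_exponent_le hl1 h2
    _ = (l ^ α) ^ m := by rw [Real.rpow_mul (by linarith), Real.rpow_natCast]

open Classical in
/-- **Main theorem.** -/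
theorem main {δ : ℝ} (hδ : 0 < δ) (hδ1 : δ < 1) (x₀ : ℝ) : ∃ X : ℝ, x₀ ≤ X ∧ 1 ≤ X ∧
    ∀ x : ℝ, X ≤ x → Real.log x ≤ Real.log X ^ (1 + δ / 2) →
    ∀ y : ℕ, x ^ δ ≤ y → (y : ℝ) ≤ x → ∀ k : ℕ, 1 ≤ k →
      (((admissibleSets y k).filter (fun A => ¬ HasPrimes y A)).card : ℝ) ≤
        (k / Real.log x ^ (1 - δ)) * ((admissibleSets y k).card : ℝ) := by
  obtain ⟨c₀, hc₀, hc₀1, hgood⟩ := good_scales
  obtain ⟨c, C, l₀, K, hc, hc1, hC, hstep⟩ := final_step hc₀ hc₀1
  have hδ16 : 0 < δ / 16 := by linarith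
  have hlog := (isLittleO_log_rpow_atTop hδ16).bound (show (0 : ℝ) < 1 / 3000 by norm_num)
  have hev := ((tendsto_rpow_atTop hδ16).eventually (eventually_ge_atTop (max 10000 (101 / δ)))).and
    (hlog.and (((pow_exp_rpow hδ16 (show 0 < c * δ / 2 by positivity) (K + 1) (4 * C) (by positivity))).and
      ((poly_exp (show (0 : ℝ) < 1 / 100 by norm_num) (K + 1) (4 * C)).and
        ((eventually_ge_atTop (max (max 10000 l₀) |x₀|))))))
  obtain ⟨L₁, hL₁⟩ := eventually_atTop.1 hev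
  obtain ⟨l, hl, hno⟩ := hgood L₁
  obtain ⟨hu, hlogl, hE1, hE2, hll⟩ := hL₁ l hl
  have hl10 : 10000 ≤ l := (le_max_left _ _).trans ((le_max_left _ _).trans hll)
  have hl₀ : l₀ ≤ l := (le_max_right _ _).trans ((le_max_left _ _).trans hll)
  have hlx₀ : |x₀| ≤ l := (le_max_right _ _).trans hll
  have hl0 : 0 < l := by linarith
  have hl1 : 1 ≤ l := by linarith
  set u : ℝ := l ^ (δ / 16) with hudef
  have hu10 : 10000 ≤ u := (le_max_left _ _).trans hu
  have hu1 : 100 ≤ u := by linarith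
  have hu3 : 101 / δ ≤ u := (le_max_right _ _).trans hu
  have hu0 : 0 < u := by linarith
  have hupow : ∀ n : ℕ, u ^ n = l ^ (δ / 16 * n) := by
    intro n
    rw [hudef, ← Real.rpow_natCast, ← Real.rpow_mul hl0.le]
  have hul : u ^ 16 ≤ l := by
    rw [hupow]
    calc l ^ (δ / 16 * (16 : ℕ)) ≤ l ^ (1 : ℝ) := Real.rpow_le_rpow_of_exponent_le hl1 (by push_cast; linarith)
      _ = l := Real.rpow_one l
  have huu1 : u + 1 ≤ l := by
    have h1 : u ^ 2 ≤ u ^ 16 := pow_le_pow_right₀ (by linarith) (by norm_num)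
    nlinarith only [h1, hul, hu1]
  have hu2l : u ^ 2 ≤ l := by
    have : u ^ 2 ≤ u ^ 16 := pow_le_pow_right₀ (by linarith) (by norm_num)
    linarith
  set X : ℝ := Real.exp (l * u) with hX
  have hlogX : Real.log X = l * u := Real.log_exp _
  have hX1 : 1 ≤ X := Real.one_le_exp (by positivity)
  refine ⟨X, ?_, hX1, ?_⟩
  · have h1 : l ≤ l * u := le_mul_of_one_le_right hl0.le (by linarith)
    have h2 := Real.add_one_le_exp (l * u)
    have h3 := le_abs_self x₀
    linarith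
  intro x hxX hxup y hy1 hy2 k hk1
  have hx1 : 1 ≤ x := hX1.trans hxX
  have hx0 : 0 < x := by linarith
  have hL1 : l * u ≤ Real.log x := by
    rw [← hlogX]
    exact Real.log_le_log (by linarith) hxX
  have hlu0 : 0 < l * u := by positivity
  have hL0 : 0 < Real.log x := lt_of_lt_of_le hlu0 hL1
  -- the upper bound of the logarithm
  have hL2 : Real.log x ≤ l ^ (1 + 19 * δ / 32) := by
    refine hxup.trans ?_
    rw [hlogX]
    have h1 : l * u = l ^ (1 + δ / 16) := by rw [Real.rpow_add hl0, Real.rpow_one]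
    rw [h1, ← Real.rpow_mul hl0.le]
    apply Real.rpow_le_rpow_of_exponent_le hl1
    nlinarith only [hδ, hδ1, mul_nonneg hδ.le (sub_nonneg.2 hδ1.le)]
  -- the number of elements
  have hlogx1 : Real.log x ^ (1 - δ) ≤ l / u ^ 3 := by
    have h1 : Real.log x ^ (1 - δ) ≤ (l ^ (1 + 19 * δ / 32)) ^ (1 - δ) := Real.rpow_le_rpow hL0.le hL2 (by linarith)
    refine h1.trans ?_
    have h2 : l / u ^ 3 = l ^ (1 - δ / 16 * (3 : ℕ)) := by
      rw [Real.rpow_sub hl0, Real.rpow_one, hupow]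
    rw [h2, ← Real.rpow_mul hl0.le]
    apply Real.rpow_le_rpow_of_exponent_le hl1
    push_cast
    nlinarith only [hδ, hδ1, mul_nonneg hδ.le hδ.le]
  have hlogx0 : 0 < Real.log x ^ (1 - δ) := Real.rpow_pos_of_pos hL0 _
  have hk1' : (1 : ℝ) ≤ k := by exact_mod_cast hk1
  rcases lt_or_ge (Real.log x ^ (1 - δ)) (k : ℝ) with hk | hk
  · have h1 : (((admissibleSets y k).filter (fun A => ¬ HasPrimes y A)).card : ℝ) ≤ ((admissibleSets y k).card : ℝ) := by
      exact_mod_cast card_filter_le _ _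
    refine h1.trans (le_mul_of_one_le_left (Nat.cast_nonneg _) ?_)
    rw [le_div_iff₀ hlogx0]
    linarith
  have hk0 : (0 : ℝ) ≤ k := Nat.cast_nonneg _
  have hku : (k : ℝ) ≤ l / u ^ 3 := hk.trans hlogx1
  have hxδ : x ^ δ = Real.exp (δ * Real.log x) := by
    rw [Real.rpow_def_of_pos hx0, mul_comm]
  have hlogy : δ * (l * u) ≤ Real.log y := by
    rw [hxδ] at hy1
    have h2 : δ * (l * u) ≤ δ * Real.log x := mul_le_mul_of_nonneg_left hL1 hδ.le
    refine h2.trans ?_
    rw [← Real.log_exp (δ * Real.log x)]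
    exact Real.log_le_log (Real.exp_pos _) hy1
  have hy0 : (0 : ℝ) < y := lt_of_lt_of_le (Real.rpow_pos_of_pos hx0 _) hy1
  set η : ℝ := u / l with hη
  have hη0 : 0 < η := by positivity
  have hmain := hstep l hl₀ hno y k η hη0 ?_ ?_ ?_ ?_ ?_ ?_
  · refine hmain.trans (mul_le_mul_of_nonneg_right ?_ (Nat.cast_nonneg _))
    have h0 : u ^ 3 * k / l ≤ k / Real.log x ^ (1 - δ) := by
      rw [div_le_div_iff₀ hl0 hlogx0]
      have := mul_le_mul_of_nonneg_left hlogx1 (show 0 ≤ u ^ 3 * (k : ℝ) by positivity)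
      have h2 : u ^ 3 * (k : ℝ) * (l / u ^ 3) = k * l := by field_simp
      rw [h2] at this
      exact this
    have hkl0 : 0 ≤ (k : ℝ) / l := by positivity
    have h1 : 16 * (k : ℝ) * η ≤ u ^ 3 * k / l / 4 := by
      have h2 : 16 * (k : ℝ) * η = 16 * u * (k / l) := by rw [hη]; ring
      have h3 : u ^ 3 * k / l / 4 = u ^ 3 / 4 * (k / l) := by ring
      rw [h2, h3]
      apply mul_le_mul_of_nonneg_right _ hkl0
      nlinarith only [hu1, mul_nonneg hu0.le (mul_nonneg hu0.le hu0.le), mul_nonneg hu0.le hu0.le]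
    have h2 : 16000 * (k : ℝ) / l ≤ u ^ 3 * k / l / 4 := by
      have h2 : 16000 * (k : ℝ) / l = 16000 * (k / l) := by ring
      have h3 : u ^ 3 * k / l / 4 = u ^ 3 / 4 * (k / l) := by ring
      rw [h2, h3]
      apply mul_le_mul_of_nonneg_right _ hkl0
      have h4 : (100 : ℝ) ^ 3 ≤ u ^ 3 := pow_le_pow_left₀ (by norm_num) hu1 3
      linarith
    have hu31 : 1 ≤ u ^ 3 * k := one_le_mul_of_one_le_of_one_le (one_le_pow₀ (by linarith)) hk1'
    have h3 : C * l ^ K * Real.exp (-(c * Real.log y / (2 * l))) ≤ u ^ 3 * k / l / 4 := by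
      have h4 : c * δ / 2 * u ≤ c * Real.log y / (2 * l) := by
        rw [le_div_iff₀ (by positivity)]
        have h5 : c * δ / 2 * u * (2 * l) = c * (δ * (l * u)) := by ring
        rw [h5]
        exact mul_le_mul_of_nonneg_left hlogy hc.le
      have h5 : 4 * C * l ^ (K + 1) * Real.exp (-(c * Real.log y / (2 * l))) ≤ 1 := by
        calc 4 * C * l ^ (K + 1) * Real.exp (-(c * Real.log y / (2 * l))) ≤
              Real.exp (c * δ / 2 * u) * Real.exp (-(c * Real.log y / (2 * l))) := by gcongr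
          _ = Real.exp (c * δ / 2 * u + -(c * Real.log y / (2 * l))) := (Real.exp_add _ _).symm
          _ ≤ 1 := Real.exp_le_one_iff.2 (by linarith)
      rw [div_div, le_div_iff₀ (by positivity)]
      calc C * l ^ K * Real.exp (-(c * Real.log y / (2 * l))) * (l * 4) =
            4 * C * l ^ (K + 1) * Real.exp (-(c * Real.log y / (2 * l))) := by ring
        _ ≤ _ := h5.trans hu31
    have h4 : C * l ^ K * Real.exp (-(l / 100)) ≤ u ^ 3 * k / l / 4 := by
      have h5 : 4 * C * l ^ (K + 1) * Real.exp (-(l / 100)) ≤ 1 := by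
        calc 4 * C * l ^ (K + 1) * Real.exp (-(l / 100)) ≤ Real.exp (1 / 100 * l) * Real.exp (-(l / 100)) := by gcongr
          _ = Real.exp (1 / 100 * l + -(l / 100)) := (Real.exp_add _ _).symm
          _ ≤ 1 := Real.exp_le_one_iff.2 (by linarith)
      rw [div_div, le_div_iff₀ (by positivity)]
      calc C * l ^ K * Real.exp (-(l / 100)) * (l * 4) = 4 * C * l ^ (K + 1) * Real.exp (-(l / 100)) := by ring
        _ ≤ _ := h5.trans hu31
    rw [mul_add]
    linarith
  · -- η ≤ 1 / 2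
    rw [hη, div_le_iff₀ hl0]
    nlinarith only [hu2l, hu1]
  · have h1 : 8 / η = 8 * l * (1 / u) := by rw [hη]; field_simp
    rw [h1]
    have h2 : 1 / u ≤ 1 / 10000 := one_div_le_one_div_of_le (by norm_num) hu10
    have h3 : 8 * l * (1 / u) ≤ 8 * l * (1 / 10000) := mul_le_mul_of_nonneg_left h2 (by positivity)
    linarith
  · have h1 : (k : ℝ) * η ≤ 1 / u ^ 2 := by
      calc (k : ℝ) * η ≤ (l / u ^ 3) * (u / l) := by rw [hη]; gcongr
        _ = 1 / u ^ 2 := by field_simp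
    have h2 : 1 / u ^ 2 ≤ 1 / 100 := one_div_le_one_div_of_le (by norm_num) (by nlinarith only [hu1])
    linarith
  · have h1 : Real.log (2 * l ^ 2) ≤ 3 * Real.log l := by
      rw [Real.log_mul (by norm_num) (by positivity), Real.log_pow]
      have : Real.log 2 ≤ Real.log l := Real.log_le_log (by norm_num) (by linarith)
      push_cast
      linarith
    have h2 : 3 * Real.log l ≤ u ^ 3 / 1000 := by
      rw [Real.norm_of_nonneg (Real.log_nonneg hl1), Real.norm_of_nonneg (by positivity)] at hlogl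
      have : u ≤ u ^ 3 := le_self_pow₀ (by linarith) (by norm_num)
      linarith
    have h3 : 0 ≤ Real.log (2 * l ^ 2) := Real.log_nonneg (by nlinarith only [hl1])
    calc (k : ℝ) * Real.log (2 * l ^ 2) ≤ (l / u ^ 3) * (u ^ 3 / 1000) := mul_le_mul hku (h1.trans h2) h3 (by positivity)
      _ = l / 1000 := by field_simp
  · rw [← Real.le_log_iff_exp_le hy0]
    refine le_trans ?_ hlogy
    have h1 : 101 ≤ δ * u := by rwa [div_le_iff₀ hδ, mul_comm] at hu3
    have h2 : δ * (l * u) = (δ * u) * l := by ring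
    rw [h2]
    gcongr
  · have h1 : ((y + 1 : ℕ) : ℝ) ≤ x * Real.exp 1 := by
      push_cast
      have h3 : 2 ≤ Real.exp 1 := by have := Real.exp_one_gt_d9; linarith
      nlinarith only [hy2, hx1, h3]
    have h2 := Real.log_le_log (by positivity) h1
    rw [Real.log_mul hx0.ne' (Real.exp_pos _).ne', Real.log_exp] at h2
    refine h2.trans ?_
    have h3 : l ^ (1 + 19 * δ / 32) ≤ l * l ^ (19 / 32 : ℝ) := by
      rw [Real.rpow_add hl0, Real.rpow_one]
      apply mul_le_mul_of_nonneg_left _ hl0.le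
      apply Real.rpow_le_rpow_of_exponent_le hl1
      linarith
    have h4 : l ^ (19 / 32 : ℝ) + 1 ≤ l := by
      have h5 : l ^ (19 / 32 : ℝ) * l ^ (13 / 32 : ℝ) = l := by
        rw [← Real.rpow_add hl0]
        norm_num
      have h6 : (2 : ℝ) ≤ l ^ (13 / 32 : ℝ) := by
        have h7 : (1024 : ℝ) ^ (13 / 32 : ℝ) ≤ l ^ (13 / 32 : ℝ) := Real.rpow_le_rpow (by norm_num) (by linarith) (by norm_num)
        refine le_trans ?_ h7
        rw [show (1024 : ℝ) = 2 ^ (10 : ℝ) by norm_num, ← Real.rpow_mul (by norm_num)]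
        calc (2 : ℝ) = 2 ^ (1 : ℝ) := (Real.rpow_one 2).symm
          _ ≤ 2 ^ (10 * (13 / 32) : ℝ) := Real.rpow_le_rpow_of_exponent_le (by norm_num) (by norm_num)
      have h8 : 1 ≤ l ^ (19 / 32 : ℝ) := Real.one_le_rpow hl1 (by norm_num)
      nlinarith only [h5, h6, h8]
    nlinarith only [h3, h4, hL2, hl1]

end Pool.Agent.J4H81.PT
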