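import Pool.Agent.J4H81.PT.LB
import Pool.Agent.J4H81.PT.CMb

/-!
# Growing prime tuples: assembly of the combinatorial part (helper81)
-/

set_option autoImplicit false

namespace Pool.Agent.J4H81.PT

open Finset

open Classical in
/-- Functions `F b` on the lifts of the classes `b` modulo `W`, supported on primes, with mean value one and pair
correlations at most `PP w D`, for all classes but those of a small set `B`, give solutions for almost all admissible sets. -/
theorem assemble {k W y T U w M₀ : ℕ} [NeZero W] (hW : ∀ p : ℕ, p.Prime → p ≤ k → p ∣ W) (hT : T = (y + 1) / W)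
    (hT0 : 0 < T) (hU : 0 < U) (hUT : U + 1 ≤ T) (hkw : k ≤ w) (hw : 1 ≤ w)
    (F : ZMod W → ℕ → ℝ) (hF0 : ∀ b s, 0 ≤ F b s) (hFp : ∀ b s, F b s ≠ 0 → (b.val + W * s).Prime)
    (hFs : ∀ b s, T ≤ s → F b s = 0) {B₀ η : ℝ} (hB₀ : ∀ b s, F b s ≤ B₀) (hη : 0 ≤ η) (hη1 : 2 * η ≤ 1)
    (hsmall : k * (2 * η) + 2 * k / w ≤ 1) (hUB : (U + 1) * B₀ ≤ η * T)
    (B : Finset (ZMod W)) (hB : ∀ b ∈ B, IsUnit b) (Ex : ZMod W → Finset ℕ)
    (h1 : ∀ b, IsUnit b → b ∉ B → (1 - η) * T ≤ ∑ s ∈ range T, F b s)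
    (h1' : ∀ b, IsUnit b → b ∉ B → ∑ s ∈ range T, F b s ≤ 2 * T)
    (h2 : ∀ b, IsUnit b → b ∉ B → ∀ D, 1 ≤ D → D < U → D ∉ Ex b →
      ∑ s ∈ range T, F b s * F b (s + D) ≤ (1 + η) * T * PP w D)
    (h3 : ∀ b, IsUnit b → b ∉ B → (Ex b).card ≤ M₀) :
    (1 - (k : ℝ) ^ 2 / T) * (((admissibleSets y k).filter (fun A => ¬ HasPrimes y A)).card : ℝ) ≤
      ((8 * k * η + 4 * k / w + (2 * B₀) ^ k * (1 + 2 * k * M₀) / U) + k * B.card / Nat.totient W + k / T) *
        ((admissibleSets y k).card : ℝ) := by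
  classical
  have hW0 : 0 < W := Nat.pos_of_ne_zero (NeZero.ne W)
  have hT' : (0 : ℝ) < T := by exact_mod_cast hT0
  have hB00 : 0 ≤ B₀ := (hF0 0 0).trans (hB₀ 0 0)
  have hWT : W * T ≤ y + 1 := by rw [hT]; exact Nat.mul_div_le _ _
  refine final_count hW hT hT0 B hB (by positivity) ?_
  intro h hh c hc hcB
  have hunit : ∀ i, IsUnit (c + h i) := by
    intro i
    unfold VV at hc
    rw [mem_filter] at hc
    exact hc.2 i
  -- the carries
  set e : Fin k → ℕ := fun i => (c.val + (h i).val) / W with he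
  have hsum : ∀ i, c.val + (h i).val = (c + h i).val + W * e i := by
    intro i
    rw [ZMod.val_add, he]
    exact (Nat.mod_add_div _ _).symm
  have he1 : ∀ i, e i ≤ 1 := by
    intro i
    have h4 := ZMod.val_lt c
    have h5 := ZMod.val_lt (h i)
    have : (c.val + (h i).val) / W < 2 := by
      rw [Nat.div_lt_iff_lt_mul hW0]; omega
    exact Nat.lt_succ_iff.1 this
  set f : Fin k → ℕ → ℝ := fun i s => F (c + h i) (s + 1 + e i) with hf
  have hf0 : ∀ i s, 0 ≤ f i s := fun i s => hF0 _ _
  have hshift : ∀ i, ∀ u < U, ∑ t ∈ range T, f i (u + t) = ∑ s ∈ Ico (u + 1 + e i) (u + 1 + e i + T), F (c + h i) s := by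
    intro i u _
    rw [sum_Ico_eq_sum_range]
    have : u + 1 + e i + T - (u + 1 + e i) = T := by omega
    rw [this]
    refine sum_congr rfl fun t _ => ?_
    show F (c + h i) (u + t + 1 + e i) = F (c + h i) (u + 1 + e i + t)
    congr 1
    omega
  have g1 : ∀ i, ∀ u < U, (1 - 2 * η) * T ≤ ∑ t ∈ range T, f i (u + t) := by
    intro i u hu
    rw [hshift i u hu]
    have h4 := h1 _ (hunit i) (hcB i)
    have h5 : ∑ s ∈ range T, F (c + h i) s ≤ ∑ s ∈ range (u + 1 + e i), F (c + h i) s +
        ∑ s ∈ Ico (u + 1 + e i) (u + 1 + e i + T), F (c + h i) s := by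
      rw [sum_range_add_sum_Ico _ (show u + 1 + e i ≤ u + 1 + e i + T by omega)]
      apply sum_le_sum_of_subset_of_nonneg
      · intro s hs; rw [mem_range] at hs ⊢; omega
      · intro s _ _; exact hF0 _ _
    have h6 : ∑ s ∈ range (u + 1 + e i), F (c + h i) s ≤ (U + 1) * B₀ := by
      calc _ ≤ ∑ s ∈ range (u + 1 + e i), B₀ := sum_le_sum fun s _ => hB₀ _ _
        _ = ((u + 1 + e i : ℕ) : ℝ) * B₀ := by rw [sum_const, card_range, nsmul_eq_mul]
        _ ≤ _ := by
            gcongr
            have := he1 i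
            have h7 : u + 1 + e i ≤ U + 1 := by omega
            exact_mod_cast h7
    linarith
  have g1' : ∀ i, ∀ u < U, ∑ t ∈ range T, f i (u + t) ≤ 2 * T := by
    intro i u hu
    rw [hshift i u hu]
    refine le_trans ?_ (h1' _ (hunit i) (hcB i))
    have h5 : ∀ s ∈ Ico (u + 1 + e i) (u + 1 + e i + T), s ∉ (range T).filter (fun s => s ∈ Ico (u + 1 + e i) (u + 1 + e i + T)) →
        F (c + h i) s = 0 := by
      intro s hs hs2
      apply hFs
      by_contra hcon
      push Not at hcon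
      exact hs2 (mem_filter.2 ⟨mem_range.2 hcon, hs⟩)
    rw [← sum_subset (s₁ := (range T).filter (fun s => s ∈ Ico (u + 1 + e i) (u + 1 + e i + T)))
      (fun s hs => (mem_filter.1 hs).2) h5]
    exact sum_le_sum_of_subset_of_nonneg (filter_subset _ _) (fun s _ _ => hF0 _ _)
  have gsq : ∀ i, ∀ u < U, ∑ t ∈ range T, f i (u + t) ^ 2 ≤ (2 * B₀) * T := by
    intro i u hu
    calc _ ≤ ∑ t ∈ range T, B₀ * f i (u + t) := by
          apply sum_le_sum
          intro t _
          rw [sq]
          exact mul_le_mul_of_nonneg_right (hB₀ _ _) (hf0 i _)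
      _ = B₀ * ∑ t ∈ range T, f i (u + t) := by rw [mul_sum]
      _ ≤ B₀ * (2 * T) := by gcongr; exact g1' i u hu
      _ = _ := by ring
  set ExU : Finset ℕ := (univ : Finset (Fin k)).biUnion (fun i => Ex (c + h i)) with hExU
  have hExc : (ExU.card : ℝ) ≤ k * M₀ := by
    have h4 : ExU.card ≤ k * M₀ := by
      rw [hExU]
      refine card_biUnion_le.trans ?_
      calc _ ≤ ∑ i : Fin k, M₀ := sum_le_sum fun i _ => h3 _ (hunit i) (hcB i)
        _ = _ := by simp
    exact_mod_cast h4
  have g2 : ∀ i, ∀ D, 1 ≤ D → D < U → D ∉ ExU → ∑ s ∈ range (T + U), f i s * f i (s + D) ≤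
      (1 + 2 * η) * T * PP w D := by
    intro i D hD1 hDU hD
    have hD2 : D ∉ Ex (c + h i) := by
      intro hcon
      apply hD
      rw [hExU, mem_biUnion]
      exact ⟨i, mem_univ _, hcon⟩
    have h4 := h2 _ (hunit i) (hcB i) D hD1 hDU hD2
    have hP := PP_one_le w D
    have h5 : (1 + η) * T * PP w D ≤ (1 + 2 * η) * T * PP w D := by
      have : 0 ≤ η * (T : ℝ) * PP w D := by positivity
      nlinarith
    refine le_trans ?_ (h4.trans h5)
    have e1 : ∑ s ∈ range (T + U), f i s * f i (s + D) =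
        ∑ s ∈ Ico (1 + e i) (T + U + (1 + e i)), F (c + h i) s * F (c + h i) (s + D) := by
      rw [sum_Ico_eq_sum_range]
      have : T + U + (1 + e i) - (1 + e i) = T + U := by omega
      rw [this]
      refine sum_congr rfl fun s _ => ?_
      show F (c + h i) (s + 1 + e i) * F (c + h i) (s + D + 1 + e i) =
        F (c + h i) (1 + e i + s) * F (c + h i) (1 + e i + s + D)
      have a1 : s + 1 + e i = 1 + e i + s := by omega
      have a2 : s + D + 1 + e i = 1 + e i + s + D := by omega
      rw [a1, a2]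
    rw [e1]
    have h6 : ∀ s ∈ Ico (1 + e i) (T + U + (1 + e i)), s ∉ (range T).filter (fun s => s ∈ Ico (1 + e i) (T + U + (1 + e i))) →
        F (c + h i) s * F (c + h i) (s + D) = 0 := by
      intro s hs hs2
      rw [hFs _ s, zero_mul]
      by_contra hcon
      push Not at hcon
      exact hs2 (mem_filter.2 ⟨mem_range.2 hcon, hs⟩)
    rw [← sum_subset (s₁ := (range T).filter (fun s => s ∈ Ico (1 + e i) (T + U + (1 + e i))))
      (fun s hs => (mem_filter.1 hs).2) h6]
    exact sum_le_sum_of_subset_of_nonneg (filter_subset _ _) (fun s _ _ => mul_nonneg (hF0 _ _) (hF0 _ _))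
  have key := lift_bound hT0 hU hkw hw f hf0 (η := 2 * η) (B := 2 * B₀) (by linarith) hη1 (by linarith) hsmall
    g1 gsq ExU g2
  -- bad lifts have no solution
  have hsub : (Fintype.piFinset (fun _ : Fin k => range T)).filter
      (fun t => badT y (fun i => (h i).val + W * t i)) ⊆
      (Fintype.piFinset (fun _ : Fin k => range T)).filter (fun t => ∑ u ∈ range U, ∏ i, f i (u + t i) = 0) := by
    intro t ht
    rw [mem_filter] at ht ⊢
    refine ⟨ht.1, ?_⟩
    apply sum_eq_zero
    intro u hu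
    rw [mem_range] at hu
    by_contra hne
    apply ht.2
    refine ⟨c.val + W * (u + 1), ?_, ?_, fun i => ?_⟩
    · have : W * 1 ≤ W * (u + 1) := Nat.mul_le_mul_left _ (by omega)
      omega
    · have h4 := ZMod.val_lt c
      have h5 : W * (u + 1 + 1) ≤ W * T := Nat.mul_le_mul_left _ (by omega)
      have h6 : W * (u + 1 + 1) = W * (u + 1) + W := by ring
      omega
    · have h4 : f i (u + t i) ≠ 0 := fun h0 => hne (prod_eq_zero (mem_univ i) h0)
      have h5 := hFp _ _ h4
      have h6 := hsum i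
      have h7 : c.val + W * (u + 1) + ((h i).val + W * t i) = (c + h i).val + W * (u + t i + 1 + e i) := by
        calc c.val + W * (u + 1) + ((h i).val + W * t i) = (c.val + (h i).val) + W * (u + 1 + t i) := by ring
          _ = _ := by rw [h6]; ring
      rw [h7]
      exact h5
  have h4 : (((Fintype.piFinset (fun _ : Fin k => range T)).filter
      (fun t => badT y (fun i => (h i).val + W * t i))).card : ℝ) ≤
      (((Fintype.piFinset (fun _ : Fin k => range T)).filter
        (fun t => ∑ u ∈ range U, ∏ i, f i (u + t i) = 0)).card : ℝ) := by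
    exact_mod_cast card_le_card hsub
  refine (h4.trans key).trans ?_
  refine mul_le_mul_of_nonneg_right ?_ (by positivity)
  have hU' : (0 : ℝ) < U := by exact_mod_cast hU
  have h5 : (2 * B₀) ^ k * (1 + 2 * (ExU.card : ℝ)) / U ≤ (2 * B₀) ^ k * (1 + 2 * k * M₀) / U := by
    apply div_le_div_of_nonneg_right _ hU'.le
    apply mul_le_mul_of_nonneg_left _ (by positivity)
    linarith
  linarith

end Pool.Agent.J4H81.PT
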