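import Pool.Agent.J4H81.PT.FT

/-!
# Growing prime tuples: the circle method in one class (helper81)
-/

set_option autoImplicit false

namespace Pool.Agent.J4H81.PT

open Finset MeasureTheory
open Pool.Agent.H807R2.Dav (ee norm_ee ee_add ee_zero ee_int ee_eq dd dd_le)

/-- a real sequence as a complex sequence -/
noncomputable def cx (f : ℕ → ℝ) : ℕ → ℂ := fun s => ((f s : ℝ) : ℂ)

theorem corr_real (f : ℕ → ℝ) (M : ℕ) (hf : ∀ s, M ≤ s → f s = 0) (D : ℕ) :
    ∫ α in (0 : ℝ)..1, ((‖hat (cx f) M α‖ ^ 2 : ℝ) : ℂ) * ee (D * α) =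
      ((∑ s ∈ range M, f s * f (s + D) : ℝ) : ℂ) := by
  rw [corr (cx f) M (fun s hs => by unfold cx; rw [hf s hs, Complex.ofReal_zero]) D]
  push_cast
  refine sum_congr rfl fun s _ => ?_
  unfold cx
  rw [Complex.conj_ofReal]

theorem hat_sub (f g : ℕ → ℝ) (M : ℕ) (α : ℝ) :
    hat (cx (fun s => f s - g s)) M α = hat (cx f) M α - hat (cx g) M α := by
  unfold hat cx
  rw [← sum_sub_distrib]
  refine sum_congr rfl fun s _ => ?_
  push_cast
  ring

theorem circle_pairs {T U : ℕ} (F g : ℕ → ℝ) (hF : ∀ s, T ≤ s → F s = 0) (hg : ∀ s, T ≤ s → g s = 0)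
    (A : Set ℝ) (hA : MeasurableSet A) {E m a lam τ : ℝ}
    (hE : ∫ α in (0 : ℝ)..1, A.indicator (fun α => ‖hat (cx (fun s => F s - g s)) T α‖ ^ 2) α ≤ E)
    (hm : ∀ α, 0 ≤ α → α ≤ 1 → α ∉ A → ‖hat (cx (fun s => F s - g s)) T α‖ ≤ m)
    (hF2 : ∑ s ∈ range T, F s ^ 2 ≤ a) (hg2 : ∑ s ∈ range T, g s ^ 2 ≤ a) (hlam : 0 < lam) (hτ : 0 < τ) :
    ∃ Ex : Finset ℕ, (Ex.card : ℝ) ≤ 4 * m ^ 2 * a / τ ^ 2 ∧ ∀ D, D < U → D ∉ Ex →
      ∑ s ∈ range T, F s * F (s + D) ≤ ∑ s ∈ range T, g s * g (s + D) + (1 + lam) * E + a / lam + τ := by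
  classical
  set h : ℝ → ℝ := fun α => ‖hat (cx (fun s => F s - g s)) T α‖ with hh
  set fF : ℝ → ℝ := fun α => ‖hat (cx F) T α‖ with hfF
  set fg : ℝ → ℝ := fun α => ‖hat (cx g) T α‖ with hfg
  have hhc : Continuous h := (hat_cont _ _).norm
  have hFc : Continuous fF := (hat_cont _ _).norm
  have hgc : Continuous fg := (hat_cont _ _).norm
  have hh0 : ∀ α, 0 ≤ h α := fun α => norm_nonneg _
  have hF0 : ∀ α, 0 ≤ fF α := fun α => norm_nonneg _
  have hg0 : ∀ α, 0 ≤ fg α := fun α => norm_nonneg _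
  have hdiff : ∀ α, |fF α - fg α| ≤ h α := by
    intro α
    rw [hh, hfF, hfg]
    simp only
    rw [hat_sub]
    exact abs_norm_sub_norm_le _ _
  have hparF : ∫ α in (0 : ℝ)..1, fF α ^ 2 ≤ a := by
    rw [hfF]
    simp only
    rw [parseval]
    refine le_trans (le_of_eq (sum_congr rfl fun s _ => ?_)) hF2
    unfold cx
    rw [Complex.norm_real, Real.norm_eq_abs, sq_abs]
  have hparg : ∫ α in (0 : ℝ)..1, fg α ^ 2 ≤ a := by
    rw [hfg]
    simp only
    rw [parseval]
    refine le_trans (le_of_eq (sum_congr rfl fun s _ => ?_)) hg2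
    unfold cx
    rw [Complex.norm_real, Real.norm_eq_abs, sq_abs]
  set φ : ℝ → ℝ := fun α => fF α ^ 2 - fg α ^ 2 with hφ
  have hφc : Continuous φ := (hFc.pow 2).sub (hgc.pow 2)
  have hφh : ∀ α, |φ α| ≤ h α * (fF α + fg α) := by
    intro α
    have : φ α = (fF α - fg α) * (fF α + fg α) := by rw [hφ]; ring
    rw [this, abs_mul, abs_of_nonneg (add_nonneg (hF0 α) (hg0 α))]
    exact mul_le_mul_of_nonneg_right (hdiff α) (add_nonneg (hF0 α) (hg0 α))
  set φ1 : ℝ → ℝ := A.indicator φ with hφ1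
  set φ2 : ℝ → ℝ := Aᶜ.indicator φ with hφ2
  have hindic : ∀ (B : Set ℝ), MeasurableSet B → ∀ f : ℝ → ℝ, Continuous f →
      IntervalIntegrable (B.indicator f) volume 0 1 := by
    intro B hB f hf
    have h1 : IntegrableOn f (Set.Ioc 0 1) := by
      rw [← intervalIntegrable_iff_integrableOn_Ioc_of_le (by norm_num)]
      exact hf.intervalIntegrable _ _
    rw [intervalIntegrable_iff_integrableOn_Ioc_of_le (by norm_num)]
    exact h1.indicator hB
  have hi1 : IntervalIntegrable φ1 volume 0 1 := hindic A hA φ hφc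
  have hi2 : IntervalIntegrable φ2 volume 0 1 := hindic Aᶜ hA.compl φ hφc
  have hsplit : ∀ α, φ α = φ1 α + φ2 α := by
    intro α
    rw [hφ1, hφ2]
    by_cases hα : α ∈ A
    · rw [Set.indicator_of_mem hα, Set.indicator_of_notMem (by simpa using hα), add_zero]
    · rw [Set.indicator_of_notMem hα, Set.indicator_of_mem (by simpa using hα), zero_add]
  -- the correlation
  have hcor : ∀ D : ℕ, ((∑ s ∈ range T, F s * F (s + D) - ∑ s ∈ range T, g s * g (s + D) : ℝ) : ℂ) =
      (∫ α in (0 : ℝ)..1, (φ1 α : ℂ) * ee (D * α)) + ∫ α in (0 : ℝ)..1, (φ2 α : ℂ) * ee (D * α) := by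
    intro D
    have hee : Continuous (fun α : ℝ => ee (D * α)) := ee_cont.comp (by fun_prop)
    have j1 : IntervalIntegrable (fun α => (φ1 α : ℂ) * ee (D * α)) volume 0 1 :=
      IntervalIntegrable.mul_continuousOn ⟨hi1.1.ofReal, hi1.2.ofReal⟩ hee.continuousOn
    have j2 : IntervalIntegrable (fun α => (φ2 α : ℂ) * ee (D * α)) volume 0 1 :=
      IntervalIntegrable.mul_continuousOn ⟨hi2.1.ofReal, hi2.2.ofReal⟩ hee.continuousOn
    rw [← intervalIntegral.integral_add j1 j2]
    push_cast [-Complex.ofReal_sum]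
    rw [← corr_real F T hF D, ← corr_real g T hg D, ← intervalIntegral.integral_sub]
    · refine intervalIntegral.integral_congr fun α _ => ?_
      change ((fF α ^ 2 : ℝ) : ℂ) * ee (D * α) - ((fg α ^ 2 : ℝ) : ℂ) * ee (D * α) =
        (φ1 α : ℂ) * ee (D * α) + (φ2 α : ℂ) * ee (D * α)
      rw [← add_mul, ← sub_mul]
      congr 1
      rw [← Complex.ofReal_add, ← hsplit α, hφ]
      push_cast
      rfl
    · exact ((Complex.continuous_ofReal.comp (hFc.pow 2)).mul hee).intervalIntegrable _ _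
    · exact ((Complex.continuous_ofReal.comp (hgc.pow 2)).mul hee).intervalIntegrable _ _
  -- the major arcs
  have hmaj : ∀ D : ℕ, ‖∫ α in (0 : ℝ)..1, (φ1 α : ℂ) * ee (D * α)‖ ≤ (1 + lam) * E + a / lam := by
    intro D
    have hE0 : IntervalIntegrable (A.indicator (fun α => h α ^ 2)) volume 0 1 := hindic A hA _ (hhc.pow 2)
    have hg2i : IntervalIntegrable (fun α => fg α ^ 2) volume 0 1 := (hgc.pow 2).intervalIntegrable _ _
    calc ‖∫ α in (0 : ℝ)..1, (φ1 α : ℂ) * ee (D * α)‖ ≤ ∫ α in (0 : ℝ)..1, ‖(φ1 α : ℂ) * ee (D * α)‖ :=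
          intervalIntegral.norm_integral_le_integral_norm (by norm_num)
      _ ≤ ∫ α in (0 : ℝ)..1, ((1 + lam) * A.indicator (fun α => h α ^ 2) α + 1 / lam * fg α ^ 2) := by
          apply intervalIntegral.integral_mono_on (by norm_num)
          · have hee : Continuous (fun α : ℝ => ee (D * α)) := ee_cont.comp (by fun_prop)
            exact (IntervalIntegrable.mul_continuousOn ⟨hi1.1.ofReal, hi1.2.ofReal⟩ hee.continuousOn).norm
          · exact (hE0.const_mul _).add (hg2i.const_mul _)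
          · intro α _
            rw [norm_mul, norm_ee, mul_one, Complex.norm_real, Real.norm_eq_abs]
            by_cases hα : α ∈ A
            · rw [hφ1, Set.indicator_of_mem hα, Set.indicator_of_mem hα]
              refine (hφh α).trans ?_
              have h1 : fF α ≤ fg α + h α := by
                have := (abs_le.1 (hdiff α)).2
                linarith
              have h2 : 2 * (h α * fg α) ≤ lam * h α ^ 2 + 1 / lam * fg α ^ 2 := by
                have h3 : 0 ≤ (lam * h α - fg α) ^ 2 / lam := by positivity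
                have h4 : (lam * h α - fg α) ^ 2 / lam = lam * h α ^ 2 - 2 * (h α * fg α) + 1 / lam * fg α ^ 2 := by
                  field_simp
                  ring
                linarith
              have h5 := hh0 α
              nlinarith
            · rw [hφ1, Set.indicator_of_notMem hα, Set.indicator_of_notMem hα, abs_zero]
              have := sq_nonneg (fg α)
              positivity
      _ = (1 + lam) * (∫ α in (0 : ℝ)..1, A.indicator (fun α => h α ^ 2) α) + 1 / lam * ∫ α in (0 : ℝ)..1, fg α ^ 2 := by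
          rw [intervalIntegral.integral_add (hE0.const_mul _) (hg2i.const_mul _),
            intervalIntegral.integral_const_mul, intervalIntegral.integral_const_mul]
      _ ≤ (1 + lam) * E + 1 / lam * a := by
          gcongr
      _ = _ := by ring
  -- the minor arcs
  set Ex : Finset ℕ := (range U).filter (fun D => τ < ‖∫ α in (0 : ℝ)..1, (φ2 α : ℂ) * ee (D * α)‖) with hEx
  refine ⟨Ex, ?_, ?_⟩
  · have hi2s : IntervalIntegrable (fun α => φ2 α ^ 2) volume 0 1 := by
      have : (fun α => φ2 α ^ 2) = Aᶜ.indicator (fun α => φ α ^ 2) := by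
        funext α
        rw [hφ2]
        by_cases hα : α ∈ Aᶜ
        · rw [Set.indicator_of_mem hα, Set.indicator_of_mem hα]
        · rw [Set.indicator_of_notMem hα, Set.indicator_of_notMem hα]; norm_num
      rw [this]
      exact hindic Aᶜ hA.compl _ (hφc.pow 2)
    have hB := bessel φ2 hi2 hi2s Ex
    have h1 : (Ex.card : ℝ) * τ ^ 2 ≤ ∑ D ∈ Ex, ‖∫ α in (0 : ℝ)..1, (φ2 α : ℂ) * ee (D * α)‖ ^ 2 := by
      rw [← nsmul_eq_mul, ← sum_const]
      apply sum_le_sum
      intro D hD
      rw [hEx, mem_filter] at hD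
      exact pow_le_pow_left₀ hτ.le hD.2.le 2
    have h2 : ∫ α in (0 : ℝ)..1, φ2 α ^ 2 ≤ 4 * m ^ 2 * a := by
      calc ∫ α in (0 : ℝ)..1, φ2 α ^ 2 ≤ ∫ α in (0 : ℝ)..1, (m ^ 2 * (2 * fF α ^ 2) + m ^ 2 * (2 * fg α ^ 2)) := by
            apply intervalIntegral.integral_mono_on (by norm_num) hi2s
            · exact ((continuous_const.mul (continuous_const.mul (hFc.pow 2))).add
                (continuous_const.mul (continuous_const.mul (hgc.pow 2)))).intervalIntegrable _ _
            · intro α hα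
              rw [hφ2]
              by_cases hα2 : α ∈ A
              · rw [Set.indicator_of_notMem (by simpa using hα2), zero_pow two_ne_zero]
                positivity
              · rw [Set.indicator_of_mem (by simpa using hα2), ← sq_abs (φ α)]
                have h3 := hm α hα.1 hα.2 hα2
                have h4 : |φ α| ≤ m * (fF α + fg α) :=
                  (hφh α).trans (mul_le_mul_of_nonneg_right h3 (add_nonneg (hF0 α) (hg0 α)))
                have h5 : |φ α| ^ 2 ≤ (m * (fF α + fg α)) ^ 2 := pow_le_pow_left₀ (abs_nonneg _) h4 2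
                nlinarith [mul_nonneg (sq_nonneg m) (sq_nonneg (fF α - fg α))]
        _ = m ^ 2 * (2 * ∫ α in (0 : ℝ)..1, fF α ^ 2) + m ^ 2 * (2 * ∫ α in (0 : ℝ)..1, fg α ^ 2) := by
            rw [intervalIntegral.integral_add]
            · simp only [intervalIntegral.integral_const_mul]
            · exact (continuous_const.mul (continuous_const.mul (hFc.pow 2))).intervalIntegrable _ _
            · exact (continuous_const.mul (continuous_const.mul (hgc.pow 2))).intervalIntegrable _ _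
        _ ≤ m ^ 2 * (2 * a) + m ^ 2 * (2 * a) := by gcongr
        _ = _ := by ring
    rw [le_div_iff₀ (by positivity)]
    linarith
  · intro D hDU hD
    have h1 : ‖∫ α in (0 : ℝ)..1, (φ2 α : ℂ) * ee (D * α)‖ ≤ τ := by
      by_contra hcon
      push Not at hcon
      exact hD (by rw [hEx, mem_filter]; exact ⟨mem_range.2 hDU, hcon⟩)
    have h2 := hmaj D
    have h3 : ‖((∑ s ∈ range T, F s * F (s + D) - ∑ s ∈ range T, g s * g (s + D) : ℝ) : ℂ)‖ ≤
        ((1 + lam) * E + a / lam) + τ := by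
      rw [hcor D]
      exact (norm_add_le _ _).trans (add_le_add h2 h1)
    rw [Complex.norm_real, Real.norm_eq_abs] at h3
    have := (abs_le.1 h3).2
    linarith

/-- the value at the origin in terms of the mean square near the origin -/
theorem lip_zero (a : ℕ → ℂ) (T : ℕ) {A₁ E τ : ℝ} (hA : ∑ s ∈ range T, ‖a s‖ ≤ A₁) (hτ : 0 < τ)
    (hE : ∫ α in (0 : ℝ)..τ, ‖hat a T α‖ ^ 2 ≤ E) :
    ‖hat a T 0‖ ^ 2 ≤ 2 * E / τ + 80 * (τ * T * A₁) ^ 2 := by
  have hA0 : 0 ≤ A₁ := (sum_nonneg fun s _ => norm_nonneg _).trans hA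
  have hT0 : (0 : ℝ) ≤ T := Nat.cast_nonneg T
  have hlip : ∀ α, 0 ≤ α → α ≤ τ → ‖hat a T 0‖ ≤ ‖hat a T α‖ + 2 * Real.pi * (τ * T * A₁) := by
    intro α h0 h1
    have e : hat a T α - hat a T 0 = ∑ s ∈ range T, a s * (ee (s * α) - 1) := by
      unfold hat
      rw [← sum_sub_distrib]
      refine sum_congr rfl fun s _ => ?_
      rw [mul_zero, ee_zero]
      ring
    have h2 : ‖hat a T α - hat a T 0‖ ≤ 2 * Real.pi * (τ * T * A₁) := by
      rw [e]
      refine (norm_sum_le _ _).trans ?_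
      calc ∑ s ∈ range T, ‖a s * (ee (s * α) - 1)‖ ≤ ∑ s ∈ range T, ‖a s‖ * (2 * Real.pi * (τ * T)) := by
            apply sum_le_sum
            intro s hs
            rw [mem_range] at hs
            rw [norm_mul]
            apply mul_le_mul_of_nonneg_left _ (norm_nonneg _)
            have h3 := dd_le (s * α)
            unfold dd at h3
            rw [norm_sub_rev]
            refine h3.trans ?_
            rw [abs_mul, abs_of_nonneg h0, abs_of_nonneg (Nat.cast_nonneg s)]
            have : (s : ℝ) ≤ T := by exact_mod_cast hs.le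
            have h4 : (s : ℝ) * α ≤ τ * T := by
              calc (s : ℝ) * α ≤ T * τ := by gcongr
                _ = _ := by ring
            have := Real.pi_pos
            gcongr
        _ = (∑ s ∈ range T, ‖a s‖) * (2 * Real.pi * (τ * T)) := by rw [sum_mul]
        _ ≤ A₁ * (2 * Real.pi * (τ * T)) := by
            have := Real.pi_pos
            gcongr
        _ = _ := by ring
    have h3 := norm_sub_norm_le (hat a T 0) (hat a T α)
    rw [norm_sub_rev] at h3
    linarith
  have hsq : ∀ α ∈ Set.Icc (0 : ℝ) τ, ‖hat a T 0‖ ^ 2 ≤ 2 * ‖hat a T α‖ ^ 2 + 80 * (τ * T * A₁) ^ 2 := by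
    intro α hα
    have h1 := hlip α hα.1 hα.2
    have hx : 0 ≤ τ * T * A₁ := by positivity
    have h2 : ‖hat a T 0‖ ^ 2 ≤ (‖hat a T α‖ + 2 * Real.pi * (τ * T * A₁)) ^ 2 :=
      pow_le_pow_left₀ (norm_nonneg _) h1 2
    have hpi : Real.pi ^ 2 ≤ 10 := by
      have := Real.pi_lt_d2
      have := Real.pi_pos
      nlinarith
    have h3 : (2 * Real.pi * (τ * T * A₁)) ^ 2 ≤ 40 * (τ * T * A₁) ^ 2 := by
      have : (2 * Real.pi * (τ * T * A₁)) ^ 2 = 4 * Real.pi ^ 2 * (τ * T * A₁) ^ 2 := by ring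
      rw [this]
      have := sq_nonneg (τ * T * A₁)
      nlinarith
    nlinarith [sq_nonneg (‖hat a T α‖ - 2 * Real.pi * (τ * T * A₁))]
  have hint : ∫ α in (0 : ℝ)..τ, ‖hat a T 0‖ ^ 2 ≤
      ∫ α in (0 : ℝ)..τ, (2 * ‖hat a T α‖ ^ 2 + 80 * (τ * T * A₁) ^ 2) := by
    apply intervalIntegral.integral_mono_on hτ.le
    · exact intervalIntegrable_const
    · exact ((continuous_const.mul ((hat_cont a T).norm.pow 2)).add continuous_const).intervalIntegrable _ _
    · exact hsq
  have hc1 : IntervalIntegrable (fun α => 2 * ‖hat a T α‖ ^ 2) volume 0 τ :=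
    (continuous_const.mul ((hat_cont a T).norm.pow 2)).intervalIntegrable _ _
  have hc2 : IntervalIntegrable (fun _ : ℝ => 80 * (τ * T * A₁) ^ 2) volume 0 τ := intervalIntegrable_const
  rw [intervalIntegral.integral_const, intervalIntegral.integral_add hc1 hc2,
    intervalIntegral.integral_const_mul, intervalIntegral.integral_const, smul_eq_mul, smul_eq_mul, sub_zero] at hint
  have h4 : τ * ‖hat a T 0‖ ^ 2 ≤ 2 * E + τ * (80 * (τ * T * A₁) ^ 2) := by linarith
  have h5 : ‖hat a T 0‖ ^ 2 ≤ (2 * E + τ * (80 * (τ * T * A₁) ^ 2)) / τ := by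
    rw [le_div_iff₀ hτ]; linarith
  refine h5.trans (le_of_eq ?_)
  field_simp

end Pool.Agent.J4H81.PT
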