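import Pool.Agent.J4H81.PT.MIb
import Pool.Agent.J4H81.PT.CL

/-!
# Growing prime tuples: the circle method in one class (helper81)
-/

set_option autoImplicit false

namespace Pool.Agent.J4H81.PT

open Finset MeasureTheory
open Pool.Agent.H807R2.Dav (ee norm_ee ee_add ee_zero ee_int ee_eq dd dd_le dd_nonneg dd_ge dd_add_int ee_add_int dd_neg)

/-- the weighted primes in a class -/
noncomputable def FF (W : ℕ) (ω : ℕ → ℝ) (r s : ℕ) : ℝ := (Nat.totient W : ℝ) / W * (nu (r + W * s) * ω (r + W * s))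

/-- the model in a class -/
noncomputable def gg (W Q : ℕ) (ω : ℕ → ℝ) (r s : ℕ) : ℝ := ω (r + W * s) * GG W Q ((r + W * s : ℕ) : ℤ)

/-- the difference -/
noncomputable def hh (W Q : ℕ) (ω : ℕ → ℝ) (n : ℕ) : ℝ := ω n * (nu n - GW W Q (n : ℤ))

theorem FF_sub {W Q : ℕ} (hWs : Squarefree W) (ω : ℕ → ℝ) {r : ℕ} (hr : r.Coprime W) (s : ℕ) :
    FF W ω r s - gg W Q ω r s = (Nat.totient W : ℝ) / W * hh W Q ω (r + W * s) := by
  have hW0 : (0 : ℝ) < W := by exact_mod_cast Nat.pos_of_ne_zero hWs.ne_zero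
  have hφ0 : (0 : ℝ) < Nat.totient W := by exact_mod_cast Nat.totient_pos.2 (Nat.pos_of_ne_zero hWs.ne_zero)
  have hco : (r + W * s).Coprime W := by
    rw [Nat.coprime_add_mul_left_left]; exact hr
  unfold FF gg hh
  rw [GW_eq hWs, if_pos hco]
  field_simp

theorem FF_nonneg {W : ℕ} {ω : ℕ → ℝ} {N N₁ : ℕ} (hω : Wt ω N N₁) (r s : ℕ) : 0 ≤ FF W ω r s := by
  unfold FF
  exact mul_nonneg (by positivity) (mul_nonneg (nu_nonneg _) (hω.nonneg _))

theorem FF_le {W : ℕ} (hW : 0 < W) {ω : ℕ → ℝ} {N N₁ : ℕ} (hω : Wt ω N N₁) (r s : ℕ) : FF W ω r s ≤ Real.log N := by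
  have hW0 : (0 : ℝ) < W := by exact_mod_cast hW
  have h1 : (Nat.totient W : ℝ) / W ≤ 1 := by
    rw [div_le_one hW0]
    exact_mod_cast Nat.totient_le W
  have h2 : nu (r + W * s) * ω (r + W * s) ≤ Real.log N := by
    rcases le_or_gt N (r + W * s) with h | h
    · rw [hω.zero_ge _ h, mul_zero]
      exact Real.log_natCast_nonneg N
    · have h3 : nu (r + W * s) ≤ Real.log N := by
        unfold nu
        split_ifs
        · exact log_nat_mono h.le
        · exact Real.log_natCast_nonneg N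
      calc _ ≤ nu (r + W * s) * 1 := mul_le_mul_of_nonneg_left (hω.le_one _) (nu_nonneg _)
        _ = nu (r + W * s) := mul_one _
        _ ≤ _ := h3
  have h3 : 0 ≤ nu (r + W * s) * ω (r + W * s) := mul_nonneg (nu_nonneg _) (hω.nonneg _)
  unfold FF
  calc _ ≤ 1 * (nu (r + W * s) * ω (r + W * s)) := mul_le_mul_of_nonneg_right h1 h3
    _ = nu (r + W * s) * ω (r + W * s) := one_mul _
    _ ≤ _ := h2

theorem FF_prime {W : ℕ} {ω : ℕ → ℝ} {r s : ℕ} (h : FF W ω r s ≠ 0) : (r + W * s).Prime := by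
  by_contra hcon
  apply h
  unfold FF nu
  rw [if_neg hcon]
  simp

/-- the wide major arcs -/
def MA (P : ℕ) (c : ℝ) : Set ℝ := {α | ∃ q : ℕ, 1 ≤ q ∧ q ≤ P ∧ ∃ a : ℤ, |α - a / q| ≤ c}

theorem MA_meas (P : ℕ) (c : ℝ) : MeasurableSet (MA P c) := by
  have : MA P c = ⋃ q : ℕ, ⋃ _ : 1 ≤ q ∧ q ≤ P, ⋃ a : ℤ, {α : ℝ | |α - a / q| ≤ c} := by
    ext α
    simp only [MA, Set.mem_ofPred_eq, Set.mem_iUnion, exists_prop, and_assoc]
  rw [this]
  refine MeasurableSet.iUnion fun q => MeasurableSet.iUnion fun _ => MeasurableSet.iUnion fun a => ?_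
  exact (isClosed_le (by fun_prop) continuous_const).measurableSet

theorem MA_per (P : ℕ) (c : ℝ) (α : ℝ) (j : ℕ) : α + j ∈ MA P c ↔ α ∈ MA P c := by
  unfold MA
  constructor
  · rintro ⟨q, hq1, hqP, a, ha⟩
    have hq0 : (q : ℝ) ≠ 0 := by exact_mod_cast (by omega : q ≠ 0)
    refine ⟨q, hq1, hqP, a - j * q, ?_⟩
    have : α - ((a - j * q : ℤ) : ℝ) / q = α + j - a / q := by
      push_cast
      field_simp
      ring
    rw [this]; exact ha
  · rintro ⟨q, hq1, hqP, a, ha⟩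
    have hq0 : (q : ℝ) ≠ 0 := by exact_mod_cast (by omega : q ≠ 0)
    refine ⟨q, hq1, hqP, a + j * q, ?_⟩
    have : α + j - ((a + j * q : ℤ) : ℝ) / q = α - a / q := by
      push_cast
      field_simp
      ring
    rw [this]; exact ha

/-- parameters and conclusion for one good class -/
theorem class_circle {W Q T N₁ P w U r : ℕ} (hWs : Squarefree W) (hr : r.Coprime W)
    (hT : 1 ≤ T) (hQ : 1 ≤ Q) {ω : ℕ → ℝ} (hω : Wt ω (W * T) N₁)
    (hw : 2 ≤ w) (hWw : ∀ p : ℕ, p.Prime → p ≤ w → p ∣ W) {η m₀ E Λ₂ : ℝ} (hη : 0 < η) (hη1 : η ≤ 1)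
    (hP : 1 ≤ P) (hm₀ : ∀ α, α ∉ MA P ((P : ℝ) / T) → ‖hat (fun s => cx (hh W Q ω) (r + W * s)) T α‖ ≤ m₀)
    (hE : ∫ α in (0 : ℝ)..1, (MA P ((P : ℝ) / T)).indicator (fun α => ‖hat (cx (fun s => FF W ω r s - gg W Q ω r s)) T α‖ ^ 2) α ≤ E)
    (hΛ : ∑ q ∈ Icc 1 Q, 1 / (Nat.totient q : ℝ) + 1 + 2 * Real.log (W * T : ℕ) ≤ Λ₂)
    (hEv : E = η ^ 3 * T / (10 ^ 4 * Λ₂)) (hωsum : (1 - η / 4) * T ≤ ∑ s ∈ range T, ω (r + W * s))
    (hQT : 100 * (Q : ℝ) ^ 4 ≤ η * T) (hwη : 8 / η + 1 ≤ w) :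
    ((1 - η) * T ≤ ∑ s ∈ range T, FF W ω r s) ∧ (∑ s ∈ range T, FF W ω r s ≤ 2 * T) ∧
      ∃ Ex : Finset ℕ, (Ex.card : ℝ) ≤ 256 * m₀ ^ 2 * Λ₂ / (η ^ 2 * T) ∧ ∀ D, 1 ≤ D → D < U → D ∉ Ex →
        ∑ s ∈ range T, FF W ω r s * FF W ω r (s + D) ≤ (1 + η) * T * PP w D := by
  have hWpos : 0 < W := Nat.pos_of_ne_zero hWs.ne_zero
  have hW0 : (0 : ℝ) < W := by exact_mod_cast hWpos
  have hT0 : (0 : ℝ) < T := by exact_mod_cast hT
  have hT1 : (1 : ℝ) ≤ T := by exact_mod_cast hT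
  have hP0 : (1 : ℝ) ≤ P := by exact_mod_cast hP
  have hQ0 : (1 : ℝ) ≤ Q := by exact_mod_cast hQ
  set B₀ : ℝ := Real.log (W * T : ℕ) with hB₀
  have hB₀0 : 0 ≤ B₀ := Real.log_natCast_nonneg _
  set S₁ : ℝ := ∑ q ∈ Icc 1 Q, 1 / (Nat.totient q : ℝ) with hS₁
  have hS₁0 : 0 ≤ S₁ := sum_nonneg fun q _ => by positivity
  have hΛ1 : 1 ≤ Λ₂ := by linarith
  set g : ℕ → ℝ := gg W Q ω r with hg
  set F : ℕ → ℝ := FF W ω r with hF
  have hωT : ω (r + W * T) = 0 := hω.zero_ge _ (by omega)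
  have hF0 : ∀ s, 0 ≤ F s := fun s => FF_nonneg hω r s
  have hFB : ∀ s, F s ≤ B₀ := fun s => FF_le hWpos hω r s
  have hFz : ∀ s, T ≤ s → F s = 0 := by
    intro s hs
    have h1 : W * T ≤ W * s := Nat.mul_le_mul_left W hs
    have : ω (r + W * s) = 0 := hω.zero_ge _ (by omega)
    rw [hF]; unfold FF; rw [this]; simp
  have hgz : ∀ s, T ≤ s → g s = 0 := by
    intro s hs
    have h1 : W * T ≤ W * s := Nat.mul_le_mul_left W hs
    have : ω (r + W * s) = 0 := hω.zero_ge _ (by omega)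
    rw [hg]; unfold gg; rw [this]; simp
  -- correlations of the model
  have hgcorr : ∀ D, ∑ s ∈ range T, g s * g (s + D) ≤
      T * (∑ q ∈ QQ W Q, |cR q ((W * D : ℕ) : ℤ)| / (Nat.totient q : ℝ) ^ 2) + 5 * (Q : ℝ) ^ 4 := by
    intro D
    set v : ℕ → ℝ := fun s => ω (r + W * s) * ω (r + W * (s + D)) with hv
    have hv0 : ∀ s, 0 ≤ v s := fun s => mul_nonneg (hω.nonneg _) (hω.nonneg _)
    have hvT : v T = 0 := by rw [hv]; simp only; rw [hωT, zero_mul]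
    have h1 := model_corr (W := W) (Q := Q) (r := r) (T := T) v hvT hv0 (W * D)
    have h2 : TV v T ≤ 5 := hω.TV_prod r W T D
    have h3 : ∑ s ∈ range T, v s ≤ T := by
      calc _ ≤ ∑ s ∈ range T, (1 : ℝ) := sum_le_sum fun s _ => mul_le_one₀ (hω.le_one _) (hω.nonneg _) (hω.le_one _)
        _ = T := by simp
    have h4 : ∑ s ∈ range T, g s * g (s + D) = ∑ s ∈ range T, v s * (GG W Q ((r + W * s : ℕ) : ℤ) * GG W Q ((r + W * s + W * D : ℕ) : ℤ)) := by
      refine sum_congr rfl fun s _ => ?_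
      have e : r + W * (s + D) = r + W * s + W * D := by ring
      rw [hg, hv]; unfold gg; simp only
      rw [e]
      ring
    rw [h4]
    have h5 : 0 ≤ ∑ q ∈ QQ W Q, |cR q ((W * D : ℕ) : ℤ)| / (Nat.totient q : ℝ) ^ 2 :=
      sum_nonneg fun q _ => by positivity
    have h6 : (Q : ℝ) ^ 4 * TV v T ≤ Q ^ 4 * 5 := by gcongr
    have h7 := mul_le_mul_of_nonneg_right h3 h5
    linarith
  have hQ4 : (1 : ℝ) ≤ (Q : ℝ) ^ 4 := one_le_pow₀ hQ0
  have hQ24 : (Q : ℝ) ^ 2 ≤ (Q : ℝ) ^ 4 := pow_le_pow_right₀ hQ0 (by norm_num)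
  have hηT : η * T ≤ T := mul_le_of_le_one_left hT0.le hη1
  have hgsq : ∑ s ∈ range T, g s ^ 2 ≤ T * (S₁ + 1) := by
    have h1 := hgcorr 0
    have h2 := sing_zero W Q
    have h3 : ∑ s ∈ range T, g s ^ 2 = ∑ s ∈ range T, g s * g (s + 0) := by
      refine sum_congr rfl fun s _ => ?_
      rw [add_zero, sq]
    rw [h3]
    have h4 := mul_le_mul_of_nonneg_left h2 hT0.le
    have h5 : 5 * (Q : ℝ) ^ 4 ≤ T := by linarith
    calc _ ≤ T * (∑ q ∈ QQ W Q, |cR q ((W * 0 : ℕ) : ℤ)| / (Nat.totient q : ℝ) ^ 2) + 5 * (Q : ℝ) ^ 4 := h1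
      _ ≤ T * S₁ + T := add_le_add h4 h5
      _ = _ := by ring
  -- first moment of the model
  have hgsum := model_sum (W := W) (r := r) (T := T) hQ (fun s => ω (r + W * s)) hωT
  have hTV3 := hω.TV_le r W T
  have hgsum' : |∑ s ∈ range T, g s - ∑ s ∈ range T, ω (r + W * s)| ≤ 3 * (Q : ℝ) ^ 4 := by
    have h1 : (Q : ℝ) ^ 2 * TV (fun s => ω (r + W * s)) T ≤ Q ^ 4 * 3 := by
      have h2 := TV_nonneg (fun s => ω (r + W * s)) T
      gcongr
    refine hgsum.trans (h1.trans_eq (by ring))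
  have hωle : ∑ s ∈ range T, ω (r + W * s) ≤ T := by
    calc _ ≤ ∑ s ∈ range T, (1 : ℝ) := sum_le_sum fun s _ => hω.le_one _
      _ = T := by simp
  -- the value at zero
  set H : ℕ → ℂ := cx (fun s => F s - g s) with hH
  have hA₁ : ∑ s ∈ range T, ‖H s‖ ≤ T * Λ₂ := by
    have h1 : ∀ s ∈ range T, ‖H s‖ ≤ B₀ + (g s ^ 2 + 1) / 2 := by
      intro s _
      rw [hH]; unfold cx
      rw [Complex.norm_real, Real.norm_eq_abs]
      have h2 := abs_sub (F s) (g s)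
      have h3 : |F s| = F s := abs_of_nonneg (hF0 s)
      have h4 : |g s| ≤ (g s ^ 2 + 1) / 2 := by
        rw [← sq_abs]; nlinarith [sq_nonneg (|g s| - 1)]
      have h5 := hFB s
      linarith
    refine (sum_le_sum h1).trans ?_
    rw [sum_add_distrib, sum_const, card_range, nsmul_eq_mul, ← sum_div, sum_add_distrib, sum_const, card_range,
      nsmul_eq_mul, mul_one]
    have h6 : (T : ℝ) * B₀ + (T * (S₁ + 1) + T) / 2 ≤ T * Λ₂ := by
      have : (T : ℝ) * B₀ + (T * (S₁ + 1) + T) / 2 = T * (B₀ + (S₁ + 2) / 2) := by ring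
      rw [this]
      apply mul_le_mul_of_nonneg_left _ hT0.le
      linarith
    linarith
  set τ₀ : ℝ := η / (100 * (T * Λ₂)) with hτ₀
  have hτ₀0 : 0 < τ₀ := by positivity
  have hτ₀P : τ₀ ≤ P / T := by
    rw [hτ₀, div_le_div_iff₀ (by positivity) hT0]
    have h1 : η * T ≤ 1 * T := mul_le_mul_of_nonneg_right hη1 hT0.le
    have h2 : (1 : ℝ) * T ≤ P * (100 * (T * Λ₂)) := by
      have h3 : (T : ℝ) ≤ T * Λ₂ := le_mul_of_one_le_right hT0.le hΛ1
      nlinarith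
    linarith
  have hτ₀1 : τ₀ ≤ 1 := by
    rw [hτ₀, div_le_one (by positivity)]
    have h3 : (1 : ℝ) ≤ T * Λ₂ := one_le_mul_of_one_le_of_one_le hT1 hΛ1
    linarith
  have hcont : Continuous (fun α => ‖hat H T α‖ ^ 2) := ((hat_cont _ _).norm).pow 2
  have hE1 : ∫ α in (0 : ℝ)..τ₀, ‖hat H T α‖ ^ 2 ≤ E := by
    have hind : IntervalIntegrable ((MA P ((P : ℝ) / T)).indicator (fun α => ‖hat H T α‖ ^ 2)) volume 0 1 := by
      rw [intervalIntegrable_iff]
      exact (hcont.intervalIntegrable 0 1).def'.indicator (MA_meas _ _)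
    have h1 : ∫ α in (0 : ℝ)..τ₀, ‖hat H T α‖ ^ 2 =
        ∫ α in (0 : ℝ)..τ₀, (MA P ((P : ℝ) / T)).indicator (fun α => ‖hat H T α‖ ^ 2) α := by
      apply intervalIntegral.integral_congr
      intro α hα
      rw [Set.uIcc_of_le hτ₀0.le] at hα
      simp only
      rw [Set.indicator_of_mem]
      refine ⟨1, le_rfl, hP, 0, ?_⟩
      simp only [Int.cast_zero, zero_div, sub_zero]
      rw [abs_of_nonneg hα.1]
      exact hα.2.trans hτ₀P
    rw [h1]
    refine le_trans ?_ hE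
    apply intervalIntegral.integral_mono_interval le_rfl hτ₀0.le hτ₀1 _ hind
    exact Filter.Eventually.of_forall fun α => Set.indicator_nonneg (fun _ _ => sq_nonneg _) α
  have hlip := lip_zero H T hA₁ hτ₀0 hE1
  have hzero : |∑ s ∈ range T, F s - ∑ s ∈ range T, g s| ≤ η * T / 4 := by
    have h1 : ‖hat H T 0‖ = |∑ s ∈ range T, F s - ∑ s ∈ range T, g s| := by
      have h2 : hat H T 0 = ((∑ s ∈ range T, F s - ∑ s ∈ range T, g s : ℝ) : ℂ) := by
        rw [← sum_sub_distrib, hH]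
        unfold hat cx
        push_cast
        refine sum_congr rfl fun s _ => ?_
        rw [mul_zero, ee_zero, mul_one]
      rw [h2, Complex.norm_real, Real.norm_eq_abs]
    rw [← h1]
    have h3 : 2 * E / τ₀ = 0.02 * (η * T) ^ 2 := by
      rw [hEv, hτ₀]
      field_simp
      norm_num
    have h4 : 80 * (τ₀ * T * (T * Λ₂)) ^ 2 = 0.008 * (η * T) ^ 2 := by
      have : τ₀ * T * (T * Λ₂) = η * T / 100 := by
        rw [hτ₀]; field_simp
      rw [this]; ring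
    rw [h3, h4] at hlip
    have h5 : ‖hat H T 0‖ ^ 2 ≤ (η * T / 4) ^ 2 := by
      have : (η * T / 4) ^ 2 = 0.0625 * (η * T) ^ 2 := by ring
      rw [this]
      have := sq_nonneg (η * T)
      linarith
    exact abs_le_of_sq_le_sq' h5 (by positivity) |>.2
  have hgs := abs_le.1 hgsum'
  have hzs := abs_le.1 hzero
  have hQη : 3 * (Q : ℝ) ^ 4 ≤ η * T / 4 := by linarith
  have hlow : (1 - η) * T ≤ ∑ s ∈ range T, F s := by
    have : (1 - η) * T = (1 - η / 4) * T - η * T * (3 / 4) := by ring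
    linarith [hgs.1, hzs.1]
  have hup : ∑ s ∈ range T, F s ≤ 2 * T := by linarith [hgs.2, hzs.2]
  refine ⟨hlow, hup, ?_⟩
  -- pair correlations
  have hF2 : ∑ s ∈ range T, F s ^ 2 ≤ T * Λ₂ := by
    calc _ ≤ ∑ s ∈ range T, B₀ * F s := by
          apply sum_le_sum
          intro s _
          rw [sq]; exact mul_le_mul_of_nonneg_right (hFB s) (hF0 s)
      _ = B₀ * ∑ s ∈ range T, F s := by rw [mul_sum]
      _ ≤ B₀ * (2 * T) := by gcongr
      _ = T * (2 * B₀) := by ring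
      _ ≤ T * Λ₂ := by
          apply mul_le_mul_of_nonneg_left _ hT0.le
          linarith
  have hg2 : ∑ s ∈ range T, g s ^ 2 ≤ T * Λ₂ := by
    refine hgsq.trans ?_
    apply mul_le_mul_of_nonneg_left _ hT0.le
    linarith
  have hm : ∀ α, 0 ≤ α → α ≤ 1 → α ∉ MA P ((P : ℝ) / T) → ‖hat (cx (fun s => F s - g s)) T α‖ ≤ m₀ := by
    intro α _ _ hα
    have h1 : hat (cx (fun s => F s - g s)) T α = (((Nat.totient W : ℝ) / W : ℝ) : ℂ) * hat (fun s => cx (hh W Q ω) (r + W * s)) T α := by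
      unfold hat
      rw [mul_sum]
      refine sum_congr rfl fun s _ => ?_
      unfold cx
      have e3 : F s - g s = (Nat.totient W : ℝ) / W * hh W Q ω (r + W * s) := FF_sub hWs ω hr s
      simp only
      rw [e3]
      push_cast
      ring
    rw [h1, norm_mul, Complex.norm_real, Real.norm_eq_abs, abs_of_nonneg (by positivity)]
    have h2 : (Nat.totient W : ℝ) / W ≤ 1 := by
      rw [div_le_one hW0]
      exact_mod_cast Nat.totient_le W
    calc _ ≤ 1 * m₀ := mul_le_mul h2 (hm₀ α hα) (norm_nonneg _) zero_le_one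
      _ = m₀ := one_mul _
  obtain ⟨Ex, hEx, hpair⟩ := circle_pairs (U := U) F g hFz hgz (MA P ((P : ℝ) / T)) (MA_meas _ _) (a := T * Λ₂) (lam := 8 * Λ₂ / η)
    (τ := η * T / 8) hE hm hF2 hg2 (by positivity) (by positivity)
  refine ⟨Ex, ?_, ?_⟩
  · refine hEx.trans (le_of_eq ?_)
    have hη0 : η ≠ 0 := hη.ne'
    have hT0' : (T : ℝ) ≠ 0 := hT0.ne'
    have e4 : 4 * m₀ ^ 2 * (T * Λ₂) / (η * T / 8) ^ 2 = 256 * m₀ ^ 2 * Λ₂ / (η ^ 2 * T) := by
      field_simp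
      ring
    exact e4
  · intro D hD1 hDU hDE
    have h1 := hpair D hDU hDE
    have h2 := hgcorr D
    have h3 := sing_le (Q := Q) hw hD1 hWw
    have hPP := PP_one_le w D
    have hw1 : (1 : ℝ) ≤ (w : ℝ) - 1 := by
      have : (2 : ℝ) ≤ w := by exact_mod_cast hw
      linarith
    have h4 : Real.exp (1 / ((w : ℝ) - 1)) ≤ 1 + η / 4 := by
      have h5 : 1 / ((w : ℝ) - 1) ≤ η / 8 := by
        rw [div_le_div_iff₀ (by linarith) (by norm_num), one_mul]
        have h6 : 8 / η ≤ (w : ℝ) - 1 := by linarith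
        rw [div_le_iff₀ hη] at h6
        linarith
      have h7 : |1 / ((w : ℝ) - 1)| ≤ 1 := by
        rw [abs_of_nonneg (by positivity)]; linarith
      have h8 := Real.abs_exp_sub_one_le h7
      rw [abs_of_nonneg (show 0 ≤ 1 / ((w : ℝ) - 1) by positivity)] at h8
      have := (abs_le.1 h8).2
      linarith
    have h10 : (1 + 8 * Λ₂ / η) * E ≤ η * T / 8 := by
      rw [hEv]
      have e : (1 + 8 * Λ₂ / η) * (η ^ 3 * T / (10 ^ 4 * Λ₂)) = η * T * (η * (η + 8 * Λ₂) / (10 ^ 4 * Λ₂)) := by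
        field_simp
      rw [e]
      have h11 : η * (η + 8 * Λ₂) / (10 ^ 4 * Λ₂) ≤ 1 / 8 := by
        rw [div_le_div_iff₀ (by positivity) (by norm_num)]
        nlinarith
      calc η * T * (η * (η + 8 * Λ₂) / (10 ^ 4 * Λ₂)) ≤ η * T * (1 / 8) := by gcongr
        _ = _ := by ring
    have h12 : T * Λ₂ / (8 * Λ₂ / η) = η * T / 8 := by field_simp
    rw [h12] at h1
    have h13 : (T : ℝ) * (∑ q ∈ QQ W Q, |cR q ((W * D : ℕ) : ℤ)| / (Nat.totient q : ℝ) ^ 2) ≤ T * (PP w D * (1 + η / 4)) := by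
      apply mul_le_mul_of_nonneg_left _ hT0.le
      refine h3.trans ?_
      exact mul_le_mul_of_nonneg_left h4 (by linarith)
    have h14 : 5 * (Q : ℝ) ^ 4 ≤ η * T / 8 := by linarith
    have h15 : η * T * 1 ≤ η * T * PP w D := mul_le_mul_of_nonneg_left hPP (by positivity)
    have h16 : (1 + η) * T * PP w D = T * (PP w D * (1 + η / 4)) + 3 / 4 * (η * T * PP w D) := by ring
    rw [h16]
    linarith

end Pool.Agent.J4H81.PT
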