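import Pool.Agent.J4H81.PT.CC
import Pool.Agent.H341R2.EM_T8a
import Pool.Agent.H398R2.BV5

/-!
# Growing prime tuples: characters on the major arcs (helper81)
-/

set_option autoImplicit false

namespace Pool.Agent.J4H81.PT

open Finset MeasureTheory
open Pool.Agent.H807R2.Dav (ee norm_ee ee_add ee_zero ee_int ee_eq dd dd_le dd_nonneg dd_ge dd_add_int ee_add_int dd_neg)
open H343 (GS GS_expand GS_one)
open Pool.Agent.H398R2.BV (Prim prim_ne_one)

/-- expansion into characters -/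
theorem char_expand {q a N : ℕ} (hq : 1 ≤ q) (ha : a ∈ Fr q) (c : ℕ → ℂ) (hc : ∀ n, c n ≠ 0 → n.Coprime q) (β : ℝ) :
    ∑ n ∈ range N, c n * ee (n * ((a : ℝ) / q + β)) =
      ((1 / (Nat.totient q : ℝ) : ℝ) : ℂ) * ∑ χ : DirichletCharacter ℂ q, χ (a : ZMod q) * (GS χ⁻¹ *
        ∑ n ∈ range N, c n * χ (n : ZMod q) * ee (n * β)) := by
  have hφ : ((Nat.totient q : ℝ) : ℂ) ≠ 0 := by
    have : 0 < Nat.totient q := Nat.totient_pos.2 hq
    exact_mod_cast this.ne'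
  simp_rw [mul_sum]
  rw [sum_comm]
  refine sum_congr rfl fun n _ => ?_
  by_cases h0 : c n = 0
  · rw [h0]; simp
  have hn := hc n h0
  have h1 := GS_expand q (n * a) hq (Nat.Coprime.mul_left hn (mem_Fr.1 ha).2)
  have h2 : ee (n * ((a : ℝ) / q + β)) = H343.ex (((n * a : ℕ) : ℝ) / q) * ee (n * β) := by
    rw [ex_ee, ← ee_add]
    congr 1
    push_cast
    ring
  have h3 : H343.ex (((n * a : ℕ) : ℝ) / q) = ((1 / (Nat.totient q : ℝ) : ℝ) : ℂ) *
      ∑ χ : DirichletCharacter ℂ q, χ ((n * a : ℕ) : ZMod q) * GS χ⁻¹ := by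
    rw [← h1]
    push_cast at hφ ⊢
    rw [one_div, inv_mul_cancel_left₀ hφ]
  rw [h2, h3, mul_sum, sum_mul, mul_sum]
  refine sum_congr rfl fun χ _ => ?_
  push_cast
  rw [map_mul]
  ring

/-- the fraction opposite to `a / q` -/
theorem opp_frac {q a : ℕ} (ha : a ∈ Fr q) : (q - a) % q ∈ Fr q ∧
    ∃ k : ℤ, (((q - a) % q : ℕ) : ℝ) / q = -((a : ℝ) / q) + k := by
  obtain ⟨h1, h2⟩ := mem_Fr.1 ha
  have hq : 0 < q := by omega
  have hq0 : (q : ℝ) ≠ 0 := by exact_mod_cast hq.ne'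
  constructor
  · rw [mem_Fr]
    refine ⟨Nat.mod_lt _ hq, ?_⟩
    rw [Nat.Coprime, (Nat.mod_modEq (q - a) q).gcd_eq, Nat.gcd_comm, Nat.gcd_self_sub_right h1.le, Nat.gcd_comm]
    exact h2
  · rcases Nat.eq_zero_or_pos a with rfl | h0
    · refine ⟨0, ?_⟩
      simp
    · refine ⟨1, ?_⟩
      rw [Nat.mod_eq_of_lt (by omega), Nat.cast_sub h1.le]
      push_cast
      field_simp
      ring

theorem vh_int (v : ℕ → ℝ) (N : ℕ) (θ : ℝ) (k : ℤ) : vh v N (θ + k) = vh v N θ := by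
  unfold vh
  refine sum_congr rfl fun n _ => ?_
  have : (n : ℝ) * (θ + k) = n * θ + ((n * k : ℤ) : ℝ) := by push_cast; ring
  rw [this, ee_add_int]

/-- the model near a fraction with a small denominator -/
theorem model_major {W Q N q a : ℕ} (hWs : Squarefree W) (v : ℕ → ℝ) (hv : v N = 0) (ha : a ∈ Fr q) (hqQ : q ≤ Q)
    {β : ℝ} (hβ : 2 * Real.pi * |β| ≤ 2 / ((W * Q : ℕ) : ℝ) ^ 2) :
    ‖∑ n ∈ range N, ((v n * GW W Q (n : ℤ) : ℝ) : ℂ) * ee (n * ((a : ℝ) / q + β)) - ((cc q : ℝ) : ℂ) * vh v N β‖ ≤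
      ((W * Q : ℕ) : ℝ) ^ 3 * TV v N := by
  have hWpos : 0 < W := Nat.pos_of_ne_zero hWs.ne_zero
  have hq : 0 < q := by have := (mem_Fr.1 ha).1; omega
  have hQ : 0 < Q := by omega
  have hX0 : (0 : ℝ) < ((W * Q : ℕ) : ℝ) := by exact_mod_cast Nat.mul_pos hWpos hQ
  obtain ⟨hb, k, hk⟩ := opp_frac ha
  set b := (q - a) % q with hbd
  have hdd : dd β ≤ 2 / ((W * Q : ℕ) : ℝ) ^ 2 := (dd_le β).trans hβ
  have hqX : (q : ℝ) ≤ ((W * Q : ℕ) : ℝ) := by
    have : q ≤ W * Q := hqQ.trans (Nat.le_mul_of_pos_left Q hWpos)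
    exact_mod_cast this
  by_cases hs : Squarefree q
  · have hqR := sqfree_mem_RR hWs.ne_zero hs hqQ
    have e1 : (a : ℝ) / q + β + b / q = β + k := by rw [hk]; ring
    have h := model_near hWs v N hv ((a : ℝ) / q + β) le_rfl hX0 hqR hb (by rw [e1, dd_add_int]; exact hdd)
    rw [e1, vh_int] at h
    exact h
  · have hc0 : cc q = 0 := by
      unfold cc
      rw [ArithmeticFunction.moebius_eq_zero_of_not_squarefree hs]
      simp
    rw [hc0]
    simp only [Complex.ofReal_zero, zero_mul, sub_zero]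
    apply model_far hWs v N hv _ le_rfl hX0
    intro q' hq' b' hb'
    obtain ⟨hq'1, hq'X, hq's⟩ := mem_RR hWs hq'
    have hne : ¬ (q' = q ∧ b' = b) := by
      rintro ⟨h1, _⟩
      rw [h1] at hq's
      exact hs hq's
    have h1 := frac_sep hb' hb hne
    have e1 : (b' : ℝ) / q' - (b : ℝ) / q = ((a : ℝ) / q + β + b' / q') - (β + k) := by rw [hk]; ring
    rw [e1] at h1
    have h2 := dd_sub ((a : ℝ) / q + β + b' / q') (β + k)
    rw [dd_add_int] at h2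
    have hq'X0 : (q' : ℝ) ≤ ((W * Q : ℕ) : ℝ) := by exact_mod_cast hq'X
    have h3 : 4 / ((W * Q : ℕ) : ℝ) ^ 2 ≤ 4 / ((q' : ℝ) * q) := by
      have h4 : (0 : ℝ) < q' := by exact_mod_cast hq'1
      have h5 : (0 : ℝ) < q := by exact_mod_cast hq
      apply div_le_div_of_nonneg_left (by norm_num) (by positivity)
      rw [sq]
      gcongr
    have h5 : (4 : ℝ) / ((W * Q : ℕ) : ℝ) ^ 2 = 2 / ((W * Q : ℕ) : ℝ) ^ 2 + 2 / ((W * Q : ℕ) : ℝ) ^ 2 := by ring
    linarith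

open Classical in
/-- the twisted sums -/
noncomputable def DD (ω : ℕ → ℝ) (N : ℕ) (f : ℕ) (χ : DirichletCharacter ℂ f) (β : ℝ) : ℂ :=
  ∑ n ∈ range N, ((ω n : ℝ) : ℂ) * (((nu n : ℝ) : ℂ) * χ (n : ZMod f) - (if χ = 1 then 1 else 0)) * ee (n * β)

/-- the difference near a fraction -/
theorem major_point {W Q N N₁ q a : ℕ} (hWs : Squarefree W) {ω : ℕ → ℝ} (hω : Wt ω N N₁) (ha : a ∈ Fr q) (hqQ : q ≤ Q)
    (hqN : q ≤ N₁) {β : ℝ} (hβ : 2 * Real.pi * |β| ≤ 2 / ((W * Q : ℕ) : ℝ) ^ 2) :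
    ‖hat (cx (hh W Q ω)) N ((a : ℝ) / q + β) - ((1 / (Nat.totient q : ℝ) : ℝ) : ℂ) *
      ∑ χ : DirichletCharacter ℂ q, χ (a : ZMod q) * (GS χ⁻¹ * DD ω N q χ β)‖ ≤ 3 * ((W * Q : ℕ) : ℝ) ^ 3 := by
  classical
  have hq : 1 ≤ q := by have := (mem_Fr.1 ha).1; omega
  have h1 := model_major hWs ω (hω.zero_ge N le_rfl) ha hqQ hβ
  have h2 := hω.TV_le' N
  have hcop : ∀ n, ((ω n * nu n : ℝ) : ℂ) ≠ 0 → n.Coprime q := by
    intro n hn
    have h3 : ω n * nu n ≠ 0 := by exact_mod_cast hn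
    have hωn : ω n ≠ 0 := left_ne_zero_of_mul h3
    have hνn : nu n ≠ 0 := right_ne_zero_of_mul h3
    have hn1 : N₁ < n := by
      by_contra hcon
      exact hωn (hω.zero_le n (by omega))
    have hp : n.Prime := by
      by_contra hcon
      apply hνn
      unfold nu
      rw [if_neg hcon]
    rw [Nat.Prime.coprime_iff_not_dvd hp]
    intro hd
    have := Nat.le_of_dvd hq hd
    omega
  have e : hat (cx (hh W Q ω)) N ((a : ℝ) / q + β) - ((1 / (Nat.totient q : ℝ) : ℝ) : ℂ) *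
      ∑ χ : DirichletCharacter ℂ q, χ (a : ZMod q) * (GS χ⁻¹ * DD ω N q χ β) =
      -(∑ n ∈ range N, ((ω n * GW W Q (n : ℤ) : ℝ) : ℂ) * ee (n * ((a : ℝ) / q + β)) - ((cc q : ℝ) : ℂ) * vh ω N β) := by
    have e1 : hat (cx (hh W Q ω)) N ((a : ℝ) / q + β) = ∑ n ∈ range N, ((ω n * nu n : ℝ) : ℂ) * ee (n * ((a : ℝ) / q + β)) -
        ∑ n ∈ range N, ((ω n * GW W Q (n : ℤ) : ℝ) : ℂ) * ee (n * ((a : ℝ) / q + β)) := by
      unfold hat cx hh
      rw [← sum_sub_distrib]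
      refine sum_congr rfl fun n _ => ?_
      push_cast; ring
    have e2 := char_expand (N := N) hq ha (fun n => ((ω n * nu n : ℝ) : ℂ)) hcop β
    have e3 : ∑ χ : DirichletCharacter ℂ q, χ (a : ZMod q) * (GS χ⁻¹ * DD ω N q χ β) =
        ∑ χ : DirichletCharacter ℂ q, χ (a : ZMod q) * (GS χ⁻¹ * ∑ n ∈ range N, ((ω n * nu n : ℝ) : ℂ) * χ (n : ZMod q) * ee (n * β)) -
          ((ArithmeticFunction.moebius q : ℤ) : ℂ) * vh ω N β := by
      have e4 : ∀ χ : DirichletCharacter ℂ q, DD ω N q χ β =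
          ∑ n ∈ range N, ((ω n * nu n : ℝ) : ℂ) * χ (n : ZMod q) * ee (n * β) - (if χ = 1 then vh ω N β else 0) := by
        intro χ
        unfold DD vh
        split_ifs
        · rw [← sum_sub_distrib]
          refine sum_congr rfl fun n _ => ?_
          push_cast; ring
        · rw [sub_zero]
          refine sum_congr rfl fun n _ => ?_
          push_cast; ring
      simp_rw [e4]
      have e5 : ∀ χ : DirichletCharacter ℂ q, χ (a : ZMod q) * (GS χ⁻¹ * (∑ n ∈ range N, ((ω n * nu n : ℝ) : ℂ) * χ (n : ZMod q) * ee (n * β) -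
          (if χ = 1 then vh ω N β else 0))) = χ (a : ZMod q) * (GS χ⁻¹ * ∑ n ∈ range N, ((ω n * nu n : ℝ) : ℂ) * χ (n : ZMod q) * ee (n * β)) -
          (if χ = 1 then ((ArithmeticFunction.moebius q : ℤ) : ℂ) * vh ω N β else 0) := by
        intro χ
        split_ifs with hχ
        · subst hχ
          have hu : IsUnit ((a : ℕ) : ZMod q) := (ZMod.isUnit_iff_coprime a q).2 (mem_Fr.1 ha).2
          rw [inv_one, GS_one q hq, MulChar.one_apply hu]
          ring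
        · ring
      simp_rw [e5]
      rw [sum_sub_distrib, sum_ite_eq' univ (1 : DirichletCharacter ℂ q)]
      simp
    rw [e1, e2, e3]
    unfold cc
    push_cast
    ring
  rw [e, norm_neg]
  refine h1.trans ?_
  have : 0 ≤ ((W * Q : ℕ) : ℝ) ^ 3 := by positivity
  nlinarith

end Pool.Agent.J4H81.PT
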