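import Pool.Agent.J4H81.PT.EAa

/-!
# Growing prime tuples: mean square over the fractions with a given denominator (helper81)
-/

set_option autoImplicit false

namespace Pool.Agent.J4H81.PT

open Finset MeasureTheory
open Pool.Agent.H807R2.Dav (ee norm_ee ee_add ee_zero ee_int ee_eq dd dd_le dd_nonneg dd_ge dd_add_int ee_add_int dd_neg)
open H343 (GS GS_expand GS_one)
open Pool.Agent.H398R2.BV (Prim prim_ne_one)

/-- orthogonality -/
theorem char_orth {q : ℕ} [NeZero q] (χ χ' : DirichletCharacter ℂ q) :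
    ∑ x : ZMod q, χ x * (starRingEnd ℂ) (χ' x) = if χ = χ' then (Nat.totient q : ℂ) else 0 := by
  have h1 : ∀ x : ZMod q, χ x * (starRingEnd ℂ) (χ' x) = (χ * χ'⁻¹) x := by
    intro x
    have h2 := MulChar.star_apply' χ' x
    rw [MulChar.mul_apply, ← h2]
    rfl
  simp_rw [h1]
  split_ifs with h
  · rw [h, mul_inv_cancel]
    have h3 := MulChar.sum_one_eq_card_units (R := ZMod q) (R' := ℂ)
    rw [h3, ZMod.card_units_eq_totient]
  · apply MulChar.sum_eq_zero_of_ne_one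
    intro h2
    exact h (mul_inv_eq_one.1 h2)

theorem char_parseval {q : ℕ} [NeZero q] (c : DirichletCharacter ℂ q → ℂ) :
    ∑ x : ZMod q, ‖∑ χ : DirichletCharacter ℂ q, χ x * c χ‖ ^ 2 = (Nat.totient q : ℝ) * ∑ χ, ‖c χ‖ ^ 2 := by
  classical
  have e : ((∑ x : ZMod q, ‖∑ χ : DirichletCharacter ℂ q, χ x * c χ‖ ^ 2 : ℝ) : ℂ) =
      (((Nat.totient q : ℝ) * ∑ χ, ‖c χ‖ ^ 2 : ℝ) : ℂ) := by
    push_cast
    have h1 : ∀ x : ZMod q, ((‖∑ χ : DirichletCharacter ℂ q, χ x * c χ‖ : ℝ) : ℂ) ^ 2 =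
        ∑ χ : DirichletCharacter ℂ q, ∑ χ' : DirichletCharacter ℂ q, (c χ * (starRingEnd ℂ) (c χ')) * (χ x * (starRingEnd ℂ) (χ' x)) := by
      intro x
      rw [← Complex.mul_conj', map_sum, sum_mul_sum]
      refine sum_congr rfl fun χ _ => sum_congr rfl fun χ' _ => ?_
      rw [map_mul]
      ring
    simp_rw [h1]
    rw [sum_comm, mul_sum]
    refine sum_congr rfl fun χ _ => ?_
    rw [sum_comm]
    simp_rw [← mul_sum, char_orth]
    simp only [mul_ite, mul_zero, sum_ite_eq, mem_univ, if_true]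
    rw [Complex.mul_conj']
    ring
  exact_mod_cast e

theorem sum_Fr_le {q : ℕ} (hq : 1 ≤ q) (c : DirichletCharacter ℂ q → ℂ) :
    ∑ a ∈ Fr q, ‖((1 / (Nat.totient q : ℝ) : ℝ) : ℂ) * ∑ χ : DirichletCharacter ℂ q, χ (a : ZMod q) * c χ‖ ^ 2 ≤
      1 / (Nat.totient q : ℝ) * ∑ χ, ‖c χ‖ ^ 2 := by
  have : NeZero q := ⟨by omega⟩
  have hφ : (0 : ℝ) < Nat.totient q := by exact_mod_cast Nat.totient_pos.2 hq
  have h1 : ∑ a ∈ Fr q, ‖((1 / (Nat.totient q : ℝ) : ℝ) : ℂ) * ∑ χ : DirichletCharacter ℂ q, χ (a : ZMod q) * c χ‖ ^ 2 =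
      (1 / (Nat.totient q : ℝ)) ^ 2 * ∑ a ∈ Fr q, ‖∑ χ : DirichletCharacter ℂ q, χ (a : ZMod q) * c χ‖ ^ 2 := by
    rw [mul_sum]
    refine sum_congr rfl fun a _ => ?_
    rw [norm_mul, mul_pow, Complex.norm_real, Real.norm_eq_abs, sq_abs]
  have h2 : ∑ a ∈ Fr q, ‖∑ χ : DirichletCharacter ℂ q, χ (a : ZMod q) * c χ‖ ^ 2 ≤ (Nat.totient q : ℝ) * ∑ χ, ‖c χ‖ ^ 2 := by
    rw [← char_parseval]
    have h3 : ∑ a ∈ Fr q, ‖∑ χ : DirichletCharacter ℂ q, χ (a : ZMod q) * c χ‖ ^ 2 ≤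
        ∑ a ∈ range q, ‖∑ χ : DirichletCharacter ℂ q, χ (a : ZMod q) * c χ‖ ^ 2 :=
      sum_le_sum_of_subset_of_nonneg (filter_subset _ _) fun _ _ _ => sq_nonneg _
    refine h3.trans (le_of_eq ?_)
    have h4 : ((∑ a ∈ range q, ‖∑ χ : DirichletCharacter ℂ q, χ (a : ZMod q) * c χ‖ ^ 2 : ℝ) : ℂ) =
        ((∑ x : ZMod q, ‖∑ χ : DirichletCharacter ℂ q, χ x * c χ‖ ^ 2 : ℝ) : ℂ) := by
      push_cast
      exact H343.Gauss.sum_range_eq q (fun x => ((‖∑ χ : DirichletCharacter ℂ q, χ x * c χ‖ : ℝ) : ℂ) ^ 2)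
    exact_mod_cast h4
  rw [h1]
  calc _ ≤ (1 / (Nat.totient q : ℝ)) ^ 2 * ((Nat.totient q : ℝ) * ∑ χ, ‖c χ‖ ^ 2) :=
        mul_le_mul_of_nonneg_left h2 (sq_nonneg _)
    _ = _ := by field_simp

/-- sums over all the characters in terms of the primitive characters -/
theorem by_conductor (m : ℕ) [NeZero m] (w : DirichletCharacter ℂ m → ℝ) (hw : ∀ χ, 0 ≤ w χ)
    (W : (f : ℕ) → DirichletCharacter ℂ f → ℝ)
    (hW : ∀ f (h : f ∣ m) (ψ : DirichletCharacter ℂ f), w (DirichletCharacter.changeLevel h ψ) ≤ W f ψ) :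
    ∑ χ, w χ ≤ ∑ f ∈ m.divisors, ∑ ψ ∈ Prim f, W f ψ := by
  classical
  have h1 : ∀ χ ∈ (univ : Finset (DirichletCharacter ℂ m)), χ.conductor ∈ m.divisors :=
    fun χ _ => Nat.mem_divisors.mpr ⟨χ.conductor_dvd_level, NeZero.ne m⟩
  rw [← sum_fiberwise_of_maps_to h1]
  apply sum_le_sum
  intro f hf
  rw [Nat.mem_divisors] at hf
  have hfm := hf.1
  have h2 : ((univ : Finset (DirichletCharacter ℂ m)).filter (fun χ => χ.conductor = f)) ⊆
      (Prim f).image (DirichletCharacter.changeLevel hfm) := by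
    intro χ hχ
    rw [mem_filter] at hχ
    obtain ⟨_, hc⟩ := hχ
    subst hc
    rw [mem_image]
    refine ⟨χ.primitiveCharacter, ?_, χ.changeLevel_primitiveCharacter⟩
    unfold Prim
    rw [mem_filter]
    exact ⟨mem_univ _, χ.primitiveCharacter_isPrimitive⟩
  calc _ ≤ ∑ χ ∈ (Prim f).image (DirichletCharacter.changeLevel hfm), w χ :=
        sum_le_sum_of_subset_of_nonneg h2 fun χ _ _ => hw χ
    _ = ∑ ψ ∈ Prim f, w (DirichletCharacter.changeLevel hfm ψ) := by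
        rw [sum_image]
        intro x _ y _ hxy
        exact DirichletCharacter.changeLevel_injective hfm hxy
    _ ≤ _ := sum_le_sum fun ψ _ => hW f hfm ψ

/-- the twisted sums depend only on the primitive character -/
theorem DD_changeLevel {N N₁ f m : ℕ} {ω : ℕ → ℝ} (hω : Wt ω N N₁) (hm : 1 ≤ m) (hmN : m ≤ N₁) (h : f ∣ m)
    (ψ : DirichletCharacter ℂ f) (β : ℝ) : DD ω N m (DirichletCharacter.changeLevel h ψ) β = DD ω N f ψ β := by
  classical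
  have : NeZero m := ⟨by omega⟩
  have hiff : DirichletCharacter.changeLevel h ψ = 1 ↔ ψ = 1 := by
    constructor
    · intro h1
      exact DirichletCharacter.changeLevel_injective h (by rw [h1, map_one])
    · rintro rfl
      exact map_one _
  unfold DD
  simp_rw [hiff]
  refine sum_congr rfl fun n _ => ?_
  by_cases hz : ω n * nu n = 0
  · rcases mul_eq_zero.1 hz with h0 | h0
    · rw [h0]; simp
    · rw [h0]; simp
  · have hωn : ω n ≠ 0 := left_ne_zero_of_mul hz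
    have hνn : nu n ≠ 0 := right_ne_zero_of_mul hz
    have hn1 : N₁ < n := by
      by_contra hcon
      exact hωn (hω.zero_le n (by omega))
    have hp : n.Prime := by
      by_contra hcon
      apply hνn
      unfold nu
      rw [if_neg hcon]
    have hcop : n.Coprime m := by
      rw [Nat.Prime.coprime_iff_not_dvd hp]
      intro hd
      have := Nat.le_of_dvd hm hd
      omega
    have h1 := DirichletCharacter.changeLevel_eq_cast_of_dvd' ψ h (a := (n : ℤ))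
      (by exact_mod_cast Nat.isCoprime_iff_coprime.mpr hcop)
    push_cast at h1
    rw [h1]

/-- the mean square over the fractions with denominator `q` -/
theorem frac_mean {W Q N N₁ q : ℕ} (hWs : Squarefree W) {ω : ℕ → ℝ} (hω : Wt ω N N₁) (hq : 1 ≤ q) (hqQ : q ≤ Q)
    (hqN : q ≤ N₁) {β : ℝ} (hβ : 2 * Real.pi * |β| ≤ 2 / ((W * Q : ℕ) : ℝ) ^ 2) :
    ∑ a ∈ Fr q, ‖hat (cx (hh W Q ω)) N ((a : ℝ) / q + β)‖ ^ 2 ≤
      2 / (Nat.totient q : ℝ) * ∑ f ∈ q.divisors, (f : ℝ) * ∑ ψ ∈ Prim f, ‖DD ω N f ψ β‖ ^ 2 +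
        18 * q * ((W * Q : ℕ) : ℝ) ^ 6 := by
  classical
  have : NeZero q := ⟨by omega⟩
  have hφ : (0 : ℝ) < Nat.totient q := by exact_mod_cast Nat.totient_pos.2 hq
  set X : ℝ := ((W * Q : ℕ) : ℝ) with hX
  have hX0 : 0 ≤ X := Nat.cast_nonneg _
  have h1 : ∀ a ∈ Fr q, ‖hat (cx (hh W Q ω)) N ((a : ℝ) / q + β)‖ ^ 2 ≤
      2 * ‖((1 / (Nat.totient q : ℝ) : ℝ) : ℂ) * ∑ χ : DirichletCharacter ℂ q, χ (a : ZMod q) * (GS χ⁻¹ * DD ω N q χ β)‖ ^ 2 +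
        2 * (3 * X ^ 3) ^ 2 := by
    intro a ha
    have h2 := major_point hWs hω ha hqQ hqN hβ
    set u := hat (cx (hh W Q ω)) N ((a : ℝ) / q + β)
    set v := ((1 / (Nat.totient q : ℝ) : ℝ) : ℂ) * ∑ χ : DirichletCharacter ℂ q, χ (a : ZMod q) * (GS χ⁻¹ * DD ω N q χ β)
    have h3 : ‖u‖ ≤ ‖v‖ + 3 * X ^ 3 := by
      have : u = v + (u - v) := by ring
      rw [this]
      exact (norm_add_le _ _).trans (by linarith)
    have h4 : 0 ≤ 3 * X ^ 3 := by positivity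
    calc ‖u‖ ^ 2 ≤ (‖v‖ + 3 * X ^ 3) ^ 2 := pow_le_pow_left₀ (norm_nonneg _) h3 2
      _ ≤ _ := by nlinarith [sq_nonneg (‖v‖ - 3 * X ^ 3)]
  refine (sum_le_sum h1).trans ?_
  rw [sum_add_distrib, ← mul_sum, sum_const, nsmul_eq_mul]
  have h2 := sum_Fr_le hq (fun χ => GS χ⁻¹ * DD ω N q χ β)
  have h3 : ∑ χ : DirichletCharacter ℂ q, ‖GS χ⁻¹ * DD ω N q χ β‖ ^ 2 ≤
      ∑ f ∈ q.divisors, ∑ ψ ∈ Prim f, (f : ℝ) * ‖DD ω N f ψ β‖ ^ 2 := by
    apply by_conductor q (fun χ => ‖GS χ⁻¹ * DD ω N q χ β‖ ^ 2) (fun χ => sq_nonneg _)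
      (fun f ψ => (f : ℝ) * ‖DD ω N f ψ β‖ ^ 2)
    intro f hf ψ
    rw [norm_mul, mul_pow, DD_changeLevel hω hq hqN hf]
    apply mul_le_mul_of_nonneg_right _ (sq_nonneg _)
    rw [H343.Gauss.GS_eq]
    refine (Pool.Agent.H341R2.EM.gauss_le q _).trans ?_
    rw [DirichletCharacter.conductor_inv]
    have hf0 : 0 < f := Nat.pos_of_dvd_of_pos hf hq
    have : (DirichletCharacter.changeLevel hf ψ).conductor ≤ f := by
      rw [DirichletCharacter.conductor_changeLevel]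
      exact Nat.le_of_dvd hf0 ψ.conductor_dvd_level
    exact_mod_cast this
  have h4 : ((Fr q).card : ℝ) ≤ q := by
    rw [card_Fr]
    exact_mod_cast Nat.totient_le q
  have h5 : (1 : ℝ) / (Nat.totient q : ℝ) * ∑ χ : DirichletCharacter ℂ q, ‖GS χ⁻¹ * DD ω N q χ β‖ ^ 2 ≤
      1 / (Nat.totient q : ℝ) * ∑ f ∈ q.divisors, ∑ ψ ∈ Prim f, (f : ℝ) * ‖DD ω N f ψ β‖ ^ 2 :=
    mul_le_mul_of_nonneg_left h3 (by positivity)
  have h6 : ∑ f ∈ q.divisors, (f : ℝ) * ∑ ψ ∈ Prim f, ‖DD ω N f ψ β‖ ^ 2 =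
      ∑ f ∈ q.divisors, ∑ ψ ∈ Prim f, (f : ℝ) * ‖DD ω N f ψ β‖ ^ 2 := by simp_rw [mul_sum]
  rw [h6]
  have h7 : ((Fr q).card : ℝ) * (2 * (3 * X ^ 3) ^ 2) ≤ q * (2 * (3 * X ^ 3) ^ 2) := by gcongr
  have h8 : (q : ℝ) * (2 * (3 * X ^ 3) ^ 2) = 18 * q * X ^ 6 := by ring
  have h9 : 2 / (Nat.totient q : ℝ) * ∑ f ∈ q.divisors, ∑ ψ ∈ Prim f, (f : ℝ) * ‖DD ω N f ψ β‖ ^ 2 =
      2 * (1 / (Nat.totient q : ℝ) * ∑ f ∈ q.divisors, ∑ ψ ∈ Prim f, (f : ℝ) * ‖DD ω N f ψ β‖ ^ 2) := by ring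
  rw [h9]
  linarith

end Pool.Agent.J4H81.PT
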