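import Pool.Agent.J4H81.PT.EAb

/-!
# Growing prime tuples: the energy on the major arcs (helper81)
-/

set_option autoImplicit false

namespace Pool.Agent.J4H81.PT

open Finset MeasureTheory
open Pool.Agent.H807R2.Dav (ee norm_ee ee_add ee_zero ee_int ee_eq dd dd_le dd_nonneg dd_ge dd_add_int ee_add_int dd_neg)
open Pool.Agent.H398R2.BV (Prim prim_ne_one)

theorem ii_sum {ι : Type*} (S : Finset ι) (f : ι → ℝ → ℝ) {a b : ℝ}
    (h : ∀ i ∈ S, IntervalIntegrable (f i) volume a b) : IntervalIntegrable (fun x => ∑ i ∈ S, f i x) volume a b := by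
  have := IntervalIntegrable.sum S h
  have e : (fun x => ∑ i ∈ S, f i x) = ∑ i ∈ S, f i := by
    ext x
    rw [Finset.sum_apply]
  rw [e]
  exact this

/-- every point of the major arcs is near a reduced fraction -/
theorem cover {W T P : ℕ} (hW : 0 < W) (hT : 0 < T) {θ : ℝ} (h0 : 0 ≤ θ) (h1 : θ ≤ 1)
    (hθ : (W : ℝ) * θ ∈ MA P ((P : ℝ) / T)) (hsmall : (P : ℝ) / (W * T : ℕ) * (W * P : ℕ) < 1) :
    ∃ q ∈ Icc 1 (W * P), ∃ a ∈ Fr q, |θ - a / q| ≤ (P : ℝ) / (W * T : ℕ) ∨ |θ - (a / q + 1)| ≤ (P : ℝ) / (W * T : ℕ) := by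
  obtain ⟨q, hq1, hqP, a, ha⟩ := hθ
  have hW0 : (0 : ℝ) < W := by exact_mod_cast hW
  have hT0 : (0 : ℝ) < T := by exact_mod_cast hT
  have hq0 : (0 : ℝ) < q := by exact_mod_cast hq1
  set r : ℚ := (a : ℚ) / ((W * q : ℕ) : ℚ) with hr
  have hden : r.den ∣ W * q := by
    have h2 : r = Rat.divInt a ((W * q : ℕ) : ℤ) := by
      rw [hr, Rat.divInt_eq_div]; push_cast; rfl
    have h3 := Rat.den_dvd a ((W * q : ℕ) : ℤ)
    rw [← h2] at h3
    exact_mod_cast h3
  have hWq : 0 < W * q := Nat.mul_pos hW hq1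
  have hdenle : r.den ≤ W * P := (Nat.le_of_dvd hWq hden).trans (Nat.mul_le_mul_left W hqP)
  have hden0 : 0 < r.den := r.den_pos
  have hden0' : (0 : ℝ) < r.den := by exact_mod_cast hden0
  have hrr : (r : ℝ) = (r.num : ℝ) / r.den := Rat.cast_def r
  have hrr2 : (r : ℝ) = (a : ℝ) / (W * q) := by rw [hr]; push_cast; rfl
  set Δ : ℝ := (P : ℝ) / (W * T : ℕ) with hΔ
  have hclose : |θ - (r.num : ℝ) / r.den| ≤ Δ := by
    rw [← hrr, hrr2]
    have e : (W : ℝ) * θ - a / q = W * (θ - a / (W * q)) := by field_simp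
    rw [e, abs_mul, abs_of_pos hW0] at ha
    have e2 : Δ = (P : ℝ) / T / W := by rw [hΔ]; push_cast; field_simp
    rw [e2, le_div_iff₀ hW0]
    linarith
  have hΔd : Δ < 1 / r.den := by
    rw [lt_div_iff₀ hden0']
    have hΔ0 : 0 ≤ Δ := by positivity
    calc Δ * r.den ≤ Δ * (W * P : ℕ) := by
          apply mul_le_mul_of_nonneg_left _ hΔ0
          exact_mod_cast hdenle
      _ < 1 := hsmall
  have hab := abs_le.1 hclose
  have hnum0 : 0 ≤ r.num := by
    have h2 : -(1 : ℝ) < r.num := by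
      have h3 : -(1 / (r.den : ℝ)) < (r.num : ℝ) / r.den := by linarith [hab.2]
      rw [← neg_div, div_lt_div_iff_of_pos_right hden0'] at h3
      linarith
    have h3 : (-1 : ℤ) < r.num := by exact_mod_cast h2
    omega
  have hnum1 : r.num ≤ r.den := by
    have h2 : (r.num : ℝ) < r.den + 1 := by
      have h3 : (r.num : ℝ) / r.den < (r.den + 1) / r.den := by
        have : ((r.den : ℝ) + 1) / r.den = 1 + 1 / r.den := by field_simp
        rw [this]
        linarith [hab.1]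
      rwa [div_lt_div_iff_of_pos_right hden0'] at h3
    have h3 : (r.num : ℤ) < r.den + 1 := by exact_mod_cast h2
    omega
  have hnn : (r.num.natAbs : ℤ) = r.num := Int.natAbs_of_nonneg hnum0
  have hnn' : ((r.num.natAbs : ℕ) : ℝ) = (r.num : ℝ) := by rw [← Int.cast_natCast, hnn]
  rcases lt_or_eq_of_le hnum1 with h | h
  · refine ⟨r.den, mem_Icc.2 ⟨hden0, hdenle⟩, r.num.natAbs, ?_, Or.inl ?_⟩
    · rw [mem_Fr]
      exact ⟨by omega, r.reduced⟩
    · rw [hnn']; exact hclose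
  · -- the fraction is one
    have hd1 : r.den = 1 := by
      have h2 := r.reduced
      have h3 : r.num.natAbs = r.den := by omega
      rw [h3] at h2
      exact (Nat.coprime_self _).1 h2
    refine ⟨1, mem_Icc.2 ⟨le_rfl, by omega⟩, 0, ?_, Or.inr ?_⟩
    · rw [mem_Fr]; simp
    · have h3 : (r.num : ℝ) / r.den = 1 := by
        rw [h]; push_cast; rw [hd1]; simp
      rw [h3] at hclose
      simpa using hclose

theorem hat_int (c : ℕ → ℂ) (N : ℕ) (θ : ℝ) (k : ℤ) : hat c N (θ + k) = hat c N θ := by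
  unfold hat
  refine sum_congr rfl fun n _ => ?_
  have : (n : ℝ) * (θ + k) = n * θ + ((n * k : ℤ) : ℝ) := by push_cast; ring
  rw [this, ee_add_int]

theorem ind_int_le (G : ℝ → ℝ) (hG : Continuous G) (hG0 : ∀ x, 0 ≤ G x) (c Δ : ℝ) (hΔ : 0 ≤ Δ) :
    ∫ θ in (0 : ℝ)..1, (Set.Icc (c - Δ) (c + Δ)).indicator G θ ≤ ∫ β in (-Δ)..Δ, G (c + β) := by
  rw [intervalIntegral.integral_of_le zero_le_one, setIntegral_indicator measurableSet_Icc]
  have h1 : ∫ β in (-Δ)..Δ, G (c + β) = ∫ θ in Set.Icc (c - Δ) (c + Δ), G θ := by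
    rw [intervalIntegral.integral_comp_add_left G c, intervalIntegral.integral_of_le (by linarith), integral_Icc_eq_integral_Ioc]
    congr 2
  rw [h1]
  apply setIntegral_mono_set
  · exact hG.integrableOn_Icc
  · exact Filter.Eventually.of_forall fun x => hG0 x
  · exact (Set.inter_subset_right).eventuallyLE

/-- the sum over the multiples of `f` -/
theorem sum_mult_le {R f : ℕ} (hf : 1 ≤ f) :
    ∑ q ∈ (Icc 1 R).filter (fun q => f ∣ q), 1 / (Nat.totient q : ℝ) ≤
      1 / (Nat.totient f : ℝ) * ∑ q ∈ Icc 1 R, 1 / (Nat.totient q : ℝ) := by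
  have hφ : (0 : ℝ) < Nat.totient f := by exact_mod_cast Nat.totient_pos.2 hf
  rw [mul_sum]
  calc ∑ q ∈ (Icc 1 R).filter (fun q => f ∣ q), 1 / (Nat.totient q : ℝ) ≤
        ∑ q ∈ (Icc 1 R).filter (fun q => f ∣ q), 1 / (Nat.totient f : ℝ) * (1 / (Nat.totient (q / f) : ℝ)) := by
        apply sum_le_sum
        intro q hq
        rw [mem_filter, mem_Icc] at hq
        obtain ⟨m, hm⟩ := hq.2
        have hm0 : 0 < m := by
          rcases Nat.eq_zero_or_pos m with h | h
          · rw [h, mul_zero] at hm; omega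
          · exact h
        have hqf : q / f = m := by rw [hm]; exact Nat.mul_div_cancel_left m hf
        rw [hqf, hm]
        have hφm : (0 : ℝ) < Nat.totient m := by exact_mod_cast Nat.totient_pos.2 hm0
        rw [one_div_mul_one_div]
        apply one_div_le_one_div_of_le (by positivity)
        exact_mod_cast Nat.totient_super_multiplicative f m
    _ = ∑ m ∈ ((Icc 1 R).filter (fun q => f ∣ q)).image (fun q => q / f), 1 / (Nat.totient f : ℝ) * (1 / (Nat.totient m : ℝ)) := by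
        rw [sum_image]
        intro x hx y hy hxy
        rw [mem_coe, mem_filter] at hx hy
        simp only at hxy
        rw [← Nat.div_mul_cancel hx.2, ← Nat.div_mul_cancel hy.2, hxy]
    _ ≤ _ := by
        apply sum_le_sum_of_subset_of_nonneg
        · intro m hm
          rw [mem_image] at hm
          obtain ⟨q, hq, rfl⟩ := hm
          rw [mem_filter, mem_Icc] at hq
          rw [mem_Icc]
          exact ⟨Nat.div_pos (Nat.le_of_dvd (by omega) hq.2) hf, (Nat.div_le_self _ _).trans hq.1.2⟩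
        · intro m _ _
          positivity

/-- the mean squares of the twisted sums -/
noncomputable def EE (ω : ℕ → ℝ) (N R : ℕ) (Δ : ℝ) : ℝ :=
  ∑ f ∈ Icc 1 R, (f : ℝ) / (Nat.totient f : ℝ) * ∑ ψ ∈ Prim f, ∫ β in (-Δ)..Δ, ‖DD ω N f ψ β‖ ^ 2

theorem DD_cont (ω : ℕ → ℝ) (N : ℕ) (f : ℕ) (χ : DirichletCharacter ℂ f) : Continuous (DD ω N f χ) := by
  unfold DD
  apply continuous_finsetSum
  intro s _
  exact continuous_const.mul (ee_cont.comp (by fun_prop))

/-- the energy on the major arcs -/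
theorem energy_major {W Q T P N₁ : ℕ} (hWs : Squarefree W) (hT : 0 < T) {ω : ℕ → ℝ} (hω : Wt ω (W * T) N₁)
    (hRQ : W * P ≤ Q) (hRN : W * P ≤ N₁) (hβ : 2 * Real.pi * ((P : ℝ) / (W * T : ℕ)) ≤ 2 / ((W * Q : ℕ) : ℝ) ^ 2)
    (hsmall : (P : ℝ) / (W * T : ℕ) * (W * P : ℕ) < 1) :
    ∫ θ in (0 : ℝ)..1, {θ : ℝ | W * θ ∈ MA P ((P : ℝ) / T)}.indicator (fun θ => ‖hat (cx (hh W Q ω)) (W * T) θ‖ ^ 2) θ ≤
      4 * (∑ q ∈ Icc 1 (W * P), 1 / (Nat.totient q : ℝ)) * EE ω (W * T) (W * P) ((P : ℝ) / (W * T : ℕ)) +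
        72 * ((W * P : ℕ) : ℝ) ^ 2 * ((W * Q : ℕ) : ℝ) ^ 6 * ((P : ℝ) / (W * T : ℕ)) := by
  classical
  have hWpos : 0 < W := Nat.pos_of_ne_zero hWs.ne_zero
  set Δ : ℝ := (P : ℝ) / (W * T : ℕ) with hΔ
  have hΔ0 : 0 ≤ Δ := by positivity
  set G : ℝ → ℝ := fun θ => ‖hat (cx (hh W Q ω)) (W * T) θ‖ ^ 2 with hG
  have hGc : Continuous G := ((hat_cont _ _).norm).pow 2
  have hG0 : ∀ x, 0 ≤ G x := fun x => sq_nonneg _
  have hGper : ∀ x, G (x + 1) = G x := by
    intro x
    have := hat_int (cx (hh W Q ω)) (W * T) x 1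
    rw [Int.cast_one] at this
    rw [hG]; simp only; rw [this]
  set R := W * P with hR
  set X : ℝ := ((W * Q : ℕ) : ℝ) with hX
  have hMm : MeasurableSet {θ : ℝ | W * θ ∈ MA P ((P : ℝ) / T)} := (measurable_const.mul measurable_id) (MA_meas _ _)
  have hii : ∀ (B : Set ℝ), MeasurableSet B → IntervalIntegrable (B.indicator G) volume 0 1 := by
    intro B hB
    rw [intervalIntegrable_iff]
    exact (hGc.intervalIntegrable 0 1).def'.indicator hB
  have hiqa : ∀ q a : ℕ, IntervalIntegrable (fun θ => (Set.Icc ((a : ℝ) / q - Δ) ((a : ℝ) / q + Δ)).indicator G θ +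
      (Set.Icc (((a : ℝ) / q + 1) - Δ) (((a : ℝ) / q + 1) + Δ)).indicator G θ) volume 0 1 :=
    fun q a => (hii _ measurableSet_Icc).add (hii _ measurableSet_Icc)
  have hiq : ∀ q : ℕ, IntervalIntegrable (fun θ => ∑ a ∈ Fr q, ((Set.Icc ((a : ℝ) / q - Δ) ((a : ℝ) / q + Δ)).indicator G θ +
      (Set.Icc (((a : ℝ) / q + 1) - Δ) (((a : ℝ) / q + 1) + Δ)).indicator G θ)) volume 0 1 :=
    fun q => ii_sum _ _ fun a _ => hiqa q a
  -- pointwise bound by the sum over the arcs
  have h1 : ∫ θ in (0 : ℝ)..1, {θ : ℝ | W * θ ∈ MA P ((P : ℝ) / T)}.indicator G θ ≤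
      ∫ θ in (0 : ℝ)..1, ∑ q ∈ Icc 1 R, ∑ a ∈ Fr q, ((Set.Icc ((a : ℝ) / q - Δ) ((a : ℝ) / q + Δ)).indicator G θ +
        (Set.Icc (((a : ℝ) / q + 1) - Δ) (((a : ℝ) / q + 1) + Δ)).indicator G θ) := by
    apply intervalIntegral.integral_mono_on zero_le_one (hii _ hMm)
    · apply ii_sum
      intro q _
      exact hiq q
    · intro θ hθ
      have hnn : ∀ q ∈ Icc 1 R, ∀ a ∈ Fr q, 0 ≤ (Set.Icc ((a : ℝ) / q - Δ) ((a : ℝ) / q + Δ)).indicator G θ +
          (Set.Icc (((a : ℝ) / q + 1) - Δ) (((a : ℝ) / q + 1) + Δ)).indicator G θ :=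
        fun q _ a _ => add_nonneg (Set.indicator_nonneg (fun _ _ => hG0 _) _) (Set.indicator_nonneg (fun _ _ => hG0 _) _)
      by_cases hm : θ ∈ {θ : ℝ | W * θ ∈ MA P ((P : ℝ) / T)}
      · rw [Set.indicator_of_mem hm]
        obtain ⟨q, hq, a, ha, hor⟩ := cover hWpos hT hθ.1 hθ.2 hm hsmall
        refine le_trans ?_ (single_le_sum (f := fun q => ∑ a ∈ Fr q, ((Set.Icc ((a : ℝ) / q - Δ) ((a : ℝ) / q + Δ)).indicator G θ +
          (Set.Icc (((a : ℝ) / q + 1) - Δ) (((a : ℝ) / q + 1) + Δ)).indicator G θ)) (fun q hq => sum_nonneg (hnn q hq)) hq)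
        refine le_trans ?_ (single_le_sum (f := fun a : ℕ => ((Set.Icc ((a : ℝ) / q - Δ) ((a : ℝ) / q + Δ)).indicator G θ +
          (Set.Icc (((a : ℝ) / q + 1) - Δ) (((a : ℝ) / q + 1) + Δ)).indicator G θ)) (fun a ha => hnn q hq a ha) ha)
        rcases hor with h | h
        · have hmem : θ ∈ Set.Icc ((a : ℝ) / q - Δ) ((a : ℝ) / q + Δ) := by
            have := abs_le.1 h
            constructor <;> linarith [this.1, this.2]
          rw [Set.indicator_of_mem hmem]
          have := Set.indicator_nonneg (s := Set.Icc (((a : ℝ) / q + 1) - Δ) (((a : ℝ) / q + 1) + Δ)) (f := G) (fun _ _ => hG0 _) θ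
          linarith
        · have hmem : θ ∈ Set.Icc (((a : ℝ) / q + 1) - Δ) (((a : ℝ) / q + 1) + Δ) := by
            have := abs_le.1 h
            constructor <;> linarith [this.1, this.2]
          rw [Set.indicator_of_mem hmem]
          have := Set.indicator_nonneg (s := Set.Icc ((a : ℝ) / q - Δ) ((a : ℝ) / q + Δ)) (f := G) (fun _ _ => hG0 _) θ
          linarith
      · rw [Set.indicator_of_notMem hm]
        exact sum_nonneg fun q hq => sum_nonneg (hnn q hq)
  refine h1.trans ?_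
  rw [intervalIntegral.integral_finsetSum (fun q _ => hiq q)]
  -- one denominator
  have h2 : ∀ q ∈ Icc 1 R, ∫ θ in (0 : ℝ)..1, ∑ a ∈ Fr q, ((Set.Icc ((a : ℝ) / q - Δ) ((a : ℝ) / q + Δ)).indicator G θ +
        (Set.Icc (((a : ℝ) / q + 1) - Δ) (((a : ℝ) / q + 1) + Δ)).indicator G θ) ≤
      4 * (1 / (Nat.totient q : ℝ)) * ∑ f ∈ q.divisors, (f : ℝ) * ∑ ψ ∈ Prim f, (∫ β in (-Δ)..Δ, ‖DD ω (W * T) f ψ β‖ ^ 2) +
        72 * R * X ^ 6 * Δ := by
    intro q hq
    rw [mem_Icc] at hq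
    rw [intervalIntegral.integral_finsetSum (fun a _ => hiqa q a)]
    have h3 : ∀ a ∈ Fr q, ∫ θ in (0 : ℝ)..1, ((Set.Icc ((a : ℝ) / q - Δ) ((a : ℝ) / q + Δ)).indicator G θ +
        (Set.Icc (((a : ℝ) / q + 1) - Δ) (((a : ℝ) / q + 1) + Δ)).indicator G θ) ≤ 2 * ∫ β in (-Δ)..Δ, G ((a : ℝ) / q + β) := by
      intro a _
      rw [intervalIntegral.integral_add (hii _ measurableSet_Icc) (hii _ measurableSet_Icc)]
      have h4 := ind_int_le G hGc hG0 ((a : ℝ) / q) Δ hΔ0
      have h5 := ind_int_le G hGc hG0 ((a : ℝ) / q + 1) Δ hΔ0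
      have h6 : ∫ β in (-Δ)..Δ, G ((a : ℝ) / q + 1 + β) = ∫ β in (-Δ)..Δ, G ((a : ℝ) / q + β) := by
        apply intervalIntegral.integral_congr
        intro β _
        simp only
        rw [← hGper ((a : ℝ) / q + β)]
        congr 1
        ring
      rw [h6] at h5
      linarith
    refine (sum_le_sum h3).trans ?_
    have hGs : ∀ a : ℕ, IntervalIntegrable (fun β => G ((a : ℝ) / q + β)) volume (-Δ) Δ :=
      fun a => (hGc.comp (by fun_prop : Continuous fun β : ℝ => (a : ℝ) / q + β)).intervalIntegrable _ _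
    rw [← mul_sum, ← intervalIntegral.integral_finsetSum (fun a _ => hGs a)]
    have hDc : ∀ f (ψ : DirichletCharacter ℂ f), Continuous (fun β => ‖DD ω (W * T) f ψ β‖ ^ 2) :=
      fun f ψ => ((DD_cont ω (W * T) f ψ).norm).pow 2
    have h7 : ∫ β in (-Δ)..Δ, ∑ a ∈ Fr q, G ((a : ℝ) / q + β) ≤
        ∫ β in (-Δ)..Δ, (2 / (Nat.totient q : ℝ) * ∑ f ∈ q.divisors, (f : ℝ) * ∑ ψ ∈ Prim f, ‖DD ω (W * T) f ψ β‖ ^ 2 + 18 * q * X ^ 6) := by
      apply intervalIntegral.integral_mono_on (by linarith)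
      · apply Continuous.intervalIntegrable
        apply continuous_finsetSum
        intro a _
        exact hGc.comp (by fun_prop : Continuous fun β : ℝ => (a : ℝ) / q + β)
      · apply Continuous.intervalIntegrable
        apply Continuous.add _ continuous_const
        apply Continuous.mul continuous_const
        apply continuous_finsetSum
        intro f _
        apply Continuous.mul continuous_const
        apply continuous_finsetSum
        intro ψ _
        exact hDc f ψ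
      · intro β hβm
        apply frac_mean hWs hω hq.1 (hq.2.trans hRQ) (hq.2.trans hRN)
        refine le_trans ?_ hβ
        apply mul_le_mul_of_nonneg_left _ (by positivity)
        rw [abs_le]
        exact hβm
    have h8 : ∫ β in (-Δ)..Δ, (2 / (Nat.totient q : ℝ) * ∑ f ∈ q.divisors, (f : ℝ) * ∑ ψ ∈ Prim f, ‖DD ω (W * T) f ψ β‖ ^ 2 + 18 * q * X ^ 6) =
        2 / (Nat.totient q : ℝ) * ∑ f ∈ q.divisors, (f : ℝ) * ∑ ψ ∈ Prim f, (∫ β in (-Δ)..Δ, ‖DD ω (W * T) f ψ β‖ ^ 2) + 36 * q * X ^ 6 * Δ := by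
      rw [intervalIntegral.integral_add]
      · rw [intervalIntegral.integral_const_mul, intervalIntegral.integral_finsetSum, intervalIntegral.integral_const, smul_eq_mul]
        · congr 1
          · congr 1
            refine sum_congr rfl fun f _ => ?_
            rw [intervalIntegral.integral_const_mul, intervalIntegral.integral_finsetSum]
            intro ψ _
            exact (hDc f ψ).intervalIntegrable _ _
          · ring
        · intro f _
          apply Continuous.intervalIntegrable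
          apply Continuous.mul continuous_const
          apply continuous_finsetSum
          intro ψ _
          exact hDc f ψ
      · apply Continuous.intervalIntegrable
        apply Continuous.mul continuous_const
        apply continuous_finsetSum
        intro f _
        apply Continuous.mul continuous_const
        apply continuous_finsetSum
        intro ψ _
        exact hDc f ψ
      · exact (continuous_const).intervalIntegrable _ _
    rw [h8] at h7
    have h9 : 36 * (q : ℝ) * X ^ 6 * Δ ≤ 36 * R * X ^ 6 * Δ := by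
      have : (q : ℝ) ≤ R := by exact_mod_cast hq.2
      gcongr
    have h10 : 4 * (1 / (Nat.totient q : ℝ)) * ∑ f ∈ q.divisors, (f : ℝ) * ∑ ψ ∈ Prim f, (∫ β in (-Δ)..Δ, ‖DD ω (W * T) f ψ β‖ ^ 2) =
        2 * (2 / (Nat.totient q : ℝ) * ∑ f ∈ q.divisors, (f : ℝ) * ∑ ψ ∈ Prim f, (∫ β in (-Δ)..Δ, ‖DD ω (W * T) f ψ β‖ ^ 2)) := by ring
    rw [h10]
    linarith
  refine (sum_le_sum h2).trans ?_
  rw [sum_add_distrib, sum_const, Nat.card_Icc, nsmul_eq_mul, Nat.add_sub_cancel]
  apply add_le_add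
  · -- exchange of summations
    set Y : ℕ → ℝ := fun f => (f : ℝ) * ∑ ψ ∈ Prim f, (∫ β in (-Δ)..Δ, ‖DD ω (W * T) f ψ β‖ ^ 2) with hY
    have hY0 : ∀ f, 0 ≤ Y f := by
      intro f
      apply mul_nonneg (Nat.cast_nonneg f)
      apply sum_nonneg
      intro ψ _
      apply intervalIntegral.integral_nonneg (by linarith)
      intro β _
      exact sq_nonneg _
    have e1 : ∑ q ∈ Icc 1 R, 4 * (1 / (Nat.totient q : ℝ)) * ∑ f ∈ q.divisors, Y f =
        4 * ∑ f ∈ Icc 1 R, Y f * ∑ q ∈ (Icc 1 R).filter (fun q => f ∣ q), 1 / (Nat.totient q : ℝ) := by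
      have h4 : ∀ q ∈ Icc 1 R, 4 * (1 / (Nat.totient q : ℝ)) * ∑ f ∈ q.divisors, Y f =
          ∑ f ∈ Icc 1 R, if f ∣ q then 4 * (1 / (Nat.totient q : ℝ)) * Y f else 0 := by
        intro q hq
        rw [mem_Icc] at hq
        rw [mul_sum, ← sum_filter]
        apply sum_congr _ fun _ _ => rfl
        ext f
        rw [Nat.mem_divisors, mem_filter, mem_Icc]
        constructor
        · rintro ⟨h5, h6⟩
          exact ⟨⟨Nat.pos_of_dvd_of_pos h5 (by omega), (Nat.le_of_dvd (by omega) h5).trans hq.2⟩, h5⟩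
        · rintro ⟨_, h5⟩
          exact ⟨h5, by omega⟩
      rw [sum_congr rfl h4, sum_comm, mul_sum]
      refine sum_congr rfl fun f _ => ?_
      rw [← sum_filter, mul_sum, mul_sum]
      refine sum_congr rfl fun q _ => ?_
      ring
    rw [e1]
    unfold EE
    rw [mul_assoc]
    apply mul_le_mul_of_nonneg_left _ (by norm_num)
    rw [mul_sum (Icc 1 R) _ (∑ q ∈ Icc 1 R, 1 / (Nat.totient q : ℝ))]
    apply sum_le_sum
    intro f hf
    rw [mem_Icc] at hf
    calc Y f * ∑ q ∈ (Icc 1 R).filter (fun q => f ∣ q), 1 / (Nat.totient q : ℝ) ≤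
          Y f * (1 / (Nat.totient f : ℝ) * ∑ q ∈ Icc 1 R, 1 / (Nat.totient q : ℝ)) :=
          mul_le_mul_of_nonneg_left (sum_mult_le hf.1) (hY0 f)
      _ = _ := by rw [hY]; ring
  · apply le_of_eq
    ring

end Pool.Agent.J4H81.PT
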