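import Pool.Agent.J4H81.PT.SHa
import Pool.Agent.H807R2.Dav1

/-!
# Growing prime tuples: twisted sums at good scales (helper81)
-/

set_option autoImplicit false

namespace Pool.Agent.J4H81.PT.ZF

open Complex Filter Topology Set MeasureTheory
open scoped Interval
open DirichletCharacter
open Pool.Agent.H807R2.Dav (ee norm_ee ee_add ee_zero)

/-- twist by `n ^ (-2 π i ξ)` -/
noncomputable def twl (g : ℕ → ℂ) (ξ : ℝ) (n : ℕ) : ℂ := g n * ee (-(ξ * Real.log n))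

theorem term_twl (g : ℕ → ℂ) (ξ : ℝ) (s : ℂ) (n : ℕ) :
    LSeries.term (twl g ξ) s n = LSeries.term g (s + ((2 * Real.pi * ξ : ℝ) : ℂ) * I) n := by
  rcases Nat.eq_zero_or_pos n with rfl | hn
  · simp
  · rw [LSeries.term_of_ne_zero hn.ne', LSeries.term_of_ne_zero hn.ne']
    have hnc : (n : ℂ) ≠ 0 := by exact_mod_cast hn.ne'
    have h1 : (n : ℂ) ^ (s + ((2 * Real.pi * ξ : ℝ) : ℂ) * I) = (n : ℂ) ^ s * (ee (-(ξ * Real.log n)))⁻¹ := by
      rw [Complex.cpow_add _ _ hnc]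
      congr 1
      rw [Complex.cpow_def_of_ne_zero hnc, ← Complex.natCast_log]
      unfold ee
      rw [← Complex.exp_neg]
      congr 1
      push_cast
      ring
    rw [h1]
    unfold twl
    have h2 : ee (-(ξ * Real.log n)) ≠ 0 := by
      unfold ee
      exact Complex.exp_ne_zero _
    have h3 : (n : ℂ) ^ s ≠ 0 := by
      rw [Complex.cpow_def_of_ne_zero hnc]; exact Complex.exp_ne_zero _
    field_simp

theorem lser_twl (g : ℕ → ℂ) (ξ : ℝ) (s : ℂ) :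
    LSeries (twl g ξ) s = LSeries g (s + ((2 * Real.pi * ξ : ℝ) : ℂ) * I) := by
  unfold LSeries
  exact tsum_congr fun n => term_twl g ξ s n

theorem summ_twl {g : ℕ → ℂ} (ξ : ℝ) {y : ℝ} (h : LSeriesSummable g (y : ℂ)) : LSeriesSummable (twl g ξ) (y : ℂ) := by
  have h1 : LSeriesSummable g ((y : ℂ) + ((2 * Real.pi * ξ : ℝ) : ℂ) * I) :=
    (LSeriesSummable_iff_of_re_eq_re (by simp)).1 h
  unfold LSeriesSummable at h1 ⊢
  refine h1.congr fun n => ?_
  rw [term_twl]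

/-- sum of the coefficients -/
theorem coef_sum : ∃ C : ℝ, 1 ≤ C ∧ ∀ g : ℕ → ℂ, (∀ n, ‖g n‖ ≤ ArithmeticFunction.vonMangoldt n + 1) →
    ∀ c : ℝ, 1 < c → c ≤ 2 → LSeriesSummable g (c : ℂ) ∧ ∀ s : ℂ, s.re = c → ‖LSeries g s‖ ≤ C / (c - 1) ^ 2 := by
  obtain ⟨C, hC1, hC⟩ := Pool.Agent.H378R2.M1.vM_sum_bound
  refine ⟨C + 27, by linarith, fun g hg c hc hc2 => ?_⟩
  have hs1 := Pool.Agent.H378R2.M1.vM_summable hc
  have hs2 : Summable (fun n : ℕ => 1 / (n : ℝ) ^ c) := Real.summable_one_div_nat_rpow.mpr hc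
  have hb : ∀ s : ℂ, s.re = c → ∀ n : ℕ, ‖LSeries.term g s n‖ ≤
      ArithmeticFunction.vonMangoldt n * (n : ℝ) ^ (-c) + 1 / (n : ℝ) ^ c := by
    intro s hs n
    rcases Nat.eq_zero_or_pos n with h | h
    · subst h
      simp
      positivity
    · rw [LSeries.norm_term_eq, if_neg h.ne', hs, Real.rpow_neg (Nat.cast_nonneg n),
        ← div_eq_mul_inv, ← add_div]
      gcongr
      exact hg n
  have hcs : LSeriesSummable g (c : ℂ) := by
    unfold LSeriesSummable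
    exact Summable.of_norm_bounded (hs1.add hs2) (hb (c : ℂ) (by simp))
  refine ⟨hcs, fun s hs => ?_⟩
  have hc0 : 0 < c - 1 := by linarith
  have hsn : Summable (fun n => ‖LSeries.term g s n‖) :=
    Summable.of_nonneg_of_le (fun n => norm_nonneg _) (hb s hs) (hs1.add hs2)
  calc ‖LSeries g s‖ ≤ ∑' n : ℕ, ‖LSeries.term g s n‖ := norm_tsum_le_tsum_norm hsn
    _ ≤ ∑' n : ℕ, (ArithmeticFunction.vonMangoldt n * (n : ℝ) ^ (-c) + 1 / (n : ℝ) ^ c) :=
        hsn.tsum_le_tsum (hb s hs) (hs1.add hs2)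
    _ = (∑' n : ℕ, ArithmeticFunction.vonMangoldt n * (n : ℝ) ^ (-c)) + ∑' n : ℕ, 1 / (n : ℝ) ^ c :=
        hs1.tsum_add hs2
    _ ≤ C / (c - 1) ^ 2 + 27 / (c - 1) := add_le_add (hC c hc hc2) (sum_inv_le hc hc2)
    _ ≤ C / (c - 1) ^ 2 + 27 / (c - 1) ^ 2 := by
        have : 27 / (c - 1) ≤ 27 / (c - 1) ^ 2 := by
          gcongr
          nlinarith
        linarith
    _ = _ := by ring

/-- the coefficients `Λ - 1` -/
noncomputable def az (n : ℕ) : ℂ := ((ArithmeticFunction.vonMangoldt n : ℝ) : ℂ) - 1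

/-- `-ζ'/ζ - ζ`, holomorphic at `1` -/
noncomputable def Gz (s : ℂ) : ℂ := -(deriv riemannZeta₁ s / riemannZeta₁ s) - riemannZeta₀ s

theorem LS_az {s : ℂ} (hs : 1 < s.re) : LSeriesSummable az s ∧ LSeries az s = Gz s := by
  have h1 : LSeriesSummable (fun n : ℕ => ((ArithmeticFunction.vonMangoldt n : ℝ) : ℂ)) s :=
    ArithmeticFunction.LSeriesSummable_vonMangoldt hs
  have h2 : LSeriesSummable (1 : ℕ → ℂ) s := LSeriesSummable_one_iff.2 hs
  have haz : az = (fun n : ℕ => ((ArithmeticFunction.vonMangoldt n : ℝ) : ℂ)) - 1 := rfl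
  refine ⟨by rw [haz]; exact h1.sub h2, ?_⟩
  have h3 : LSeries (fun n : ℕ => ((ArithmeticFunction.vonMangoldt n : ℝ) : ℂ)) s =
      -deriv riemannZeta s / riemannZeta s :=
    ArithmeticFunction.LSeries_vonMangoldt_eq_deriv_riemannZeta_div hs
  have h4 : LSeries (1 : ℕ → ℂ) s = riemannZeta s := LSeries_one_eq_riemannZeta hs
  rw [haz, LSeries_sub h1 h2, h3, h4]
  have hs1 : s ≠ 1 := by
    rintro rfl
    simp at hs
  have hsub : s - 1 ≠ 0 := sub_ne_zero.2 hs1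
  have e1 : riemannZeta s = (s - 1)⁻¹ * riemannZeta₁ s := riemannZeta_eq_inv_sub_mul hs1
  have hz1 : riemannZeta₁ s ≠ 0 := by
    intro h0
    rw [h0, mul_zero] at e1
    exact riemannZeta_ne_zero_of_one_le_re hs.le e1
  unfold Gz
  rw [deriv_riemannZeta_eq_neg_inv_sub_sq_mul_add hs1]
  have e2 : riemannZeta s = (s - 1)⁻¹ + riemannZeta₀ s := riemannZeta_eq_inv_sub_add hs1
  have e3 : -(-((s - 1)⁻¹) ^ 2 * riemannZeta₁ s + (s - 1)⁻¹ * deriv riemannZeta₁ s) / riemannZeta s =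
      (s - 1)⁻¹ - deriv riemannZeta₁ s / riemannZeta₁ s := by
    rw [e1]
    field_simp
    ring
  rw [e3, e2]
  ring

theorem Gz_diff {s : ℂ} (h : riemannZeta₁ s ≠ 0) : DifferentiableAt ℂ Gz s := by
  unfold Gz
  have hd : DifferentiableAt ℂ (deriv riemannZeta₁) s :=
    (differentiable_riemannZeta₁.analyticAt s).deriv.differentiableAt
  exact ((hd.div (differentiable_riemannZeta₁ s) h).neg).sub (differentiable_riemannZeta₀ s)

/-- the general estimate, in the classical region -/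
theorem tw_gen {c l C₁ C₂ : ℝ} (hc : 0 < c) (hc1 : c ≤ 1) (hl : 4 ≤ l) (hcl : 1 / l ≤ c) (hC₁ : 1 ≤ C₁) (hC₂ : 1 ≤ C₂)
    {g : ℕ → ℂ} {H : ℂ → ℂ} (hs : ∀ y : ℝ, 1 < y → LSeriesSummable g (y : ℂ))
    (hH : ∀ s : ℂ, 1 < s.re → LSeries g s = H s)
    (hd : ∀ s : ℂ, 1 - c / (2 * l) ≤ s.re → s.re ≤ 1 + c / l → |s.im| ≤ Real.exp l - 1 → DifferentiableAt ℂ H s ∧ ‖H s‖ ≤ C₁ * l ^ 2)
    (hg : ∀ y : ℝ, 1 < y → y ≤ 2 → ∀ s : ℂ, s.re = y → ‖LSeries g s‖ ≤ C₂ / (y - 1) ^ 2)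
    {ξ : ℝ} (hξ : |2 * Real.pi * ξ| ≤ Real.exp l / 4) {x : ℝ} (hx : 1 ≤ x) (hxl : Real.log x ≤ l ^ 2) :
    ‖∑ n ∈ Finset.Icc 1 ⌊x⌋₊, twl g ξ n * ((Real.log (x / n) : ℝ) : ℂ)‖ ≤
      (20 * C₁ + 12 * C₂) * l ^ 4 * (x * Real.exp (-(c * Real.log x / (2 * l)))) := by
  have hl0 : 0 < l := by linarith
  have hx0 : 0 < x := by linarith
  have hlx : 0 ≤ Real.log x := Real.log_nonneg hx
  have hel : 1 + l ≤ Real.exp l := by have := Real.add_one_le_exp l; linarith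
  have hel8 : 8 ≤ Real.exp l := by
    have h1 : Real.exp 4 ≤ Real.exp l := Real.exp_le_exp.2 hl
    have h2 : (16 : ℝ) ≤ Real.exp 4 := by
      have h3 := Real.exp_one_gt_d9
      have h4 : Real.exp 4 = Real.exp 1 ^ 4 := by rw [← Real.exp_nat_mul]; norm_num
      rw [h4]
      calc (16 : ℝ) = 2 ^ 4 := by norm_num
        _ ≤ Real.exp 1 ^ 4 := by gcongr; linarith
    linarith
  set c' : ℝ := 1 + 1 / l ^ 2 with hc'
  have hl2 : 0 < 1 / l ^ 2 := by positivity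
  have hc'1 : 1 < c' := by linarith
  have hl2' : 1 / l ^ 2 ≤ c / l := by
    rw [sq, ← div_div]
    exact div_le_div_of_nonneg_right hcl hl0.le
  have hcl1 : c / l ≤ 1 / 4 := by
    rw [div_le_iff₀ hl0]
    linarith
  have hc'2 : c' ≤ 2 := by linarith
  set σ : ℝ := 1 - c / (2 * l) with hσ
  have hc2l : c / (2 * l) = (c / l) / 2 := by field_simp
  have hσ1 : 1 / 2 ≤ σ := by rw [hσ, hc2l]; linarith
  have hcl0 : 0 < c / l := by positivity
  have hσc : σ ≤ c' := by rw [hσ, hc2l]; linarith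
  set Tt : ℝ := Real.exp l / 2 with hTt
  have hT1 : 1 ≤ Tt := by rw [hTt]; linarith
  have h := shift_bound (a := twl g ξ) (F := fun s => H (s + ((2 * Real.pi * ξ : ℝ) : ℂ) * I)) (c := c') (σ := σ) (Tt := Tt)
    (M := C₁ * l ^ 2) (M' := C₂ / (c' - 1) ^ 2) (x := x) hc'1 hc'2 hσ1 hσc hT1 hx (fun y hy => summ_twl ξ (hs y hy))
    (fun s hs' => by
      rw [lser_twl]
      apply hH
      simp [hs']
      linarith)
    (fun s hs' => by
      rw [mem_reProdIm, Set.uIcc_of_le hσc, Set.uIcc_of_le (by linarith)] at hs'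
      have h1 := (hd (s + ((2 * Real.pi * ξ : ℝ) : ℂ) * I) (by simp; linarith [hs'.1.1]) (by simp; linarith [hs'.1.2]) (by
        have e : (s + ((2 * Real.pi * ξ : ℝ) : ℂ) * I).im = s.im + 2 * Real.pi * ξ := by simp
        rw [e]
        refine (abs_add_le _ _).trans ?_
        have h2 := abs_le.2 hs'.2
        linarith)).1
      apply DifferentiableAt.differentiableWithinAt
      exact DifferentiableAt.comp s h1 (by fun_prop))
    (fun s hs' => by
      rw [mem_reProdIm, Set.uIcc_of_le hσc, Set.uIcc_of_le (by linarith)] at hs'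
      exact (hd (s + ((2 * Real.pi * ξ : ℝ) : ℂ) * I) (by simp; linarith [hs'.1.1]) (by simp; linarith [hs'.1.2]) (by
        have e : (s + ((2 * Real.pi * ξ : ℝ) : ℂ) * I).im = s.im + 2 * Real.pi * ξ := by simp
        rw [e]
        refine (abs_add_le _ _).trans ?_
        have h2 := abs_le.2 hs'.2
        linarith)).2)
    (fun s hs' => by
      rw [lser_twl]
      apply hg c' hc'1 hc'2
      simp [hs'])
  refine h.trans ?_
  have e1 : C₂ / (c' - 1) ^ 2 = C₂ * l ^ 4 := by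
    rw [hc']
    field_simp
    ring
  rw [e1]
  have hxσ : x ^ σ = x * Real.exp (-(c * Real.log x / (2 * l))) := by
    rw [Real.rpow_def_of_pos hx0]
    nth_rewrite 2 [← Real.exp_log hx0]
    rw [← Real.exp_add]
    congr 1
    rw [hσ]
    ring
  have hxc : x ^ c' ≤ 3 * x := by
    rw [Real.rpow_def_of_pos hx0]
    have e2 : Real.log x * c' = Real.log x + Real.log x * (1 / l ^ 2) := by rw [hc']; ring
    rw [e2, Real.exp_add, Real.exp_log hx0]
    have h3 : Real.log x * (1 / l ^ 2) ≤ 1 := by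
      rw [mul_one_div, div_le_one (by positivity)]
      exact hxl
    have h4 : Real.exp (Real.log x * (1 / l ^ 2)) ≤ 3 := (Real.exp_le_exp.2 h3).trans (by
      have := Real.exp_one_lt_d9
      linarith)
    nlinarith [Real.exp_pos (Real.log x * (1 / l ^ 2))]
  have hE : 1 / Tt ≤ 2 * Real.exp (-(c * Real.log x / (2 * l))) := by
    have h5 : c * Real.log x / (2 * l) ≤ l := by
      rw [div_le_iff₀ (by positivity)]
      nlinarith
    have h6 : 1 / Tt = 2 * Real.exp (-l) := by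
      rw [hTt, Real.exp_neg]
      field_simp
    rw [h6]
    have := Real.exp_le_exp.2 (neg_le_neg h5)
    linarith
  set E : ℝ := Real.exp (-(c * Real.log x / (2 * l))) with hE'
  have hE0 : 0 < E := Real.exp_pos _
  have hll : l ^ 2 ≤ l ^ 4 := pow_le_pow_right₀ (by linarith) (by norm_num)
  have h7 : C₁ * l ^ 2 / Tt ^ 2 ≤ C₁ * l ^ 4 * (2 * E) := by
    have h8 : C₁ * l ^ 2 / Tt ^ 2 ≤ C₁ * l ^ 2 / Tt := by
      apply div_le_div_of_nonneg_left (by positivity) (by linarith)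
      nlinarith
    have h9 : C₁ * l ^ 2 / Tt = C₁ * l ^ 2 * (1 / Tt) := by ring
    rw [h9] at h8
    refine h8.trans ?_
    gcongr
  have h10 : C₂ * l ^ 4 / Tt ≤ C₂ * l ^ 4 * (2 * E) := by
    have h9 : C₂ * l ^ 4 / Tt = C₂ * l ^ 4 * (1 / Tt) := by ring
    rw [h9]
    gcongr
  calc 2 * (C₁ * l ^ 2) * x ^ σ + x ^ c' * (C₁ * l ^ 2 / Tt ^ 2 + C₂ * l ^ 4 / Tt) ≤
        2 * (C₁ * l ^ 4) * (x * E) + 3 * x * (C₁ * l ^ 4 * (2 * E) + C₂ * l ^ 4 * (2 * E)) := by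
        rw [hxσ]
        have h11 : 0 ≤ C₁ * l ^ 2 / Tt ^ 2 + C₂ * l ^ 4 / Tt := by positivity
        have h12 : 2 * (C₁ * l ^ 2) * (x * E) ≤ 2 * (C₁ * l ^ 4) * (x * E) := by gcongr
        have h13 : x ^ c' * (C₁ * l ^ 2 / Tt ^ 2 + C₂ * l ^ 4 / Tt) ≤ 3 * x * (C₁ * l ^ 4 * (2 * E) + C₂ * l ^ 4 * (2 * E)) := by
          apply mul_le_mul hxc (add_le_add h7 h10) h11 (by positivity)
        linarith
    _ = (8 * C₁ + 6 * C₂) * l ^ 4 * (x * E) := by ring
    _ ≤ _ := by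
        have : 0 ≤ l ^ 4 * (x * E) := by positivity
        nlinarith

/-- characters -/
theorem tw_char {c : ℝ} (hc : 0 < c) (hc1 : c ≤ 1) : ∃ C l₀ : ℝ, 1 ≤ C ∧ 4 ≤ l₀ ∧ ∀ l : ℝ, l₀ ≤ l → NoZ c l →
    ∀ (f : ℕ) [NeZero f] (χ : DirichletCharacter ℂ f), χ.IsPrimitive → χ ≠ 1 → Real.log f ≤ l →
    ∀ ξ : ℝ, |2 * Real.pi * ξ| ≤ Real.exp l / 4 → ∀ x : ℝ, 1 ≤ x → Real.log x ≤ l ^ 2 →
    ‖∑ n ∈ Finset.Icc 1 ⌊x⌋₊, twl (fun n => ((ArithmeticFunction.vonMangoldt n : ℝ) : ℂ) * χ (n : ZMod f)) ξ n * ((Real.log (x / n) : ℝ) : ℂ)‖ ≤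
      C * l ^ 4 * (x * Real.exp (-(c * Real.log x / (2 * l)))) := by
  obtain ⟨C₁, hC₁, h1⟩ := logder_char hc hc1
  obtain ⟨C₂, hC₂, h2⟩ := coef_sum
  refine ⟨20 * C₁ + 12 * C₂, max 4 (1 / c), by linarith, le_max_left _ _, ?_⟩
  intro l hl hno f _ χ hp hχ hfl ξ hξ x hx hxl
  have hl4 : 4 ≤ l := (le_max_left _ _).trans hl
  have hl0 : 0 < l := by linarith
  have hcl : 1 / l ≤ c := by
    rw [div_le_iff₀ hl0]
    have := (le_max_right _ _).trans hl
    rw [div_le_iff₀ hc] at this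
    linarith
  have hgb : ∀ n : ℕ, ‖((ArithmeticFunction.vonMangoldt n : ℝ) : ℂ) * χ (n : ZMod f)‖ ≤ ArithmeticFunction.vonMangoldt n + 1 := by
    intro n
    rw [norm_mul, Complex.norm_real, Real.norm_of_nonneg ArithmeticFunction.vonMangoldt_nonneg]
    have h3 := χ.norm_le_one (n : ZMod f)
    have h4 : 0 ≤ ArithmeticFunction.vonMangoldt n := ArithmeticFunction.vonMangoldt_nonneg
    nlinarith [norm_nonneg (χ (n : ZMod f))]
  have hge : (fun n : ℕ => ((ArithmeticFunction.vonMangoldt n : ℝ) : ℂ) * χ (n : ZMod f)) =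
      (fun n : ℕ => χ (n : ZMod f)) * (fun n : ℕ => ((ArithmeticFunction.vonMangoldt n : ℝ) : ℂ)) := by
    funext n
    simp only [Pi.mul_apply]
    ring
  apply tw_gen (H := fun s => -(deriv (LFunction χ) s / LFunction χ s)) hc hc1 hl4 hcl hC₁ hC₂ _ _ _ _ hξ hx hxl
  · intro y hy
    rw [hge]
    exact DirichletCharacter.LSeriesSummable_twist_vonMangoldt χ (by simpa using hy)
  · intro s hs
    rw [hge, DirichletCharacter.LSeries_twist_vonMangoldt_eq χ hs,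
      DirichletCharacter.deriv_LFunction_eq_deriv_LSeries χ hs,
      DirichletCharacter.LFunction_eq_LSeries χ hs, neg_div]
  · intro s hs1 hs2 hs3
    obtain ⟨h3, h4⟩ := h1 l hl4 hno f χ hp hχ hfl s hs1 hs2 hs3
    refine ⟨?_, by rw [norm_neg]; exact h4⟩
    have hdiff : Differentiable ℂ (LFunction χ) := differentiable_LFunction hχ
    have hd : DifferentiableAt ℂ (deriv (LFunction χ)) s :=
      (hdiff.analyticAt s).deriv.differentiableAt
    exact (hd.div (hdiff s) h3).neg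
  · intro y hy hy2 s hs
    exact (h2 _ hgb y hy hy2).2 s hs

/-- the principal character -/
theorem tw_one : ∃ c C l₀ : ℝ, 0 < c ∧ c ≤ 1 ∧ 1 ≤ C ∧ 4 ≤ l₀ ∧ ∀ l : ℝ, l₀ ≤ l →
    ∀ ξ : ℝ, |2 * Real.pi * ξ| ≤ Real.exp l / 4 → ∀ x : ℝ, 1 ≤ x → Real.log x ≤ l ^ 2 →
    ‖∑ n ∈ Finset.Icc 1 ⌊x⌋₊, twl az ξ n * ((Real.log (x / n) : ℝ) : ℂ)‖ ≤
      C * l ^ 4 * (x * Real.exp (-(c * Real.log x / (2 * l)))) := by
  obtain ⟨c, C₁, l₁, hc, hc1, hC₁, hl₁, h1⟩ := logder_zeta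
  obtain ⟨C₂, hC₂, h2⟩ := coef_sum
  obtain ⟨C₃, hC₃, h3⟩ := zeta0_bound
  refine ⟨c, 20 * (C₁ + 2 * C₃) + 12 * C₂, max l₁ (1 / c), hc, hc1, by linarith, hl₁.trans (le_max_left _ _), ?_⟩
  intro l hl ξ hξ x hx hxl
  have hll₁ : l₁ ≤ l := (le_max_left _ _).trans hl
  have hl4 : 4 ≤ l := hl₁.trans hll₁
  have hl0 : 0 < l := by linarith
  have hcl : 1 / l ≤ c := by
    rw [div_le_iff₀ hl0]
    have := (le_max_right _ _).trans hl
    rw [div_le_iff₀ hc] at this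
    linarith
  have hgb : ∀ n : ℕ, ‖az n‖ ≤ ArithmeticFunction.vonMangoldt n + 1 := by
    intro n
    unfold az
    refine (norm_sub_le _ _).trans ?_
    rw [norm_one, Complex.norm_real, Real.norm_of_nonneg ArithmeticFunction.vonMangoldt_nonneg]
  apply tw_gen (H := Gz) hc hc1 hl4 hcl (by linarith : 1 ≤ C₁ + 2 * C₃) hC₂ _ _ _ _ hξ hx hxl
  · intro y hy
    exact (LS_az (by simpa using hy)).1
  · intro s hs
    exact (LS_az hs).2
  · intro s hs1 hs2 hs3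
    obtain ⟨h4, h5⟩ := h1 l hll₁ s hs1 hs2 hs3
    refine ⟨Gz_diff h4, ?_⟩
    unfold Gz
    refine (norm_sub_le _ _).trans ?_
    rw [norm_neg]
    have hc2l : c / (2 * l) ≤ 1 / l := by
      rw [div_le_div_iff₀ (by positivity) hl0]
      nlinarith
    have hcl1 : c / l ≤ 1 / 4 := by
      rw [div_le_iff₀ hl0]
      linarith
    have h6 := h3 (2 * l) (by linarith) s (by
      have : 1 / (2 * l) = (1 / l) / 2 := by field_simp
      have h0 : c / (2 * l) ≤ 1 / (2 * l) := by gcongr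
      linarith) (by linarith) (by
      have h7 : |s.im| + 2 ≤ Real.exp (2 * l) := by
        have h8 : Real.exp (2 * l) = Real.exp l * Real.exp l := by rw [← Real.exp_add]; congr 1; ring
        have h9 : 1 + l ≤ Real.exp l := by have := Real.add_one_le_exp l; linarith
        rw [h8]
        nlinarith
      have h10 : 0 < |s.im| + 2 := by have := abs_nonneg s.im; linarith
      rw [← Real.log_exp (2 * l)]
      exact Real.log_le_log h10 h7)
    have h11 : C₃ * (2 * l) ≤ 2 * C₃ * l ^ 2 := by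
      have h12 : l ≤ l ^ 2 := by nlinarith
      calc C₃ * (2 * l) = 2 * C₃ * l := by ring
        _ ≤ 2 * C₃ * l ^ 2 := mul_le_mul_of_nonneg_left h12 (by linarith)
    calc ‖deriv riemannZeta₁ s / riemannZeta₁ s‖ + ‖riemannZeta₀ s‖ ≤ C₁ * l ^ 2 + 2 * C₃ * l ^ 2 := by linarith
      _ = _ := by ring
  · intro y hy hy2 s hs
    exact (h2 _ hgb y hy hy2).2 s hs

end Pool.Agent.J4H81.PT.ZF
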