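import Pool.Agent.J4H81.PT.VAd
import Pool.Agent.J4H81.PT.SHb
import Pool.Agent.J4H81.PT.EAc

/-!
# Growing prime tuples: the energy at good scales (helper81)
-/

set_option autoImplicit false

namespace Pool.Agent.J4H81.PT

open Finset MeasureTheory
open Pool.Agent.H807R2.Dav (ee norm_ee ee_add ee_zero ee_int ee_eq dd dd_le)
open Pool.Agent.H398R2.BV (Prim prim_ne_one card_prim_le)
open Pool.Agent.J4H81.PT.ZF (twl az NoZ tw_char tw_one)

/-- the smoothed sum in its two forms -/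
theorem QS_form (z : ℕ → ℂ) (ξ : ℝ) {x : ℝ} (hx : 1 ≤ x) (M : ℕ) (hM : x ≤ M) :
    ∑ n ∈ Icc 1 M, z n * ee (-(ξ * Real.log n)) * ((lp (Real.log x) (Real.log n) : ℝ) : ℂ) =
      ∑ n ∈ Icc 1 ⌊x⌋₊, twl z ξ n * ((Real.log (x / n) : ℝ) : ℂ) := by
  have hx0 : 0 < x := by linarith
  have hfl : ⌊x⌋₊ ≤ M := Nat.floor_le_of_le hM
  have h1 : ∑ n ∈ Icc 1 ⌊x⌋₊, twl z ξ n * ((Real.log (x / n) : ℝ) : ℂ) =
      ∑ n ∈ Icc 1 ⌊x⌋₊, z n * ee (-(ξ * Real.log n)) * ((lp (Real.log x) (Real.log n) : ℝ) : ℂ) := by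
    refine sum_congr rfl fun n hn => ?_
    rw [mem_Icc] at hn
    have hn0 : (0 : ℝ) < n := by exact_mod_cast hn.1
    have hnx : (n : ℝ) ≤ x := (Nat.le_floor_iff hx0.le).1 hn.2
    unfold twl lp
    rw [max_eq_right (by linarith [Real.log_le_log hn0 hnx]), Real.log_div hx0.ne' hn0.ne']
  rw [h1]
  symm
  apply sum_subset
  · intro n hn
    rw [mem_Icc] at hn ⊢
    exact ⟨hn.1, hn.2.trans hfl⟩
  · intro n hn hn'
    rw [mem_Icc] at hn hn'
    have h2 : x < n := by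
      by_contra hcon
      push Not at hcon
      exact hn' ⟨hn.1, (Nat.le_floor_iff hx0.le).2 hcon⟩
    rw [lp_zero (Real.log_le_log hx0 h2.le), Complex.ofReal_zero, mul_zero]

/-- uniform bound at good scales -/
theorem QS_sup {c₀ : ℝ} (hc₀ : 0 < c₀) (hc₀1 : c₀ ≤ 1) : ∃ c C l₀ : ℝ, 0 < c ∧ c ≤ 1 ∧ 1 ≤ C ∧ 4 ≤ l₀ ∧ ∀ l : ℝ, l₀ ≤ l → NoZ c₀ l →
    ∀ (f : ℕ), 1 ≤ f → Real.log f ≤ l → ∀ χ ∈ Prim f, ∀ ξ : ℝ, |2 * Real.pi * ξ| ≤ Real.exp l / 4 →
    ∀ (N : ℕ) (x : ℝ), 1 ≤ x → x ≤ N → Real.log N ≤ l ^ 2 →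
    ‖QS f χ N x ξ‖ ≤ C * l ^ 4 * (N * Real.exp (-(c * Real.log N / (2 * l)))) := by
  obtain ⟨C₁, l₁, hC₁, hl₁, h1⟩ := tw_char hc₀ hc₀1
  obtain ⟨c₂, C₂, l₂, hc₂, hc₂1, hC₂, hl₂, h2⟩ := tw_one
  refine ⟨min c₀ c₂, max C₁ C₂, max l₁ l₂, lt_min hc₀ hc₂, (min_le_left _ _).trans hc₀1, hC₁.trans (le_max_left _ _),
    hl₁.trans (le_max_left _ _), ?_⟩
  intro l hl hno f hf hfl χ hχ ξ hξ N x hx hxN hNl
  have hll₁ : l₁ ≤ l := (le_max_left _ _).trans hl
  have hll₂ : l₂ ≤ l := (le_max_right _ _).trans hl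
  have hl4 : 4 ≤ l := hl₁.trans hll₁
  have hl0 : 0 < l := by linarith
  have hx0 : 0 < x := by linarith
  have hN0 : (0 : ℝ) < N := by linarith
  have hlx : Real.log x ≤ Real.log N := Real.log_le_log hx0 hxN
  have hlogx : 0 ≤ Real.log x := Real.log_nonneg hx
  have hc0 : 0 < min c₀ c₂ := lt_min hc₀ hc₂
  have hc1 : min c₀ c₂ ≤ 1 := (min_le_left _ _).trans hc₀1
  -- monotonicity
  have hmono : ∀ a : ℝ, min c₀ c₂ ≤ a → x * Real.exp (-(a * Real.log x / (2 * l))) ≤ N * Real.exp (-(min c₀ c₂ * Real.log N / (2 * l))) := by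
    intro a ha
    set b : ℝ := min c₀ c₂ with hb
    have h3 : x * Real.exp (-(a * Real.log x / (2 * l))) ≤ x * Real.exp (-(b * Real.log x / (2 * l))) := by
      apply mul_le_mul_of_nonneg_left _ hx0.le
      apply Real.exp_le_exp.2
      have : b * Real.log x / (2 * l) ≤ a * Real.log x / (2 * l) := by gcongr
      linarith
    refine h3.trans ?_
    have e1 : ∀ y : ℝ, 0 < y → y * Real.exp (-(b * Real.log y / (2 * l))) = Real.exp ((1 - b / (2 * l)) * Real.log y) := by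
      intro y hy
      nth_rewrite 1 [← Real.exp_log hy]
      rw [← Real.exp_add]
      congr 1
      ring
    rw [e1 x hx0, e1 N hN0]
    apply Real.exp_le_exp.2
    apply mul_le_mul_of_nonneg_left hlx
    have : b / (2 * l) ≤ 1 := by
      rw [div_le_one (by positivity)]
      linarith
    linarith
  rcases (by omega : f = 1 ∨ 2 ≤ f) with hf1 | hf2
  · subst hf1
    have hχ1 : χ = 1 := DirichletCharacter.level_one χ
    subst hχ1
    have h3 : QS 1 1 N x ξ = ∑ n ∈ Icc 1 ⌊x⌋₊, twl az ξ n * ((Real.log (x / n) : ℝ) : ℂ) := by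
      rw [← QS_form az ξ hx N hxN]
      unfold QS az
      refine sum_congr rfl fun n _ => ?_
      rw [if_pos rfl, MulChar.one_apply (isUnit_of_subsingleton _), mul_one]
    rw [h3]
    refine (h2 l hll₂ ξ hξ x hx (hlx.trans hNl)).trans ?_
    have h4 := hmono c₂ (min_le_right _ _)
    have h5 : C₂ ≤ max C₁ C₂ := le_max_right _ _
    have h6 : 0 ≤ x * Real.exp (-(c₂ * Real.log x / (2 * l))) := by positivity
    gcongr
  · have : NeZero f := ⟨by omega⟩
    have hχ1 : χ ≠ 1 := prim_ne_one hf2 hχ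
    have hp : χ.IsPrimitive := by
      classical
      unfold Prim at hχ
      exact (mem_filter.1 hχ).2
    have h3 : QS f χ N x ξ = ∑ n ∈ Icc 1 ⌊x⌋₊, twl (fun n => ((ArithmeticFunction.vonMangoldt n : ℝ) : ℂ) * χ (n : ZMod f)) ξ n * ((Real.log (x / n) : ℝ) : ℂ) := by
      rw [← QS_form _ ξ hx N hxN]
      unfold QS
      refine sum_congr rfl fun n _ => ?_
      rw [if_neg hχ1, sub_zero]
    rw [h3]
    refine (h1 l hll₁ hno f χ hp hχ1 hfl ξ hξ x hx (hlx.trans hNl)).trans ?_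
    have h4 := hmono c₀ (min_le_left _ _)
    have h5 : C₁ ≤ max C₁ C₂ := le_max_left _ _
    have h6 : 0 ≤ x * Real.exp (-(c₀ * Real.log x / (2 * l))) := by positivity
    gcongr

open Classical in
/-- the coefficients -/
noncomputable def cf (ω : ℕ → ℝ) (f : ℕ) (χ : DirichletCharacter ℂ f) (n : ℕ) : ℂ :=
  ((ω n : ℝ) : ℂ) * (((nu n : ℝ) : ℂ) * χ (n : ZMod f) - (if χ = 1 then 1 else 0))

theorem DD_cf {ω : ℕ → ℝ} {N N₁ : ℕ} (hω : Wt ω N N₁) (f : ℕ) (χ : DirichletCharacter ℂ f) (β : ℝ) :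
    DD ω N f χ β = ∑ n ∈ Ioo N₁ N, cf ω f χ n * ee (n * β) := by
  unfold DD cf
  symm
  apply sum_subset
  · intro n hn
    rw [mem_Ioo] at hn
    rw [mem_range]
    exact hn.2
  · intro n hn hn'
    rw [mem_range] at hn
    rw [mem_Ioo] at hn'
    rw [hω.zero_le n (by omega)]
    simp

theorem cf_le {ω : ℕ → ℝ} {N N₁ : ℕ} (hω : Wt ω N N₁) (f : ℕ) (χ : DirichletCharacter ℂ f) {n : ℕ} (hn : n ∈ Ioo N₁ N) :
    ‖cf ω f χ n‖ ≤ 1 + Real.log N := by
  classical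
  rw [mem_Ioo] at hn
  unfold cf
  rw [norm_mul, Complex.norm_real, Real.norm_of_nonneg (hω.nonneg n)]
  have hn0 : (0 : ℝ) < n := by exact_mod_cast (by omega : 0 < n)
  have hlog : Real.log n ≤ Real.log N := Real.log_le_log hn0 (by exact_mod_cast hn.2.le)
  have h1 : ‖((nu n : ℝ) : ℂ) * χ (n : ZMod f) - (if χ = 1 then 1 else 0)‖ ≤ 1 + Real.log N := by
    refine (norm_sub_le _ _).trans ?_
    have h2 : ‖((nu n : ℝ) : ℂ) * χ (n : ZMod f)‖ ≤ Real.log N := by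
      rw [norm_mul, Complex.norm_real, Real.norm_of_nonneg (nu_nonneg n)]
      have h3 := χ.norm_le_one (n : ZMod f)
      have h4 : nu n ≤ Real.log n := by
        unfold nu; split_ifs
        · exact le_rfl
        · exact Real.log_natCast_nonneg n
      have h5 := nu_nonneg n
      nlinarith [norm_nonneg (χ (n : ZMod f))]
    have h3 : ‖(if χ = 1 then (1 : ℂ) else 0)‖ ≤ 1 := by split_ifs <;> simp
    linarith
  have h2 := hω.le_one n
  have h3 := hω.nonneg n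
  have h4 : 0 ≤ 1 + Real.log N := (norm_nonneg _).trans h1
  calc ω n * _ ≤ 1 * (1 + Real.log N) := mul_le_mul h2 h1 (norm_nonneg _) zero_le_one
    _ = _ := one_mul _

/-- the sums with logarithmic frequencies through the smoothed sums -/
theorem PL_QS {κ₀ : ℝ} (hκ₀ : 0 < κ₀) {N N₁ : ℕ} (hN₁ : 1 ≤ N₁) (h : Real.log N₁ + κ₀ ≤ Real.log N) (f : ℕ) (χ : DirichletCharacter ℂ f) (ξ : ℝ) :
    ‖PL (Ioo N₁ N) (cf (om κ₀ N N₁) f χ) ξ‖ ≤ (1 / κ₀) * (‖QS f χ N N ξ‖ + ‖QS f χ N (N * Real.exp (-κ₀)) ξ‖ +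
      ‖QS f χ N (N₁ * Real.exp κ₀) ξ‖ + ‖QS f χ N N₁ ξ‖) + 2 * Real.sqrt N * Real.log N := by
  classical
  have hω := om_wt hκ₀ h
  have hN₁0 : (0 : ℝ) < N₁ := by exact_mod_cast hN₁
  have hlogN : 0 < Real.log N := by
    have := Real.log_natCast_nonneg N₁
    linarith
  have hN1 : 1 ≤ N := by
    rcases Nat.eq_zero_or_pos N with h0 | h0
    · rw [h0] at hlogN
      simp at hlogN
    · exact h0
  have hN0 : (0 : ℝ) < N := by exact_mod_cast hN1
  set ω := om κ₀ N N₁ with hωdef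
  have e1 : PL (Ioo N₁ N) (cf ω f χ) ξ = ∑ n ∈ Icc 1 N, cf ω f χ n * ee (-(ξ * Real.log n)) := by
    unfold PL
    apply sum_subset
    · intro n hn
      rw [mem_Ioo] at hn
      rw [mem_Icc]
      omega
    · intro n hn hn'
      rw [mem_Icc] at hn
      rw [mem_Ioo] at hn'
      have : ω n = 0 := by
        rcases (by omega : n ≤ N₁ ∨ N ≤ n) with h1 | h1
        · exact hω.zero_le n h1
        · exact hω.zero_ge n h1
      unfold cf
      rw [this]
      simp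
  have e2 : ∑ n ∈ Icc 1 N, cf ω f χ n * ee (-(ξ * Real.log n)) =
      ((1 / κ₀ : ℝ) : ℂ) * (QS f χ N N ξ - QS f χ N (N * Real.exp (-κ₀)) ξ - QS f χ N (N₁ * Real.exp κ₀) ξ + QS f χ N N₁ ξ) -
      ∑ n ∈ range N, ((ArithmeticFunction.vonMangoldt n - nu n : ℝ) : ℂ) * (((ω n : ℝ) : ℂ) * χ (n : ZMod f) * ee (-(ξ * Real.log n))) := by
    have e3 : ∑ n ∈ range N, ((ArithmeticFunction.vonMangoldt n - nu n : ℝ) : ℂ) * (((ω n : ℝ) : ℂ) * χ (n : ZMod f) * ee (-(ξ * Real.log n))) =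
        ∑ n ∈ Icc 1 N, ((ArithmeticFunction.vonMangoldt n - nu n : ℝ) : ℂ) * (((ω n : ℝ) : ℂ) * χ (n : ZMod f) * ee (-(ξ * Real.log n))) := by
      have h1 : ∑ n ∈ range N, ((ArithmeticFunction.vonMangoldt n - nu n : ℝ) : ℂ) * (((ω n : ℝ) : ℂ) * χ (n : ZMod f) * ee (-(ξ * Real.log n))) =
          ∑ n ∈ Ioo N₁ N, ((ArithmeticFunction.vonMangoldt n - nu n : ℝ) : ℂ) * (((ω n : ℝ) : ℂ) * χ (n : ZMod f) * ee (-(ξ * Real.log n))) := by
        symm
        apply sum_subset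
        · intro n hn
          rw [mem_Ioo] at hn
          rw [mem_range]
          exact hn.2
        · intro n hn hn'
          rw [mem_range] at hn
          rw [mem_Ioo] at hn'
          rw [hω.zero_le n (by omega)]
          simp
      rw [h1]
      apply sum_subset
      · intro n hn
        rw [mem_Ioo] at hn
        rw [mem_Icc]
        omega
      · intro n hn hn'
        rw [mem_Icc] at hn
        rw [mem_Ioo] at hn'
        have : ω n = 0 := by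
          rcases (by omega : n ≤ N₁ ∨ N ≤ n) with h1 | h1
          · exact hω.zero_le n h1
          · exact hω.zero_ge n h1
        rw [this]
        simp
    rw [e3]
    unfold QS
    rw [← sum_sub_distrib, ← sum_sub_distrib, ← sum_add_distrib, mul_sum, ← sum_sub_distrib]
    refine sum_congr rfl fun n _ => ?_
    have l2 : Real.log (N * Real.exp (-κ₀)) = Real.log N - κ₀ := by
      rw [Real.log_mul hN0.ne' (Real.exp_pos _).ne', Real.log_exp]; ring
    have l3 : Real.log (N₁ * Real.exp κ₀) = Real.log N₁ + κ₀ := by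
      rw [Real.log_mul hN₁0.ne' (Real.exp_pos _).ne', Real.log_exp]
    rw [l2, l3]
    have h5 : ((ω n : ℝ) : ℂ) = ((1 / κ₀ : ℝ) : ℂ) * (((lp (Real.log N) (Real.log n) : ℝ) : ℂ) - ((lp (Real.log N - κ₀) (Real.log n) : ℝ) : ℂ) -
        ((lp (Real.log N₁ + κ₀) (Real.log n) : ℝ) : ℂ) + ((lp (Real.log N₁) (Real.log n) : ℝ) : ℂ)) := by
      rw [hωdef, om_eq hκ₀]
      push_cast
      ring
    unfold cf
    rw [h5]
    push_cast
    ring
  rw [e1, e2]
  refine (norm_sub_le _ _).trans (add_le_add ?_ ?_)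
  · rw [norm_mul, Complex.norm_real, Real.norm_of_nonneg (by positivity)]
    apply mul_le_mul_of_nonneg_left _ (by positivity)
    have h1 := norm_add_le (QS f χ N N ξ - QS f χ N (N * Real.exp (-κ₀)) ξ - QS f χ N (N₁ * Real.exp κ₀) ξ) (QS f χ N N₁ ξ)
    have h2 := norm_sub_le (QS f χ N N ξ - QS f χ N (N * Real.exp (-κ₀)) ξ) (QS f χ N (N₁ * Real.exp κ₀) ξ)
    have h3 := norm_sub_le (QS f χ N N ξ) (QS f χ N (N * Real.exp (-κ₀)) ξ)
    linarith
  · apply nu_vM_diff hN1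
    intro n
    rw [norm_mul, norm_mul, norm_ee, mul_one, Complex.norm_real, Real.norm_of_nonneg (hω.nonneg n)]
    exact mul_le_one₀ (hω.le_one n) (norm_nonneg _) (χ.norm_le_one _)

end Pool.Agent.J4H81.PT
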