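import Pool.Agent.J4H81.PT.EBa

/-!
# Growing prime tuples: the bound for the energy (helper81)
-/

set_option autoImplicit false

namespace Pool.Agent.J4H81.PT

open Finset MeasureTheory
open Pool.Agent.H807R2.Dav (ee norm_ee ee_add ee_zero ee_int ee_eq dd dd_le)
open Pool.Agent.H398R2.BV (Prim prim_ne_one card_prim_le)
open Pool.Agent.J4H81.PT.ZF (NoZ)

theorem weight_card (R : ℕ) : ∑ f ∈ Icc 1 R, (f : ℝ) / (Nat.totient f : ℝ) * ((Prim f).card : ℝ) ≤ (R : ℝ) ^ 2 := by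
  calc ∑ f ∈ Icc 1 R, (f : ℝ) / (Nat.totient f : ℝ) * ((Prim f).card : ℝ) ≤ ∑ f ∈ Icc 1 R, (R : ℝ) := by
        apply sum_le_sum
        intro f hf
        rw [mem_Icc] at hf
        have hφ : (0 : ℝ) < Nat.totient f := by exact_mod_cast Nat.totient_pos.2 hf.1
        have hfR : (f : ℝ) ≤ R := by exact_mod_cast hf.2
        have hc := card_prim_le hf.1
        rw [div_mul_eq_mul_div, div_le_iff₀ hφ]
        exact mul_le_mul hfR hc (Nat.cast_nonneg _) (Nat.cast_nonneg _)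
    _ = (R : ℝ) ^ 2 := by
        rw [sum_const, nsmul_eq_mul, Nat.card_Icc]
        simp
        ring

/-- the bound for the energy from a uniform bound `D₀` for the smoothed sums -/
theorem EE_bound {κ₀ : ℝ} (hκ₀ : 0 < κ₀) {N N₁ R U : ℕ} (hR : 1 ≤ R) (hN₁ : 1 ≤ N₁) (h : Real.log N₁ + κ₀ ≤ Real.log N)
    {T κ Δ D₀ : ℝ} (hT : 1 ≤ T) (hTN : T ≤ N) (hκ : 0 < κ) (hκ1 : κ ≤ 1) (hΔ : 0 ≤ Δ) (hU : 7 * T * (1 + (R : ℝ) ^ 2) ≤ U)
    (hD : ∀ f ∈ Icc 1 R, ∀ χ ∈ Prim f, ∀ ξ : ℝ, |ξ| ≤ T → ∀ x : ℝ, 1 ≤ x → x ≤ N → ‖QS f χ N x ξ‖ ≤ D₀) :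
    EE (om κ₀ N N₁) N R Δ ≤ 6 / N₁ * ((4 / κ₀ * D₀ + 2 * Real.sqrt N * (1 + Real.log N)) *
      (4 / κ₀ * (256 * (1 + Real.log N) ^ 4 * N + 200 * T ^ 2 * U ^ 2 * (R : ℝ) ^ 3 * (1 + Real.log N) ^ 3) + 4 * (R : ℝ) ^ 2 * T * Real.sqrt N * (1 + Real.log N))) +
      (R : ℝ) ^ 2 * (1200 * N / (N₁ * κ ^ 2 * T ^ 2) * (N * (1 + Real.log N) ^ 2) + 160 * Δ ^ 3 * (N * κ * (N * (1 + Real.log N))) ^ 2) := by
  classical
  have hω := om_wt hκ₀ h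
  have hN₁0 : (0 : ℝ) < N₁ := by exact_mod_cast hN₁
  have hN₁1 : (1 : ℝ) ≤ N₁ := by exact_mod_cast hN₁
  have hlogN : 0 ≤ Real.log N := Real.log_natCast_nonneg N
  have hN1 : (1 : ℝ) ≤ N := hT.trans hTN
  have hN0 : (0 : ℝ) < N := by linarith
  set Ln : ℝ := 1 + Real.log N with hLn
  have hLn1 : 1 ≤ Ln := by rw [hLn]; linarith
  have hlogle : Real.log N ≤ Ln := by rw [hLn]; linarith
  have hR1 : (1 : ℝ) ≤ R := by exact_mod_cast hR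
  have h11 : (1 : DirichletCharacter ℂ 1) ∈ Prim 1 := by
    unfold Prim
    rw [mem_filter]
    exact ⟨mem_univ _, DirichletCharacter.isPrimitive_one_level_one⟩
  have hD₀ : 0 ≤ D₀ := (norm_nonneg _).trans (hD 1 (mem_Icc.2 ⟨le_rfl, hR⟩) 1 h11 0 (by rw [abs_zero]; linarith) 1 le_rfl hN1)
  set x₂ : ℝ := N * Real.exp (-κ₀) with hx₂
  set x₃ : ℝ := N₁ * Real.exp κ₀ with hx₃
  have hlogN₁ : 0 ≤ Real.log N₁ := Real.log_natCast_nonneg N₁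
  have hx₂N : x₂ ≤ N := by
    rw [hx₂]
    have : Real.exp (-κ₀) ≤ 1 := Real.exp_le_one_iff.2 (by linarith)
    nlinarith
  have hx₂1 : 1 ≤ x₂ := by
    have e : x₂ = Real.exp (Real.log N - κ₀) := by rw [hx₂, sub_eq_add_neg, Real.exp_add, Real.exp_log hN0]
    rw [e]
    exact Real.one_le_exp (by linarith)
  have hx₃1 : 1 ≤ x₃ := by
    rw [hx₃]
    have : 1 ≤ Real.exp κ₀ := Real.one_le_exp hκ₀.le
    nlinarith
  have hx₃N : x₃ ≤ N := by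
    have e : x₃ = Real.exp (Real.log N₁ + κ₀) := by rw [hx₃, Real.exp_add, Real.exp_log hN₁0]
    rw [e, ← Real.exp_log hN0]
    exact Real.exp_le_exp.2 h
  have hx₄N : (N₁ : ℝ) ≤ N := by
    have h1 : (N₁ : ℝ) ≤ x₃ := by
      rw [hx₃]
      have : 1 ≤ Real.exp κ₀ := Real.one_le_exp hκ₀.le
      nlinarith
    linarith
  set 𝒟 : ℝ := 4 / κ₀ * D₀ + 2 * Real.sqrt N * Ln with h𝒟
  have hsq0 : 0 ≤ Real.sqrt N := Real.sqrt_nonneg _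
  have h𝒟0 : 0 ≤ 𝒟 := by positivity
  set V : ℝ := 256 * Ln ^ 4 * N + 200 * T ^ 2 * U ^ 2 * (R : ℝ) ^ 3 * Ln ^ 3 with hV
  set w : ℕ → ℝ := fun f => (f : ℝ) / (Nat.totient f : ℝ) with hw
  have hw0 : ∀ f, 0 ≤ w f := fun f => by positivity
  set c : (f : ℕ) → DirichletCharacter ℂ f → ℕ → ℂ := fun f χ => cf (om κ₀ N N₁) f χ with hc
  set S : Finset ℕ := Ioo N₁ N with hS
  set I : (f : ℕ) → DirichletCharacter ℂ f → ℝ := fun f χ => ∫ ξ in (-T)..T, ‖PL S (c f χ) ξ‖ ^ 2 with hI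
  -- mean squares of the polynomials
  have hlogT : Real.log (1 + T) ≤ 1 + Real.log N := by
    have h1 : Real.log (1 + T) ≤ Real.log (2 * N) := Real.log_le_log (by linarith) (by linarith)
    rw [Real.log_mul (by norm_num) hN0.ne'] at h1
    have := Real.log_two_lt_d9
    linarith
  have hV' : ∀ x : ℝ, 1 ≤ x → x ≤ N → ∑ f ∈ Icc 1 R, w f * ∑ χ ∈ Prim f, (∫ ξ in (-T)..T, ‖QS f χ N x ξ‖) ≤ V := by
    intro x hx hxN
    refine (vaughan_mean R N U hT hU hx (by linarith) hlogT).trans ?_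
    rw [hV]
    gcongr
  have hIle : ∀ f ∈ Icc 1 R, ∀ χ ∈ Prim f, I f χ ≤ 𝒟 * ((1 / κ₀) * ((∫ ξ in (-T)..T, ‖QS f χ N N ξ‖) + (∫ ξ in (-T)..T, ‖QS f χ N x₂ ξ‖) +
      (∫ ξ in (-T)..T, ‖QS f χ N x₃ ξ‖) + (∫ ξ in (-T)..T, ‖QS f χ N N₁ ξ‖)) + 4 * T * Real.sqrt N * Ln) := by
    intro f hf χ hχ
    have hii : ∀ x : ℝ, IntervalIntegrable (fun ξ => ‖QS f χ N x ξ‖) volume (-T) T := fun x => (QS_cont f χ N x).norm.intervalIntegrable _ _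
    have hpt : ∀ ξ ∈ Set.Icc (-T) T, ‖PL S (c f χ) ξ‖ ^ 2 ≤ 𝒟 * ((1 / κ₀) * (‖QS f χ N N ξ‖ + ‖QS f χ N x₂ ξ‖ + ‖QS f χ N x₃ ξ‖ + ‖QS f χ N N₁ ξ‖) +
        2 * Real.sqrt N * Ln) := by
      intro ξ hξ
      have hξT : |ξ| ≤ T := abs_le.2 hξ
      have h1 := PL_QS hκ₀ hN₁ h f χ ξ
      have a1 := hD f hf χ hχ ξ hξT N hN1 le_rfl
      have a2 := hD f hf χ hχ ξ hξT x₂ hx₂1 hx₂N
      have a3 := hD f hf χ hχ ξ hξT x₃ hx₃1 hx₃N
      have a4 := hD f hf χ hχ ξ hξT N₁ hN₁1 hx₄N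
      have h2 : ‖PL S (c f χ) ξ‖ ≤ (1 / κ₀) * (‖QS f χ N N ξ‖ + ‖QS f χ N x₂ ξ‖ + ‖QS f χ N x₃ ξ‖ + ‖QS f χ N N₁ ξ‖) + 2 * Real.sqrt N * Ln := by
        refine h1.trans ?_
        gcongr
      have h3 : ‖PL S (c f χ) ξ‖ ≤ 𝒟 := by
        refine h2.trans ?_
        rw [h𝒟]
        have h4 : (1 / κ₀) * (‖QS f χ N N ξ‖ + ‖QS f χ N x₂ ξ‖ + ‖QS f χ N x₃ ξ‖ + ‖QS f χ N N₁ ξ‖) ≤ (1 / κ₀) * (4 * D₀) := by
          apply mul_le_mul_of_nonneg_left _ (by positivity)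
          linarith
        have h5 : (1 / κ₀) * (4 * D₀) = 4 / κ₀ * D₀ := by ring
        linarith
      rw [sq]
      exact mul_le_mul h3 h2 (norm_nonneg _) h𝒟0
    calc I f χ ≤ ∫ ξ in (-T)..T, 𝒟 * ((1 / κ₀) * (‖QS f χ N N ξ‖ + ‖QS f χ N x₂ ξ‖ + ‖QS f χ N x₃ ξ‖ + ‖QS f χ N N₁ ξ‖) + 2 * Real.sqrt N * Ln) := by
          apply intervalIntegral.integral_mono_on (by linarith)
          · exact ((PL_cont S (c f χ)).norm.pow 2).intervalIntegrable _ _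
          · exact ((((((hii _).add (hii _)).add (hii _)).add (hii _)).const_mul _).add intervalIntegrable_const).const_mul _
          · exact hpt
      _ = _ := by
          rw [intervalIntegral.integral_const_mul, intervalIntegral.integral_add (((((hii _).add (hii _)).add (hii _)).add (hii _)).const_mul _) intervalIntegrable_const,
            intervalIntegral.integral_const_mul, intervalIntegral.integral_add (((hii _).add (hii _)).add (hii _)) (hii _),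
            intervalIntegral.integral_add ((hii _).add (hii _)) (hii _), intervalIntegral.integral_add (hii _) (hii _), intervalIntegral.integral_const,
            smul_eq_mul]
          ring
  have hItot : ∑ f ∈ Icc 1 R, w f * ∑ χ ∈ Prim f, I f χ ≤ 𝒟 * (4 / κ₀ * V + 4 * (R : ℝ) ^ 2 * T * Real.sqrt N * Ln) := by
    calc ∑ f ∈ Icc 1 R, w f * ∑ χ ∈ Prim f, I f χ ≤ ∑ f ∈ Icc 1 R, w f * ∑ χ ∈ Prim f, 𝒟 * ((1 / κ₀) * ((∫ ξ in (-T)..T, ‖QS f χ N N ξ‖) + (∫ ξ in (-T)..T, ‖QS f χ N x₂ ξ‖) +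
      (∫ ξ in (-T)..T, ‖QS f χ N x₃ ξ‖) + (∫ ξ in (-T)..T, ‖QS f χ N N₁ ξ‖)) + 4 * T * Real.sqrt N * Ln) := by
          apply sum_le_sum
          intro f hf
          exact mul_le_mul_of_nonneg_left (sum_le_sum (hIle f hf)) (hw0 f)
      _ = 𝒟 * ((1 / κ₀) * ((∑ f ∈ Icc 1 R, w f * ∑ χ ∈ Prim f, (∫ ξ in (-T)..T, ‖QS f χ N N ξ‖)) + (∑ f ∈ Icc 1 R, w f * ∑ χ ∈ Prim f, (∫ ξ in (-T)..T, ‖QS f χ N x₂ ξ‖)) +
          (∑ f ∈ Icc 1 R, w f * ∑ χ ∈ Prim f, (∫ ξ in (-T)..T, ‖QS f χ N x₃ ξ‖)) + (∑ f ∈ Icc 1 R, w f * ∑ χ ∈ Prim f, (∫ ξ in (-T)..T, ‖QS f χ N N₁ ξ‖))) +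
          (∑ f ∈ Icc 1 R, w f * ((Prim f).card : ℝ)) * (4 * T * Real.sqrt N * Ln)) := by
          rw [← sum_add_distrib, ← sum_add_distrib, ← sum_add_distrib, sum_mul, mul_sum, ← sum_add_distrib, mul_sum]
          refine sum_congr rfl fun f _ => ?_
          rw [← mul_sum, sum_add_distrib, ← mul_sum, sum_add_distrib, sum_add_distrib, sum_add_distrib, sum_const, nsmul_eq_mul]
          ring
      _ ≤ 𝒟 * ((1 / κ₀) * (V + V + V + V) + (R : ℝ) ^ 2 * (4 * T * Real.sqrt N * Ln)) := by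
          apply mul_le_mul_of_nonneg_left _ h𝒟0
          apply add_le_add
          · apply mul_le_mul_of_nonneg_left _ (by positivity)
            exact add_le_add (add_le_add (add_le_add (hV' _ hN1 le_rfl) (hV' _ hx₂1 hx₂N)) (hV' _ hx₃1 hx₃N)) (hV' _ hN₁1 hx₄N)
          · exact mul_le_mul_of_nonneg_right (weight_card R) (by positivity)
      _ = _ := by ring
  -- the sizes of the coefficients
  have hcard : (S.card : ℝ) ≤ N := by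
    rw [hS, Nat.card_Ioo]
    exact_mod_cast (by omega : N - N₁ - 1 ≤ N)
  have hs1 : ∀ (f : ℕ) (χ : DirichletCharacter ℂ f), ∑ n ∈ S, ‖c f χ n‖ ≤ N * Ln := by
    intro f χ
    calc ∑ n ∈ S, ‖c f χ n‖ ≤ ∑ n ∈ S, Ln := sum_le_sum fun n hn => cf_le hω f χ hn
      _ = S.card * Ln := by rw [sum_const, nsmul_eq_mul]
      _ ≤ N * Ln := mul_le_mul_of_nonneg_right hcard (by linarith)
  have hs2 : ∀ (f : ℕ) (χ : DirichletCharacter ℂ f), ∑ n ∈ S, ‖c f χ n‖ ^ 2 ≤ N * Ln ^ 2 := by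
    intro f χ
    calc ∑ n ∈ S, ‖c f χ n‖ ^ 2 ≤ ∑ n ∈ S, Ln ^ 2 := sum_le_sum fun n hn => pow_le_pow_left₀ (norm_nonneg _) (cf_le hω f χ hn) 2
      _ = S.card * Ln ^ 2 := by rw [sum_const, nsmul_eq_mul]
      _ ≤ N * Ln ^ 2 := mul_le_mul_of_nonneg_right hcard (by positivity)
  set E : ℝ := 1200 * N / (N₁ * κ ^ 2 * T ^ 2) * (N * Ln ^ 2) + 160 * Δ ^ 3 * (N * κ * (N * Ln)) ^ 2 with hE
  have hE0 : 0 ≤ E := by positivity
  have hone : ∀ (f : ℕ) (χ : DirichletCharacter ℂ f), (∫ β in (-Δ)..Δ, ‖DD (om κ₀ N N₁) N f χ β‖ ^ 2) ≤ 6 / N₁ * I f χ + E := by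
    intro f χ
    simp_rw [DD_cf hω]
    have h1 := add_energy S hN₁1 (fun n hn => by
      rw [hS, mem_Ioo] at hn
      exact ⟨by exact_mod_cast hn.1.le, by exact_mod_cast hn.2.le⟩) (c f χ) hκ hκ1 hT hTN hΔ
    refine h1.trans ?_
    rw [hE, ← add_assoc]
    have h2 := hs1 f χ
    have h3 := hs2 f χ
    have h4 : 0 ≤ ∑ n ∈ S, ‖c f χ n‖ := sum_nonneg fun _ _ => norm_nonneg _
    gcongr
  unfold EE
  calc ∑ f ∈ Icc 1 R, (f : ℝ) / (Nat.totient f : ℝ) * ∑ ψ ∈ Prim f, (∫ β in (-Δ)..Δ, ‖DD (om κ₀ N N₁) N f ψ β‖ ^ 2) ≤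
        ∑ f ∈ Icc 1 R, w f * ∑ ψ ∈ Prim f, (6 / N₁ * I f ψ + E) := by
        apply sum_le_sum
        intro f _
        exact mul_le_mul_of_nonneg_left (sum_le_sum fun ψ _ => hone f ψ) (hw0 f)
    _ = 6 / N₁ * (∑ f ∈ Icc 1 R, w f * ∑ χ ∈ Prim f, I f χ) + (∑ f ∈ Icc 1 R, w f * ((Prim f).card : ℝ)) * E := by
        rw [mul_sum, sum_mul, ← sum_add_distrib]
        refine sum_congr rfl fun f _ => ?_
        rw [sum_add_distrib, ← mul_sum, sum_const, nsmul_eq_mul]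
        ring
    _ ≤ 6 / N₁ * (𝒟 * (4 / κ₀ * V + 4 * (R : ℝ) ^ 2 * T * Real.sqrt N * Ln)) + (R : ℝ) ^ 2 * E := by
        apply add_le_add
        · exact mul_le_mul_of_nonneg_left hItot (by positivity)
        · exact mul_le_mul_of_nonneg_right (weight_card R) hE0

end Pool.Agent.J4H81.PT
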