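import Pool.Agent.J4H81.PT.EBb
import Pool.Agent.J4H81.PT.AS

/-!
# Growing prime tuples: the circle method in all classes (helper81)
-/

set_option autoImplicit false

namespace Pool.Agent.J4H81.PT

open Finset MeasureTheory
open Pool.Agent.H807R2.Dav (ee norm_ee ee_add ee_zero ee_int ee_eq dd dd_le)

open Classical in
/-- from the energy on the major arcs to almost all admissible sets -/
theorem core_step {k W y T Q N₁ P w U M₀ : ℕ} [NeZero W] (hWs : Squarefree W)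
    (hWw : ∀ p : ℕ, p.Prime → p ≤ w → p ∣ W) (hT : T = (y + 1) / W) (hT1 : 1 ≤ T) (hU : 0 < U) (hUT : U + 1 ≤ T) (hkw : k ≤ w) (hw : 2 ≤ w)
    (hQ : 1 ≤ Q) (hP : 1 ≤ P) (hP3 : P * P * P ≤ W * T) (hP2 : P * P ≤ N₁) {ω : ℕ → ℝ} (hω : Wt ω (W * T) N₁)
    {η m₀ Λ₂ Et : ℝ} (hη : 0 < η) (hη1 : 2 * η ≤ 1)
    (hm₀ : 3 * ((Nat.log 2 (W * T) + 1 : ℕ) * Bd (W * T) P) + 2 * Real.sqrt (W * T : ℕ) * Real.log (W * T : ℕ) +
      (((W * Q : ℕ) : ℝ) ^ 3 * 3 + 2 * ((W * T : ℕ) / Real.sqrt P)) ≤ m₀)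
    (hΛ : ∑ q ∈ Icc 1 Q, 1 / (Nat.totient q : ℝ) + 1 + 2 * Real.log (W * T : ℕ) ≤ Λ₂)
    (hωsum : ∀ r < W, (1 - η / 4) * T ≤ ∑ s ∈ range T, ω (r + W * s))
    (hQT : 100 * (Q : ℝ) ^ 4 ≤ η * T) (hwη : 8 / η + 1 ≤ w)
    (hsmall : k * (2 * η) + 2 * k / w ≤ 1) (hUB : (U + 1) * Real.log (W * T : ℕ) ≤ η * T)
    (hM₀ : 256 * m₀ ^ 2 * Λ₂ / (η ^ 2 * T) ≤ M₀)
    (hEt : ∫ θ in (0 : ℝ)..1, {θ : ℝ | W * θ ∈ MA P ((P : ℝ) / T)}.indicator (fun θ => ‖hat (cx (hh W Q ω)) (W * T) θ‖ ^ 2) θ ≤ Et) :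
    (1 - (k : ℝ) ^ 2 / T) * (((admissibleSets y k).filter (fun A => ¬ HasPrimes y A)).card : ℝ) ≤
      ((8 * k * η + 4 * k / w + (2 * Real.log (W * T : ℕ)) ^ k * (1 + 2 * k * M₀) / U) +
        k * (10 ^ 4 * Λ₂ * Et / (η ^ 3 * (W * T : ℕ))) + k / T) * ((admissibleSets y k).card : ℝ) := by
  have hWpos : 0 < W := Nat.pos_of_ne_zero (NeZero.ne W)
  have hW0 : (0 : ℝ) < W := by exact_mod_cast hWpos
  have hT0 : (0 : ℝ) < T := by exact_mod_cast hT1
  have hN0 : (0 : ℝ) < ((W * T : ℕ) : ℝ) := by exact_mod_cast Nat.mul_pos hWpos hT1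
  have hφ0 : (0 : ℝ) < Nat.totient W := by exact_mod_cast Nat.totient_pos.2 hWpos
  have hφW : (Nat.totient W : ℝ) ≤ W := by exact_mod_cast Nat.totient_le W
  have hlogN : 0 ≤ Real.log (W * T : ℕ) := Real.log_natCast_nonneg _
  have hS0 : 0 ≤ ∑ q ∈ Icc 1 Q, 1 / (Nat.totient q : ℝ) := sum_nonneg fun q _ => by positivity
  have hΛ1 : 1 ≤ Λ₂ := by linarith
  set E : ℝ := η ^ 3 * T / (10 ^ 4 * Λ₂) with hE
  have hE0 : 0 < E := by positivity
  set A : Set ℝ := MA P ((P : ℝ) / T) with hA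
  set en : ZMod W → ℝ := fun b => ∫ α in (0 : ℝ)..1, A.indicator (fun α => ‖hat (cx (fun s => FF W ω b.val s - gg W Q ω b.val s)) T α‖ ^ 2) α with hen
  set B : Finset (ZMod W) := univ.filter (fun b => IsUnit b ∧ E < en b) with hB
  -- the minor arcs in one class
  have hmin : ∀ r < W, ∀ α, α ∉ A → ‖hat (fun s => cx (hh W Q ω) (r + W * s)) T α‖ ≤ m₀ := by
    intro r hr α hα
    have hm0 : 0 ≤ m₀ := by
      refine le_trans ?_ hm₀
      have : 0 ≤ Bd (W * T) P := by unfold Bd; positivity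
      positivity
    apply class_point hWpos (cx (hh W Q ω)) α m₀ hm0 _ hr
    intro j _
    have h1 := minor (Q := Q) hWs hP hP3 hP2 hω (Nat.mul_pos hWpos hQ) (θ := (α + j) / W) (by
      intro q hq1 hqP a
      by_contra hcon
      push Not at hcon
      apply hα
      rw [← MA_per P ((P : ℝ) / T) α j]
      refine ⟨q, hq1, hqP, W * a, ?_⟩
      have h2 : α + j - ((W * a : ℤ) : ℝ) / q = W * ((α + j) / W - a / q) := by
        push_cast
        field_simp
      rw [h2, abs_mul, abs_of_pos hW0]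
      calc (W : ℝ) * |(α + j) / W - a / q| ≤ W * (P / (W * T : ℕ)) := mul_le_mul_of_nonneg_left hcon hW0.le
        _ = P / T := by
            push_cast
            field_simp)
    refine le_trans (le_of_eq ?_) (h1.trans hm₀)
    rfl
  have hcop : ∀ b : ZMod W, IsUnit b → b.val.Coprime W := by
    intro b hb
    have : IsUnit ((b.val : ℕ) : ZMod W) := by rwa [ZMod.natCast_zmod_val]
    exact (ZMod.isUnit_iff_coprime b.val W).1 this
  have hη1' : η ≤ 1 := by linarith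
  -- good classes
  have key : ∀ b : ZMod W, ∃ Ex : Finset ℕ, IsUnit b → b ∉ B → ((1 - η) * T ≤ ∑ s ∈ range T, FF W ω b.val s) ∧
      (∑ s ∈ range T, FF W ω b.val s ≤ 2 * T) ∧ (Ex.card : ℝ) ≤ 256 * m₀ ^ 2 * Λ₂ / (η ^ 2 * T) ∧
      ∀ D, 1 ≤ D → D < U → D ∉ Ex → ∑ s ∈ range T, FF W ω b.val s * FF W ω b.val (s + D) ≤ (1 + η) * T * PP w D := by
    intro b
    by_cases hb : IsUnit b ∧ b ∉ B
    · have henb : en b ≤ E := by
        by_contra hcon
        push Not at hcon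
        exact hb.2 (by rw [hB, mem_filter]; exact ⟨mem_univ _, hb.1, hcon⟩)
      obtain ⟨g1, g2, Ex, g3, g4⟩ := class_circle (U := U) hWs (hcop b hb.1) hT1 hQ hω hw hWw hη hη1' hP
        (hmin b.val (ZMod.val_lt b)) henb hΛ hE (hωsum b.val (ZMod.val_lt b)) hQT hwη
      exact ⟨Ex, fun _ _ => ⟨g1, g2, g3, g4⟩⟩
    · exact ⟨∅, fun h1 h2 => absurd ⟨h1, h2⟩ hb⟩
  choose Ex hEx using key
  -- the number of bad classes
  have hBcard : (B.card : ℝ) * E ≤ ((Nat.totient W : ℝ) / W) ^ 2 * Et := by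
    have h1 : (B.card : ℝ) * E ≤ ∑ b ∈ B, en b := by
      rw [← nsmul_eq_mul, ← sum_const]
      apply sum_le_sum
      intro b hb
      rw [hB, mem_filter] at hb
      exact hb.2.2.le
    have h2 : ∀ b ∈ B, en b = ((Nat.totient W : ℝ) / W) ^ 2 * ∫ α in (0 : ℝ)..1, A.indicator (fun α => ‖hat (fun s => cx (hh W Q ω) (b.val + W * s)) T α‖ ^ 2) α := by
      intro b hb
      rw [hB, mem_filter] at hb
      simp only [hen]
      rw [← intervalIntegral.integral_const_mul]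
      congr 1
      funext α
      have h3 : hat (cx (fun s => FF W ω b.val s - gg W Q ω b.val s)) T α = (((Nat.totient W : ℝ) / W : ℝ) : ℂ) * hat (fun s => cx (hh W Q ω) (b.val + W * s)) T α := by
        unfold hat cx
        rw [mul_sum]
        refine sum_congr rfl fun s _ => ?_
        beta_reduce
        rw [FF_sub hWs ω (hcop b hb.2.1)]
        push_cast
        ring
      by_cases hα : α ∈ A
      · rw [Set.indicator_of_mem hα, Set.indicator_of_mem hα, h3, norm_mul, Complex.norm_real, Real.norm_of_nonneg (by positivity), mul_pow]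
      · rw [Set.indicator_of_notMem hα, Set.indicator_of_notMem hα, mul_zero]
    rw [sum_congr rfl h2, ← mul_sum] at h1
    refine h1.trans (mul_le_mul_of_nonneg_left ?_ (by positivity))
    refine le_trans ?_ hEt
    have h4 := classes_int (T := T) hWpos (cx (hh W Q ω)) A (MA_meas P _) (MA_per P _)
    rw [← h4]
    have h5 : ∑ b ∈ B, (∫ α in (0 : ℝ)..1, A.indicator (fun α => ‖hat (fun s => cx (hh W Q ω) (b.val + W * s)) T α‖ ^ 2) α) =
        ∑ r ∈ B.image (fun b => b.val), ∫ α in (0 : ℝ)..1, A.indicator (fun α => ‖hat (fun s => cx (hh W Q ω) (r + W * s)) T α‖ ^ 2) α := by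
      rw [sum_image]
      intro a _ b _ hab
      exact ZMod.val_injective W hab
    rw [h5]
    apply sum_le_sum_of_subset_of_nonneg
    · intro r hr
      rw [mem_image] at hr
      obtain ⟨b, _, rfl⟩ := hr
      exact mem_range.2 (ZMod.val_lt b)
    · intro r _ _
      apply intervalIntegral.integral_nonneg zero_le_one
      intro α _
      apply Set.indicator_nonneg
      intro _ _
      positivity
  have hEt0 : 0 ≤ Et := by
    have h1 : 0 ≤ ((Nat.totient W : ℝ) / W) ^ 2 * Et := le_trans (by positivity) hBcard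
    exact nonneg_of_mul_nonneg_right h1 (by positivity)
  have hBφ : (B.card : ℝ) / Nat.totient W ≤ 10 ^ 4 * Λ₂ * Et / (η ^ 3 * (W * T : ℕ)) := by
    have h1 : (B.card : ℝ) ≤ ((Nat.totient W : ℝ) / W) ^ 2 * Et / E := by
      rw [le_div_iff₀ hE0]
      exact hBcard
    rw [div_le_iff₀ hφ0]
    refine h1.trans ?_
    have h2 : ((Nat.totient W : ℝ) / W) ^ 2 * Et / E = (Nat.totient W : ℝ) / W * (10 ^ 4 * Λ₂ * Et / (η ^ 3 * (W * T : ℕ)) * Nat.totient W) := by
      rw [hE]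
      push_cast
      field_simp
    rw [h2]
    have h3 : (Nat.totient W : ℝ) / W ≤ 1 := (div_le_one hW0).2 hφW
    have h4 : 0 ≤ 10 ^ 4 * Λ₂ * Et / (η ^ 3 * (W * T : ℕ)) * Nat.totient W := by positivity
    nlinarith
  have hass := assemble (M₀ := M₀) (fun p hp hpk => hWw p hp (hpk.trans hkw)) hT hT1 hU hUT hkw (by omega : 1 ≤ w)
    (fun b s => FF W ω b.val s) (fun b s => FF_nonneg hω _ _) (fun b s h => FF_prime h) (by
      intro b s hs
      have h1 : W * T ≤ W * s := Nat.mul_le_mul_left W hs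
      have : ω (b.val + W * s) = 0 := hω.zero_ge _ (by omega)
      show FF W ω b.val s = 0
      unfold FF
      rw [this]
      simp) (B₀ := Real.log (W * T : ℕ)) (η := η) (fun b s => FF_le hWpos hω _ _) hη.le hη1 hsmall hUB B (by
      intro b hb
      rw [hB, mem_filter] at hb
      exact hb.2.1) Ex (fun b hb hbB => (hEx b hb hbB).1) (fun b hb hbB => (hEx b hb hbB).2.1)
    (fun b hb hbB => (hEx b hb hbB).2.2.2) (by
      intro b hb hbB
      have h1 := ((hEx b hb hbB).2.2.1).trans hM₀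
      exact_mod_cast h1)
  refine hass.trans ?_
  apply mul_le_mul_of_nonneg_right _ (Nat.cast_nonneg _)
  have h6 : (k : ℝ) * B.card / Nat.totient W ≤ k * (10 ^ 4 * Λ₂ * Et / (η ^ 3 * (W * T : ℕ))) := by
    rw [mul_div_assoc]
    exact mul_le_mul_of_nonneg_left hBφ (Nat.cast_nonneg _)
  linarith

end Pool.Agent.J4H81.PT
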