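import Pool.Agent.J4H81.PT.FCa

/-!
# Growing prime tuples: the energy on the major arcs, numerically (helper81)
-/

set_option autoImplicit false

namespace Pool.Agent.J4H81.PT

open Finset MeasureTheory Filter
open Pool.Agent.H807R2.Dav (ee norm_ee ee_add ee_zero ee_int ee_eq dd dd_le)
open Pool.Agent.H398R2.BV (Prim prim_ne_one card_prim_le)
open Pool.Agent.J4H81.PT.ZF (NoZ)

theorem poly_exp {c : ℝ} (hc : 0 < c) (n : ℕ) (C : ℝ) : ∀ᶠ l : ℝ in atTop, C * l ^ n ≤ Real.exp (c * l) := by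
  have h := (isLittleO_pow_exp_pos_mul_atTop n hc).const_mul_left C
  have h2 := h.bound (show (0 : ℝ) < 1 by norm_num)
  filter_upwards [h2] with l hl
  rw [one_mul, Real.norm_of_nonneg (Real.exp_pos _).le] at hl
  exact (le_abs_self _).trans hl

theorem EE_nonneg (ω : ℕ → ℝ) (N R : ℕ) {Δ : ℝ} (hΔ : 0 ≤ Δ) : 0 ≤ EE ω N R Δ := by
  unfold EE
  apply sum_nonneg
  intro f _
  apply mul_nonneg (by positivity)
  apply sum_nonneg
  intro χ _
  exact intervalIntegral.integral_nonneg (by linarith) fun _ _ => by positivity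

/-- the energy on the major arcs at good scales -/
theorem energy_final {c₀ : ℝ} (hc₀ : 0 < c₀) (hc₀1 : c₀ ≤ 1) : ∃ (c C l₀ : ℝ) (K : ℕ), 0 < c ∧ c ≤ 1 ∧ 1 ≤ C ∧ 4 ≤ l₀ ∧ ∀ l : ℝ, l₀ ≤ l → NoZ c₀ l →
    ∀ (W T P N₁ : ℕ) (η : ℝ), Squarefree W → 0 < T → (W : ℝ) ≤ Real.exp (l / 700) → Real.exp (l / 50) / 2 ≤ P → (P : ℝ) ≤ Real.exp (l / 50) →
    1 / l ≤ η → η ≤ 1 → η * (W * T : ℕ) / 128 ≤ N₁ → (N₁ : ℝ) ≤ (W * T : ℕ) / 4 → Real.exp (100 * l) ≤ (W * T : ℕ) → Real.log (W * T : ℕ) ≤ l ^ 2 →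
    (∑ q ∈ Icc 1 (W * P), 1 / (Nat.totient q : ℝ) ≤ l ^ K) ∧
    ∫ θ in (0 : ℝ)..1, {θ : ℝ | W * θ ∈ MA P ((P : ℝ) / T)}.indicator (fun θ => ‖hat (cx (hh W (W * P) (om (η / 16) (W * T : ℕ) N₁))) (W * T) θ‖ ^ 2) θ ≤
      C * l ^ K * ((W * T : ℕ) * (Real.exp (-(c * Real.log (W * T : ℕ) / (2 * l))) + Real.exp (-(l / 10)))) := by
  obtain ⟨c, C₁, l₁, hc, hc1, hC₁, hl₁, hsup⟩ := QS_sup hc₀ hc₀1
  obtain ⟨k₀, hk₀⟩ := Pool.Agent.N728.SP.GDW.sum_phi
  set K₀ : ℕ := 2 ^ k₀ with hK₀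
  obtain ⟨l₂, hl₂⟩ := eventually_atTop.1 ((poly_exp (show (0 : ℝ) < 99 by norm_num) 6 360000).and
    ((poly_exp (show (0 : ℝ) < 49 by norm_num) 2 8)))
  refine ⟨c, 10 ^ 11 * C₁, max (max l₁ l₂) 100, K₀ + 15, hc, hc1, by linarith, by
    have := le_max_right (max l₁ l₂) (100 : ℝ)
    linarith, ?_⟩
  intro l hl hno W T P N₁ η hWs hT hW hP1 hP2 hη hη1 hN₁l hN₁u hN hNl
  have hl100 : 100 ≤ l := (le_max_right _ _).trans hl
  have hll₁ : l₁ ≤ l := (le_max_left _ _).trans ((le_max_left _ _).trans hl)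
  have hll₂ : l₂ ≤ l := (le_max_right _ _).trans ((le_max_left _ _).trans hl)
  obtain ⟨hp1, hp2⟩ := hl₂ l hll₂
  have hl0 : 0 < l := by linarith
  have hl1 : 1 ≤ l := by linarith
  set N : ℕ := W * T with hNdef
  have hWpos : 0 < W := Nat.pos_of_ne_zero hWs.ne_zero
  have hW1 : (1 : ℝ) ≤ W := by exact_mod_cast hWpos
  have hη0 : 0 < η := lt_of_lt_of_le (by positivity) hη
  have hNpos : (0 : ℝ) < N := lt_of_lt_of_le (Real.exp_pos _) hN
  have hN1 : (1 : ℝ) ≤ N := by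
    have : 1 ≤ Real.exp (100 * l) := Real.one_le_exp (by positivity)
    linarith
  -- exponentials
  have hexp : ∀ a b : ℝ, a ≤ b → Real.exp (a * l) ≤ Real.exp (b * l) := fun a b h => Real.exp_le_exp.2 (mul_le_mul_of_nonneg_right h hl0.le)
  have hPexp : (2 : ℝ) ≤ Real.exp (l / 50) := by
    have := Real.add_one_le_exp (l / 50)
    linarith
  have hP1' : (1 : ℝ) ≤ P := by linarith
  have hPpos : 0 < P := by
    have : (0 : ℝ) < P := by linarith
    exact_mod_cast this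
  have hP0 : (0 : ℝ) < P := by linarith
  set R : ℕ := W * P with hR
  have hRr : (R : ℝ) = W * P := by rw [hR]; push_cast; ring
  have hR1 : 1 ≤ R := Nat.mul_pos hWpos hPpos
  have hR1' : (1 : ℝ) ≤ R := by exact_mod_cast hR1
  have hRle : (R : ℝ) ≤ Real.exp (l / 40) := by
    rw [hRr]
    calc (W : ℝ) * P ≤ Real.exp (l / 700) * Real.exp (l / 50) := by gcongr
      _ = Real.exp (l / 700 + l / 50) := (Real.exp_add _ _).symm
      _ ≤ Real.exp (l / 40) := Real.exp_le_exp.2 (by linarith)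
  have hlogR : Real.log R ≤ l / 40 := by
    rw [← Real.log_exp (l / 40)]
    exact Real.log_le_log (by linarith) hRle
  -- the sum of reciprocals of totients
  have hS : ∑ q ∈ Icc 1 R, 1 / (Nat.totient q : ℝ) ≤ l ^ K₀ := by
    refine (hk₀ R).trans ?_
    apply pow_le_pow_left₀
    · have := Real.log_nonneg hR1'
      linarith
    · linarith
  refine ⟨hS.trans (pow_le_pow_right₀ hl1 (by omega)), ?_⟩
  -- parameters of the energy bound
  set T₁ : ℝ := (P : ℝ) ^ 10 with hT₁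
  have hT₁1 : 1 ≤ T₁ := one_le_pow₀ hP1'
  have hT₁le : T₁ ≤ Real.exp (l / 5) := by
    calc T₁ ≤ Real.exp (l / 50) ^ 10 := pow_le_pow_left₀ hP0.le hP2 10
      _ = Real.exp (l / 5) := by
          rw [← Real.exp_nat_mul]
          congr 1
          push_cast
          ring
  have hT₁N : T₁ ≤ N := hT₁le.trans ((Real.exp_le_exp.2 (by linarith)).trans hN)
  set κ : ℝ := 1 / (P : ℝ) ^ 6 with hκ
  have hκ0 : 0 < κ := by positivity
  have hκ1 : κ ≤ 1 := by
    rw [hκ, div_le_one (by positivity)]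
    exact one_le_pow₀ hP1'
  set Δ : ℝ := (P : ℝ) / (N : ℕ) with hΔ
  have hΔ0 : 0 ≤ Δ := by positivity
  set U : ℕ := ⌈7 * T₁ * (1 + (R : ℝ) ^ 2)⌉₊ with hU
  have hU1 : 7 * T₁ * (1 + (R : ℝ) ^ 2) ≤ U := Nat.le_ceil _
  have hU2 : (U : ℝ) ≤ 15 * (T₁ * (R : ℝ) ^ 2) := by
    have h1 : (U : ℝ) < 7 * T₁ * (1 + (R : ℝ) ^ 2) + 1 := Nat.ceil_lt_add_one (by positivity)
    have h2 : 1 ≤ (R : ℝ) ^ 2 := one_le_pow₀ hR1'
    nlinarith only [h1, h2, hT₁1, mul_nonneg (sub_nonneg.2 hT₁1) (sub_nonneg.2 h2)]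
  have hU3 : (U : ℝ) ≤ 15 * Real.exp (l / 4) := by
    refine hU2.trans ?_
    have h1 : T₁ * (R : ℝ) ^ 2 ≤ Real.exp (l / 5) * Real.exp (l / 40) ^ 2 := by gcongr
    have h2 : Real.exp (l / 5) * Real.exp (l / 40) ^ 2 = Real.exp (l / 4) := by
      rw [← Real.exp_nat_mul, ← Real.exp_add]
      congr 1
      push_cast
      ring
    linarith
  have hκ₀ : 0 < η / 16 := by positivity
  have hN₁pos : (0 : ℝ) < N₁ := lt_of_lt_of_le (by positivity) hN₁l
  have hN₁1 : 1 ≤ N₁ := by exact_mod_cast hN₁pos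
  have hlogs : Real.log N₁ + η / 16 ≤ Real.log N := by
    have h1 : Real.log N₁ ≤ Real.log (N / 4) := Real.log_le_log hN₁pos hN₁u
    rw [Real.log_div hNpos.ne' (by norm_num)] at h1
    have h2 : Real.log 4 = 2 * Real.log 2 := by
      rw [show (4 : ℝ) = 2 ^ 2 by norm_num, Real.log_pow]
      norm_num
    have := Real.log_two_gt_d9
    linarith
  have hω := om_wt hκ₀ hlogs
  set D₀ : ℝ := C₁ * l ^ 4 * (N * Real.exp (-(c * Real.log N / (2 * l)))) with hD₀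
  have hD : ∀ f ∈ Icc 1 R, ∀ χ ∈ Prim f, ∀ ξ : ℝ, |ξ| ≤ T₁ → ∀ x : ℝ, 1 ≤ x → x ≤ N → ‖QS f χ N x ξ‖ ≤ D₀ := by
    intro f hf χ hχ ξ hξ x hx hxN
    rw [mem_Icc] at hf
    apply hsup l hll₁ hno f hf.1 _ χ hχ ξ _ N x hx hxN hNl
    · have h1 : Real.log f ≤ Real.log R := Real.log_le_log (by exact_mod_cast hf.1) (by exact_mod_cast hf.2)
      linarith
    · rw [abs_mul, abs_of_pos (by positivity : 0 < 2 * Real.pi)]
      have h1 : 2 * Real.pi ≤ 7 := by have := Real.pi_lt_d2; linarith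
      have h2 : 2 * Real.pi * |ξ| ≤ 7 * Real.exp (l / 5) := mul_le_mul h1 (hξ.trans hT₁le) (abs_nonneg _) (by norm_num)
      refine h2.trans ?_
      have h3 : Real.exp l = Real.exp (l / 5) * Real.exp (4 * l / 5) := by rw [← Real.exp_add]; congr 1; ring
      have h4 : 28 ≤ Real.exp (4 * l / 5) := by
        have := Real.add_one_le_exp (4 * l / 5)
        linarith
      rw [h3]
      have := Real.exp_pos (l / 5)
      nlinarith only [h4, this]
  have hEE := EE_bound hκ₀ hR1 hN₁1 hlogs hT₁1 hT₁N hκ0 hκ1 hΔ0 hU1 hD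
  -- names
  set e₂ : ℝ := Real.exp (-(c * Real.log N / (2 * l))) with he₂
  set e₁ : ℝ := Real.exp (-(l / 10)) with he₁
  have he₂0 : 0 < e₂ := Real.exp_pos _
  have he₁0 : 0 < e₁ := Real.exp_pos _
  set Ln : ℝ := 1 + Real.log N with hLn
  have hlogN : 0 ≤ Real.log N := Real.log_nonneg hN1
  have hLn0 : 0 ≤ Ln := by linarith
  have hLn2 : Ln ≤ 2 * l ^ 2 := by
    have : 1 ≤ l ^ 2 := one_le_pow₀ hl1
    linarith
  have hsqrt : Real.sqrt N ≤ N * Real.exp (-(50 * l)) := by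
    have h1 : Real.exp (50 * l) ≤ Real.sqrt N := by
      apply Real.le_sqrt_of_sq_le
      rw [← Real.exp_nat_mul]
      refine le_trans (Real.exp_le_exp.2 ?_) hN
      push_cast
      linarith
    have h2 : Real.sqrt N * Real.sqrt N = N := Real.mul_self_sqrt hNpos.le
    have h3 : Real.exp (50 * l) * Real.exp (-(50 * l)) = 1 := by rw [← Real.exp_add, add_neg_cancel, Real.exp_zero]
    have h4 := Real.sqrt_nonneg (N : ℝ)
    have h5 := Real.exp_pos (-(50 * l))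
    calc Real.sqrt N = Real.sqrt N * (Real.exp (50 * l) * Real.exp (-(50 * l))) := by rw [h3, mul_one]
      _ ≤ Real.sqrt N * (Real.sqrt N * Real.exp (-(50 * l))) := by gcongr
      _ = N * Real.exp (-(50 * l)) := by rw [← mul_assoc, h2]
  have hsqrt0 := Real.sqrt_nonneg (N : ℝ)
  have hκ₀' : 4 / (η / 16) ≤ 64 * l := by
    have h1 : 4 / (η / 16) = 64 * (1 / η) := by field_simp; norm_num
    rw [h1]
    apply mul_le_mul_of_nonneg_left _ (by norm_num)
    rw [div_le_iff₀ hη0]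
    rw [div_le_iff₀ hl0] at hη
    linarith
  have h50 : Real.exp (-(50 * l)) ≤ e₁ := Real.exp_le_exp.2 (by linarith)
  -- the first factor
  have hA : 4 / (η / 16) * D₀ + 2 * Real.sqrt N * Ln ≤ 64 * C₁ * l ^ 5 * (N * (e₂ + e₁)) := by
    have h1 : 4 / (η / 16) * D₀ ≤ 64 * l * D₀ := mul_le_mul_of_nonneg_right hκ₀' (by positivity)
    have h2 : 2 * Real.sqrt N * Ln ≤ 2 * (N * e₁) * (2 * l ^ 2) := by
      have : Real.sqrt N ≤ N * e₁ := hsqrt.trans (mul_le_mul_of_nonneg_left h50 hNpos.le)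
      gcongr
    have h3 : 2 * (N * e₁) * (2 * l ^ 2) ≤ 64 * C₁ * l ^ 5 * (N * e₁) := by
      have h4 : l ^ 2 ≤ l ^ 5 := pow_le_pow_right₀ hl1 (by norm_num)
      have h5 : 0 ≤ N * e₁ := by positivity
      calc 2 * (N * e₁) * (2 * l ^ 2) = 4 * l ^ 2 * (N * e₁) := by ring
        _ ≤ 64 * C₁ * l ^ 5 * (N * e₁) := by
            apply mul_le_mul_of_nonneg_right _ h5
            calc 4 * l ^ 2 ≤ 64 * 1 * l ^ 5 := by linarith [pow_nonneg hl0.le 5]
              _ ≤ 64 * C₁ * l ^ 5 := by gcongr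
    calc 4 / (η / 16) * D₀ + 2 * Real.sqrt N * Ln ≤ 64 * l * D₀ + 64 * C₁ * l ^ 5 * (N * e₁) := by linarith
      _ = _ := by rw [hD₀]; ring
  -- the second factor
  have hB : 4 / (η / 16) * (256 * Ln ^ 4 * N + 200 * T₁ ^ 2 * U ^ 2 * (R : ℝ) ^ 3 * Ln ^ 3) + 4 * (R : ℝ) ^ 2 * T₁ * Real.sqrt N * Ln ≤ 300000 * l ^ 9 * N := by
    have h1 : 256 * Ln ^ 4 * N ≤ 4096 * l ^ 8 * N := by
      calc 256 * Ln ^ 4 * N ≤ 256 * (2 * l ^ 2) ^ 4 * N := by gcongr
        _ = _ := by ring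
    have h2 : 200 * T₁ ^ 2 * U ^ 2 * (R : ℝ) ^ 3 * Ln ^ 3 ≤ N := by
      calc 200 * T₁ ^ 2 * U ^ 2 * (R : ℝ) ^ 3 * Ln ^ 3 ≤ 200 * Real.exp (l / 5) ^ 2 * (15 * Real.exp (l / 4)) ^ 2 * Real.exp (l / 40) ^ 3 * (2 * l ^ 2) ^ 3 := by gcongr
        _ = 360000 * l ^ 6 * (Real.exp (l / 5) ^ 2 * Real.exp (l / 4) ^ 2 * Real.exp (l / 40) ^ 3) := by ring
        _ ≤ Real.exp (99 * l) * Real.exp (1 * l) := by
            apply mul_le_mul hp1 _ (by positivity) (Real.exp_pos _).le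
            rw [← Real.exp_nat_mul, ← Real.exp_nat_mul, ← Real.exp_nat_mul, ← Real.exp_add, ← Real.exp_add]
            apply Real.exp_le_exp.2
            push_cast
            linarith
        _ = Real.exp (100 * l) := by rw [← Real.exp_add]; congr 1; ring
        _ ≤ N := hN
    have h3 : 4 * (R : ℝ) ^ 2 * T₁ * Real.sqrt N * Ln ≤ N := by
      calc 4 * (R : ℝ) ^ 2 * T₁ * Real.sqrt N * Ln ≤ 4 * Real.exp (l / 40) ^ 2 * Real.exp (l / 5) * (N * Real.exp (-(50 * l))) * (2 * l ^ 2) := by gcongr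
        _ = (8 * l ^ 2) * (Real.exp (l / 40) ^ 2 * Real.exp (l / 5) * Real.exp (-(50 * l))) * N := by ring
        _ ≤ Real.exp (49 * l) * (Real.exp (l / 40) ^ 2 * Real.exp (l / 5) * Real.exp (-(50 * l))) * N := by gcongr
        _ ≤ 1 * N := by
            apply mul_le_mul_of_nonneg_right _ hNpos.le
            rw [← Real.exp_nat_mul, ← Real.exp_add, ← Real.exp_add, ← Real.exp_add]
            apply Real.exp_le_one_iff.2
            push_cast
            linarith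
        _ = N := one_mul _
    have h4 : 0 ≤ 256 * Ln ^ 4 * N + 200 * T₁ ^ 2 * U ^ 2 * (R : ℝ) ^ 3 * Ln ^ 3 := by positivity
    have h8 : (1 : ℝ) ≤ l ^ 8 := one_le_pow₀ hl1
    have h9 : (1 : ℝ) ≤ l ^ 9 := one_le_pow₀ hl1
    calc _ ≤ 64 * l * (4096 * l ^ 8 * N + N) + N := by
          apply add_le_add _ h3
          exact mul_le_mul hκ₀' (add_le_add h1 h2) h4 (by positivity)
      _ = 262144 * (l ^ 9 * N) + 64 * (l * 1 * N) + 1 * N := by ring
      _ ≤ 262144 * (l ^ 9 * N) + 64 * (l * l ^ 8 * N) + l ^ 9 * N := by gcongr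
      _ = 262209 * (l ^ 9 * N) := by ring
      _ ≤ 300000 * (l ^ 9 * N) := by
          apply mul_le_mul_of_nonneg_right (by norm_num) (by positivity)
      _ = _ := by ring
  -- the first part
  have hN₁' : 6 / (N₁ : ℝ) ≤ 768 * l / N := by
    rw [div_le_div_iff₀ hN₁pos hNpos]
    have h1 : (N : ℝ) / 128 / l ≤ N₁ := by
      refine le_trans ?_ hN₁l
      calc (N : ℝ) / 128 / l = (1 / l) * N / 128 := by ring
        _ ≤ η * N / 128 := by gcongr
    rw [div_le_iff₀ hl0] at h1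
    linarith
  have hpart1 : 6 / (N₁ : ℝ) * ((4 / (η / 16) * D₀ + 2 * Real.sqrt N * Ln) *
      (4 / (η / 16) * (256 * Ln ^ 4 * N + 200 * T₁ ^ 2 * U ^ 2 * (R : ℝ) ^ 3 * Ln ^ 3) + 4 * (R : ℝ) ^ 2 * T₁ * Real.sqrt N * Ln)) ≤
      15 * 10 ^ 9 * C₁ * l ^ 15 * (N * (e₂ + e₁)) := by
    have hA0 : 0 ≤ 4 / (η / 16) * D₀ + 2 * Real.sqrt N * Ln := by positivity
    have hB0 : 0 ≤ 4 / (η / 16) * (256 * Ln ^ 4 * N + 200 * T₁ ^ 2 * U ^ 2 * (R : ℝ) ^ 3 * Ln ^ 3) + 4 * (R : ℝ) ^ 2 * T₁ * Real.sqrt N * Ln := by positivity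
    calc _ ≤ 768 * l / N * ((64 * C₁ * l ^ 5 * (N * (e₂ + e₁))) * (300000 * l ^ 9 * N)) := by
          apply mul_le_mul hN₁' _ (by positivity) (by positivity)
          exact mul_le_mul hA hB hB0 (by positivity)
      _ = 14745600000 * C₁ * l ^ 15 * (N * (e₂ + e₁)) := by
          field_simp
          ring
      _ ≤ _ := by
          have : 0 ≤ C₁ * l ^ 15 * (N * (e₂ + e₁)) := by positivity
          linarith only [this]
  -- the second part
  have hWP : (R : ℝ) ^ 2 ≤ (P : ℝ) ^ 3 := by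
    rw [hRr]
    have h1 : (W : ℝ) ^ 2 ≤ P := by
      calc (W : ℝ) ^ 2 ≤ Real.exp (l / 700) ^ 2 := by gcongr
        _ = Real.exp (l / 350) := by rw [← Real.exp_nat_mul]; congr 1; push_cast; ring
        _ ≤ Real.exp (l / 50) / 2 := by
            have h2 : Real.exp (l / 50) = Real.exp (l / 350) * Real.exp (6 * l / 350) := by rw [← Real.exp_add]; congr 1; ring
            have h3 : 2 ≤ Real.exp (6 * l / 350) := by
              have := Real.add_one_le_exp (6 * l / 350)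
              linarith
            rw [h2]
            have := Real.exp_pos (l / 350)
            nlinarith only [h3, this]
        _ ≤ P := hP1
    calc ((W : ℝ) * (P : ℝ)) ^ 2 = (W : ℝ) ^ 2 * (P : ℝ) ^ 2 := by ring
      _ ≤ (P : ℝ) * (P : ℝ) ^ 2 := mul_le_mul_of_nonneg_right h1 (by positivity)
      _ = _ := by ring
  have hP5 : 1 / (P : ℝ) ^ 5 ≤ 32 * e₁ := by
    have h1 : (Real.exp (l / 50) / 2) ^ 5 ≤ (P : ℝ) ^ 5 := by gcongr
    have h2 : (Real.exp (l / 50) / 2) ^ 5 = Real.exp (l / 10) / 32 := by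
      rw [div_pow, ← Real.exp_nat_mul]
      congr 2
      · push_cast; ring
      · norm_num
    rw [h2] at h1
    rw [div_le_iff₀ (by positivity)]
    have h3 : e₁ * Real.exp (l / 10) = 1 := by rw [he₁, ← Real.exp_add]; simp
    nlinarith only [h1, h3, he₁0, mul_le_mul_of_nonneg_left h1 he₁0.le]
  have hpart2 : (R : ℝ) ^ 2 * (1200 * N / (N₁ * κ ^ 2 * T₁ ^ 2) * (N * Ln ^ 2) + 160 * Δ ^ 3 * (N * κ * (N * Ln)) ^ 2) ≤ 2 * 10 ^ 7 * l ^ 5 * (N * e₁) := by
    have h1 : 1200 * (N : ℝ) / (N₁ * κ ^ 2 * T₁ ^ 2) ≤ 153600 * l / (P : ℝ) ^ 8 := by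
      have h2 : 1200 * (N : ℝ) / (N₁ * κ ^ 2 * T₁ ^ 2) = 200 * (6 / N₁) * N / (P : ℝ) ^ 8 := by
        rw [hκ, hT₁]
        field_simp
        norm_num
      rw [h2]
      apply div_le_div_of_nonneg_right _ (by positivity)
      calc 200 * (6 / (N₁ : ℝ)) * N ≤ 200 * (768 * l / N) * N := by gcongr
        _ = 153600 * l := by field_simp; ring
    have h3 : 160 * Δ ^ 3 * (N * κ * (N * Ln)) ^ 2 = 160 * N * Ln ^ 2 / (P : ℝ) ^ 9 := by
      rw [hΔ, hκ]
      field_simp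
    rw [h3]
    have hl5 : l ^ 4 ≤ l ^ 5 := pow_le_pow_right₀ hl1 (by norm_num)
    calc (R : ℝ) ^ 2 * (1200 * N / (N₁ * κ ^ 2 * T₁ ^ 2) * (N * Ln ^ 2) + 160 * N * Ln ^ 2 / (P : ℝ) ^ 9) ≤
          (P : ℝ) ^ 3 * (153600 * l / (P : ℝ) ^ 8 * (N * (2 * l ^ 2) ^ 2) + 160 * N * (2 * l ^ 2) ^ 2 / (P : ℝ) ^ 9) := by gcongr
      _ = 614400 * l ^ 5 * N * (1 / (P : ℝ) ^ 5) + 640 * l ^ 4 * N * (1 / (P : ℝ) ^ 6) := by
          field_simp
          ring
      _ ≤ 614400 * l ^ 5 * N * (1 / (P : ℝ) ^ 5) + 640 * l ^ 5 * N * (1 / (P : ℝ) ^ 5) := by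
          have h6 : 1 / (P : ℝ) ^ 6 ≤ 1 / (P : ℝ) ^ 5 := one_div_le_one_div_of_le (by positivity) (pow_le_pow_right₀ hP1' (by norm_num))
          gcongr
      _ = 615040 * l ^ 5 * N * (1 / (P : ℝ) ^ 5) := by ring
      _ ≤ 615040 * l ^ 5 * N * (32 * e₁) := by gcongr
      _ ≤ _ := by
          have : 0 ≤ l ^ 5 * (N * e₁) := by positivity
          linarith only [this]
  have hEE' : EE (om (η / 16) N N₁) N R Δ ≤ 16 * 10 ^ 9 * C₁ * l ^ 15 * (N * (e₂ + e₁)) := by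
    refine hEE.trans ?_
    have h1 : 2 * 10 ^ 7 * l ^ 5 * (N * e₁) ≤ 10 ^ 9 * C₁ * l ^ 15 * (N * (e₂ + e₁)) := by
      have h2 : l ^ 5 ≤ l ^ 15 := pow_le_pow_right₀ hl1 (by norm_num)
      have h3 : N * e₁ ≤ N * (e₂ + e₁) := by
        apply mul_le_mul_of_nonneg_left _ hNpos.le
        linarith
      calc 2 * 10 ^ 7 * l ^ 5 * (N * e₁) ≤ 10 ^ 9 * 1 * l ^ 15 * (N * (e₂ + e₁)) := by
            have h5 : (2 : ℝ) * 10 ^ 7 ≤ 10 ^ 9 * 1 := by norm_num
            gcongr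
        _ ≤ _ := by gcongr
    linarith
  -- the major arcs
  have hPN : (P : ℝ) * Real.exp (l) ≤ N := by
    calc (P : ℝ) * Real.exp l ≤ Real.exp (l / 50) * Real.exp l := by gcongr
      _ = Real.exp (l / 50 + l) := (Real.exp_add _ _).symm
      _ ≤ Real.exp (100 * l) := Real.exp_le_exp.2 (by linarith)
      _ ≤ N := hN
  have hWQ : ((W * R : ℕ) : ℝ) ≤ Real.exp (l / 30) := by
    push_cast
    calc (W : ℝ) * R ≤ Real.exp (l / 700) * Real.exp (l / 40) := by gcongr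
      _ = Real.exp (l / 700 + l / 40) := (Real.exp_add _ _).symm
      _ ≤ _ := Real.exp_le_exp.2 (by linarith)
  have hWR0 : (0 : ℝ) < ((W * R : ℕ) : ℝ) := by exact_mod_cast Nat.mul_pos hWpos hR1
  have hmaj := energy_major (W := W) (Q := R) (T := T) (P := P) (N₁ := N₁) hWs hT hω le_rfl (by
      have h1 : (R : ℝ) ≤ N₁ := by
        refine hRle.trans (le_trans ?_ hN₁l)
        have h2 : (1 / l) * Real.exp (100 * l) / 128 ≤ η * N / 128 := by gcongr
        refine le_trans ?_ h2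
        rw [le_div_iff₀ (by norm_num), one_div_mul_eq_div, le_div_iff₀ hl0]
        have h3 : Real.exp (100 * l) = Real.exp (l / 40) * Real.exp (100 * l - l / 40) := by rw [← Real.exp_add]; congr 1; ring
        rw [h3, mul_assoc]
        apply mul_le_mul_of_nonneg_left _ (Real.exp_pos _).le
        have h4 : Real.exp (2 * l) ≤ Real.exp (100 * l - l / 40) := Real.exp_le_exp.2 (by linarith)
        refine le_trans ?_ h4
        have h5 := Real.add_one_le_exp l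
        have h6 : Real.exp (2 * l) = Real.exp l * Real.exp l := by rw [← Real.exp_add]; congr 1; ring
        have h7 : 128 ≤ Real.exp l := by
          have h100 : (128 : ℝ) ≤ Real.exp 100 := by
            have ha : Real.exp 100 = Real.exp 50 * Real.exp 50 := by rw [← Real.exp_add]; norm_num
            have hb := Real.add_one_le_exp (50 : ℝ)
            nlinarith only [ha, hb]
          have h8 : Real.exp 100 ≤ Real.exp l := Real.exp_le_exp.2 hl100
          have h9 := Real.add_one_le_exp (100 : ℝ)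
          have h10 : Real.exp 100 = Real.exp 50 * Real.exp 50 := by rw [← Real.exp_add]; norm_num
          linarith only [h8, h9, show (0:ℝ) ≤ 1 by norm_num, h10, h100]
        rw [h6]
        nlinarith only [h5, h7, hl0]
      exact_mod_cast h1) (by
      rw [← hΔ, hΔ, le_div_iff₀ (by positivity)]
      have h1 : 2 * Real.pi * (P / (N : ℕ)) * ((W * R : ℕ) : ℝ) ^ 2 ≤ 7 * (P / (N : ℕ)) * Real.exp (l / 30) ^ 2 := by
        have h2 : 2 * Real.pi ≤ 7 := by have := Real.pi_lt_d2; linarith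
        gcongr
      refine h1.trans ?_
      have h3 : 7 * (P / (N : ℕ)) * Real.exp (l / 30) ^ 2 = 7 * Real.exp (l / 30) ^ 2 * P / (N : ℕ) := by ring
      rw [h3, div_le_iff₀ hNpos]
      have h4 : Real.exp (l / 30) ^ 2 * 4 ≤ Real.exp l := by
        rw [← Real.exp_nat_mul]
        have h5 : Real.exp l = Real.exp ((2 : ℕ) * (l / 30)) * Real.exp (14 * l / 15) := by
          rw [← Real.exp_add]; congr 1; push_cast; ring
        rw [h5]
        have h6 : 4 ≤ Real.exp (14 * l / 15) := by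
          have := Real.add_one_le_exp (14 * l / 15)
          linarith
        exact mul_le_mul_of_nonneg_left h6 (Real.exp_pos _).le
      have h7 : P * (Real.exp (l / 30) ^ 2 * 4) ≤ P * Real.exp l := mul_le_mul_of_nonneg_left h4 hP0.le
      have h8 : 0 ≤ (P : ℝ) * Real.exp (l / 30) ^ 2 := by positivity
      linarith only [h7, h8, hPN]) (by
      rw [div_mul_eq_mul_div, div_lt_one hNpos]
      have h1 : (P : ℝ) * (R : ℕ) ≤ P * Real.exp (l / 40) := mul_le_mul_of_nonneg_left hRle hP0.le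
      have h2 : Real.exp (l / 40) < Real.exp l := Real.exp_lt_exp.2 (by linarith)
      have h3 : (P : ℝ) * Real.exp (l / 40) < P * Real.exp l := mul_lt_mul_of_pos_left h2 hP0
      linarith)
  refine hmaj.trans ?_
  have h1 : 4 * (∑ q ∈ Icc 1 R, 1 / (Nat.totient q : ℝ)) * EE (om (η / 16) N N₁) N R Δ ≤ 4 * l ^ K₀ * (16 * 10 ^ 9 * C₁ * l ^ 15 * (N * (e₂ + e₁))) := by
    have h2 := EE_nonneg (om (η / 16) N N₁) N R hΔ0
    have h3 : 0 ≤ ∑ q ∈ Icc 1 R, 1 / (Nat.totient q : ℝ) := sum_nonneg fun q _ => by positivity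
    gcongr
  have h2 : 72 * ((R : ℕ) : ℝ) ^ 2 * ((W * R : ℕ) : ℝ) ^ 6 * Δ ≤ l ^ K₀ * (C₁ * l ^ 15 * (N * (e₂ + e₁))) := by
    have h3 : 72 * ((R : ℕ) : ℝ) ^ 2 * ((W * R : ℕ) : ℝ) ^ 6 * Δ ≤ 72 * (Real.exp (l / 40) ^ 2 * Real.exp (l / 30) ^ 6) * Δ := by
      calc 72 * ((R : ℕ) : ℝ) ^ 2 * ((W * R : ℕ) : ℝ) ^ 6 * Δ ≤ 72 * Real.exp (l / 40) ^ 2 * Real.exp (l / 30) ^ 6 * Δ := by gcongr
        _ = _ := by ring
    have h4 : Real.exp (l / 40) ^ 2 * Real.exp (l / 30) ^ 6 * P ≤ Real.exp l := by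
      calc Real.exp (l / 40) ^ 2 * Real.exp (l / 30) ^ 6 * P ≤ Real.exp (l / 40) ^ 2 * Real.exp (l / 30) ^ 6 * Real.exp (l / 50) := by gcongr
        _ ≤ Real.exp l := by
            rw [← Real.exp_nat_mul, ← Real.exp_nat_mul, ← Real.exp_add, ← Real.exp_add]
            apply Real.exp_le_exp.2
            push_cast
            linarith
    have h5 : 72 * (Real.exp (l / 40) ^ 2 * Real.exp (l / 30) ^ 6) * Δ ≤ N * e₁ := by
      have h6 : 72 * (Real.exp (l / 40) ^ 2 * Real.exp (l / 30) ^ 6) * Δ = 72 * (Real.exp (l / 40) ^ 2 * Real.exp (l / 30) ^ 6 * P) / N := by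
        rw [hΔ]; ring
      rw [h6, div_le_iff₀ hNpos]
      have h7 : Real.exp (99 * l) ≤ N * e₁ := by
        have h8 : Real.exp (99 * l) ≤ Real.exp (100 * l) * e₁ := by
          rw [he₁, ← Real.exp_add]
          exact Real.exp_le_exp.2 (by linarith)
        exact h8.trans (mul_le_mul_of_nonneg_right hN he₁0.le)
      have h9 : 72 * Real.exp l ≤ Real.exp (99 * l) * N := by
        have h10 : Real.exp (99 * l) = Real.exp l * Real.exp (98 * l) := by rw [← Real.exp_add]; congr 1; ring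
        have h11 : 72 ≤ Real.exp (98 * l) := by
          have := Real.add_one_le_exp (98 * l)
          linarith
        have h12 : Real.exp l * 72 ≤ Real.exp l * Real.exp (98 * l) := mul_le_mul_of_nonneg_left h11 (Real.exp_pos _).le
        have h13 : 0 < Real.exp (99 * l) := Real.exp_pos _
        have h14 : Real.exp (99 * l) * 1 ≤ Real.exp (99 * l) * N := mul_le_mul_of_nonneg_left hN1 h13.le
        linarith only [h10, h12, h14]
      calc 72 * (Real.exp (l / 40) ^ 2 * Real.exp (l / 30) ^ 6 * P) ≤ 72 * Real.exp l := by gcongr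
        _ ≤ Real.exp (99 * l) * N := h9
        _ ≤ N * e₁ * N := mul_le_mul_of_nonneg_right h7 hNpos.le
    refine h3.trans (h5.trans ?_)
    have h8 : (1 : ℝ) ≤ l ^ K₀ := one_le_pow₀ hl1
    have h9 : (1 : ℝ) ≤ C₁ * l ^ 15 := by
      have : (1 : ℝ) ≤ l ^ 15 := one_le_pow₀ hl1
      nlinarith only [this, hC₁]
    have h10 : N * e₁ ≤ N * (e₂ + e₁) := by
      apply mul_le_mul_of_nonneg_left _ hNpos.le
      linarith
    have h11 : 0 ≤ N * (e₂ + e₁) := by positivity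
    calc N * e₁ ≤ 1 * (1 * (N * (e₂ + e₁))) := by linarith
      _ ≤ l ^ K₀ * (C₁ * l ^ 15 * (N * (e₂ + e₁))) := by gcongr
  have h3 : 0 ≤ l ^ K₀ * (C₁ * l ^ 15 * (N * (e₂ + e₁))) := by positivity
  calc _ ≤ 4 * l ^ K₀ * (16 * 10 ^ 9 * C₁ * l ^ 15 * (N * (e₂ + e₁))) + l ^ K₀ * (C₁ * l ^ 15 * (N * (e₂ + e₁))) := add_le_add h1 h2
    _ = (64 * 10 ^ 9 + 1) * (l ^ K₀ * (C₁ * l ^ 15 * (N * (e₂ + e₁)))) := by ring
    _ ≤ 10 ^ 11 * (l ^ K₀ * (C₁ * l ^ 15 * (N * (e₂ + e₁)))) := mul_le_mul_of_nonneg_right (by norm_num) h3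
    _ = 10 ^ 11 * C₁ * l ^ (K₀ + 15) * (N * (e₂ + e₁)) := by rw [pow_add]; ring

end Pool.Agent.J4H81.PT
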