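import Pool.Agent.J4H81.PT.FCb

/-!
# Growing prime tuples: the parameters at a good scale (helper81)
-/

set_option autoImplicit false

namespace Pool.Agent.J4H81.PT

open Finset MeasureTheory Filter
open Pool.Agent.J4H81.PT.ZF (NoZ)

/-- the weight has almost full mass on every class -/
theorem om_mass {W T N₁ : ℕ} (hW : 0 < W) {η : ℝ} (hη : 0 < η) (hη1 : η ≤ 1) (hN₁ : 1 ≤ N₁)
    (hN₁u : (N₁ : ℝ) ≤ η * (W * T : ℕ) / 64) (hηT : 16 ≤ η * T) :
    ∀ r < W, (1 - η / 4) * T ≤ ∑ s ∈ range T, om (η / 16) (W * T : ℕ) N₁ (r + W * s) := by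
  intro r hr
  have hT0 : (0 : ℝ) < T := by
    by_contra h
    have : (T : ℝ) ≤ 0 := not_lt.1 h
    nlinarith
  have hW0 : (0 : ℝ) < W := by exact_mod_cast hW
  have hN0 : (0 : ℝ) < (W * T : ℕ) := by push_cast; positivity
  have hN₁0 : (0 : ℝ) < N₁ := by exact_mod_cast hN₁
  have hκ0 : 0 < η / 16 := by positivity
  have hlogs : Real.log N₁ + η / 16 ≤ Real.log (W * T : ℕ) := by
    have h1 : Real.log N₁ ≤ Real.log ((W * T : ℕ) / 64) := Real.log_le_log hN₁0 (by
      refine hN₁u.trans ?_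
      have : η * (W * T : ℕ) ≤ 1 * (W * T : ℕ) := mul_le_mul_of_nonneg_right hη1 hN0.le
      linarith)
    rw [Real.log_div hN0.ne' (by norm_num)] at h1
    have h2 : Real.log 64 = 6 * Real.log 2 := by
      rw [show (64 : ℝ) = 2 ^ 6 by norm_num, Real.log_pow]
      norm_num
    have := Real.log_two_gt_d9
    linarith
  have hwt := om_wt hκ0 hlogs
  set a : ℕ := ⌈η * T / 32⌉₊ with ha
  set b : ℕ := ⌊T * (1 - η / 16)⌋₊ with hb
  have ha1 : η * T / 32 ≤ a := Nat.le_ceil _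
  have ha2 : (a : ℝ) < η * T / 32 + 1 := Nat.ceil_lt_add_one (by positivity)
  have hb0 : 0 ≤ T * (1 - η / 16) := mul_nonneg hT0.le (by linarith)
  have hb1 : (b : ℝ) ≤ T * (1 - η / 16) := Nat.floor_le hb0
  have hb2 : T * (1 - η / 16) < b + 1 := Nat.lt_floor_add_one _
  have hbT : b ≤ T := by
    have : (b : ℝ) ≤ T := hb1.trans (by nlinarith)
    exact_mod_cast this
  have hsub : Ico a b ⊆ range T := by
    intro s hs
    rw [mem_Ico] at hs
    rw [mem_range]
    omega
  have hone : ∀ s ∈ Ico a b, om (η / 16) (W * T : ℕ) N₁ (r + W * s) = 1 := by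
    intro s hs
    rw [mem_Ico] at hs
    have hs1 : (a : ℝ) ≤ s := by exact_mod_cast hs.1
    have hs2 : (s : ℝ) + 1 ≤ b := by exact_mod_cast hs.2
    have hs0 : 0 < η * T / 32 := by positivity
    have hr1 : (r : ℝ) + 1 ≤ W := by exact_mod_cast hr
    have hr0 : (0 : ℝ) ≤ r := Nat.cast_nonneg _
    have hlow : (W : ℝ) * (η * T / 32) ≤ ((r + W * s : ℕ) : ℝ) := by
      push_cast
      have : (W : ℝ) * (η * T / 32) ≤ W * s := mul_le_mul_of_nonneg_left (ha1.trans hs1) hW0.le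
      linarith
    have hn0 : (0 : ℝ) < ((r + W * s : ℕ) : ℝ) := lt_of_lt_of_le (by positivity) hlow
    have hup : ((r + W * s : ℕ) : ℝ) ≤ (W * T : ℕ) * (1 - η / 16) := by
      push_cast
      have h1 : (W : ℝ) * (s + 1) ≤ W * (T * (1 - η / 16)) := mul_le_mul_of_nonneg_left (hs2.trans hb1) hW0.le
      nlinarith only [h1, hr1]
    apply om_one hκ0
    · have h1 : (N₁ : ℝ) * Real.exp (η / 16) ≤ ((r + W * s : ℕ) : ℝ) := by
        have h2 : Real.exp (η / 16) ≤ 2 := by
          have h3 : Real.exp (η / 16) ≤ Real.exp (1 / 2) := Real.exp_le_exp.2 (by linarith)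
          have h4 : Real.exp (1 / 2) ^ 2 = Real.exp 1 := by
            rw [← Real.exp_nat_mul]; norm_num
          have h5 := Real.exp_one_lt_d9
          have h6 := Real.exp_pos (1 / 2 : ℝ)
          nlinarith only [h3, h4, h5, h6]
        calc (N₁ : ℝ) * Real.exp (η / 16) ≤ (η * (W * T : ℕ) / 64) * 2 := by gcongr
          _ = W * (η * T / 32) := by push_cast; ring
          _ ≤ _ := hlow
      have h2 := Real.log_le_log (by positivity) h1
      rwa [Real.log_mul hN₁0.ne' (Real.exp_pos _).ne', Real.log_exp] at h2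
    · have h1 : ((r + W * s : ℕ) : ℝ) ≤ (W * T : ℕ) * Real.exp (-(η / 16)) := by
        refine hup.trans (mul_le_mul_of_nonneg_left ?_ hN0.le)
        have := Real.add_one_le_exp (-(η / 16))
        linarith
      have h2 := Real.log_le_log hn0 h1
      rw [Real.log_mul hN0.ne' (Real.exp_pos _).ne', Real.log_exp] at h2
      linarith
  calc (1 - η / 4) * T ≤ (b : ℝ) - a := by
        nlinarith only [hb2, ha2, hηT]
    _ ≤ ((Ico a b).card : ℝ) := by
        rw [Nat.card_Ico]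
        have : (b : ℝ) ≤ ((b - a : ℕ) : ℝ) + a := by exact_mod_cast (by omega : b ≤ b - a + a)
        linarith
    _ = ∑ s ∈ Ico a b, om (η / 16) (W * T : ℕ) N₁ (r + W * s) := by
        rw [sum_congr rfl hone, sum_const, nsmul_eq_mul, mul_one]
    _ ≤ _ := sum_le_sum_of_subset_of_nonneg hsub fun s _ _ => hwt.nonneg _

/-- the bound on the minor arcs -/
theorem m0_bound {l : ℝ} (hl : 2000 ≤ l) (hF : 10 ^ 9 * l ^ 14 ≤ Real.exp (1 / 1000 * l)) {W T P : ℕ} (hW : 0 < W) (hT : 0 < T)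
    (hWl : (W : ℝ) ≤ Real.exp (l / 700)) (hP1 : Real.exp (l / 50) / 2 ≤ P) (hP2 : (P : ℝ) ≤ Real.exp (l / 50))
    (hN : Real.exp (100 * l) ≤ (W * T : ℕ)) (hNl : Real.log (W * T : ℕ) ≤ l ^ 2) (hTl : Real.exp (99 * l) ≤ T) :
    3 * ((Nat.log 2 (W * T) + 1 : ℕ) * Bd (W * T) P) + 2 * Real.sqrt (W * T : ℕ) * Real.log (W * T : ℕ) +
      (((W * (W * P) : ℕ) : ℝ) ^ 3 * 3 + 2 * ((W * T : ℕ) / Real.sqrt P)) ≤ T * Real.exp (-(l / 150)) := by
  have hl0 : 0 < l := by linarith
  have hl1 : 1 ≤ l := by linarith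
  set N : ℕ := W * T with hNdef
  have hNpos : (0 : ℝ) < N := lt_of_lt_of_le (Real.exp_pos _) hN
  have hN1 : (1 : ℝ) ≤ N := (Real.one_le_exp (by positivity)).trans hN
  have hNn : N ≠ 0 := by
    rintro h
    rw [h] at hNpos
    simp at hNpos
  have hT0 : (0 : ℝ) < T := by exact_mod_cast hT
  have hlogN : 0 ≤ Real.log N := Real.log_nonneg hN1
  have hNT : (N : ℝ) ≤ T * Real.exp (l / 700) := by
    rw [hNdef]; push_cast
    rw [mul_comm]
    exact mul_le_mul_of_nonneg_left hWl hT0.le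
  set e : ℝ := Real.exp (-(6 * l / 700)) with he
  have he0 : 0 < e := Real.exp_pos _
  -- the square root of P
  have hsP : Real.exp (l / 100) / 2 ≤ Real.sqrt P := by
    apply Real.le_sqrt_of_sq_le
    have h1 : Real.exp (l / 100) ^ 2 = Real.exp (l / 50) := by
      rw [← Real.exp_nat_mul]; congr 1; push_cast; ring
    have h2 := Real.exp_pos (l / 50)
    rw [div_pow, h1]
    linarith
  have hNP : (N : ℝ) / Real.sqrt P ≤ 2 * (T * e) := by
    have h0 : 0 < Real.exp (l / 100) / 2 := by positivity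
    calc (N : ℝ) / Real.sqrt P ≤ N / (Real.exp (l / 100) / 2) := div_le_div_of_nonneg_left hNpos.le h0 hsP
      _ ≤ (T * Real.exp (l / 700)) / (Real.exp (l / 100) / 2) := div_le_div_of_nonneg_right hNT h0.le
      _ = 2 * (T * (Real.exp (l / 700) * Real.exp (-(l / 100)))) := by
          rw [Real.exp_neg]; field_simp
      _ = 2 * (T * e) := by
          rw [← Real.exp_add, he]; congr 3; ring
  have hNP0 : 0 ≤ (N : ℝ) / Real.sqrt P := by positivity
  -- the number of blocks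
  have hlog2 : ((Nat.log 2 N + 1 : ℕ) : ℝ) ≤ 3 * l ^ 2 := by
    have h1 : 2 ^ Nat.log 2 N ≤ N := Nat.pow_log_le_self 2 hNn
    have h2 : ((2 ^ Nat.log 2 N : ℕ) : ℝ) ≤ N := by exact_mod_cast h1
    have h3 := Real.log_le_log (by positivity) h2
    push_cast at h3
    rw [Real.log_pow] at h3
    have h4 := Real.log_two_gt_d9
    have h5 : (0 : ℝ) ≤ Nat.log 2 N := Nat.cast_nonneg _
    have h6 : (Nat.log 2 N : ℝ) * (1 / 2) ≤ Nat.log 2 N * Real.log 2 := mul_le_mul_of_nonneg_left (by linarith) h5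
    have h7 : 1 ≤ l ^ 2 := one_le_pow₀ hl1
    push_cast
    linarith
  have hBd : Bd N P ≤ 12000 * (64 * l ^ 12) * (2 * (T * e)) := by
    unfold Bd
    have h1 : 1 + Real.log (4 * N) ≤ 2 * l ^ 2 := by
      rw [Real.log_mul (by norm_num) hNpos.ne', show (4 : ℝ) = 2 ^ 2 by norm_num, Real.log_pow]
      have := Real.log_two_lt_d9
      have h7 : 3 ≤ l ^ 2 := by nlinarith only [hl]
      push_cast
      linarith
    have h0 : 0 ≤ 1 + Real.log (4 * N) := by
      have : 0 ≤ Real.log (4 * N) := Real.log_nonneg (by linarith)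
      linarith
    have h2 : (1 + Real.log (4 * N)) ^ 6 ≤ 64 * l ^ 12 := by
      calc (1 + Real.log (4 * N)) ^ 6 ≤ (2 * l ^ 2) ^ 6 := pow_le_pow_left₀ h0 h1 6
        _ = 64 * l ^ 12 := by ring
    have h3 : 12000 * (1 + Real.log (4 * N)) ^ 6 ≤ 12000 * (64 * l ^ 12) := mul_le_mul_of_nonneg_left h2 (by norm_num)
    exact mul_le_mul h3 hNP hNP0 (by positivity)
  have hBd0 : 0 ≤ Bd N P := by unfold Bd; positivity
  have hA : 3 * (((Nat.log 2 N + 1 : ℕ) : ℝ) * Bd N P) ≤ 13824000 * l ^ 14 * (T * e) := by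
    calc 3 * (((Nat.log 2 N + 1 : ℕ) : ℝ) * Bd N P) ≤ 3 * (3 * l ^ 2 * (12000 * (64 * l ^ 12) * (2 * (T * e)))) := by gcongr
      _ = 13824000 * l ^ 14 * (T * e) := by ring
  have hl14 : 1 ≤ l ^ 14 := one_le_pow₀ hl1
  have hTe : 0 < T * e := by positivity
  have hTe1 : Real.exp (98 * l) ≤ T * e := by
    calc Real.exp (98 * l) ≤ Real.exp (99 * l + -(6 * l / 700)) := Real.exp_le_exp.2 (by linarith)
      _ = Real.exp (99 * l) * e := Real.exp_add _ _
      _ ≤ T * e := mul_le_mul_of_nonneg_right hTl he0.le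
  have hB : 2 * Real.sqrt N * Real.log N ≤ 2 * l ^ 14 * (T * e) := by
    have h1 : Real.sqrt N ≤ T * e := by
      apply Real.sqrt_le_iff.2
      refine ⟨hTe.le, ?_⟩
      calc (N : ℝ) ≤ T * Real.exp (l / 700) := hNT
        _ ≤ T * (e * (T * e)) := by
            apply mul_le_mul_of_nonneg_left _ hT0.le
            calc Real.exp (l / 700) ≤ Real.exp (-(6 * l / 700) + 98 * l) := Real.exp_le_exp.2 (by linarith)
              _ = e * Real.exp (98 * l) := Real.exp_add _ _
              _ ≤ e * (T * e) := mul_le_mul_of_nonneg_left hTe1 he0.le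
        _ = (T * e) ^ 2 := by ring
    have h2 : Real.log N ≤ l ^ 14 := hNl.trans (pow_le_pow_right₀ hl1 (by norm_num))
    calc 2 * Real.sqrt N * Real.log N ≤ 2 * (T * e) * l ^ 14 := by gcongr
      _ = _ := by ring
  have hC : (((W * (W * P) : ℕ) : ℝ)) ^ 3 * 3 ≤ 3 * l ^ 14 * (T * e) := by
    have h1 : ((W * (W * P) : ℕ) : ℝ) ≤ Real.exp l := by
      push_cast
      have hW0 : (0 : ℝ) ≤ W := Nat.cast_nonneg _
      have hP0 : (0 : ℝ) ≤ P := Nat.cast_nonneg _
      calc (W : ℝ) * (W * P) ≤ Real.exp (l / 700) * (Real.exp (l / 700) * Real.exp (l / 50)) := by gcongr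
        _ = Real.exp (l / 700 + (l / 700 + l / 50)) := by rw [Real.exp_add, Real.exp_add]
        _ ≤ Real.exp l := Real.exp_le_exp.2 (by linarith)
    have h2 : ((W * (W * P) : ℕ) : ℝ) ^ 3 ≤ T * e := by
      calc ((W * (W * P) : ℕ) : ℝ) ^ 3 ≤ Real.exp l ^ 3 := pow_le_pow_left₀ (Nat.cast_nonneg _) h1 3
        _ = Real.exp (3 * l) := by rw [← Real.exp_nat_mul]; norm_num
        _ ≤ Real.exp (98 * l) := Real.exp_le_exp.2 (by linarith)
        _ ≤ T * e := hTe1
    have h3 : T * e ≤ l ^ 14 * (T * e) := le_mul_of_one_le_left hTe.le hl14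
    linarith
  have hD : 2 * ((N : ℝ) / Real.sqrt P) ≤ 4 * l ^ 14 * (T * e) := by
    have h3 : T * e ≤ l ^ 14 * (T * e) := le_mul_of_one_le_left hTe.le hl14
    linarith
  have hE : 10 ^ 9 * l ^ 14 * (T * e) ≤ T * Real.exp (-(l / 150)) := by
    calc 10 ^ 9 * l ^ 14 * (T * e) ≤ Real.exp (1 / 1000 * l) * (T * e) := mul_le_mul_of_nonneg_right hF hTe.le
      _ = T * Real.exp (1 / 1000 * l + -(6 * l / 700)) := by rw [Real.exp_add, he]; ring
      _ ≤ T * Real.exp (-(l / 150)) := mul_le_mul_of_nonneg_left (Real.exp_le_exp.2 (by linarith)) hT0.le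
  have hz : 0 ≤ l ^ 14 * (T * e) := by positivity
  nlinarith only [hA, hB, hC, hD, hE, hz]

/-- the third term of the main inequality -/
theorem third_term {l : ℝ} (hl : 2000 ≤ l) {K k T N U M₀ : ℕ} {η : ℝ} (hη : 8000 / l ≤ η)
    (hk : (k : ℝ) * Real.log (2 * l ^ 2) ≤ l / 1000) (hkl : (k : ℝ) ≤ l) (hTl : Real.exp (99 * l) ≤ T) (hN1 : 1 ≤ Real.log N)
    (hNl : Real.log N ≤ l ^ 2) (hF : l ^ 3 ≤ Real.exp l) (hU : U = ⌊η * T / (2 * Real.log N)⌋₊)
    (hM : M₀ = ⌈256 * ((T : ℝ) * Real.exp (-(l / 150))) ^ 2 * l ^ (K + 3) / (η ^ 2 * T)⌉₊) :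
    (U + 1) * Real.log N ≤ η * T ∧ 0 < U ∧ (2 * Real.log N) ^ k * (1 + 2 * k * M₀) / U ≤ 515 * l ^ (K + 9) * Real.exp (-(l / 100)) := by
  have hl0 : 0 < l := by linarith
  have hl1 : 1 ≤ l := by linarith
  have hT0 : (0 : ℝ) < T := lt_of_lt_of_le (Real.exp_pos _) hTl
  have hη0 : 0 < η := lt_of_lt_of_le (by positivity) hη
  have hL0 : 0 < Real.log N := by linarith
  have hηl : 8000 ≤ η * l := by rwa [div_le_iff₀ hl0] at hη
  -- the large quantity
  have hbig : 4 * l ^ 2 ≤ η * T := by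
    have h1 : l ^ 3 ≤ T := hF.trans ((Real.exp_le_exp.2 (by linarith)).trans hTl)
    have h2 : η * l ^ 3 ≤ η * T := mul_le_mul_of_nonneg_left h1 hη0.le
    have h3 : η * l ^ 3 = (η * l) * l ^ 2 := by ring
    nlinarith only [h2, h3, hηl, sq_nonneg l]
  have hq : 2 ≤ η * T / (2 * Real.log N) := by
    rw [le_div_iff₀ (by positivity)]
    linarith
  have hU1 : (U : ℝ) ≤ η * T / (2 * Real.log N) := by
    rw [hU]; exact Nat.floor_le (by positivity)
  have hU2 : η * T / (2 * Real.log N) < U + 1 := by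
    rw [hU]; exact Nat.lt_floor_add_one _
  have hU3 : (1 : ℝ) < U := by linarith
  have hU4 : T / l ^ 3 ≤ (U : ℝ) := by
    have h1 : η * T / (4 * Real.log N) ≤ U := by
      have : η * T / (4 * Real.log N) = η * T / (2 * Real.log N) / 2 := by field_simp; norm_num
      rw [this]
      linarith
    refine le_trans ?_ h1
    rw [div_le_div_iff₀ (by positivity) (by positivity)]
    have h2 : T * (4 * Real.log N) ≤ T * (4 * l ^ 2) := by gcongr
    have h3 : η * T * l ^ 3 = T * ((η * l) * l ^ 2) := by ring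
    rw [h3]
    refine h2.trans (mul_le_mul_of_nonneg_left ?_ hT0.le)
    nlinarith only [hηl, sq_nonneg l]
  refine ⟨?_, by exact_mod_cast (by linarith : (0 : ℝ) < U), ?_⟩
  · rw [le_div_iff₀ (by positivity)] at hU1
    nlinarith only [hU1, hbig, hNl]
  · have hUpos : (0 : ℝ) < U := by linarith
    have h1 : (2 * Real.log N) ^ k ≤ Real.exp (l / 1000) := by
      calc (2 * Real.log N) ^ k ≤ (2 * l ^ 2) ^ k := pow_le_pow_left₀ (by positivity) (by linarith) k
        _ = Real.exp (k * Real.log (2 * l ^ 2)) := by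
            rw [Real.exp_nat_mul, Real.exp_log (by positivity)]
        _ ≤ Real.exp (l / 1000) := Real.exp_le_exp.2 hk
    set e : ℝ := Real.exp (-(l / 75)) with he
    have he0 : 0 < e := Real.exp_pos _
    have hM1 : (M₀ : ℝ) ≤ 256 * (T * e) * l ^ (K + 5) + 1 := by
      have h2 : (M₀ : ℝ) < 256 * ((T : ℝ) * Real.exp (-(l / 150))) ^ 2 * l ^ (K + 3) / (η ^ 2 * T) + 1 := by
        rw [hM]; exact Nat.ceil_lt_add_one (by positivity)
      have h3 : 256 * ((T : ℝ) * Real.exp (-(l / 150))) ^ 2 * l ^ (K + 3) / (η ^ 2 * T) ≤ 256 * (T * e) * l ^ (K + 5) := by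
        rw [div_le_iff₀ (by positivity)]
        have h4 : Real.exp (-(l / 150)) ^ 2 = e := by
          rw [← Real.exp_nat_mul, he]; congr 1; push_cast; ring
        have h5 : 1 ≤ (η * l) ^ 2 := one_le_pow₀ (by linarith)
        have h6 : 256 * (T * e) * l ^ (K + 5) * (η ^ 2 * T) = 256 * (T ^ 2 * e) * l ^ (K + 3) * (η * l) ^ 2 := by ring
        rw [h6, mul_pow, h4]
        have h7 : 0 ≤ 256 * ((T : ℝ) ^ 2 * e) * l ^ (K + 3) := by positivity
        exact le_mul_of_one_le_right h7 h5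
      linarith
    have hTe : 1 ≤ T * e := by
      calc (1 : ℝ) ≤ Real.exp (99 * l + -(l / 75)) := Real.one_le_exp (by linarith)
        _ = Real.exp (99 * l) * e := Real.exp_add _ _
        _ ≤ T * e := mul_le_mul_of_nonneg_right hTl he0.le
    have h2 : 1 + 2 * (k : ℝ) * M₀ ≤ 515 * l ^ (K + 6) * (T * e) := by
      have hk0 : (0 : ℝ) ≤ k := Nat.cast_nonneg _
      have hlK : 1 ≤ l ^ (K + 5) := one_le_pow₀ hl1
      have h3 : (k : ℝ) * M₀ ≤ l * (256 * (T * e) * l ^ (K + 5) + 1) := mul_le_mul hkl hM1 (Nat.cast_nonneg _) hl0.le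
      have h4 : l * (256 * (T * e) * l ^ (K + 5) + 1) = 256 * (l ^ (K + 6) * (T * e)) + l := by ring
      have h5 : l ≤ l ^ (K + 6) * (T * e) := by
        calc l = l * 1 * 1 := by ring
          _ ≤ l * l ^ (K + 5) * (T * e) := by gcongr
          _ = _ := by ring
      nlinarith only [h3, h4, h5, hl1]
    have hz : 0 ≤ 1 + 2 * (k : ℝ) * M₀ := by positivity
    calc (2 * Real.log N) ^ k * (1 + 2 * k * M₀) / U ≤ Real.exp (l / 1000) * (515 * l ^ (K + 6) * (T * e)) / (T / l ^ 3) := by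
          apply div_le_div₀ (by positivity) _ (by positivity) hU4
          exact mul_le_mul h1 h2 hz (Real.exp_pos _).le
      _ = 515 * l ^ (K + 9) * (Real.exp (l / 1000) * e) := by
          field_simp
          ring
      _ ≤ 515 * l ^ (K + 9) * Real.exp (-(l / 100)) := by
          apply mul_le_mul_of_nonneg_left _ (by positivity)
          rw [he, ← Real.exp_add]
          exact Real.exp_le_exp.2 (by linarith)

end Pool.Agent.J4H81.PT
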