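import Pool.Agent.J4H81.PT.FCc

/-!
# Growing prime tuples: the result at a good scale (helper81)
-/

set_option autoImplicit false

namespace Pool.Agent.J4H81.PT

open Finset MeasureTheory Filter
open Pool.Agent.J4H81.PT.ZF (NoZ)

open Classical in
/-- the exceptional tuples at a good scale -/
theorem final_step {c₀ : ℝ} (hc₀ : 0 < c₀) (hc₀1 : c₀ ≤ 1) : ∃ (c C l₀ : ℝ) (K : ℕ), 0 < c ∧ c ≤ 1 ∧ 0 < C ∧ ∀ l : ℝ, l₀ ≤ l → NoZ c₀ l →
    ∀ (y k : ℕ) (η : ℝ), 0 < η → η ≤ 1 / 2 → 8 / η + 2 ≤ l / 1000 → 4 * k * η ≤ 1 → (k : ℝ) * Real.log (2 * l ^ 2) ≤ l / 1000 →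
    Real.exp (101 * l) ≤ y → Real.log (y + 1 : ℕ) ≤ l ^ 2 →
    (((admissibleSets y k).filter (fun A => ¬ HasPrimes y A)).card : ℝ) ≤
      (16 * k * η + 16000 * k / l + C * l ^ K * (Real.exp (-(c * Real.log y / (2 * l))) + Real.exp (-(l / 100)))) *
        ((admissibleSets y k).card : ℝ) := by
  obtain ⟨c, C₁, l₁, K, hc, hc1, hC₁, hl₁, hen⟩ := energy_final hc₀ hc₀1
  obtain ⟨l₂, hl₂⟩ := eventually_atTop.1 (((poly_exp (show (0 : ℝ) < 1 / 1000 by norm_num) 14 (10 ^ 9))).and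
    ((poly_exp (show (0 : ℝ) < 1 by norm_num) 6 (10 ^ 6))))
  refine ⟨c, 10 ^ 5 * C₁, max (max l₁ l₂) 10000, 2 * K + 9, hc, hc1, by linarith, ?_⟩
  intro l hl hno y k η hη hη2 hηl hkη hk hy hyl
  have hl2000 : 10000 ≤ l := (le_max_right _ _).trans hl
  have hll₁ : l₁ ≤ l := (le_max_left _ _).trans ((le_max_left _ _).trans hl)
  have hll₂ : l₂ ≤ l := (le_max_right _ _).trans ((le_max_left _ _).trans hl)
  obtain ⟨hF1, hF2⟩ := hl₂ l hll₂
  rw [one_mul] at hF2
  have hl0 : 0 < l := by linarith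
  have hl1 : 1 ≤ l := by linarith
  have hη8 : 8000 / l ≤ η := by
    rw [div_le_iff₀ hl0]
    have h1 : 8 / η ≤ l / 1000 := by linarith
    rw [div_le_iff₀ hη] at h1
    linarith
  have hη1 : 1 / l ≤ η := le_trans (by gcongr; norm_num) hη8
  have hηl8 : 8000 ≤ η * l := by rwa [div_le_iff₀ hl0] at hη8
  have hk0 : (0 : ℝ) ≤ k := Nat.cast_nonneg _
  -- k is small
  have hlog8 : 8 ≤ Real.log (2 * l ^ 2) := by
    rw [Real.le_log_iff_exp_le (by positivity)]
    have h1 : Real.exp 8 = Real.exp 1 ^ 8 := by rw [← Real.exp_nat_mul]; norm_num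
    have h2 : Real.exp 1 ^ 8 ≤ 3 ^ 8 := pow_le_pow_left₀ (Real.exp_pos _).le (by have := Real.exp_one_lt_d9; linarith) 8
    rw [h1]
    refine h2.trans ?_
    nlinarith only [hl2000]
  have hk8 : (k : ℝ) ≤ l / 8000 := by
    have : (k : ℝ) * 8 ≤ k * Real.log (2 * l ^ 2) := mul_le_mul_of_nonneg_left hlog8 hk0
    linarith
  have hkl : (k : ℝ) ≤ l := by linarith
  -- the parameters
  set w : ℕ := ⌊l / 1000⌋₊ with hw
  have hw1 : (w : ℝ) ≤ l / 1000 := Nat.floor_le (by positivity)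
  have hw2 : l / 1000 < w + 1 := Nat.lt_floor_add_one _
  have hwpos : (0 : ℝ) < w := by linarith
  set W : ℕ := primorial w with hW
  have hWs : Squarefree W := squarefree_primorial w
  have hWpos : 0 < W := primorial_pos w
  have : NeZero W := ⟨hWpos.ne'⟩
  have hW0 : (0 : ℝ) < W := by exact_mod_cast hWpos
  have hW1 : (1 : ℝ) ≤ W := by exact_mod_cast hWpos
  have hWl : (W : ℝ) ≤ Real.exp (l / 700) := by
    have h1 : (W : ℝ) ≤ (4 : ℝ) ^ w := by exact_mod_cast primorial_le_four_pow w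
    have h2 : (4 : ℝ) ^ w = Real.exp (w * (2 * Real.log 2)) := by
      rw [Real.exp_nat_mul, show 2 * Real.log 2 = Real.log (2 ^ 2) by rw [Real.log_pow]; norm_num, Real.exp_log (by norm_num)]
      norm_num
    rw [h2] at h1
    refine h1.trans (Real.exp_le_exp.2 ?_)
    have h3 := Real.log_two_lt_d9
    have h4 : (w : ℝ) * (2 * Real.log 2) ≤ (l / 1000) * (2 * 0.6931471808) := by gcongr
    linarith
  set P : ℕ := ⌊Real.exp (l / 50)⌋₊ with hP
  have hPexp : (2 : ℝ) ≤ Real.exp (l / 50) := by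
    have := Real.add_one_le_exp (l / 50)
    linarith
  have hP2 : (P : ℝ) ≤ Real.exp (l / 50) := Nat.floor_le (Real.exp_pos _).le
  have hP1 : Real.exp (l / 50) / 2 ≤ P := by
    have : Real.exp (l / 50) < P + 1 := Nat.lt_floor_add_one _
    linarith
  have hPpos : 1 ≤ P := by
    have : (0 : ℝ) < P := by linarith
    exact_mod_cast this
  set Q : ℕ := W * P with hQ
  have hQ1 : 1 ≤ Q := Nat.mul_pos hWpos hPpos
  have hQl : (Q : ℝ) ≤ Real.exp (l / 40) := by
    rw [hQ]; push_cast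
    calc (W : ℝ) * P ≤ Real.exp (l / 700) * Real.exp (l / 50) := by gcongr
      _ = Real.exp (l / 700 + l / 50) := (Real.exp_add _ _).symm
      _ ≤ Real.exp (l / 40) := Real.exp_le_exp.2 (by linarith)
  set T : ℕ := (y + 1) / W with hT
  have hmod : W * T + (y + 1) % W = y + 1 := Nat.div_add_mod (y + 1) W
  have hmodlt : (y + 1) % W < W := Nat.mod_lt _ hWpos
  set N : ℕ := W * T with hN
  have hNy : (N : ℝ) ≤ (y + 1 : ℕ) := by exact_mod_cast (by omega : N ≤ y + 1)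
  have hyW : (y : ℝ) ≤ N + W := by exact_mod_cast (by omega : y ≤ N + W)
  have hexp : ∀ a b : ℝ, a ≤ b → Real.exp (a * l) ≤ Real.exp (b * l) := fun a b h => Real.exp_le_exp.2 (mul_le_mul_of_nonneg_right h hl0.le)
  have hWy : (W : ℝ) ≤ y / 2 := by
    have h1 : 2 * Real.exp (l / 700) ≤ Real.exp (101 * l) := by
      calc 2 * Real.exp (l / 700) ≤ Real.exp (l / 50) * Real.exp (l / 700) := by gcongr
        _ = Real.exp (l / 50 + l / 700) := (Real.exp_add _ _).symm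
        _ ≤ Real.exp (101 * l) := Real.exp_le_exp.2 (by linarith)
    linarith
  have hNy2 : (y : ℝ) / 2 ≤ N := by linarith
  have hNl : Real.exp (100 * l) ≤ N := by
    have h1 : 2 * Real.exp (100 * l) ≤ Real.exp (101 * l) := by
      calc 2 * Real.exp (100 * l) ≤ Real.exp (l / 50) * Real.exp (100 * l) := by gcongr
        _ = Real.exp (l / 50 + 100 * l) := (Real.exp_add _ _).symm
        _ ≤ Real.exp (101 * l) := Real.exp_le_exp.2 (by linarith)
    linarith
  have hN0 : (0 : ℝ) < N := lt_of_lt_of_le (Real.exp_pos _) hNl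
  have hNpos : 0 < N := by exact_mod_cast hN0
  have hlogN2 : Real.log N ≤ l ^ 2 := (Real.log_le_log hN0 hNy).trans hyl
  have hlogN1 : 100 * l ≤ Real.log N := by
    rw [← Real.log_exp (100 * l)]
    exact Real.log_le_log (Real.exp_pos _) hNl
  have hTpos : 0 < T := Nat.pos_of_mul_pos_left hNpos
  have hT0 : (0 : ℝ) < T := by exact_mod_cast hTpos
  have hNWT : (N : ℝ) = W * T := by rw [hN]; push_cast; ring
  have hTl : Real.exp (99 * l) ≤ T := by
    by_contra hcon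
    have h1 : (N : ℝ) < Real.exp (100 * l) := by
      rw [hNWT]
      calc (W : ℝ) * T ≤ Real.exp (l / 700) * T := mul_le_mul_of_nonneg_right hWl hT0.le
        _ < Real.exp (l / 700) * Real.exp (99 * l) := mul_lt_mul_of_pos_left (not_le.1 hcon) (Real.exp_pos _)
        _ = Real.exp (l / 700 + 99 * l) := (Real.exp_add _ _).symm
        _ ≤ Real.exp (100 * l) := Real.exp_le_exp.2 (by linarith)
    linarith
  have hη1' : η ≤ 1 := by linarith
  have hFl : l ^ 3 ≤ Real.exp l := by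
    refine le_trans ?_ hF2
    have : l ^ 3 ≤ l ^ 6 := pow_le_pow_right₀ hl1 (by norm_num)
    nlinarith only [this, pow_pos hl0 6]
  -- big quantities
  have hTbig : 10 ^ 6 * l ^ 6 * Real.exp (98 * l) ≤ T := by
    calc 10 ^ 6 * l ^ 6 * Real.exp (98 * l) ≤ Real.exp l * Real.exp (98 * l) := mul_le_mul_of_nonneg_right hF2 (Real.exp_pos _).le
      _ = Real.exp (99 * l) := by rw [← Real.exp_add]; congr 1; ring
      _ ≤ T := hTl
  have hηT : 10 ^ 6 * l ^ 5 * Real.exp (98 * l) ≤ η * T := by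
    have h1 : η * (10 ^ 6 * l ^ 6 * Real.exp (98 * l)) ≤ η * T := mul_le_mul_of_nonneg_left hTbig hη.le
    have h2 : η * (10 ^ 6 * l ^ 6 * Real.exp (98 * l)) = (η * l) * (10 ^ 6 * l ^ 5 * Real.exp (98 * l)) := by ring
    rw [h2] at h1
    have h3 : 0 ≤ 10 ^ 6 * l ^ 5 * Real.exp (98 * l) := by positivity
    have h4 : 10 ^ 6 * l ^ 5 * Real.exp (98 * l) ≤ (η * l) * (10 ^ 6 * l ^ 5 * Real.exp (98 * l)) := le_mul_of_one_le_left h3 (by linarith)
    linarith
  have he98 : 1 ≤ Real.exp (98 * l) := Real.one_le_exp (by positivity)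
  have hl5 : 1 ≤ l ^ 5 := one_le_pow₀ hl1
  have hηT6 : 10 ^ 6 ≤ η * T := by
    refine le_trans ?_ hηT
    have : 1 ≤ l ^ 5 * Real.exp (98 * l) := one_le_mul_of_one_le_of_one_le hl5 he98
    linarith
  have hTN : (T : ℝ) ≤ N := by rw [hNWT]; exact le_mul_of_one_le_left hT0.le hW1
  have hηN : 10 ^ 6 ≤ η * N := hηT6.trans (mul_le_mul_of_nonneg_left hTN hη.le)
  set N₁ : ℕ := ⌊η * N / 64⌋₊ with hN₁
  have hN₁1 : (N₁ : ℝ) ≤ η * N / 64 := Nat.floor_le (by positivity)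
  have hN₁2 : η * N / 64 < N₁ + 1 := Nat.lt_floor_add_one _
  have hN₁3 : η * N / 128 ≤ N₁ := by linarith
  have hN₁pos : 1 ≤ N₁ := by
    have : (0 : ℝ) < N₁ := by linarith
    exact_mod_cast this
  have hN₁4 : (N₁ : ℝ) ≤ N / 4 := by
    have : η * N ≤ 1 * N := mul_le_mul_of_nonneg_right hη1' hN0.le
    linarith
  have hlogs : Real.log N₁ + η / 16 ≤ Real.log N := by
    have h1 : Real.log N₁ ≤ Real.log (N / 4) := Real.log_le_log (by exact_mod_cast hN₁pos) hN₁4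
    rw [Real.log_div hN0.ne' (by norm_num)] at h1
    have h2 : Real.log 4 = 2 * Real.log 2 := by
      rw [show (4 : ℝ) = 2 ^ 2 by norm_num, Real.log_pow]
      norm_num
    have := Real.log_two_gt_d9
    linarith
  have hω := om_wt (show 0 < η / 16 by positivity) hlogs
  have hmass := om_mass (T := T) hWpos hη hη1' hN₁pos (by rw [← hN]; exact hN₁1) (by linarith)
  rw [← hN] at hmass
  obtain ⟨hS, hEt⟩ := hen l hll₁ hno W T P N₁ η hWs hTpos hWl hP1 hP2 hη1 hη1' (by rw [← hN]; exact hN₁3)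
    (by rw [← hN]; exact hN₁4) (by rw [← hN]; exact hNl) (by rw [← hN]; exact hlogN2)
  rw [← hQ] at hS hEt
  rw [← hN] at hEt
  -- P
  have hexpP3 : ((P * P * P : ℕ) : ℝ) ≤ Real.exp l := by
    push_cast
    calc (P : ℝ) * P * P ≤ Real.exp (l / 50) * Real.exp (l / 50) * Real.exp (l / 50) := by gcongr
      _ = Real.exp (l / 50 + l / 50 + l / 50) := by rw [Real.exp_add, Real.exp_add]
      _ ≤ Real.exp l := Real.exp_le_exp.2 (by linarith)
  have hP3 : P * P * P ≤ N := by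
    have : ((P * P * P : ℕ) : ℝ) ≤ N := hexpP3.trans ((Real.exp_le_exp.2 (by linarith)).trans hNl)
    exact_mod_cast this
  have hPP : P * P ≤ N₁ := by
    have h1 : ((P * P : ℕ) : ℝ) ≤ ((P * P * P : ℕ) : ℝ) := by
      exact_mod_cast Nat.le_mul_of_pos_right _ hPpos
    have h2 : Real.exp l * 128 ≤ η * N := by
      calc Real.exp l * 128 ≤ 10 ^ 6 * l ^ 5 * Real.exp (98 * l) := by
            have h3 : Real.exp l ≤ Real.exp (98 * l) := Real.exp_le_exp.2 (by linarith)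
            have h4 : (128 : ℝ) ≤ 10 ^ 6 * l ^ 5 := by linarith
            calc Real.exp l * 128 ≤ Real.exp (98 * l) * (10 ^ 6 * l ^ 5) := by gcongr
              _ = _ := by ring
        _ ≤ η * T := hηT
        _ ≤ η * N := mul_le_mul_of_nonneg_left hTN hη.le
    have h3 : ((P * P : ℕ) : ℝ) ≤ N₁ := by linarith
    exact_mod_cast h3
  set m₀ : ℝ := T * Real.exp (-(l / 150)) with hm₀
  have hm0 := m0_bound (by linarith) hF1 hWpos hTpos hWl hP1 hP2 (by rw [← hN]; exact hNl) (by rw [← hN]; exact hlogN2) hTl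
  rw [← hN, ← hQ, ← hm₀] at hm0
  set U : ℕ := ⌊η * T / (2 * Real.log N)⌋₊ with hU
  set M₀ : ℕ := ⌈256 * m₀ ^ 2 * l ^ (K + 3) / (η ^ 2 * T)⌉₊ with hM₀
  obtain ⟨hUB, hUpos, hthird⟩ := third_term (K := K) (by linarith) hη8 hk hkl hTl (by linarith) hlogN2 hFl hU hM₀
  have hUT : U + 1 ≤ T := by
    have h1 : ((U : ℝ) + 1) * 1 ≤ (U + 1) * Real.log N := mul_le_mul_of_nonneg_left (by linarith) (by positivity)
    have h2 : η * T ≤ 1 * T := mul_le_mul_of_nonneg_right hη1' hT0.le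
    have h3 : ((U + 1 : ℕ) : ℝ) ≤ T := by push_cast; linarith
    exact_mod_cast h3
  have hlK : 1 ≤ l ^ K := one_le_pow₀ hl1
  have hΛ : ∑ q ∈ Icc 1 Q, 1 / (Nat.totient q : ℝ) + 1 + 2 * Real.log N ≤ l ^ (K + 3) := by
    have h1 : l ^ (K + 3) = l ^ K * l ^ 3 := pow_add _ _ _
    have h2 : l ^ K + 1 + 2 * l ^ 2 ≤ l ^ K * l ^ 3 := by
      have h3 : 4 * l ^ 2 ≤ l ^ 3 := by
        have : l ^ 3 = l * l ^ 2 := by ring
        rw [this]
        exact mul_le_mul_of_nonneg_right (by linarith) (sq_nonneg l)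
      have h4 : 1 ≤ l ^ 2 := one_le_pow₀ hl1
      have h5 : l ^ K * (4 * l ^ 2) ≤ l ^ K * l ^ 3 := mul_le_mul_of_nonneg_left h3 (by linarith)
      have h6 : l ^ K ≤ l ^ K * l ^ 2 := le_mul_of_one_le_right (by linarith) h4
      have h7 : l ^ 2 ≤ l ^ K * l ^ 2 := le_mul_of_one_le_left (by linarith) hlK
      linarith
    rw [h1]
    linarith
  have hQT : 100 * (Q : ℝ) ^ 4 ≤ η * T := by
    have h1 : (Q : ℝ) ^ 4 ≤ Real.exp (98 * l) := by
      calc (Q : ℝ) ^ 4 ≤ Real.exp (l / 40) ^ 4 := pow_le_pow_left₀ (Nat.cast_nonneg _) hQl 4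
        _ = Real.exp (l / 10) := by rw [← Real.exp_nat_mul]; congr 1; push_cast; ring
        _ ≤ Real.exp (98 * l) := Real.exp_le_exp.2 (by linarith)
    refine le_trans ?_ hηT
    have h2 : (100 : ℝ) ≤ 10 ^ 6 * l ^ 5 := by linarith
    calc 100 * (Q : ℝ) ^ 4 ≤ (10 ^ 6 * l ^ 5) * Real.exp (98 * l) := by gcongr
      _ = _ := by ring
  have hmain := core_step (k := k) (W := W) (y := y) (T := T) (Q := Q) (N₁ := N₁) (P := P) (w := w) (U := U) (M₀ := M₀)
    (Et := C₁ * l ^ K * (N * (Real.exp (-(c * Real.log N / (2 * l))) + Real.exp (-(l / 10))))) hWs (fun p hp hpw => by rw [hW]; exact hp.dvd_primorial_iff.2 hpw) hT hTpos hUpos hUT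
    (by
      have : (k : ℝ) ≤ w := by linarith
      exact_mod_cast this)
    (by
      have : (2 : ℝ) ≤ w := by linarith
      exact_mod_cast this)
    hQ1 hPpos (by rw [← hN]; exact hP3) hPP (by rw [← hN]; exact hω) hη (by linarith) (by rw [← hN]; exact hm0)
    (by rw [← hN]; exact hΛ) hmass hQT (by linarith)
    (by
      have h1 : 2 * (k : ℝ) / w ≤ 1 / 2 := by
        rw [div_le_iff₀ hwpos]
        linarith
      linarith)
    (by rw [← hN]; exact hUB) (Nat.le_ceil _) (by rw [← hN]; exact hEt)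
  rw [← hN] at hmain
  set B : ℝ := (((admissibleSets y k).filter (fun A => ¬ HasPrimes y A)).card : ℝ) with hB
  set A : ℝ := ((admissibleSets y k).card : ℝ) with hA
  have hA0 : 0 ≤ A := Nat.cast_nonneg _
  have hB0 : 0 ≤ B := Nat.cast_nonneg _
  set e₁ : ℝ := Real.exp (-(l / 100)) with he₁
  set e₂ : ℝ := Real.exp (-(c * Real.log y / (2 * l))) with he₂
  have he₁0 : 0 < e₁ := Real.exp_pos _
  have he₂0 : 0 < e₂ := Real.exp_pos _
  have hinvT : 1 / (T : ℝ) ≤ e₁ / l ^ 2 := by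
    rw [div_le_div_iff₀ hT0 (by positivity), one_mul]
    have h1 : l ^ 2 ≤ 10 ^ 6 * l ^ 6 := by
      have : l ^ 2 ≤ l ^ 6 := pow_le_pow_right₀ hl1 (by norm_num)
      have h0 : 0 ≤ l ^ 6 := by positivity
      linarith
    have h2 : 1 ≤ e₁ * Real.exp (98 * l) := by
      rw [he₁, ← Real.exp_add]
      exact Real.one_le_exp (by linarith)
    calc l ^ 2 ≤ 10 ^ 6 * l ^ 6 * (e₁ * Real.exp (98 * l)) := h1.trans (le_mul_of_one_le_right (by positivity) h2)
      _ = e₁ * (10 ^ 6 * l ^ 6 * Real.exp (98 * l)) := by ring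
      _ ≤ e₁ * T := mul_le_mul_of_nonneg_left hTbig he₁0.le
  have he₁1 : e₁ ≤ 1 := Real.exp_le_one_iff.2 (by linarith)
  have hk2 : (k : ℝ) ^ 2 / T ≤ 1 / 2 := by
    have h1 : (k : ℝ) ^ 2 ≤ (l / 8000) ^ 2 := pow_le_pow_left₀ hk0 hk8 2
    calc (k : ℝ) ^ 2 / T = k ^ 2 * (1 / T) := by ring
      _ ≤ (l / 8000) ^ 2 * (e₁ / l ^ 2) := by gcongr
      _ = e₁ / 64000000 := by field_simp; norm_num
      _ ≤ 1 / 2 := by linarith
  have hkT : (k : ℝ) / T ≤ e₁ := by
    calc (k : ℝ) / T = k * (1 / T) := by ring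
      _ ≤ l * (e₁ / l ^ 2) := by gcongr
      _ = e₁ / l := by field_simp
      _ ≤ e₁ / 1 := by gcongr
      _ = e₁ := div_one _
  have hkw : 4 * (k : ℝ) / w ≤ 8000 * k / l := by
    rw [div_le_div_iff₀ hwpos hl0]
    have h1 : l ≤ 2000 * w := by linarith
    have h2 : 4 * (k : ℝ) * l ≤ 4 * k * (2000 * w) := mul_le_mul_of_nonneg_left h1 (by positivity)
    linarith
  have hterm : (k : ℝ) * (10 ^ 4 * l ^ (K + 3) * (C₁ * l ^ K * (N * (Real.exp (-(c * Real.log N / (2 * l))) + Real.exp (-(l / 10))))) / (η ^ 3 * N)) ≤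
      10 ^ 4 * C₁ * l ^ (2 * K + 7) * (2 * (e₂ + e₁)) := by
    have h1 : Real.exp (-(c * Real.log N / (2 * l))) ≤ 2 * e₂ := by
      have h2 : Real.log y ≤ Real.log N + Real.log 2 := by
        rw [← Real.log_mul hN0.ne' (by norm_num)]
        apply Real.log_le_log
        · exact lt_of_lt_of_le (Real.exp_pos _) hy
        · linarith
      have h3 : (2 : ℝ) * e₂ = Real.exp (Real.log 2 + -(c * Real.log y / (2 * l))) := by
        rw [Real.exp_add, Real.exp_log (by norm_num)]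
      rw [h3]
      apply Real.exp_le_exp.2
      have h4 : c * Real.log y / (2 * l) ≤ c * (Real.log N + Real.log 2) / (2 * l) := by gcongr
      have h5 : c * (Real.log N + Real.log 2) / (2 * l) = c * Real.log N / (2 * l) + Real.log 2 * (c / (2 * l)) := by
        field_simp
      have h6 : c / (2 * l) ≤ 1 := by
        rw [div_le_one (by positivity)]
        linarith
      have h7 : Real.log 2 * (c / (2 * l)) ≤ Real.log 2 * 1 := mul_le_mul_of_nonneg_left h6 (Real.log_nonneg (by norm_num))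
      linarith
    have h2 : Real.exp (-(l / 10)) ≤ e₁ := Real.exp_le_exp.2 (by linarith)
    have h3 : Real.exp (-(c * Real.log N / (2 * l))) + Real.exp (-(l / 10)) ≤ 2 * (e₂ + e₁) := by linarith
    set s : ℝ := Real.exp (-(c * Real.log N / (2 * l))) + Real.exp (-(l / 10)) with hs
    have hs0 : 0 < s := by positivity
    have h4 : (k : ℝ) * (10 ^ 4 * l ^ (K + 3) * (C₁ * l ^ K * (N * s)) / (η ^ 3 * N)) = 10 ^ 4 * C₁ * (k * l ^ (2 * K + 3) * (1 / η ^ 3)) * s := by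
      field_simp
      ring
    rw [h4]
    have h5 : 1 / η ^ 3 ≤ l ^ 3 := by
      rw [div_le_iff₀ (by positivity)]
      have : 1 ≤ (η * l) ^ 3 := one_le_pow₀ (by linarith)
      calc (1 : ℝ) ≤ (η * l) ^ 3 := this
        _ = l ^ 3 * η ^ 3 := by ring
    have h6 : (k : ℝ) * l ^ (2 * K + 3) * (1 / η ^ 3) ≤ l * l ^ (2 * K + 3) * l ^ 3 := by gcongr
    have h7 : l * l ^ (2 * K + 3) * l ^ 3 = l ^ (2 * K + 7) := by ring
    rw [h7] at h6
    gcongr
  have hlow : (1 / 2) * B ≤ (1 - (k : ℝ) ^ 2 / T) * B := mul_le_mul_of_nonneg_right (by linarith) hB0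
  have hl2K : l ^ (K + 9) ≤ l ^ (2 * K + 9) := pow_le_pow_right₀ hl1 (by omega)
  have hl2K' : l ^ (2 * K + 7) ≤ l ^ (2 * K + 9) := pow_le_pow_right₀ hl1 (by omega)
  have hl2K1 : 1 ≤ l ^ (2 * K + 9) := one_le_pow₀ hl1
  have hsum : 8 * k * η + 4 * k / w + (2 * Real.log N) ^ k * (1 + 2 * k * M₀) / U +
      k * (10 ^ 4 * l ^ (K + 3) * (C₁ * l ^ K * (N * (Real.exp (-(c * Real.log N / (2 * l))) + Real.exp (-(l / 10))))) / (η ^ 3 * N)) + k / T ≤
      8 * k * η + 8000 * k / l + 50000 * C₁ * l ^ (2 * K + 9) * (e₂ + e₁) := by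
    have h1 : 515 * l ^ (K + 9) * e₁ ≤ 515 * C₁ * l ^ (2 * K + 9) * e₁ := by
      have : l ^ (K + 9) ≤ C₁ * l ^ (2 * K + 9) := hl2K.trans (le_mul_of_one_le_left (by linarith) hC₁)
      have h2 := mul_le_mul_of_nonneg_right this he₁0.le
      linarith
    have h2 : e₁ ≤ C₁ * l ^ (2 * K + 9) * e₁ := le_mul_of_one_le_left he₁0.le (one_le_mul_of_one_le_of_one_le hC₁ hl2K1)
    have h3 : 10 ^ 4 * C₁ * l ^ (2 * K + 7) * (2 * (e₂ + e₁)) ≤ 10 ^ 4 * C₁ * l ^ (2 * K + 9) * (2 * (e₂ + e₁)) := by gcongr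
    have h4 : 0 ≤ C₁ * l ^ (2 * K + 9) * e₂ := by positivity
    have h5 : 0 ≤ C₁ * l ^ (2 * K + 9) * e₁ := by positivity
    linarith
  have hfin := hmain.trans (mul_le_mul_of_nonneg_right hsum hA0)
  have hgoal : (16 * k * η + 16000 * k / l + 10 ^ 5 * C₁ * l ^ (2 * K + 9) * (e₂ + e₁)) * A =
      2 * ((8 * k * η + 8000 * k / l + 50000 * C₁ * l ^ (2 * K + 9) * (e₂ + e₁)) * A) := by ring
  rw [hgoal]
  linarith

end Pool.Agent.J4H81.PT
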