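import Pool.Agent.H807R2.Dav1

/-!
# Growing prime tuples: Fourier analysis on the circle (helper81)
-/

set_option autoImplicit false

namespace Pool.Agent.J4H81.PT

open Finset MeasureTheory
open Pool.Agent.H807R2.Dav (ee norm_ee ee_add ee_zero ee_int ee_eq)

/-- the Fourier transform of a finite sequence -/
noncomputable def hat (a : ℕ → ℂ) (M : ℕ) (α : ℝ) : ℂ := ∑ s ∈ range M, a s * ee (s * α)

theorem ee_cont : Continuous ee := by
  unfold ee
  fun_prop

theorem ee_neg (x : ℝ) : ee (-x) = (starRingEnd ℂ) (ee x) := by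
  rw [ee_eq, ee_eq, ← Complex.exp_conj]
  congr 1
  rw [map_mul, Complex.conj_ofReal, Complex.conj_I]
  push_cast
  ring

theorem hat_cont (a : ℕ → ℂ) (M : ℕ) : Continuous (hat a M) := by
  unfold hat
  apply continuous_finsetSum
  intro s _
  exact continuous_const.mul (ee_cont.comp (by fun_prop))

theorem int_ee (n : ℤ) : ∫ α in (0 : ℝ)..1, ee (n * α) = if n = 0 then 1 else 0 := by
  split_ifs with h
  · subst h
    simp [ee_zero]
  · have hn : (2 * Real.pi * n * Complex.I : ℂ) ≠ 0 := by
      have h1 : (n : ℂ) ≠ 0 := by exact_mod_cast h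
      have h2 : (Real.pi : ℂ) ≠ 0 := by exact_mod_cast Real.pi_ne_zero
      exact mul_ne_zero (mul_ne_zero (mul_ne_zero two_ne_zero h2) h1) Complex.I_ne_zero
    have e : ∀ α : ℝ, ee (n * α) = Complex.exp ((2 * Real.pi * n * Complex.I) * α) := by
      intro α
      unfold ee
      congr 1
      push_cast
      ring
    simp_rw [e]
    rw [integral_exp_mul_complex hn]
    have h3 : Complex.exp ((2 * Real.pi * n * Complex.I) * ((1 : ℝ) : ℂ)) = 1 := by
      have := ee_int n
      unfold ee at this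
      rw [← this]
      congr 1
      push_cast
      ring
    rw [h3]
    simp

/-- the square of the norm as a double sum -/
theorem hat_sq (a : ℕ → ℂ) (M : ℕ) (α : ℝ) : ((‖hat a M α‖ ^ 2 : ℝ) : ℂ) =
    ∑ s ∈ range M, ∑ t ∈ range M, a s * (starRingEnd ℂ) (a t) * ee (((s : ℤ) - t : ℤ) * α) := by
  rw [← Complex.normSq_eq_norm_sq, Complex.normSq_eq_conj_mul_self, mul_comm]
  unfold hat
  rw [map_sum, sum_mul_sum]
  refine sum_congr rfl fun s _ => sum_congr rfl fun t _ => ?_
  rw [map_mul, ← ee_neg]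
  have : ee ((((s : ℤ) - t : ℤ) : ℝ) * α) = ee (s * α) * ee (-(t * α)) := by
    rw [← ee_add]; congr 1; push_cast; ring
  rw [this]
  ring

/-- the correlations as Fourier coefficients -/
theorem corr (a : ℕ → ℂ) (M : ℕ) (ha : ∀ s, M ≤ s → a s = 0) (D : ℕ) :
    ∫ α in (0 : ℝ)..1, ((‖hat a M α‖ ^ 2 : ℝ) : ℂ) * ee (D * α) =
      ∑ s ∈ range M, a s * (starRingEnd ℂ) (a (s + D)) := by
  have e : ∀ α : ℝ, ((‖hat a M α‖ ^ 2 : ℝ) : ℂ) * ee (D * α) =
      ∑ s ∈ range M, ∑ t ∈ range M, a s * (starRingEnd ℂ) (a t) * ee (((s : ℤ) - t + D : ℤ) * α) := by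
    intro α
    rw [hat_sq, sum_mul]
    refine sum_congr rfl fun s _ => ?_
    rw [sum_mul]
    refine sum_congr rfl fun t _ => ?_
    rw [mul_assoc, ← ee_add]
    congr 2
    push_cast
    ring
  simp_rw [e]
  rw [intervalIntegral.integral_finsetSum]
  · refine sum_congr rfl fun s _ => ?_
    rw [intervalIntegral.integral_finsetSum]
    · simp_rw [intervalIntegral.integral_const_mul, int_ee]
      by_cases h : s + D < M
      · rw [sum_eq_single (s + D)]
        · rw [if_pos (by push_cast; ring), mul_one]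
        · intro t _ ht
          rw [if_neg (by omega), mul_zero]
        · intro h2
          exact absurd (mem_range.2 h) h2
      · rw [ha (s + D) (by omega), map_zero, mul_zero]
        apply sum_eq_zero
        intro t ht
        rw [mem_range] at ht
        rw [if_neg (by omega), mul_zero]
    · intro t _
      exact (continuous_const.mul (ee_cont.comp (by fun_prop))).intervalIntegrable _ _
  · intro s _
    exact (continuous_finsetSum _ fun t _ => continuous_const.mul (ee_cont.comp (by fun_prop))).intervalIntegrable _ _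

theorem parseval (a : ℕ → ℂ) (M : ℕ) :
    ∫ α in (0 : ℝ)..1, ‖hat a M α‖ ^ 2 = ∑ s ∈ range M, ‖a s‖ ^ 2 := by
  have h := corr (fun s => if s < M then a s else 0) M (fun s hs => by simp [not_lt.2 hs]) 0
  have h1 : ∀ α, hat (fun s => if s < M then a s else 0) M α = hat a M α := by
    intro α
    unfold hat
    refine sum_congr rfl fun s hs => ?_
    simp only [mem_range.1 hs, if_true]
  simp_rw [h1] at h
  have h2 : ∀ α : ℝ, ((‖hat a M α‖ ^ 2 : ℝ) : ℂ) * ee (((0 : ℕ) : ℝ) * α) = ((‖hat a M α‖ ^ 2 : ℝ) : ℂ) := by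
    intro α
    simp [ee_zero]
  simp_rw [h2] at h
  rw [intervalIntegral.integral_ofReal] at h
  have h3 : ∑ s ∈ range M, (if s < M then a s else 0) * (starRingEnd ℂ) (if s + 0 < M then a (s + 0) else 0) =
      ((∑ s ∈ range M, ‖a s‖ ^ 2 : ℝ) : ℂ) := by
    push_cast
    refine sum_congr rfl fun s hs => ?_
    rw [add_zero, if_pos (mem_range.1 hs), Complex.mul_conj, Complex.normSq_eq_norm_sq]
    push_cast
    rfl
  rw [h3] at h
  exact_mod_cast h

/-- Bessel's inequality for real functions -/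
theorem bessel (φ : ℝ → ℝ) (hφ : IntervalIntegrable φ volume 0 1)
    (hφ2 : IntervalIntegrable (fun α => φ α ^ 2) volume 0 1) (S : Finset ℕ) :
    ∑ D ∈ S, ‖∫ α in (0 : ℝ)..1, (φ α : ℂ) * ee (D * α)‖ ^ 2 ≤ ∫ α in (0 : ℝ)..1, φ α ^ 2 := by
  classical
  set b : ℕ → ℂ := fun D => ∫ α in (0 : ℝ)..1, (φ α : ℂ) * ee (D * α) with hb
  set M : ℕ := S.sup id + 1 with hM
  set a : ℕ → ℂ := fun D => if D ∈ S then (starRingEnd ℂ) (b D) else 0 with ha
  have hSM : S ⊆ range M := by
    intro D hD
    rw [mem_range, hM]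
    have : D ≤ S.sup id := le_sup (f := id) hD
    omega
  have hP2 : ∫ α in (0 : ℝ)..1, ‖hat a M α‖ ^ 2 = ∑ D ∈ S, ‖b D‖ ^ 2 := by
    rw [parseval]
    have : ∀ s ∈ range M, s ∉ S → ‖a s‖ ^ 2 = 0 := by
      intro s _ hs
      rw [ha]
      simp [hs]
    rw [← sum_subset hSM this]
    refine sum_congr rfl fun s hs => ?_
    rw [ha]
    simp [hs]
  have hφC : IntervalIntegrable (fun α => (φ α : ℂ)) volume 0 1 := by
    constructor
    · exact hφ.1.ofReal
    · exact hφ.2.ofReal
  have hint : ∀ D : ℕ, IntervalIntegrable (fun α => (φ α : ℂ) * ee (D * α)) volume 0 1 := by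
    intro D
    exact hφC.mul_continuousOn ((ee_cont.comp (by fun_prop)).continuousOn)
  have hPint : IntervalIntegrable (fun α => φ α * (hat a M α).re) volume 0 1 :=
    hφ.mul_continuousOn ((Complex.continuous_re.comp (hat_cont a M)).continuousOn)
  have hcross : ∫ α in (0 : ℝ)..1, φ α * (hat a M α).re = ∑ D ∈ S, ‖b D‖ ^ 2 := by
    have h1 : ∫ α in (0 : ℝ)..1, (φ α : ℂ) * hat a M α = ((∑ D ∈ S, ‖b D‖ ^ 2 : ℝ) : ℂ) := by
      have e : ∀ α : ℝ, (φ α : ℂ) * hat a M α = ∑ s ∈ range M, a s * ((φ α : ℂ) * ee (s * α)) := by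
        intro α
        unfold hat
        rw [mul_sum]
        exact sum_congr rfl fun s _ => by ring
      simp_rw [e]
      rw [intervalIntegral.integral_finsetSum (fun s _ => (hint s).const_mul _)]
      simp_rw [intervalIntegral.integral_const_mul]
      have : ∀ s ∈ range M, s ∉ S → a s * ∫ α in (0 : ℝ)..1, (φ α : ℂ) * ee (s * α) = 0 := by
        intro s _ hs
        rw [ha]
        simp [hs]
      rw [← sum_subset hSM this]
      push_cast
      refine sum_congr rfl fun s hs => ?_
      rw [ha]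
      simp only [hs, if_true]
      change (starRingEnd ℂ) (b s) * b s = _
      rw [mul_comm, Complex.mul_conj, Complex.normSq_eq_norm_sq]
      push_cast
      rfl
    have h2 : (∫ α in (0 : ℝ)..1, (φ α : ℂ) * hat a M α).re = ∫ α in (0 : ℝ)..1, φ α * (hat a M α).re := by
      have hi : IntervalIntegrable (fun α => (φ α : ℂ) * hat a M α) volume 0 1 :=
        hφC.mul_continuousOn ((hat_cont a M).continuousOn)
      have := (Complex.reCLM.intervalIntegral_comp_comm hi)
      simp only [Complex.reCLM_apply] at this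
      rw [← this]
      refine intervalIntegral.integral_congr fun α _ => ?_
      simp
    rw [← h2, h1, Complex.ofReal_re]
  have hnn : 0 ≤ ∫ α in (0 : ℝ)..1, (φ α ^ 2 - 2 * (φ α * (hat a M α).re) + ‖hat a M α‖ ^ 2) := by
    apply intervalIntegral.integral_nonneg (by norm_num)
    intro α _
    have h1 : (hat a M α).re ^ 2 ≤ ‖hat a M α‖ ^ 2 := by
      have := Complex.abs_re_le_norm (hat a M α)
      rw [← sq_abs (hat a M α).re]
      exact pow_le_pow_left₀ (abs_nonneg _) this 2
    nlinarith [sq_nonneg (φ α - (hat a M α).re)]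
  have hPc : IntervalIntegrable (fun α => ‖hat a M α‖ ^ 2) volume 0 1 :=
    ((hat_cont a M).norm.pow 2).intervalIntegrable _ _
  rw [intervalIntegral.integral_add (hφ2.sub (hPint.const_mul 2)) hPc,
    intervalIntegral.integral_sub hφ2 (hPint.const_mul 2), intervalIntegral.integral_const_mul, hP2, hcross] at hnn
  have hfin : ∑ D ∈ S, ‖∫ α in (0 : ℝ)..1, (φ α : ℂ) * ee (D * α)‖ ^ 2 = ∑ D ∈ S, ‖b D‖ ^ 2 := rfl
  rw [hfin]
  linarith

end Pool.Agent.J4H81.PT
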