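import Mathlib

/-!
# Growing prime tuples: the average of the powers of the singular series factor (helper81)
-/

set_option autoImplicit false

namespace Pool.Agent.J4H81.PT

open Finset

/-- the product of `p / (p - 1)` over the prime factors of `D` larger than `w` -/
noncomputable def PP (w D : ℕ) : ℝ := ∏ p ∈ D.primeFactors.filter (fun p => w < p), ((p : ℝ) / (p - 1))

theorem PP_one_le (w D : ℕ) : 1 ≤ PP w D := by
  unfold PP
  have h : ∀ p ∈ D.primeFactors.filter (fun p => w < p), (1 : ℝ) ≤ (p : ℝ) / (p - 1) := by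
    intro p hp
    have hp2 : 2 ≤ p := (Nat.prime_of_mem_primeFactors (mem_filter.1 hp).1).two_le
    have hp2' : (2 : ℝ) ≤ p := by exact_mod_cast hp2
    rw [le_div_iff₀ (by linarith)]
    linarith
  calc (1 : ℝ) = ∏ p ∈ D.primeFactors.filter (fun p => w < p), (1 : ℝ) := by simp
    _ ≤ _ := prod_le_prod (fun _ _ => by norm_num) h

/-- the excess of the `k`-th power of one factor -/
noncomputable def psi (k p : ℕ) : ℝ := ((p : ℝ) / (p - 1)) ^ k - 1

theorem psi_nonneg {k p : ℕ} (hp : 2 ≤ p) : 0 ≤ psi k p := by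
  unfold psi
  have hp2' : (2 : ℝ) ≤ p := by exact_mod_cast hp
  have : (1 : ℝ) ≤ (p : ℝ) / (p - 1) := by
    rw [le_div_iff₀ (by linarith)]; linarith
  have := one_le_pow₀ (n := k) this
  linarith

theorem psi_le {k p : ℕ} (hp : 2 ≤ p) (hk : k < p) : psi k p ≤ 2 * k / (p - 1) := by
  unfold psi
  have hp2' : (2 : ℝ) ≤ p := by exact_mod_cast hp
  have hp1 : (0 : ℝ) < p - 1 := by linarith
  have hk1 : (k : ℝ) ≤ p - 1 := by
    have : (k : ℝ) + 1 ≤ p := by exact_mod_cast hk
    linarith
  set x : ℝ := k / (p - 1) with hx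
  have hx0 : 0 ≤ x := by positivity
  have hx1 : x ≤ 1 := by rw [hx, div_le_one hp1]; exact hk1
  have h1 : ((p : ℝ) / (p - 1)) ^ k ≤ Real.exp x := by
    have h2 : (p : ℝ) / (p - 1) = 1 / (p - 1) + 1 := by field_simp; ring
    have h3 : (p : ℝ) / (p - 1) ≤ Real.exp (1 / (p - 1)) := by
      rw [h2]; exact Real.add_one_le_exp _
    calc ((p : ℝ) / (p - 1)) ^ k ≤ (Real.exp (1 / (p - 1))) ^ k :=
          pow_le_pow_left₀ (by positivity) h3 k
      _ = Real.exp x := by rw [← Real.exp_nat_mul, hx]; congr 1; ring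
  have h4 : Real.exp x ≤ 1 + 2 * x := by
    have h5 := Real.exp_bound' hx0 hx1 (n := 2) (by norm_num)
    simp [Finset.sum_range_succ, Nat.factorial] at h5
    nlinarith
  have h6 : 2 * (k : ℝ) / (p - 1) = 2 * x := by rw [hx]; ring
  rw [h6]
  linarith

/-- the pairs of different integers below `U` congruent modulo `g` -/
theorem pairs_count (U g : ℕ) (hg : 0 < g) (u : ℕ) (hu : u < U) :
    (((range U).filter (fun u' => u ≠ u' ∧ g ∣ Nat.dist u u')).card : ℝ) ≤ (U : ℝ) / g := by
  have hg' : (0 : ℝ) < g := by exact_mod_cast hg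
  have hcong : ∀ u', g ∣ Nat.dist u u' ↔ u' ≡ u [MOD g] := by
    intro u'
    unfold Nat.dist
    rcases le_total u u' with h | h
    · rw [Nat.sub_eq_zero_of_le h, zero_add]
      constructor
      · intro h2
        exact ((Nat.modEq_iff_dvd' h).2 h2).symm
      · intro h2
        exact (Nat.modEq_iff_dvd' h).1 h2.symm
    · rw [Nat.sub_eq_zero_of_le h, add_zero]
      constructor
      · intro h2
        exact (Nat.modEq_iff_dvd' h).2 h2
      · intro h2
        exact (Nat.modEq_iff_dvd' h).1 h2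
  have h1 : ((range U).filter (fun u' => u' ≡ u [MOD g])).card = U / g + if u % g < U % g then 1 else 0 := by
    rw [← Nat.count_modEq_card U hg u, Nat.count_eq_card_filter_range]
  have h2 : (range U).filter (fun u' => u ≠ u' ∧ g ∣ Nat.dist u u') =
      ((range U).filter (fun u' => u' ≡ u [MOD g])).erase u := by
    ext v
    simp only [mem_filter, mem_range, mem_erase, hcong]
    tauto
  have h3 : u ∈ (range U).filter (fun u' => u' ≡ u [MOD g]) := by
    rw [mem_filter]; exact ⟨mem_range.2 hu, rfl⟩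
  rw [h2, card_erase_of_mem h3, h1]
  have h4 : U / g + (if u % g < U % g then 1 else 0) - 1 ≤ U / g := by
    generalize U / g = a
    split_ifs <;> omega
  calc ((U / g + (if u % g < U % g then 1 else 0) - 1 : ℕ) : ℝ) ≤ ((U / g : ℕ) : ℝ) := by exact_mod_cast h4
    _ ≤ _ := Nat.cast_div_le

theorem PP_pow (k w D : ℕ) {U : ℕ} (hD : 0 < D) (hDU : D < U) :
    PP w D ^ k = ∑ S ∈ ((range U).filter (fun p => p.Prime ∧ w < p)).powerset.filter (fun S => (∏ p ∈ S, p) ∣ D),
      ∏ p ∈ S, psi k p := by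
  have h1 : PP w D ^ k = ∏ p ∈ D.primeFactors.filter (fun p => w < p), (1 + psi k p) := by
    unfold PP psi
    rw [← prod_pow]
    exact prod_congr rfl fun p _ => by ring
  rw [h1, prod_one_add]
  apply sum_congr _ (fun _ _ => rfl)
  ext S
  simp only [mem_powerset, mem_filter]
  constructor
  · intro hS
    refine ⟨?_, ?_⟩
    · intro p hp
      have := mem_filter.1 (hS hp)
      rw [mem_filter, mem_range]
      exact ⟨lt_of_le_of_lt (Nat.le_of_mem_primeFactors this.1) hDU, Nat.prime_of_mem_primeFactors this.1, this.2⟩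
    · have h2 : S ⊆ D.primeFactors := fun p hp => (mem_filter.1 (hS hp)).1
      exact (prod_dvd_prod_of_subset _ _ _ h2).trans (Nat.prod_primeFactors_dvd D)
  · rintro ⟨h2, h3⟩ p hp
    have h4 := mem_filter.1 (h2 hp)
    rw [mem_filter, Nat.mem_primeFactors]
    exact ⟨⟨h4.2.1, (dvd_prod_of_mem _ hp).trans h3, hD.ne'⟩, h4.2.2⟩

/-- the average of the powers over the pairs -/
theorem PP_pairs (k w U : ℕ) (hkw : k ≤ w) (hw : 1 ≤ w) :
    ∑ u ∈ range U, ∑ u' ∈ (range U).filter (fun u' => u ≠ u'), PP w (Nat.dist u u') ^ k ≤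
      (U : ℝ) ^ 2 * Real.exp (2 * k / w) := by
  set Ps := (range U).filter (fun p => p.Prime ∧ w < p) with hPs
  have hmem : ∀ p ∈ Ps, 2 ≤ p ∧ w < p ∧ p < U := by
    intro p hp
    rw [hPs, mem_filter, mem_range] at hp
    exact ⟨hp.2.1.two_le, hp.2.2, hp.1⟩
  have hpsi0 : ∀ S ∈ Ps.powerset, 0 ≤ ∏ p ∈ S, psi k p := by
    intro S hS
    rw [mem_powerset] at hS
    exact prod_nonneg fun p hp => psi_nonneg (hmem p (hS hp)).1
  have h1 : ∀ u ∈ range U, ∑ u' ∈ (range U).filter (fun u' => u ≠ u'), PP w (Nat.dist u u') ^ k ≤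
      (U : ℝ) * ∏ p ∈ Ps, (1 + psi k p / p) := by
    intro u hu
    rw [mem_range] at hu
    have e1 : ∀ u' ∈ (range U).filter (fun u' => u ≠ u'), PP w (Nat.dist u u') ^ k =
        ∑ S ∈ Ps.powerset, if (∏ p ∈ S, p) ∣ Nat.dist u u' then ∏ p ∈ S, psi k p else 0 := by
      intro u' hu'
      rw [mem_filter, mem_range] at hu'
      have hlt : Nat.dist u u' < U := by unfold Nat.dist; omega
      rw [PP_pow k w _ (Nat.dist_pos_of_ne hu'.2) hlt, sum_filter]
    rw [sum_congr rfl e1, sum_comm]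
    have e2 : ∀ S ∈ Ps.powerset, (∑ u' ∈ (range U).filter (fun u' => u ≠ u'),
        if (∏ p ∈ S, p) ∣ Nat.dist u u' then ∏ p ∈ S, psi k p else 0) ≤
        (U : ℝ) * ∏ p ∈ S, (psi k p / p) := by
      intro S hS
      have hS' := mem_powerset.1 hS
      rw [← sum_filter, sum_const, nsmul_eq_mul, filter_filter]
      have h2 := pairs_count U (∏ p ∈ S, p) (prod_pos fun p hp => by
        have := (hmem p (hS' hp)).1; omega) u hu
      calc _ ≤ (U : ℝ) / ((∏ p ∈ S, p : ℕ) : ℝ) * ∏ p ∈ S, psi k p :=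
            mul_le_mul_of_nonneg_right h2 (hpsi0 S hS)
        _ = _ := by
            rw [prod_div_distrib]
            push_cast
            ring
    calc _ ≤ ∑ S ∈ Ps.powerset, (U : ℝ) * ∏ p ∈ S, (psi k p / p) := sum_le_sum e2
      _ = _ := by rw [← mul_sum, ← prod_one_add]
  have h2 : ∏ p ∈ Ps, (1 + psi k p / p) ≤ Real.exp (2 * k / w) := by
    have hb : ∀ p ∈ Ps, psi k p / p ≤ 2 * k * (1 / ((p : ℝ) - 1) - 1 / p) := by
      intro p hp
      obtain ⟨h3, h4, _⟩ := hmem p hp
      have h5 := psi_le (k := k) h3 (lt_of_le_of_lt hkw h4)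
      have hp2' : (2 : ℝ) ≤ p := by exact_mod_cast h3
      have hp1 : (0 : ℝ) < p - 1 := by linarith
      have hp0 : (0 : ℝ) < p := by linarith
      calc psi k p / p ≤ (2 * k / (p - 1)) / p := by gcongr
        _ = _ := by field_simp; try ring
    have htel : ∑ p ∈ Ps, (1 / ((p : ℝ) - 1) - 1 / p) ≤ 1 / w := by
      have hsub : Ps ⊆ Ioo w (max U (w + 1)) := by
        intro p hp
        obtain ⟨_, h4, h5⟩ := hmem p hp
        rw [mem_Ioo]
        exact ⟨h4, lt_of_lt_of_le h5 (le_max_left _ _)⟩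
      have hnn : ∀ p ∈ Ioo w (max U (w + 1)), (0 : ℝ) ≤ (1 / ((p : ℝ) - 1) - 1 / p) := by
        intro p hp
        rw [mem_Ioo] at hp
        have : (2 : ℝ) ≤ p := by exact_mod_cast (by omega : 2 ≤ p)
        have h3 : (1 : ℝ) / p ≤ 1 / (p - 1) := one_div_le_one_div_of_le (by linarith) (by linarith)
        linarith
      refine (sum_le_sum_of_subset_of_nonneg hsub (fun p hp _ => hnn p hp)).trans ?_
      have htel2 : ∀ M : ℕ, w + 1 ≤ M → ∑ p ∈ Ioo w M, (1 / ((p : ℝ) - 1) - 1 / p) = 1 / w - 1 / ((M : ℝ) - 1) := by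
        intro M hM
        induction M, hM using Nat.le_induction with
        | base =>
          have : Ioo w (w + 1) = ∅ := by ext; simp
          rw [this]
          simp
        | succ M hM ih =>
          have : Ioo w (M + 1) = insert M (Ioo w M) := by ext; simp; omega
          rw [this, sum_insert (by simp), ih]
          push_cast
          ring
      rw [htel2 _ (le_max_right _ _)]
      have : (0 : ℝ) ≤ 1 / (((max U (w + 1) : ℕ) : ℝ) - 1) := by
        have h3 : ((w + 1 : ℕ) : ℝ) ≤ ((max U (w + 1) : ℕ) : ℝ) := by exact_mod_cast le_max_right _ _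
        push_cast at h3 ⊢
        have : (0 : ℝ) ≤ w := Nat.cast_nonneg _
        apply div_nonneg (by norm_num)
        linarith
      linarith
    calc ∏ p ∈ Ps, (1 + psi k p / p) ≤ ∏ p ∈ Ps, Real.exp (psi k p / p) := by
          apply prod_le_prod
          · intro p hp
            have := psi_nonneg (k := k) (hmem p hp).1
            positivity
          · intro p _
            have := Real.add_one_le_exp (psi k p / p)
            linarith
      _ = Real.exp (∑ p ∈ Ps, psi k p / p) := by rw [Real.exp_sum]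
      _ ≤ Real.exp (2 * k / w) := by
          gcongr
          calc ∑ p ∈ Ps, psi k p / p ≤ ∑ p ∈ Ps, 2 * k * (1 / ((p : ℝ) - 1) - 1 / p) := sum_le_sum hb
            _ = 2 * k * ∑ p ∈ Ps, (1 / ((p : ℝ) - 1) - 1 / p) := by rw [mul_sum]
            _ ≤ 2 * k * (1 / w) := by gcongr
            _ = _ := by ring
  calc _ ≤ ∑ u ∈ range U, (U : ℝ) * ∏ p ∈ Ps, (1 + psi k p / p) := sum_le_sum h1
    _ = (U : ℝ) ^ 2 * ∏ p ∈ Ps, (1 + psi k p / p) := by rw [sum_const, card_range, nsmul_eq_mul]; ring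
    _ ≤ _ := by gcongr

end Pool.Agent.J4H81.PT
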