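import Pool.Agent.J4H81.PT.CL
import Pool.Agent.J4H81.PT.PD
import Pool.Agent.H336R2.V.Raman
import Pool.Agent.N728.SP.GDW

/-!
# Growing prime tuples: Ramanujan sums and the truncated singular series (helper81)
-/

set_option autoImplicit false

namespace Pool.Agent.J4H81.PT

open Finset
open Pool.Agent.H807R2.Dav (ee norm_ee ee_add ee_zero ee_int ee_eq dd dd_le)
open Pool.Agent.N728.SP.GDW (sum_div' tot1 cast_eq)

/-- the reduced residues -/
def Fr (q : ℕ) : Finset ℕ := (range q).filter (fun b => b.Coprime q)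

/-- the Ramanujan sum of a squarefree integer -/
noncomputable def cR (q : ℕ) (n : ℤ) : ℝ := ∏ p ∈ q.primeFactors, (if (p : ℤ) ∣ n then (p : ℝ) - 1 else -1)

/-- `μ(q) c_q(n) / φ(q)` -/
noncomputable def hq (q : ℕ) (n : ℤ) : ℝ := ∏ p ∈ q.primeFactors, (if (p : ℤ) ∣ n then -1 else 1 / ((p : ℝ) - 1))

theorem card_Fr {q : ℕ} : (Fr q).card = Nat.totient q := by
  unfold Fr
  rw [Nat.totient_eq_card_coprime]
  congr 1
  ext b
  simp only [mem_filter]
  rw [Nat.coprime_comm]

theorem mu_prod {q : ℕ} (hq : Squarefree q) :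
    ((ArithmeticFunction.moebius q : ℤ) : ℝ) = ∏ p ∈ q.primeFactors, (-1 : ℝ) :=
  Pool.Agent.N525.SP.H1.mu hq

theorem dvd_sqfree {q : ℕ} (hq : Squarefree q) (n : ℤ) : (q : ℤ) ∣ n ↔ ∀ p ∈ q.primeFactors, (p : ℤ) ∣ n := by
  constructor
  · intro h p hp
    exact (Int.natCast_dvd_natCast.2 (Nat.dvd_of_mem_primeFactors hp)).trans h
  · intro h
    have h2 : ∏ p ∈ q.primeFactors, p ∣ n.natAbs := by
      apply Finset.prod_primes_dvd
      · intro p hp
        exact (Nat.prime_of_mem_primeFactors hp).prime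
      · intro p hp
        exact Int.natCast_dvd.1 (h p hp)
    rw [Nat.prod_primeFactors_of_squarefree hq] at h2
    exact Int.natCast_dvd.2 h2

theorem ex_ee (x : ℝ) : H343.ex x = ee x := by
  unfold H343.ex ee
  congr 1
  push_cast
  ring

theorem raman_cR {q : ℕ} (hq : Squarefree q) (n : ℤ) :
    ∑ b ∈ Fr q, ee ((b : ℝ) * n / q) = ((cR q n : ℝ) : ℂ) := by
  have hq0 : 1 ≤ q := Nat.one_le_iff_ne_zero.2 hq.ne_zero
  have h := H336V.RamanAux.raman_eq q hq0 n
  simp_rw [ex_ee] at h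
  unfold Fr
  rw [h]
  -- the involution of the divisors
  rw [← Nat.sum_div_divisors q (fun d => ((ArithmeticFunction.moebius d : ℤ) : ℂ) *
    (if ((q / d : ℕ) : ℤ) ∣ n then ((q / d : ℕ) : ℂ) else 0))]
  have h1 : ∀ e ∈ q.divisors, ((ArithmeticFunction.moebius (q / e) : ℤ) : ℂ) *
      (if ((q / (q / e) : ℕ) : ℤ) ∣ n then ((q / (q / e) : ℕ) : ℂ) else 0) =
      (((∏ p ∈ q.primeFactors, (-1 : ℝ)) * ∏ p ∈ e.primeFactors, (if (p : ℤ) ∣ n then -(p : ℝ) else 0) : ℝ) : ℂ) := by
    intro e he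
    have heq := Nat.dvd_of_mem_divisors he
    have hes := hq.squarefree_of_dvd heq
    have hqe := hq.squarefree_of_dvd (Nat.div_dvd_of_dvd heq)
    rw [Nat.div_div_self heq hq.ne_zero]
    have e1 : ((ArithmeticFunction.moebius (q / e) : ℤ) : ℝ) =
        (∏ p ∈ q.primeFactors, (-1 : ℝ)) * ∏ p ∈ e.primeFactors, (-1 : ℝ) := by
      rw [← mu_prod hq, ← mu_prod hes]
      have hco : (q / e).Coprime e := by
        have := Nat.squarefree_mul_iff.1 (by rw [Nat.div_mul_cancel heq]; exact hq : Squarefree (q / e * e))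
        exact this.1
      have h3 := ArithmeticFunction.isMultiplicative_moebius.map_mul_of_coprime hco
      rw [Nat.div_mul_cancel heq] at h3
      rw [h3]
      push_cast
      have h4 : ((ArithmeticFunction.moebius e : ℤ) : ℝ) * ((ArithmeticFunction.moebius e : ℤ) : ℝ) = 1 := by
        have := ArithmeticFunction.moebius_sq_eq_one_of_squarefree hes
        rw [← sq]
        exact_mod_cast this
      rw [mul_assoc, h4, mul_one]
    have e2 : (if ((e : ℕ) : ℤ) ∣ n then ((e : ℕ) : ℝ) else 0) =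
        ∏ p ∈ e.primeFactors, (if (p : ℤ) ∣ n then (p : ℝ) else 0) := by
      split_ifs with hd
      · rw [cast_eq hes]
        refine prod_congr rfl fun p hp => ?_
        rw [if_pos ((dvd_sqfree hes n).1 hd p hp)]
      · rw [dvd_sqfree hes] at hd
        push Not at hd
        obtain ⟨p, hp, hpn⟩ := hd
        exact (prod_eq_zero hp (by rw [if_neg hpn])).symm
    have e3 : ((ArithmeticFunction.moebius (q / e) : ℤ) : ℂ) * (if ((e : ℕ) : ℤ) ∣ n then ((e : ℕ) : ℂ) else 0) =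
        ((((ArithmeticFunction.moebius (q / e) : ℤ) : ℝ) * (if ((e : ℕ) : ℤ) ∣ n then ((e : ℕ) : ℝ) else 0) : ℝ) : ℂ) := by
      push_cast
      split_ifs <;> simp
    rw [e3, e1, e2, mul_assoc, ← prod_mul_distrib]
    congr 2
    refine prod_congr rfl fun p _ => ?_
    split_ifs <;> ring
  rw [sum_congr rfl h1, ← Complex.ofReal_sum, ← mul_sum, sum_div' _ hq, ← prod_mul_distrib]
  congr 1
  unfold cR
  refine prod_congr rfl fun p _ => ?_
  split_ifs <;> ring

theorem hq_eq {q : ℕ} (hq' : Squarefree q) (n : ℤ) :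
    hq q n = ((ArithmeticFunction.moebius q : ℤ) : ℝ) / (Nat.totient q : ℝ) * cR q n := by
  rw [mu_prod hq', tot1 hq', ← prod_div_distrib]
  unfold hq cR
  rw [← prod_mul_distrib]
  refine prod_congr rfl fun p hp => ?_
  have hp1 : (1 : ℝ) < p := by exact_mod_cast (Nat.prime_of_mem_primeFactors hp).one_lt
  have hp2 : (p : ℝ) - 1 ≠ 0 := by linarith
  split_ifs <;> field_simp

/-- the Fourier expansion of `hq` -/
theorem hq_fourier {q : ℕ} (hq' : Squarefree q) (n : ℤ) :
    ((hq q n : ℝ) : ℂ) = ((((ArithmeticFunction.moebius q : ℤ) : ℝ) / (Nat.totient q : ℝ) : ℝ) : ℂ) *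
      ∑ b ∈ Fr q, ee ((b : ℝ) * n / q) := by
  rw [hq_eq hq', raman_cR hq']
  push_cast
  ring

theorem hq_add {q : ℕ} (n : ℤ) (m : ℤ) (h : ∀ p ∈ q.primeFactors, (p : ℤ) ∣ m) : hq q (n + m) = hq q n := by
  unfold hq
  refine prod_congr rfl fun p hp => ?_
  have : (p : ℤ) ∣ n + m ↔ (p : ℤ) ∣ n := dvd_add_left (h p hp)
  simp only [this]

theorem abs_hq_le {q : ℕ} (n : ℤ) : |hq q n| ≤ 1 := by
  unfold hq
  rw [abs_prod]
  apply prod_le_one
  · intro p _; exact abs_nonneg _
  · intro p hp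
    have hp1 : (2 : ℝ) ≤ p := by exact_mod_cast (Nat.prime_of_mem_primeFactors hp).two_le
    split_ifs
    · simp
    · rw [abs_of_nonneg (by apply div_nonneg <;> linarith)]
      rw [div_le_one (by linarith)]
      linarith

end Pool.Agent.J4H81.PT
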