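import Pool.Agent.J4H81.PT.GMa

/-!
# Growing prime tuples: correlations of the model (helper81)
-/

set_option autoImplicit false

namespace Pool.Agent.J4H81.PT

open Finset
open Pool.Agent.H807R2.Dav (ee norm_ee ee_add ee_zero ee_int ee_eq dd dd_le dd_nonneg dd_ge dd_add_int ee_add_int)
open Pool.Agent.N728.SP.GDW (sum_div' tot1 cast_eq)

/-- total variation -/
noncomputable def TV (v : ℕ → ℝ) (M : ℕ) : ℝ := |v 0| + ∑ s ∈ range M, |v (s + 1) - v s|

theorem TV_nonneg (v : ℕ → ℝ) (M : ℕ) : 0 ≤ TV v M :=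
  add_nonneg (abs_nonneg _) (sum_nonneg fun _ _ => abs_nonneg _)

/-- Abel summation against an exponential -/
theorem abel_ee (v : ℕ → ℝ) (M : ℕ) (hv : v M = 0) (θ : ℝ) :
    dd θ * ‖∑ s ∈ range M, ((v s : ℝ) : ℂ) * ee (s * θ)‖ ≤ TV v M := by
  have e : (1 - ee θ) * ∑ s ∈ range M, ((v s : ℝ) : ℂ) * ee (s * θ) =
      ((v 0 : ℝ) : ℂ) + ∑ s ∈ range M, (((v (s + 1) - v s : ℝ)) : ℂ) * ee ((s + 1 : ℕ) * θ) := by
    have h1 : ∑ s ∈ range (M + 1), ((v s : ℝ) : ℂ) * ee (s * θ) = ∑ s ∈ range M, ((v s : ℝ) : ℂ) * ee (s * θ) := by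
      rw [sum_range_succ, hv]; simp
    have h2 : ∑ s ∈ range (M + 1), ((v s : ℝ) : ℂ) * ee (s * θ) =
        ∑ s ∈ range M, ((v (s + 1) : ℝ) : ℂ) * ee ((s + 1 : ℕ) * θ) + ((v 0 : ℝ) : ℂ) := by
      rw [sum_range_succ']
      simp [ee_zero]
    rw [sub_mul, one_mul]
    nth_rewrite 1 [← h1]
    rw [h2, mul_sum]
    have h3 : ∀ s ∈ range M, ee θ * (((v s : ℝ) : ℂ) * ee (s * θ)) = ((v s : ℝ) : ℂ) * ee ((s + 1 : ℕ) * θ) := by
      intro s _
      have : ee (((s + 1 : ℕ) : ℝ) * θ) = ee θ * ee (s * θ) := by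
        rw [← ee_add]; congr 1; push_cast; ring
      rw [this]; ring
    rw [sum_congr rfl h3]
    have h4 : ∀ s ∈ range M, (((v (s + 1) - v s : ℝ)) : ℂ) * ee ((s + 1 : ℕ) * θ) =
        ((v (s + 1) : ℝ) : ℂ) * ee ((s + 1 : ℕ) * θ) - ((v s : ℝ) : ℂ) * ee ((s + 1 : ℕ) * θ) := by
      intro s _; push_cast; ring
    rw [sum_congr rfl h4, sum_sub_distrib]
    ring
  unfold dd
  rw [← norm_mul, e]
  unfold TV
  refine (norm_add_le _ _).trans (add_le_add ?_ ?_)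
  · rw [Complex.norm_real, Real.norm_eq_abs]
  · refine (norm_sum_le _ _).trans (sum_le_sum fun s _ => ?_)
    rw [norm_mul, norm_ee, mul_one, Complex.norm_real, Real.norm_eq_abs]

/-- fractions stay away from the integers -/
theorem dd_frac {c : ℤ} {q : ℕ} (hq : 0 < q) (h : ¬ (q : ℤ) ∣ c) : 4 / (q : ℝ) ≤ dd ((c : ℝ) / q) := by
  have hq' : (0 : ℝ) < q := by exact_mod_cast hq
  have hqz : (q : ℤ) ≠ 0 := by exact_mod_cast hq.ne'
  set r : ℤ := c % q with hr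
  have hr0 : 0 ≤ r := Int.emod_nonneg c hqz
  have hr1 : r < q := Int.emod_lt_of_pos c (by exact_mod_cast hq)
  have hr2 : r ≠ 0 := fun h2 => h (Int.dvd_of_emod_eq_zero h2)
  have hr3 : 1 ≤ r := by omega
  have e : (c : ℝ) / q = (r : ℝ) / q + ((c / q : ℤ) : ℝ) := by
    have h1 : c = r + q * (c / q) := (Int.emod_add_mul_ediv c q).symm
    have h2 : (c : ℝ) = (r : ℝ) + q * ((c / q : ℤ) : ℝ) := by exact_mod_cast h1
    field_simp
    linarith
  rw [e, dd_add_int]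
  have hr1' : (r : ℝ) + 1 ≤ q := by exact_mod_cast (by omega : r + 1 ≤ q)
  have hr3' : (1 : ℝ) ≤ r := by exact_mod_cast hr3
  have h1 := dd_ge (t := (r : ℝ) / q) (by positivity) (by rw [div_le_one hq']; linarith)
  refine le_trans ?_ h1
  rw [div_eq_mul_one_div]
  apply mul_le_mul_of_nonneg_left _ (by norm_num)
  apply le_min
  · gcongr
  · rw [le_sub_iff_add_le, ← add_div, div_le_one hq']
    linarith

/-- the moduli of the model -/
def QQ (W Q : ℕ) : Finset ℕ := (Icc 1 Q).filter (fun q => Squarefree q ∧ q.Coprime W)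

/-- the model -/
noncomputable def GG (W Q : ℕ) (n : ℤ) : ℝ := ∑ q ∈ QQ W Q, hq q n

theorem mem_QQ {W Q q : ℕ} : q ∈ QQ W Q ↔ (1 ≤ q ∧ q ≤ Q) ∧ Squarefree q ∧ q.Coprime W := by
  unfold QQ
  rw [mem_filter, mem_Icc]

/-- the coefficient -/
noncomputable def cc (q : ℕ) : ℝ := ((ArithmeticFunction.moebius q : ℤ) : ℝ) / (Nat.totient q : ℝ)

theorem abs_cc {q : ℕ} (hq' : Squarefree q) : |cc q| = 1 / (Nat.totient q : ℝ) := by
  unfold cc
  rw [abs_div, Nat.abs_cast]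
  have h : |((ArithmeticFunction.moebius q : ℤ) : ℝ)| = 1 := by
    have := ArithmeticFunction.moebius_sq_eq_one_of_squarefree hq'
    have h2 : ((ArithmeticFunction.moebius q : ℤ) : ℝ) ^ 2 = 1 := by exact_mod_cast this
    rw [← abs_one, ← sq_eq_sq_iff_abs_eq_abs, h2, one_pow]
  rw [h]

theorem cc_card {q : ℕ} (hq' : Squarefree q) : |cc q| * (Fr q).card = 1 := by
  rw [abs_cc hq', card_Fr]
  have : (0 : ℝ) < Nat.totient q := by
    exact_mod_cast Nat.totient_pos.2 (Nat.pos_of_ne_zero hq'.ne_zero)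
  field_simp

theorem hq_four {q : ℕ} (hq' : Squarefree q) (n : ℤ) :
    ((hq q n : ℝ) : ℂ) = ((cc q : ℝ) : ℂ) * ∑ b ∈ Fr q, ee ((b : ℝ) * n / q) := hq_fourier hq' n

theorem mem_Fr {q b : ℕ} : b ∈ Fr q ↔ b < q ∧ b.Coprime q := by
  unfold Fr
  rw [mem_filter, mem_range]

theorem sum_cast_le {ι : Type*} (S : Finset ι) (f : ι → ℂ) (g : ι → ℝ) (h : ∀ i ∈ S, ‖f i‖ ≤ g i) :
    ‖∑ i ∈ S, f i‖ ≤ ∑ i ∈ S, g i := (norm_sum_le _ _).trans (sum_le_sum h)

/-- first moment of the model in a class -/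
theorem model_sum {W Q r T : ℕ} (hQ : 1 ≤ Q) (v : ℕ → ℝ) (hv : v T = 0) :
    |∑ s ∈ range T, v s * GG W Q ((r + W * s : ℕ) : ℤ) - ∑ s ∈ range T, v s| ≤ (Q : ℝ) ^ 2 * TV v T := by
  have hTV := TV_nonneg v T
  -- one modulus
  have key : ∀ q ∈ QQ W Q, |∑ s ∈ range T, v s * hq q ((r + W * s : ℕ) : ℤ) - (if q = 1 then ∑ s ∈ range T, v s else 0)| ≤
      Q * TV v T := by
    intro q hqm
    obtain ⟨⟨hq1, hqQ⟩, hqs, hqW⟩ := mem_QQ.1 hqm
    have hqQ' : (q : ℝ) ≤ Q := by exact_mod_cast hqQ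
    have hq0 : (0 : ℝ) < q := by exact_mod_cast hq1
    split_ifs with h1
    · subst h1
      have : ∀ n : ℤ, hq 1 n = 1 := by intro n; unfold hq; simp
      simp only [this, mul_one, sub_self, abs_zero]
      positivity
    · rw [sub_zero]
      have e : ((∑ s ∈ range T, v s * hq q ((r + W * s : ℕ) : ℤ) : ℝ) : ℂ) =
          ((cc q : ℝ) : ℂ) * ∑ b ∈ Fr q, ee ((b : ℝ) * r / q) *
            ∑ s ∈ range T, ((v s : ℝ) : ℂ) * ee (s * (((b * W : ℕ) : ℤ) / q : ℝ)) := by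
        push_cast
        simp_rw [hq_four hqs]
        simp_rw [mul_sum]
        rw [sum_comm]
        refine sum_congr rfl fun b _ => sum_congr rfl fun s _ => ?_
        have : ee ((b : ℝ) * (((r + W * s : ℕ) : ℤ) : ℝ) / q) = ee ((b : ℝ) * r / q) * ee (s * ((b : ℝ) * W / q)) := by
          rw [← ee_add]; congr 1; push_cast; ring
        push_cast at this ⊢
        rw [this]
        ring
      rw [← Real.norm_eq_abs, ← Complex.norm_real, e, norm_mul, Complex.norm_real, Real.norm_eq_abs]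
      have h2 : ‖∑ b ∈ Fr q, ee ((b : ℝ) * r / q) *
            ∑ s ∈ range T, ((v s : ℝ) : ℂ) * ee (s * (((b * W : ℕ) : ℤ) / q : ℝ))‖ ≤ ∑ b ∈ Fr q, Q * TV v T := by
        apply sum_cast_le
        intro b hb
        rw [norm_mul, norm_ee, one_mul]
        have hb2 := mem_Fr.1 hb
        have hnd : ¬ (q : ℤ) ∣ ((b * W : ℕ) : ℤ) := by
          rw [Int.natCast_dvd_natCast]
          intro hd
          have h3 : q ∣ b := hqW.dvd_of_dvd_mul_right hd
          have h4 := Nat.dvd_gcd h3 (dvd_refl q)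
          rw [hb2.2.gcd_eq_one] at h4
          exact h1 (Nat.dvd_one.1 h4)
        have h5 := dd_frac hq1 hnd
        have h6 := abel_ee v T hv (((b * W : ℕ) : ℤ) / q : ℝ)
        have h7 : 4 / (q : ℝ) * ‖∑ s ∈ range T, ((v s : ℝ) : ℂ) * ee (s * (((b * W : ℕ) : ℤ) / q : ℝ))‖ ≤ TV v T :=
          (mul_le_mul_of_nonneg_right h5 (norm_nonneg _)).trans h6
        have h8 : ‖∑ s ∈ range T, ((v s : ℝ) : ℂ) * ee (s * (((b * W : ℕ) : ℤ) / q : ℝ))‖ ≤ q * TV v T := by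
          rw [div_mul_eq_mul_div, div_le_iff₀ hq0] at h7
          nlinarith [norm_nonneg (∑ s ∈ range T, ((v s : ℝ) : ℂ) * ee (s * (((b * W : ℕ) : ℤ) / q : ℝ)))]
        exact h8.trans (mul_le_mul_of_nonneg_right hqQ' hTV)
      calc _ ≤ |cc q| * ∑ b ∈ Fr q, Q * TV v T := mul_le_mul_of_nonneg_left h2 (abs_nonneg _)
        _ = (|cc q| * (Fr q).card) * (Q * TV v T) := by rw [sum_const, nsmul_eq_mul]; ring
        _ = _ := by rw [cc_card hqs, one_mul]
  have h1mem : 1 ∈ QQ W Q := mem_QQ.2 ⟨⟨le_rfl, hQ⟩, squarefree_one, Nat.coprime_one_left W⟩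
  have e2 : ∑ s ∈ range T, v s * GG W Q ((r + W * s : ℕ) : ℤ) - ∑ s ∈ range T, v s =
      ∑ q ∈ QQ W Q, (∑ s ∈ range T, v s * hq q ((r + W * s : ℕ) : ℤ) - (if q = 1 then ∑ s ∈ range T, v s else 0)) := by
    rw [sum_sub_distrib, sum_ite_eq' (QQ W Q) 1, if_pos h1mem]
    congr 1
    unfold GG
    simp_rw [mul_sum]
    rw [sum_comm]
  rw [e2]
  refine (abs_sum_le_sum_abs _ _).trans ?_
  calc _ ≤ ∑ q ∈ QQ W Q, Q * TV v T := sum_le_sum key
    _ = (QQ W Q).card * (Q * TV v T) := by rw [sum_const, nsmul_eq_mul]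
    _ ≤ Q * (Q * TV v T) := by
        apply mul_le_mul_of_nonneg_right _ (by positivity)
        have : (QQ W Q).card ≤ Q := by
          unfold QQ
          refine (card_filter_le _ _).trans ?_
          rw [Nat.card_Icc]; omega
        exact_mod_cast this
    _ = _ := by ring

end Pool.Agent.J4H81.PT
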