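import Pool.Agent.J4H81.PT.GMb

/-!
# Growing prime tuples: pair correlations of the model (helper81)
-/

set_option autoImplicit false

namespace Pool.Agent.J4H81.PT

open Finset
open Pool.Agent.H807R2.Dav (ee norm_ee ee_add ee_zero ee_int ee_eq dd dd_le dd_nonneg dd_ge dd_add_int ee_add_int)
open Pool.Agent.N728.SP.GDW (sum_div' tot1 cast_eq)

/-- the integrality condition -/
theorem int_cond {W q q' b b' : ℕ} (hq : 0 < q) (hq' : 0 < q') (hW : q.Coprime W) (hW' : q'.Coprime W)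
    (hb : b.Coprime q) (hb' : b'.Coprime q') (h : q * q' ∣ (b * q' + b' * q) * W) : q = q' ∧ q ∣ b + b' := by
  have h1 : q * q' ∣ b * q' + b' * q := (Nat.Coprime.mul_left hW hW').dvd_of_dvd_mul_right h
  have h2 : q ∣ q' := by
    have h3 : q ∣ b * q' + b' * q := (dvd_mul_right q q').trans h1
    have h4 : q ∣ b * q' := (Nat.dvd_add_left (dvd_mul_left q b')).1 h3
    exact (hb.symm).dvd_of_dvd_mul_left h4
  have h2' : q' ∣ q := by
    have h3 : q' ∣ b * q' + b' * q := (dvd_mul_left q' q).trans h1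
    have h4 : q' ∣ b' * q := (Nat.dvd_add_right (dvd_mul_left q' b)).1 h3
    exact (hb'.symm).dvd_of_dvd_mul_left h4
  have h5 : q = q' := Nat.dvd_antisymm h2 h2'
  subst h5
  refine ⟨rfl, ?_⟩
  rw [← add_mul] at h1
  exact Nat.dvd_of_mul_dvd_mul_right hq h1

/-- the phase sum of a pair of fractions -/
noncomputable def AP (v : ℕ → ℝ) (W r T m q q' b b' : ℕ) : ℂ :=
  ee ((b' : ℝ) * m / q') * ee (((b : ℝ) / q + (b' : ℝ) / q') * r) *
    ∑ s ∈ range T, ((v s : ℝ) : ℂ) * ee (s * ((((b * q' + b' * q) * W : ℕ) : ℤ) / ((q * q' : ℕ) : ℝ) : ℝ))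

theorem AP_small {v : ℕ → ℝ} {W r T m q q' b b' Q : ℕ} (hv : v T = 0) (hq : 0 < q) (hq' : 0 < q') (hqQ : q ≤ Q)
    (hqQ' : q' ≤ Q) (h : ¬ q * q' ∣ (b * q' + b' * q) * W) : ‖AP v W r T m q q' b b'‖ ≤ Q ^ 2 * TV v T := by
  have hTV := TV_nonneg v T
  unfold AP
  rw [norm_mul, norm_mul, norm_ee, norm_ee, one_mul, one_mul]
  have h5 := dd_frac (c := (((b * q' + b' * q) * W : ℕ) : ℤ)) (q := q * q') (Nat.mul_pos hq hq')
    (by rw [Int.natCast_dvd_natCast]; exact h)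
  have h6 := abel_ee v T hv ((((b * q' + b' * q) * W : ℕ) : ℤ) / ((q * q' : ℕ) : ℝ) : ℝ)
  have h7 := (mul_le_mul_of_nonneg_right h5 (norm_nonneg _)).trans h6
  have hqq : (0 : ℝ) < ((q * q' : ℕ) : ℝ) := by exact_mod_cast Nat.mul_pos hq hq'
  rw [div_mul_eq_mul_div, div_le_iff₀ hqq] at h7
  have h8 : ((q * q' : ℕ) : ℝ) ≤ Q ^ 2 := by
    have : q * q' ≤ Q ^ 2 := by rw [sq]; exact Nat.mul_le_mul hqQ hqQ'
    exact_mod_cast this
  have h9 : TV v T * ((q * q' : ℕ) : ℝ) ≤ Q ^ 2 * TV v T := by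
    rw [mul_comm]; exact mul_le_mul_of_nonneg_right h8 hTV
  linarith [norm_nonneg (∑ s ∈ range T, ((v s : ℝ) : ℂ) * ee (s * ((((b * q' + b' * q) * W : ℕ) : ℤ) / ((q * q' : ℕ) : ℝ) : ℝ)))]

theorem AP_main {v : ℕ → ℝ} {W r T m q b b' : ℕ} (hq : 0 < q) (h : q ∣ b + b') :
    AP v W r T m q q b b' = ee ((b' : ℝ) * m / q) * ((∑ s ∈ range T, v s : ℝ) : ℂ) := by
  have hq0 : (q : ℝ) ≠ 0 := by exact_mod_cast hq.ne'
  obtain ⟨c, hc⟩ := h
  unfold AP
  have hc' : (b : ℝ) + b' = q * c := by exact_mod_cast hc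
  have e1 : ((b : ℝ) / q + (b' : ℝ) / q) * r = ((c * r : ℕ) : ℤ) := by
    rw [← add_div, hc']
    push_cast
    field_simp
  have e2 : ∀ s : ℕ, (s : ℝ) * ((((b * q + b' * q) * W : ℕ) : ℤ) / ((q * q : ℕ) : ℝ) : ℝ) = ((s * (c * W) : ℕ) : ℤ) := by
    intro s
    push_cast
    rw [← add_mul, hc']
    field_simp
  rw [e1, ee_int, mul_one]
  simp_rw [e2, ee_int, mul_one]
  push_cast
  rfl

/-- expansion of one pair of moduli -/
theorem pair_expand {W r T m q q' : ℕ} (v : ℕ → ℝ) (hs : Squarefree q) (hs' : Squarefree q') :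
    ((∑ s ∈ range T, v s * (hq q ((r + W * s : ℕ) : ℤ) * hq q' ((r + W * s + m : ℕ) : ℤ)) : ℝ) : ℂ) =
      ((cc q * cc q' : ℝ) : ℂ) * ∑ b' ∈ Fr q', ∑ b ∈ Fr q, AP v W r T m q q' b b' := by
  have hq0 : (q : ℝ) ≠ 0 := by exact_mod_cast hs.ne_zero
  have hq0' : (q' : ℝ) ≠ 0 := by exact_mod_cast hs'.ne_zero
  push_cast
  simp_rw [hq_four hs, hq_four hs']
  have e1 : ∀ s ∈ range T, ((v s : ℝ) : ℂ) * (((cc q : ℝ) : ℂ) * (∑ b ∈ Fr q, ee ((b : ℝ) * ((r + W * s : ℕ) : ℤ) / q)) *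
      (((cc q' : ℝ) : ℂ) * ∑ b' ∈ Fr q', ee ((b' : ℝ) * ((r + W * s + m : ℕ) : ℤ) / q'))) =
      ((cc q : ℝ) : ℂ) * ((cc q' : ℝ) : ℂ) * ∑ b' ∈ Fr q', ∑ b ∈ Fr q, (ee ((b' : ℝ) * m / q') * ee (((b : ℝ) / q + (b' : ℝ) / q') * r)) *
        (((v s : ℝ) : ℂ) * ee (s * ((((b * q' + b' * q) * W : ℕ) : ℤ) / ((q * q' : ℕ) : ℝ) : ℝ))) := by
    intro s _
    have h1 : ∀ b' b : ℕ, (ee ((b' : ℝ) * m / q') * ee (((b : ℝ) / q + (b' : ℝ) / q') * r)) *
        (((v s : ℝ) : ℂ) * ee (s * ((((b * q' + b' * q) * W : ℕ) : ℤ) / ((q * q' : ℕ) : ℝ) : ℝ))) =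
        ((v s : ℝ) : ℂ) * (ee ((b : ℝ) * ((r + W * s : ℕ) : ℤ) / q) * ee ((b' : ℝ) * ((r + W * s + m : ℕ) : ℤ) / q')) := by
      intro b' b
      have h2 : ee ((b' : ℝ) * m / q') * ee (((b : ℝ) / q + (b' : ℝ) / q') * r) *
          ee (s * ((((b * q' + b' * q) * W : ℕ) : ℤ) / ((q * q' : ℕ) : ℝ) : ℝ)) =
          ee ((b : ℝ) * ((r + W * s : ℕ) : ℤ) / q) * ee ((b' : ℝ) * ((r + W * s + m : ℕ) : ℤ) / q') := by
        rw [← ee_add, ← ee_add, ← ee_add]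
        congr 1
        push_cast
        field_simp
        ring
      rw [← h2]
      ring
    simp_rw [h1]
    rw [← mul_assoc]
    simp_rw [← mul_sum]
    have h3 : ∑ b' ∈ Fr q', ∑ b ∈ Fr q, (ee ((b : ℝ) * ((r + W * s : ℕ) : ℤ) / q) * ee ((b' : ℝ) * ((r + W * s + m : ℕ) : ℤ) / q')) =
        (∑ b ∈ Fr q, ee ((b : ℝ) * ((r + W * s : ℕ) : ℤ) / q)) * (∑ b' ∈ Fr q', ee ((b' : ℝ) * ((r + W * s + m : ℕ) : ℤ) / q')) := by
      rw [sum_comm, sum_mul_sum]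
    rw [h3]
    ring
  push_cast at e1 ⊢
  rw [sum_congr rfl e1, ← mul_sum]
  congr 1
  rw [sum_comm]
  refine sum_congr rfl fun b' _ => ?_
  rw [sum_comm]
  refine sum_congr rfl fun b _ => ?_
  unfold AP
  rw [← mul_sum]
  push_cast
  rfl

theorem pair_bound {W Q r T m q q' : ℕ} (v : ℕ → ℝ) (hv : v T = 0) (hv0 : ∀ s, 0 ≤ v s) (hqm : q ∈ QQ W Q) (hqm' : q' ∈ QQ W Q) :
    ∑ s ∈ range T, v s * (hq q ((r + W * s : ℕ) : ℤ) * hq q' ((r + W * s + m : ℕ) : ℤ)) ≤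
      (if q = q' then (∑ s ∈ range T, v s) * (|cR q m| / (Nat.totient q : ℝ) ^ 2) else 0) + Q ^ 2 * TV v T := by
  have hTV := TV_nonneg v T
  obtain ⟨⟨hq1, hqQ⟩, hs, hW⟩ := mem_QQ.1 hqm
  obtain ⟨⟨hq1', hqQ'⟩, hs', hW'⟩ := mem_QQ.1 hqm'
  have hre : ∀ x : ℝ, x = ((x : ℂ)).re := fun x => (Complex.ofReal_re x).symm
  by_cases hqq : q = q'
  · subst hqq
    rw [if_pos rfl]
    set V : ℝ := ∑ s ∈ range T, v s with hV
    have hV0 : 0 ≤ V := sum_nonneg fun s _ => hv0 s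
    have e := pair_expand (W := W) (r := r) (T := T) (m := m) v hs hs
    -- split off the main terms
    have hsplit : ∀ b' ∈ Fr q, ‖∑ b ∈ Fr q, AP v W r T m q q b b' - ee ((b' : ℝ) * m / q) * ((V : ℝ) : ℂ)‖ ≤
        (Fr q).card * (Q ^ 2 * TV v T) := by
      intro b' hb'
      have hb2 := mem_Fr.1 hb'
      set b0 : ℕ := (q - b') % q with hb0
      have hb0m : b0 ∈ Fr q := by
        rw [mem_Fr]
        refine ⟨Nat.mod_lt _ hq1, ?_⟩
        rw [hb0, Nat.Coprime, (Nat.mod_modEq (q - b') q).gcd_eq, Nat.gcd_comm, Nat.gcd_self_sub_right hb2.1.le, Nat.gcd_comm]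
        exact hb2.2
      have hdvd : q ∣ b0 + b' := by
        rw [hb0, Nat.dvd_iff_mod_eq_zero, Nat.add_mod, Nat.mod_mod, ← Nat.add_mod, Nat.sub_add_cancel hb2.1.le, Nat.mod_self]
      rw [← add_sum_erase _ _ hb0m, AP_main hq1 hdvd, add_sub_cancel_left]
      have h1 : ‖∑ b ∈ (Fr q).erase b0, AP v W r T m q q b b'‖ ≤ ∑ b ∈ (Fr q).erase b0, (Q : ℝ) ^ 2 * TV v T := by
        apply sum_cast_le
        intro b hb
        rw [mem_erase] at hb
        have hb3 := mem_Fr.1 hb.2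
        apply AP_small hv hq1 hq1 hqQ hqQ
        intro hcon
        have h2 := (int_cond hq1 hq1 hW hW hb3.2 hb2.2 hcon).2
        apply hb.1
        -- uniqueness
        have h3 : b ≡ b0 [MOD q] := by
          have h4 : b + b' ≡ b0 + b' [MOD q] := by
            rw [Nat.ModEq, (Nat.dvd_iff_mod_eq_zero).1 h2, (Nat.dvd_iff_mod_eq_zero).1 hdvd]
          exact Nat.ModEq.add_right_cancel' b' h4
        rw [Nat.ModEq, Nat.mod_eq_of_lt hb3.1, Nat.mod_eq_of_lt (mem_Fr.1 hb0m).1] at h3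
        exact h3
      refine h1.trans ?_
      rw [sum_const, nsmul_eq_mul]
      apply mul_le_mul_of_nonneg_right _ (by positivity)
      exact_mod_cast card_le_card (erase_subset _ _)
    have hsum : ‖∑ b' ∈ Fr q, ∑ b ∈ Fr q, AP v W r T m q q b b' - ((cR q m * V : ℝ) : ℂ)‖ ≤
        (Fr q).card * ((Fr q).card * (Q ^ 2 * TV v T)) := by
      have e2 : ((cR q m * V : ℝ) : ℂ) = ∑ b' ∈ Fr q, ee ((b' : ℝ) * m / q) * ((V : ℝ) : ℂ) := by
        rw [← sum_mul]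
        have := raman_cR hs m
        push_cast at this ⊢
        rw [this]
      rw [e2, ← sum_sub_distrib]
      refine (sum_cast_le _ _ _ hsplit).trans ?_
      rw [sum_const, nsmul_eq_mul]
    have hc2 : cc q * cc q = 1 / (Nat.totient q : ℝ) ^ 2 := by
      rw [← sq, ← sq_abs, abs_cc hs]
      ring
    have hfin : |∑ s ∈ range T, v s * (hq q ((r + W * s : ℕ) : ℤ) * hq q ((r + W * s + m : ℕ) : ℤ)) - cc q * cc q * (cR q m * V)| ≤
        Q ^ 2 * TV v T := by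
      rw [← Real.norm_eq_abs, ← Complex.norm_real, Complex.ofReal_sub, e, Complex.ofReal_mul (cc q * cc q), ← mul_sub,
        norm_mul, Complex.norm_real, Real.norm_eq_abs, abs_mul]
      calc _ ≤ |cc q| * |cc q| * ((Fr q).card * ((Fr q).card * (Q ^ 2 * TV v T))) :=
            mul_le_mul_of_nonneg_left hsum (by positivity)
        _ = (|cc q| * (Fr q).card) * ((|cc q| * (Fr q).card) * (Q ^ 2 * TV v T)) := by ring
        _ = _ := by rw [cc_card hs]; ring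
    have h1 := (abs_le.1 hfin).2
    have h2 : cc q * cc q * (cR q m * V) ≤ V * (|cR q m| / (Nat.totient q : ℝ) ^ 2) := by
      rw [hc2]
      have h3 : cR q m ≤ |cR q m| := le_abs_self _
      calc 1 / (Nat.totient q : ℝ) ^ 2 * (cR q m * V) ≤ 1 / (Nat.totient q : ℝ) ^ 2 * (|cR q m| * V) := by gcongr
        _ = _ := by ring
    linarith
  · rw [if_neg hqq, zero_add]
    have e := pair_expand (W := W) (r := r) (T := T) (m := m) v hs hs'
    have h1 : ‖∑ b' ∈ Fr q', ∑ b ∈ Fr q, AP v W r T m q q' b b'‖ ≤ ∑ b' ∈ Fr q', ∑ b ∈ Fr q, (Q : ℝ) ^ 2 * TV v T := by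
      apply sum_cast_le
      intro b' hb'
      apply sum_cast_le
      intro b hb
      apply AP_small hv hq1 hq1' hqQ hqQ'
      intro hcon
      exact hqq (int_cond hq1 hq1' hW hW' (mem_Fr.1 hb).2 (mem_Fr.1 hb').2 hcon).1
    refine (le_abs_self _).trans ?_
    rw [← Real.norm_eq_abs, ← Complex.norm_real, e, norm_mul, Complex.norm_real, Real.norm_eq_abs, abs_mul]
    calc _ ≤ |cc q| * |cc q'| * (∑ b' ∈ Fr q', ∑ b ∈ Fr q, (Q : ℝ) ^ 2 * TV v T) :=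
          mul_le_mul_of_nonneg_left h1 (by positivity)
      _ = (|cc q| * (Fr q).card) * ((|cc q'| * (Fr q').card) * (Q ^ 2 * TV v T)) := by
          rw [sum_const, sum_const, nsmul_eq_mul, nsmul_eq_mul]; ring
      _ = _ := by rw [cc_card hs, cc_card hs']; ring

/-- pair correlations of the model -/
theorem model_corr {W Q r T : ℕ} (v : ℕ → ℝ) (hv : v T = 0) (hv0 : ∀ s, 0 ≤ v s) (m : ℕ) :
    ∑ s ∈ range T, v s * (GG W Q ((r + W * s : ℕ) : ℤ) * GG W Q ((r + W * s + m : ℕ) : ℤ)) ≤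
      (∑ s ∈ range T, v s) * (∑ q ∈ QQ W Q, |cR q m| / (Nat.totient q : ℝ) ^ 2) + Q ^ 4 * TV v T := by
  have hTV := TV_nonneg v T
  have e : ∑ s ∈ range T, v s * (GG W Q ((r + W * s : ℕ) : ℤ) * GG W Q ((r + W * s + m : ℕ) : ℤ)) =
      ∑ q ∈ QQ W Q, ∑ q' ∈ QQ W Q, ∑ s ∈ range T, v s * (hq q ((r + W * s : ℕ) : ℤ) * hq q' ((r + W * s + m : ℕ) : ℤ)) := by
    unfold GG
    simp_rw [sum_mul_sum, mul_sum]
    rw [sum_comm]
    refine sum_congr rfl fun q _ => ?_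
    rw [sum_comm]
  rw [e]
  calc _ ≤ ∑ q ∈ QQ W Q, ∑ q' ∈ QQ W Q, ((if q = q' then (∑ s ∈ range T, v s) * (|cR q m| / (Nat.totient q : ℝ) ^ 2) else 0) +
        Q ^ 2 * TV v T) := sum_le_sum fun q hq' => sum_le_sum fun q' hq'' => pair_bound v hv hv0 hq' hq''
    _ = (∑ s ∈ range T, v s) * (∑ q ∈ QQ W Q, |cR q m| / (Nat.totient q : ℝ) ^ 2) +
        (QQ W Q).card * ((QQ W Q).card * (Q ^ 2 * TV v T)) := by
        simp_rw [sum_add_distrib, sum_const, nsmul_eq_mul]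
        rw [mul_sum]
        congr 1
        refine sum_congr rfl fun q hq' => ?_
        rw [sum_ite_eq, if_pos hq']
    _ ≤ _ := by
        have h : ((QQ W Q).card : ℝ) ≤ Q := by
          have : (QQ W Q).card ≤ Q := by
            unfold QQ
            refine (card_filter_le _ _).trans ?_
            rw [Nat.card_Icc]; omega
          exact_mod_cast this
        have h2 : ((QQ W Q).card : ℝ) * ((QQ W Q).card * (Q ^ 2 * TV v T)) ≤ Q * (Q * (Q ^ 2 * TV v T)) := by gcongr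
        have h3 : (Q : ℝ) * (Q * (Q ^ 2 * TV v T)) = Q ^ 4 * TV v T := by ring
        linarith

end Pool.Agent.J4H81.PT
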