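import Pool.Agent.J4H81.PT.GMc

/-!
# Growing prime tuples: the truncated singular series (helper81)
-/

set_option autoImplicit false

namespace Pool.Agent.J4H81.PT

open Finset
open Pool.Agent.N728.SP.GDW (sum_div' tot1 cast_eq)

/-- the local factors -/
noncomputable def af (D p : ℕ) : ℝ := if p ∣ D then 1 / ((p : ℝ) - 1) else 1 / ((p : ℝ) - 1) ^ 2

theorem af_nonneg {D p : ℕ} (hp : p.Prime) : 0 ≤ af D p := by
  have : (1 : ℝ) < p := by exact_mod_cast hp.one_lt
  unfold af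
  split_ifs
  · apply div_nonneg zero_le_one; linarith
  · positivity

theorem cR_term {W q D : ℕ} (hs : Squarefree q) (hW : q.Coprime W) :
    |cR q ((W * D : ℕ) : ℤ)| / (Nat.totient q : ℝ) ^ 2 = ∏ p ∈ q.primeFactors, af D p := by
  rw [tot1 hs, ← prod_pow]
  unfold cR
  rw [abs_prod, ← prod_div_distrib]
  refine prod_congr rfl fun p hp => ?_
  have hpp := Nat.prime_of_mem_primeFactors hp
  have hp1 : (1 : ℝ) < p := by exact_mod_cast hpp.one_lt
  have hpW : p.Coprime W := hW.coprime_dvd_left (Nat.dvd_of_mem_primeFactors hp)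
  have hiff : (p : ℤ) ∣ ((W * D : ℕ) : ℤ) ↔ p ∣ D := by
    rw [Int.natCast_dvd_natCast]
    exact ⟨fun h => hpW.dvd_of_dvd_mul_left h, fun h => h.mul_left W⟩
  have h2 : (p : ℝ) - 1 ≠ 0 := by linarith
  unfold af
  by_cases h : p ∣ D
  · rw [if_pos (hiff.2 h), if_pos h, abs_of_nonneg (by linarith)]
    field_simp
  · rw [if_neg (fun h' => h (hiff.1 h')), if_neg h, abs_neg, abs_one]

theorem tele (w Q : ℕ) (hw : 2 ≤ w) : ∑ n ∈ Ioc w Q, 1 / ((n : ℝ) - 1) ^ 2 ≤ 1 / ((w : ℝ) - 1) := by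
  have hw' : (2 : ℝ) ≤ w := by exact_mod_cast hw
  have h : ∀ M : ℕ, ∑ n ∈ Ioc w (w + M), 1 / ((n : ℝ) - 1) ^ 2 ≤ 1 / ((w : ℝ) - 1) - 1 / ((w + M : ℝ) - 1) := by
    intro M
    induction M with
    | zero => simp
    | succ M ih =>
      rw [← add_assoc, sum_Ioc_succ_top (by omega)]
      have h1 : (0 : ℝ) < (w : ℝ) + M - 1 := by
        have : (0 : ℝ) ≤ M := Nat.cast_nonneg M
        linarith
      have h2 : 1 / (((w + M + 1 : ℕ) : ℝ) - 1) ^ 2 ≤ 1 / ((w : ℝ) + M - 1) - 1 / ((w : ℝ) + (M + 1 : ℕ) - 1) := by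
        have e : 1 / ((w : ℝ) + M - 1) - 1 / ((w : ℝ) + (M + 1 : ℕ) - 1) = 1 / (((w : ℝ) + M - 1) * ((w : ℝ) + M)) := by
          have h3 : (w : ℝ) + (M + 1 : ℕ) - 1 = (w : ℝ) + M := by push_cast; ring
          have h4 : (w : ℝ) + M ≠ 0 := by positivity
          have h5 : (w : ℝ) + M - 1 ≠ 0 := h1.ne'
          rw [h3]
          field_simp
          ring
        rw [e]
        have e2 : (((w + M + 1 : ℕ) : ℝ) - 1) ^ 2 = ((w : ℝ) + M) * ((w : ℝ) + M) := by push_cast; ring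
        rw [e2]
        apply one_div_le_one_div_of_le (by positivity)
        apply mul_le_mul_of_nonneg_right _ (by linarith)
        linarith
      linarith
  rcases le_total w Q with hwQ | hwQ
  · obtain ⟨M, rfl⟩ := Nat.exists_eq_add_of_le hwQ
    refine (h M).trans ?_
    have : (0 : ℝ) ≤ M := Nat.cast_nonneg M
    have h1 : 0 ≤ 1 / ((w + M : ℝ) - 1) := by apply div_nonneg zero_le_one; linarith
    linarith
  · rw [Ioc_eq_empty (by omega)]
    simp only [sum_empty]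
    apply div_nonneg zero_le_one; linarith

/-- the truncated singular series -/
theorem sing_le {w Q W D : ℕ} (hw : 2 ≤ w) (hD : 0 < D) (hW : ∀ p : ℕ, p.Prime → p ≤ w → p ∣ W) :
    ∑ q ∈ QQ W Q, |cR q ((W * D : ℕ) : ℤ)| / (Nat.totient q : ℝ) ^ 2 ≤ PP w D * Real.exp (1 / ((w : ℝ) - 1)) := by
  classical
  set Ps : Finset ℕ := (Ioc w Q).filter Nat.Prime with hPs
  have hpr : ∀ p ∈ Ps, p.Prime := fun p hp => (mem_filter.1 hp).2
  set P₀ : ℕ := ∏ p ∈ Ps, p with hP₀
  have hP₀s : Squarefree P₀ := by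
    rw [hP₀]
    refine Finset.squarefree_prod_of_pairwise_isCoprime ?_ ?_
    · intro p hp p' hp' hne
      exact Nat.coprime_iff_isRelPrime.1 ((Nat.coprime_primes (hpr p hp) (hpr p' hp')).2 hne)
    · intro p hp; exact (hpr p hp).prime.squarefree
  have hpf : P₀.primeFactors = Ps := by
    rw [hP₀]
    exact Nat.primeFactors_prod hpr
  have h1 : ∑ q ∈ QQ W Q, |cR q ((W * D : ℕ) : ℤ)| / (Nat.totient q : ℝ) ^ 2 = ∑ q ∈ QQ W Q, ∏ p ∈ q.primeFactors, af D p := by
    refine sum_congr rfl fun q hq => ?_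
    obtain ⟨_, hs, hqW⟩ := mem_QQ.1 hq
    exact cR_term hs hqW
  rw [h1]
  have h2 : QQ W Q ⊆ P₀.divisors := by
    intro q hq
    obtain ⟨⟨hq1, hqQ⟩, hs, hqW⟩ := mem_QQ.1 hq
    rw [Nat.mem_divisors]
    refine ⟨?_, hP₀s.ne_zero⟩
    rw [← Nat.prod_primeFactors_of_squarefree hs, hP₀]
    apply prod_dvd_prod_of_subset
    intro p hp
    have hpp := Nat.prime_of_mem_primeFactors hp
    rw [hPs, mem_filter, mem_Ioc]
    refine ⟨⟨?_, (Nat.le_of_mem_primeFactors hp).trans hqQ⟩, hpp⟩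
    by_contra hcon
    push Not at hcon
    have h3 := hW p hpp hcon
    have h4 : p.Coprime W := hqW.coprime_dvd_left (Nat.dvd_of_mem_primeFactors hp)
    have := Nat.dvd_gcd (dvd_refl p) h3
    rw [h4.gcd_eq_one] at this
    exact hpp.one_lt.ne' (Nat.dvd_one.1 this)
  have h3 : ∑ q ∈ QQ W Q, ∏ p ∈ q.primeFactors, af D p ≤ ∑ q ∈ P₀.divisors, ∏ p ∈ q.primeFactors, af D p :=
    sum_le_sum_of_subset_of_nonneg h2 fun q _ _ => prod_nonneg fun p hp => af_nonneg (Nat.prime_of_mem_primeFactors hp)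
  refine h3.trans ?_
  rw [sum_div' _ hP₀s, hpf]
  -- termwise bound
  have h4 : ∏ p ∈ Ps, (1 + af D p) ≤ ∏ p ∈ Ps, ((if p ∣ D then (p : ℝ) / (p - 1) else 1) * Real.exp (1 / ((p : ℝ) - 1) ^ 2)) := by
    apply prod_le_prod
    · intro p hp
      have := af_nonneg (D := D) (hpr p hp)
      linarith
    · intro p hp
      have hp1 : (1 : ℝ) < p := by exact_mod_cast (hpr p hp).one_lt
      have hp2 : (0 : ℝ) < (p : ℝ) - 1 := by linarith
      have hp3 : (p : ℝ) - 1 ≠ 0 := hp2.ne'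
      unfold af
      split_ifs
      · have e : 1 + 1 / ((p : ℝ) - 1) = (p : ℝ) / (p - 1) := by field_simp; ring
        rw [e]
        apply le_mul_of_one_le_right (by positivity)
        rw [Real.one_le_exp_iff]
        positivity
      · rw [one_mul]
        have := Real.add_one_le_exp (1 / ((p : ℝ) - 1) ^ 2)
        linarith
  refine h4.trans ?_
  rw [prod_mul_distrib, ← Real.exp_sum]
  apply mul_le_mul
  · unfold PP
    rw [← prod_filter]
    apply prod_le_prod_of_subset_of_one_le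
    · intro p hp
      rw [mem_filter, hPs, mem_filter, mem_Ioc] at hp
      rw [mem_filter, Nat.mem_primeFactors]
      exact ⟨⟨hp.1.2, hp.2, hD.ne'⟩, hp.1.1.1⟩
    · intro p hp
      rw [mem_filter] at hp
      have hp1 : (1 : ℝ) < p := by exact_mod_cast (hpr p hp.1).one_lt
      have hp2 : (0 : ℝ) < (p : ℝ) - 1 := by linarith
      positivity
    · intro p hp _
      rw [mem_filter, Nat.mem_primeFactors] at hp
      have hp1 : (1 : ℝ) < p := by exact_mod_cast hp.1.1.one_lt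
      rw [one_le_div (by linarith)]
      linarith
  · apply Real.exp_le_exp.2
    refine le_trans ?_ (tele w Q hw)
    apply sum_le_sum_of_subset_of_nonneg (filter_subset _ _)
    intro n _ _
    positivity
  · exact (Real.exp_pos _).le
  · exact le_trans zero_le_one (PP_one_le w D)

theorem sing_zero (W Q : ℕ) : ∑ q ∈ QQ W Q, |cR q ((W * 0 : ℕ) : ℤ)| / (Nat.totient q : ℝ) ^ 2 ≤
    ∑ q ∈ Icc 1 Q, 1 / (Nat.totient q : ℝ) := by
  have h1 : ∀ q ∈ QQ W Q, |cR q ((W * 0 : ℕ) : ℤ)| / (Nat.totient q : ℝ) ^ 2 = 1 / (Nat.totient q : ℝ) := by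
    intro q hq
    obtain ⟨⟨hq1, hqQ⟩, hs, hqW⟩ := mem_QQ.1 hq
    have h2 : (0 : ℝ) < Nat.totient q := by exact_mod_cast Nat.totient_pos.2 hq1
    have h3 : cR q ((W * 0 : ℕ) : ℤ) = Nat.totient q := by
      rw [tot1 hs]
      unfold cR
      refine prod_congr rfl fun p _ => ?_
      simp
    rw [h3, Nat.abs_cast]
    field_simp
  rw [sum_congr rfl h1]
  apply sum_le_sum_of_subset_of_nonneg (filter_subset _ _)
  intro q _ _
  positivity

end Pool.Agent.J4H81.PT
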