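import Pool.Agent.J4H81.PT.SM
import Pool.Agent.J4H81.PT.PD

/-!
# Growing prime tuples: the bound for the number of the bad lifts (helper81)
-/

set_option autoImplicit false

namespace Pool.Agent.J4H81.PT

open Finset

theorem lift_bound {k T U w : ℕ} (hT : 0 < T) (hU : 0 < U) (hkw : k ≤ w) (hw : 1 ≤ w) (f : Fin k → ℕ → ℝ)
    (hf : ∀ i s, 0 ≤ f i s) {η B : ℝ} (hη : 0 ≤ η) (hη1 : η ≤ 1) (hB : 0 ≤ B) (hsmall : k * η + 2 * k / w ≤ 1)
    (h1 : ∀ i, ∀ u < U, (1 - η) * T ≤ ∑ t ∈ range T, f i (u + t))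
    (hsq : ∀ i, ∀ u < U, ∑ t ∈ range T, f i (u + t) ^ 2 ≤ B * T)
    (Ex : Finset ℕ)
    (h2 : ∀ i, ∀ D, 1 ≤ D → D < U → D ∉ Ex → ∑ s ∈ range (T + U), f i s * f i (s + D) ≤ (1 + η) * T * PP w D) :
    (((Fintype.piFinset (fun _ : Fin k => range T)).filter
      (fun t => ∑ u ∈ range U, ∏ i, f i (u + t i) = 0)).card : ℝ) ≤
      (4 * k * η + 4 * k / w + B ^ k * (1 + 2 * Ex.card) / U) * (T : ℝ) ^ k := by
  have hT' : (0 : ℝ) < T := by exact_mod_cast hT
  have hU' : (0 : ℝ) < U := by exact_mod_cast hU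
  have hw' : (0 : ℝ) < w := by exact_mod_cast hw
  -- the pairs
  have hcs : ∀ i, ∀ u < U, ∀ u' < U, ∑ t ∈ range T, f i (u + t) * f i (u' + t) ≤ B * T := by
    intro i u hu u' hu'
    have h3 : ∑ t ∈ range T, f i (u + t) * f i (u' + t) ≤
        ∑ t ∈ range T, (f i (u + t) ^ 2 + f i (u' + t) ^ 2) / 2 := by
      apply sum_le_sum
      intro t _
      nlinarith [sq_nonneg (f i (u + t) - f i (u' + t))]
    rw [← sum_div, sum_add_distrib] at h3
    have := hsq i u hu
    have := hsq i u' hu'
    linarith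
  have hmain : ∀ i, ∀ u < U, ∀ u' < U, u ≠ u' → Nat.dist u u' ∉ Ex →
      ∑ t ∈ range T, f i (u + t) * f i (u' + t) ≤ (1 + η) * T * PP w (Nat.dist u u') := by
    have key : ∀ i, ∀ u < U, ∀ u' < U, u < u' → Nat.dist u u' ∉ Ex →
        ∑ t ∈ range T, f i (u + t) * f i (u' + t) ≤ (1 + η) * T * PP w (Nat.dist u u') := by
      intro i u hu u' hu' hlt hex
      have hd : Nat.dist u u' = u' - u := by unfold Nat.dist; omega
      rw [hd] at hex ⊢
      refine le_trans ?_ (h2 i (u' - u) (by omega) (by omega) hex)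
      have e : ∑ t ∈ range T, f i (u + t) * f i (u' + t) =
          ∑ s ∈ (range T).image (fun t => u + t), f i s * f i (s + (u' - u)) := by
        rw [sum_image (by intro a _ b _ h; simpa using h)]
        refine sum_congr rfl fun t _ => ?_
        congr 2
        omega
      rw [e]
      apply sum_le_sum_of_subset_of_nonneg
      · intro s hs
        rw [mem_image] at hs
        obtain ⟨t, ht, rfl⟩ := hs
        rw [mem_range] at ht ⊢
        omega
      · intro s _ _
        exact mul_nonneg (hf i _) (hf i _)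
    intro i u hu u' hu' hne hex
    rcases lt_or_gt_of_ne hne with hlt | hlt
    · exact key i u hu u' hu' hlt hex
    · rw [Nat.dist_comm] at hex ⊢
      have := key i u' hu' u hu hlt hex
      refine le_trans (le_of_eq ?_) this
      exact sum_congr rfl fun t _ => mul_comm _ _
  have hprodnn : ∀ u u' : ℕ, ∀ i ∈ (univ : Finset (Fin k)), 0 ≤ ∑ t ∈ range T, f i (u + t) * f i (u' + t) :=
    fun u u' i _ => sum_nonneg fun t _ => mul_nonneg (hf i _) (hf i _)
  have hS2 : ∑ u ∈ range U, ∑ u' ∈ range U, ∏ i, ∑ t ∈ range T, f i (u + t) * f i (u' + t) ≤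
      (1 + ((1 + η) ^ k * Real.exp (2 * k / w) - 1 + B ^ k * (1 + 2 * Ex.card) / U)) * ((U : ℝ) ^ 2 * (T : ℝ) ^ k) := by
    have hpt : ∀ u ∈ range U, ∑ u' ∈ range U, ∏ i, ∑ t ∈ range T, f i (u + t) * f i (u' + t) ≤
        (B * T) ^ k * (1 + 2 * Ex.card) + ((1 + η) * T) ^ k *
          ∑ u' ∈ (range U).filter (fun u' => u ≠ u'), PP w (Nat.dist u u') ^ k := by
      intro u hu
      rw [mem_range] at hu
      have hpt2 : ∀ u' ∈ range U, ∏ i, ∑ t ∈ range T, f i (u + t) * f i (u' + t) ≤
          (if u = u' ∨ Nat.dist u u' ∈ Ex then (B * T) ^ k else 0) +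
          (if u ≠ u' then ((1 + η) * T) ^ k * PP w (Nat.dist u u') ^ k else 0) := by
        intro u' hu'
        rw [mem_range] at hu'
        have hP := PP_one_le w (Nat.dist u u')
        have hnn2 : 0 ≤ ((1 + η) * (T : ℝ)) ^ k * PP w (Nat.dist u u') ^ k := by positivity
        have hnn1 : 0 ≤ (B * (T : ℝ)) ^ k := by positivity
        by_cases hc : u = u' ∨ Nat.dist u u' ∈ Ex
        · rw [if_pos hc]
          have h4 : ∏ i, ∑ t ∈ range T, f i (u + t) * f i (u' + t) ≤ ∏ i : Fin k, (B * T) :=
            prod_le_prod (hprodnn u u') fun i _ => hcs i u hu u' hu'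
          rw [prod_const, card_univ, Fintype.card_fin] at h4
          split_ifs <;> linarith
        · rw [if_neg hc]
          push Not at hc
          rw [if_pos hc.1, zero_add]
          have h4 : ∏ i, ∑ t ∈ range T, f i (u + t) * f i (u' + t) ≤
              ∏ i : Fin k, ((1 + η) * T * PP w (Nat.dist u u')) :=
            prod_le_prod (hprodnn u u') fun i _ => hmain i u hu u' hu' hc.1 hc.2
          rw [prod_const, card_univ, Fintype.card_fin, mul_pow] at h4
          exact h4
      refine (sum_le_sum hpt2).trans ?_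
      rw [sum_add_distrib, ← sum_filter, ← sum_filter, sum_const, ← mul_sum, nsmul_eq_mul]
      have hcard : (((range U).filter (fun u' => u = u' ∨ Nat.dist u u' ∈ Ex)).card : ℝ) ≤ 1 + 2 * Ex.card := by
        have h5 : (range U).filter (fun u' => u = u' ∨ Nat.dist u u' ∈ Ex) ⊆
            {u} ∪ (Ex.image (fun D => u + D) ∪ Ex.image (fun D => u - D)) := by
          intro u' hu'
          rw [mem_filter] at hu'
          rcases hu'.2 with h6 | h6
          · rw [mem_union, mem_singleton]; exact Or.inl h6.symm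
          · apply mem_union_right
            rcases le_total u u' with h7 | h7
            · apply mem_union_left
              rw [mem_image]
              refine ⟨_, h6, ?_⟩
              unfold Nat.dist; omega
            · apply mem_union_right
              rw [mem_image]
              refine ⟨_, h6, ?_⟩
              unfold Nat.dist; omega
        have h6 := card_le_card h5
        have h7 := card_union_le {u} (Ex.image (fun D => u + D) ∪ Ex.image (fun D => u - D))
        have h8 := card_union_le (Ex.image (fun D => u + D)) (Ex.image (fun D => u - D))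
        have h9 := card_image_le (s := Ex) (f := fun D => u + D)
        have h10 := card_image_le (s := Ex) (f := fun D => u - D)
        rw [card_singleton] at h7
        have : ((range U).filter (fun u' => u = u' ∨ Nat.dist u u' ∈ Ex)).card ≤ 1 + 2 * Ex.card := by omega
        exact_mod_cast this
      have hnn1 : 0 ≤ (B * (T : ℝ)) ^ k := by positivity
      have := mul_le_mul_of_nonneg_right hcard hnn1
      linarith
    calc _ ≤ ∑ u ∈ range U, ((B * T) ^ k * (1 + 2 * Ex.card) + ((1 + η) * T) ^ k *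
          ∑ u' ∈ (range U).filter (fun u' => u ≠ u'), PP w (Nat.dist u u') ^ k) := sum_le_sum hpt
      _ = U * ((B * T) ^ k * (1 + 2 * Ex.card)) + ((1 + η) * T) ^ k *
          ∑ u ∈ range U, ∑ u' ∈ (range U).filter (fun u' => u ≠ u'), PP w (Nat.dist u u') ^ k := by
          rw [sum_add_distrib, sum_const, card_range, nsmul_eq_mul, mul_sum]
      _ ≤ U * ((B * T) ^ k * (1 + 2 * Ex.card)) + ((1 + η) * T) ^ k * ((U : ℝ) ^ 2 * Real.exp (2 * k / w)) := by
          gcongr
          exact PP_pairs k w U hkw hw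
      _ = _ := by rw [mul_pow, mul_pow]; field_simp; ring
  have hS1 : ∀ u < U, (1 - k * η) * (T : ℝ) ^ k ≤ ∏ i : Fin k, ∑ t ∈ range T, f i (u + t) := by
    intro u hu
    have h3 : (1 - k * η) ≤ (1 - η) ^ k := by
      have := one_add_mul_le_pow (show (-2 : ℝ) ≤ -η by linarith) k
      have e : (1 : ℝ) + -η = 1 - η := by ring
      rw [e] at this
      linarith
    calc (1 - k * η) * (T : ℝ) ^ k ≤ (1 - η) ^ k * (T : ℝ) ^ k := by gcongr
      _ = ∏ i : Fin k, ((1 - η) * T) := by rw [prod_const, card_univ, Fintype.card_fin, mul_pow]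
      _ ≤ _ := prod_le_prod (fun i _ => mul_nonneg (by linarith) hT'.le) fun i _ => h1 i u hu
  have hexp : (1 + η) ^ k * Real.exp (2 * k / w) - 1 ≤ 2 * (k * η + 2 * k / w) := by
    have h3 : (1 + η) ^ k ≤ Real.exp (k * η) := by
      rw [Real.exp_nat_mul]
      exact pow_le_pow_left₀ (by linarith) (by linarith [Real.add_one_le_exp η]) k
    have h4 : (1 + η) ^ k * Real.exp (2 * k / w) ≤ Real.exp (k * η + 2 * k / w) := by
      rw [Real.exp_add]; gcongr
    have hx0 : 0 ≤ k * η + 2 * k / w := by positivity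
    have h5 := Real.exp_bound' hx0 hsmall (n := 2) (by norm_num)
    simp [Finset.sum_range_succ, Nat.factorial] at h5
    nlinarith
  have hη2 : 0 ≤ (1 + η) ^ k * Real.exp (2 * k / w) - 1 + B ^ k * (1 + 2 * Ex.card) / U := by
    have h3 : 1 ≤ (1 + η) ^ k := one_le_pow₀ (by linarith)
    have h4 : 1 ≤ Real.exp (2 * k / w) := Real.one_le_exp (by positivity)
    have h5 : 1 ≤ (1 + η) ^ k * Real.exp (2 * k / w) := one_le_mul_of_one_le_of_one_le h3 h4
    have h6 : 0 ≤ B ^ k * (1 + 2 * Ex.card) / U := by positivity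
    linarith
  refine (second_moment hT hU f (by positivity) hη2 hS1 hS2).trans ?_
  have hTk : 0 ≤ (T : ℝ) ^ k := by positivity
  apply mul_le_mul_of_nonneg_right _ hTk
  have e : 4 * (k : ℝ) / w = 2 * (2 * k / w) := by ring
  rw [e]
  linarith

end Pool.Agent.J4H81.PT
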