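import Pool.Agent.H807R2.Dav1

/-!
# Growing prime tuples: Plancherel with logarithmic frequencies (helper81)
-/

set_option autoImplicit false

namespace Pool.Agent.J4H81.PT

open Finset MeasureTheory
open Pool.Agent.H807R2.Dav (ee norm_ee ee_add ee_zero ee_int ee_eq dd dd_le)

open scoped FourierTransform SchwartzMap ContDiff in
/-- Plancherel for the Fourier integral of `L¹ ∩ L²` functions on the line (proof as in `CG3.aux_plancherel`) -/
theorem aux_plancherel (f : ℝ → ℂ) (hf : Integrable f) (hf2 : MemLp f 2) :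
    ∫⁻ ξ : ℝ, ‖FourierTransform.fourier f ξ‖ₑ ^ 2 = ∫⁻ z : ℝ, ‖f z‖ₑ ^ 2 := by
  obtain ⟨F2, hF2⟩ : ∃ F2 : Lp ℂ 2 (volume : Measure ℝ), F2 = hf2.toLp f := ⟨_, rfl⟩
  obtain ⟨G, hG⟩ : ∃ G : Lp ℂ 2 (volume : Measure ℝ), G = 𝓕 F2 := ⟨_, rfl⟩
  have hF2ae : (F2 : ℝ → ℂ) =ᵐ[volume] f := by rw [hF2]; exact hf2.coeFn_toLp
  have key : ∀ g : 𝓢(ℝ, ℂ), ∫ x, g x • (G x) = ∫ x, g x • FourierTransform.fourier f x := by
    intro g
    have h1 : (𝓕 (F2 : 𝓢'(ℝ, ℂ))) g = ((𝓕 F2 : Lp ℂ 2 (volume : Measure ℝ)) : 𝓢'(ℝ, ℂ)) g := by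
      rw [Lp.fourier_toTemperedDistribution_eq]
    rw [TemperedDistribution.fourier_apply, Lp.toTemperedDistribution_apply,
      Lp.toTemperedDistribution_apply, ← hG] at h1
    rw [← h1]
    have h2 : ∫ x, (𝓕 g) x • F2 x = ∫ x, (𝓕 g) x • f x := by
      apply integral_congr_ae
      filter_upwards [hF2ae] with x hx
      rw [hx]
    rw [h2]
    have h3 := VectorFourier.integral_fourierIntegral_smul_eq_flip (L := innerₗ ℝ)
      (μ := (volume : Measure ℝ)) (ν := (volume : Measure ℝ))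
      Real.continuous_fourierChar continuous_inner g.integrable hf
    rw [flip_innerₗ] at h3
    exact h3
  have hGae : (G : ℝ → ℂ) =ᵐ[volume] FourierTransform.fourier f := by
    have hcont : Continuous (FourierTransform.fourier f : ℝ → ℂ) :=
      VectorFourier.fourierIntegral_continuous Real.continuous_fourierChar continuous_inner hf
    apply ae_eq_of_integral_contDiff_smul_eq
    · exact (Lp.memLp G).locallyIntegrable (by norm_num)
    · exact hcont.locallyIntegrable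
    · intro g g_smooth g_cpt
      have hg₁ : HasCompactSupport (Complex.ofRealCLM ∘ g) := g_cpt.comp_left rfl
      have hg₂ : ContDiff ℝ ∞ (Complex.ofRealCLM ∘ g) := by fun_prop
      have := key (hg₁.toSchwartzMap hg₂)
      simpa using this
  have hnorm : eLpNorm G 2 volume = eLpNorm f 2 volume := by
    have h1 : ‖G‖ = ‖F2‖ := by rw [hG]; exact Lp.norm_fourier_eq F2
    have h2 : eLpNorm G 2 volume = eLpNorm F2 2 volume := by
      rw [Lp.norm_def, Lp.norm_def] at h1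
      exact (ENNReal.toReal_eq_toReal_iff' (Lp.eLpNorm_ne_top G) (Lp.eLpNorm_ne_top F2)).1 h1
    rw [h2]
    exact eLpNorm_congr_ae hF2ae
  have h2 : ∀ h : ℝ → ℂ, eLpNorm h 2 volume ^ 2 = ∫⁻ z : ℝ, ‖h z‖ₑ ^ 2 := by
    intro h
    rw [eLpNorm_eq_lintegral_rpow_enorm_toReal (by norm_num) (by norm_num)]
    simp only [ENNReal.toReal_ofNat, ENNReal.rpow_ofNat, one_div]
    rw [← ENNReal.rpow_natCast, ← ENNReal.rpow_mul]
    norm_num
  rw [← h2, ← h2, ← hnorm, eLpNorm_congr_ae hGae]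

/-- the real form -/
theorem planch_real {f : ℝ → ℂ} (hf : Integrable f) (hf2 : MemLp f 2) :
    Integrable (fun ξ => ‖FourierTransform.fourier f ξ‖ ^ 2) ∧ Integrable (fun z => ‖f z‖ ^ 2) ∧
      ∫ ξ, ‖FourierTransform.fourier f ξ‖ ^ 2 = ∫ z, ‖f z‖ ^ 2 := by
  have h := aux_plancherel f hf hf2
  have hcont : Continuous (FourierTransform.fourier f : ℝ → ℂ) :=
    VectorFourier.fourierIntegral_continuous Real.continuous_fourierChar continuous_inner hf
  have hi2 : Integrable (fun z => ‖f z‖ ^ 2) := hf2.integrable_norm_pow (by norm_num)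
  have e : ∀ g : ℝ → ℂ, ∀ z, ENNReal.ofReal (‖g z‖ ^ 2) = ‖g z‖ₑ ^ 2 := by
    intro g z
    rw [ENNReal.ofReal_pow (norm_nonneg _), ofReal_norm]
  have hfin : ∫⁻ z : ℝ, ‖f z‖ₑ ^ 2 ≠ ⊤ := by
    have h1 := hi2.lintegral_lt_top
    simp_rw [e] at h1
    exact h1.ne
  have hi1 : Integrable (fun ξ => ‖FourierTransform.fourier f ξ‖ ^ 2) := by
    refine ⟨(hcont.norm.pow 2).aestronglyMeasurable, ?_⟩
    rw [hasFiniteIntegral_iff_ofReal (Filter.Eventually.of_forall fun z => by positivity)]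
    simp_rw [e]
    rw [h]
    exact lt_top_iff_ne_top.2 hfin
  refine ⟨hi1, hi2, ?_⟩
  rw [integral_eq_lintegral_of_nonneg_ae (Filter.Eventually.of_forall fun z => by positivity) hi1.1,
    integral_eq_lintegral_of_nonneg_ae (Filter.Eventually.of_forall fun z => by positivity) hi2.1]
  simp_rw [e]
  rw [h]

/-- sum with logarithmic frequencies -/
noncomputable def PL (S : Finset ℕ) (c : ℕ → ℂ) (ξ : ℝ) : ℂ := ∑ n ∈ S, c n * ee (-(ξ * Real.log n))

/-- transform of a window -/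
noncomputable def KK (κ ξ : ℝ) : ℂ := ∫ u in (-κ)..0, ee (-(ξ * u))

/-- the sum over a window -/
noncomputable def WW (S : Finset ℕ) (c : ℕ → ℂ) (κ v : ℝ) : ℂ :=
  ∑ n ∈ S, (Set.Ico (Real.log n - κ) (Real.log n)).indicator (fun _ => c n) v

theorem ee_cont' : Continuous ee := by
  unfold ee
  fun_prop

theorem PL_cont (S : Finset ℕ) (c : ℕ → ℂ) : Continuous (PL S c) := by
  unfold PL
  apply continuous_finsetSum
  intro s _
  exact continuous_const.mul (ee_cont'.comp (by fun_prop))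

theorem KK_cont (κ : ℝ) : Continuous (KK κ) := by
  unfold KK
  apply intervalIntegral.continuous_parametric_intervalIntegral_of_continuous'
  exact ee_cont'.comp (by fun_prop)

theorem PL_shift (S : Finset ℕ) (c : ℕ → ℂ) (ξ ξ₀ : ℝ) :
    PL S c (ξ + ξ₀) = PL S (fun n => c n * ee (-(ξ₀ * Real.log n))) ξ := by
  unfold PL
  refine sum_congr rfl fun n _ => ?_
  rw [mul_assoc, ← ee_add]
  congr 2
  ring

theorem WW_int (S : Finset ℕ) (c : ℕ → ℂ) (κ : ℝ) : Integrable (WW S c κ) := by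
  unfold WW
  apply integrable_finsetSum
  intro n _
  exact (integrable_indicator_iff measurableSet_Ico).2 (integrableOn_const (by simp))

theorem WW_memLp (S : Finset ℕ) (c : ℕ → ℂ) (κ : ℝ) : MemLp (WW S c κ) 2 := by
  unfold WW
  apply memLp_finsetSum
  intro n _
  exact memLp_indicator_const 2 measurableSet_Ico (c n) (Or.inr (by simp))

theorem WW_fourier (S : Finset ℕ) (c : ℕ → ℂ) {κ : ℝ} (hκ : 0 < κ) (ξ : ℝ) :
    FourierTransform.fourier (WW S c κ) ξ = PL S c ξ * KK κ ξ := by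
  rw [Real.fourier_real_eq_integral_exp_smul]
  have h1 : ∀ v : ℝ, Complex.exp (↑(-2 * Real.pi * v * ξ) * Complex.I) • WW S c κ v =
      ∑ n ∈ S, (Set.Ico (Real.log n - κ) (Real.log n)).indicator (fun v => ee (-(ξ * v)) * c n) v := by
    intro v
    unfold WW
    rw [smul_sum]
    refine sum_congr rfl fun n _ => ?_
    have e1 : Complex.exp (↑(-2 * Real.pi * v * ξ) * Complex.I) = ee (-(ξ * v)) := by
      unfold ee
      congr 1
      push_cast
      ring
    rw [e1]
    by_cases hv : v ∈ Set.Ico (Real.log n - κ) (Real.log n)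
    · rw [Set.indicator_of_mem hv, Set.indicator_of_mem hv, smul_eq_mul]
    · rw [Set.indicator_of_notMem hv, Set.indicator_of_notMem hv, smul_zero]
  simp_rw [h1]
  rw [integral_finsetSum]
  · unfold PL
    rw [sum_mul]
    refine sum_congr rfl fun n _ => ?_
    rw [integral_indicator measurableSet_Ico, integral_Ico_eq_integral_Ioc, ← intervalIntegral.integral_of_le (by linarith)]
    have h2 : ∫ v in (Real.log n - κ)..(Real.log n), ee (-(ξ * v)) * c n =
        ∫ u in (-κ)..0, ee (-(ξ * (u + Real.log n))) * c n := by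
      rw [intervalIntegral.integral_comp_add_right (fun v => ee (-(ξ * v)) * c n)]
      congr 1 <;> ring
    rw [h2]
    unfold KK
    have h3 : ∀ u : ℝ, ee (-(ξ * (u + Real.log n))) * c n = (c n * ee (-(ξ * Real.log n))) * ee (-(ξ * u)) := by
      intro u
      rw [show -(ξ * (u + Real.log n)) = -(ξ * Real.log n) + -(ξ * u) by ring, ee_add]
      ring
    simp_rw [h3]
    rw [intervalIntegral.integral_const_mul]
  · intro n _
    rw [integrable_indicator_iff measurableSet_Ico]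
    apply ContinuousOn.integrableOn_Icc _ |>.mono_set Set.Ico_subset_Icc_self
    exact ((ee_cont'.comp (by fun_prop : Continuous fun v : ℝ => -(ξ * v))).mul continuous_const).continuousOn

/-- Plancherel -/
theorem pl_planch (S : Finset ℕ) (c : ℕ → ℂ) {κ : ℝ} (hκ : 0 < κ) :
    Integrable (fun ξ => ‖PL S c ξ * KK κ ξ‖ ^ 2) ∧ Integrable (fun v => ‖WW S c κ v‖ ^ 2) ∧
      ∫ ξ, ‖PL S c ξ * KK κ ξ‖ ^ 2 = ∫ v, ‖WW S c κ v‖ ^ 2 := by
  have h := planch_real (WW_int S c κ) (WW_memLp S c κ)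
  simp_rw [WW_fourier S c hκ] at h
  exact h

theorem KK_le {κ : ℝ} (hκ : 0 ≤ κ) (ξ : ℝ) : ‖KK κ ξ‖ ≤ κ := by
  unfold KK
  have h := intervalIntegral.norm_integral_le_of_norm_le_const (a := -κ) (b := 0) (f := fun u : ℝ => ee (-(ξ * u))) (C := 1)
    (fun u _ => (norm_ee _).le)
  rw [one_mul, zero_sub, neg_neg, abs_of_nonneg hκ] at h
  exact h

theorem KK_le' (κ : ℝ) {ξ : ℝ} (hξ : ξ ≠ 0) : ‖KK κ ξ‖ ≤ 1 / (3 * |ξ|) := by
  have hpi := Real.pi_pos
  set z : ℂ := -(2 * Real.pi * ξ : ℝ) * Complex.I with hz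
  have hz0 : z ≠ 0 := by
    rw [hz]
    apply mul_ne_zero _ Complex.I_ne_zero
    rw [neg_ne_zero]
    have : (2 * Real.pi * ξ : ℝ) ≠ 0 := by positivity
    exact_mod_cast this
  have h1 : KK κ ξ = (ee 0 - ee (ξ * κ)) / z := by
    unfold KK
    have h2 : ∀ u : ℝ, ee (-(ξ * u)) = Complex.exp (z * u) := by
      intro u
      unfold ee
      congr 1
      rw [hz]
      push_cast
      ring
    simp_rw [h2]
    rw [integral_exp_mul_complex hz0]
    congr 2
    · simp [ee_zero]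
    · rw [← show ee (-(ξ * (-κ))) = Complex.exp (z * ((-κ : ℝ) : ℂ)) from h2 (-κ)]
      congr 1
      ring
  rw [h1, norm_div]
  have h3 : ‖z‖ = 2 * Real.pi * |ξ| := by
    rw [hz, norm_mul, Complex.norm_I, mul_one, norm_neg, Complex.norm_real, Real.norm_eq_abs, abs_mul, abs_mul, abs_two,
      abs_of_pos hpi]
  have h4 : ‖ee 0 - ee (ξ * κ)‖ ≤ 2 := (norm_sub_le _ _).trans (by rw [norm_ee, norm_ee]; norm_num)
  have hξ' : 0 < |ξ| := abs_pos.2 hξ
  rw [h3, div_le_div_iff₀ (by positivity) (by positivity)]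
  have := Real.pi_gt_three
  nlinarith

theorem KK_ge {κ : ℝ} (hκ : 0 ≤ κ) {ξ : ℝ} (hξ : |ξ| * κ ≤ 1 / 7) : κ / 2 ≤ ‖KK κ ξ‖ := by
  have h1 : ‖KK κ ξ - κ‖ ≤ κ / 2 := by
    have e1 : (κ : ℂ) = ∫ u in (-κ)..0, (1 : ℂ) := by
      rw [intervalIntegral.integral_const]
      simp
    unfold KK
    rw [e1, ← intervalIntegral.integral_sub]
    · have h2 := intervalIntegral.norm_integral_le_of_norm_le_const (a := -κ) (b := 0) (f := fun u : ℝ => ee (-(ξ * u)) - 1) (C := 1 / 2 * (2))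
        (by
          intro u hu
          rw [Set.uIoc_of_le (by linarith)] at hu
          have h3 : ‖ee (-(ξ * u)) - 1‖ = dd (-(ξ * u)) := by
            unfold dd
            rw [norm_sub_rev]
          rw [h3]
          refine (dd_le _).trans ?_
          rw [abs_neg, abs_mul]
          have h4 : |u| ≤ κ := abs_le.2 ⟨hu.1.le, hu.2.trans hκ⟩
          have h5 := Real.pi_lt_d2
          have h6 : |ξ| * |u| ≤ 1 / 7 := (mul_le_mul_of_nonneg_left h4 (abs_nonneg _)).trans hξ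
          have h7 : 0 ≤ |ξ| * |u| := by positivity
          nlinarith)
      -- refined below
      have h8 : ‖∫ u in (-κ)..0, (ee (-(ξ * u)) - 1)‖ ≤ ∫ u in (-κ)..0, 2 * Real.pi * |ξ| * (-u) := by
        apply intervalIntegral.norm_integral_le_of_norm_le (by linarith)
        · refine Filter.Eventually.of_forall fun u hu => ?_
          have h3 : ‖ee (-(ξ * u)) - 1‖ = dd (-(ξ * u)) := by
            unfold dd
            rw [norm_sub_rev]
          rw [h3]
          refine (dd_le _).trans ?_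
          rw [abs_neg, abs_mul, abs_of_nonpos hu.2]
          apply le_of_eq
          ring
        · exact (by fun_prop : Continuous fun u : ℝ => 2 * Real.pi * |ξ| * (-u)).intervalIntegrable _ _
      refine h8.trans ?_
      have h9 : ∫ u in (-κ)..0, 2 * Real.pi * |ξ| * (-u) = Real.pi * |ξ| * κ ^ 2 := by
        rw [intervalIntegral.integral_const_mul]
        have h10 : ∫ u in (-κ)..0, -u = κ ^ 2 / 2 := by
          rw [intervalIntegral.integral_neg, integral_id]
          ring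
        rw [h10]
        ring
      rw [h9]
      have h5 := Real.pi_lt_d2
      have h11 : 0 ≤ |ξ| * κ := by positivity
      have h12 : Real.pi * (|ξ| * κ) ≤ 1 / 2 := by nlinarith [Real.pi_pos]
      calc Real.pi * |ξ| * κ ^ 2 = Real.pi * (|ξ| * κ) * κ := by ring
        _ ≤ 1 / 2 * κ := mul_le_mul_of_nonneg_right h12 hκ
        _ = κ / 2 := by ring
    · exact (ee_cont'.comp (by fun_prop : Continuous fun u : ℝ => -(ξ * u))).intervalIntegrable _ _
    · exact intervalIntegrable_const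
  have h2 : ‖(κ : ℂ)‖ = κ := by rw [Complex.norm_real, Real.norm_of_nonneg hκ]
  have h3 := norm_sub_norm_le (κ : ℂ) (KK κ ξ)
  rw [norm_sub_rev, h2] at h3
  linarith

/-- an interval of frequencies -/
theorem pl_interval (S : Finset ℕ) (c : ℕ → ℂ) {κ T : ℝ} (hκ : 0 < κ) (hT : 0 ≤ T) (h : T * κ ≤ 1 / 7) :
    ∫ ξ in (-T)..T, ‖PL S c ξ‖ ^ 2 ≤ 4 / κ ^ 2 * ∫ v, ‖WW S c κ v‖ ^ 2 := by
  obtain ⟨h1, _, h3⟩ := pl_planch S c hκ
  rw [← h3, intervalIntegral.integral_of_le (by linarith), ← integral_const_mul]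
  calc ∫ ξ in Set.Ioc (-T) T, ‖PL S c ξ‖ ^ 2 ≤ ∫ ξ in Set.Ioc (-T) T, 4 / κ ^ 2 * ‖PL S c ξ * KK κ ξ‖ ^ 2 := by
        apply setIntegral_mono_on _ (h1.const_mul _).integrableOn measurableSet_Ioc
        · intro ξ hξ
          have h4 : |ξ| ≤ T := abs_le.2 ⟨hξ.1.le, hξ.2⟩
          have h5 := KK_ge hκ.le (ξ := ξ) ((mul_le_mul_of_nonneg_right h4 hκ.le).trans h)
          rw [norm_mul, mul_pow]
          have h6 : (κ / 2) ^ 2 ≤ ‖KK κ ξ‖ ^ 2 := pow_le_pow_left₀ (by positivity) h5 2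
          have h7 : 1 ≤ 4 / κ ^ 2 * ‖KK κ ξ‖ ^ 2 := by
            calc (1 : ℝ) = 4 / κ ^ 2 * (κ / 2) ^ 2 := by field_simp; norm_num
              _ ≤ _ := by gcongr
          calc ‖PL S c ξ‖ ^ 2 = ‖PL S c ξ‖ ^ 2 * 1 := (mul_one _).symm
            _ ≤ ‖PL S c ξ‖ ^ 2 * (4 / κ ^ 2 * ‖KK κ ξ‖ ^ 2) := by gcongr
            _ = _ := by ring
        · exact (((PL_cont S c).norm.pow 2).integrableOn_Icc (a := -T) (b := T)).mono_set Set.Ioc_subset_Icc_self
    _ ≤ ∫ ξ, 4 / κ ^ 2 * ‖PL S c ξ * KK κ ξ‖ ^ 2 :=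
        setIntegral_le_integral (h1.const_mul _) (Filter.Eventually.of_forall fun ξ => by
          simp only [Pi.zero_apply]
          positivity)

end Pool.Agent.J4H81.PT
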