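import Pool.Agent.J4H81.PT.LFa
import Pool.Agent.Helper112.MultLS
import Pool.Agent.H398R2.BV5

/-!
# Growing prime tuples: the hybrid large sieve (helper81)
-/

set_option autoImplicit false

namespace Pool.Agent.J4H81.PT

open Finset MeasureTheory
open Pool.Agent.H807R2.Dav (ee norm_ee ee_add ee_zero ee_int ee_eq dd dd_le)
open Pool.Agent.H398R2.BV (Prim)

theorem ee112 (x : ℝ) : Pool.Agent.Helper112.ee x = ee x := by
  unfold Pool.Agent.Helper112.ee ee
  congr 1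
  ring

/-- additive large sieve over a window -/
theorem window_ls (A H F : ℕ) (α : ℕ → ℂ) (hα : ∀ n, α n ≠ 0 → A < n ∧ n ≤ A + H) :
    ∑ f ∈ Icc 1 F, ∑ a ∈ (range f).filter (fun a => a.Coprime f),
      ‖∑ n ∈ Icc 1 (A + H), α n * ee (n * a / f)‖ ^ 2 ≤ 6 * (H + (F : ℝ) ^ 2) * ∑ n ∈ Icc 1 (A + H), ‖α n‖ ^ 2 := by
  have h := Pool.Agent.Helper112.additive_large_sieve H F (fun n => α (A + n))
  have e1 : ∑ n ∈ Icc 1 (A + H), ‖α n‖ ^ 2 = ∑ n ∈ Icc 1 H, ‖α (A + n)‖ ^ 2 := by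
    have h1 : ∑ n ∈ Icc 1 H, ‖α (A + n)‖ ^ 2 = ∑ n ∈ Ioc A (A + H), ‖α n‖ ^ 2 := by
      apply sum_nbij' (fun n => A + n) (fun n => n - A)
      · intro n hn; rw [mem_Icc] at hn; rw [mem_Ioc]; omega
      · intro n hn; rw [mem_Ioc] at hn; rw [mem_Icc]; omega
      · intro n hn; rw [mem_Icc] at hn; omega
      · intro n hn; rw [mem_Ioc] at hn; omega
      · intro n hn; rfl
    rw [h1]
    symm
    apply sum_subset
    · intro n hn; rw [mem_Ioc] at hn; rw [mem_Icc]; omega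
    · intro n hn hn'
      rw [mem_Icc] at hn
      rw [mem_Ioc] at hn'
      have : α n = 0 := by
        by_contra h0
        exact hn' (hα n h0)
      rw [this]; simp
  rw [e1]
  refine le_trans (le_of_eq ?_) h
  refine sum_congr rfl fun f _ => sum_congr rfl fun a _ => ?_
  have e2 : ∑ n ∈ Icc 1 (A + H), α n * ee (n * a / f) =
      ee (A * a / f) * ∑ n ∈ Icc 1 H, α (A + n) * Pool.Agent.Helper112.ee (n * a / f) := by
    rw [mul_sum]
    have h1 : ∑ n ∈ Icc 1 H, ee (A * a / f) * (α (A + n) * Pool.Agent.Helper112.ee (n * a / f)) =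
        ∑ n ∈ Ioc A (A + H), α n * ee (n * a / f) := by
      apply sum_nbij' (fun n => A + n) (fun n => n - A)
      · intro n hn; rw [mem_Icc] at hn; rw [mem_Ioc]; omega
      · intro n hn; rw [mem_Ioc] at hn; rw [mem_Icc]; omega
      · intro n hn; rw [mem_Icc] at hn; omega
      · intro n hn; rw [mem_Ioc] at hn; omega
      · intro n hn
        rw [ee112]
        have : (((A + n : ℕ) : ℝ) * a / f) = A * a / f + n * a / f := by push_cast; ring
        rw [this, ee_add]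
        ring
    rw [h1]
    symm
    apply sum_subset
    · intro n hn; rw [mem_Ioc] at hn; rw [mem_Icc]; omega
    · intro n hn hn'
      rw [mem_Icc] at hn
      rw [mem_Ioc] at hn'
      have : α n = 0 := by
        by_contra h0
        exact hn' (hα n h0)
      rw [this]; simp
  rw [e2, norm_mul, norm_ee, one_mul]

/-- multiplicative large sieve over a window -/
theorem window_mls (A H F : ℕ) (α : ℕ → ℂ) (hα : ∀ n, α n ≠ 0 → A < n ∧ n ≤ A + H) :
    ∑ f ∈ Icc 1 F, ((f : ℝ) / (Nat.totient f : ℝ)) * ∑ χ ∈ Prim f,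
        ‖∑ n ∈ Icc 1 (A + H), α n * χ (n : ZMod f)‖ ^ 2
      ≤ 6 * (H + (F : ℝ) ^ 2) * ∑ n ∈ Icc 1 (A + H), ‖α n‖ ^ 2 := by
  classical
  refine le_trans (sum_le_sum ?_) (window_ls A H F α hα)
  intro f hf
  rw [mem_Icc] at hf
  have : NeZero f := ⟨by omega⟩
  have h1 := Pool.Agent.Helper112.MLS.prim_bound f (A + H) α
  rw [Pool.Agent.Helper112.MLS.sum_units] at h1
  simp_rw [ee112] at h1
  have h2 : Prim f = (univ : Finset (DirichletCharacter ℂ f)).filter (fun χ => χ.IsPrimitive) := by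
    unfold Prim
    congr 1
  rw [h2]
  exact h1

/-- the hybrid large sieve -/
theorem hls (F : ℕ) (S : Finset ℕ) (hS : ∀ n ∈ S, 1 ≤ n) (a : ℕ → ℂ) {T : ℝ} (hT : 1 ≤ T) (ξ₀ : ℝ) :
    ∑ f ∈ Icc 1 F, ((f : ℝ) / (Nat.totient f : ℝ)) * ∑ χ ∈ Prim f,
      ∫ ξ in (-T)..T, ‖PL S (fun n => a n * χ (n : ZMod f)) (ξ + ξ₀)‖ ^ 2 ≤
      24 * ∑ n ∈ S, ‖a n‖ ^ 2 * (2 * n + 7 * T * (1 + (F : ℝ) ^ 2)) := by
  set κ : ℝ := 1 / (7 * T) with hκ
  have hκ0 : 0 < κ := by positivity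
  have hκ1 : κ ≤ 1 := by
    rw [hκ, div_le_one (by positivity)]
    linarith
  have hTκ : T * κ ≤ 1 / 7 := by
    rw [hκ]
    apply le_of_eq
    field_simp
  set b : ℕ → ℂ := fun n => a n * ee (-(ξ₀ * Real.log n)) with hb
  have hbn : ∀ n, ‖b n‖ = ‖a n‖ := by
    intro n
    simp only [hb]
    rw [norm_mul, norm_ee, mul_one]
  set Wf : (f : ℕ) → DirichletCharacter ℂ f → ℝ → ℝ := fun f χ v => ‖WW S (fun n => b n * χ (n : ZMod f)) κ v‖ ^ 2 with hWf
  have hWi : ∀ f χ, Integrable (Wf f χ) := fun f χ => (pl_planch S _ hκ0).2.1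
  -- step 1
  have step1 : ∀ f χ, ∫ ξ in (-T)..T, ‖PL S (fun n => a n * χ (n : ZMod f)) (ξ + ξ₀)‖ ^ 2 ≤ 4 / κ ^ 2 * ∫ v, Wf f χ v := by
    intro f χ
    have e1 : ∀ ξ, PL S (fun n => a n * χ (n : ZMod f)) (ξ + ξ₀) = PL S (fun n => b n * χ (n : ZMod f)) ξ := by
      intro ξ
      rw [PL_shift]
      congr 1
      funext n
      simp only [hb]
      ring
    simp_rw [e1]
    exact pl_interval S _ hκ0 (by linarith) hTκ
  -- pointwise large sieve
  have hpt : ∀ v : ℝ, ∑ f ∈ Icc 1 F, ((f : ℝ) / (Nat.totient f : ℝ)) * ∑ χ ∈ Prim f, Wf f χ v ≤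
      ∑ n ∈ S, (Set.Ico (Real.log n - κ) (Real.log n)).indicator (fun _ => 6 * (2 * κ * n + 1 + (F : ℝ) ^ 2) * ‖a n‖ ^ 2) v := by
    intro v
    set A : ℕ := ⌊Real.exp v⌋₊ with hA
    set B : ℕ := ⌊Real.exp (v + κ)⌋₊ with hB
    have hAB : A ≤ B := Nat.floor_le_floor (Real.exp_le_exp.2 (by linarith))
    have hmem : ∀ n ∈ S, (v ∈ Set.Ico (Real.log n - κ) (Real.log n) ↔ A < n ∧ n ≤ B) := by
      intro n hn
      have hn0 : (0 : ℝ) < n := by exact_mod_cast hS n hn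
      rw [Set.mem_Ico, hA, hB, Nat.floor_lt (Real.exp_pos v).le, Nat.le_floor_iff (Real.exp_pos _).le,
        ← Real.lt_log_iff_exp_lt hn0, ← Real.log_le_iff_le_exp hn0]
      constructor
      · rintro ⟨h1, h2⟩
        exact ⟨h2, by linarith⟩
      · rintro ⟨h1, h2⟩
        exact ⟨by linarith, h1⟩
    set α : ℕ → ℂ := fun n => if n ∈ S ∧ A < n ∧ n ≤ B then b n else 0 with hα
    have hαs : ∀ n, α n ≠ 0 → A < n ∧ n ≤ A + (B - A) := by
      intro n hn
      simp only [hα] at hn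
      by_contra hcon
      apply hn
      rw [if_neg]
      rintro ⟨_, h2⟩
      omega
    have hkey := window_mls A (B - A) F α hαs
    have eAB : A + (B - A) = B := by omega
    rw [eAB] at hkey
    have hsum : ∀ g : ℕ → ℂ, ∑ n ∈ Icc 1 B, α n * g n = ∑ n ∈ S, (Set.Ico (Real.log n - κ) (Real.log n)).indicator (fun _ => b n * g n) v := by
      intro g
      have e2 : ∑ n ∈ S, (Set.Ico (Real.log n - κ) (Real.log n)).indicator (fun _ => b n * g n) v =
          ∑ n ∈ S, if A < n ∧ n ≤ B then b n * g n else 0 := by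
        refine sum_congr rfl fun n hn => ?_
        by_cases h1 : A < n ∧ n ≤ B
        · rw [Set.indicator_of_mem ((hmem n hn).2 h1), if_pos h1]
        · rw [Set.indicator_of_notMem (fun h2 => h1 ((hmem n hn).1 h2)), if_neg h1]
      rw [e2, ← sum_filter]
      have e3 : ∑ n ∈ Icc 1 B, α n * g n = ∑ n ∈ (Icc 1 B).filter (fun n => n ∈ S ∧ A < n ∧ n ≤ B), b n * g n := by
        rw [sum_filter]
        refine sum_congr rfl fun n _ => ?_
        simp only [hα]
        split_ifs <;> ring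
      rw [e3]
      apply sum_congr _ fun _ _ => rfl
      ext n
      rw [mem_filter, mem_filter, mem_Icc]
      constructor
      · rintro ⟨_, h2, h3⟩
        exact ⟨h2, h3⟩
      · rintro ⟨h2, h3⟩
        exact ⟨⟨hS n h2, h3.2⟩, h2, h3⟩
    have hsumn : ∑ n ∈ Icc 1 B, ‖α n‖ ^ 2 = ∑ n ∈ S.filter (fun n => A < n ∧ n ≤ B), ‖a n‖ ^ 2 := by
      have e3 : ∑ n ∈ Icc 1 B, ‖α n‖ ^ 2 = ∑ n ∈ (Icc 1 B).filter (fun n => n ∈ S ∧ A < n ∧ n ≤ B), ‖a n‖ ^ 2 := by
        rw [sum_filter]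
        refine sum_congr rfl fun n _ => ?_
        simp only [hα]
        split_ifs
        · rw [hbn]
        · simp
      rw [e3]
      apply sum_congr _ fun _ _ => rfl
      ext n
      rw [mem_filter, mem_filter, mem_Icc]
      constructor
      · rintro ⟨_, h2, h3⟩
        exact ⟨h2, h3⟩
      · rintro ⟨h2, h3⟩
        exact ⟨⟨hS n h2, h3.2⟩, h2, h3⟩
    have hL : ∑ f ∈ Icc 1 F, ((f : ℝ) / (Nat.totient f : ℝ)) * ∑ χ ∈ Prim f, Wf f χ v =
        ∑ f ∈ Icc 1 F, ((f : ℝ) / (Nat.totient f : ℝ)) * ∑ χ ∈ Prim f, ‖∑ n ∈ Icc 1 B, α n * χ (n : ZMod f)‖ ^ 2 := by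
      refine sum_congr rfl fun f _ => ?_
      congr 1
      refine sum_congr rfl fun χ _ => ?_
      simp only [hWf]
      unfold WW
      rw [hsum]
    rw [hL]
    refine hkey.trans ?_
    rw [hsumn]
    have hR : ∑ n ∈ S, (Set.Ico (Real.log n - κ) (Real.log n)).indicator (fun _ => 6 * (2 * κ * n + 1 + (F : ℝ) ^ 2) * ‖a n‖ ^ 2) v =
        ∑ n ∈ S.filter (fun n => A < n ∧ n ≤ B), 6 * (2 * κ * n + 1 + (F : ℝ) ^ 2) * ‖a n‖ ^ 2 := by
      rw [sum_filter]
      refine sum_congr rfl fun n hn => ?_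
      by_cases h1 : A < n ∧ n ≤ B
      · rw [Set.indicator_of_mem ((hmem n hn).2 h1), if_pos h1]
      · rw [Set.indicator_of_notMem (fun h2 => h1 ((hmem n hn).1 h2)), if_neg h1]
    rw [hR, mul_sum]
    apply sum_le_sum
    intro n hn
    rw [mem_filter] at hn
    apply mul_le_mul_of_nonneg_right _ (by positivity)
    have h1 : Real.exp v < n := (Nat.floor_lt (Real.exp_pos v).le).1 hn.2.1
    have h2 : ((B - A : ℕ) : ℝ) ≤ 2 * κ * n + 1 := by
      rw [Nat.cast_sub hAB]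
      have h3 : (B : ℝ) ≤ Real.exp (v + κ) := Nat.floor_le (Real.exp_pos _).le
      have h4 : Real.exp v < A + 1 := Nat.lt_floor_add_one _
      have h5 : Real.exp κ ≤ 1 + 2 * κ := by
        have h6 := Real.abs_exp_sub_one_le (x := κ) (by rw [abs_of_pos hκ0]; exact hκ1)
        rw [abs_of_pos hκ0] at h6
        have h7 := (abs_le.1 h6).2
        linarith
      rw [Real.exp_add] at h3
      have h8 : Real.exp v * Real.exp κ ≤ Real.exp v * (1 + 2 * κ) := mul_le_mul_of_nonneg_left h5 (Real.exp_pos v).le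
      have h9 : Real.exp v * (2 * κ) ≤ n * (2 * κ) := mul_le_mul_of_nonneg_right h1.le (by linarith)
      nlinarith
    linarith
  -- integrate
  have hI : ∫ v, ∑ f ∈ Icc 1 F, ((f : ℝ) / (Nat.totient f : ℝ)) * ∑ χ ∈ Prim f, Wf f χ v ≤
      κ * ∑ n ∈ S, 6 * (2 * κ * n + 1 + (F : ℝ) ^ 2) * ‖a n‖ ^ 2 := by
    have hii : ∀ n ∈ S, Integrable ((Set.Ico (Real.log n - κ) (Real.log n)).indicator (fun _ : ℝ => 6 * (2 * κ * n + 1 + (F : ℝ) ^ 2) * ‖a n‖ ^ 2)) :=
      fun n _ => (integrable_indicator_iff measurableSet_Ico).2 (integrableOn_const (by simp))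
    calc ∫ v, ∑ f ∈ Icc 1 F, ((f : ℝ) / (Nat.totient f : ℝ)) * ∑ χ ∈ Prim f, Wf f χ v ≤
          ∫ v, ∑ n ∈ S, (Set.Ico (Real.log n - κ) (Real.log n)).indicator (fun _ => 6 * (2 * κ * n + 1 + (F : ℝ) ^ 2) * ‖a n‖ ^ 2) v := by
          apply integral_mono _ (integrable_finsetSum _ hii) hpt
          apply integrable_finsetSum
          intro f _
          apply Integrable.const_mul
          apply integrable_finsetSum
          intro χ _
          exact hWi f χ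
      _ = κ * ∑ n ∈ S, 6 * (2 * κ * n + 1 + (F : ℝ) ^ 2) * ‖a n‖ ^ 2 := by
          rw [integral_finsetSum _ hii, mul_sum]
          refine sum_congr rfl fun n _ => ?_
          rw [integral_indicator measurableSet_Ico, setIntegral_const]
          simp only [smul_eq_mul]
          congr 1
          rw [Measure.real, Real.volume_Ico]
          rw [show Real.log n - (Real.log n - κ) = κ by ring, ENNReal.toReal_ofReal hκ0.le]
  have hIe : ∫ v, ∑ f ∈ Icc 1 F, ((f : ℝ) / (Nat.totient f : ℝ)) * ∑ χ ∈ Prim f, Wf f χ v =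
      ∑ f ∈ Icc 1 F, ((f : ℝ) / (Nat.totient f : ℝ)) * ∑ χ ∈ Prim f, ∫ v, Wf f χ v := by
    rw [integral_finsetSum]
    · refine sum_congr rfl fun f _ => ?_
      rw [integral_const_mul, integral_finsetSum]
      intro χ _
      exact hWi f χ
    · intro f _
      apply Integrable.const_mul
      apply integrable_finsetSum
      intro χ _
      exact hWi f χ
  calc ∑ f ∈ Icc 1 F, ((f : ℝ) / (Nat.totient f : ℝ)) * ∑ χ ∈ Prim f,
      ∫ ξ in (-T)..T, ‖PL S (fun n => a n * χ (n : ZMod f)) (ξ + ξ₀)‖ ^ 2 ≤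
      ∑ f ∈ Icc 1 F, ((f : ℝ) / (Nat.totient f : ℝ)) * ∑ χ ∈ Prim f, 4 / κ ^ 2 * ∫ v, Wf f χ v := by
        apply sum_le_sum
        intro f _
        apply mul_le_mul_of_nonneg_left _ (by positivity)
        exact sum_le_sum fun χ _ => step1 f χ
    _ = 4 / κ ^ 2 * ∑ f ∈ Icc 1 F, ((f : ℝ) / (Nat.totient f : ℝ)) * ∑ χ ∈ Prim f, ∫ v, Wf f χ v := by
        rw [mul_sum]
        refine sum_congr rfl fun f _ => ?_
        rw [← mul_sum]
        ring
    _ ≤ 4 / κ ^ 2 * (κ * ∑ n ∈ S, 6 * (2 * κ * n + 1 + (F : ℝ) ^ 2) * ‖a n‖ ^ 2) := by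
        rw [← hIe]
        exact mul_le_mul_of_nonneg_left hI (by positivity)
    _ = 24 * ∑ n ∈ S, ‖a n‖ ^ 2 * (2 * n + 7 * T * (1 + (F : ℝ) ^ 2)) := by
        rw [mul_sum, mul_sum, mul_sum]
        refine sum_congr rfl fun n _ => ?_
        have hκT : 7 * T = 1 / κ := by rw [hκ]; field_simp
        rw [hκT]
        field_simp
        ring

/-- mean value of one sum -/
theorem mvt (S : Finset ℕ) (hS : ∀ n ∈ S, 1 ≤ n) (a : ℕ → ℂ) {T : ℝ} (hT : 1 ≤ T) :
    ∫ ξ in (-T)..T, ‖PL S a ξ‖ ^ 2 ≤ 24 * ∑ n ∈ S, ‖a n‖ ^ 2 * (2 * n + 14 * T) := by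
  classical
  have h := hls 1 S hS a hT 0
  have h1 : (1 : DirichletCharacter ℂ 1) ∈ Prim 1 := by
    unfold Prim
    rw [mem_filter]
    exact ⟨mem_univ _, DirichletCharacter.isPrimitive_one_level_one⟩
  rw [Icc_self, sum_singleton, Nat.totient_one, Nat.cast_one, div_one, one_mul] at h
  have h2 := single_le_sum (f := fun χ : DirichletCharacter ℂ 1 => ∫ ξ in (-T)..T, ‖PL S (fun n => a n * χ (n : ZMod 1)) (ξ + 0)‖ ^ 2)
    (fun χ _ => intervalIntegral.integral_nonneg (by linarith) fun _ _ => by positivity) h1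
  have h3 : ∀ ξ, PL S (fun n => a n * (1 : DirichletCharacter ℂ 1) (n : ZMod 1)) (ξ + 0) = PL S a ξ := by
    intro ξ
    rw [add_zero]
    unfold PL
    refine sum_congr rfl fun n _ => ?_
    show a n * (1 : DirichletCharacter ℂ 1) (n : ZMod 1) * _ = _
    rw [MulChar.one_apply (isUnit_of_subsingleton _), mul_one]
  simp_rw [h3] at h2
  refine (h2.trans h).trans (le_of_eq ?_)
  congr 1
  refine sum_congr rfl fun n _ => ?_
  ring

end Pool.Agent.J4H81.PT
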