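import Pool.Agent.J4H81.PT.LFb

/-!
# Growing prime tuples: from additive to logarithmic frequencies (helper81)
-/

set_option autoImplicit false

namespace Pool.Agent.J4H81.PT

open Finset MeasureTheory
open Pool.Agent.H807R2.Dav (ee norm_ee ee_add ee_zero ee_int ee_eq dd dd_le)

/-- the window in the original variable -/
noncomputable def GU (S : Finset ℕ) (c : ℕ → ℂ) (κ u : ℝ) : ℂ :=
  ∑ n ∈ S, (Set.Ico (n * Real.exp (-κ)) (n : ℝ)).indicator (fun u => c n * ((1 / (κ * u) : ℝ) : ℂ)) u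

theorem exp_neg_pos_lt {n : ℕ} (hn : 1 ≤ n) {κ : ℝ} (hκ : 0 < κ) : 0 < n * Real.exp (-κ) ∧ n * Real.exp (-κ) < n := by
  have hn0 : (0 : ℝ) < n := by exact_mod_cast hn
  refine ⟨by positivity, ?_⟩
  have : Real.exp (-κ) < 1 := by
    have h := Real.exp_lt_exp.2 (show -κ < 0 by linarith)
    rwa [Real.exp_zero] at h
  nlinarith

theorem GU_piece_int {n : ℕ} (hn : 1 ≤ n) {κ : ℝ} (hκ : 0 < κ) (z : ℂ) :
    IntegrableOn (fun u : ℝ => z * ((1 / (κ * u) : ℝ) : ℂ)) (Set.Icc (n * Real.exp (-κ)) (n : ℝ)) := by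
  apply ContinuousOn.integrableOn_Icc
  apply ContinuousOn.mul continuousOn_const
  apply Complex.continuous_ofReal.comp_continuousOn
  apply ContinuousOn.div continuousOn_const (by fun_prop)
  intro u hu
  have h1 := (exp_neg_pos_lt hn hκ).1
  have : 0 < u := h1.trans_le hu.1
  positivity

theorem GU_int (S : Finset ℕ) (hS : ∀ n ∈ S, 1 ≤ n) (c : ℕ → ℂ) {κ : ℝ} (hκ : 0 < κ) : Integrable (GU S c κ) := by
  unfold GU
  apply integrable_finsetSum
  intro n hn
  exact (integrable_indicator_iff measurableSet_Ico).2 ((GU_piece_int (hS n hn) hκ _).mono_set Set.Ico_subset_Icc_self)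

theorem GU_memLp (S : Finset ℕ) (hS : ∀ n ∈ S, 1 ≤ n) (c : ℕ → ℂ) {κ : ℝ} (hκ : 0 < κ) : MemLp (GU S c κ) 2 := by
  unfold GU
  apply memLp_finsetSum
  intro n hn
  have hn1 := hS n hn
  have h1 := (exp_neg_pos_lt hn1 hκ).1
  have hm : MemLp ((Set.Ico (n * Real.exp (-κ)) (n : ℝ)).indicator (fun _ : ℝ => ((‖c n‖ * (1 / (κ * (n * Real.exp (-κ)))) : ℝ) : ℂ))) 2 :=
    memLp_indicator_const 2 measurableSet_Ico _ (Or.inr (by simp))
  refine hm.mono ?_ ?_
  · rw [aestronglyMeasurable_indicator_iff measurableSet_Ico]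
    exact ((GU_piece_int hn1 hκ (c n)).mono_set Set.Ico_subset_Icc_self).aestronglyMeasurable
  · refine Filter.Eventually.of_forall fun u => ?_
    by_cases hu : u ∈ Set.Ico (n * Real.exp (-κ)) (n : ℝ)
    · rw [Set.indicator_of_mem hu, Set.indicator_of_mem hu, norm_mul, Complex.norm_real, Complex.norm_real]
      have hu0 : 0 < u := h1.trans_le hu.1
      rw [Real.norm_of_nonneg (by positivity), Real.norm_of_nonneg (by positivity)]
      apply mul_le_mul_of_nonneg_left _ (norm_nonneg _)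
      apply one_div_le_one_div_of_le (by positivity)
      exact mul_le_mul_of_nonneg_left hu.1 hκ.le
    · rw [Set.indicator_of_notMem hu, Set.indicator_of_notMem hu]

theorem GU_exp (S : Finset ℕ) (hS : ∀ n ∈ S, 1 ≤ n) (c : ℕ → ℂ) {κ : ℝ} (v : ℝ) :
    GU S c κ (Real.exp v) = ((Real.exp (-v) / κ : ℝ) : ℂ) * WW S c κ v := by
  unfold GU WW
  rw [mul_sum]
  refine sum_congr rfl fun n hn => ?_
  have hn0 : (0 : ℝ) < n := by exact_mod_cast hS n hn
  have hiff : Real.exp v ∈ Set.Ico (n * Real.exp (-κ)) (n : ℝ) ↔ v ∈ Set.Ico (Real.log n - κ) (Real.log n) := by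
    rw [Set.mem_Ico, Set.mem_Ico, Real.lt_log_iff_exp_lt hn0]
    have h1 : n * Real.exp (-κ) = Real.exp (Real.log n - κ) := by
      rw [sub_eq_add_neg, Real.exp_add, Real.exp_log hn0]
    rw [h1, Real.exp_le_exp]
  by_cases hv : v ∈ Set.Ico (Real.log n - κ) (Real.log n)
  · rw [Set.indicator_of_mem hv, Set.indicator_of_mem (hiff.2 hv), Real.exp_neg]
    push_cast
    field_simp
  · rw [Set.indicator_of_notMem hv, Set.indicator_of_notMem (fun h => hv (hiff.1 h)), mul_zero]

/-- the norm of the window in the original variable -/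
theorem GU_norm (S : Finset ℕ) {N₁ : ℝ} (hN : 1 ≤ N₁) (hS : ∀ n ∈ S, N₁ ≤ n) (c : ℕ → ℂ) {κ : ℝ} (hκ : 0 < κ) :
    ∫ u, ‖GU S c κ u‖ ^ 2 ≤ Real.exp κ / (N₁ * κ ^ 2) * ∫ v, ‖WW S c κ v‖ ^ 2 := by
  have hS1 : ∀ n ∈ S, 1 ≤ n := fun n hn => by exact_mod_cast hN.trans (hS n hn)
  have h0 : ∀ u, u ∉ Set.Ioi (0 : ℝ) → ‖GU S c κ u‖ ^ 2 = 0 := by
    intro u hu
    have : GU S c κ u = 0 := by
      unfold GU
      apply sum_eq_zero
      intro n hn
      rw [Set.indicator_of_notMem]
      intro h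
      exact hu ((exp_neg_pos_lt (hS1 n hn) hκ).1.trans_le h.1)
    rw [this]; simp
  rw [← setIntegral_eq_integral_of_forall_compl_eq_zero h0]
  have himg : Real.exp '' Set.univ = Set.Ioi 0 := by rw [Set.image_univ, Real.range_exp]
  rw [← himg, integral_image_eq_integral_abs_deriv_smul MeasurableSet.univ
    (fun x _ => (Real.hasDerivAt_exp x).hasDerivWithinAt) Real.exp_injective.injOn, Measure.restrict_univ, ← integral_const_mul]
  have hWi := (pl_planch S c hκ).2.1
  apply integral_mono_of_nonneg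
  · refine Filter.Eventually.of_forall fun v => ?_
    simp only [Pi.zero_apply]
    positivity
  · exact hWi.const_mul _
  · refine Filter.Eventually.of_forall fun v => ?_
    simp only
    rw [GU_exp S hS1 c, norm_mul, Complex.norm_real, Real.norm_of_nonneg (by positivity), abs_of_pos (Real.exp_pos v),
      smul_eq_mul]
    by_cases hz : WW S c κ v = 0
    · rw [hz]; simp
    · have h1 : ∃ n ∈ S, v ∈ Set.Ico (Real.log n - κ) (Real.log n) := by
        by_contra hcon
        push Not at hcon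
        apply hz
        unfold WW
        apply sum_eq_zero
        intro n hn
        rw [Set.indicator_of_notMem (hcon n hn)]
      obtain ⟨n, hn, hv⟩ := h1
      have hN0 : 0 < N₁ := by linarith
      have h2 : Real.log N₁ - κ ≤ v := by
        have := Real.log_le_log hN0 (hS n hn)
        linarith [hv.1]
      have h3 : Real.exp (-v) ≤ Real.exp κ / N₁ := by
        rw [le_div_iff₀ hN0]
        have h4 : Real.exp (-v) ≤ Real.exp (κ - Real.log N₁) := Real.exp_le_exp.2 (by linarith)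
        rw [Real.exp_sub, Real.exp_log hN0] at h4
        rw [le_div_iff₀ hN0] at h4
        exact h4
      calc Real.exp v * (Real.exp (-v) / κ * ‖WW S c κ v‖) ^ 2 =
            (Real.exp v * Real.exp (-v)) * Real.exp (-v) * (1 / κ ^ 2 * ‖WW S c κ v‖ ^ 2) := by field_simp
        _ = Real.exp (-v) * (1 / κ ^ 2 * ‖WW S c κ v‖ ^ 2) := by
            rw [← Real.exp_add, add_neg_cancel, Real.exp_zero, one_mul]
        _ ≤ (Real.exp κ / N₁) * (1 / κ ^ 2 * ‖WW S c κ v‖ ^ 2) := by gcongr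
        _ = _ := by field_simp

/-- the transform of the window in the original variable -/
theorem GU_fourier (S : Finset ℕ) {N : ℝ} (hS : ∀ n ∈ S, 1 ≤ n ∧ (n : ℝ) ≤ N) (c : ℕ → ℂ) {κ : ℝ} (hκ : 0 < κ) (β : ℝ) :
    ‖∑ n ∈ S, c n * ee (n * β) - FourierTransform.fourier (GU S c κ) (-β)‖ ≤ 2 * Real.pi * |β| * N * κ * ∑ n ∈ S, ‖c n‖ := by
  rw [Real.fourier_real_eq_integral_exp_smul]
  have h1 : ∀ u : ℝ, Complex.exp (↑(-2 * Real.pi * u * (-β)) * Complex.I) • GU S c κ u =
      ∑ n ∈ S, (Set.Ico (n * Real.exp (-κ)) (n : ℝ)).indicator (fun u => ee (u * β) * (c n * ((1 / (κ * u) : ℝ) : ℂ))) u := by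
    intro v
    unfold GU
    rw [smul_sum]
    refine sum_congr rfl fun n _ => ?_
    have e1 : Complex.exp (↑(-2 * Real.pi * v * (-β)) * Complex.I) = ee (v * β) := by
      unfold ee
      congr 1
      push_cast
      ring
    rw [e1]
    by_cases hv : v ∈ Set.Ico (n * Real.exp (-κ)) (n : ℝ)
    · rw [Set.indicator_of_mem hv, Set.indicator_of_mem hv, smul_eq_mul]
    · rw [Set.indicator_of_notMem hv, Set.indicator_of_notMem hv, smul_zero]
  simp_rw [h1]
  have hcontOn : ∀ n ∈ S, ContinuousOn (fun u : ℝ => ee (u * β) * (c n * ((1 / (κ * u) : ℝ) : ℂ))) (Set.Icc (n * Real.exp (-κ)) (n : ℝ)) := by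
    intro n hn
    apply ContinuousOn.mul (ee_cont'.comp (by fun_prop)).continuousOn
    apply ContinuousOn.mul continuousOn_const
    apply Complex.continuous_ofReal.comp_continuousOn
    apply ContinuousOn.div continuousOn_const (by fun_prop)
    intro u hu
    have : 0 < u := (exp_neg_pos_lt (hS n hn).1 hκ).1.trans_le hu.1
    positivity
  rw [integral_finsetSum, ← sum_sub_distrib, mul_sum]
  · refine norm_sum_le_of_le _ fun n hn => ?_
    obtain ⟨hn1, hnN⟩ := hS n hn
    have hn0 : (0 : ℝ) < n := by exact_mod_cast hn1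
    obtain ⟨hp, hlt⟩ := exp_neg_pos_lt hn1 hκ
    rw [integral_indicator measurableSet_Ico, integral_Ico_eq_integral_Ioc, ← intervalIntegral.integral_of_le hlt.le]
    have e2 : c n * ee (n * β) = ∫ u in (n * Real.exp (-κ))..(n : ℝ), ee (n * β) * (c n * ((1 / (κ * u) : ℝ) : ℂ)) := by
      have e3 : ∀ u : ℝ, ee (n * β) * (c n * ((1 / (κ * u) : ℝ) : ℂ)) = (c n * ee (n * β)) * (((1 / κ) * u⁻¹ : ℝ) : ℂ) := by
        intro u
        push_cast
        field_simp
      simp_rw [e3]
      rw [intervalIntegral.integral_const_mul, intervalIntegral.integral_ofReal, intervalIntegral.integral_const_mul,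
        integral_inv_of_pos hp hn0]
      have e4 : Real.log (n / (n * Real.exp (-κ))) = κ := by
        rw [Real.log_div hn0.ne' hp.ne', Real.log_mul hn0.ne' (Real.exp_pos _).ne', Real.log_exp]
        ring
      rw [e4]
      have : 1 / κ * κ = 1 := by field_simp
      rw [this]
      simp
    rw [e2, ← intervalIntegral.integral_sub]
    · have h2 : ‖∫ u in (n * Real.exp (-κ))..(n : ℝ), (ee (n * β) * (c n * ((1 / (κ * u) : ℝ) : ℂ)) - ee (u * β) * (c n * ((1 / (κ * u) : ℝ) : ℂ)))‖ ≤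
          ∫ u in (n * Real.exp (-κ))..(n : ℝ), (2 * Real.pi * |β| * N * κ * ‖c n‖ * (1 / κ)) * u⁻¹ := by
        apply intervalIntegral.norm_integral_le_of_norm_le hlt.le
        · refine Filter.Eventually.of_forall fun u hu => ?_
          have hu0 : 0 < u := hp.trans hu.1
          rw [← sub_mul, norm_mul, norm_mul, Complex.norm_real, Real.norm_of_nonneg (by positivity)]
          have h3 : ‖ee (n * β) - ee (u * β)‖ ≤ 2 * Real.pi * |β| * N * κ := by
            have h4 : ee (n * β) - ee (u * β) = ee (n * β) * (1 - ee ((u - n) * β)) := by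
              rw [mul_sub, mul_one, ← ee_add]
              congr 2
              ring
            rw [h4, norm_mul, norm_ee, one_mul]
            have h5 := dd_le ((u - n) * β)
            unfold dd at h5
            refine h5.trans ?_
            rw [abs_mul, abs_of_nonpos (by linarith [hu.2])]
            have h6 : -(u - n) ≤ N * κ := by
              have h7 : 1 - κ ≤ Real.exp (-κ) := by
                have := Real.add_one_le_exp (-κ)
                linarith
              have h8 : n * (1 - κ) ≤ n * Real.exp (-κ) := mul_le_mul_of_nonneg_left h7 hn0.le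
              have h9 : n * κ ≤ N * κ := mul_le_mul_of_nonneg_right hnN hκ.le
              linarith [hu.1]
            calc 2 * Real.pi * (-(u - n) * |β|) ≤ 2 * Real.pi * (N * κ * |β|) := by
                  have := Real.pi_pos
                  gcongr
              _ = _ := by ring
          calc ‖ee (n * β) - ee (u * β)‖ * (‖c n‖ * (1 / (κ * u))) ≤ 2 * Real.pi * |β| * N * κ * (‖c n‖ * (1 / (κ * u))) :=
                mul_le_mul_of_nonneg_right h3 (by positivity)
            _ = _ := by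
                field_simp
        · apply ContinuousOn.intervalIntegrable
          rw [Set.uIcc_of_le hlt.le]
          apply ContinuousOn.mul continuousOn_const
          apply ContinuousOn.inv₀ continuousOn_id
          intro u hu
          have : 0 < u := hp.trans_le hu.1
          exact this.ne'
      refine h2.trans (le_of_eq ?_)
      rw [intervalIntegral.integral_const_mul, integral_inv_of_pos hp hn0]
      have e4 : Real.log (n / (n * Real.exp (-κ))) = κ := by
        rw [Real.log_div hn0.ne' hp.ne', Real.log_mul hn0.ne' (Real.exp_pos _).ne', Real.log_exp]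
        ring
      rw [e4]
      field_simp
    · apply ContinuousOn.intervalIntegrable
      rw [Set.uIcc_of_le hlt.le]
      apply ContinuousOn.mul continuousOn_const
      apply ContinuousOn.mul continuousOn_const
      apply Complex.continuous_ofReal.comp_continuousOn
      apply ContinuousOn.div continuousOn_const (by fun_prop)
      intro u hu
      have : 0 < u := hp.trans_le hu.1
      positivity
    · apply ContinuousOn.intervalIntegrable
      rw [Set.uIcc_of_le hlt.le]
      exact hcontOn n hn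
  · intro n hn
    rw [integrable_indicator_iff measurableSet_Ico]
    exact (hcontOn n hn).integrableOn_Icc.mono_set Set.Ico_subset_Icc_self

/-- short additive frequencies through logarithmic frequencies -/
theorem add_to_log (S : Finset ℕ) {N₁ N : ℝ} (hN : 1 ≤ N₁) (hS : ∀ n ∈ S, N₁ ≤ n ∧ (n : ℝ) ≤ N) (c : ℕ → ℂ) {κ : ℝ} (hκ : 0 < κ)
    (hκ1 : κ ≤ 1) {Δ : ℝ} (hΔ : 0 ≤ Δ) :
    ∫ β in (-Δ)..Δ, ‖∑ n ∈ S, c n * ee (n * β)‖ ^ 2 ≤
      6 / (N₁ * κ ^ 2) * (∫ ξ, ‖PL S c ξ * KK κ ξ‖ ^ 2) + 160 * Δ ^ 3 * (N * κ * ∑ n ∈ S, ‖c n‖) ^ 2 := by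
  have hS1 : ∀ n ∈ S, 1 ≤ n ∧ (n : ℝ) ≤ N := fun n hn => ⟨by exact_mod_cast hN.trans (hS n hn).1, (hS n hn).2⟩
  have hN0 : 0 < N₁ := by linarith
  obtain ⟨p1, p2, p3⟩ := planch_real (GU_int S (fun n hn => (hS1 n hn).1) c hκ) (GU_memLp S (fun n hn => (hS1 n hn).1) c hκ)
  have hG := GU_norm S hN (fun n hn => (hS n hn).1) c hκ
  have hpl := (pl_planch S c hκ).2.2
  set E : ℝ := 2 * Real.pi * Δ * N * κ * ∑ n ∈ S, ‖c n‖ with hE
  have hpi := Real.pi_pos
  have hsum0 : 0 ≤ ∑ n ∈ S, ‖c n‖ := sum_nonneg fun _ _ => norm_nonneg _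
  rcases S.eq_empty_or_nonempty with hSe | ⟨n₀, hn₀⟩
  · subst hSe
    simp [PL]
  have hNpos : 0 ≤ N := by
    have := (hS n₀ hn₀).2
    have h0 : (0 : ℝ) ≤ n₀ := Nat.cast_nonneg _
    linarith
  have hE0 : 0 ≤ E := by positivity
  have hpt : ∀ β ∈ Set.Ioc (-Δ) Δ, ‖∑ n ∈ S, c n * ee (n * β)‖ ^ 2 ≤
      2 * ‖FourierTransform.fourier (GU S c κ) (-β)‖ ^ 2 + 2 * E ^ 2 := by
    intro β hβ
    have h1 := GU_fourier S hS1 c hκ β
    have h2 : |β| ≤ Δ := abs_le.2 ⟨hβ.1.le, hβ.2⟩
    have h3 : ‖∑ n ∈ S, c n * ee (n * β) - FourierTransform.fourier (GU S c κ) (-β)‖ ≤ E := by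
      refine h1.trans ?_
      rw [hE]
      gcongr
    have h4 : ‖∑ n ∈ S, c n * ee (n * β)‖ ≤ ‖FourierTransform.fourier (GU S c κ) (-β)‖ + E := by
      have := norm_sub_norm_le (∑ n ∈ S, c n * ee (n * β)) (FourierTransform.fourier (GU S c κ) (-β))
      linarith
    have h5 : ‖∑ n ∈ S, c n * ee (n * β)‖ ^ 2 ≤ (‖FourierTransform.fourier (GU S c κ) (-β)‖ + E) ^ 2 :=
      pow_le_pow_left₀ (norm_nonneg _) h4 2
    nlinarith [sq_nonneg (‖FourierTransform.fourier (GU S c κ) (-β)‖ - E)]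
  have hcneg : Integrable (fun β => ‖FourierTransform.fourier (GU S c κ) (-β)‖ ^ 2) := p1.comp_neg
  rw [intervalIntegral.integral_of_le (by linarith)]
  calc ∫ β in Set.Ioc (-Δ) Δ, ‖∑ n ∈ S, c n * ee (n * β)‖ ^ 2 ≤
        ∫ β in Set.Ioc (-Δ) Δ, (2 * ‖FourierTransform.fourier (GU S c κ) (-β)‖ ^ 2 + 2 * E ^ 2) := by
        apply setIntegral_mono_on _ _ measurableSet_Ioc hpt
        · apply Continuous.integrableOn_Ioc
          apply Continuous.pow
          apply Continuous.norm
          apply continuous_finsetSum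
          intro n _
          exact continuous_const.mul (ee_cont'.comp (by fun_prop))
        · exact ((hcneg.const_mul 2).integrableOn).add (integrableOn_const (by simp))
    _ = 2 * (∫ β in Set.Ioc (-Δ) Δ, ‖FourierTransform.fourier (GU S c κ) (-β)‖ ^ 2) + 2 * Δ * (2 * E ^ 2) := by
        rw [integral_add ((hcneg.const_mul 2).integrableOn) (integrableOn_const (by simp)), integral_const_mul, setIntegral_const]
        congr 1
        rw [smul_eq_mul, Measure.real, Real.volume_Ioc, ENNReal.toReal_ofReal (by linarith)]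
        ring
    _ ≤ 2 * (∫ β, ‖FourierTransform.fourier (GU S c κ) (-β)‖ ^ 2) + 2 * Δ * (2 * E ^ 2) := by
        have := setIntegral_le_integral (s := Set.Ioc (-Δ) Δ) hcneg (Filter.Eventually.of_forall fun β => by
          simp only [Pi.zero_apply]
          positivity)
        linarith
    _ = 2 * (∫ u, ‖GU S c κ u‖ ^ 2) + 2 * Δ * (2 * E ^ 2) := by
        rw [integral_neg_eq_self (fun β => ‖FourierTransform.fourier (GU S c κ) β‖ ^ 2), p3]
    _ ≤ 2 * (Real.exp κ / (N₁ * κ ^ 2) * ∫ ξ, ‖PL S c ξ * KK κ ξ‖ ^ 2) + 2 * Δ * (2 * E ^ 2) := by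
        rw [hpl]
        linarith
    _ ≤ 6 / (N₁ * κ ^ 2) * (∫ ξ, ‖PL S c ξ * KK κ ξ‖ ^ 2) + 160 * Δ ^ 3 * (N * κ * ∑ n ∈ S, ‖c n‖) ^ 2 := by
        have h6 : Real.exp κ ≤ 3 := by
          have h7 := Real.exp_le_exp.2 hκ1
          have h8 := Real.exp_one_lt_d9
          linarith
        have h9 : 0 ≤ ∫ ξ, ‖PL S c ξ * KK κ ξ‖ ^ 2 := integral_nonneg fun _ => by positivity
        have h10 : 2 * (Real.exp κ / (N₁ * κ ^ 2) * ∫ ξ, ‖PL S c ξ * KK κ ξ‖ ^ 2) ≤ 6 / (N₁ * κ ^ 2) * (∫ ξ, ‖PL S c ξ * KK κ ξ‖ ^ 2) := by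
          rw [← mul_assoc, ← mul_div_assoc]
          apply mul_le_mul_of_nonneg_right _ h9
          apply div_le_div_of_nonneg_right (by linarith) (by positivity)
        have h11 : 2 * Δ * (2 * E ^ 2) ≤ 160 * Δ ^ 3 * (N * κ * ∑ n ∈ S, ‖c n‖) ^ 2 := by
          have e5 : 2 * Δ * (2 * E ^ 2) = (16 * Real.pi ^ 2) * (Δ ^ 3 * (N * κ * ∑ n ∈ S, ‖c n‖) ^ 2) := by
            rw [hE]; ring
          have h12 : 16 * Real.pi ^ 2 ≤ 160 := by
            have := Real.pi_lt_d2
            nlinarith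
          rw [e5]
          calc (16 * Real.pi ^ 2) * (Δ ^ 3 * (N * κ * ∑ n ∈ S, ‖c n‖) ^ 2) ≤ 160 * (Δ ^ 3 * (N * κ * ∑ n ∈ S, ‖c n‖) ^ 2) :=
                mul_le_mul_of_nonneg_right h12 (by positivity)
            _ = _ := by ring
        linarith

end Pool.Agent.J4H81.PT
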