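import Pool.Agent.J4H81.PT.LFc

/-!
# Growing prime tuples: mean squares over short additive intervals (helper81)
-/

set_option autoImplicit false

namespace Pool.Agent.J4H81.PT

open Finset MeasureTheory
open Pool.Agent.H807R2.Dav (ee norm_ee ee_add ee_zero ee_int ee_eq dd dd_le)

/-- the tail of a weighted integral -/
theorem tail_bound {g h : ℝ → ℝ} {A B T₁ : ℝ} (hg : Integrable g) (hc : Continuous h) (h0 : ∀ ξ, 0 ≤ h ξ)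
    (hT₁ : 1 ≤ T₁) (hgh : ∀ ξ, T₁ < |ξ| → g ξ ≤ h ξ / ξ ^ 2) (hA : 0 ≤ A) (hB : 0 ≤ B)
    (hH : ∀ T : ℝ, 1 ≤ T → ∫ ξ in (-T)..T, h ξ ≤ A + B * T) :
    ∫ ξ in {ξ : ℝ | T₁ < |ξ|}, g ξ ≤ 4 * (A + B * T₁) / T₁ ^ 2 := by
  have hT0 : 0 < T₁ := by linarith
  have hms : ∀ a b : ℝ, MeasurableSet {ξ : ℝ | a < |ξ| ∧ |ξ| ≤ b} := fun a b =>
    (measurableSet_lt measurable_const measurable_norm).inter (measurableSet_le measurable_norm measurable_const)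
  have step : ∀ n : ℕ, ∫ ξ in {ξ : ℝ | 2 ^ n * T₁ < |ξ| ∧ |ξ| ≤ 2 ^ (n + 1) * T₁}, g ξ ≤
      (A + B * (2 ^ (n + 1) * T₁)) / (2 ^ n * T₁) ^ 2 := by
    intro n
    have h2n : (1 : ℝ) ≤ 2 ^ n := one_le_pow₀ (by norm_num)
    have h2n1 : (1 : ℝ) ≤ 2 ^ (n + 1) := one_le_pow₀ (by norm_num)
    have hpos : 0 < 2 ^ n * T₁ := by positivity
    have hbig : 1 ≤ 2 ^ (n + 1) * T₁ := by nlinarith
    have hsub : {ξ : ℝ | 2 ^ n * T₁ < |ξ| ∧ |ξ| ≤ 2 ^ (n + 1) * T₁} ⊆ Set.Icc (-(2 ^ (n + 1) * T₁)) (2 ^ (n + 1) * T₁) := by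
      rintro ξ ⟨_, h2⟩
      exact abs_le.1 h2
    have hIcc : IntegrableOn h (Set.Icc (-(2 ^ (n + 1) * T₁)) (2 ^ (n + 1) * T₁)) := hc.integrableOn_Icc
    calc ∫ ξ in {ξ : ℝ | 2 ^ n * T₁ < |ξ| ∧ |ξ| ≤ 2 ^ (n + 1) * T₁}, g ξ ≤
          ∫ ξ in {ξ : ℝ | 2 ^ n * T₁ < |ξ| ∧ |ξ| ≤ 2 ^ (n + 1) * T₁}, h ξ * (1 / (2 ^ n * T₁) ^ 2) := by
          apply setIntegral_mono_on hg.integrableOn ((hIcc.mono_set hsub).mul_const _) (hms _ _)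
          rintro ξ ⟨h3, _⟩
          refine (hgh ξ (lt_of_le_of_lt (by nlinarith) h3)).trans ?_
          rw [div_eq_mul_one_div]
          apply mul_le_mul_of_nonneg_left _ (h0 ξ)
          apply one_div_le_one_div_of_le (by positivity)
          rw [← sq_abs ξ]
          exact pow_le_pow_left₀ hpos.le h3.le 2
      _ = (∫ ξ in {ξ : ℝ | 2 ^ n * T₁ < |ξ| ∧ |ξ| ≤ 2 ^ (n + 1) * T₁}, h ξ) * (1 / (2 ^ n * T₁) ^ 2) :=
          integral_mul_const _ _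
      _ ≤ (∫ ξ in Set.Icc (-(2 ^ (n + 1) * T₁)) (2 ^ (n + 1) * T₁), h ξ) * (1 / (2 ^ n * T₁) ^ 2) := by
          apply mul_le_mul_of_nonneg_right _ (by positivity)
          exact setIntegral_mono_set hIcc (Filter.Eventually.of_forall h0) hsub.eventuallyLE
      _ ≤ (A + B * (2 ^ (n + 1) * T₁)) * (1 / (2 ^ n * T₁) ^ 2) := by
          apply mul_le_mul_of_nonneg_right _ (by positivity)
          rw [integral_Icc_eq_integral_Ioc, ← intervalIntegral.integral_of_le (by linarith)]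
          exact hH _ hbig
      _ = _ := by ring
  have hind : ∀ n : ℕ, ∫ ξ in {ξ : ℝ | T₁ < |ξ| ∧ |ξ| ≤ 2 ^ n * T₁}, g ξ ≤
      4 / 3 * (A / T₁ ^ 2) * (1 - (1 / 4) ^ n) + 4 * (B / T₁) * (1 - (1 / 2) ^ n) := by
    intro n
    induction n with
    | zero =>
      have : {ξ : ℝ | T₁ < |ξ| ∧ |ξ| ≤ 2 ^ 0 * T₁} = ∅ := by
        ext ξ
        simp only [Set.mem_ofPred_eq, Set.mem_empty_iff_false, iff_false, not_and, not_le]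
        intro h
        linarith
      rw [this]
      simp
    | succ n ih =>
      have h2n : (1 : ℝ) ≤ 2 ^ n := one_le_pow₀ (by norm_num)
      have hun : {ξ : ℝ | T₁ < |ξ| ∧ |ξ| ≤ 2 ^ (n + 1) * T₁} = {ξ : ℝ | T₁ < |ξ| ∧ |ξ| ≤ 2 ^ n * T₁} ∪
          {ξ : ℝ | 2 ^ n * T₁ < |ξ| ∧ |ξ| ≤ 2 ^ (n + 1) * T₁} := by
        ext ξ
        simp only [Set.mem_ofPred_eq, Set.mem_union]
        have e : (2 : ℝ) ^ (n + 1) * T₁ = 2 * (2 ^ n * T₁) := by ring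
        rw [e]
        constructor
        · rintro ⟨h1, h2⟩
          rcases le_or_gt |ξ| (2 ^ n * T₁) with h3 | h3
          · exact Or.inl ⟨h1, h3⟩
          · exact Or.inr ⟨h3, h2⟩
        · rintro (⟨h1, h2⟩ | ⟨h1, h2⟩)
          · exact ⟨h1, by nlinarith⟩
          · exact ⟨by nlinarith, h2⟩
      rw [hun, setIntegral_union _ (hms _ _) hg.integrableOn hg.integrableOn]
      · have h5 := step n
        have e1 : (A + B * (2 ^ (n + 1) * T₁)) / (2 ^ n * T₁) ^ 2 = A / T₁ ^ 2 * (1 / 4) ^ n + 2 * (B / T₁) * (1 / 2) ^ n := by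
          have e2 : ((1 : ℝ) / 4) ^ n = 1 / (2 ^ n) ^ 2 := by
            rw [div_pow, one_pow, ← pow_mul, mul_comm n 2, pow_mul]; norm_num
          have e3 : ((1 : ℝ) / 2) ^ n = 1 / 2 ^ n := by rw [div_pow, one_pow]
          rw [e2, e3, pow_succ]
          field_simp
        rw [e1] at h5
        have e4 : ((1 : ℝ) / 4) ^ (n + 1) = (1 / 4) ^ n * (1 / 4) := pow_succ _ _
        have e5 : ((1 : ℝ) / 2) ^ (n + 1) = (1 / 2) ^ n * (1 / 2) := pow_succ _ _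
        rw [e4, e5]
        linarith
      · rw [Set.disjoint_left]
        rintro ξ ⟨_, h1⟩ ⟨h2, _⟩
        linarith
  have hlim := tendsto_setIntegral_of_monotone (μ := volume) (f := g) (s := fun n : ℕ => {ξ : ℝ | T₁ < |ξ| ∧ |ξ| ≤ 2 ^ n * T₁})
    (fun n => hms _ _) (by
      intro m n hmn ξ hξ
      refine ⟨hξ.1, hξ.2.trans ?_⟩
      have : (2 : ℝ) ^ m ≤ 2 ^ n := pow_le_pow_right₀ (by norm_num) hmn
      exact mul_le_mul_of_nonneg_right this hT0.le) hg.integrableOn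
  have hU : (⋃ n : ℕ, {ξ : ℝ | T₁ < |ξ| ∧ |ξ| ≤ 2 ^ n * T₁}) = {ξ : ℝ | T₁ < |ξ|} := by
    ext ξ
    simp only [Set.mem_iUnion, Set.mem_ofPred_eq, exists_and_left, and_iff_left_iff_imp]
    intro _
    obtain ⟨n, hn⟩ := pow_unbounded_of_one_lt |ξ| (by norm_num : (1 : ℝ) < 2)
    refine ⟨n, hn.le.trans ?_⟩
    have : (0 : ℝ) < 2 ^ n := by positivity
    nlinarith
  rw [hU] at hlim
  apply le_of_tendsto hlim
  refine Filter.Eventually.of_forall fun n => ?_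
  refine (hind n).trans ?_
  have h6 : (0 : ℝ) < (1 / 4) ^ n := by positivity
  have h7 : (0 : ℝ) < (1 / 2) ^ n := by positivity
  have h8 : 0 ≤ A / T₁ ^ 2 := by positivity
  have h9 : 0 ≤ B / T₁ := by positivity
  have e : 4 * (A + B * T₁) / T₁ ^ 2 = 4 * (A / T₁ ^ 2) + 4 * (B / T₁) := by field_simp
  rw [e]
  nlinarith

/-- the weighted mean square -/
theorem pl_total (S : Finset ℕ) {N : ℝ} (hS : ∀ n ∈ S, 1 ≤ n ∧ (n : ℝ) ≤ N) (c : ℕ → ℂ) {κ T₁ : ℝ} (hκ : 0 < κ)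
    (hT₁ : 1 ≤ T₁) (hT₁N : T₁ ≤ N) :
    ∫ ξ, ‖PL S c ξ * KK κ ξ‖ ^ 2 ≤ κ ^ 2 * (∫ ξ in (-T₁)..T₁, ‖PL S c ξ‖ ^ 2) + 200 * N / T₁ ^ 2 * ∑ n ∈ S, ‖c n‖ ^ 2 := by
  have hg := (pl_planch S c hκ).1
  have hN0 : 0 < N := by linarith
  have hcont : Continuous fun ξ => ‖PL S c ξ‖ ^ 2 := (PL_cont S c).norm.pow 2
  have hms : MeasurableSet {ξ : ℝ | T₁ < |ξ|} := measurableSet_lt measurable_const measurable_norm
  have hs0 : 0 ≤ ∑ n ∈ S, ‖c n‖ ^ 2 := sum_nonneg fun _ _ => by positivity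
  have htail := tail_bound (g := fun ξ => ‖PL S c ξ * KK κ ξ‖ ^ 2) (h := fun ξ => 1 / 9 * ‖PL S c ξ‖ ^ 2)
    (A := 1 / 9 * (48 * N * ∑ n ∈ S, ‖c n‖ ^ 2)) (B := 1 / 9 * (336 * ∑ n ∈ S, ‖c n‖ ^ 2)) (T₁ := T₁) hg
    (continuous_const.mul hcont) (fun ξ => by positivity) hT₁ (by
      intro ξ hξ
      have hξ0 : ξ ≠ 0 := by
        rintro rfl
        rw [abs_zero] at hξ
        linarith
      have h1 := KK_le' κ hξ0
      have h2 : 0 < |ξ| := abs_pos.2 hξ0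
      show ‖PL S c ξ * KK κ ξ‖ ^ 2 ≤ 1 / 9 * ‖PL S c ξ‖ ^ 2 / ξ ^ 2
      rw [norm_mul, mul_pow]
      calc ‖PL S c ξ‖ ^ 2 * ‖KK κ ξ‖ ^ 2 ≤ ‖PL S c ξ‖ ^ 2 * (1 / (3 * |ξ|)) ^ 2 := by gcongr
        _ = 1 / 9 * ‖PL S c ξ‖ ^ 2 / |ξ| ^ 2 := by field_simp; norm_num
        _ = _ := by rw [sq_abs]) (by positivity) (by positivity) (by
      intro T hT
      rw [intervalIntegral.integral_const_mul]
      have h1 := mvt S (fun n hn => (hS n hn).1) c hT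
      have h2 : 24 * ∑ n ∈ S, ‖c n‖ ^ 2 * (2 * n + 14 * T) ≤ 48 * N * ∑ n ∈ S, ‖c n‖ ^ 2 + 336 * (∑ n ∈ S, ‖c n‖ ^ 2) * T := by
        have e : 48 * N * ∑ n ∈ S, ‖c n‖ ^ 2 + 336 * (∑ n ∈ S, ‖c n‖ ^ 2) * T = 24 * ∑ n ∈ S, ‖c n‖ ^ 2 * (2 * N + 14 * T) := by
          rw [← sum_mul]; ring
        rw [e]
        apply mul_le_mul_of_nonneg_left _ (by norm_num)
        apply sum_le_sum
        intro n hn
        have := (hS n hn).2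
        gcongr
      nlinarith)
  have hsplit : ∫ ξ, ‖PL S c ξ * KK κ ξ‖ ^ 2 = (∫ ξ in {ξ : ℝ | T₁ < |ξ|}, ‖PL S c ξ * KK κ ξ‖ ^ 2) +
      ∫ ξ in {ξ : ℝ | T₁ < |ξ|}ᶜ, ‖PL S c ξ * KK κ ξ‖ ^ 2 := (integral_add_compl hms hg).symm
  have hcompl : ({ξ : ℝ | T₁ < |ξ|})ᶜ = Set.Icc (-T₁) T₁ := by
    ext ξ
    simp only [Set.mem_compl_iff, Set.mem_ofPred_eq, not_lt, Set.mem_Icc]
    exact abs_le
  rw [hsplit, hcompl]
  have hmain : ∫ ξ in Set.Icc (-T₁) T₁, ‖PL S c ξ * KK κ ξ‖ ^ 2 ≤ κ ^ 2 * (∫ ξ in (-T₁)..T₁, ‖PL S c ξ‖ ^ 2) := by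
    rw [intervalIntegral.integral_of_le (by linarith), ← integral_Icc_eq_integral_Ioc, ← integral_const_mul]
    apply setIntegral_mono_on hg.integrableOn _ measurableSet_Icc
    · intro ξ _
      rw [norm_mul, mul_pow, mul_comm]
      exact mul_le_mul_of_nonneg_right (pow_le_pow_left₀ (norm_nonneg _) (KK_le hκ.le ξ) 2) (by positivity)
    · exact (continuous_const.mul hcont).integrableOn_Icc
  have h3 : 4 * (1 / 9 * (48 * N * ∑ n ∈ S, ‖c n‖ ^ 2) + 1 / 9 * (336 * ∑ n ∈ S, ‖c n‖ ^ 2) * T₁) / T₁ ^ 2 ≤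
      200 * N / T₁ ^ 2 * ∑ n ∈ S, ‖c n‖ ^ 2 := by
    have e : 200 * N / T₁ ^ 2 * ∑ n ∈ S, ‖c n‖ ^ 2 = (200 * N * ∑ n ∈ S, ‖c n‖ ^ 2) / T₁ ^ 2 := by ring
    rw [e]
    apply div_le_div_of_nonneg_right _ (by positivity)
    have : (∑ n ∈ S, ‖c n‖ ^ 2) * T₁ ≤ (∑ n ∈ S, ‖c n‖ ^ 2) * N := mul_le_mul_of_nonneg_left hT₁N hs0
    nlinarith [mul_nonneg hs0 hN0.le]
  linarith

/-- mean squares over a short interval around zero -/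
theorem add_energy (S : Finset ℕ) {N₁ N : ℝ} (hN : 1 ≤ N₁) (hS : ∀ n ∈ S, N₁ ≤ n ∧ (n : ℝ) ≤ N) (c : ℕ → ℂ) {κ T₁ : ℝ} (hκ : 0 < κ)
    (hκ1 : κ ≤ 1) (hT₁ : 1 ≤ T₁) (hT₁N : T₁ ≤ N) {Δ : ℝ} (hΔ : 0 ≤ Δ) :
    ∫ β in (-Δ)..Δ, ‖∑ n ∈ S, c n * ee (n * β)‖ ^ 2 ≤
      6 / N₁ * (∫ ξ in (-T₁)..T₁, ‖PL S c ξ‖ ^ 2) + 1200 * N / (N₁ * κ ^ 2 * T₁ ^ 2) * (∑ n ∈ S, ‖c n‖ ^ 2) +
        160 * Δ ^ 3 * (N * κ * ∑ n ∈ S, ‖c n‖) ^ 2 := by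
  have hN0 : 0 < N₁ := by linarith
  have h1 := add_to_log S hN hS c hκ hκ1 hΔ
  have h2 := pl_total S (fun n hn => ⟨by exact_mod_cast hN.trans (hS n hn).1, (hS n hn).2⟩) c hκ hT₁ hT₁N
  refine h1.trans ?_
  apply add_le_add _ le_rfl
  calc 6 / (N₁ * κ ^ 2) * (∫ ξ, ‖PL S c ξ * KK κ ξ‖ ^ 2) ≤
        6 / (N₁ * κ ^ 2) * (κ ^ 2 * (∫ ξ in (-T₁)..T₁, ‖PL S c ξ‖ ^ 2) + 200 * N / T₁ ^ 2 * ∑ n ∈ S, ‖c n‖ ^ 2) :=
        mul_le_mul_of_nonneg_left h2 (by positivity)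
    _ = _ := by
        field_simp
        ring

end Pool.Agent.J4H81.PT
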