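import Pool.Agent.J4H81.PT.GMa

/-!
# Growing prime tuples: from the classes modulo `W` to the full exponential sum (helper81)
-/

set_option autoImplicit false

namespace Pool.Agent.J4H81.PT

open Finset MeasureTheory
open Pool.Agent.H807R2.Dav (ee norm_ee ee_add ee_zero ee_int ee_eq dd dd_le)

theorem sum_split {M : Type*} [AddCommMonoid M] (W T : ℕ) (f : ℕ → M) :
    ∑ n ∈ range (W * T), f n = ∑ r ∈ range W, ∑ s ∈ range T, f (r + W * s) := by
  induction T with
  | zero => simp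
  | succ T ih =>
    rw [Nat.mul_succ, sum_range_add, ih]
    simp_rw [sum_range_succ]
    rw [sum_add_distrib]
    congr 1
    refine sum_congr rfl fun r _ => ?_
    rw [add_comm]

theorem hat_split {W T : ℕ} (hW : 0 < W) (h : ℕ → ℂ) (α : ℝ) (j : ℕ) :
    hat h (W * T) ((α + j) / W) =
      ∑ r ∈ range W, (ee (r * α / W) * hat (fun s => h (r + W * s)) T α) * ee ((r : ℝ) * j / W) := by
  have hW0 : (W : ℝ) ≠ 0 := by exact_mod_cast hW.ne'
  unfold hat
  rw [sum_split]
  refine sum_congr rfl fun r _ => ?_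
  rw [mul_sum, sum_mul]
  refine sum_congr rfl fun s _ => ?_
  have e : ee (((r + W * s : ℕ) : ℝ) * ((α + j) / W)) = ee (r * α / W) * ee (s * α) * ee ((r : ℝ) * j / W) := by
    have h1 : ((r + W * s : ℕ) : ℝ) * ((α + j) / W) = (r * α / W + s * α + (r : ℝ) * j / W) + ((s * j : ℕ) : ℤ) := by
      push_cast
      field_simp
      ring
    rw [h1, ee_add _ (((s * j : ℕ) : ℤ) : ℝ), ee_int, mul_one, ee_add, ee_add]
  rw [e]
  ring

/-- Parseval modulo `W` -/
theorem parseval_mod {W : ℕ} (hW : 0 < W) (c : ℕ → ℂ) :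
    ∑ j ∈ range W, ‖∑ r ∈ range W, c r * ee ((r : ℝ) * j / W)‖ ^ 2 = W * ∑ r ∈ range W, ‖c r‖ ^ 2 := by
  have hW0 : (W : ℝ) ≠ 0 := by exact_mod_cast hW.ne'
  have e : ((∑ j ∈ range W, ‖∑ r ∈ range W, c r * ee ((r : ℝ) * j / W)‖ ^ 2 : ℝ) : ℂ) =
      ((W * ∑ r ∈ range W, ‖c r‖ ^ 2 : ℝ) : ℂ) := by
    push_cast
    have h1 : ∀ j ∈ range W, ((‖∑ r ∈ range W, c r * ee ((r : ℝ) * j / W)‖ : ℝ) : ℂ) ^ 2 =
        ∑ r ∈ range W, ∑ t ∈ range W, (c r * (starRingEnd ℂ) (c t)) * ee ((j : ℝ) * ((r : ℤ) - t : ℤ) / W) := by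
      intro j _
      rw [← Complex.mul_conj', map_sum, sum_mul_sum]
      refine sum_congr rfl fun r _ => sum_congr rfl fun t _ => ?_
      rw [map_mul, ← ee_neg]
      have : ee ((j : ℝ) * ((r : ℤ) - t : ℤ) / W) = ee ((r : ℝ) * j / W) * ee (-((t : ℝ) * j / W)) := by
        rw [← ee_add]; congr 1; push_cast; field_simp; ring
      rw [this]
      ring
    rw [sum_congr rfl h1, sum_comm, mul_sum]
    refine sum_congr rfl fun r hr => ?_
    rw [mem_range] at hr
    rw [sum_comm]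
    have h2 : ∀ t ∈ range W, ∑ j ∈ range W, (c r * (starRingEnd ℂ) (c t)) * ee ((j : ℝ) * ((r : ℤ) - t : ℤ) / W) =
        if t = r then (W : ℂ) * (c r * (starRingEnd ℂ) (c r)) else 0 := by
      intro t ht
      rw [mem_range] at ht
      rw [← mul_sum]
      have h3 := H336V.RamanAux.geom W hW ((r : ℤ) - t)
      simp_rw [ex_ee] at h3
      rw [h3]
      by_cases htr : t = r
      · subst htr
        simp
        ring
      · rw [if_neg htr, if_neg, mul_zero]
        intro hdvd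
        apply htr
        have h4 : (r : ℤ) - t = 0 := by
          apply Int.eq_zero_of_abs_lt_dvd hdvd
          rw [abs_lt]
          constructor <;> omega
        omega
    rw [sum_congr rfl h2, sum_ite_eq', if_pos (mem_range.2 hr), Complex.mul_conj']
  exact_mod_cast e

/-- the classes and the full sum -/
theorem classes_eq {W T : ℕ} (hW : 0 < W) (h : ℕ → ℂ) (α : ℝ) :
    ∑ j ∈ range W, ‖hat h (W * T) ((α + j) / W)‖ ^ 2 =
      W * ∑ r ∈ range W, ‖hat (fun s => h (r + W * s)) T α‖ ^ 2 := by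
  simp_rw [hat_split hW]
  rw [parseval_mod hW]
  congr 1
  refine sum_congr rfl fun r _ => ?_
  rw [norm_mul, norm_ee, one_mul]

/-- pointwise bound for one class -/
theorem class_point {W T : ℕ} (hW : 0 < W) (h : ℕ → ℂ) (α m : ℝ) (hm0 : 0 ≤ m)
    (hm : ∀ j < W, ‖hat h (W * T) ((α + j) / W)‖ ≤ m) {r : ℕ} (hr : r < W) :
    ‖hat (fun s => h (r + W * s)) T α‖ ≤ m := by
  have hW0 : (0 : ℝ) < W := by exact_mod_cast hW
  have h1 := classes_eq (T := T) hW h α
  have h2 : ∑ j ∈ range W, ‖hat h (W * T) ((α + j) / W)‖ ^ 2 ≤ W * m ^ 2 := by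
    calc _ ≤ ∑ j ∈ range W, m ^ 2 := by
          apply sum_le_sum
          intro j hj
          exact pow_le_pow_left₀ (norm_nonneg _) (hm j (mem_range.1 hj)) 2
      _ = _ := by rw [sum_const, card_range, nsmul_eq_mul]
  have h3 : ‖hat (fun s => h (r + W * s)) T α‖ ^ 2 ≤ ∑ r ∈ range W, ‖hat (fun s => h (r + W * s)) T α‖ ^ 2 :=
    single_le_sum (f := fun r => ‖hat (fun s => h (r + W * s)) T α‖ ^ 2) (fun _ _ => sq_nonneg _) (mem_range.2 hr)
  have h4 : ‖hat (fun s => h (r + W * s)) T α‖ ^ 2 ≤ m ^ 2 := by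
    have h5 : (W : ℝ) * ‖hat (fun s => h (r + W * s)) T α‖ ^ 2 ≤ W * m ^ 2 := by
      calc _ ≤ W * ∑ r ∈ range W, ‖hat (fun s => h (r + W * s)) T α‖ ^ 2 := by gcongr
        _ = _ := h1.symm
        _ ≤ _ := h2
    exact le_of_mul_le_mul_left h5 hW0
  exact abs_le_of_sq_le_sq' h4 hm0 |>.2

/-- mean square over a periodic set -/
theorem classes_int {W T : ℕ} (hW : 0 < W) (h : ℕ → ℂ) (A : Set ℝ) (hA : MeasurableSet A)
    (hper : ∀ (α : ℝ) (j : ℕ), α + j ∈ A ↔ α ∈ A) :
    ∑ r ∈ range W, ∫ α in (0 : ℝ)..1, A.indicator (fun α => ‖hat (fun s => h (r + W * s)) T α‖ ^ 2) α =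
      ∫ θ in (0 : ℝ)..1, {θ : ℝ | W * θ ∈ A}.indicator (fun θ => ‖hat h (W * T) θ‖ ^ 2) θ := by
  have hW0 : (0 : ℝ) < W := by exact_mod_cast hW
  have hii : ∀ (f : ℝ → ℝ) (B : Set ℝ) (a b : ℝ), Continuous f → MeasurableSet B → IntervalIntegrable (B.indicator f) volume a b := by
    intro f B a b hf hB
    rw [intervalIntegrable_iff]
    exact (hf.intervalIntegrable a b).def'.indicator hB
  have hB : MeasurableSet {θ : ℝ | W * θ ∈ A} := (measurable_const.mul measurable_id) hA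
  have hc1 : ∀ r : ℕ, Continuous (fun α : ℝ => ‖hat (fun s => h (r + W * s)) T α‖ ^ 2) := fun r => ((hat_cont _ _).norm).pow 2
  have hc2 : ∀ j : ℕ, Continuous (fun α : ℝ => ‖hat h (W * T) ((α + j) / W)‖ ^ 2) :=
    fun j => (((hat_cont h (W * T)).comp (by fun_prop : Continuous fun α : ℝ => (α + j) / W)).norm).pow 2
  have hc3 : Continuous (fun θ : ℝ => ‖hat h (W * T) θ‖ ^ 2) := ((hat_cont _ _).norm).pow 2
  rw [← intervalIntegral.integral_finsetSum (fun r _ => hii _ A 0 1 (hc1 r) hA)]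
  have e1 : ∀ α : ℝ, ∑ r ∈ range W, A.indicator (fun α => ‖hat (fun s => h (r + W * s)) T α‖ ^ 2) α =
      (1 / W) * ∑ j ∈ range W, A.indicator (fun α => ‖hat h (W * T) ((α + j) / W)‖ ^ 2) α := by
    intro α
    by_cases hα : α ∈ A
    · simp only [Set.indicator_of_mem hα]
      rw [classes_eq hW]
      field_simp
    · simp [Set.indicator_of_notMem hα]
  simp_rw [e1]
  rw [intervalIntegral.integral_const_mul, intervalIntegral.integral_finsetSum (fun j _ => hii _ A 0 1 (hc2 j) hA)]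
  set f : ℝ → ℝ := {θ : ℝ | W * θ ∈ A}.indicator (fun θ => ‖hat h (W * T) θ‖ ^ 2) with hf
  have e2 : ∀ j ∈ range W, ∫ α in (0 : ℝ)..1, A.indicator (fun α => ‖hat h (W * T) ((α + j) / W)‖ ^ 2) α =
      W * ∫ θ in ((j : ℝ) / W)..((j + 1 : ℕ) : ℝ) / W, f θ := by
    intro j _
    have h1 : ∀ α : ℝ, A.indicator (fun α => ‖hat h (W * T) ((α + j) / W)‖ ^ 2) α = f (α / W + j / W) := by
      intro α
      rw [hf]
      have h2 : (α / W + j / W : ℝ) ∈ {θ : ℝ | W * θ ∈ A} ↔ α ∈ A := by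
        rw [Set.mem_ofPred_eq]
        have : (W : ℝ) * (α / W + j / W) = α + j := by field_simp
        rw [this, hper]
      by_cases hα : α ∈ A
      · rw [Set.indicator_of_mem hα, Set.indicator_of_mem (h2.2 hα)]
        congr 3
        ring
      · rw [Set.indicator_of_notMem hα, Set.indicator_of_notMem (fun h3 => hα (h2.1 h3))]
    simp_rw [h1]
    rw [intervalIntegral.integral_comp_div_add f hW0.ne' (j / W : ℝ), smul_eq_mul]
    congr 2
    · ring
    · push_cast; ring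
  rw [sum_congr rfl e2, ← mul_sum, ← mul_assoc, one_div, inv_mul_cancel₀ hW0.ne', one_mul]
  have e3 := intervalIntegral.sum_integral_adjacent_intervals (f := f) (μ := volume) (a := fun j : ℕ => (j : ℝ) / W) (n := W)
    (fun k _ => hii _ _ _ _ hc3 hB)
  rw [e3]
  congr 1
  · simp
  · field_simp

end Pool.Agent.J4H81.PT
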