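import Pool.Agent.J4H81.PT.GMd
import Pool.Agent.J4H81.PT.TR

/-!
# Growing prime tuples: the exponential sum of the model (helper81)
-/

set_option autoImplicit false

namespace Pool.Agent.J4H81.PT

open Finset
open Pool.Agent.H807R2.Dav (ee norm_ee ee_add ee_zero ee_int ee_eq dd dd_le dd_nonneg dd_ge dd_add_int ee_add_int dd_neg)
open Pool.Agent.N728.SP.GDW (sum_div' tot1 cast_eq)

theorem dd_sub (x y : ℝ) : dd (x - y) ≤ dd x + dd y := by
  unfold dd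
  have e : (1 - ee (x - y)) = ((1 - ee x) - (1 - ee y)) * ee (-y) := by
    have h1 : ee (x - y) = ee x * ee (-y) := by rw [← ee_add]; congr 1
    have h2 : ee y * ee (-y) = 1 := by rw [← ee_add, add_neg_cancel, ee_zero]
    rw [h1]
    have : ((1 - ee x) - (1 - ee y)) * ee (-y) = ee y * ee (-y) - ee x * ee (-y) := by ring
    rw [this, h2]
  rw [e, norm_mul, norm_ee, mul_one]
  exact norm_sub_le _ _

/-- general Abel summation -/
theorem abel_gen (v : ℕ → ℝ) (b : ℕ → ℂ) (M : ℕ) (hv : v M = 0) {B : ℝ} (hB : ∀ z ≤ M, ‖∑ s ∈ range z, b s‖ ≤ B) :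
    ‖∑ s ∈ range M, ((v s : ℝ) : ℂ) * b s‖ ≤ TV v M * B := by
  have hB0 : 0 ≤ B := (norm_nonneg _).trans (hB 0 (Nat.zero_le _))
  have e : ∀ K : ℕ, ∑ s ∈ range K, ((v s : ℝ) : ℂ) * b s =
      ((v K : ℝ) : ℂ) * (∑ s ∈ range K, b s) - ∑ s ∈ range K, ((v (s + 1) - v s : ℝ) : ℂ) * ∑ t ∈ range (s + 1), b t := by
    intro K
    induction K with
    | zero => simp
    | succ K ih =>
      rw [sum_range_succ, ih, sum_range_succ (fun s => ((v (s + 1) - v s : ℝ) : ℂ) * ∑ t ∈ range (s + 1), b t),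
        sum_range_succ b]
      push_cast
      ring
  rw [e, hv]
  simp only [Complex.ofReal_zero, zero_mul, zero_sub, norm_neg]
  refine (norm_sum_le _ _).trans ?_
  unfold TV
  rw [add_mul, sum_mul]
  have h1 : ∑ s ∈ range M, ‖((v (s + 1) - v s : ℝ) : ℂ) * ∑ t ∈ range (s + 1), b t‖ ≤ ∑ s ∈ range M, |v (s + 1) - v s| * B := by
    apply sum_le_sum
    intro s hs
    rw [norm_mul, Complex.norm_real, Real.norm_eq_abs]
    exact mul_le_mul_of_nonneg_left (hB _ (by rw [mem_range] at hs; omega)) (abs_nonneg _)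
  have h2 : 0 ≤ |v 0| * B := by positivity
  linarith

/-- all the moduli of the global model -/
def RR (W Q : ℕ) : Finset ℕ := (W.divisors ×ˢ QQ W Q).image (fun p => p.1 * p.2)

/-- the global model -/
noncomputable def GW (W Q : ℕ) (n : ℤ) : ℝ := ∑ q ∈ RR W Q, hq q n

theorem hq_mul {a b : ℕ} (h : a.Coprime b) (n : ℤ) : hq (a * b) n = hq a n * hq b n := by
  unfold hq
  rw [h.primeFactors_mul, prod_union h.disjoint_primeFactors]

theorem RR_inj {W Q : ℕ} : Set.InjOn (fun p : ℕ × ℕ => p.1 * p.2) ((W.divisors ×ˢ QQ W Q : Finset (ℕ × ℕ)) : Set (ℕ × ℕ)) := by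
  intro x hx y hy hxy
  rw [mem_coe, mem_product] at hx hy
  simp only at hxy
  obtain ⟨hx1, hx2⟩ := hx
  obtain ⟨hy1, hy2⟩ := hy
  rw [Nat.mem_divisors] at hx1 hy1
  obtain ⟨⟨hx3, _⟩, _, hx4⟩ := mem_QQ.1 hx2
  obtain ⟨⟨hy3, _⟩, _, hy4⟩ := mem_QQ.1 hy2
  have h1 : x.1 ∣ y.1 := by
    have h2 : x.1 ∣ y.1 * y.2 := by rw [← hxy]; exact dvd_mul_right _ _
    exact (hy4.symm.coprime_dvd_left hx1.1).dvd_of_dvd_mul_right h2
  have h1' : y.1 ∣ x.1 := by
    have h2 : y.1 ∣ x.1 * x.2 := by rw [hxy]; exact dvd_mul_right _ _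
    exact (hx4.symm.coprime_dvd_left hy1.1).dvd_of_dvd_mul_right h2
  have h3 : x.1 = y.1 := Nat.dvd_antisymm h1 h1'
  have hx10 : 0 < x.1 := Nat.pos_of_mem_divisors (Nat.mem_divisors.2 hx1)
  have h4 : x.2 = y.2 := by
    rw [← h3] at hxy
    exact Nat.eq_of_mul_eq_mul_left hx10 hxy
  exact Prod.ext h3 h4

theorem mem_RR {W Q q : ℕ} (hWs : Squarefree W) (h : q ∈ RR W Q) : 0 < q ∧ q ≤ W * Q ∧ Squarefree q := by
  unfold RR at h
  rw [mem_image] at h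
  obtain ⟨p, hp, rfl⟩ := h
  rw [mem_product] at hp
  obtain ⟨h1, h2⟩ := hp
  obtain ⟨⟨h3, h4⟩, h5, h6⟩ := mem_QQ.1 h2
  have h7 := Nat.mem_divisors.1 h1
  have h8 : 0 < p.1 := Nat.pos_of_mem_divisors h1
  refine ⟨Nat.mul_pos h8 h3, Nat.mul_le_mul (Nat.le_of_dvd (Nat.pos_of_ne_zero h7.2) h7.1) h4, ?_⟩
  rw [Nat.squarefree_mul_iff]
  exact ⟨h6.symm.coprime_dvd_left h7.1, hWs.squarefree_of_dvd h7.1, h5⟩

theorem sqfree_mem_RR {W Q q : ℕ} (hW : W ≠ 0) (hq0 : Squarefree q) (hqQ : q ≤ Q) : q ∈ RR W Q := by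
  unfold RR
  rw [mem_image]
  have hg : q.gcd W ∣ q := Nat.gcd_dvd_left q W
  have hq1 : 0 < q := Nat.pos_of_ne_zero hq0.ne_zero
  have hg0 : 0 < q.gcd W := Nat.gcd_pos_of_pos_left _ hq1
  have hmul : q.gcd W * (q / q.gcd W) = q := Nat.mul_div_cancel' hg
  refine ⟨(q.gcd W, q / q.gcd W), ?_, hmul⟩
  rw [mem_product, Nat.mem_divisors, mem_QQ]
  refine ⟨⟨Nat.gcd_dvd_right q W, hW⟩, ⟨Nat.div_pos (Nat.le_of_dvd hq1 hg) hg0, (Nat.div_le_self _ _).trans hqQ⟩,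
    hq0.squarefree_of_dvd (Nat.div_dvd_of_dvd hg), ?_⟩
  -- a common prime factor would divide `q` twice
  by_contra hcon
  obtain ⟨p, hp, h1, h2⟩ := Nat.Prime.not_coprime_iff_dvd.1 hcon
  have h3 : p ∣ q.gcd W := Nat.dvd_gcd (h1.trans (Nat.div_dvd_of_dvd hg)) h2
  have h4 : p * p ∣ q := by rw [← hmul]; exact Nat.mul_dvd_mul h3 h1
  exact hp.one_lt.ne' (Nat.isUnit_iff.1 (hq0 p h4))

/-- the global model in terms of the model for the classes -/
theorem GW_eq {W Q : ℕ} (hWs : Squarefree W) (n : ℕ) :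
    GW W Q (n : ℤ) = (if n.Coprime W then (W : ℝ) / Nat.totient W else 0) * GG W Q (n : ℤ) := by
  unfold GW RR GG
  rw [sum_image RR_inj, sum_product]
  have h1 : ∀ a ∈ W.divisors, ∀ b ∈ QQ W Q, hq (a * b) (n : ℤ) = hq a n * hq b n := by
    intro a ha b hb
    obtain ⟨_, _, h6⟩ := mem_QQ.1 hb
    exact hq_mul (h6.symm.coprime_dvd_left (Nat.mem_divisors.1 ha).1) _
  rw [sum_congr rfl fun a ha => sum_congr rfl fun b hb => h1 a ha b hb]
  rw [← sum_mul_sum]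
  congr 1
  unfold hq
  rw [sum_div' _ hWs]
  split_ifs with h
  · rw [cast_eq hWs, tot1 hWs, ← prod_div_distrib]
    refine prod_congr rfl fun p hp => ?_
    have hpp := Nat.prime_of_mem_primeFactors hp
    have hp1 : (1 : ℝ) < p := by exact_mod_cast hpp.one_lt
    have hpn : ¬ (p : ℤ) ∣ (n : ℤ) := by
      rw [Int.natCast_dvd_natCast]
      intro hd
      have := Nat.dvd_gcd hd (Nat.dvd_of_mem_primeFactors hp)
      rw [h.gcd_eq_one] at this
      exact hpp.one_lt.ne' (Nat.dvd_one.1 this)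
    rw [if_neg hpn]
    have h2 : (p : ℝ) - 1 ≠ 0 := by linarith
    field_simp
    ring
  · obtain ⟨p, hp, h1, h2⟩ := Nat.Prime.not_coprime_iff_dvd.1 h
    apply prod_eq_zero (i := p)
    · rw [Nat.mem_primeFactors]
      exact ⟨hp, h2, hWs.ne_zero⟩
    · rw [if_pos (Int.natCast_dvd_natCast.2 h1)]
      ring

end Pool.Agent.J4H81.PT
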