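import Pool.Agent.J4H81.PT.MDa

/-!
# Growing prime tuples: the exponential sum of the model, continued (helper81)
-/

set_option autoImplicit false

namespace Pool.Agent.J4H81.PT

open Finset
open Pool.Agent.H807R2.Dav (ee norm_ee ee_add ee_zero ee_int ee_eq dd dd_le dd_nonneg dd_ge dd_add_int ee_add_int dd_neg)
open Pool.Agent.N728.SP.GDW (sum_div' tot1 cast_eq)

/-- the transform of the weight -/
noncomputable def vh (v : ℕ → ℝ) (N : ℕ) (θ : ℝ) : ℂ := ∑ n ∈ range N, ((v n : ℝ) : ℂ) * ee (n * θ)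

theorem model_hat {W Q : ℕ} (hWs : Squarefree W) (v : ℕ → ℝ) (N : ℕ) (θ : ℝ) :
    ∑ n ∈ range N, ((v n * GW W Q (n : ℤ) : ℝ) : ℂ) * ee (n * θ) =
      ∑ q ∈ RR W Q, ((cc q : ℝ) : ℂ) * ∑ b ∈ Fr q, vh v N (θ + b / q) := by
  unfold vh GW
  have h1 : ∀ n ∈ range N, ((v n * ∑ q ∈ RR W Q, hq q (n : ℤ) : ℝ) : ℂ) * ee (n * θ) =
      ∑ q ∈ RR W Q, ∑ b ∈ Fr q, ((cc q : ℝ) : ℂ) * (((v n : ℝ) : ℂ) * ee (n * (θ + b / q))) := by
    intro n _
    push_cast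
    rw [mul_sum, sum_mul]
    refine sum_congr rfl fun q hq => ?_
    rw [hq_four (mem_RR hWs hq).2.2, mul_sum, mul_sum, sum_mul]
    refine sum_congr rfl fun b _ => ?_
    have : ee ((n : ℝ) * (θ + b / q)) = ee ((b : ℝ) * (n : ℤ) / q) * ee (n * θ) := by
      rw [← ee_add]; congr 1; push_cast; ring
    rw [this]
    ring
  rw [sum_congr rfl h1, sum_comm]
  refine sum_congr rfl fun q _ => ?_
  rw [sum_comm, mul_sum]
  refine sum_congr rfl fun b _ => ?_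
  rw [mul_sum]

theorem vh_small (v : ℕ → ℝ) (N : ℕ) (hv : v N = 0) (θ : ℝ) : dd θ * ‖vh v N θ‖ ≤ TV v N := abel_ee v N hv θ

theorem frac_sep {q q' b b' : ℕ} (hb : b ∈ Fr q) (hb' : b' ∈ Fr q') (hne : ¬ (q = q' ∧ b = b')) :
    4 / ((q : ℝ) * q') ≤ dd ((b : ℝ) / q - (b' : ℝ) / q') := by
  have hb2 := mem_Fr.1 hb
  have hb2' := mem_Fr.1 hb'
  have hq0 : 0 < q := by omega
  have hq0' : 0 < q' := by omega
  have h1 : (b : ℝ) / q - (b' : ℝ) / q' = (((b * q' : ℤ) - b' * q : ℤ) : ℝ) / ((q * q' : ℕ) : ℝ) := by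
    have : (q : ℝ) ≠ 0 := by exact_mod_cast hq0.ne'
    have : (q' : ℝ) ≠ 0 := by exact_mod_cast hq0'.ne'
    push_cast
    field_simp
    try ring
  have h2 : ¬ ((q * q' : ℕ) : ℤ) ∣ ((b * q' : ℤ) - b' * q) := by
    intro hd
    apply hne
    have e1 : (q : ℤ) ∣ (b * q' : ℤ) - b' * q := by
      refine dvd_trans ?_ hd
      push_cast
      exact dvd_mul_right _ _
    have e2 : (q : ℤ) ∣ (b * q' : ℤ) := by
      have := dvd_add e1 (dvd_mul_left (q : ℤ) (b' : ℤ))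
      simpa using this
    have e3 : q ∣ q' := by
      have : q ∣ b * q' := by exact_mod_cast e2
      exact hb2.2.symm.dvd_of_dvd_mul_left this
    have e1' : (q' : ℤ) ∣ (b * q' : ℤ) - b' * q := by
      refine dvd_trans ?_ hd
      push_cast
      exact dvd_mul_left _ _
    have e2' : (q' : ℤ) ∣ (b' * q : ℤ) := by
      have := dvd_sub (dvd_mul_left (q' : ℤ) (b : ℤ)) e1'
      simpa using this
    have e3' : q' ∣ q := by
      have : q' ∣ b' * q := by exact_mod_cast e2'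
      exact hb2'.2.symm.dvd_of_dvd_mul_left this
    have e4 : q = q' := Nat.dvd_antisymm e3 e3'
    subst e4
    refine ⟨rfl, ?_⟩
    have e5 : (q : ℤ) * q ∣ q * ((b : ℤ) - b') := by
      have : ((q * q : ℕ) : ℤ) = (q : ℤ) * q := by push_cast; rfl
      rw [← this]
      refine hd.trans (dvd_of_eq ?_)
      ring
    have e6 : (q : ℤ) ∣ (b : ℤ) - b' := Int.dvd_of_mul_dvd_mul_left (by exact_mod_cast hq0.ne') e5
    have e7 : (b : ℤ) - b' = 0 := by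
      apply Int.eq_zero_of_abs_lt_dvd e6
      rw [abs_lt]
      constructor <;> omega
    omega
  have h3 := dd_frac (Nat.mul_pos hq0 hq0') h2
  rw [h1]
  push_cast at h3 ⊢
  exact h3

theorem RR_card {W Q : ℕ} (hWs : Squarefree W) : ((RR W Q).card : ℝ) ≤ (W * Q : ℕ) := by
  have h : (RR W Q).card ≤ W * Q := by
    have : RR W Q ⊆ Icc 1 (W * Q) := by
      intro q hq
      obtain ⟨h1, h2, _⟩ := mem_RR hWs hq
      exact mem_Icc.2 ⟨h1, h2⟩
    have h3 := card_le_card this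
    rwa [Nat.card_Icc, Nat.add_sub_cancel] at h3
  exact_mod_cast h

/-- a bound away from the fractions -/
theorem rest_bound {W Q : ℕ} (hWs : Squarefree W) (v : ℕ → ℝ) (N : ℕ) (hv : v N = 0) (θ : ℝ) {X : ℝ}
    (hX : ((W * Q : ℕ) : ℝ) ≤ X) (hX0 : 0 < X) (S : ℕ → Finset ℕ) (hS : ∀ q, S q ⊆ Fr q)
    (h : ∀ q ∈ RR W Q, ∀ b ∈ S q, 2 / X ^ 2 ≤ dd (θ + b / q)) :
    ‖∑ q ∈ RR W Q, ((cc q : ℝ) : ℂ) * ∑ b ∈ S q, vh v N (θ + b / q)‖ ≤ X ^ 3 * TV v N := by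
  have hTV := TV_nonneg v N
  have h1 : ∀ q ∈ RR W Q, ‖((cc q : ℝ) : ℂ) * ∑ b ∈ S q, vh v N (θ + b / q)‖ ≤ X ^ 2 * TV v N := by
    intro q hq
    rw [norm_mul, Complex.norm_real, Real.norm_eq_abs]
    have h2 : ‖∑ b ∈ S q, vh v N (θ + b / q)‖ ≤ ∑ b ∈ S q, X ^ 2 * TV v N := by
      apply sum_cast_le
      intro b hb
      have h3 := vh_small v N hv (θ + b / q)
      have h4 := (mul_le_mul_of_nonneg_right (h q hq b hb) (norm_nonneg (vh v N (θ + b / q)))).trans h3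
      rw [div_mul_eq_mul_div, div_le_iff₀ (by positivity)] at h4
      have h5 : 0 ≤ ‖vh v N (θ + b / q)‖ := norm_nonneg _
      have h6 : 0 ≤ X ^ 2 * TV v N := by positivity
      nlinarith
    calc _ ≤ |cc q| * ∑ b ∈ S q, X ^ 2 * TV v N := mul_le_mul_of_nonneg_left h2 (abs_nonneg _)
      _ = (|cc q| * (S q).card) * (X ^ 2 * TV v N) := by rw [sum_const, nsmul_eq_mul]; ring
      _ ≤ (|cc q| * (Fr q).card) * (X ^ 2 * TV v N) := by
          have : ((S q).card : ℝ) ≤ (Fr q).card := by exact_mod_cast card_le_card (hS q)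
          gcongr
      _ = _ := by rw [cc_card (mem_RR hWs hq).2.2, one_mul]
  refine (sum_cast_le _ _ _ h1).trans ?_
  rw [sum_const, nsmul_eq_mul]
  have h2 := (RR_card (Q := Q) hWs).trans hX
  calc _ ≤ X * (X ^ 2 * TV v N) := by gcongr
    _ = _ := by ring

/-- the transform of the model far from the fractions -/
theorem model_far {W Q : ℕ} (hWs : Squarefree W) (v : ℕ → ℝ) (N : ℕ) (hv : v N = 0) (θ : ℝ) {X : ℝ}
    (hX : ((W * Q : ℕ) : ℝ) ≤ X) (hX0 : 0 < X)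
    (h : ∀ q ∈ RR W Q, ∀ b ∈ Fr q, 2 / X ^ 2 ≤ dd (θ + b / q)) :
    ‖∑ n ∈ range N, ((v n * GW W Q (n : ℤ) : ℝ) : ℂ) * ee (n * θ)‖ ≤ X ^ 3 * TV v N := by
  rw [model_hat hWs]
  exact rest_bound hWs v N hv θ hX hX0 Fr (fun _ => Subset.rfl) h

/-- the transform of the model near a fraction -/
theorem model_near {W Q : ℕ} (hWs : Squarefree W) (v : ℕ → ℝ) (N : ℕ) (hv : v N = 0) (θ : ℝ) {X : ℝ}
    (hX : ((W * Q : ℕ) : ℝ) ≤ X) (hX0 : 0 < X) {q₀ b₀ : ℕ} (hq₀ : q₀ ∈ RR W Q) (hb₀ : b₀ ∈ Fr q₀)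
    (h : dd (θ + b₀ / q₀) ≤ 2 / X ^ 2) :
    ‖∑ n ∈ range N, ((v n * GW W Q (n : ℤ) : ℝ) : ℂ) * ee (n * θ) - ((cc q₀ : ℝ) : ℂ) * vh v N (θ + b₀ / q₀)‖ ≤
      X ^ 3 * TV v N := by
  classical
  rw [model_hat hWs]
  have e : ∑ q ∈ RR W Q, ((cc q : ℝ) : ℂ) * ∑ b ∈ Fr q, vh v N (θ + b / q) - ((cc q₀ : ℝ) : ℂ) * vh v N (θ + b₀ / q₀) =
      ∑ q ∈ RR W Q, ((cc q : ℝ) : ℂ) * ∑ b ∈ (if q = q₀ then (Fr q).erase b₀ else Fr q), vh v N (θ + b / q) := by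
    rw [← add_sum_erase _ _ hq₀, ← add_sum_erase _ (fun q => ((cc q : ℝ) : ℂ) * ∑ b ∈ (if q = q₀ then (Fr q).erase b₀ else Fr q), vh v N (θ + b / q)) hq₀]
    simp only [if_true]
    rw [← add_sum_erase _ _ hb₀]
    have h1 : ∑ x ∈ (RR W Q).erase q₀, ((cc x : ℝ) : ℂ) * ∑ b ∈ (if x = q₀ then (Fr x).erase b₀ else Fr x), vh v N (θ + b / x) =
        ∑ x ∈ (RR W Q).erase q₀, ((cc x : ℝ) : ℂ) * ∑ b ∈ Fr x, vh v N (θ + b / x) := by
      refine sum_congr rfl fun x hx => ?_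
      rw [if_neg (ne_of_mem_erase hx)]
    rw [h1]
    ring
  rw [e]
  apply rest_bound hWs v N hv θ hX hX0
  · intro q
    split_ifs
    · exact erase_subset _ _
    · exact Subset.rfl
  · intro q hq b hb
    have hbF : b ∈ Fr q := by
      split_ifs at hb
      · exact mem_of_mem_erase hb
      · exact hb
    have hne : ¬ (q = q₀ ∧ b = b₀) := by
      rintro ⟨h1, h2⟩
      rw [if_pos h1] at hb
      exact ne_of_mem_erase hb h2
    have h1 := frac_sep hbF hb₀ hne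
    have h2 : (b : ℝ) / q - (b₀ : ℝ) / q₀ = (θ + b / q) - (θ + b₀ / q₀) := by ring
    rw [h2] at h1
    have h3 := dd_sub (θ + b / q) (θ + b₀ / q₀)
    have hqX : (q : ℝ) ≤ X := le_trans (by exact_mod_cast (mem_RR hWs hq).2.1) hX
    have hqX' : (q₀ : ℝ) ≤ X := le_trans (by exact_mod_cast (mem_RR hWs hq₀).2.1) hX
    have hq1 : (0 : ℝ) < q := by exact_mod_cast (mem_RR hWs hq).1
    have hq1' : (0 : ℝ) < q₀ := by exact_mod_cast (mem_RR hWs hq₀).1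
    have h4 : 4 / X ^ 2 ≤ 4 / ((q : ℝ) * q₀) := by
      apply div_le_div_of_nonneg_left (by norm_num) (by positivity)
      rw [sq]
      gcongr
    have h5 : (4 : ℝ) / X ^ 2 = 2 / X ^ 2 + 2 / X ^ 2 := by ring
    linarith

end Pool.Agent.J4H81.PT
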