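import Pool.Agent.J4H81.PT.MDb
import Pool.Agent.H373R2.T7.Minor

/-!
# Growing prime tuples: the primes on the minor arcs (helper81)
-/

set_option autoImplicit false

namespace Pool.Agent.J4H81.PT

open Finset
open Pool.Agent.H807R2.Dav (ee norm_ee ee_add ee_zero ee_int ee_eq dd dd_le dd_nonneg dd_ge dd_add_int ee_add_int dd_neg)

/-- the bound for one block -/
noncomputable def Bd (N P : ℕ) : ℝ := 12000 * (1 + Real.log (4 * N)) ^ 6 * (N / Real.sqrt P)

theorem sqrt_le_self' {x : ℝ} (hx : 1 ≤ x) : Real.sqrt x ≤ x := by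
  rw [Real.sqrt_le_iff]
  exact ⟨by linarith, by nlinarith⟩

theorem block_bound {N P M M' q : ℕ} {c : ℤ} (hP : 1 ≤ P) (hP3 : P * P * P ≤ N) (hPq : P ≤ q) (hqN : q * P ≤ N)
    (hcop : IsCoprime c (q : ℤ)) {θ : ℝ} (hθ : |θ - c / q| ≤ 1 / (q : ℝ) ^ 2) (hM : P * P ≤ M) (hMN : M ≤ N)
    (hMM' : M ≤ M') (hM' : M' ≤ 2 * M) :
    ‖∑ n ∈ Ioc M M', ((ArithmeticFunction.vonMangoldt n : ℝ) : ℂ) * ee ((n : ℝ) * θ)‖ ≤ Bd N P := by
  have hq1 : 1 ≤ q := hP.trans hPq
  have hPP1 : 1 ≤ P * P := Nat.mul_pos hP hP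
  have hM1 : 1 ≤ M := hPP1.trans hM
  have hN1 : 1 ≤ N := hM1.trans hMN
  have hqN' : q ≤ N := (Nat.le_mul_of_pos_right q hP).trans hqN
  have h := Pool.Agent.H373R2.T7.block_lin hq1 hcop hθ M M' P hM1 hMM' hM' hP hM
  refine h.trans ?_
  have hP0 : (1 : ℝ) ≤ P := by exact_mod_cast hP
  have hN0 : (1 : ℝ) ≤ N := by exact_mod_cast hN1
  have hM0 : (1 : ℝ) ≤ M := by exact_mod_cast hM1
  have hMN0 : (M : ℝ) ≤ N := by exact_mod_cast hMN
  have hq0 : (1 : ℝ) ≤ q := by exact_mod_cast hq1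
  have hqN0 : (q : ℝ) ≤ N := by exact_mod_cast hqN'
  have hPq0 : (P : ℝ) ≤ q := by exact_mod_cast hPq
  have hqP0 : (q : ℝ) ≤ N / P := by
    rw [le_div_iff₀ (by linarith)]
    exact_mod_cast hqN
  have hP20 : ((P * P : ℕ) : ℝ) ≤ N / P := by
    rw [le_div_iff₀ (by linarith)]
    exact_mod_cast hP3
  set L : ℝ := 1 + Real.log (4 * N) with hL
  have hlogN4 : 0 ≤ Real.log (4 * (N : ℝ)) := Real.log_nonneg (by linarith)
  have hL1 : 1 ≤ L := by linarith
  have hlM : Real.log (4 * (M : ℝ)) ≤ Real.log (4 * N) := Real.log_le_log (by linarith) (by linarith)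
  have hlM0 : 0 ≤ Real.log (4 * (M : ℝ)) := Real.log_nonneg (by linarith)
  have hlq : Real.log q ≤ Real.log (4 * N) := Real.log_le_log (by linarith) (by linarith)
  have hlq0 : 0 ≤ Real.log (q : ℝ) := Real.log_nonneg hq0
  have hNP : 0 < (N : ℝ) / P := by positivity
  have hlq' : 1 + Real.log (q : ℝ) ≤ L := by linarith
  have hlM' : 1 + Real.log (4 * (M : ℝ)) ≤ L := by linarith
  -- the first part
  have h1 : 8 * (1 + Real.log (4 * (M : ℝ))) ^ 5 * Real.sqrt (672 * (1 + Real.log q) * (M * ((M : ℝ) / q + M / P + q))) ≤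
      8 * L ^ 5 * (45 * L * (N / Real.sqrt P)) := by
    have h2 : 672 * (1 + Real.log q) * (M * ((M : ℝ) / q + M / P + q)) ≤ (45 * L * (N / Real.sqrt P)) ^ 2 := by
      have h3 : (M : ℝ) / q + M / P + q ≤ 3 * (N / P) := by
        have h4 : (M : ℝ) / q ≤ N / P := by gcongr
        have h5 : (M : ℝ) / P ≤ N / P := by gcongr
        linarith
      have h6 : (45 * L * (N / Real.sqrt P)) ^ 2 = 2025 * L ^ 2 * (N * (N / P)) := by
        rw [mul_pow, div_pow, Real.sq_sqrt (by linarith)]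
        ring
      rw [h6]
      calc 672 * (1 + Real.log q) * (M * ((M : ℝ) / q + M / P + q)) ≤ 672 * L * (N * (3 * (N / P))) := by gcongr
        _ = 2016 * L * (N * (N / P)) := by ring
        _ ≤ 2025 * L ^ 2 * (N * (N / P)) := by
            have : 2016 * L ≤ 2025 * L ^ 2 := by nlinarith
            gcongr
    have h7 : Real.sqrt (672 * (1 + Real.log q) * (M * ((M : ℝ) / q + M / P + q))) ≤ 45 * L * (N / Real.sqrt P) := by
      rw [← Real.sqrt_sq (show 0 ≤ 45 * L * (N / Real.sqrt P) by positivity)]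
      exact Real.sqrt_le_sqrt h2
    have h8 : (1 + Real.log (4 * (M : ℝ))) ^ 5 ≤ L ^ 5 := pow_le_pow_left₀ (by linarith) (by linarith) 5
    gcongr
  -- the second part
  have h2 : 3 * (1 + Real.log (4 * (M : ℝ))) * (600 * (Nat.log 2 (P * P) + 1 : ℝ) * ((M : ℝ) / q + (P * P : ℕ) + q) * (1 + Real.log q)) ≤
      10800 * L ^ 3 * (N / P) := by
    have h3 : (Nat.log 2 (P * P) : ℝ) + 1 ≤ 2 * L := by
      have h4 : (Nat.log 2 (P * P) : ℝ) * Real.log 2 ≤ Real.log (N : ℝ) := by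
        rw [← Real.log_pow]
        apply Real.log_le_log (by positivity)
        have h5 : 2 ^ Nat.log 2 (P * P) ≤ P * P := Nat.pow_log_le_self 2 (by omega)
        have h6 : 2 ^ Nat.log 2 (P * P) ≤ N := h5.trans (hM.trans hMN)
        exact_mod_cast h6
      have h7 := Real.log_two_gt_d9
      have h8 : Real.log (N : ℝ) ≤ Real.log (4 * N) := Real.log_le_log (by linarith) (by linarith)
      have h9 : (0 : ℝ) ≤ Nat.log 2 (P * P) := Nat.cast_nonneg _
      nlinarith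
    have h3' : (M : ℝ) / q + (P * P : ℕ) + q ≤ 3 * (N / P) := by
      have h4 : (M : ℝ) / q ≤ N / P := by gcongr
      linarith
    calc _ ≤ 3 * L * (600 * (2 * L) * (3 * (N / P)) * L) := by
          have h9 : (0 : ℝ) ≤ Nat.log 2 (P * P) := Nat.cast_nonneg _
          gcongr
      _ = _ := by ring
  have hsP : 1 ≤ Real.sqrt P := by rw [Real.one_le_sqrt]; exact hP0
  have h3 : (N : ℝ) / P ≤ N / Real.sqrt P := by
    exact div_le_div_of_nonneg_left (by linarith) (by linarith) (sqrt_le_self' hP0)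
  have h4 : L ^ 3 ≤ L ^ 6 := pow_le_pow_right₀ hL1 (by norm_num)
  have h5 : 0 ≤ (N : ℝ) / Real.sqrt P := by positivity
  have h6 : 10800 * L ^ 3 * (N / P) ≤ 10800 * L ^ 6 * (N / Real.sqrt P) := by gcongr
  have h7 : 8 * L ^ 5 * (45 * L * (N / Real.sqrt P)) = 360 * L ^ 6 * (N / Real.sqrt P) := by ring
  unfold Bd
  have h8 : 0 ≤ L ^ 6 * (N / Real.sqrt P) := by positivity
  calc _ ≤ 8 * L ^ 5 * (45 * L * (N / Real.sqrt P)) + 10800 * L ^ 3 * (N / P) := add_le_add h1 h2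
    _ ≤ 360 * L ^ 6 * (N / Real.sqrt P) + 10800 * L ^ 6 * (N / Real.sqrt P) := by rw [h7]; linarith
    _ = 11160 * (L ^ 6 * (N / Real.sqrt P)) := by ring
    _ ≤ 12000 * (L ^ 6 * (N / Real.sqrt P)) := mul_le_mul_of_nonneg_right (by norm_num) h8
    _ = _ := by ring

theorem prefix_bound {N N₁ P q : ℕ} {c : ℤ} (hP : 1 ≤ P) (hP3 : P * P * P ≤ N) (hPq : P ≤ q) (hqN : q * P ≤ N)
    (hcop : IsCoprime c (q : ℤ)) {θ : ℝ} (hθ : |θ - c / q| ≤ 1 / (q : ℝ) ^ 2) (hN₁ : P * P ≤ N₁) :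
    ∀ j : ℕ, ∀ z ≤ N, z ≤ 2 ^ j * N₁ →
      ‖∑ n ∈ Ioc N₁ z, ((ArithmeticFunction.vonMangoldt n : ℝ) : ℂ) * ee ((n : ℝ) * θ)‖ ≤ j * Bd N P := by
  have hBd : 0 ≤ Bd N P := by
    unfold Bd
    have : (0 : ℝ) ≤ 1 + Real.log (4 * N) := by
      have : (1 : ℝ) ≤ N := by
        have h1 : 1 ≤ N := (Nat.mul_pos (Nat.mul_pos hP hP) hP).trans_le hP3
        exact_mod_cast h1
      have := Real.log_nonneg (show (1 : ℝ) ≤ 4 * N by linarith)
      linarith
    positivity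
  intro j
  induction j with
  | zero =>
    intro z _ hz
    rw [pow_zero, one_mul] at hz
    rw [Ioc_eq_empty (by omega)]
    simp
  | succ j ih =>
    intro z hzN hz
    rcases le_or_gt z (2 ^ j * N₁) with h | h
    · refine (ih z hzN h).trans ?_
      push_cast
      nlinarith
    · have h1 : N₁ ≤ 2 ^ j * N₁ := Nat.le_mul_of_pos_left _ (by positivity)
      have e : ∑ n ∈ Ioc N₁ z, ((ArithmeticFunction.vonMangoldt n : ℝ) : ℂ) * ee ((n : ℝ) * θ) =
          ∑ n ∈ Ioc N₁ (2 ^ j * N₁), ((ArithmeticFunction.vonMangoldt n : ℝ) : ℂ) * ee ((n : ℝ) * θ) +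
          ∑ n ∈ Ioc (2 ^ j * N₁) z, ((ArithmeticFunction.vonMangoldt n : ℝ) : ℂ) * ee ((n : ℝ) * θ) := by
        rw [sum_Ioc_consecutive _ h1 h.le]
      rw [e]
      refine (norm_add_le _ _).trans ?_
      have h2 := ih (2 ^ j * N₁) (h.le.trans hzN) le_rfl
      have h3 := block_bound (M := 2 ^ j * N₁) (M' := z) hP hP3 hPq hqN hcop hθ (hN₁.trans h1) (h.le.trans hzN) h.le
        (by rw [pow_succ] at hz; linarith)
      push_cast
      linarith

end Pool.Agent.J4H81.PT
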