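import Pool.Agent.J4H81.PT.GMb

/-!
# Growing prime tuples: the weights (helper81)
-/

set_option autoImplicit false

namespace Pool.Agent.J4H81.PT

open Finset

/-- weights which are differences of two decreasing functions -/
structure Wt (ω : ℕ → ℝ) (N N₁ : ℕ) : Prop where
  nonneg : ∀ n, 0 ≤ ω n
  le_one : ∀ n, ω n ≤ 1
  zero_ge : ∀ n, N ≤ n → ω n = 0
  zero_le : ∀ n, n ≤ N₁ → ω n = 0
  dec : ∃ A B : ℕ → ℝ, Antitone A ∧ Antitone B ∧ (∀ n, 0 ≤ A n) ∧ (∀ n, A n ≤ 1) ∧ (∀ n, 0 ≤ B n) ∧ (∀ n, B n ≤ 1) ∧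
    ∀ n, ω n = A n - B n

theorem var_antitone (A : ℕ → ℝ) (hA : Antitone A) (T : ℕ) : ∑ s ∈ range T, |A (s + 1) - A s| = A 0 - A T := by
  induction T with
  | zero => simp
  | succ T ih =>
    rw [sum_range_succ, ih, abs_of_nonpos (by linarith [hA (Nat.le_succ T)])]
    ring

theorem Wt.var {ω : ℕ → ℝ} {N N₁ : ℕ} (h : Wt ω N N₁) (r W T : ℕ) :
    ∑ s ∈ range T, |ω (r + W * (s + 1)) - ω (r + W * s)| ≤ 2 := by
  obtain ⟨A, B, hA, hB, hA0, hA1, hB0, hB1, he⟩ := h.dec
  have hmono : Monotone (fun s : ℕ => r + W * s) := by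
    intro a b hab
    have := Nat.mul_le_mul_left W hab
    show r + W * a ≤ r + W * b
    omega
  have hA' : Antitone (fun s : ℕ => A (r + W * s)) := fun a b hab => hA (hmono hab)
  have hB' : Antitone (fun s : ℕ => B (r + W * s)) := fun a b hab => hB (hmono hab)
  have h1 := var_antitone _ hA' T
  have h2 := var_antitone _ hB' T
  calc _ ≤ ∑ s ∈ range T, (|A (r + W * (s + 1)) - A (r + W * s)| + |B (r + W * (s + 1)) - B (r + W * s)|) := by
        apply sum_le_sum
        intro s _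
        rw [he, he]
        have : A (r + W * (s + 1)) - B (r + W * (s + 1)) - (A (r + W * s) - B (r + W * s)) =
            (A (r + W * (s + 1)) - A (r + W * s)) - (B (r + W * (s + 1)) - B (r + W * s)) := by ring
        rw [this]
        exact abs_sub _ _
    _ = (A (r + W * 0) - A (r + W * T)) + (B (r + W * 0) - B (r + W * T)) := by
        rw [sum_add_distrib]
        exact congrArg₂ (· + ·) h1 h2
    _ ≤ 2 := by
        have := hA1 (r + W * 0)
        have := hA0 (r + W * T)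
        have := hB1 (r + W * 0)
        have := hB0 (r + W * T)
        linarith

theorem Wt.TV_le {ω : ℕ → ℝ} {N N₁ : ℕ} (h : Wt ω N N₁) (r W T : ℕ) : TV (fun s => ω (r + W * s)) T ≤ 3 := by
  unfold TV
  have h1 := h.var r W T
  have h2 : |ω (r + W * 0)| ≤ 1 := by rw [abs_of_nonneg (h.nonneg _)]; exact h.le_one _
  linarith

theorem Wt.TV_le' {ω : ℕ → ℝ} {N N₁ : ℕ} (h : Wt ω N N₁) (T : ℕ) : TV ω T ≤ 3 := by
  have := h.TV_le 0 1 T
  simpa using this

theorem Wt.TV_prod {ω : ℕ → ℝ} {N N₁ : ℕ} (h : Wt ω N N₁) (r W T D : ℕ) :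
    TV (fun s => ω (r + W * s) * ω (r + W * (s + D))) T ≤ 5 := by
  unfold TV
  have h1 := h.var r W T
  have h2 := h.var (r + W * D) W T
  have h3 : |ω (r + W * 0) * ω (r + W * (0 + D))| ≤ 1 := by
    rw [abs_of_nonneg (mul_nonneg (h.nonneg _) (h.nonneg _))]
    exact mul_le_one₀ (h.le_one _) (h.nonneg _) (h.le_one _)
  have h4 : ∑ s ∈ range T, |ω (r + W * (s + 1)) * ω (r + W * (s + 1 + D)) - ω (r + W * s) * ω (r + W * (s + D))| ≤
      ∑ s ∈ range T, (|ω (r + W * (s + 1)) - ω (r + W * s)| + |ω (r + W * D + W * (s + 1)) - ω (r + W * D + W * s)|) := by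
    apply sum_le_sum
    intro s _
    have e1 : r + W * (s + 1 + D) = r + W * D + W * (s + 1) := by ring
    have e2 : r + W * (s + D) = r + W * D + W * s := by ring
    rw [e1, e2]
    set a := ω (r + W * (s + 1))
    set b := ω (r + W * s)
    set c := ω (r + W * D + W * (s + 1))
    set d := ω (r + W * D + W * s)
    have hc0 : 0 ≤ c := h.nonneg _
    have hc1 : c ≤ 1 := h.le_one _
    have hb0 : 0 ≤ b := h.nonneg _
    have hb1 : b ≤ 1 := h.le_one _
    have : a * c - b * d = (a - b) * c + b * (c - d) := by ring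
    rw [this]
    refine (abs_add_le _ _).trans ?_
    rw [abs_mul, abs_mul, abs_of_nonneg hc0, abs_of_nonneg hb0]
    have := mul_le_of_le_one_right (abs_nonneg (a - b)) hc1
    have := mul_le_of_le_one_left (abs_nonneg (c - d)) hb1
    linarith
  rw [sum_add_distrib] at h4
  have h5 : ∑ s ∈ range T, |ω (r + W * (s + 1)) * ω (r + W * (s + 1 + D)) - ω (r + W * s) * ω (r + W * (s + D))| ≤ 4 := by
    linarith
  linarith

/-- the ramp -/
noncomputable def sg (κ a u : ℝ) : ℝ := max 0 (min 1 ((a - u) / κ))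

theorem sg_nonneg (κ a u : ℝ) : 0 ≤ sg κ a u := le_max_left _ _

theorem sg_le_one (κ a u : ℝ) : sg κ a u ≤ 1 := max_le zero_le_one (min_le_left _ _)

theorem sg_anti {κ : ℝ} (hκ : 0 < κ) (a : ℝ) : Antitone (sg κ a) := by
  intro u v huv
  unfold sg
  apply max_le_max le_rfl
  apply min_le_min le_rfl
  gcongr

theorem sg_mono {κ : ℝ} (hκ : 0 < κ) {a b : ℝ} (hab : a ≤ b) (u : ℝ) : sg κ a u ≤ sg κ b u := by
  unfold sg
  apply max_le_max le_rfl
  apply min_le_min le_rfl
  gcongr

theorem sg_zero {κ : ℝ} (hκ : 0 < κ) {a u : ℝ} (h : a ≤ u) : sg κ a u = 0 := by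
  unfold sg
  apply max_eq_left
  refine (min_le_right _ _).trans ?_
  exact div_nonpos_of_nonpos_of_nonneg (by linarith) hκ.le

theorem sg_one {κ : ℝ} (hκ : 0 < κ) {a u : ℝ} (h : u ≤ a - κ) : sg κ a u = 1 := by
  unfold sg
  have : 1 ≤ (a - u) / κ := by rw [one_le_div hκ]; linarith
  rw [min_eq_left this]
  exact max_eq_right zero_le_one

/-- the weight -/
noncomputable def om (κ X Y : ℝ) (n : ℕ) : ℝ := sg κ (Real.log X) (Real.log n) - sg κ (Real.log Y + κ) (Real.log n)

theorem log_nat_mono {m n : ℕ} (h : m ≤ n) : Real.log m ≤ Real.log n := by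
  rcases Nat.eq_zero_or_pos m with rfl | hm
  · rw [Nat.cast_zero, Real.log_zero]
    exact Real.log_natCast_nonneg n
  · exact Real.log_le_log (by exact_mod_cast hm) (by exact_mod_cast h)

theorem om_wt {κ : ℝ} (hκ : 0 < κ) {N N₁ : ℕ} (h : Real.log N₁ + κ ≤ Real.log N) :
    Wt (om κ N N₁) N N₁ where
  nonneg n := by
    unfold om
    linarith [sg_mono hκ h (Real.log n)]
  le_one n := by
    unfold om
    linarith [sg_le_one κ (Real.log N) (Real.log n), sg_nonneg κ (Real.log N₁ + κ) (Real.log n)]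
  zero_ge n hn := by
    unfold om
    have h1 := log_nat_mono hn
    rw [sg_zero hκ h1, sg_zero hκ (h.trans h1), sub_zero]
  zero_le n hn := by
    unfold om
    have h1 := log_nat_mono hn
    rw [sg_one hκ (by linarith), sg_one hκ (by linarith), sub_self]
  dec := ⟨fun n => sg κ (Real.log N) (Real.log n), fun n => sg κ (Real.log N₁ + κ) (Real.log n),
    fun _ _ hab => sg_anti hκ _ (log_nat_mono hab), fun _ _ hab => sg_anti hκ _ (log_nat_mono hab),
    fun _ => sg_nonneg _ _ _, fun _ => sg_le_one _ _ _, fun _ => sg_nonneg _ _ _, fun _ => sg_le_one _ _ _, fun _ => rfl⟩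

theorem om_one {κ : ℝ} (hκ : 0 < κ) {X Y : ℝ} {n : ℕ} (h1 : Real.log Y + κ ≤ Real.log n)
    (h2 : Real.log n ≤ Real.log X - κ) : om κ X Y n = 1 := by
  unfold om
  rw [sg_one hκ h2, sg_zero hκ h1, sub_zero]

/-- positive part of the logarithm of the ratio -/
noncomputable def lp (a u : ℝ) : ℝ := max 0 (a - u)

theorem sg_eq {κ : ℝ} (hκ : 0 < κ) (a u : ℝ) : sg κ a u = (lp a u - lp (a - κ) u) / κ := by
  unfold sg lp
  rcases le_total a u with h | h
  · rw [max_eq_left (by linarith : a - u ≤ 0), max_eq_left (by linarith : a - κ - u ≤ 0)]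
    have : (a - u) / κ ≤ 0 := div_nonpos_of_nonpos_of_nonneg (by linarith) hκ.le
    rw [min_eq_right (by linarith), max_eq_left this]
    simp
  · rw [max_eq_right (by linarith : 0 ≤ a - u)]
    rcases le_total (a - κ) u with h2 | h2
    · rw [max_eq_left (by linarith : a - κ - u ≤ 0), sub_zero]
      have h3 : (a - u) / κ ≤ 1 := by rw [div_le_one hκ]; linarith
      have h4 : 0 ≤ (a - u) / κ := div_nonneg (by linarith) hκ.le
      rw [min_eq_right h3, max_eq_right h4]
    · rw [max_eq_right (by linarith : 0 ≤ a - κ - u)]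
      have h3 : 1 ≤ (a - u) / κ := by rw [one_le_div hκ]; linarith
      rw [min_eq_left h3, max_eq_right zero_le_one]
      field_simp
      ring

theorem om_eq {κ : ℝ} (hκ : 0 < κ) (X Y : ℝ) (n : ℕ) : om κ X Y n =
    (lp (Real.log X) (Real.log n) - lp (Real.log X - κ) (Real.log n) - lp (Real.log Y + κ) (Real.log n) +
      lp (Real.log Y) (Real.log n)) / κ := by
  unfold om
  rw [sg_eq hκ, sg_eq hκ, add_sub_cancel_right]
  ring

end Pool.Agent.J4H81.PT
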