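import Pool.Agent.J4H81.PT.MIa
import Pool.Agent.J4H81.PT.WT

/-!
# Growing prime tuples: the minor arcs (helper81)
-/

set_option autoImplicit false

namespace Pool.Agent.J4H81.PT

open Finset
open Pool.Agent.H807R2.Dav (ee norm_ee ee_add ee_zero ee_int ee_eq dd dd_le dd_nonneg dd_ge dd_add_int ee_add_int dd_neg)
open Pool.Agent.N728.SP.GDW (sum_div' tot1 cast_eq)

/-- `log p` on primes -/
noncomputable def nu (n : ℕ) : ℝ := if n.Prime then Real.log n else 0

theorem nu_nonneg (n : ℕ) : 0 ≤ nu n := by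
  unfold nu; split_ifs
  · exact Real.log_natCast_nonneg n
  · exact le_rfl

theorem nu_le_vM (n : ℕ) : nu n ≤ ArithmeticFunction.vonMangoldt n := by
  unfold nu; split_ifs with h
  · rw [ArithmeticFunction.vonMangoldt_apply_prime h]
  · exact ArithmeticFunction.vonMangoldt_nonneg

theorem sum_vM_sub_nu {N : ℕ} (hN : 1 ≤ N) :
    ∑ n ∈ range (N + 1), (ArithmeticFunction.vonMangoldt n - nu n) ≤ 2 * Real.sqrt N * Real.log N := by
  have h := Chebyshev.psi_sub_theta_le (x := (N : ℝ)) (by exact_mod_cast hN)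
  have h1 : Chebyshev.psi (N : ℝ) = ∑ n ∈ range (N + 1), ArithmeticFunction.vonMangoldt n := by
    unfold Chebyshev.psi
    rw [Nat.floor_natCast, range_eq_Ico, sum_eq_sum_Ico_succ_bot (by omega)]
    simp
    rfl
  have h2 : Chebyshev.theta (N : ℝ) = ∑ n ∈ range (N + 1), nu n := by
    unfold Chebyshev.theta nu
    rw [Nat.floor_natCast, sum_filter, range_eq_Ico, sum_eq_sum_Ico_succ_bot (by omega)]
    simp
    rfl
  rw [h1, h2, ← sum_sub_distrib] at h
  exact h

theorem nu_vM_diff {N : ℕ} (hN : 1 ≤ N) (c : ℕ → ℂ) (hc : ∀ n, ‖c n‖ ≤ 1) :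
    ‖∑ n ∈ range N, ((ArithmeticFunction.vonMangoldt n - nu n : ℝ) : ℂ) * c n‖ ≤ 2 * Real.sqrt N * Real.log N := by
  refine (norm_sum_le _ _).trans (le_trans ?_ (sum_vM_sub_nu hN))
  rw [sum_range_succ]
  have h1 : ∑ n ∈ range N, ‖((ArithmeticFunction.vonMangoldt n - nu n : ℝ) : ℂ) * c n‖ ≤
      ∑ n ∈ range N, (ArithmeticFunction.vonMangoldt n - nu n) := by
    apply sum_le_sum
    intro n _
    rw [norm_mul, Complex.norm_real, Real.norm_eq_abs, abs_of_nonneg (by linarith [nu_le_vM n])]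
    exact mul_le_of_le_one_right (by linarith [nu_le_vM n]) (hc n)
  linarith [nu_le_vM N]

/-- the Fourier transform of the weighted primes at a point with a rational approximation of middle denominator -/
theorem prime_minor {N N₁ P q : ℕ} {c : ℤ} (hP : 1 ≤ P) (hP3 : P * P * P ≤ N) (hPq : P ≤ q) (hqN : q * P ≤ N)
    (hcop : IsCoprime c (q : ℤ)) {θ : ℝ} (hθ : |θ - c / q| ≤ 1 / (q : ℝ) ^ 2) (hN₁ : P * P ≤ N₁)
    {ω : ℕ → ℝ} (hω : Wt ω N N₁) :
    ‖∑ n ∈ range N, ((ω n * nu n : ℝ) : ℂ) * ee (n * θ)‖ ≤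
      3 * ((Nat.log 2 N + 1 : ℕ) * Bd N P) + 2 * Real.sqrt N * Real.log N := by
  have hN : 1 ≤ N := (Nat.mul_pos (Nat.mul_pos hP hP) hP).trans_le hP3
  have hN₁1 : 1 ≤ N₁ := (Nat.mul_pos hP hP).trans_le hN₁
  have hBd : 0 ≤ ((Nat.log 2 N + 1 : ℕ) : ℝ) * Bd N P := (norm_nonneg _).trans
    (prefix_bound hP hP3 hPq hqN hcop hθ hN₁ (Nat.log 2 N + 1) 0 (Nat.zero_le _) (Nat.zero_le _))
  have e : ∑ n ∈ range N, ((ω n * nu n : ℝ) : ℂ) * ee (n * θ) =
      ∑ n ∈ range N, ((ω n : ℝ) : ℂ) * (if N₁ < n then ((ArithmeticFunction.vonMangoldt n : ℝ) : ℂ) * ee (n * θ) else 0) -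
      ∑ n ∈ range N, ((ArithmeticFunction.vonMangoldt n - nu n : ℝ) : ℂ) * (((ω n : ℝ) : ℂ) * ee (n * θ)) := by
    rw [← sum_sub_distrib]
    refine sum_congr rfl fun n _ => ?_
    split_ifs with h
    · push_cast; ring
    · rw [hω.zero_le n (by omega)]; simp
  rw [e]
  refine (norm_sub_le _ _).trans (add_le_add ?_ ?_)
  · have h1 : ∀ z ≤ N, ‖∑ n ∈ range z, (if N₁ < n then ((ArithmeticFunction.vonMangoldt n : ℝ) : ℂ) * ee (n * θ) else 0)‖ ≤
        (Nat.log 2 N + 1 : ℕ) * Bd N P := by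
      intro z hz
      rcases Nat.eq_zero_or_pos z with rfl | hz0
      · simp only [range_zero, sum_empty, norm_zero]; exact hBd
      have e2 : ∑ n ∈ range z, (if N₁ < n then ((ArithmeticFunction.vonMangoldt n : ℝ) : ℂ) * ee (n * θ) else 0) =
          ∑ n ∈ Ioc N₁ (z - 1), ((ArithmeticFunction.vonMangoldt n : ℝ) : ℂ) * ee ((n : ℝ) * θ) := by
        rw [← sum_filter]
        congr 1
        ext n
        rw [mem_filter, mem_range, mem_Ioc]
        omega
      rw [e2]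
      apply prefix_bound hP hP3 hPq hqN hcop hθ hN₁ _ _ (by omega)
      have h2 : N < 2 ^ (Nat.log 2 N + 1) := Nat.lt_pow_succ_log_self (by norm_num) N
      have h3 : 2 ^ (Nat.log 2 N + 1) ≤ 2 ^ (Nat.log 2 N + 1) * N₁ := Nat.le_mul_of_pos_right _ hN₁1
      omega
    refine (abel_gen ω _ N (hω.zero_ge N le_rfl) h1).trans ?_
    exact mul_le_mul_of_nonneg_right (hω.TV_le' N) hBd
  · apply nu_vM_diff hN
    intro n
    rw [norm_mul, norm_ee, mul_one, Complex.norm_real, Real.norm_eq_abs, abs_of_nonneg (hω.nonneg n)]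
    exact hω.le_one n

theorem tot_sqfree {q : ℕ} (hq' : Squarefree q) : (q : ℝ) ≤ 2 * (Nat.totient q : ℝ) ^ 2 := by
  rw [tot1 hq', ← prod_pow]
  have h : (q : ℝ) = ∏ p ∈ q.primeFactors, (p : ℝ) := cast_eq hq'
  rw [h]
  have key : ∀ p ∈ q.primeFactors, (p : ℝ) ≤ (if p = 2 then 2 else 1) * ((p : ℝ) - 1) ^ 2 := by
    intro p hp
    have hpp := Nat.prime_of_mem_primeFactors hp
    split_ifs with h2
    · subst h2; norm_num
    · have h3 : 3 ≤ p := by
        have := hpp.two_le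
        omega
      have h3' : (3 : ℝ) ≤ p := by exact_mod_cast h3
      nlinarith
  calc ∏ p ∈ q.primeFactors, (p : ℝ) ≤ ∏ p ∈ q.primeFactors, ((if p = 2 then 2 else 1) * ((p : ℝ) - 1) ^ 2) :=
        prod_le_prod (fun p _ => Nat.cast_nonneg p) key
    _ = (∏ p ∈ q.primeFactors, (if p = 2 then (2 : ℝ) else 1)) * ∏ p ∈ q.primeFactors, ((p : ℝ) - 1) ^ 2 := prod_mul_distrib
    _ ≤ 2 * ∏ p ∈ q.primeFactors, ((p : ℝ) - 1) ^ 2 := by
        apply mul_le_mul_of_nonneg_right _ (prod_nonneg fun _ _ => sq_nonneg _)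
        rw [prod_ite_eq']
        split_ifs <;> norm_num

theorem dd_round (x : ℝ) {δ : ℝ} (h : ∀ a : ℤ, δ ≤ |x - a|) : 4 * δ ≤ dd x := by
  set a := round x with ha
  have h1 : |x - a| ≤ 1 / 2 := abs_sub_round x
  have h2 : dd x = dd |x - a| := by
    have e : x = (x - a) + (a : ℤ) := by ring
    rcases abs_cases (x - a) with ⟨h3, _⟩ | ⟨h3, _⟩
    · rw [h3]
      conv_lhs => rw [e]
      rw [dd_add_int]
    · rw [h3, dd_neg]
      conv_lhs => rw [e]
      rw [dd_add_int]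
  rw [h2]
  have h3 := dd_ge (abs_nonneg (x - a)) (by linarith)
  rw [min_eq_left (by linarith)] at h3
  linarith [h a]

/-- the minor arcs -/
theorem minor {W Q N N₁ P : ℕ} (hWs : Squarefree W) (hP : 1 ≤ P) (hP3 : P * P * P ≤ N) (hN₁ : P * P ≤ N₁)
    {ω : ℕ → ℝ} (hω : Wt ω N N₁) (hWQ : 0 < W * Q) {θ : ℝ}
    (hθ : ∀ q : ℕ, 1 ≤ q → q ≤ P → ∀ a : ℤ, (P : ℝ) / N < |θ - a / q|) :
    ‖∑ n ∈ range N, ((ω n * (nu n - GW W Q (n : ℤ)) : ℝ) : ℂ) * ee (n * θ)‖ ≤
      3 * ((Nat.log 2 N + 1 : ℕ) * Bd N P) + 2 * Real.sqrt N * Real.log N + (((W * Q : ℕ) : ℝ) ^ 3 * 3 + 2 * (N / Real.sqrt P)) := by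
  have hN : 1 ≤ N := (Nat.mul_pos (Nat.mul_pos hP hP) hP).trans_le hP3
  have hN0 : (0 : ℝ) < N := by exact_mod_cast hN
  have hP0 : (0 : ℝ) < P := by exact_mod_cast hP
  have hP1 : (1 : ℝ) ≤ P := by exact_mod_cast hP
  have hX0 : (0 : ℝ) < ((W * Q : ℕ) : ℝ) := by exact_mod_cast hWQ
  have hTV := hω.TV_le' N
  have hωN := hω.zero_ge N le_rfl
  have e : ∑ n ∈ range N, ((ω n * (nu n - GW W Q (n : ℤ)) : ℝ) : ℂ) * ee (n * θ) =
      ∑ n ∈ range N, ((ω n * nu n : ℝ) : ℂ) * ee (n * θ) - ∑ n ∈ range N, ((ω n * GW W Q (n : ℤ) : ℝ) : ℂ) * ee (n * θ) := by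
    rw [← sum_sub_distrib]
    refine sum_congr rfl fun n _ => ?_
    push_cast; ring
  rw [e]
  refine (norm_sub_le _ _).trans (add_le_add ?_ ?_)
  · -- Dirichlet's approximation
    set K : ℕ := N / P with hK
    have hPN : P ≤ N := by
      calc P ≤ P * P * P := by nlinarith [Nat.mul_pos hP hP]
        _ ≤ N := hP3
    have hK0 : 0 < K := Nat.div_pos hPN hP
    obtain ⟨r, hr1, hr2⟩ := Real.exists_rat_abs_sub_le_and_den_le θ hK0
    have hrd : 0 < r.den := r.den_pos
    have hrd0 : (0 : ℝ) < r.den := by exact_mod_cast hrd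
    have hcast : (r : ℝ) = (r.num : ℝ) / (r.den : ℝ) := by
      rw [Rat.cast_def]
    rw [hcast] at hr1
    have hK1 : (N : ℝ) / P ≤ K + 1 := by
      rw [div_le_iff₀ hP0]
      have : N < (K + 1) * P := by
        rw [hK]
        have := Nat.lt_div_mul_add hP (a := N)
        linarith
      have h2 : (N : ℝ) < ((K + 1 : ℕ) : ℝ) * P := by exact_mod_cast this
      push_cast at h2
      linarith
    have hPq : P ≤ r.den := by
      by_contra hcon
      push Not at hcon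
      have h1 := hθ r.den hrd hcon.le r.num
      have h2 : 1 / (((K : ℝ) + 1) * r.den) ≤ P / N := by
        rw [div_le_div_iff₀ (by positivity) hN0, one_mul]
        have h3 : (N : ℝ) ≤ P * (K + 1) := by
          rw [div_le_iff₀ hP0] at hK1; linarith
        have h4 : (1 : ℝ) ≤ r.den := by exact_mod_cast hrd
        calc (N : ℝ) ≤ P * (K + 1) := h3
          _ ≤ P * (K + 1) * r.den := le_mul_of_one_le_right (by positivity) h4
          _ = _ := by ring
      linarith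
    refine prime_minor hP hP3 hPq ?_ ?_ ?_ hN₁ hω (c := r.num)
    · calc r.den * P ≤ K * P := Nat.mul_le_mul_right _ hr2
        _ ≤ N := Nat.div_mul_le_self _ _
    · rw [Int.isCoprime_iff_nat_coprime]
      simpa using r.reduced
    · refine hr1.trans ?_
      apply one_div_le_one_div_of_le (by positivity)
      rw [sq]
      apply mul_le_mul_of_nonneg_right _ hrd0.le
      have : (r.den : ℝ) ≤ K := by exact_mod_cast hr2
      linarith
  · -- the model
    by_cases hex : ∀ q ∈ RR W Q, ∀ b ∈ Fr q, 2 / ((W * Q : ℕ) : ℝ) ^ 2 ≤ dd (θ + b / q)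
    · have h1 := model_far hWs ω N hωN θ le_rfl hX0 hex
      have h2 : ((W * Q : ℕ) : ℝ) ^ 3 * TV ω N ≤ ((W * Q : ℕ) : ℝ) ^ 3 * 3 := by gcongr
      have h3 : 0 ≤ 2 * ((N : ℝ) / Real.sqrt P) := by positivity
      linarith
    · push Not at hex
      obtain ⟨q₀, hq₀, b₀, hb₀, hlt⟩ := hex
      have h1 := model_near hWs ω N hωN θ le_rfl hX0 hq₀ hb₀ hlt.le
      have h2 : ((W * Q : ℕ) : ℝ) ^ 3 * TV ω N ≤ ((W * Q : ℕ) : ℝ) ^ 3 * 3 := by gcongr
      obtain ⟨hq1, _, hqs⟩ := mem_RR hWs hq₀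
      have hφ0 : (0 : ℝ) < Nat.totient q₀ := by exact_mod_cast Nat.totient_pos.2 hq1
      have hφ1 : (1 : ℝ) ≤ Nat.totient q₀ := by exact_mod_cast Nat.totient_pos.2 hq1
      have hvN : ‖vh ω N (θ + b₀ / q₀)‖ ≤ N := by
        unfold vh
        refine (norm_sum_le _ _).trans ?_
        calc _ ≤ ∑ n ∈ range N, (1 : ℝ) := by
              apply sum_le_sum
              intro n _
              rw [norm_mul, norm_ee, mul_one, Complex.norm_real, Real.norm_eq_abs, abs_of_nonneg (hω.nonneg n)]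
              exact hω.le_one n
          _ = N := by simp
      have hsP : 0 < Real.sqrt P := Real.sqrt_pos.2 hP0
      have h3 : ‖((cc q₀ : ℝ) : ℂ) * vh ω N (θ + b₀ / q₀)‖ ≤ 2 * (N / Real.sqrt P) := by
        rw [norm_mul, Complex.norm_real, Real.norm_eq_abs, abs_cc hqs]
        rcases le_or_gt q₀ P with hqP | hqP
        · -- far from the fraction
          have hd : 4 * ((P : ℝ) / N) ≤ dd (θ + b₀ / q₀) := by
            apply dd_round
            intro a
            have h4 := hθ q₀ hq1 hqP (a * q₀ - b₀)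
            have hq0' : (q₀ : ℝ) ≠ 0 := by exact_mod_cast hq1.ne'
            have e4 : θ - ((a * q₀ - b₀ : ℤ) : ℝ) / q₀ = θ + b₀ / q₀ - a := by
              push_cast
              field_simp
              ring
            rw [e4] at h4
            exact h4.le
          have h5 := (mul_le_mul_of_nonneg_right hd (norm_nonneg (vh ω N (θ + b₀ / q₀)))).trans (vh_small ω N hωN _)
          have h6 : ‖vh ω N (θ + b₀ / q₀)‖ ≤ N / P := by
            rw [le_div_iff₀ hP0]
            have e6 : 4 * ((P : ℝ) / N) * ‖vh ω N (θ + b₀ / q₀)‖ = 4 * (P * ‖vh ω N (θ + b₀ / q₀)‖) / N := by ring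
            rw [e6, div_le_iff₀ hN0] at h5
            nlinarith
          have h7 : (N : ℝ) / P ≤ N / Real.sqrt P :=
            div_le_div_of_nonneg_left hN0.le hsP (sqrt_le_self' hP1)
          calc 1 / (Nat.totient q₀ : ℝ) * ‖vh ω N (θ + b₀ / q₀)‖ ≤ 1 * (N / P) := by
                gcongr
                rw [div_le_one hφ0]
                exact hφ1
            _ ≤ 2 * (N / Real.sqrt P) := by
                have : 0 ≤ (N : ℝ) / Real.sqrt P := by positivity
                linarith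
        · -- large denominator
          have h4 : Real.sqrt P ≤ 2 * (Nat.totient q₀ : ℝ) := by
            rw [Real.sqrt_le_iff]
            refine ⟨by positivity, ?_⟩
            have h5 := tot_sqfree hqs
            have h6 : (P : ℝ) ≤ q₀ := by exact_mod_cast hqP.le
            nlinarith [sq_nonneg (Nat.totient q₀ : ℝ)]
          calc 1 / (Nat.totient q₀ : ℝ) * ‖vh ω N (θ + b₀ / q₀)‖ ≤ 1 / (Nat.totient q₀ : ℝ) * N := by gcongr
            _ = N / (Nat.totient q₀ : ℝ) := by ring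
            _ ≤ 2 * (N / Real.sqrt P) := by
                rw [mul_div_assoc', div_le_div_iff₀ hφ0 hsP]
                nlinarith
      have e5 : ∑ n ∈ range N, ((ω n * GW W Q (n : ℤ) : ℝ) : ℂ) * ee (n * θ) =
          (∑ n ∈ range N, ((ω n * GW W Q (n : ℤ) : ℝ) : ℂ) * ee (n * θ) - ((cc q₀ : ℝ) : ℂ) * vh ω N (θ + b₀ / q₀)) +
            ((cc q₀ : ℝ) : ℂ) * vh ω N (θ + b₀ / q₀) := by ring
      rw [e5]
      refine (norm_add_le _ _).trans ?_
      linarith

end Pool.Agent.J4H81.PT
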