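import Pool.Agent.J4H81.PT.ZFc
import Pool.Agent.H379R2.SWP
import Pool.Agent.H378R2.M1f

/-!
# Growing prime tuples: Perron's formula and the shift of the contour (helper81)
-/

set_option autoImplicit false

namespace Pool.Agent.J4H81.PT.ZF

open Complex Filter Topology Set MeasureTheory
open scoped Interval
open Pool.Agent.H379R2.SW (vert vert_re vert_im vert_ne_zero continuous_vert inv_norm_vert_sq_le integrable_inv_norm_vert_sq perron_sum)

/-- the tail of the Perron integral -/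
theorem perron_tail {c M V : ℝ} (hc : 1 ≤ c) (hV : 0 < V) {Φ : ℝ → ℂ}
    (hb : ∀ ξ, ‖Φ ξ‖ ≤ M * (‖vert c ξ‖ ^ 2)⁻¹) : ‖∫ ξ in Ioi V, Φ ξ‖ ≤ M / (4 * Real.pi ^ 2 * V) := by
  have hM : 0 ≤ M := by
    by_contra hcon
    push Not at hcon
    have h1 := hb 0
    have h2 := norm_nonneg (Φ 0)
    have h3 : 0 < (‖vert c 0‖ ^ 2)⁻¹ := by
      have := norm_pos_iff.mpr (vert_ne_zero (by linarith : 0 < c) 0)
      positivity
    nlinarith
  have hint : IntegrableOn (fun ξ : ℝ => M / (4 * Real.pi ^ 2) * ξ ^ (-2 : ℝ)) (Ioi V) :=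
    (integrableOn_Ioi_rpow_of_lt (by norm_num) hV).const_mul _
  have h1 : ‖∫ ξ in Ioi V, Φ ξ‖ ≤ ∫ ξ in Ioi V, M / (4 * Real.pi ^ 2) * ξ ^ (-2 : ℝ) := by
    apply norm_integral_le_of_norm_le hint
    rw [ae_restrict_iff' measurableSet_Ioi]
    refine Eventually.of_forall fun ξ hξ => ?_
    have hξ0 : 0 < ξ := hV.trans hξ
    refine (hb ξ).trans ?_
    rw [div_mul_eq_mul_div, mul_div_assoc]
    apply mul_le_mul_of_nonneg_left _ hM
    rw [Real.rpow_neg hξ0.le, Real.rpow_two, inv_eq_one_div, inv_eq_one_div, div_div]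
    apply one_div_le_one_div_of_le (by positivity)
    rw [Complex.sq_norm, Complex.normSq_apply, vert_re, vert_im]
    nlinarith [sq_nonneg c]
  refine h1.trans (le_of_eq ?_)
  rw [integral_const_mul, integral_Ioi_rpow_of_lt (by norm_num) hV]
  norm_num
  rw [Real.rpow_neg_one]
  field_simp

/-- the integral over a vertical segment -/
theorem seg_le {σ Tt : ℝ} (hσ : 1 / 2 ≤ σ) (hT : 0 ≤ Tt) {G : ℝ → ℂ} {A : ℝ} (hA : 0 ≤ A)
    (hG : ∀ y ∈ Set.Icc (-Tt) Tt, ‖G y‖ ≤ A * (σ ^ 2 + y ^ 2)⁻¹) :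
    ‖∫ y in (-Tt)..Tt, G y‖ ≤ 4 * Real.pi * A := by
  have h1 : ‖∫ y in (-Tt)..Tt, G y‖ ≤ ∫ y in (-Tt)..Tt, 4 * A * (1 + y ^ 2)⁻¹ := by
    apply intervalIntegral.norm_integral_le_of_norm_le (by linarith)
    · refine Eventually.of_forall fun y hy => ?_
      refine (hG y ⟨hy.1.le, hy.2⟩).trans ?_
      rw [mul_comm 4 A, mul_assoc]
      apply mul_le_mul_of_nonneg_left _ hA
      rw [inv_eq_one_div, ← div_eq_mul_inv, div_le_div_iff₀ (by positivity) (by positivity)]
      nlinarith [sq_nonneg y]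
    · exact (integrable_inv_one_add_sq.const_mul (4 * A)).intervalIntegrable
  refine h1.trans ?_
  rw [intervalIntegral.integral_of_le (by linarith)]
  calc ∫ y in Set.Ioc (-Tt) Tt, 4 * A * (1 + y ^ 2)⁻¹ ≤ ∫ y : ℝ, 4 * A * (1 + y ^ 2)⁻¹ :=
        setIntegral_le_integral (integrable_inv_one_add_sq.const_mul (4 * A))
          (Eventually.of_forall fun y => by
            have : 0 < (1 + y ^ 2)⁻¹ := by positivity
            simp only [Pi.zero_apply]
            positivity)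
    _ = 4 * Real.pi * A := by
        rw [integral_const_mul, integral_univ_inv_one_add_sq]
        ring

/-- Perron's formula with the contour shifted -/
theorem shift_bound {a : ℕ → ℂ} {F : ℂ → ℂ} {c σ Tt M M' x : ℝ} (hc : 1 < c) (hc2 : c ≤ 2) (hσ : 1 / 2 ≤ σ) (hσc : σ ≤ c)
    (hT : 1 ≤ Tt) (hx : 1 ≤ x) (ha : ∀ y : ℝ, 1 < y → LSeriesSummable a y) (hF : ∀ s : ℂ, s.re = c → LSeries a s = F s)
    (hd : DifferentiableOn ℂ F ([[σ, c]] ×ℂ [[-Tt, Tt]])) (hM : ∀ s ∈ [[σ, c]] ×ℂ [[-Tt, Tt]], ‖F s‖ ≤ M)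
    (hM' : ∀ s : ℂ, s.re = c → ‖LSeries a s‖ ≤ M') :
    ‖∑ n ∈ Finset.Icc 1 ⌊x⌋₊, a n * ((Real.log (x / n) : ℝ) : ℂ)‖ ≤
      2 * M * x ^ σ + x ^ c * (M / Tt ^ 2 + M' / Tt) := by
  have hx0 : 0 < x := by linarith
  have hlx : 0 ≤ Real.log x := Real.log_nonneg hx
  have hpi := Real.pi_pos
  have hpi3 := Real.pi_gt_three
  have hM0 : 0 ≤ M := (norm_nonneg _).trans (hM (c : ℂ) (by
    rw [mem_reProdIm]; simp only [ofReal_re, ofReal_im]
    rw [Set.uIcc_of_le hσc, Set.uIcc_of_le (by linarith)]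
    exact ⟨⟨hσc, le_rfl⟩, ⟨by linarith, by linarith⟩⟩))
  have hM'0 : 0 ≤ M' := (norm_nonneg _).trans (hM' (c : ℂ) (by simp))
  set G : ℂ → ℂ := fun s => F s / s ^ 2 * cexp ((s - c) * Real.log x) with hG
  set Φ : ℝ → ℂ := fun ξ => LSeries a (vert c ξ) / (vert c ξ) ^ 2 * cexp (((2 * Real.pi * ξ * Real.log x : ℝ) : ℂ) * I) with hΦ
  have hΦG : ∀ ξ, Φ ξ = G (c + ((2 * Real.pi * ξ : ℝ) : ℂ) * I) := by
    intro ξ
    simp only [hΦ, hG]
    rw [hF _ (vert_re c ξ)]
    unfold vert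
    congr 2
    push_cast; ring
  have hΦb : ∀ ξ, ‖Φ ξ‖ ≤ M' * (‖vert c ξ‖ ^ 2)⁻¹ := by
    intro ξ
    simp only [hΦ]
    rw [norm_mul, Complex.norm_exp_ofReal_mul_I, mul_one, norm_div, norm_pow, div_eq_mul_inv]
    exact mul_le_mul_of_nonneg_right (hM' _ (vert_re c ξ)) (by positivity)
  have hab : LSeries.abscissaOfAbsConv a ≤ 1 := LSeries.abscissaOfAbsConv_le_of_forall_lt_LSeriesSummable ha
  have hΦc : Continuous Φ := by
    simp only [hΦ]
    have h1 : Continuous fun ξ => LSeries a (vert c ξ) := by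
      rw [continuous_iff_continuousAt]
      intro ξ
      have h2 : ContinuousAt (LSeries a) (vert c ξ) := by
        apply ContinuousOn.continuousAt (LSeries_differentiableOn a).continuousOn
        apply (isOpen_lt continuous_const (EReal.continuous_coe_iff.mpr continuous_re)).mem_nhds
        show LSeries.abscissaOfAbsConv a < _
        rw [vert_re]
        refine lt_of_le_of_lt hab ?_
        exact_mod_cast hc
      exact ContinuousAt.comp h2 (continuous_vert c).continuousAt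
    refine (h1.div ((continuous_vert c).pow 2) fun ξ => pow_ne_zero 2 (vert_ne_zero (by linarith) ξ)).mul ?_
    fun_prop
  have hΦi : Integrable Φ := by
    refine Integrable.mono' ((integrable_inv_norm_vert_sq hc.le).const_mul M') hΦc.aestronglyMeasurable
      (Eventually.of_forall hΦb)
  set V : ℝ := Tt / (2 * Real.pi) with hV
  have hV0 : 0 < V := by positivity
  have hsplit : ∫ ξ, Φ ξ = (∫ ξ in Iic (-V), Φ ξ) + (∫ ξ in (-V)..V, Φ ξ) + ∫ ξ in Ioi V, Φ ξ := by
    rw [← intervalIntegral.integral_Iic_add_Ioi hΦi.integrableOn hΦi.integrableOn (b := V),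
      ← intervalIntegral.integral_Iic_sub_Iic hΦi.integrableOn hΦi.integrableOn (a := -V) (b := V)]
    ring
  have htail1 : ‖∫ ξ in Ioi V, Φ ξ‖ ≤ M' / (4 * Real.pi ^ 2 * V) := perron_tail hc.le hV0 hΦb
  have htail2 : ‖∫ ξ in Iic (-V), Φ ξ‖ ≤ M' / (4 * Real.pi ^ 2 * V) := by
    rw [← integral_comp_neg_Ioi]
    apply perron_tail hc.le hV0
    intro ξ
    refine (hΦb (-ξ)).trans (le_of_eq ?_)
    congr 3
    rw [Complex.norm_def, Complex.norm_def, Complex.normSq_apply, Complex.normSq_apply, vert_re, vert_im, vert_re, vert_im]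
    congr 1
    ring
  have hmid : ‖∫ ξ in (-V)..V, Φ ξ‖ ≤ 2 * M * Real.exp ((σ - c) * Real.log x) + M / Tt ^ 2 := by
    have e1 : ∫ ξ in (-V)..V, Φ ξ = ((2 * Real.pi)⁻¹ : ℝ) • ∫ y in (-Tt)..Tt, G (c + (y : ℂ) * I) := by
      have h2 := intervalIntegral.integral_comp_mul_left (a := -V) (b := V) (fun y : ℝ => G (c + (y : ℂ) * I))
        (by positivity : (2 * Real.pi : ℝ) ≠ 0)
      have h3 : 2 * Real.pi * -V = -Tt := by rw [hV]; field_simp
      have h4 : 2 * Real.pi * V = Tt := by rw [hV]; field_simp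
      rw [h3, h4] at h2
      rw [← h2]
      apply intervalIntegral.integral_congr
      intro ξ _
      simp only
      rw [hΦG]
    have hrect := Complex.integral_boundary_rect_eq_zero_of_differentiableOn G ((σ : ℂ) + ((-Tt : ℝ) : ℂ) * I) ((c : ℂ) + (Tt : ℂ) * I) (by
      have e : [[((σ : ℂ) + ((-Tt : ℝ) : ℂ) * I).re, ((c : ℂ) + (Tt : ℂ) * I).re]] ×ℂ [[((σ : ℂ) + ((-Tt : ℝ) : ℂ) * I).im, ((c : ℂ) + (Tt : ℂ) * I).im]] =
        [[σ, c]] ×ℂ [[-Tt, Tt]] := by simp
      rw [e]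
      simp only [hG]
      apply DifferentiableOn.mul
      · apply hd.div (by fun_prop)
        intro s hs
        rw [mem_reProdIm, Set.uIcc_of_le hσc] at hs
        apply pow_ne_zero
        intro h0
        rw [h0] at hs
        simp at hs
        linarith [hs.1.1]
      · fun_prop)
    have r1 : ((σ : ℂ) + ((-Tt : ℝ) : ℂ) * I).re = σ := by simp
    have r2 : ((c : ℂ) + (Tt : ℂ) * I).re = c := by simp
    have r3 : ((σ : ℂ) + ((-Tt : ℝ) : ℂ) * I).im = -Tt := by simp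
    have r4 : ((c : ℂ) + (Tt : ℂ) * I).im = Tt := by simp
    rw [r1, r2, r3, r4] at hrect
    have hhor : ∀ y : ℝ, |y| = Tt → ‖∫ u in σ..c, G (u + (y : ℂ) * I)‖ ≤ 3 / 2 * (M / Tt ^ 2) := by
      intro y hy
      have h1 := intervalIntegral.norm_integral_le_of_norm_le_const (a := σ) (b := c) (f := fun u : ℝ => G (u + (y : ℂ) * I))
        (C := M / Tt ^ 2) (by
          intro u hu
          rw [Set.uIoc_of_le hσc] at hu
          simp only [hG]
          have hmem : ((u : ℂ) + (y : ℂ) * I) ∈ [[σ, c]] ×ℂ [[-Tt, Tt]] := by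
            rw [mem_reProdIm]
            simp only [add_re, ofReal_re, mul_re, I_re, mul_zero, ofReal_im, I_im, mul_one, sub_self, add_zero, add_im, mul_im, zero_add]
            rw [Set.uIcc_of_le hσc, Set.uIcc_of_le (by linarith)]
            refine ⟨⟨hu.1.le, hu.2⟩, ?_⟩
            rw [Set.mem_Icc, ← abs_le]
            exact hy.le
          rw [norm_mul, norm_div, norm_pow]
          have h2 : ‖cexp (((u : ℂ) + (y : ℂ) * I - c) * Real.log x)‖ ≤ 1 := by
            rw [Complex.norm_exp]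
            apply Real.exp_le_one_iff.2
            simp only [mul_re, sub_re, add_re, ofReal_re, I_re, mul_zero, ofReal_im, I_im, mul_one, sub_self, add_zero, sub_im, add_im, mul_im, zero_add, sub_zero]
            nlinarith [hu.2]
          have h3 : Tt ^ 2 ≤ ‖(u : ℂ) + (y : ℂ) * I‖ ^ 2 := by
            rw [Complex.sq_norm, Complex.normSq_apply]
            simp only [add_re, ofReal_re, mul_re, I_re, mul_zero, ofReal_im, I_im, mul_one, sub_self, add_zero, add_im, mul_im, zero_add]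
            rw [← hy, sq_abs]
            nlinarith [sq_nonneg u]
          calc ‖F ((u : ℂ) + (y : ℂ) * I)‖ / ‖(u : ℂ) + (y : ℂ) * I‖ ^ 2 * ‖cexp (((u : ℂ) + (y : ℂ) * I - c) * Real.log x)‖ ≤
                M / Tt ^ 2 * 1 := by
                apply mul_le_mul _ h2 (norm_nonneg _) (by positivity)
                apply div_le_div₀ hM0 (hM _ hmem) (by positivity) h3
            _ = _ := mul_one _)
      refine h1.trans ?_
      rw [abs_of_nonneg (by linarith), mul_comm]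
      apply mul_le_mul_of_nonneg_right (by linarith) (by positivity)
    have hver : ‖∫ y in (-Tt)..Tt, G (σ + (y : ℂ) * I)‖ ≤ 4 * Real.pi * (M * Real.exp ((σ - c) * Real.log x)) := by
      apply seg_le hσ (by linarith) (by positivity)
      intro y hy
      simp only [hG]
      have hmem : ((σ : ℂ) + (y : ℂ) * I) ∈ [[σ, c]] ×ℂ [[-Tt, Tt]] := by
        rw [mem_reProdIm]
        simp only [add_re, ofReal_re, mul_re, I_re, mul_zero, ofReal_im, I_im, mul_one, sub_self, add_zero, add_im, mul_im, zero_add]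
        rw [Set.uIcc_of_le hσc, Set.uIcc_of_le (by linarith)]
        exact ⟨⟨le_rfl, hσc⟩, hy⟩
      rw [norm_mul, norm_div, norm_pow]
      have h2 : ‖cexp (((σ : ℂ) + (y : ℂ) * I - c) * Real.log x)‖ = Real.exp ((σ - c) * Real.log x) := by
        rw [Complex.norm_exp]
        congr 1
        simp
      have h3 : ‖(σ : ℂ) + (y : ℂ) * I‖ ^ 2 = σ ^ 2 + y ^ 2 := by
        rw [Complex.sq_norm, Complex.normSq_apply]
        simp only [add_re, ofReal_re, mul_re, I_re, mul_zero, ofReal_im, I_im, mul_one, sub_self, add_zero, add_im, mul_im, zero_add]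
        ring
      rw [h2, h3, div_eq_mul_inv]
      calc ‖F ((σ : ℂ) + (y : ℂ) * I)‖ * (σ ^ 2 + y ^ 2)⁻¹ * Real.exp ((σ - c) * Real.log x) ≤
            M * (σ ^ 2 + y ^ 2)⁻¹ * Real.exp ((σ - c) * Real.log x) := by
            have := hM _ hmem
            gcongr
        _ = _ := by ring
    have e2 : ‖∫ y in (-Tt)..Tt, G (c + (y : ℂ) * I)‖ ≤ 3 * (M / Tt ^ 2) + 4 * Real.pi * (M * Real.exp ((σ - c) * Real.log x)) := by
      have h5 : I • ∫ y in (-Tt)..Tt, G (c + (y : ℂ) * I) = I • (∫ y in (-Tt)..Tt, G (σ + (y : ℂ) * I)) +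
          (∫ u in σ..c, G (u + (Tt : ℂ) * I)) - ∫ u in σ..c, G (u + ((-Tt : ℝ) : ℂ) * I) := by
        linear_combination hrect
      have h6 : ‖I • ∫ y in (-Tt)..Tt, G (c + (y : ℂ) * I)‖ = ‖∫ y in (-Tt)..Tt, G (c + (y : ℂ) * I)‖ := by
        rw [norm_smul, Complex.norm_I, one_mul]
      rw [← h6, h5]
      refine (norm_sub_le _ _).trans ?_
      have h7 := norm_add_le (I • (∫ y in (-Tt)..Tt, G (σ + (y : ℂ) * I))) (∫ u in σ..c, G (u + (Tt : ℂ) * I))
      rw [norm_smul, Complex.norm_I, one_mul] at h7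
      have h8 := hhor Tt (abs_of_nonneg (by linarith))
      have h9 := hhor (-Tt) (by rw [abs_neg, abs_of_nonneg (by linarith)])
      linarith
    rw [e1, norm_smul, Real.norm_of_nonneg (by positivity)]
    calc (2 * Real.pi)⁻¹ * ‖∫ y in (-Tt)..Tt, G (c + (y : ℂ) * I)‖ ≤
          (2 * Real.pi)⁻¹ * (3 * (M / Tt ^ 2) + 4 * Real.pi * (M * Real.exp ((σ - c) * Real.log x))) := by gcongr
      _ = (3 / (2 * Real.pi)) * (M / Tt ^ 2) + 2 * M * Real.exp ((σ - c) * Real.log x) := by field_simp; ring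
      _ ≤ 1 * (M / Tt ^ 2) + 2 * M * Real.exp ((σ - c) * Real.log x) := by
          have : 3 / (2 * Real.pi) ≤ 1 := by
            rw [div_le_one (by positivity)]
            linarith
          gcongr
      _ = _ := by ring
  rw [perron_sum a hc.le (ha c hc) hx, norm_mul, Complex.norm_real, Real.norm_of_nonneg (Real.exp_pos _).le]
  have htot : ‖∫ ξ, Φ ξ‖ ≤ 2 * M * Real.exp ((σ - c) * Real.log x) + M / Tt ^ 2 + M' / Tt := by
    rw [hsplit]
    have h1 := norm_add_le ((∫ ξ in Iic (-V), Φ ξ) + (∫ ξ in (-V)..V, Φ ξ)) (∫ ξ in Ioi V, Φ ξ)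
    have h2 := norm_add_le (∫ ξ in Iic (-V), Φ ξ) (∫ ξ in (-V)..V, Φ ξ)
    have h3 : M' / (4 * Real.pi ^ 2 * V) + M' / (4 * Real.pi ^ 2 * V) ≤ M' / Tt := by
      have : 4 * Real.pi ^ 2 * V = 2 * Real.pi * Tt := by rw [hV]; field_simp; ring
      rw [this, ← add_div, div_le_div_iff₀ (by positivity) (by positivity)]
      nlinarith [mul_nonneg hM'0 (by linarith : 0 ≤ Tt)]
    linarith
  have hxc : Real.exp (c * Real.log x) = x ^ c := by rw [Real.rpow_def_of_pos hx0, mul_comm]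
  have hxσ : x ^ c * Real.exp ((σ - c) * Real.log x) = x ^ σ := by
    rw [Real.rpow_def_of_pos hx0, Real.rpow_def_of_pos hx0, ← Real.exp_add]
    congr 1
    ring
  calc Real.exp (c * Real.log x) * ‖∫ ξ, Φ ξ‖ ≤ x ^ c * (2 * M * Real.exp ((σ - c) * Real.log x) + M / Tt ^ 2 + M' / Tt) := by
        rw [hxc]
        exact mul_le_mul_of_nonneg_left htot (by positivity)
    _ = 2 * M * (x ^ c * Real.exp ((σ - c) * Real.log x)) + x ^ c * (M / Tt ^ 2 + M' / Tt) := by ring
    _ = _ := by rw [hxσ]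

end Pool.Agent.J4H81.PT.ZF
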