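import Mathlib

/-!
# Growing prime tuples: the second moment over the lifts (helper81)
-/

set_option autoImplicit false

namespace Pool.Agent.J4H81.PT

open Finset

/-- the number of the lifts without a solution is small if the first moment is large and the second moment is small -/
theorem second_moment {k T U : ℕ} (hT : 0 < T) (hU : 0 < U) (f : Fin k → ℕ → ℝ)
    {η₁ η₂ : ℝ} (hη1 : 0 ≤ η₁) (hη2 : 0 ≤ η₂)
    (h1 : ∀ u < U, (1 - η₁) * (T : ℝ) ^ k ≤ ∏ i, ∑ t ∈ range T, f i (u + t))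
    (h2 : ∑ u ∈ range U, ∑ u' ∈ range U, ∏ i, ∑ t ∈ range T, f i (u + t) * f i (u' + t) ≤
      (1 + η₂) * ((U : ℝ) ^ 2 * (T : ℝ) ^ k)) :
    (((Fintype.piFinset (fun _ : Fin k => range T)).filter
      (fun t => ∑ u ∈ range U, ∏ i, f i (u + t i) = 0)).card : ℝ) ≤ (2 * η₁ + η₂) * (T : ℝ) ^ k := by
  classical
  set Om := Fintype.piFinset (fun _ : Fin k => range T) with hOm
  set Z : (Fin k → ℕ) → ℝ := fun t => ∑ u ∈ range U, ∏ i, f i (u + t i) with hZ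
  have hcard : (Om.card : ℝ) = (T : ℝ) ^ k := by
    rw [hOm, Fintype.card_piFinset]
    simp
  have hT' : (0 : ℝ) < T := by exact_mod_cast hT
  have hU' : (0 : ℝ) < U := by exact_mod_cast hU
  have hTk : (0 : ℝ) < (T : ℝ) ^ k := by positivity
  have hS1 : ∑ t ∈ Om, Z t = ∑ u ∈ range U, ∏ i, ∑ t ∈ range T, f i (u + t) := by
    rw [hZ, sum_comm]
    refine sum_congr rfl fun u _ => ?_
    rw [hOm, ← Finset.prod_univ_sum (t := fun _ : Fin k => range T) (f := fun i t => f i (u + t))]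
  have hS2 : ∑ t ∈ Om, Z t ^ 2 =
      ∑ u ∈ range U, ∑ u' ∈ range U, ∏ i, ∑ t ∈ range T, f i (u + t) * f i (u' + t) := by
    have e : ∀ t, Z t ^ 2 = ∑ u ∈ range U, ∑ u' ∈ range U, ∏ i, (f i (u + t i) * f i (u' + t i)) := by
      intro t
      rw [hZ, sq, sum_mul_sum]
      refine sum_congr rfl fun u _ => sum_congr rfl fun u' _ => ?_
      rw [prod_mul_distrib]
    rw [sum_congr rfl (fun t _ => e t), sum_comm]
    refine sum_congr rfl fun u _ => ?_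
    rw [sum_comm]
    refine sum_congr rfl fun u' _ => ?_
    rw [hOm, ← Finset.prod_univ_sum (t := fun _ : Fin k => range T)
      (f := fun i t => f i (u + t) * f i (u' + t))]
  rcases le_or_gt 1 η₁ with hbig | hsmall
  · have h3 : ((Om.filter (fun t => Z t = 0)).card : ℝ) ≤ Om.card := by
      exact_mod_cast card_filter_le _ _
    rw [hcard] at h3
    refine h3.trans ?_
    nlinarith
  have hS1' : (1 - η₁) * ((U : ℝ) * (T : ℝ) ^ k) ≤ ∑ t ∈ Om, Z t := by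
    rw [hS1]
    calc (1 - η₁) * ((U : ℝ) * (T : ℝ) ^ k) = ∑ u ∈ range U, (1 - η₁) * (T : ℝ) ^ k := by
          rw [sum_const, card_range, nsmul_eq_mul]; ring
      _ ≤ _ := sum_le_sum fun u hu => h1 u (mem_range.1 hu)
  have hS2' : ∑ t ∈ Om, Z t ^ 2 ≤ (1 + η₂) * ((U : ℝ) ^ 2 * (T : ℝ) ^ k) := by rw [hS2]; exact h2
  -- Cauchy-Schwarz
  have hne : ∑ t ∈ Om, Z t = ∑ t ∈ Om.filter (fun t => Z t ≠ 0), Z t := by
    rw [sum_filter_ne_zero]
  have hcs : (∑ t ∈ Om, Z t) ^ 2 ≤ ((Om.filter (fun t => Z t ≠ 0)).card : ℝ) * ∑ t ∈ Om, Z t ^ 2 := by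
    rw [hne]
    refine (sq_sum_le_card_mul_sum_sq).trans ?_
    gcongr
    exact filter_subset _ _
  have hsplit : ((Om.filter (fun t => Z t = 0)).card : ℝ) + ((Om.filter (fun t => Z t ≠ 0)).card : ℝ) =
      (T : ℝ) ^ k := by
    rw [← hcard]
    exact_mod_cast Finset.card_filter_add_card_filter_not (s := Om) (fun t => Z t = 0)
  set a : ℝ := ((Om.filter (fun t => Z t = 0)).card : ℝ) with ha
  set b : ℝ := ((Om.filter (fun t => Z t ≠ 0)).card : ℝ) with hb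
  have hb0 : 0 ≤ b := by rw [hb]; positivity
  have h4 : ((1 - η₁) * ((U : ℝ) * (T : ℝ) ^ k)) ^ 2 ≤ b * ((1 + η₂) * ((U : ℝ) ^ 2 * (T : ℝ) ^ k)) := by
    calc ((1 - η₁) * ((U : ℝ) * (T : ℝ) ^ k)) ^ 2 ≤ (∑ t ∈ Om, Z t) ^ 2 := by
          apply pow_le_pow_left₀ _ hS1'
          have : 0 ≤ 1 - η₁ := by linarith
          positivity
      _ ≤ b * ∑ t ∈ Om, Z t ^ 2 := hcs
      _ ≤ _ := by gcongr
  have h5 : (1 - η₁) ^ 2 * (T : ℝ) ^ k ≤ b * (1 + η₂) := by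
    have h6 : 0 < (U : ℝ) ^ 2 * (T : ℝ) ^ k := by positivity
    have h7 : ((1 - η₁) ^ 2 * (T : ℝ) ^ k) * ((U : ℝ) ^ 2 * (T : ℝ) ^ k) ≤
        (b * (1 + η₂)) * ((U : ℝ) ^ 2 * (T : ℝ) ^ k) := by
      calc _ = ((1 - η₁) * ((U : ℝ) * (T : ℝ) ^ k)) ^ 2 := by ring
        _ ≤ _ := h4
        _ = _ := by ring
    exact le_of_mul_le_mul_right h7 h6
  -- b ≥ (1 - 2 η₁ - η₂) T^k
  have h8 : (1 - 2 * η₁ - η₂) * (T : ℝ) ^ k ≤ b := by
    by_contra hcon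
    push Not at hcon
    have h9 : b * (1 + η₂) < (1 - 2 * η₁ - η₂) * (T : ℝ) ^ k * (1 + η₂) :=
      mul_lt_mul_of_pos_right hcon (by linarith)
    have h10 : (1 - 2 * η₁ - η₂) * (1 + η₂) ≤ (1 - η₁) ^ 2 := by nlinarith [mul_nonneg hη1 hη2, sq_nonneg η₁, sq_nonneg η₂]
    have h11 : (1 - 2 * η₁ - η₂) * (T : ℝ) ^ k * (1 + η₂) ≤ (1 - η₁) ^ 2 * (T : ℝ) ^ k := by
      calc _ = ((1 - 2 * η₁ - η₂) * (1 + η₂)) * (T : ℝ) ^ k := by ring
        _ ≤ _ := by gcongr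
    linarith
  have : a = (T : ℝ) ^ k - b := by linarith
  rw [this]
  linarith

end Pool.Agent.J4H81.PT
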