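import Pool.Agent.J4H81.PT.LFd
import Pool.Agent.J4H81.PT.WT
import Pool.Agent.H379R2.SWP
import Pool.Agent.H316R2.LS

/-!
# Growing prime tuples: bilinear sums on average (helper81)
-/

set_option autoImplicit false

namespace Pool.Agent.J4H81.PT

open Finset MeasureTheory
open Pool.Agent.H807R2.Dav (ee norm_ee ee_add ee_zero ee_int ee_eq dd dd_le)
open Pool.Agent.H379R2.SW (vert vert_re vert_im vert_ne_zero continuous_vert inv_norm_vert_sq_le integrable_inv_norm_vert_sq perron_kernel)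
open Pool.Agent.H398R2.BV (Prim)

/-- exchange of two integrals -/
theorem swap_int {h : ℝ → ℝ} (hc : Continuous h) {B : ℝ} (hb : ∀ ξ, |h ξ| ≤ B) {T : ℝ} (hT : 0 ≤ T) :
    (∫ ξ in (-T)..T, ∫ η : ℝ, h (ξ + η) * (1 + η ^ 2)⁻¹) = ∫ η : ℝ, (∫ ξ in (-T)..T, h (ξ + η)) * (1 + η ^ 2)⁻¹ := by
  rw [intervalIntegral.integral_of_le (by linarith)]
  rw [integral_integral_swap]
  · congr 1
    funext η
    rw [integral_mul_const, intervalIntegral.integral_of_le (by linarith)]
  · have hB0 : 0 ≤ B := (abs_nonneg _).trans (hb 0)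
    have hbase : Integrable (fun p : ℝ × ℝ => B * (1 + p.2 ^ 2)⁻¹) ((volume.restrict (Set.Ioc (-T) T)).prod volume) :=
      (integrable_inv_one_add_sq.const_mul B).comp_snd (volume.restrict (Set.Ioc (-T) T))
    refine hbase.mono' ?_ ?_
    · apply Continuous.aestronglyMeasurable
      apply Continuous.mul
      · exact hc.comp (by fun_prop)
      · apply Continuous.inv₀ (by fun_prop)
        intro p
        positivity
    · refine Filter.Eventually.of_forall fun p => ?_
      simp only [Function.uncurry]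
      rw [norm_mul, Real.norm_eq_abs, Real.norm_of_nonneg (by positivity)]
      exact mul_le_mul_of_nonneg_right (hb _) (by positivity)

theorem PL_bdd (S : Finset ℕ) (c : ℕ → ℂ) (ξ : ℝ) : ‖PL S c ξ‖ ≤ ∑ n ∈ S, ‖c n‖ := by
  unfold PL
  refine norm_sum_le_of_le _ fun n _ => ?_
  rw [norm_mul, norm_ee, mul_one]

theorem PLsq_bdd (S : Finset ℕ) (c : ℕ → ℂ) (ξ : ℝ) : |‖PL S c ξ‖ ^ 2| ≤ (∑ n ∈ S, ‖c n‖) ^ 2 := by
  rw [abs_of_nonneg (by positivity)]
  exact pow_le_pow_left₀ (norm_nonneg _) (PL_bdd S c ξ) 2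

theorem PL_int (S : Finset ℕ) (c : ℕ → ℂ) (ξ : ℝ) : Integrable (fun η : ℝ => ‖PL S c (ξ + η)‖ ^ 2 * (1 + η ^ 2)⁻¹) := by
  refine (integrable_inv_one_add_sq.const_mul ((∑ n ∈ S, ‖c n‖) ^ 2)).mono' ?_ ?_
  · apply Continuous.aestronglyMeasurable
    apply Continuous.mul
    · exact ((PL_cont S c).comp (by fun_prop)).norm.pow 2
    · apply Continuous.inv₀ (by fun_prop)
      intro p
      positivity
  · refine Filter.Eventually.of_forall fun η => ?_
    rw [norm_mul, Real.norm_of_nonneg (by positivity : 0 ≤ (1 + η ^ 2)⁻¹), Real.norm_eq_abs]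
    exact mul_le_mul_of_nonneg_right (PLsq_bdd S c _) (by positivity)

/-- bilinear sums at a point -/
theorem bil_point (M : ℕ) {x : ℝ} (hx : 1 ≤ x) (a b : ℕ → ℂ) (ξ : ℝ) :
    ‖∑ m ∈ Icc 1 M, ∑ k ∈ Icc 1 M, a m * b k * ee (-(ξ * Real.log m)) * ee (-(ξ * Real.log k)) *
      ((lp (Real.log x) (Real.log m + Real.log k) : ℝ) : ℂ)‖ ≤
      x / 2 * ∫ η : ℝ, (‖PL (Icc 1 M) (fun m => a m / m) (ξ + η)‖ ^ 2 + ‖PL (Icc 1 M) (fun m => b m / m) (ξ + η)‖ ^ 2) * (1 + η ^ 2)⁻¹ := by
  have hx0 : 0 < x := by linarith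
  set A : ℝ → ℂ := PL (Icc 1 M) (fun m => a m / m) with hA
  set G : ℝ → ℂ := PL (Icc 1 M) (fun m => b m / m) with hG
  have hkernel_int : ∀ v : ℝ, Integrable (fun η : ℝ => Complex.exp (((2 * Real.pi * η * v : ℝ) : ℂ) * Complex.I) / (vert 1 η) ^ 2) := by
    intro v
    refine (integrable_inv_norm_vert_sq le_rfl).mono' ?_ ?_
    · apply Continuous.aestronglyMeasurable
      apply Continuous.div (by fun_prop) ((continuous_vert 1).pow 2)
      intro η
      exact pow_ne_zero 2 (vert_ne_zero one_pos η)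
    · refine Filter.Eventually.of_forall fun η => ?_
      rw [norm_div, Complex.norm_exp_ofReal_mul_I, norm_pow, one_div]
  have hterm : ∀ m ∈ Icc 1 M, ∀ k ∈ Icc 1 M, a m * b k * ee (-(ξ * Real.log m)) * ee (-(ξ * Real.log k)) *
      ((lp (Real.log x) (Real.log m + Real.log k) : ℝ) : ℂ) =
      ∫ η : ℝ, (x : ℂ) * ee (η * Real.log x) * ((a m / m) * ee (-((ξ + η) * Real.log m))) * ((b k / k) * ee (-((ξ + η) * Real.log k))) / (vert 1 η) ^ 2 := by
    intro m hm k hk
    rw [mem_Icc] at hm hk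
    have hm0 : (0 : ℝ) < m := by exact_mod_cast hm.1
    have hk0 : (0 : ℝ) < k := by exact_mod_cast hk.1
    have hmc : (m : ℂ) ≠ 0 := by exact_mod_cast hm0.ne'
    have hkc : (k : ℂ) ≠ 0 := by exact_mod_cast hk0.ne'
    set v : ℝ := Real.log x - (Real.log m + Real.log k) with hv
    have h1 := perron_kernel (c := 1) le_rfl v
    have h2 : ((lp (Real.log x) (Real.log m + Real.log k) : ℝ) : ℂ) = ((x / (m * k) : ℝ) : ℂ) *
        ∫ η : ℝ, Complex.exp (((2 * Real.pi * η * v : ℝ) : ℂ) * Complex.I) / (vert 1 η) ^ 2 := by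
      rw [h1, ← Complex.ofReal_mul]
      congr 1
      unfold lp
      rw [← hv, max_comm 0 v, one_mul, Real.exp_neg]
      have h3 : Real.exp v = x / (m * k) := by
        rw [hv, Real.exp_sub, Real.exp_add, Real.exp_log hx0, Real.exp_log hm0, Real.exp_log hk0]
      rw [h3]
      field_simp
    rw [h2, ← integral_const_mul, ← integral_const_mul]
    congr 1
    funext η
    have h4 : Complex.exp (((2 * Real.pi * η * v : ℝ) : ℂ) * Complex.I) = ee (η * Real.log x) * ee (-(η * Real.log m)) * ee (-(η * Real.log k)) := by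
      rw [← ee_add, ← ee_add, ee_eq]
      congr 3
      rw [hv]
      ring
    have h5 : ee (-((ξ + η) * Real.log m)) = ee (-(ξ * Real.log m)) * ee (-(η * Real.log m)) := by
      rw [← ee_add]; congr 1; ring
    have h6 : ee (-((ξ + η) * Real.log k)) = ee (-(ξ * Real.log k)) * ee (-(η * Real.log k)) := by
      rw [← ee_add]; congr 1; ring
    rw [h4, h5, h6]
    push_cast
    field_simp
  have hint : ∀ m ∈ Icc 1 M, ∀ k ∈ Icc 1 M, Integrable (fun η : ℝ => (x : ℂ) * ee (η * Real.log x) * ((a m / m) * ee (-((ξ + η) * Real.log m))) *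
      ((b k / k) * ee (-((ξ + η) * Real.log k))) / (vert 1 η) ^ 2) := by
    intro m _ k _
    refine ((integrable_inv_norm_vert_sq le_rfl).const_mul (x * ‖a m / m‖ * ‖b k / k‖)).mono' ?_ ?_
    · apply Continuous.aestronglyMeasurable
      apply Continuous.div
      · have := ee_cont'
        fun_prop
      · exact (continuous_vert 1).pow 2
      · intro η
        exact pow_ne_zero 2 (vert_ne_zero one_pos η)
    · refine Filter.Eventually.of_forall fun η => ?_
      simp only [norm_div, norm_mul, norm_ee, mul_one, norm_pow, Complex.norm_real, Real.norm_of_nonneg hx0.le]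
      exact le_of_eq (by rw [div_eq_mul_inv])
  have hsum : ∑ m ∈ Icc 1 M, ∑ k ∈ Icc 1 M, a m * b k * ee (-(ξ * Real.log m)) * ee (-(ξ * Real.log k)) *
      ((lp (Real.log x) (Real.log m + Real.log k) : ℝ) : ℂ) =
      ∫ η : ℝ, (x : ℂ) * ee (η * Real.log x) * A (ξ + η) * G (ξ + η) / (vert 1 η) ^ 2 := by
    rw [sum_congr rfl fun m hm => sum_congr rfl fun k hk => hterm m hm k hk]
    rw [sum_congr rfl fun m hm => (integral_finsetSum _ (hint m hm)).symm]
    rw [← integral_finsetSum _ fun m hm => integrable_finsetSum _ (hint m hm)]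
    congr 1
    funext η
    rw [hA, hG]
    unfold PL
    rw [mul_assoc _ (∑ n ∈ Icc 1 M, _) (∑ n ∈ Icc 1 M, _), sum_mul_sum, mul_sum, sum_div]
    refine sum_congr rfl fun m _ => ?_
    rw [mul_sum, sum_div]
    refine sum_congr rfl fun k _ => ?_
    ring
  rw [hsum, ← integral_const_mul]
  have hA2 := PL_int (Icc 1 M) (fun m => a m / m) ξ
  have hG2 := PL_int (Icc 1 M) (fun m => b m / m) ξ
  apply norm_integral_le_of_norm_le
  · apply Integrable.const_mul
    have := hA2.add hG2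
    refine this.congr (Filter.Eventually.of_forall fun η => ?_)
    simp only [Pi.add_apply]
    ring
  · refine Filter.Eventually.of_forall fun η => ?_
    rw [norm_div, norm_mul, norm_mul, norm_mul, norm_ee, mul_one, norm_pow, Complex.norm_real, Real.norm_of_nonneg hx0.le, div_eq_mul_inv]
    have h1 := inv_norm_vert_sq_le (c := 1) le_rfl η
    have h2 : ‖A (ξ + η)‖ * ‖G (ξ + η)‖ ≤ (‖A (ξ + η)‖ ^ 2 + ‖G (ξ + η)‖ ^ 2) / 2 := by
      nlinarith [sq_nonneg (‖A (ξ + η)‖ - ‖G (ξ + η)‖)]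
    calc x * ‖A (ξ + η)‖ * ‖G (ξ + η)‖ * (‖vert 1 η‖ ^ 2)⁻¹ = x * (‖A (ξ + η)‖ * ‖G (ξ + η)‖) * (‖vert 1 η‖ ^ 2)⁻¹ := by ring
      _ ≤ x * ((‖A (ξ + η)‖ ^ 2 + ‖G (ξ + η)‖ ^ 2) / 2) * (1 + η ^ 2)⁻¹ := by gcongr
      _ = _ := by ring

/-- one factor, on average -/
theorem factor_mean (R M : ℕ) (α : ℕ → ℂ) {T V : ℝ} (hT : 1 ≤ T) (hV : 7 * T * (1 + (R : ℝ) ^ 2) ≤ V) (hα : ∀ m : ℕ, α m ≠ 0 → V ≤ m) :
    ∑ f ∈ Icc 1 R, ((f : ℝ) / (Nat.totient f : ℝ)) * ∑ χ ∈ Prim f,
      (∫ ξ in (-T)..T, ∫ η : ℝ, ‖PL (Icc 1 M) (fun m => α m * χ (m : ZMod f) / m) (ξ + η)‖ ^ 2 * (1 + η ^ 2)⁻¹) ≤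
      240 * ∑ m ∈ Icc 1 M, ‖α m‖ ^ 2 / m := by
  have hpf : ∀ (f : ℕ) (χ : DirichletCharacter ℂ f), (fun m : ℕ => α m * χ (m : ZMod f) / m) = (fun m : ℕ => (α m / m) * χ (m : ZMod f)) := by
    intro f χ
    funext m
    ring
  have hint : ∀ (f : ℕ) (χ : DirichletCharacter ℂ f), Integrable (fun η : ℝ => (∫ ξ in (-T)..T, ‖PL (Icc 1 M) (fun m => α m * χ (m : ZMod f) / m) (ξ + η)‖ ^ 2) * (1 + η ^ 2)⁻¹) := by
    intro f χ
    set B := (∑ n ∈ Icc 1 M, ‖α n * χ (n : ZMod f) / n‖) ^ 2 with hB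
    refine (integrable_inv_one_add_sq.const_mul (B * |T - -T|)).mono' ?_ ?_
    · apply Continuous.aestronglyMeasurable
      apply Continuous.mul
      · apply intervalIntegral.continuous_parametric_intervalIntegral_of_continuous'
        have := PL_cont (Icc 1 M) (fun m => α m * χ (m : ZMod f) / m)
        exact ((this.comp (by fun_prop : Continuous fun p : ℝ × ℝ => p.2 + p.1)).norm.pow 2)
      · apply Continuous.inv₀ (by fun_prop)
        intro p
        positivity
    · refine Filter.Eventually.of_forall fun η => ?_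
      rw [norm_mul, Real.norm_of_nonneg (by positivity : 0 ≤ (1 + η ^ 2)⁻¹)]
      apply mul_le_mul_of_nonneg_right _ (by positivity)
      apply intervalIntegral.norm_integral_le_of_norm_le_const
      intro ξ _
      rw [Real.norm_eq_abs]
      exact PLsq_bdd _ _ _
  calc ∑ f ∈ Icc 1 R, ((f : ℝ) / (Nat.totient f : ℝ)) * ∑ χ ∈ Prim f,
      (∫ ξ in (-T)..T, ∫ η : ℝ, ‖PL (Icc 1 M) (fun m => α m * χ (m : ZMod f) / m) (ξ + η)‖ ^ 2 * (1 + η ^ 2)⁻¹) =
      ∫ η : ℝ, (∑ f ∈ Icc 1 R, ((f : ℝ) / (Nat.totient f : ℝ)) * ∑ χ ∈ Prim f,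
        ∫ ξ in (-T)..T, ‖PL (Icc 1 M) (fun m => α m * χ (m : ZMod f) / m) (ξ + η)‖ ^ 2) * (1 + η ^ 2)⁻¹ := by
        have e1 : ∀ η : ℝ, (∑ f ∈ Icc 1 R, ((f : ℝ) / (Nat.totient f : ℝ)) * ∑ χ ∈ Prim f,
            ∫ ξ in (-T)..T, ‖PL (Icc 1 M) (fun m => α m * χ (m : ZMod f) / m) (ξ + η)‖ ^ 2) * (1 + η ^ 2)⁻¹ =
            ∑ f ∈ Icc 1 R, ((f : ℝ) / (Nat.totient f : ℝ)) * ∑ χ ∈ Prim f,
            (∫ ξ in (-T)..T, ‖PL (Icc 1 M) (fun m => α m * χ (m : ZMod f) / m) (ξ + η)‖ ^ 2) * (1 + η ^ 2)⁻¹ := by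
          intro η
          rw [sum_mul]
          refine sum_congr rfl fun f _ => ?_
          rw [mul_assoc, sum_mul]
        simp_rw [e1]
        rw [integral_finsetSum]
        · refine sum_congr rfl fun f _ => ?_
          rw [integral_const_mul, integral_finsetSum _ fun χ _ => hint f χ]
          congr 1
          refine sum_congr rfl fun χ _ => ?_
          exact swap_int (h := fun ξ => ‖PL (Icc 1 M) (fun m => α m * χ (m : ZMod f) / m) ξ‖ ^ 2) ((PL_cont _ _).norm.pow 2) (PLsq_bdd _ _) (by linarith)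
        · intro f _
          apply Integrable.const_mul
          exact integrable_finsetSum _ fun χ _ => hint f χ
    _ ≤ ∫ η : ℝ, (72 * ∑ m ∈ Icc 1 M, ‖α m‖ ^ 2 / m) * (1 + η ^ 2)⁻¹ := by
        apply integral_mono_of_nonneg
        · refine Filter.Eventually.of_forall fun η => ?_
          simp only [Pi.zero_apply]
          apply mul_nonneg _ (by positivity)
          apply sum_nonneg
          intro f _
          apply mul_nonneg (by positivity)
          apply sum_nonneg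
          intro χ _
          exact intervalIntegral.integral_nonneg (by linarith) fun _ _ => by positivity
        · exact integrable_inv_one_add_sq.const_mul _
        · refine Filter.Eventually.of_forall fun η => ?_
          apply mul_le_mul_of_nonneg_right _ (by positivity)
          simp_rw [hpf]
          refine (hls R (Icc 1 M) (fun n hn => (mem_Icc.1 hn).1) (fun m => α m / m) hT η).trans ?_
          rw [mul_sum, mul_sum]
          apply sum_le_sum
          intro m hm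
          rw [mem_Icc] at hm
          have hm0 : (0 : ℝ) < m := by exact_mod_cast hm.1
          by_cases h0 : α m = 0
          · rw [h0]; simp
          · have h1 := hα m h0
            rw [norm_div, Complex.norm_natCast]
            have h2 : 2 * (m : ℝ) + 7 * T * (1 + (R : ℝ) ^ 2) ≤ 3 * m := by linarith
            calc 24 * ((‖α m‖ / m) ^ 2 * (2 * m + 7 * T * (1 + (R : ℝ) ^ 2))) ≤ 24 * ((‖α m‖ / m) ^ 2 * (3 * m)) := by gcongr
              _ = 72 * (‖α m‖ ^ 2 / m) := by field_simp; ring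
    _ ≤ 240 * ∑ m ∈ Icc 1 M, ‖α m‖ ^ 2 / m := by
        rw [integral_const_mul, integral_univ_inv_one_add_sq]
        have h0 : 0 ≤ ∑ m ∈ Icc 1 M, ‖α m‖ ^ 2 / m := sum_nonneg fun _ _ => by positivity
        have := Real.pi_lt_d2
        nlinarith

end Pool.Agent.J4H81.PT
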