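import Pool.Agent.J4H81.PT.VAa

/-!
# Growing prime tuples: linear sums (helper81)
-/

set_option autoImplicit false

namespace Pool.Agent.J4H81.PT

open Finset MeasureTheory
open Pool.Agent.H807R2.Dav (ee norm_ee ee_add ee_zero ee_int ee_eq dd dd_le)

/-- hyperbola rearrangement -/
theorem hyperC (x : ℕ) (g : ℕ → ℕ → ℂ) :
    ∑ n ∈ Icc 1 x, ∑ i ∈ n.divisorsAntidiagonal, g i.1 i.2 =
      ∑ c ∈ Icc 1 x, ∑ b ∈ Icc 1 (x / c), g b c := by
  apply Complex.ext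
  · simp only [Complex.re_sum]
    exact Pool.Agent.Helper112.TII.hyper x (fun b c => (g b c).re)
  · simp only [Complex.im_sum]
    exact Pool.Agent.Helper112.TII.hyper x (fun b c => (g b c).im)

/-- Abel summation with a weight vanishing at the end -/
theorem abel_w (z : ℕ → ℂ) (w : ℕ → ℝ) (K : ℕ) (hw : w (K + 1) = 0) {B : ℝ}
    (hB : ∀ b, 1 ≤ b → b ≤ K → w b - w (b + 1) ≠ 0 → ‖∑ i ∈ Icc 1 b, z i‖ ≤ B) :
    ‖∑ b ∈ Icc 1 K, z b * ((w b : ℝ) : ℂ)‖ ≤ B * ∑ b ∈ Icc 1 K, |w b - w (b + 1)| := by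
  have e : ∀ K : ℕ, ∑ b ∈ Icc 1 K, z b * ((w b : ℝ) : ℂ) =
      ((w (K + 1) : ℝ) : ℂ) * ∑ i ∈ Icc 1 K, z i + ∑ b ∈ Icc 1 K, ((w b - w (b + 1) : ℝ) : ℂ) * ∑ i ∈ Icc 1 b, z i := by
    intro K
    induction K with
    | zero => simp
    | succ K ih =>
      rw [sum_Icc_succ_top (by omega), ih, sum_Icc_succ_top (by omega) (fun b => ((w b - w (b + 1) : ℝ) : ℂ) * ∑ i ∈ Icc 1 b, z i),
        sum_Icc_succ_top (by omega) z]
      push_cast
      ring
  rw [e, hw]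
  simp only [Complex.ofReal_zero, zero_mul, zero_add]
  rw [mul_sum]
  refine norm_sum_le_of_le _ fun b hb => ?_
  rw [mem_Icc] at hb
  rw [norm_mul, Complex.norm_real, Real.norm_eq_abs, mul_comm]
  by_cases h0 : w b - w (b + 1) = 0
  · rw [h0]; simp
  · exact mul_le_mul_of_nonneg_right (hB b hb.1 hb.2 h0) (abs_nonneg _)

theorem lp_nonneg (a u : ℝ) : 0 ≤ lp a u := le_max_left _ _

theorem lp_le {a u : ℝ} (ha : 0 ≤ a) (hu : 0 ≤ u) : lp a u ≤ a := max_le ha (by linarith)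

theorem lp_zero {a u : ℝ} (h : a ≤ u) : lp a u = 0 := max_eq_left (by linarith)

theorem lp_anti (a : ℝ) {u v : ℝ} (h : u ≤ v) : lp a v ≤ lp a u := max_le_max le_rfl (by linarith)

theorem log_succ_mono {b : ℕ} (hb : 1 ≤ b) : Real.log b ≤ Real.log ((b + 1 : ℕ) : ℝ) := by
  apply Real.log_le_log (by exact_mod_cast hb)
  push_cast; linarith

/-- the first weight -/
theorem w0_bound (z : ℕ → ℂ) {Y B : ℝ} (hY : 0 ≤ Y) (hB0 : 0 ≤ B) (K : ℕ) (hK : Y ≤ Real.log ((K + 1 : ℕ) : ℝ))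
    (hB : ∀ b : ℕ, 1 ≤ b → Real.log b ≤ Y → ‖∑ i ∈ Icc 1 b, z i‖ ≤ B) :
    ‖∑ b ∈ Icc 1 K, z b * ((lp Y (Real.log b) : ℝ) : ℂ)‖ ≤ B * Y := by
  refine (abel_w z (fun b => lp Y (Real.log b)) K (lp_zero hK) (B := B) ?_).trans ?_
  · intro b hb1 _ h0
    apply hB b hb1
    by_contra hcon
    push Not at hcon
    apply h0
    rw [lp_zero hcon.le, lp_zero (hcon.le.trans (log_succ_mono hb1)), sub_zero]
  · apply mul_le_mul_of_nonneg_left _ hB0
    have h1 : ∀ K : ℕ, ∑ b ∈ Icc 1 K, |lp Y (Real.log b) - lp Y (Real.log ((b + 1 : ℕ) : ℝ))| = lp Y (Real.log ((1 : ℕ) : ℝ)) - lp Y (Real.log ((K + 1 : ℕ) : ℝ)) := by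
      intro K
      induction K with
      | zero => simp
      | succ K ih =>
        rw [sum_Icc_succ_top (by omega), ih, abs_of_nonneg]
        · ring
        · rw [sub_nonneg]
          exact lp_anti Y (log_succ_mono (by omega))
    rw [h1]
    have h2 := lp_nonneg Y (Real.log ((K + 1 : ℕ) : ℝ))
    have h3 : lp Y (Real.log ((1 : ℕ) : ℝ)) ≤ Y := lp_le hY (by simp)
    linarith

/-- the second weight -/
theorem w1_bound (z : ℕ → ℂ) {Y B : ℝ} (hY : 0 ≤ Y) (hB0 : 0 ≤ B) (K : ℕ) (hK : Y ≤ Real.log ((K + 1 : ℕ) : ℝ))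
    (hB : ∀ b : ℕ, 1 ≤ b → Real.log b ≤ Y → ‖∑ i ∈ Icc 1 b, z i‖ ≤ B) :
    ‖∑ b ∈ Icc 1 K, z b * ((Real.log b * lp Y (Real.log b) : ℝ) : ℂ)‖ ≤ B * (2 * Y ^ 2) := by
  refine (abel_w z (fun b => Real.log b * lp Y (Real.log b)) K (by rw [lp_zero hK, mul_zero]) (B := B) ?_).trans ?_
  · intro b hb1 _ h0
    apply hB b hb1
    by_contra hcon
    push Not at hcon
    apply h0
    rw [lp_zero hcon.le, lp_zero (hcon.le.trans (log_succ_mono hb1)), mul_zero, mul_zero, sub_zero]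
  · apply mul_le_mul_of_nonneg_left _ hB0
    have h1 : ∀ K : ℕ, ∑ b ∈ Icc 1 K, |Real.log b * lp Y (Real.log b) - Real.log ((b + 1 : ℕ) : ℝ) * lp Y (Real.log ((b + 1 : ℕ) : ℝ))| ≤
        Y * min Y (Real.log ((K + 1 : ℕ) : ℝ)) + Y * (Y - lp Y (Real.log ((K + 1 : ℕ) : ℝ))) := by
      intro K
      induction K with
      | zero =>
        simp only [zero_add, Nat.cast_one, Real.log_one]
        have h2 : lp Y 0 = Y := by unfold lp; rw [sub_zero, max_eq_right hY]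
        rw [h2, min_eq_right hY]
        simp
      | succ K ih =>
        rw [sum_Icc_succ_top (by omega)]
        set u := Real.log ((K + 1 : ℕ) : ℝ) with hu
        set v := Real.log ((K + 1 + 1 : ℕ) : ℝ) with hv
        have huv : u ≤ v := log_succ_mono (by omega)
        have hu0 : 0 ≤ u := Real.log_natCast_nonneg _
        have h3 : |u * lp Y u - v * lp Y v| ≤ Y * (min Y v - min Y u) + Y * (lp Y u - lp Y v) := by
          rcases le_total Y u with h4 | h4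
          · rw [lp_zero h4, lp_zero (h4.trans huv), min_eq_left h4, min_eq_left (h4.trans huv)]
            simp
          · rcases le_total Y v with h5 | h5
            · rw [lp_zero h5, min_eq_left h5, min_eq_right h4, mul_zero, sub_zero, sub_zero,
                abs_of_nonneg (mul_nonneg hu0 (lp_nonneg _ _))]
              have h6 : u * lp Y u ≤ Y * lp Y u := mul_le_mul_of_nonneg_right h4 (lp_nonneg _ _)
              have h7 : 0 ≤ Y * (Y - u) := mul_nonneg hY (by linarith)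
              linarith
            · have e1 : lp Y u = Y - u := by unfold lp; rw [max_eq_right (by linarith)]
              have e2 : lp Y v = Y - v := by unfold lp; rw [max_eq_right (by linarith)]
              rw [e1, e2, min_eq_right h4, min_eq_right h5]
              have e3 : u * (Y - u) - v * (Y - v) = (v - u) * (u + v - Y) := by ring
              rw [e3, abs_mul, abs_of_nonneg (by linarith : 0 ≤ v - u)]
              have h8 : |u + v - Y| ≤ 2 * Y := by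
                rw [abs_le]
                constructor <;> linarith
              calc (v - u) * |u + v - Y| ≤ (v - u) * (2 * Y) := mul_le_mul_of_nonneg_left h8 (by linarith)
                _ = Y * (v - u) + Y * (Y - u - (Y - v)) := by ring
        linarith
    refine (h1 K).trans ?_
    have h4 : min Y (Real.log ((K + 1 : ℕ) : ℝ)) ≤ Y := min_le_left _ _
    have h5 := lp_nonneg Y (Real.log ((K + 1 : ℕ) : ℝ))
    nlinarith

/-- the sums with a unimodular power, from those without -/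
theorem partial_tw (z : ℕ → ℂ) {A : ℝ} (hA : ∀ n, ‖∑ i ∈ Icc 1 n, z i‖ ≤ A) (ξ : ℝ) (b : ℕ) (hb : 1 ≤ b) :
    ‖∑ i ∈ Icc 1 b, z i * ee (-(ξ * Real.log i))‖ ≤ A * (1 + 7 * |ξ| * Real.log b) := by
  have hA0 : 0 ≤ A := (norm_nonneg _).trans (hA 0)
  have e : ∀ K : ℕ, ∑ i ∈ Icc 1 K, z i * ee (-(ξ * Real.log i)) =
      ee (-(ξ * Real.log ((K + 1 : ℕ) : ℝ))) * ∑ i ∈ Icc 1 K, z i +
      ∑ i ∈ Icc 1 K, (ee (-(ξ * Real.log i)) - ee (-(ξ * Real.log ((i + 1 : ℕ) : ℝ)))) * ∑ j ∈ Icc 1 i, z j := by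
    intro K
    induction K with
    | zero => simp
    | succ K ih =>
      rw [sum_Icc_succ_top (by omega), ih, sum_Icc_succ_top (by omega) (fun i => (ee (-(ξ * Real.log i)) - ee (-(ξ * Real.log ((i + 1 : ℕ) : ℝ)))) * ∑ j ∈ Icc 1 i, z j),
        sum_Icc_succ_top (by omega) z]
      ring
  have hstep : ∀ i : ℕ, 1 ≤ i → ‖ee (-(ξ * Real.log i)) - ee (-(ξ * Real.log ((i + 1 : ℕ) : ℝ)))‖ ≤ 7 * |ξ| * (Real.log ((i + 1 : ℕ) : ℝ) - Real.log i) := by
    intro i hi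
    have h1 : ee (-(ξ * Real.log i)) - ee (-(ξ * Real.log ((i + 1 : ℕ) : ℝ))) = ee (-(ξ * Real.log i)) * (1 - ee (-(ξ * (Real.log ((i + 1 : ℕ) : ℝ) - Real.log i)))) := by
      rw [mul_sub, mul_one, ← ee_add]
      congr 2
      ring
    rw [h1, norm_mul, norm_ee, one_mul]
    have h2 := dd_le (-(ξ * (Real.log ((i + 1 : ℕ) : ℝ) - Real.log i)))
    unfold dd at h2
    refine h2.trans ?_
    have h3 : 0 ≤ Real.log ((i + 1 : ℕ) : ℝ) - Real.log i := by linarith [log_succ_mono hi]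
    rw [abs_neg, abs_mul, abs_of_nonneg h3, ← mul_assoc]
    apply mul_le_mul_of_nonneg_right _ h3
    have := Real.pi_lt_d2
    have := abs_nonneg ξ
    nlinarith
  obtain ⟨K, rfl⟩ : ∃ K, b = K + 1 := ⟨b - 1, by omega⟩
  -- write the last term separately
  have hlast : ∑ i ∈ Icc 1 (K + 1), z i * ee (-(ξ * Real.log i)) =
      ee (-(ξ * Real.log ((K + 1 : ℕ) : ℝ))) * ∑ i ∈ Icc 1 (K + 1), z i +
      ∑ i ∈ Icc 1 K, (ee (-(ξ * Real.log i)) - ee (-(ξ * Real.log ((i + 1 : ℕ) : ℝ)))) * ∑ j ∈ Icc 1 i, z j := by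
    rw [sum_Icc_succ_top (by omega), e K, sum_Icc_succ_top (by omega) z]
    ring
  rw [hlast]
  refine (norm_add_le _ _).trans ?_
  rw [norm_mul, norm_ee, one_mul]
  have h4 : ‖∑ i ∈ Icc 1 K, (ee (-(ξ * Real.log i)) - ee (-(ξ * Real.log ((i + 1 : ℕ) : ℝ)))) * ∑ j ∈ Icc 1 i, z j‖ ≤
      ∑ i ∈ Icc 1 K, 7 * |ξ| * (Real.log ((i + 1 : ℕ) : ℝ) - Real.log i) * A := by
    refine norm_sum_le_of_le _ fun i hi => ?_
    rw [mem_Icc] at hi
    rw [norm_mul]
    exact mul_le_mul (hstep i hi.1) (hA i) (norm_nonneg _) ((norm_nonneg _).trans (hstep i hi.1))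
  have h5 : ∀ K : ℕ, ∑ i ∈ Icc 1 K, 7 * |ξ| * (Real.log ((i + 1 : ℕ) : ℝ) - Real.log i) * A = 7 * |ξ| * Real.log ((K + 1 : ℕ) : ℝ) * A := by
    intro K
    induction K with
    | zero => simp
    | succ K ih =>
      rw [sum_Icc_succ_top (by omega), ih]
      ring
  rw [h5] at h4
  have h6 := hA (K + 1)
  calc ‖∑ i ∈ Icc 1 (K + 1), z i‖ + ‖∑ i ∈ Icc 1 K, (ee (-(ξ * Real.log i)) - ee (-(ξ * Real.log ((i + 1 : ℕ) : ℝ)))) * ∑ j ∈ Icc 1 i, z j‖ ≤
        A + 7 * |ξ| * Real.log ((K + 1 : ℕ) : ℝ) * A := add_le_add h6 h4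
    _ = _ := by ring

theorem char_period {q : ℕ} [NeZero q] {χ : DirichletCharacter ℂ q} (hχ1 : χ ≠ 1) (n : ℕ) : ∑ k ∈ Finset.range q, χ ((n + k : ℕ) : ZMod q) = 0 := by
  have h1 : ∑ a : ZMod q, χ ((n : ZMod q) + a) = 0 := by
    exact (Equiv.sum_comp (Equiv.addLeft (n : ZMod q)) (fun a => χ a)).trans
      (MulChar.sum_eq_zero_of_ne_one hχ1)
  rw [← h1]
  refine Finset.sum_bij' (fun k _ => (k : ZMod q)) (fun a _ => a.val) ?_ ?_ ?_ ?_ ?_
  · intro a _; exact Finset.mem_univ _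
  · intro a _; exact Finset.mem_range.mpr (ZMod.val_lt a)
  · intro a ha; exact ZMod.val_cast_of_lt (Finset.mem_range.mp ha)
  · intro a _; exact ZMod.natCast_zmod_val a
  · intro a _; push_cast; rfl

theorem char_range_le {q : ℕ} [NeZero q] {χ : DirichletCharacter ℂ q} (hχ1 : χ ≠ 1) (n : ℕ) : ‖∑ k ∈ Finset.range n, χ (k : ZMod q)‖ ≤ q := by
  induction n using Nat.strong_induction_on with
  | _ n ih =>
    rcases lt_or_ge n q with h | h
    · refine (norm_sum_le _ _).trans ?_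
      calc ∑ k ∈ Finset.range n, ‖χ (k : ZMod q)‖ ≤ ∑ k ∈ Finset.range n, (1 : ℝ) :=
            Finset.sum_le_sum fun k _ => DirichletCharacter.norm_le_one χ _
        _ = n := by simp
        _ ≤ q := by exact_mod_cast h.le
    · obtain ⟨m, rfl⟩ := Nat.exists_eq_add_of_le' h
      rw [Finset.sum_range_add, char_period hχ1, add_zero]
      exact ih m (by have := NeZero.pos q; omega)

theorem char_Icc_le {q : ℕ} [NeZero q] {χ : DirichletCharacter ℂ q} (hχ1 : χ ≠ 1) (n : ℕ) :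
    ‖∑ k ∈ Finset.Icc 1 n, χ (k : ZMod q)‖ ≤ 2 * q := by
  have h1 : ∑ k ∈ Finset.range (n + 1), χ (k : ZMod q) =
      χ ((0 : ℕ) : ZMod q) + ∑ k ∈ Finset.Icc 1 n, χ (k : ZMod q) := by
    rw [Finset.range_eq_Ico, Finset.sum_eq_sum_Ico_succ_bot (Nat.succ_pos n)]
    rfl
  have h2 : ∑ k ∈ Finset.Icc 1 n, χ (k : ZMod q) =
      ∑ k ∈ Finset.range (n + 1), χ (k : ZMod q) - χ ((0 : ℕ) : ZMod q) := by
    rw [h1]; ring
  rw [h2]
  have hq : (1 : ℝ) ≤ q := by exact_mod_cast NeZero.one_le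
  refine (norm_sub_le _ _).trans ?_
  have h3 := char_range_le hχ1 (n + 1)
  have h4 := DirichletCharacter.norm_le_one χ ((0 : ℕ) : ZMod q)
  linarith

/-- sums of pure powers -/
theorem pow_sum (ξ : ℝ) (b : ℕ) (hb : 1 ≤ b) :
    ‖∑ i ∈ Icc 1 b, ee (-(ξ * Real.log i))‖ ≤ 2 * b / (1 + |ξ|) + 2 + 7 * |ξ| * Real.log b := by
  set z : ℂ := 1 - (2 * Real.pi * ξ : ℝ) * Complex.I with hz
  have hzre : z.re = 1 := by simp [hz]
  have hz0 : z ≠ 0 := by
    intro h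
    rw [h] at hzre
    simp at hzre
  have hξ0 := abs_nonneg ξ
  have hznorm : (1 + |ξ|) / 2 ≤ ‖z‖ := by
    have h1 : ‖z‖ ^ 2 = 1 + (2 * Real.pi * ξ) ^ 2 := by
      rw [Complex.sq_norm, Complex.normSq_apply]
      simp [hz]
      ring
    have h2 : ((1 + |ξ|) / 2) ^ 2 ≤ ‖z‖ ^ 2 := by
      rw [h1]
      have h3 : 1 ≤ Real.pi := by linarith [Real.pi_gt_three]
      have h4 : ξ ^ 2 ≤ (2 * Real.pi * ξ) ^ 2 := by
        have : (2 * Real.pi * ξ) ^ 2 = (2 * Real.pi) ^ 2 * ξ ^ 2 := by ring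
        rw [this]
        have : 1 ≤ (2 * Real.pi) ^ 2 := by nlinarith
        nlinarith [sq_nonneg ξ]
      have h5 : |ξ| ^ 2 = ξ ^ 2 := sq_abs ξ
      nlinarith [sq_nonneg (1 - |ξ|)]
    exact (sq_le_sq₀ (by positivity) (norm_nonneg _)).1 h2
  set F : ℝ → ℂ := fun v => (v : ℂ) * ee (-(ξ * Real.log v)) / z with hF
  have hderiv : ∀ v : ℝ, 0 < v → HasDerivAt F (ee (-(ξ * Real.log v))) v := by
    intro v hv
    have h1 : HasDerivAt (fun v : ℝ => ee (-(ξ * Real.log v))) (ee (-(ξ * Real.log v)) * (2 * Real.pi * Complex.I * ((-(ξ * v⁻¹) : ℝ) : ℂ))) v := by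
      unfold ee
      have h2 : HasDerivAt (fun v : ℝ => -(ξ * Real.log v)) (-(ξ * v⁻¹)) v := ((Real.hasDerivAt_log hv.ne').const_mul ξ).neg
      exact (h2.ofReal_comp.const_mul (2 * Real.pi * Complex.I)).cexp
    have h3 : HasDerivAt (fun v : ℝ => (v : ℂ)) 1 v := Complex.ofRealCLM.hasDerivAt
    have h4 := (h3.mul h1).div_const z
    refine h4.congr_deriv ?_
    have hvc : (v : ℂ) ≠ 0 := by exact_mod_cast hv.ne'
    rw [div_eq_iff hz0, hz]
    push_cast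
    field_simp
    ring
  have hstep : ∀ i : ℕ, 1 ≤ i → ‖F ((i + 1 : ℕ) : ℝ) - F i - ee (-(ξ * Real.log ((i + 1 : ℕ) : ℝ)))‖ ≤ 7 * |ξ| * (Real.log ((i + 1 : ℕ) : ℝ) - Real.log i) := by
    intro i hi
    have hi0 : (0 : ℝ) < i := by exact_mod_cast hi
    have hi1 : (i : ℝ) ≤ ((i + 1 : ℕ) : ℝ) := by push_cast; linarith
    set e1 : ℂ := ee (-(ξ * Real.log ((i + 1 : ℕ) : ℝ))) with he1
    have h1 := Convex.norm_image_sub_le_of_norm_hasDerivWithin_le (f := fun v : ℝ => F v - (v : ℂ) * e1)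
      (f' := fun v : ℝ => ee (-(ξ * Real.log v)) - e1) (s := Set.Icc (i : ℝ) ((i + 1 : ℕ) : ℝ)) (x := (i : ℝ)) (y := ((i + 1 : ℕ) : ℝ))
      (C := 7 * |ξ| * (Real.log ((i + 1 : ℕ) : ℝ) - Real.log i))
      (fun v hv => by
        have hv0 : 0 < v := hi0.trans_le hv.1
        have h3 : HasDerivAt (fun v : ℝ => (v : ℂ) * e1) (1 * e1) v := (Complex.ofRealCLM.hasDerivAt (x := v)).mul_const e1
        rw [one_mul] at h3
        exact ((hderiv v hv0).sub h3).hasDerivWithinAt)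
      (fun v hv => by
        have hv0 : 0 < v := hi0.trans_le hv.1
        have h2 : ee (-(ξ * Real.log v)) - e1 = ee (-(ξ * Real.log v)) * (1 - ee (-(ξ * (Real.log ((i + 1 : ℕ) : ℝ) - Real.log v)))) := by
          rw [mul_sub, mul_one, ← ee_add, he1]
          congr 2
          ring
        rw [h2, norm_mul, norm_ee, one_mul]
        have h3 := dd_le (-(ξ * (Real.log ((i + 1 : ℕ) : ℝ) - Real.log v)))
        unfold dd at h3
        refine h3.trans ?_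
        have h4 : 0 ≤ Real.log ((i + 1 : ℕ) : ℝ) - Real.log v := by
          have := Real.log_le_log hv0 hv.2
          linarith
        have h5 : Real.log ((i + 1 : ℕ) : ℝ) - Real.log v ≤ Real.log ((i + 1 : ℕ) : ℝ) - Real.log i := by
          have := Real.log_le_log hi0 hv.1
          linarith
        rw [abs_neg, abs_mul, abs_of_nonneg h4]
        have := Real.pi_lt_d2
        calc 2 * Real.pi * (|ξ| * (Real.log ((i + 1 : ℕ) : ℝ) - Real.log v)) = (2 * Real.pi) * |ξ| * (Real.log ((i + 1 : ℕ) : ℝ) - Real.log v) := by ring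
          _ ≤ 7 * |ξ| * (Real.log ((i + 1 : ℕ) : ℝ) - Real.log i) := by
              apply mul_le_mul _ h5 h4 (by positivity)
              apply mul_le_mul_of_nonneg_right (by linarith) hξ0)
      (convex_Icc _ _) (Set.left_mem_Icc.2 hi1) (Set.right_mem_Icc.2 hi1)
    have h6 : ‖((i + 1 : ℕ) : ℝ) - (i : ℝ)‖ = 1 := by
      push_cast
      rw [add_sub_cancel_left, norm_one]
    rw [h6, mul_one] at h1
    refine le_trans (le_of_eq ?_) h1
    congr 1
    push_cast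
    ring
  have hind : ∀ K : ℕ, ‖∑ i ∈ Icc 1 (K + 1), ee (-(ξ * Real.log i)) - (ee 0 + F ((K + 1 : ℕ) : ℝ) - F ((1 : ℕ) : ℝ))‖ ≤ 7 * |ξ| * Real.log ((K + 1 : ℕ) : ℝ) := by
    intro K
    induction K with
    | zero => simp
    | succ K ih =>
      rw [sum_Icc_succ_top (by omega)]
      have h1 := hstep (K + 1) (by omega)
      have h2 : ∑ i ∈ Icc 1 (K + 1), ee (-(ξ * Real.log i)) + ee (-(ξ * Real.log ((K + 1 + 1 : ℕ) : ℝ))) - (ee 0 + F ((K + 1 + 1 : ℕ) : ℝ) - F ((1 : ℕ) : ℝ)) =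
          (∑ i ∈ Icc 1 (K + 1), ee (-(ξ * Real.log i)) - (ee 0 + F ((K + 1 : ℕ) : ℝ) - F ((1 : ℕ) : ℝ))) -
          (F ((K + 1 + 1 : ℕ) : ℝ) - F ((K + 1 : ℕ) : ℝ) - ee (-(ξ * Real.log ((K + 1 + 1 : ℕ) : ℝ)))) := by ring
      rw [h2]
      refine (norm_sub_le _ _).trans ?_
      linarith
  obtain ⟨K, rfl⟩ : ∃ K, b = K + 1 := ⟨b - 1, by omega⟩
  have h1 := hind K
  have hFn : ∀ n : ℕ, ‖F (n : ℝ)‖ ≤ 2 * n / (1 + |ξ|) := by
    intro n
    simp only [hF]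
    rw [norm_div, norm_mul, norm_ee, mul_one, Complex.norm_real, Real.norm_of_nonneg (Nat.cast_nonneg n)]
    rw [div_le_div_iff₀ (norm_pos_iff.2 hz0) (by positivity)]
    have hn : (0 : ℝ) ≤ n := Nat.cast_nonneg n
    nlinarith
  have h2 := hFn (K + 1)
  have h3 : ‖F ((1 : ℕ) : ℝ)‖ ≤ 1 := by
    simp only [hF]
    rw [norm_div, norm_mul, norm_ee, mul_one, Complex.norm_real, Real.norm_of_nonneg (Nat.cast_nonneg 1), Nat.cast_one]
    rw [div_le_one (norm_pos_iff.2 hz0)]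
    have := Complex.abs_re_le_norm z
    rw [hzre, abs_one] at this
    exact this
  have h4 : ‖ee 0‖ = 1 := norm_ee 0
  have h5 := norm_sub_norm_le (∑ i ∈ Icc 1 (K + 1), ee (-(ξ * Real.log i))) (ee 0 + F ((K + 1 : ℕ) : ℝ) - F ((1 : ℕ) : ℝ))
  have h6 : ‖ee 0 + F ((K + 1 : ℕ) : ℝ) - F ((1 : ℕ) : ℝ)‖ ≤ 1 + 2 * ((K + 1 : ℕ) : ℝ) / (1 + |ξ|) + 1 := by
    exact (norm_sub_le _ _).trans (add_le_add ((norm_add_le _ _).trans (add_le_add h4.le h2)) h3)
  exact (sub_le_iff_le_add.1 h5).trans ((add_le_add h1 h6).trans (le_of_eq (by ring)))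

end Pool.Agent.J4H81.PT
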