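import Pool.Agent.J4H81.PT.VAb

/-!
# Growing prime tuples: Vaughan's identity on average (helper81)
-/

set_option autoImplicit false

namespace Pool.Agent.J4H81.PT

open Finset MeasureTheory
open Pool.Agent.H807R2.Dav (ee norm_ee ee_add ee_zero ee_int ee_eq dd dd_le)
open Pool.Agent.Helper112 (LamII betaV)
open Pool.Agent.Helper112.TII (L2 L2_nonneg L2_le betaV_abs betaV_zero)
open Pool.Agent.Helper112.TI (mu1 l1 mu1_apply l1_apply vaughan)
open Pool.Agent.H398R2.BV (Prim prim_ne_one)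

/-- the smoothed sum -/
noncomputable def ST (z : ℕ → ℂ) (M : ℕ) (x : ℝ) (g : ℕ → ℝ) : ℂ :=
  ∑ n ∈ Icc 1 M, ((g n : ℝ) : ℂ) * z n * ((lp (Real.log x) (Real.log n) : ℝ) : ℂ)

theorem lp_add (a u v : ℝ) : lp a (u + v) = lp (a - v) u := by
  unfold lp
  congr 1
  ring

theorem ST_conv (z : ℕ → ℂ) (hz : ∀ b c : ℕ, 1 ≤ b → 1 ≤ c → z (b * c) = z b * z c) (M : ℕ) (x : ℝ) (α β : ℕ → ℝ) :
    ST z M x (fun n => ∑ i ∈ n.divisorsAntidiagonal, α i.1 * β i.2) =
      ∑ c ∈ Icc 1 M, ((β c : ℝ) : ℂ) * z c * ∑ b ∈ Icc 1 (M / c), ((α b : ℝ) : ℂ) * z b * ((lp (Real.log x - Real.log c) (Real.log b) : ℝ) : ℂ) := by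
  have h := hyperC M (fun b c => ((α b : ℝ) : ℂ) * ((β c : ℝ) : ℂ) * (z b * z c) * ((lp (Real.log x) (Real.log b + Real.log c) : ℝ) : ℂ))
  have e1 : ST z M x (fun n => ∑ i ∈ n.divisorsAntidiagonal, α i.1 * β i.2) =
      ∑ n ∈ Icc 1 M, ∑ i ∈ n.divisorsAntidiagonal, ((α i.1 : ℝ) : ℂ) * ((β i.2 : ℝ) : ℂ) * (z i.1 * z i.2) *
        ((lp (Real.log x) (Real.log i.1 + Real.log i.2) : ℝ) : ℂ) := by
    unfold ST
    refine sum_congr rfl fun n _ => ?_
    rw [Complex.ofReal_sum, sum_mul, sum_mul]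
    refine sum_congr rfl fun i hi => ?_
    obtain ⟨h1, h2⟩ := Nat.mem_divisorsAntidiagonal.1 hi
    have hi1 : 1 ≤ i.1 := Nat.pos_of_ne_zero (by rintro h0; rw [h0, zero_mul] at h1; exact h2 h1.symm)
    have hi2 : 1 ≤ i.2 := Nat.pos_of_ne_zero (by rintro h0; rw [h0, mul_zero] at h1; exact h2 h1.symm)
    rw [← hz i.1 i.2 hi1 hi2, h1]
    have h3 : Real.log n = Real.log i.1 + Real.log i.2 := by
      rw [← h1, Nat.cast_mul, Real.log_mul (by exact_mod_cast (by omega : i.1 ≠ 0)) (by exact_mod_cast (by omega : i.2 ≠ 0))]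
    rw [h3]
    push_cast
    ring
  rw [e1, h]
  refine sum_congr rfl fun c _ => ?_
  rw [mul_sum]
  refine sum_congr rfl fun b _ => ?_
  rw [lp_add]
  ring

theorem LamII_conv (U V : ℕ) : (fun n => LamII U V n) = fun n => ∑ i ∈ n.divisorsAntidiagonal, betaV V i.1 * L2 U i.2 := by
  funext n
  unfold LamII
  rfl

/-- the bilinear part -/
theorem II_eq (z : ℕ → ℂ) (hz : ∀ b c : ℕ, 1 ≤ b → 1 ≤ c → z (b * c) = z b * z c) (U V M : ℕ) {x : ℝ} (hx : 1 ≤ x) (hxM : x ≤ M + 1) :
    ST z M x (fun n => LamII U V n) = ∑ m ∈ Icc 1 M, ∑ k ∈ Icc 1 M, ((betaV V m : ℝ) : ℂ) * ((L2 U k : ℝ) : ℂ) * (z m * z k) *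
      ((lp (Real.log x) (Real.log m + Real.log k) : ℝ) : ℂ) := by
  rw [LamII_conv, ST_conv z hz, sum_comm]
  refine sum_congr rfl fun c hc => ?_
  rw [mem_Icc] at hc
  rw [mul_sum]
  have e1 : ∑ b ∈ Icc 1 (M / c), ((L2 U c : ℝ) : ℂ) * z c * (((betaV V b : ℝ) : ℂ) * z b * ((lp (Real.log x - Real.log c) (Real.log b) : ℝ) : ℂ)) =
      ∑ b ∈ Icc 1 (M / c), ((betaV V b : ℝ) : ℂ) * ((L2 U c : ℝ) : ℂ) * (z b * z c) * ((lp (Real.log x) (Real.log b + Real.log c) : ℝ) : ℂ) := by
    refine sum_congr rfl fun b _ => ?_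
    rw [lp_add]
    ring
  rw [e1]
  apply sum_subset
  · intro b hb
    rw [mem_Icc] at hb ⊢
    exact ⟨hb.1, hb.2.trans (Nat.div_le_self _ _)⟩
  · intro b hb hb'
    rw [mem_Icc] at hb hb'
    have h1 : M / c < b := by
      by_contra hcon
      exact hb' ⟨hb.1, by omega⟩
    rw [Nat.div_lt_iff_lt_mul (by omega)] at h1
    have hb0 : (0 : ℝ) < b := by exact_mod_cast hb.1
    have hc0 : (0 : ℝ) < c := by exact_mod_cast hc.1
    have h2 : x ≤ b * c := by
      have : ((M + 1 : ℕ) : ℝ) ≤ ((b * c : ℕ) : ℝ) := by exact_mod_cast h1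
      push_cast at this
      linarith
    rw [lp_zero, Complex.ofReal_zero, mul_zero]
    rw [← Real.log_mul hb0.ne' hc0.ne']
    exact Real.log_le_log (by linarith) h2

/-- linear sums, general form -/
theorem typeI_gen (z : ℕ → ℂ) (hz1 : ∀ n, ‖z n‖ ≤ 1) (hz : ∀ b c : ℕ, 1 ≤ b → 1 ≤ c → z (b * c) = z b * z c) (U V M : ℕ) (hU : 1 ≤ U) (hV : 1 ≤ V)
    {x : ℝ} (hx : 1 ≤ x) (hxM : x ≤ M + 1) {A₁ A₂ : ℝ} (hA₁ : 0 ≤ A₁) (hA₂ : 0 ≤ A₂)
    (hZ : ∀ b : ℕ, 1 ≤ b → (b : ℝ) ≤ x → ‖∑ i ∈ Icc 1 b, z i‖ ≤ A₁ * b + A₂) :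
    ‖ST z M x (fun n => ArithmeticFunction.vonMangoldt n - LamII U V n)‖ ≤
      3 * (1 + Real.log M) ^ 3 * A₁ * x + 3 * A₂ * (U * V) * (1 + Real.log M) ^ 2 + U * (1 + Real.log M) ^ 2 := by
  set Lm : ℝ := 1 + Real.log M with hLm
  have hlM : 0 ≤ Real.log M := Real.log_natCast_nonneg M
  have hLm1 : 1 ≤ Lm := by rw [hLm]; linarith
  have hx0 : 0 < x := by linarith
  have hlogx : 0 ≤ Real.log x := Real.log_nonneg hx
  have hM1 : 1 ≤ M ∨ M = 0 := by omega
  have hlx : Real.log x ≤ Lm := by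
    rcases hM1 with hM | hM
    · have hM0 : (1 : ℝ) ≤ M := by exact_mod_cast hM
      have h1 : Real.log x ≤ Real.log (2 * M) := Real.log_le_log hx0 (by linarith)
      rw [Real.log_mul (by norm_num) (by positivity)] at h1
      have := Real.log_two_lt_d9
      rw [hLm]
      linarith
    · rw [hM] at hxM
      have : x ≤ 1 := by simpa using hxM
      have h2 : x = 1 := le_antisymm this hx
      rw [h2, Real.log_one]
      linarith
  have hKc : ∀ c ∈ Icc 1 M, Real.log x - Real.log c ≤ Real.log ((M / c + 1 : ℕ) : ℝ) := by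
    intro c hc
    rw [mem_Icc] at hc
    have hc0 : (0 : ℝ) < c := by exact_mod_cast hc.1
    rw [← Real.log_div hx0.ne' hc0.ne']
    apply Real.log_le_log (by positivity)
    rw [div_le_iff₀ hc0]
    have h1 : M + 1 ≤ (M / c + 1) * c := by
      have := Nat.lt_mul_div_succ M (show 0 < c by omega)
      rw [mul_comm] at this
      exact this
    have h2 : ((M + 1 : ℕ) : ℝ) ≤ (((M / c + 1) * c : ℕ) : ℝ) := by exact_mod_cast h1
    push_cast at h2 ⊢
    linarith
  have hBc : ∀ c ∈ Icc 1 M, ∀ b : ℕ, 1 ≤ b → Real.log b ≤ Real.log x - Real.log c → ‖∑ i ∈ Icc 1 b, z i‖ ≤ A₁ * (x / c) + A₂ := by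
    intro c hc b hb h
    rw [mem_Icc] at hc
    have hc0 : (0 : ℝ) < c := by exact_mod_cast hc.1
    have hb0 : (0 : ℝ) < b := by exact_mod_cast hb
    rw [← Real.log_div hx0.ne' hc0.ne', Real.log_le_log_iff hb0 (by positivity)] at h
    have hc1 : (1 : ℝ) ≤ c := by exact_mod_cast hc.1
    have h3 : (b : ℝ) ≤ x := h.trans (div_le_self hx0.le hc1)
    refine (hZ b hb h3).trans ?_
    gcongr
  have hlc : ∀ c : ℕ, 0 ≤ Real.log c := fun c => Real.log_natCast_nonneg c
  -- inner sums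
  have hT0 : ∀ c ∈ Icc 1 M, ‖∑ b ∈ Icc 1 (M / c), z b * ((lp (Real.log x - Real.log c) (Real.log b) : ℝ) : ℂ)‖ ≤ (A₁ * (x / c) + A₂) * Lm := by
    intro c hc
    have hc' := hc
    rw [mem_Icc] at hc'
    have hB0 : 0 ≤ A₁ * (x / c) + A₂ := by positivity
    rcases le_or_gt 0 (Real.log x - Real.log c) with hY | hY
    · refine (w0_bound z hY hB0 (M / c) (hKc c hc) (hBc c hc)).trans ?_
      apply mul_le_mul_of_nonneg_left _ hB0
      have := hlc c
      linarith
    · rw [sum_eq_zero]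
      · rw [norm_zero]
        positivity
      · intro b _
        rw [lp_zero (hY.le.trans (hlc b)), Complex.ofReal_zero, mul_zero]
  have hT1 : ∀ c ∈ Icc 1 M, ‖∑ b ∈ Icc 1 (M / c), z b * ((Real.log b * lp (Real.log x - Real.log c) (Real.log b) : ℝ) : ℂ)‖ ≤ (A₁ * (x / c) + A₂) * (2 * Lm ^ 2) := by
    intro c hc
    have hc' := hc
    rw [mem_Icc] at hc'
    have hB0 : 0 ≤ A₁ * (x / c) + A₂ := by positivity
    rcases le_or_gt 0 (Real.log x - Real.log c) with hY | hY
    · refine (w1_bound z hY hB0 (M / c) (hKc c hc) (hBc c hc)).trans ?_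
      apply mul_le_mul_of_nonneg_left _ hB0
      have h1 : Real.log x - Real.log c ≤ Lm := by have := hlc c; linarith
      have h2 : (Real.log x - Real.log c) ^ 2 ≤ Lm ^ 2 := pow_le_pow_left₀ hY h1 2
      linarith
    · rw [sum_eq_zero]
      · rw [norm_zero]
        positivity
      · intro b _
        rw [lp_zero (hY.le.trans (hlc b)), mul_zero, Complex.ofReal_zero, mul_zero]
  -- decomposition
  have hdec : ST z M x (fun n => ArithmeticFunction.vonMangoldt n - LamII U V n) =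
      ST z M x (fun n => l1 U n) + ST z M x (fun n => ∑ i ∈ n.divisorsAntidiagonal, Real.log i.1 * mu1 V i.2) -
        ST z M x (fun n => ∑ i ∈ n.divisorsAntidiagonal, 1 * (mu1 V * l1 U) i.2) := by
    unfold ST
    rw [← sum_add_distrib, ← sum_sub_distrib]
    refine sum_congr rfl fun n _ => ?_
    have h1 : (ArithmeticFunction.log * mu1 V) n = ∑ i ∈ n.divisorsAntidiagonal, Real.log i.1 * mu1 V i.2 := by
      rw [ArithmeticFunction.mul_apply]
      rfl
    have h2 : (((ArithmeticFunction.zeta : ArithmeticFunction ℕ) : ArithmeticFunction ℝ) * (mu1 V * l1 U)) n =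
        ∑ i ∈ n.divisorsAntidiagonal, 1 * (mu1 V * l1 U) i.2 := by
      rw [ArithmeticFunction.mul_apply]
      refine sum_congr rfl fun i hi => ?_
      obtain ⟨h3, h4⟩ := Nat.mem_divisorsAntidiagonal.1 hi
      have hi1 : i.1 ≠ 0 := by
        intro h0
        rw [h0, zero_mul] at h3
        exact h4 h3.symm
      rw [ArithmeticFunction.natCoe_apply, ArithmeticFunction.zeta_apply_ne hi1, Nat.cast_one]
    beta_reduce
    rw [vaughan, h1, h2]
    push_cast
    ring
  have hl1 : ∀ n : ℕ, 0 ≤ l1 U n := by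
    intro n
    rw [l1_apply]
    split_ifs
    · exact ArithmeticFunction.vonMangoldt_nonneg
    · exact le_rfl
  have hmu1 : ∀ n : ℕ, |mu1 V n| ≤ if n ≤ V then 1 else 0 := by
    intro n
    rw [mu1_apply]
    split_ifs
    · exact_mod_cast ArithmeticFunction.abs_moebius_le_one
    · simp
  have hlogle : ∀ n ∈ Icc 1 M, Real.log n ≤ Lm := by
    intro n hn
    rw [mem_Icc] at hn
    have : Real.log n ≤ Real.log M := Real.log_le_log (by exact_mod_cast hn.1) (by exact_mod_cast hn.2)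
    rw [hLm]; linarith
  have b1 : ‖ST z M x (fun n => l1 U n)‖ ≤ U * Lm ^ 2 := by
    unfold ST
    calc ‖∑ n ∈ Icc 1 M, ((l1 U n : ℝ) : ℂ) * z n * ((lp (Real.log x) (Real.log n) : ℝ) : ℂ)‖ ≤
          ∑ n ∈ Icc 1 M, (if n ≤ U then Lm ^ 2 else 0) := by
          refine norm_sum_le_of_le _ fun n hn => ?_
          rw [norm_mul, norm_mul, Complex.norm_real, Complex.norm_real, Real.norm_of_nonneg (hl1 n), Real.norm_of_nonneg (lp_nonneg _ _)]
          have h2 : lp (Real.log x) (Real.log n) ≤ Lm := (lp_le hlogx (hlc n)).trans hlx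
          split_ifs with h
          · have h3 : l1 U n ≤ Lm := by
              rw [l1_apply, if_pos h]
              exact ArithmeticFunction.vonMangoldt_le_log.trans (hlogle n hn)
            calc l1 U n * ‖z n‖ * lp (Real.log x) (Real.log n) ≤ Lm * 1 * Lm := by
                  have := hz1 n
                  have := hl1 n
                  have := lp_nonneg (Real.log x) (Real.log n)
                  gcongr
              _ = Lm ^ 2 := by ring
          · rw [l1_apply, if_neg h]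
            simp
      _ ≤ U * Lm ^ 2 := by
          rw [← sum_filter, sum_const, nsmul_eq_mul]
          apply mul_le_mul_of_nonneg_right _ (by positivity)
          have h1 : ((Icc 1 M).filter (fun n => n ≤ U)).card ≤ (Icc 1 U).card := by
            apply card_le_card
            intro n hn
            rw [mem_filter, mem_Icc] at hn
            rw [mem_Icc]
            exact ⟨hn.1.1, hn.2⟩
          rw [Nat.card_Icc] at h1
          exact_mod_cast h1
  have hharm : ∑ c ∈ Icc 1 M, (1 : ℝ) / c ≤ Lm := Pool.Agent.H316R2.harm_sum_le M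
  have hcard : ∀ K : ℕ, ∑ c ∈ (Icc 1 M).filter (fun c => c ≤ K), (A₁ * (x / c) + A₂) ≤ A₁ * x * Lm + A₂ * K := by
    intro K
    rw [sum_add_distrib]
    apply add_le_add
    · calc ∑ c ∈ (Icc 1 M).filter (fun c => c ≤ K), A₁ * (x / c) ≤ ∑ c ∈ Icc 1 M, A₁ * (x / c) :=
            sum_le_sum_of_subset_of_nonneg (filter_subset _ _) fun c _ _ => by positivity
        _ = A₁ * x * ∑ c ∈ Icc 1 M, (1 : ℝ) / c := by
            rw [mul_sum]
            refine sum_congr rfl fun c _ => ?_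
            ring
        _ ≤ A₁ * x * Lm := mul_le_mul_of_nonneg_left hharm (by positivity)
    · rw [sum_const, nsmul_eq_mul, mul_comm]
      apply mul_le_mul_of_nonneg_left _ hA₂
      have h1 : ((Icc 1 M).filter (fun n => n ≤ K)).card ≤ (Icc 1 K).card := by
        apply card_le_card
        intro n hn
        rw [mem_filter, mem_Icc] at hn
        rw [mem_Icc]
        exact ⟨hn.1.1, hn.2⟩
      rw [Nat.card_Icc] at h1
      exact_mod_cast h1
  have b2 : ‖ST z M x (fun n => ∑ i ∈ n.divisorsAntidiagonal, Real.log i.1 * mu1 V i.2)‖ ≤ 2 * Lm ^ 2 * (A₁ * x * Lm + A₂ * V) := by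
    rw [ST_conv z hz M x (fun n => Real.log n) (fun n => mu1 V n)]
    calc ‖∑ c ∈ Icc 1 M, ((mu1 V c : ℝ) : ℂ) * z c * ∑ b ∈ Icc 1 (M / c), ((Real.log b : ℝ) : ℂ) * z b * ((lp (Real.log x - Real.log c) (Real.log b) : ℝ) : ℂ)‖ ≤
          ∑ c ∈ Icc 1 M, (if c ≤ V then (A₁ * (x / c) + A₂) * (2 * Lm ^ 2) else 0) := by
          refine norm_sum_le_of_le _ fun c hc => ?_
          rw [norm_mul, norm_mul, Complex.norm_real, Real.norm_eq_abs]
          have h1 : ∑ b ∈ Icc 1 (M / c), ((Real.log b : ℝ) : ℂ) * z b * ((lp (Real.log x - Real.log c) (Real.log b) : ℝ) : ℂ) =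
              ∑ b ∈ Icc 1 (M / c), z b * ((Real.log b * lp (Real.log x - Real.log c) (Real.log b) : ℝ) : ℂ) := by
            refine sum_congr rfl fun b _ => ?_
            push_cast
            ring
          rw [h1]
          have h2 := hT1 c hc
          have h3 := hmu1 c
          split_ifs with h
          · rw [if_pos h] at h3
            calc |mu1 V c| * ‖z c‖ * _ ≤ 1 * 1 * ((A₁ * (x / c) + A₂) * (2 * Lm ^ 2)) := by
                  have := hz1 c
                  gcongr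
              _ = _ := by ring
          · rw [if_neg h] at h3
            have h4 : |mu1 V c| = 0 := le_antisymm h3 (abs_nonneg _)
            rw [h4]
            simp
      _ = (∑ c ∈ (Icc 1 M).filter (fun c => c ≤ V), (A₁ * (x / c) + A₂)) * (2 * Lm ^ 2) := by
          rw [← sum_filter, sum_mul]
      _ ≤ (A₁ * x * Lm + A₂ * V) * (2 * Lm ^ 2) := mul_le_mul_of_nonneg_right (hcard V) (by positivity)
      _ = _ := by ring
  have hconv : ∀ c ∈ Icc 1 M, |(mu1 V * l1 U) c| ≤ if c ≤ U * V then Lm else 0 := by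
    intro c hc
    have hc' := hc
    rw [mem_Icc] at hc'
    rw [ArithmeticFunction.mul_apply]
    split_ifs with h
    · calc |∑ i ∈ c.divisorsAntidiagonal, mu1 V i.1 * l1 U i.2| ≤ ∑ i ∈ c.divisorsAntidiagonal, ArithmeticFunction.vonMangoldt i.2 := by
            refine (abs_sum_le_sum_abs _ _).trans (sum_le_sum fun i _ => ?_)
            rw [abs_mul, abs_of_nonneg (hl1 i.2)]
            have h1 : |mu1 V i.1| ≤ 1 := (hmu1 i.1).trans (by split_ifs <;> norm_num)
            have h2 : l1 U i.2 ≤ ArithmeticFunction.vonMangoldt i.2 := by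
              rw [l1_apply]
              split_ifs
              · exact le_rfl
              · exact ArithmeticFunction.vonMangoldt_nonneg
            have h3 := hl1 i.2
            nlinarith [abs_nonneg (mu1 V i.1)]
        _ = Real.log c := by
            rw [← ArithmeticFunction.vonMangoldt_sum, Nat.sum_divisorsAntidiagonal'
              (f := fun i j => ArithmeticFunction.vonMangoldt j)]
        _ ≤ Lm := hlogle c hc
    · apply le_of_eq
      rw [abs_eq_zero]
      apply sum_eq_zero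
      intro i hi
      obtain ⟨h1, h2⟩ := Nat.mem_divisorsAntidiagonal.1 hi
      rw [mu1_apply, l1_apply]
      split_ifs with h3 h4
      · exfalso
        apply h
        rw [← h1, mul_comm U V]
        exact Nat.mul_le_mul h3 h4
      all_goals simp
  have b3 : ‖ST z M x (fun n => ∑ i ∈ n.divisorsAntidiagonal, 1 * (mu1 V * l1 U) i.2)‖ ≤ Lm ^ 2 * (A₁ * x * Lm + A₂ * (U * V)) := by
    rw [ST_conv z hz M x (fun _ => 1) (fun n => (mu1 V * l1 U) n)]
    calc ‖∑ c ∈ Icc 1 M, (((mu1 V * l1 U) c : ℝ) : ℂ) * z c * ∑ b ∈ Icc 1 (M / c), ((1 : ℝ) : ℂ) * z b * ((lp (Real.log x - Real.log c) (Real.log b) : ℝ) : ℂ)‖ ≤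
          ∑ c ∈ Icc 1 M, (if c ≤ U * V then (A₁ * (x / c) + A₂) * Lm ^ 2 else 0) := by
          refine norm_sum_le_of_le _ fun c hc => ?_
          rw [norm_mul, norm_mul, Complex.norm_real, Real.norm_eq_abs]
          simp only [Complex.ofReal_one, one_mul]
          have h2 := hT0 c hc
          have h3 := hconv c hc
          split_ifs with h
          · rw [if_pos h] at h3
            calc |(mu1 V * l1 U) c| * ‖z c‖ * _ ≤ Lm * 1 * ((A₁ * (x / c) + A₂) * Lm) := by
                  have := hz1 c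
                  gcongr
              _ = _ := by ring
          · rw [if_neg h] at h3
            have h4 : |(mu1 V * l1 U) c| = 0 := le_antisymm h3 (abs_nonneg _)
            rw [h4]
            simp
      _ = (∑ c ∈ (Icc 1 M).filter (fun c => c ≤ U * V), (A₁ * (x / c) + A₂)) * Lm ^ 2 := by
          rw [← sum_filter, sum_mul]
      _ ≤ (A₁ * x * Lm + A₂ * ((U * V : ℕ) : ℝ)) * Lm ^ 2 := mul_le_mul_of_nonneg_right (hcard _) (by positivity)
      _ = _ := by push_cast; ring
  rw [hdec]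
  have h1 := norm_sub_le (ST z M x (fun n => l1 U n) + ST z M x (fun n => ∑ i ∈ n.divisorsAntidiagonal, Real.log i.1 * mu1 V i.2))
    (ST z M x (fun n => ∑ i ∈ n.divisorsAntidiagonal, 1 * (mu1 V * l1 U) i.2))
  have h2 := norm_add_le (ST z M x (fun n => l1 U n)) (ST z M x (fun n => ∑ i ∈ n.divisorsAntidiagonal, Real.log i.1 * mu1 V i.2))
  have hVU : (V : ℝ) ≤ U * V := by
    have hU' : (1 : ℝ) ≤ U := by exact_mod_cast hU
    have hV' : (1 : ℝ) ≤ V := by exact_mod_cast hV
    nlinarith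
  have h3 : 2 * Lm ^ 2 * (A₁ * x * Lm + A₂ * V) ≤ 2 * Lm ^ 2 * (A₁ * x * Lm + A₂ * (U * V)) := by gcongr
  calc _ ≤ U * Lm ^ 2 + 2 * Lm ^ 2 * (A₁ * x * Lm + A₂ * (U * V)) + Lm ^ 2 * (A₁ * x * Lm + A₂ * (U * V)) := by linarith
    _ = _ := by ring

end Pool.Agent.J4H81.PT
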