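import Pool.Agent.J4H81.PT.VAc

/-!
# Growing prime tuples: the mean of the twisted sums (helper81)
-/

set_option autoImplicit false

namespace Pool.Agent.J4H81.PT

open Finset MeasureTheory
open Pool.Agent.H807R2.Dav (ee norm_ee ee_add ee_zero ee_int ee_eq dd dd_le)
open Pool.Agent.Helper112 (LamII betaV)
open Pool.Agent.Helper112.TII (L2 L2_nonneg L2_le betaV_abs betaV_zero)
open Pool.Agent.H398R2.BV (Prim prim_ne_one card_prim_le)

/-- the smoothed mean square -/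
noncomputable def JJ (M : ℕ) (c : ℕ → ℂ) (ξ : ℝ) : ℝ := ∫ η : ℝ, ‖PL (Icc 1 M) c (ξ + η)‖ ^ 2 * (1 + η ^ 2)⁻¹

theorem JJ_nonneg (M : ℕ) (c : ℕ → ℂ) (ξ : ℝ) : 0 ≤ JJ M c ξ := by
  unfold JJ
  apply integral_nonneg
  intro η
  positivity

theorem JJ_int (M : ℕ) (c : ℕ → ℂ) {T : ℝ} (hT : 0 ≤ T) : IntervalIntegrable (JJ M c) volume (-T) T := by
  rw [intervalIntegrable_iff_integrableOn_Ioc_of_le (by linarith)]
  have h1 : Integrable (fun p : ℝ × ℝ => ‖PL (Icc 1 M) c (p.1 + p.2)‖ ^ 2 * (1 + p.2 ^ 2)⁻¹) ((volume.restrict (Set.Ioc (-T) T)).prod volume) := by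
    have hbase : Integrable (fun p : ℝ × ℝ => ((∑ n ∈ Icc 1 M, ‖c n‖) ^ 2) * (1 + p.2 ^ 2)⁻¹) ((volume.restrict (Set.Ioc (-T) T)).prod volume) :=
      (integrable_inv_one_add_sq.const_mul _).comp_snd (volume.restrict (Set.Ioc (-T) T))
    refine hbase.mono' ?_ ?_
    · apply Continuous.aestronglyMeasurable
      apply Continuous.mul
      · exact ((PL_cont (Icc 1 M) c).comp (by fun_prop)).norm.pow 2
      · apply Continuous.inv₀ (by fun_prop)
        intro p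
        positivity
    · refine Filter.Eventually.of_forall fun p => ?_
      rw [norm_mul, Real.norm_eq_abs, Real.norm_of_nonneg (by positivity)]
      exact mul_le_mul_of_nonneg_right (PLsq_bdd _ _ _) (by positivity)
  exact h1.integral_prod_left

open Classical in
/-- the smoothed twisted sum -/
noncomputable def QS (f : ℕ) (χ : DirichletCharacter ℂ f) (M : ℕ) (x ξ : ℝ) : ℂ :=
  ∑ n ∈ Icc 1 M, (((ArithmeticFunction.vonMangoldt n : ℝ) : ℂ) * χ (n : ZMod f) - (if χ = 1 then 1 else 0)) * ee (-(ξ * Real.log n)) *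
    ((lp (Real.log x) (Real.log n) : ℝ) : ℂ)

theorem QS_cont (f : ℕ) (χ : DirichletCharacter ℂ f) (M : ℕ) (x : ℝ) : Continuous (QS f χ M x) := by
  unfold QS
  apply continuous_finsetSum
  intro n _
  exact (continuous_const.mul (ee_cont'.comp (by fun_prop))).mul continuous_const

/-- the twist -/
noncomputable def zz (f : ℕ) (χ : DirichletCharacter ℂ f) (ξ : ℝ) (n : ℕ) : ℂ := χ (n : ZMod f) * ee (-(ξ * Real.log n))

theorem zz_le {f : ℕ} (χ : DirichletCharacter ℂ f) (ξ : ℝ) (n : ℕ) : ‖zz f χ ξ n‖ ≤ 1 := by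
  unfold zz
  rw [norm_mul, norm_ee, mul_one]
  exact χ.norm_le_one _

theorem zz_mul {f : ℕ} (χ : DirichletCharacter ℂ f) (ξ : ℝ) (b c : ℕ) (hb : 1 ≤ b) (hc : 1 ≤ c) : zz f χ ξ (b * c) = zz f χ ξ b * zz f χ ξ c := by
  unfold zz
  have hb0 : (b : ℝ) ≠ 0 := by positivity
  have hc0 : (c : ℝ) ≠ 0 := by positivity
  rw [Nat.cast_mul, Nat.cast_mul, map_mul, Real.log_mul hb0 hc0]
  have : -(ξ * (Real.log b + Real.log c)) = -(ξ * Real.log b) + -(ξ * Real.log c) := by ring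
  rw [this, ee_add]
  ring

/-- the bilinear part at a point -/
theorem II_point (f : ℕ) (χ : DirichletCharacter ℂ f) (U M : ℕ) {x : ℝ} (hx : 1 ≤ x) (hxM : x ≤ M + 1) (ξ : ℝ) :
    ‖ST (zz f χ ξ) M x (fun n => LamII U U n)‖ ≤ x / 2 * (JJ M (fun m => ((betaV U m : ℝ) : ℂ) * χ (m : ZMod f) / m) ξ +
      JJ M (fun m => ((L2 U m : ℝ) : ℂ) * χ (m : ZMod f) / m) ξ) := by
  rw [II_eq (zz f χ ξ) (zz_mul χ ξ) U U M hx hxM]
  have h1 := bil_point M hx (fun m => ((betaV U m : ℝ) : ℂ) * χ (m : ZMod f)) (fun m => ((L2 U m : ℝ) : ℂ) * χ (m : ZMod f)) ξ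
  have h2 : ∑ m ∈ Icc 1 M, ∑ k ∈ Icc 1 M, ((betaV U m : ℝ) : ℂ) * ((L2 U k : ℝ) : ℂ) * (zz f χ ξ m * zz f χ ξ k) *
      ((lp (Real.log x) (Real.log m + Real.log k) : ℝ) : ℂ) =
      ∑ m ∈ Icc 1 M, ∑ k ∈ Icc 1 M, (((betaV U m : ℝ) : ℂ) * χ (m : ZMod f)) * (((L2 U k : ℝ) : ℂ) * χ (k : ZMod f)) * ee (-(ξ * Real.log m)) * ee (-(ξ * Real.log k)) *
      ((lp (Real.log x) (Real.log m + Real.log k) : ℝ) : ℂ) := by
    refine sum_congr rfl fun m _ => sum_congr rfl fun k _ => ?_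
    unfold zz
    ring
  rw [h2]
  refine h1.trans (le_of_eq ?_)
  congr 1
  unfold JJ
  rw [← integral_add (PL_int _ _ _) (PL_int _ _ _)]
  congr 1
  funext η
  ring

/-- mean of the bilinear part -/
theorem II_mean (R M U : ℕ) {T x : ℝ} (hT : 1 ≤ T) (hU : 7 * T * (1 + (R : ℝ) ^ 2) ≤ U) (hx : 1 ≤ x) :
    ∑ f ∈ Icc 1 R, ((f : ℝ) / (Nat.totient f : ℝ)) * ∑ χ ∈ Prim f,
      (∫ ξ in (-T)..T, x / 2 * (JJ M (fun m => ((betaV U m : ℝ) : ℂ) * χ (m : ZMod f) / m) ξ +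
      JJ M (fun m => ((L2 U m : ℝ) : ℂ) * χ (m : ZMod f) / m) ξ)) ≤ 240 * (1 + Real.log M) ^ 4 * x := by
  have hlM : 0 ≤ Real.log M := Real.log_natCast_nonneg M
  have e : ∀ (f : ℕ) (χ : DirichletCharacter ℂ f), (∫ ξ in (-T)..T, x / 2 * (JJ M (fun m => ((betaV U m : ℝ) : ℂ) * χ (m : ZMod f) / m) ξ +
      JJ M (fun m => ((L2 U m : ℝ) : ℂ) * χ (m : ZMod f) / m) ξ)) =
      x / 2 * ((∫ ξ in (-T)..T, ∫ η : ℝ, ‖PL (Icc 1 M) (fun m => ((betaV U m : ℝ) : ℂ) * χ (m : ZMod f) / m) (ξ + η)‖ ^ 2 * (1 + η ^ 2)⁻¹) +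
      ∫ ξ in (-T)..T, ∫ η : ℝ, ‖PL (Icc 1 M) (fun m => ((L2 U m : ℝ) : ℂ) * χ (m : ZMod f) / m) (ξ + η)‖ ^ 2 * (1 + η ^ 2)⁻¹) := by
    intro f χ
    rw [intervalIntegral.integral_const_mul, intervalIntegral.integral_add (JJ_int _ _ (by linarith)) (JJ_int _ _ (by linarith))]
    rfl
  simp_rw [e]
  have h1 := factor_mean R M (fun m => ((betaV U m : ℝ) : ℂ)) hT hU (by
    intro m hm
    by_contra hcon
    push Not at hcon
    apply hm
    have : m ≤ U := by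
      have : (m : ℝ) ≤ U := hcon.le
      exact_mod_cast this
    rw [betaV_zero U m this, Complex.ofReal_zero])
  have h2 := factor_mean R M (fun m => ((L2 U m : ℝ) : ℂ)) hT hU (by
    intro m hm
    by_contra hcon
    push Not at hcon
    apply hm
    have h3 : ¬ U < m := by
      have : (m : ℝ) ≤ U := hcon.le
      have : m ≤ U := by exact_mod_cast this
      omega
    unfold L2
    rw [if_neg h3, Complex.ofReal_zero])
  have h3 : ∑ m ∈ Icc 1 M, ‖((betaV U m : ℝ) : ℂ)‖ ^ 2 / m ≤ (1 + Real.log M) ^ 4 := by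
    refine le_trans (sum_le_sum fun m _ => ?_) (Pool.Agent.H316R2.tau_sq_sum_le M)
    rw [Complex.norm_real, Real.norm_eq_abs]
    have := betaV_abs U m
    gcongr
  have h4 : ∑ m ∈ Icc 1 M, ‖((L2 U m : ℝ) : ℂ)‖ ^ 2 / m ≤ (1 + Real.log M) ^ 4 := by
    calc ∑ m ∈ Icc 1 M, ‖((L2 U m : ℝ) : ℂ)‖ ^ 2 / m ≤ ∑ m ∈ Icc 1 M, (1 + Real.log M) ^ 2 * (1 / (m : ℝ)) := by
          refine sum_le_sum fun m hm => ?_
          rw [mem_Icc] at hm
          rw [Complex.norm_real, Real.norm_eq_abs, abs_of_nonneg (L2_nonneg U m), div_eq_mul_one_div]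
          have h5 : L2 U m ≤ 1 + Real.log M := by
            refine (L2_le U m).trans (ArithmeticFunction.vonMangoldt_le_log.trans ?_)
            have : Real.log m ≤ Real.log M := Real.log_le_log (by exact_mod_cast hm.1) (by exact_mod_cast hm.2)
            linarith
          have h6 := L2_nonneg U m
          gcongr
      _ = (1 + Real.log M) ^ 2 * ∑ m ∈ Icc 1 M, 1 / (m : ℝ) := by rw [mul_sum]
      _ ≤ (1 + Real.log M) ^ 2 * (1 + Real.log M) := mul_le_mul_of_nonneg_left (Pool.Agent.H316R2.harm_sum_le M) (by positivity)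
      _ = (1 + Real.log M) ^ 3 := by ring
      _ ≤ (1 + Real.log M) ^ 4 := pow_le_pow_right₀ (by linarith) (by norm_num)
  calc ∑ f ∈ Icc 1 R, ((f : ℝ) / (Nat.totient f : ℝ)) * ∑ χ ∈ Prim f,
      x / 2 * ((∫ ξ in (-T)..T, ∫ η : ℝ, ‖PL (Icc 1 M) (fun m => ((betaV U m : ℝ) : ℂ) * χ (m : ZMod f) / m) (ξ + η)‖ ^ 2 * (1 + η ^ 2)⁻¹) +
      ∫ ξ in (-T)..T, ∫ η : ℝ, ‖PL (Icc 1 M) (fun m => ((L2 U m : ℝ) : ℂ) * χ (m : ZMod f) / m) (ξ + η)‖ ^ 2 * (1 + η ^ 2)⁻¹) =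
      x / 2 * (∑ f ∈ Icc 1 R, ((f : ℝ) / (Nat.totient f : ℝ)) * ∑ χ ∈ Prim f,
      (∫ ξ in (-T)..T, ∫ η : ℝ, ‖PL (Icc 1 M) (fun m => ((betaV U m : ℝ) : ℂ) * χ (m : ZMod f) / m) (ξ + η)‖ ^ 2 * (1 + η ^ 2)⁻¹) +
      ∑ f ∈ Icc 1 R, ((f : ℝ) / (Nat.totient f : ℝ)) * ∑ χ ∈ Prim f,
      ∫ ξ in (-T)..T, ∫ η : ℝ, ‖PL (Icc 1 M) (fun m => ((L2 U m : ℝ) : ℂ) * χ (m : ZMod f) / m) (ξ + η)‖ ^ 2 * (1 + η ^ 2)⁻¹) := by
        rw [← sum_add_distrib, mul_sum]
        refine sum_congr rfl fun f _ => ?_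
        rw [← mul_sum, sum_add_distrib]
        ring
    _ ≤ x / 2 * (240 * (1 + Real.log M) ^ 4 + 240 * (1 + Real.log M) ^ 4) := by
        apply mul_le_mul_of_nonneg_left _ (by linarith)
        exact add_le_add (h1.trans (by linarith)) (h2.trans (by linarith))
    _ = _ := by ring

theorem inv_int {T : ℝ} (hT : 0 ≤ T) : ∫ ξ in (-T)..T, 1 / (1 + |ξ|) = 2 * Real.log (1 + T) := by
  have hc : Continuous fun ξ : ℝ => 1 / (1 + |ξ|) := by
    apply Continuous.div continuous_const (by fun_prop)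
    intro ξ
    positivity
  have h0 : ∫ ξ in (0 : ℝ)..T, 1 / (1 + |ξ|) = Real.log (1 + T) := by
    have h1 : ∫ ξ in (0 : ℝ)..T, 1 / (1 + |ξ|) = ∫ ξ in (0 : ℝ)..T, (fun u => u⁻¹) (ξ + 1) := by
      apply intervalIntegral.integral_congr
      intro ξ hξ
      rw [Set.uIcc_of_le hT] at hξ
      simp only
      rw [abs_of_nonneg hξ.1, one_div, add_comm]
    rw [h1, intervalIntegral.integral_comp_add_right (fun u : ℝ => u⁻¹), integral_inv_of_pos (by norm_num) (by linarith)]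
    congr 1
    field_simp
    ring
  have h2 : ∫ ξ in (-T)..0, 1 / (1 + |ξ|) = Real.log (1 + T) := by
    have h3 := intervalIntegral.integral_comp_neg (a := 0) (b := T) (fun ξ : ℝ => 1 / (1 + |ξ|))
    rw [neg_zero] at h3
    rw [← h3, ← h0]
    apply intervalIntegral.integral_congr
    intro ξ _
    simp only
    rw [abs_neg]
  rw [← intervalIntegral.integral_add_adjacent_intervals (hc.intervalIntegrable (-T) 0) (hc.intervalIntegrable 0 T), h0, h2]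
  ring

/-- nonprincipal characters at a point -/
theorem QS_ne_one {f : ℕ} [NeZero f] {χ : DirichletCharacter ℂ f} (hχ : χ ≠ 1) (U M : ℕ) (hU : 1 ≤ U) {x T : ℝ} (hx : 1 ≤ x) (hxM : x ≤ M + 1)
    (hT : 1 ≤ T) {ξ : ℝ} (hξ : |ξ| ≤ T) :
    ‖QS f χ M x ξ‖ ≤ ‖ST (zz f χ ξ) M x (fun n => LamII U U n)‖ + 50 * f * T * U ^ 2 * (1 + Real.log M) ^ 3 := by
  have hlM : 0 ≤ Real.log M := Real.log_natCast_nonneg M
  set Lm : ℝ := 1 + Real.log M with hLm
  have hLm1 : 1 ≤ Lm := by rw [hLm]; linarith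
  have hx0 : 0 < x := by linarith
  have hf1 : (1 : ℝ) ≤ f := by exact_mod_cast NeZero.one_le
  have hU1 : (1 : ℝ) ≤ U := by exact_mod_cast hU
  have hlx : Real.log x ≤ Lm := by
    rcases (by omega : 1 ≤ M ∨ M = 0) with hM | hM
    · have hM0 : (1 : ℝ) ≤ M := by exact_mod_cast hM
      have h1 : Real.log x ≤ Real.log (2 * M) := Real.log_le_log hx0 (by linarith)
      rw [Real.log_mul (by norm_num) (by positivity)] at h1
      have := Real.log_two_lt_d9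
      rw [hLm]
      linarith
    · rw [hM] at hxM
      have : x ≤ 1 := by simpa using hxM
      have h2 : x = 1 := le_antisymm this hx
      rw [h2, Real.log_one]
      linarith
  have hA₂ : 0 ≤ 2 * f * (1 + 7 * T * Lm) := by positivity
  have h1 := typeI_gen (zz f χ ξ) (zz_le χ ξ) (zz_mul χ ξ) U U M hU hU hx hxM (A₁ := 0) (A₂ := 2 * f * (1 + 7 * T * Lm)) le_rfl hA₂ (by
    intro b hb hbx
    have h2 := partial_tw (fun n => χ (n : ZMod f)) (char_Icc_le hχ) ξ b hb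
    unfold zz
    rw [zero_mul, zero_add]
    refine h2.trans ?_
    have hb0 : (0 : ℝ) < b := by exact_mod_cast hb
    have h3 : Real.log b ≤ Lm := (Real.log_le_log hb0 hbx).trans hlx
    have h4 : 0 ≤ Real.log b := Real.log_natCast_nonneg b
    gcongr)
  have h2 : QS f χ M x ξ = ST (zz f χ ξ) M x (fun n => LamII U U n) + ST (zz f χ ξ) M x (fun n => ArithmeticFunction.vonMangoldt n - LamII U U n) := by
    unfold QS ST
    rw [← sum_add_distrib]
    refine sum_congr rfl fun n _ => ?_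
    rw [if_neg hχ, sub_zero]
    unfold zz
    push_cast
    ring
  rw [h2]
  refine (norm_add_le _ _).trans (add_le_add le_rfl (h1.trans ?_))
  have hTL : 1 ≤ T * Lm := by nlinarith
  have h3 : 2 * (f : ℝ) * (1 + 7 * T * Lm) ≤ 16 * f * (T * Lm) := by nlinarith
  have hUU : (U : ℝ) ≤ U ^ 2 := by nlinarith
  calc 3 * Lm ^ 3 * 0 * x + 3 * (2 * f * (1 + 7 * T * Lm)) * (U * U) * Lm ^ 2 + U * Lm ^ 2 ≤
        3 * (16 * f * (T * Lm)) * (U * U) * Lm ^ 2 + 2 * (f * T * U ^ 2 * Lm ^ 3) := by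
        have h4 : U * Lm ^ 2 ≤ 2 * (f * T * U ^ 2 * Lm ^ 3) := by
          have h5 : (U : ℝ) * Lm ^ 2 ≤ U ^ 2 * Lm ^ 3 := mul_le_mul hUU (pow_le_pow_right₀ hLm1 (by norm_num)) (by positivity) (by positivity)
          have h6 : (1 : ℝ) ≤ f * T := by nlinarith
          calc (U : ℝ) * Lm ^ 2 ≤ 1 * (U ^ 2 * Lm ^ 3) := by linarith
            _ ≤ (f * T) * (U ^ 2 * Lm ^ 3) := mul_le_mul_of_nonneg_right h6 (by positivity)
            _ ≤ 2 * ((f * T) * (U ^ 2 * Lm ^ 3)) := by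
                have : 0 ≤ (f * T) * (U ^ 2 * Lm ^ 3) := by positivity
                linarith
            _ = _ := by ring
        have h7 : 3 * (2 * (f : ℝ) * (1 + 7 * T * Lm)) * (U * U) * Lm ^ 2 ≤ 3 * (16 * f * (T * Lm)) * (U * U) * Lm ^ 2 := by gcongr
        linarith
    _ = 50 * f * T * U ^ 2 * Lm ^ 3 := by ring

/-- the principal character at a point -/
theorem QS_one (U M : ℕ) (hU : 1 ≤ U) {x T : ℝ} (hx : 1 ≤ x) (hxM : x ≤ M + 1)
    (hT : 1 ≤ T) {ξ : ℝ} (hξ : |ξ| ≤ T) :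
    ‖QS 1 1 M x ξ‖ ≤ ‖ST (zz 1 1 ξ) M x (fun n => LamII U U n)‖ + 8 * (1 + Real.log M) ^ 3 * x * (1 / (1 + |ξ|)) + 40 * T * U ^ 2 * (1 + Real.log M) ^ 3 := by
  have hlM : 0 ≤ Real.log M := Real.log_natCast_nonneg M
  set Lm : ℝ := 1 + Real.log M with hLm
  have hLm1 : 1 ≤ Lm := by rw [hLm]; linarith
  have hx0 : 0 < x := by linarith
  have hU1 : (1 : ℝ) ≤ U := by exact_mod_cast hU
  have hlx : Real.log x ≤ Lm := by
    rcases (by omega : 1 ≤ M ∨ M = 0) with hM | hM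
    · have hM0 : (1 : ℝ) ≤ M := by exact_mod_cast hM
      have h1 : Real.log x ≤ Real.log (2 * M) := Real.log_le_log hx0 (by linarith)
      rw [Real.log_mul (by norm_num) (by positivity)] at h1
      have := Real.log_two_lt_d9
      rw [hLm]
      linarith
    · rw [hM] at hxM
      have : x ≤ 1 := by simpa using hxM
      have h2 : x = 1 := le_antisymm this hx
      rw [h2, Real.log_one]
      linarith
  have hz : ∀ n : ℕ, zz 1 1 ξ n = ee (-(ξ * Real.log n)) := by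
    intro n
    unfold zz
    rw [MulChar.one_apply (isUnit_of_subsingleton _), one_mul]
  have hA₂ : 0 ≤ 2 + 7 * T * Lm := by positivity
  have hA₁ : 0 ≤ 2 / (1 + |ξ|) := by positivity
  have hZ : ∀ b : ℕ, 1 ≤ b → (b : ℝ) ≤ x → ‖∑ i ∈ Icc 1 b, zz 1 1 ξ i‖ ≤ 2 / (1 + |ξ|) * b + (2 + 7 * T * Lm) := by
    intro b hb hbx
    have h2 := pow_sum ξ b hb
    simp_rw [hz]
    refine h2.trans ?_
    have hb0 : (0 : ℝ) < b := by exact_mod_cast hb
    have h3 : Real.log b ≤ Lm := (Real.log_le_log hb0 hbx).trans hlx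
    have h4 : 0 ≤ Real.log b := Real.log_natCast_nonneg b
    have h5 : 7 * |ξ| * Real.log b ≤ 7 * T * Lm := by gcongr
    have h6 : 2 * (b : ℝ) / (1 + |ξ|) = 2 / (1 + |ξ|) * b := by ring
    linarith
  have h1 := typeI_gen (zz 1 1 ξ) (zz_le 1 ξ) (zz_mul 1 ξ) U U M hU hU hx hxM hA₁ hA₂ hZ
  have hlogx : 0 ≤ Real.log x := Real.log_nonneg hx
  have hM1x : Real.log x ≤ Real.log ((M + 1 : ℕ) : ℝ) := by
    apply Real.log_le_log hx0
    push_cast
    exact hxM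
  have h0 := w0_bound (zz 1 1 ξ) hlogx (by positivity : 0 ≤ 2 / (1 + |ξ|) * x + (2 + 7 * T * Lm)) M hM1x (by
    intro b hb hbx
    have hb0 : (0 : ℝ) < b := by exact_mod_cast hb
    have h3 : (b : ℝ) ≤ x := (Real.log_le_log_iff hb0 hx0).1 hbx
    refine (hZ b hb h3).trans ?_
    gcongr)
  have h2 : QS 1 1 M x ξ = ST (zz 1 1 ξ) M x (fun n => LamII U U n) + ST (zz 1 1 ξ) M x (fun n => ArithmeticFunction.vonMangoldt n - LamII U U n) -
      ∑ b ∈ Icc 1 M, zz 1 1 ξ b * ((lp (Real.log x) (Real.log b) : ℝ) : ℂ) := by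
    unfold QS ST
    rw [← sum_add_distrib, ← sum_sub_distrib]
    refine sum_congr rfl fun n _ => ?_
    rw [if_pos rfl, hz, MulChar.one_apply (isUnit_of_subsingleton _)]
    push_cast
    ring
  rw [h2]
  have h3 := norm_sub_le (ST (zz 1 1 ξ) M x (fun n => LamII U U n) + ST (zz 1 1 ξ) M x (fun n => ArithmeticFunction.vonMangoldt n - LamII U U n))
    (∑ b ∈ Icc 1 M, zz 1 1 ξ b * ((lp (Real.log x) (Real.log b) : ℝ) : ℂ))
  have h4 := norm_add_le (ST (zz 1 1 ξ) M x (fun n => LamII U U n)) (ST (zz 1 1 ξ) M x (fun n => ArithmeticFunction.vonMangoldt n - LamII U U n))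
  have hTL : 1 ≤ T * Lm := by nlinarith
  have h5 : 2 + 7 * T * Lm ≤ 9 * (T * Lm) := by linarith
  have hUU : (U : ℝ) ≤ U ^ 2 := by nlinarith
  set A₁ : ℝ := 2 / (1 + |ξ|) with hA₁'
  have hL3 : Lm ≤ Lm ^ 3 := by
    calc Lm = Lm ^ 1 := (pow_one _).symm
      _ ≤ Lm ^ 3 := pow_le_pow_right₀ hLm1 (by norm_num)
  have hL23 : Lm ^ 2 ≤ Lm ^ 3 := pow_le_pow_right₀ hLm1 (by norm_num)
  have h6 : (A₁ * x + (2 + 7 * T * Lm)) * Real.log x ≤ A₁ * x * Lm ^ 3 + 9 * (T * Lm ^ 3) := by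
    calc (A₁ * x + (2 + 7 * T * Lm)) * Real.log x ≤ (A₁ * x + 9 * (T * Lm)) * Lm := by
          apply mul_le_mul (by linarith) hlx hlogx (by positivity)
      _ = A₁ * x * Lm + 9 * (T * Lm ^ 2) := by ring
      _ ≤ _ := by gcongr
  have h7 : 3 * (2 + 7 * T * Lm) * (U * U) * Lm ^ 2 ≤ 27 * (T * U ^ 2 * Lm ^ 3) := by
    calc 3 * (2 + 7 * T * Lm) * (U * U) * Lm ^ 2 ≤ 3 * (9 * (T * Lm)) * (U * U) * Lm ^ 2 := by gcongr
      _ = _ := by ring
  have h8 : U * Lm ^ 2 ≤ T * U ^ 2 * Lm ^ 3 := by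
    calc (U : ℝ) * Lm ^ 2 ≤ U ^ 2 * Lm ^ 3 := mul_le_mul hUU hL23 (by positivity) (by positivity)
      _ ≤ T * (U ^ 2 * Lm ^ 3) := le_mul_of_one_le_left (by positivity) hT
      _ = _ := by ring
  have h9 : T * Lm ^ 3 ≤ T * U ^ 2 * Lm ^ 3 := by
    have : (1 : ℝ) ≤ U ^ 2 := one_le_pow₀ hU1
    calc T * Lm ^ 3 = T * 1 * Lm ^ 3 := by ring
      _ ≤ T * U ^ 2 * Lm ^ 3 := by gcongr
  have h10 : 8 * Lm ^ 3 * x * (1 / (1 + |ξ|)) = 4 * (A₁ * x * Lm ^ 3) := by rw [hA₁']; ring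
  rw [h10]
  have h11 : 3 * Lm ^ 3 * A₁ * x = 3 * (A₁ * x * Lm ^ 3) := by ring
  have h12 : 40 * T * U ^ 2 * Lm ^ 3 = 40 * (T * U ^ 2 * Lm ^ 3) := by ring
  have h13 : 0 ≤ T * U ^ 2 * Lm ^ 3 := by positivity
  rw [h12]
  linarith

/-- Vaughan's identity on average -/
theorem vaughan_mean (R M U : ℕ) {T x : ℝ} (hT : 1 ≤ T) (hU : 7 * T * (1 + (R : ℝ) ^ 2) ≤ U) (hx : 1 ≤ x) (hxM : x ≤ M + 1)
    (hTM : Real.log (1 + T) ≤ 1 + Real.log M) :
    ∑ f ∈ Icc 1 R, ((f : ℝ) / (Nat.totient f : ℝ)) * ∑ χ ∈ Prim f, (∫ ξ in (-T)..T, ‖QS f χ M x ξ‖) ≤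
      256 * (1 + Real.log M) ^ 4 * x + 200 * T ^ 2 * U ^ 2 * (R : ℝ) ^ 3 * (1 + Real.log M) ^ 3 := by
  have hlM : 0 ≤ Real.log M := Real.log_natCast_nonneg M
  set Lm : ℝ := 1 + Real.log M with hLm
  have hLm1 : 1 ≤ Lm := by rw [hLm]; linarith
  have hU1 : 1 ≤ U := by
    have : (1 : ℝ) ≤ U := by nlinarith [sq_nonneg (R : ℝ)]
    exact_mod_cast this
  rcases Nat.eq_zero_or_pos R with hR0 | hR
  · subst hR0
    simp
    positivity
  have hR1 : (1 : ℝ) ≤ R := by exact_mod_cast hR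
  set J : (f : ℕ) → DirichletCharacter ℂ f → ℝ → ℝ := fun f χ ξ => x / 2 * (JJ M (fun m => ((betaV U m : ℝ) : ℂ) * χ (m : ZMod f) / m) ξ +
      JJ M (fun m => ((L2 U m : ℝ) : ℂ) * χ (m : ZMod f) / m) ξ) with hJ
  have hJi : ∀ (f : ℕ) (χ : DirichletCharacter ℂ f), IntervalIntegrable (J f χ) volume (-T) T := by
    intro f χ
    exact ((JJ_int _ _ (by linarith)).add (JJ_int _ _ (by linarith))).const_mul _
  have hmem : ∀ ξ ∈ Set.Icc (-T) T, |ξ| ≤ T := fun ξ hξ => abs_le.2 hξ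
  have hQi : ∀ (f : ℕ) (χ : DirichletCharacter ℂ f), IntervalIntegrable (fun ξ => ‖QS f χ M x ξ‖) volume (-T) T :=
    fun f χ => (QS_cont f χ M x).norm.intervalIntegrable _ _
  -- each character
  have hne : ∀ f ∈ Icc 1 R, ∀ χ ∈ Prim f, (∫ ξ in (-T)..T, ‖QS f χ M x ξ‖) ≤ (∫ ξ in (-T)..T, J f χ ξ) + 100 * f * T ^ 2 * U ^ 2 * Lm ^ 3 +
      (if f = 1 then 16 * Lm ^ 4 * x else 0) := by
    intro f hf χ hχ
    rw [mem_Icc] at hf
    have : NeZero f := ⟨by omega⟩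
    have hf1 : (1 : ℝ) ≤ f := by exact_mod_cast hf.1
    rcases (by omega : f = 1 ∨ 2 ≤ f) with h1 | h2
    · subst h1
      have hχ1 : χ = 1 := DirichletCharacter.level_one χ
      subst hχ1
      rw [if_pos rfl]
      have hci : Continuous fun ξ : ℝ => 8 * Lm ^ 3 * x * (1 / (1 + |ξ|)) := by
        apply Continuous.mul continuous_const
        apply Continuous.div continuous_const (by fun_prop)
        intro ξ
        positivity
      have hmid : ∫ ξ in (-T)..T, 8 * Lm ^ 3 * x * (1 / (1 + |ξ|)) = 8 * Lm ^ 3 * x * (2 * Real.log (1 + T)) := by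
        rw [intervalIntegral.integral_const_mul, inv_int (by linarith)]
      calc (∫ ξ in (-T)..T, ‖QS 1 1 M x ξ‖) ≤ ∫ ξ in (-T)..T, (J 1 1 ξ + 8 * Lm ^ 3 * x * (1 / (1 + |ξ|)) + 40 * T * U ^ 2 * Lm ^ 3) := by
            apply intervalIntegral.integral_mono_on (by linarith) (hQi 1 1)
            · exact ((hJi 1 1).add (hci.intervalIntegrable _ _)).add intervalIntegrable_const
            · intro ξ hξ
              refine (QS_one U M hU1 hx hxM hT (hmem ξ hξ)).trans ?_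
              have := II_point 1 1 U M hx hxM ξ
              simp only [hJ]
              linarith
        _ = (∫ ξ in (-T)..T, J 1 1 ξ) + 8 * Lm ^ 3 * x * (2 * Real.log (1 + T)) + 80 * T ^ 2 * U ^ 2 * Lm ^ 3 := by
            rw [intervalIntegral.integral_add ((hJi 1 1).add (hci.intervalIntegrable _ _)) intervalIntegrable_const,
              intervalIntegral.integral_add (hJi 1 1) (hci.intervalIntegrable _ _), hmid, intervalIntegral.integral_const]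
            rw [smul_eq_mul]
            ring
        _ ≤ _ := by
            have h3 : 8 * Lm ^ 3 * x * (2 * Real.log (1 + T)) ≤ 8 * Lm ^ 3 * x * (2 * Lm) := by gcongr
            have h4 : 0 ≤ T ^ 2 * U ^ 2 * Lm ^ 3 := by positivity
            have h5 : 8 * Lm ^ 3 * x * (2 * Lm) = 16 * Lm ^ 4 * x := by ring
            rw [Nat.cast_one]
            linarith
    · rw [if_neg (by omega), add_zero]
      have hχ1 : χ ≠ 1 := prim_ne_one h2 hχ
      calc (∫ ξ in (-T)..T, ‖QS f χ M x ξ‖) ≤ ∫ ξ in (-T)..T, (J f χ ξ + 50 * f * T * U ^ 2 * Lm ^ 3) := by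
            apply intervalIntegral.integral_mono_on (by linarith) (hQi f χ)
            · exact (hJi f χ).add intervalIntegrable_const
            · intro ξ hξ
              refine (QS_ne_one hχ1 U M hU1 hx hxM hT (hmem ξ hξ)).trans ?_
              have := II_point f χ U M hx hxM ξ
              simp only [hJ]
              linarith
        _ = _ := by
            rw [intervalIntegral.integral_add (hJi f χ) intervalIntegrable_const, intervalIntegral.integral_const, smul_eq_mul]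
            ring
  have hterm : ∀ f ∈ Icc 1 R, ((f : ℝ) / (Nat.totient f : ℝ)) * ∑ χ ∈ Prim f, (∫ ξ in (-T)..T, ‖QS f χ M x ξ‖) ≤
      ((f : ℝ) / (Nat.totient f : ℝ)) * (∑ χ ∈ Prim f, ∫ ξ in (-T)..T, J f χ ξ) + 100 * (R : ℝ) ^ 2 * T ^ 2 * U ^ 2 * Lm ^ 3 + (if f = 1 then 16 * Lm ^ 4 * x else 0) := by
    intro f hf
    have hf' := hf
    rw [mem_Icc] at hf'
    have hφ : (0 : ℝ) < Nat.totient f := by exact_mod_cast Nat.totient_pos.2 hf'.1
    have hf1 : (1 : ℝ) ≤ f := by exact_mod_cast hf'.1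
    have hfR : (f : ℝ) ≤ R := by exact_mod_cast hf'.2
    have hw : 0 ≤ (f : ℝ) / (Nat.totient f : ℝ) := by positivity
    calc ((f : ℝ) / (Nat.totient f : ℝ)) * ∑ χ ∈ Prim f, (∫ ξ in (-T)..T, ‖QS f χ M x ξ‖) ≤
          ((f : ℝ) / (Nat.totient f : ℝ)) * ∑ χ ∈ Prim f, ((∫ ξ in (-T)..T, J f χ ξ) + 100 * f * T ^ 2 * U ^ 2 * Lm ^ 3 +
      (if f = 1 then 16 * Lm ^ 4 * x else 0)) := mul_le_mul_of_nonneg_left (sum_le_sum (hne f hf)) hw
      _ = ((f : ℝ) / (Nat.totient f : ℝ)) * (∑ χ ∈ Prim f, ∫ ξ in (-T)..T, J f χ ξ) +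
          ((f : ℝ) / (Nat.totient f : ℝ)) * ((Prim f).card * (100 * f * T ^ 2 * U ^ 2 * Lm ^ 3)) +
          ((f : ℝ) / (Nat.totient f : ℝ)) * ((Prim f).card * (if f = 1 then 16 * Lm ^ 4 * x else 0)) := by
          rw [sum_add_distrib, sum_add_distrib, sum_const, sum_const, nsmul_eq_mul, nsmul_eq_mul]
          ring
      _ ≤ _ := by
          have hc := card_prim_le hf'.1
          have h1 : ((f : ℝ) / (Nat.totient f : ℝ)) * (Prim f).card ≤ f := by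
            rw [div_mul_eq_mul_div, div_le_iff₀ hφ]
            exact mul_le_mul_of_nonneg_left hc (by linarith)
          have h2 : ((f : ℝ) / (Nat.totient f : ℝ)) * ((Prim f).card * (100 * f * T ^ 2 * U ^ 2 * Lm ^ 3)) ≤ 100 * (R : ℝ) ^ 2 * T ^ 2 * U ^ 2 * Lm ^ 3 := by
            calc ((f : ℝ) / (Nat.totient f : ℝ)) * ((Prim f).card * (100 * f * T ^ 2 * U ^ 2 * Lm ^ 3)) =
                  (((f : ℝ) / (Nat.totient f : ℝ)) * (Prim f).card) * (100 * f * T ^ 2 * U ^ 2 * Lm ^ 3) := by ring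
              _ ≤ f * (100 * f * T ^ 2 * U ^ 2 * Lm ^ 3) := mul_le_mul_of_nonneg_right h1 (by positivity)
              _ ≤ R * (100 * R * T ^ 2 * U ^ 2 * Lm ^ 3) := by gcongr
              _ = _ := by ring
          have h3 : ((f : ℝ) / (Nat.totient f : ℝ)) * ((Prim f).card * (if f = 1 then 16 * Lm ^ 4 * x else 0)) ≤ (if f = 1 then 16 * Lm ^ 4 * x else 0) := by
            split_ifs with h4
            · rw [← mul_assoc]
              have h5 : ((f : ℝ) / (Nat.totient f : ℝ)) * (Prim f).card ≤ 1 := by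
                rw [h4] at h1
                rw [h4]
                simpa using h1
              calc _ ≤ 1 * (16 * Lm ^ 4 * x) := mul_le_mul_of_nonneg_right h5 (by positivity)
                _ = _ := one_mul _
            · simp
          linarith
  have hII := II_mean R M U hT hU hx
  calc ∑ f ∈ Icc 1 R, ((f : ℝ) / (Nat.totient f : ℝ)) * ∑ χ ∈ Prim f, (∫ ξ in (-T)..T, ‖QS f χ M x ξ‖) ≤
        ∑ f ∈ Icc 1 R, (((f : ℝ) / (Nat.totient f : ℝ)) * (∑ χ ∈ Prim f, ∫ ξ in (-T)..T, J f χ ξ) + 100 * (R : ℝ) ^ 2 * T ^ 2 * U ^ 2 * Lm ^ 3 +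
        (if f = 1 then 16 * Lm ^ 4 * x else 0)) := sum_le_sum hterm
    _ = ∑ f ∈ Icc 1 R, ((f : ℝ) / (Nat.totient f : ℝ)) * (∑ χ ∈ Prim f, ∫ ξ in (-T)..T, J f χ ξ) + R * (100 * (R : ℝ) ^ 2 * T ^ 2 * U ^ 2 * Lm ^ 3) +
        16 * Lm ^ 4 * x := by
        rw [sum_add_distrib, sum_add_distrib, sum_const, nsmul_eq_mul, Nat.card_Icc, sum_ite_eq', if_pos (by rw [mem_Icc]; omega)]
        simp
    _ ≤ 240 * Lm ^ 4 * x + R * (100 * (R : ℝ) ^ 2 * T ^ 2 * U ^ 2 * Lm ^ 3) + 16 * Lm ^ 4 * x := by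
        have : ∑ f ∈ Icc 1 R, ((f : ℝ) / (Nat.totient f : ℝ)) * (∑ χ ∈ Prim f, ∫ ξ in (-T)..T, J f χ ξ) ≤ 240 * Lm ^ 4 * x := hII
        linarith
    _ ≤ _ := by
        have : 0 ≤ T ^ 2 * U ^ 2 * (R : ℝ) ^ 3 * Lm ^ 3 := by positivity
        nlinarith

end Pool.Agent.J4H81.PT
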