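import Pool.Agent.J4H81.PT.ZFb

/-!
# Growing prime tuples, all x: the choice of the scale (helper81)
-/

set_option autoImplicit false

namespace Pool.Agent.J4H81.PT.ZF

open Complex Filter Topology Set Metric
open Pool.Agent.Y755.FK (S_LD S_ZFR)
open Pool.Agent.Y568.FK (t_LD)
open Pool.Agent.Y960.FK (t_ZFR)
open DirichletCharacter

/-- a real zero of a real primitive character -/
def ExZ (q : ℕ) [NeZero q] (χ : DirichletCharacter ℂ q) (β : ℝ) : Prop :=
  χ.IsPrimitive ∧ χ ≠ 1 ∧ χ ^ 2 = 1 ∧ β < 1 ∧ LFunction χ β = 0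

theorem scales : ∃ c : ℝ, 0 < c ∧ c ≤ 1 ∧
    (∀ l : ℝ, 1 ≤ l → NoZ c l ∨ ∃ (q : ℕ) (_ : NeZero q) (χ : DirichletCharacter ℂ q) (β : ℝ),
      ExZ q χ β ∧ Real.log q ≤ l ∧ 1 - c / l ≤ β) ∧
    (∀ l : ℝ, 1 ≤ l → ∀ (q₁ q₂ : ℕ) [NeZero q₁] [NeZero q₂] (χ₁ : DirichletCharacter ℂ q₁) (χ₂ : DirichletCharacter ℂ q₂) (β₁ β₂ : ℝ),
      ExZ q₁ χ₁ β₁ → ExZ q₂ χ₂ β₂ → Real.log q₁ ≤ l → Real.log q₂ ≤ l → 1 - 2 * c / l ≤ β₁ → 1 - 2 * c / l ≤ β₂ →
      ∃ h : q₁ = q₂, h ▸ χ₁ = χ₂) := by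
  obtain ⟨c₁, hc₁, hc₁', hcomplex⟩ := zf_complex
  obtain ⟨c₂, hc₂, hc₂', hLP⟩ := landau_page
  obtain ⟨c₃, hc₃, hreal⟩ := t_ZFR t_LD
  set c : ℝ := min (c₁) (min (c₂ / 2) (c₃ / 4)) with hc
  have hc0 : 0 < c := lt_min hc₁ (lt_min (by linarith) (by linarith))
  have hcc1 : c ≤ c₁ := min_le_left _ _
  have hcc2 : c ≤ c₂ / 2 := (min_le_right _ _).trans (min_le_left _ _)
  have hcc3 : c ≤ c₃ / 4 := (min_le_right _ _).trans (min_le_right _ _)
  refine ⟨c, hc0, by linarith, ?_, ?_⟩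
  · intro l hl
    by_cases hn : NoZ c l
    · exact Or.inl hn
    right
    unfold NoZ at hn
    push Not at hn
    obtain ⟨f, hf0, χ, hp, h1, hfl, s, hs1, hs2, hs3⟩ := hn
    have hl0 : 0 < l := by linarith
    have hsq : χ ^ 2 = 1 := by
      by_contra hcon
      refine hcomplex l hl f χ hfl hcon s ?_ hs2 hs3
      have : c / l ≤ c₁ / l := by gcongr
      linarith
    have hexp2 : 2 ≤ Real.exp l := by
      have := Real.add_one_le_exp l
      linarith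
    obtain ⟨β, hβ1, hβ⟩ := hreal f χ hsq h1 (Real.exp l) hexp2
    have hf1 : (1 : ℝ) ≤ f := by exact_mod_cast Nat.one_le_iff_ne_zero.2 (NeZero.ne f)
    have hlog : Real.log (f * Real.exp l) ≤ 2 * l := by
      rw [Real.log_mul (by linarith) (Real.exp_pos _).ne', Real.log_exp]
      linarith
    have hlog0 : 0 < Real.log (f * Real.exp l) := by
      rw [Real.log_mul (by linarith) (Real.exp_pos _).ne', Real.log_exp]
      have := Real.log_nonneg hf1
      linarith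
    have hs4 : 1 - c₃ / Real.log (f * Real.exp l) ≤ s.re := by
      have h5 : c₃ / (2 * l) ≤ c₃ / Real.log (f * Real.exp l) := by gcongr
      have h6 : c / l ≤ c₃ / (2 * l) := by
        rw [div_le_div_iff₀ hl0 (by linarith)]
        nlinarith
      linarith
    obtain ⟨h7, _⟩ := hβ s hs4 hs2 hs3
    refine ⟨f, hf0, χ, β, ⟨hp, h1, hsq, hβ1, ?_⟩, hfl, ?_⟩
    · rw [← h7]; exact hs3
    · have : s.re = β := by rw [h7]; simp
      rw [← this]; exact hs1
  · intro l hl q₁ q₂ _ _ χ₁ χ₂ β₁ β₂ h₁ h₂ hq₁ hq₂ hβ₁ hβ₂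
    by_contra hne
    obtain ⟨p₁, n₁, r₁, _, z₁⟩ := h₁
    obtain ⟨p₂, n₂, r₂, _, z₂⟩ := h₂
    have h5 : 2 * c / l ≤ c₂ / l := by gcongr; linarith
    exact hLP l hl q₁ q₂ χ₁ χ₂ p₁ p₂ n₁ n₂ r₁ r₂ hq₁ hq₂ hne β₁ β₂ z₁ z₂ (by linarith) (by linarith)

/-- the choice of the scale: either a good scale in a long range, or a very strong exceptional zero with a small modulus -/
theorem scale_choice : ∃ c l₀ : ℝ, 0 < c ∧ c ≤ 1 ∧ 1 ≤ l₀ ∧ ∀ l : ℝ, l₀ ≤ l → ∀ m : ℝ, 1 ≤ m → 2 * m ≤ l →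
    (∃ g : ℝ, m ≤ g ∧ g ≤ l * Real.log l ^ 3 ∧ NoZ c g) ∨
    ∃ (q : ℕ) (_ : NeZero q) (χ : DirichletCharacter ℂ q) (β : ℝ), ExZ q χ β ∧ Real.log q ≤ 2 * m ∧
      1 - β ≤ 1 / (l * Real.log l ^ 2) := by
  obtain ⟨c, hc, hc1, hA, hB⟩ := scales
  obtain ⟨L, hL⟩ := (Real.tendsto_log_atTop.eventually (eventually_ge_atTop (1 / c + 1))).exists_forall_of_atTop
  refine ⟨c, max L 3, hc, hc1, (by norm_num : (1 : ℝ) ≤ 3).trans (le_max_right _ _), ?_⟩
  intro l hl m hm1 hml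
  have hlog := hL l ((le_max_left _ _).trans hl)
  have hl3 : 3 ≤ l := (le_max_right _ _).trans hl
  have hl0 : 0 < l := by linarith
  have hlog1 : 1 < Real.log l := by
    have : 0 < 1 / c := by positivity
    linarith
  have hlogc : 1 ≤ c * Real.log l := by
    have h1 : 1 / c ≤ Real.log l := by linarith
    rw [div_le_iff₀ hc] at h1
    linarith
  set l₂ : ℝ := l * Real.log l ^ 3 with hl₂
  have hp2 : 1 ≤ Real.log l ^ 2 := one_le_pow₀ hlog1.le
  have hp3 : 1 ≤ Real.log l ^ 3 := one_le_pow₀ hlog1.le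
  have hll₂ : l ≤ l₂ := le_mul_of_one_le_right hl0.le hp3
  have hl₂0 : 0 < l₂ := by linarith
  have hquot : c / l₂ ≤ 1 / (l * Real.log l ^ 2) := by
    rw [div_le_div_iff₀ hl₂0 (by positivity), one_mul, hl₂]
    calc c * (l * Real.log l ^ 2) ≤ 1 * (l * Real.log l ^ 3) := by
          apply mul_le_mul hc1 _ (by positivity) zero_le_one
          apply mul_le_mul_of_nonneg_left _ hl0.le
          exact pow_le_pow_right₀ hlog1.le (by norm_num)
      _ = _ := one_mul _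
  have hquot2 : 1 / (l * Real.log l ^ 2) ≤ c / l := by
    rw [div_le_div_iff₀ (by positivity) hl0, one_mul]
    calc l = l * 1 := (mul_one l).symm
      _ ≤ l * (c * Real.log l ^ 2) := by
          apply mul_le_mul_of_nonneg_left _ hl0.le
          nlinarith
      _ = _ := by ring
  -- the half scale below the logarithm of an exceptional modulus is good
  have half : ∀ (q : ℕ) [NeZero q] (χ : DirichletCharacter ℂ q) (β : ℝ), ExZ q χ β → 2 ≤ Real.log q →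
      1 - β ≤ c / Real.log q → NoZ c (Real.log q / 2) := by
    intro q _ χ β hex hq2 hβ
    rcases hA (Real.log q / 2) (by linarith) with h | ⟨q₂, i₂, χ₂, β₂, hex₂, hq₂, hβ₂⟩
    · exact h
    exfalso
    have hq0 : 0 < Real.log q := by linarith
    obtain ⟨h, _⟩ := hB (Real.log q) (by linarith) q q₂ χ χ₂ β β₂ hex hex₂ le_rfl (by linarith) (by
      have : 2 * c / Real.log q = c / Real.log q + c / Real.log q := by ring
      have : 0 < c / Real.log q := by positivity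
      linarith) (by
      have : c / (Real.log q / 2) = 2 * c / Real.log q := by field_simp
      linarith)
    rw [← h] at hq₂
    linarith
  -- the case of a very strong zero
  have strong : ∀ (q : ℕ) [NeZero q] (χ : DirichletCharacter ℂ q) (β : ℝ), ExZ q χ β → Real.log q ≤ l →
      1 - β ≤ 1 / (l * Real.log l ^ 2) → (∃ g : ℝ, m ≤ g ∧ g ≤ l₂ ∧ NoZ c g) ∨
      ∃ (q : ℕ) (_ : NeZero q) (χ : DirichletCharacter ℂ q) (β : ℝ), ExZ q χ β ∧ Real.log q ≤ 2 * m ∧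
      1 - β ≤ 1 / (l * Real.log l ^ 2) := by
    intro q i χ β hex hql hβ
    rcases le_or_gt (Real.log q) (2 * m) with h | h
    · exact Or.inr ⟨q, i, χ, β, hex, h, hβ⟩
    · left
      refine ⟨Real.log q / 2, by linarith, by linarith, half q χ β hex (by linarith) ?_⟩
      refine (hβ.trans hquot2).trans ?_
      exact div_le_div_of_nonneg_left hc.le (by linarith) hql
  rcases hA l (by linarith) with h | ⟨q₁, i₁, χ₁, β₁, hex₁, hq₁, hβ₁⟩
  · exact Or.inl ⟨l, by linarith, hll₂, h⟩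
  rcases le_or_gt (1 - β₁) (1 / (l * Real.log l ^ 2)) with hs | hw
  · exact strong q₁ χ₁ β₁ hex₁ hq₁ hs
  rcases hA l₂ (by linarith) with h | ⟨q₂, i₂, χ₂, β₂, hex₂, hq₂, hβ₂⟩
  · exact Or.inl ⟨l₂, by linarith, le_rfl, h⟩
  have hβ₂' : 1 - β₂ ≤ 1 / (l * Real.log l ^ 2) := by linarith
  rcases le_or_gt (Real.log q₂) l with h | h
  · exact strong q₂ χ₂ β₂ hex₂ h hβ₂'
  · left
    refine ⟨Real.log q₂ / 2, by linarith, by linarith, half q₂ χ₂ β₂ hex₂ (by linarith) ?_⟩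
    have h1 : 1 - β₂ ≤ c / l₂ := by linarith
    refine h1.trans ?_
    exact div_le_div_of_nonneg_left hc.le (by linarith) hq₂

end Pool.Agent.J4H81.PT.ZF
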