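import Mathlib

/-!
# Growing prime tuples, all x: power sums (helper81)
-/

set_option autoImplicit false

namespace Pool.Agent.J4H81.PT.DH

open Complex Finset

/-- the Fejer sum -/
noncomputable def Fj (J : ℕ) (z : ℂ) : ℝ := ∑ j ∈ Icc 1 J, (1 - (j : ℝ) / (J + 1)) * (z ^ j).re

theorem circle_sq {z : ℂ} (hz : ‖z‖ = 1) (J : ℕ) :
    ‖∑ m ∈ range (J + 1), z ^ m‖ ^ 2 = (J + 1) + 2 * ∑ j ∈ Icc 1 J, ((J : ℝ) + 1 - j) * (z ^ j).re := by
  have hzz : z * (starRingEnd ℂ) z = 1 := by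
    rw [Complex.mul_conj, Complex.normSq_eq_norm_sq, hz]; simp
  induction J with
  | zero => simp
  | succ J ih =>
    rw [sum_range_succ]
    have h1 : ‖∑ m ∈ range (J + 1), z ^ m + z ^ (J + 1)‖ ^ 2 = ‖∑ m ∈ range (J + 1), z ^ m‖ ^ 2 + 1 +
        2 * ((∑ m ∈ range (J + 1), z ^ m) * (starRingEnd ℂ) (z ^ (J + 1))).re := by
      rw [← Complex.normSq_eq_norm_sq, ← Complex.normSq_eq_norm_sq, Complex.normSq_add]
      have : Complex.normSq (z ^ (J + 1)) = 1 := by
        rw [Complex.normSq_eq_norm_sq, norm_pow, hz]; simp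
      rw [this]
    have h2 : ((∑ m ∈ range (J + 1), z ^ m) * (starRingEnd ℂ) (z ^ (J + 1))).re = ∑ j ∈ Icc 1 (J + 1), (z ^ j).re := by
      have e : ∀ m ∈ range (J + 1), z ^ m * (starRingEnd ℂ) (z ^ (J + 1)) = (starRingEnd ℂ) (z ^ (J + 1 - m)) := by
        intro m hm
        rw [mem_range] at hm
        have e1 : z ^ (J + 1) = z ^ m * z ^ (J + 1 - m) := by rw [← pow_add]; congr 1; omega
        rw [e1, map_mul, ← mul_assoc, map_pow (starRingEnd ℂ) z m, ← mul_pow, hzz, one_pow, one_mul]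
      rw [sum_mul, sum_congr rfl e, Complex.re_sum]
      refine sum_nbij' (fun m => J + 1 - m) (fun j => J + 1 - j) ?_ ?_ ?_ ?_ ?_
      · intro m hm; rw [mem_range] at hm; rw [mem_Icc]; omega
      · intro j hj; rw [mem_Icc] at hj; rw [mem_range]; omega
      · intro m hm; rw [mem_range] at hm; omega
      · intro j hj; rw [mem_Icc] at hj; omega
      · intro m _; rw [Complex.conj_re]
    rw [h1, h2, ih]
    have h3 : ∑ j ∈ Icc 1 (J + 1), (((J + 1 : ℕ) : ℝ) + 1 - j) * (z ^ j).re =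
        ∑ j ∈ Icc 1 (J + 1), ((J : ℝ) + 1 - j) * (z ^ j).re + ∑ j ∈ Icc 1 (J + 1), (z ^ j).re := by
      rw [← sum_add_distrib]
      refine sum_congr rfl fun j _ => ?_
      push_cast; ring
    have h4 : ∑ j ∈ Icc 1 (J + 1), ((J : ℝ) + 1 - j) * (z ^ j).re = ∑ j ∈ Icc 1 J, ((J : ℝ) + 1 - j) * (z ^ j).re := by
      rw [sum_Icc_succ_top (by omega)]
      push_cast
      ring
    rw [h3, h4]
    push_cast
    ring

/-- the Fejer sum is at least `-1 / 2` in the disc -/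
theorem fejer_ge (J : ℕ) {z : ℂ} (hz : ‖z‖ ≤ 1) : -(1 / 2) ≤ Fj J z := by
  set p : ℂ → ℂ := fun z => 1 / 2 + ∑ j ∈ Icc 1 J, ((1 - (j : ℝ) / (J + 1) : ℝ) : ℂ) * z ^ j with hp
  have hre : ∀ z, (p z).re = 1 / 2 + Fj J z := by
    intro z
    rw [hp]; unfold Fj
    simp only [Complex.add_re, Complex.re_sum]
    congr 1
    · norm_num
    · refine sum_congr rfl fun j _ => ?_
      rw [Complex.re_ofReal_mul]
  have hJ : (0 : ℝ) < (J : ℝ) + 1 := by positivity
  have hcirc : ∀ z : ℂ, ‖z‖ = 1 → 0 ≤ 1 / 2 + Fj J z := by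
    intro z hz
    have h1 := circle_sq hz J
    have h2 : (J + 1) + 2 * ∑ j ∈ Icc 1 J, ((J : ℝ) + 1 - j) * (z ^ j).re = 2 * ((J : ℝ) + 1) * (1 / 2 + Fj J z) := by
      unfold Fj
      rw [mul_add, mul_sum, mul_sum]
      congr 1
      · ring
      · refine sum_congr rfl fun j _ => ?_
        field_simp
    rw [h2] at h1
    have h3 : 0 ≤ 2 * ((J : ℝ) + 1) * (1 / 2 + Fj J z) := by rw [← h1]; positivity
    exact nonneg_of_mul_nonneg_right h3 (by positivity)
  have hd : Differentiable ℂ (fun z => Complex.exp (-p z)) := by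
    rw [hp]; fun_prop
  have hmax : ‖Complex.exp (-p z)‖ ≤ 1 := by
    refine Complex.norm_le_of_forall_mem_frontier_norm_le (f := fun z => Complex.exp (-p z)) (U := Metric.ball (0 : ℂ) 1) Metric.isBounded_ball
      hd.diffContOnCl ?_ ?_
    · intro w hw
      rw [frontier_ball (0 : ℂ) one_ne_zero, mem_sphere_zero_iff_norm] at hw
      rw [Complex.norm_exp, Complex.neg_re, hre]
      have := hcirc w hw
      exact Real.exp_le_one_iff.2 (by linarith)
    · rw [closure_ball (0 : ℂ) one_ne_zero, mem_closedBall_zero_iff]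
      exact hz
  rw [Complex.norm_exp, Complex.neg_re, hre, Real.exp_le_one_iff] at hmax
  linarith

theorem Fj_one (J : ℕ) : Fj J 1 = J / 2 := by
  unfold Fj
  simp only [one_pow, Complex.one_re, mul_one]
  rw [sum_sub_distrib, sum_const, Nat.card_Icc, ← sum_div]
  have h : ∑ j ∈ Icc 1 J, (j : ℝ) = J * (J + 1) / 2 := by
    induction J with
    | zero => simp
    | succ J ih =>
      rw [sum_Icc_succ_top (by omega), ih]
      push_cast; ring
  rw [h]
  have : (J : ℝ) + 1 ≠ 0 := by positivity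
  field_simp
  simp
  ring

/-- the power sums of a list with a point of modulus one -/
theorem power_unit (L : List ℂ) {w : ℂ} (hw : ‖w‖ = 1) (hL : ∀ z ∈ L, ‖z‖ ≤ 1) {J : ℕ} (hJ : 8 * (L.length + 1) ≤ J) :
    ∃ j, 1 ≤ j ∧ j ≤ J ∧ 1 / 8 ≤ (w ^ j + (L.map (fun z => z ^ j)).sum).re := by
  by_contra hcon
  push Not at hcon
  set c : ℕ → ℝ := fun j => 1 - (j : ℝ) / (J + 1) with hc
  have hc0 : ∀ j ∈ Icc 1 J, 0 ≤ c j := by
    intro j hj
    rw [mem_Icc] at hj
    rw [hc]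
    simp only
    rw [sub_nonneg, div_le_one (by positivity)]
    have : (j : ℝ) ≤ J := by exact_mod_cast hj.2
    linarith
  have hw1 : ∀ j : ℕ, 0 ≤ 1 + (w ^ j).re ∧ 1 + (w ^ j).re ≤ 2 := by
    intro j
    have h1 : |(w ^ j).re| ≤ 1 := by
      refine (Complex.abs_re_le_norm _).trans ?_
      rw [norm_pow, hw, one_pow]
    constructor <;> linarith [(abs_le.1 h1).1, (abs_le.1 h1).2]
  -- the combination for one point
  set Φ : ℂ → ℝ := fun z => Fj J z + 1 / 2 * Fj J (w * z) + 1 / 2 * Fj J ((starRingEnd ℂ) w * z) with hΦ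
  have hΦeq : ∀ z : ℂ, ∑ j ∈ Icc 1 J, c j * (1 + (w ^ j).re) * (z ^ j).re = Φ z := by
    intro z
    rw [hΦ]; unfold Fj
    simp only
    rw [mul_sum, mul_sum, ← sum_add_distrib, ← sum_add_distrib]
    refine sum_congr rfl fun j _ => ?_
    have h1 : ((w * z) ^ j).re + (((starRingEnd ℂ) w * z) ^ j).re = 2 * ((w ^ j).re * (z ^ j).re) := by
      rw [mul_pow, mul_pow, ← map_pow, Complex.mul_re, Complex.mul_re, Complex.conj_re, Complex.conj_im]
      ring
    rw [hc]
    simp only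
    linear_combination -(1 / 2 * (1 - (j : ℝ) / (J + 1))) * h1
  have hΦge : ∀ z : ℂ, ‖z‖ ≤ 1 → -1 ≤ Φ z := by
    intro z hz
    have h1 := fejer_ge J hz
    have h2 : -(1 / 2) ≤ Fj J (w * z) := fejer_ge J (by rw [norm_mul, hw, one_mul]; exact hz)
    have h3 : -(1 / 2) ≤ Fj J ((starRingEnd ℂ) w * z) := fejer_ge J (by rw [norm_mul, RCLike.norm_conj, hw, one_mul]; exact hz)
    rw [hΦ]; simp only
    linarith
  have hΦw : (J : ℝ) / 4 - 3 / 4 ≤ Φ w := by
    have h1 := fejer_ge J hw.le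
    have h2 : -(1 / 2) ≤ Fj J (w * w) := fejer_ge J (by rw [norm_mul, hw, one_mul])
    have h3 : (starRingEnd ℂ) w * w = 1 := by
      rw [mul_comm, Complex.mul_conj, Complex.normSq_eq_norm_sq, hw]; simp
    rw [hΦ]; simp only
    rw [h3, Fj_one]
    linarith
  have hlist : ∀ L' : List ℂ, (∀ z ∈ L', ‖z‖ ≤ 1) →
      -(L'.length : ℝ) ≤ ∑ j ∈ Icc 1 J, c j * (1 + (w ^ j).re) * ((L'.map (fun z => z ^ j)).sum).re := by
    intro L'
    induction L' with
    | nil => intro _; simp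
    | cons a L' ih =>
      intro h
      have h1 := ih fun z hz => h z (List.mem_cons_of_mem _ hz)
      have h2 := hΦge a (h a (by simp))
      have h3 : ∑ j ∈ Icc 1 J, c j * (1 + (w ^ j).re) * (((a :: L').map (fun z => z ^ j)).sum).re =
          Φ a + ∑ j ∈ Icc 1 J, c j * (1 + (w ^ j).re) * ((L'.map (fun z => z ^ j)).sum).re := by
        rw [← hΦeq a, ← sum_add_distrib]
        refine sum_congr rfl fun j _ => ?_
        rw [List.map_cons, List.sum_cons, Complex.add_re]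
        ring
      rw [h3, List.length_cons]
      push_cast
      linarith
  have hlow : (J : ℝ) / 4 - 3 / 4 - L.length ≤ ∑ j ∈ Icc 1 J, c j * (1 + (w ^ j).re) * (w ^ j + (L.map (fun z => z ^ j)).sum).re := by
    have h1 := hlist L hL
    have h3 : ∑ j ∈ Icc 1 J, c j * (1 + (w ^ j).re) * (w ^ j + (L.map (fun z => z ^ j)).sum).re =
        Φ w + ∑ j ∈ Icc 1 J, c j * (1 + (w ^ j).re) * ((L.map (fun z => z ^ j)).sum).re := by
      rw [← hΦeq w, ← sum_add_distrib]
      refine sum_congr rfl fun j _ => ?_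
      rw [Complex.add_re]
      ring
    rw [h3]
    linarith
  have hup : ∑ j ∈ Icc 1 J, c j * (1 + (w ^ j).re) * (w ^ j + (L.map (fun z => z ^ j)).sum).re ≤ J / 8 := by
    have hsum : ∑ j ∈ Icc 1 J, c j * 2 * (1 / 8) = J / 8 := by
      have := Fj_one J
      unfold Fj at this
      simp only [one_pow, Complex.one_re, mul_one] at this
      rw [← sum_mul, ← sum_mul, hc, this]
      ring
    rw [← hsum]
    apply sum_le_sum
    intro j hj
    have h1 := hc0 j hj
    rw [mem_Icc] at hj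
    have h2 := (hcon j hj.1 hj.2).le
    obtain ⟨h3, h4⟩ := hw1 j
    have h5 : 0 ≤ c j * (1 + (w ^ j).re) := mul_nonneg h1 h3
    calc c j * (1 + (w ^ j).re) * (w ^ j + (L.map (fun z => z ^ j)).sum).re ≤ c j * (1 + (w ^ j).re) * (1 / 8) :=
          mul_le_mul_of_nonneg_left h2 h5
      _ ≤ c j * 2 * (1 / 8) := by gcongr
  have hJ' : 8 * ((L.length : ℝ) + 1) ≤ J := by exact_mod_cast hJ
  linarith

/-- power sums of a list with an element of the largest modulus -/
theorem power_sum (L : List ℂ) {w : ℂ} (hw : w ≠ 0) (hL : ∀ z ∈ L, ‖z‖ ≤ ‖w‖) {J : ℕ} (hJ : 8 * (L.length + 1) ≤ J) :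
    ∃ j, 1 ≤ j ∧ j ≤ J ∧ 1 / 8 * ‖w‖ ^ j ≤ (w ^ j + (L.map (fun z => z ^ j)).sum).re := by
  have hw0 : 0 < ‖w‖ := norm_pos_iff.2 hw
  have hc : ((‖w‖ : ℝ) : ℂ) ≠ 0 := by exact_mod_cast hw0.ne'
  obtain ⟨j, h1, h2, h3⟩ := power_unit (L.map (fun z => z / (‖w‖ : ℂ))) (w := w / (‖w‖ : ℂ)) (by
    rw [norm_div, Complex.norm_real, norm_norm, div_self hw0.ne']) (by
    intro z hz
    rw [List.mem_map] at hz
    obtain ⟨a, ha, rfl⟩ := hz
    rw [norm_div, Complex.norm_real, norm_norm, div_le_one hw0]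
    exact hL a ha) (J := J) (by rw [List.length_map]; exact hJ)
  refine ⟨j, h1, h2, ?_⟩
  have e : w ^ j + (L.map (fun z => z ^ j)).sum = ((‖w‖ ^ j : ℝ) : ℂ) * ((w / (‖w‖ : ℂ)) ^ j + ((L.map (fun z => z / (‖w‖ : ℂ))).map (fun z => z ^ j)).sum) := by
    rw [mul_add]
    congr 1
    · push_cast
      rw [← mul_pow, mul_div_cancel₀ _ hc]
    · rw [List.map_map, ← List.sum_map_mul_left]
      congr 1
      apply List.map_congr_left
      intro z _
      simp only [Function.comp]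
      push_cast
      rw [← mul_pow, mul_div_cancel₀ _ hc]
  rw [e, Complex.re_ofReal_mul, mul_comm]
  exact mul_le_mul_of_nonneg_left h3 (by positivity)

end Pool.Agent.J4H81.PT.DH
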