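import Pool.Agent.J4H81.PT.XBa
import Pool.Agent.Y757.LL.Landau
import Pool.Agent.H437R2.A2

/-!
# Growing prime tuples, all x: the core of the Deuring-Heilbronn phenomenon (helper81)
-/

set_option autoImplicit false

namespace Pool.Agent.J4H81.PT.DH

open Complex Filter Topology Set Metric
open scoped Nat

theorem iter_inv (m : ℕ) (ρ c : ℂ) : iteratedDeriv m (fun z : ℂ => (z - ρ)⁻¹) c = (-1) ^ m * (m ! : ℂ) * ((c - ρ)⁻¹) ^ (m + 1) := by
  rw [iteratedDeriv_eq_iterate]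
  have h := iter_deriv_inv_linear_sub (𝕜 := ℂ) m 1 ρ
  simp only [one_mul, one_pow, mul_one] at h
  rw [h]
  beta_reduce
  congr 1
  rw [inv_pow, ← zpow_natCast, ← zpow_neg]
  congr 1
  push_cast
  ring

theorem cd_inv {ρ c : ℂ} (h : c ≠ ρ) (n : WithTop ℕ∞) : ContDiffAt ℂ n (fun z : ℂ => (z - ρ)⁻¹) c := by
  exact (contDiffAt_id.sub contDiffAt_const).inv (sub_ne_zero.2 h)

theorem cd_list (L : List ℂ) {c : ℂ} (h : ∀ ρ ∈ L, c ≠ ρ) (n : WithTop ℕ∞) :
    ContDiffAt ℂ n (fun z : ℂ => (L.map (fun r => (z - r)⁻¹)).sum) c := by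
  induction L with
  | nil => simp only [List.map_nil, List.sum_nil]; exact contDiffAt_const
  | cons a L ih =>
    simp only [List.map_cons, List.sum_cons]
    exact (cd_inv (h a List.mem_cons_self) n).add (ih fun ρ hρ => h ρ (List.mem_cons_of_mem _ hρ))

theorem iter_list (m : ℕ) (L : List ℂ) {c : ℂ} (h : ∀ ρ ∈ L, c ≠ ρ) :
    iteratedDeriv m (fun z : ℂ => (L.map (fun r => (z - r)⁻¹)).sum) c =
      (-1) ^ m * (m ! : ℂ) * (L.map (fun r => ((c - r)⁻¹) ^ (m + 1))).sum := by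
  induction L with
  | nil =>
    simp only [List.map_nil, List.sum_nil, mul_zero]
    rw [iteratedDeriv_const]
    split_ifs <;> rfl
  | cons a L ih =>
    simp only [List.map_cons, List.sum_cons]
    have h1 := iteratedDeriv_fun_add (n := m) (cd_inv (h a List.mem_cons_self) m) (cd_list L (fun ρ hρ => h ρ (List.mem_cons_of_mem _ hρ)) m)
    rw [h1, ih fun ρ hρ => h ρ (List.mem_cons_of_mem _ hρ), iter_inv]
    ring

/-- the core of the repulsion of zeros -/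
theorem dh_core {G : ℂ → ℂ} (hG : Differentiable ℂ G) {A b : ℝ} (hA : 1 ≤ A) (hb : 0 ≤ b) (hG2 : G 2 ≠ 0)
    (hgrow : ∀ z ∈ closedBall (2 : ℂ) (3 / 2), ‖G z‖ ≤ Real.exp A * ‖G 2‖)
    (hT : ∀ m : ℕ, ((-1) ^ m * iteratedDeriv m (fun z => deriv G z / G z) 2 / (m ! : ℂ)).re ≤ 2 * (m + 1) * b)
    {ρ : ℂ} (hρ : G ρ = 0) {d : ℝ} (hd0 : 0 ≤ d) (hd : d ≤ 1 / 8) (hρd : ‖2 - ρ‖ ≤ 1 + d) :
    1 ≤ 32 * (10 ^ 5 * A * (1 + Real.log A)) * b * Real.exp (d * (10 ^ 5 * A * (1 + Real.log A))) := by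
  have hG0 : 0 < ‖G 2‖ := norm_pos_iff.2 hG2
  obtain ⟨L, H, hL1, hL2, hH, hHne, hfac, hlen, hE⟩ := Pool.Agent.Y757.LL.landau2 G hG 2 (r := 5 / 4) (R1 := 4 / 3) (R2 := 3 / 2)
    (M := Real.exp A * ‖G 2‖) (by norm_num) (by norm_num) (by norm_num) hG2 hgrow
  have hlogM : Real.log (Real.exp A * ‖G 2‖ / ‖G 2‖) = A := by
    rw [mul_div_assoc, div_self hG0.ne', mul_one, Real.log_exp]
  rw [hlogM] at hlen hE
  -- the number of zeros
  have hlog98 : 1 / 9 ≤ Real.log (3 / 2 / (4 / 3)) := by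
    have h1 : (3 / 2 / (4 / 3) : ℝ) = (8 / 9 : ℝ)⁻¹ := by norm_num
    rw [h1, Real.log_inv]
    have h2 := Real.log_le_sub_one_of_pos (show (0 : ℝ) < 8 / 9 by norm_num)
    linarith
  have hn : (L.length : ℝ) ≤ 9 * A := by
    have h1 : (L.length : ℝ) * (1 / 9) ≤ L.length * Real.log (3 / 2 / (4 / 3)) := mul_le_mul_of_nonneg_left hlog98 (Nat.cast_nonneg _)
    linarith
  have hlog8 : |Real.log (4 / 3 / (3 / 2 - 4 / 3))| ≤ 2.1 := by
    have h1 : (4 / 3 / (3 / 2 - 4 / 3) : ℝ) = 2 ^ 3 := by norm_num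
    rw [h1, Real.log_pow, abs_of_nonneg (by positivity)]
    have := Real.log_two_lt_d9
    push_cast
    linarith
  have hEb : ∀ z ∈ closedBall (2 : ℂ) (5 / 4), ‖deriv H z / H z‖ ≤ 40000 * A := by
    intro z hz
    refine (hE z hz).trans ?_
    have h1 : (L.length : ℝ) * |Real.log (4 / 3 / (3 / 2 - 4 / 3))| ≤ 9 * A * 2.1 := mul_le_mul hn hlog8 (abs_nonneg _) (by linarith)
    have h2 : (8 * (4 / 3) / (4 / 3 - 5 / 4) ^ 2 : ℝ) = 1536 := by norm_num
    rw [h2]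
    linarith
  -- the zero nearest to 2
  have hρL : ρ ∈ L := hL2 ρ (by
    rw [mem_closedBall, dist_eq_norm, norm_sub_rev]
    linarith) hρ
  have hLne : ∀ r ∈ L, (2 : ℂ) ≠ r := by
    intro r hr h
    exact hG2 (h ▸ (hL1 r hr).1)
  classical
  obtain ⟨ρ₀, hρ₀, hmin⟩ := L.toFinset.exists_min_image (fun r => ‖2 - r‖) ⟨ρ, List.mem_toFinset.2 hρL⟩
  rw [List.mem_toFinset] at hρ₀
  have hmin' : ∀ r ∈ L, ‖2 - ρ₀‖ ≤ ‖2 - r‖ := fun r hr => hmin r (List.mem_toFinset.2 hr)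
  have hρ₀0 : 0 < ‖2 - ρ₀‖ := norm_pos_iff.2 (sub_ne_zero.2 (hLne ρ₀ hρ₀))
  set w : ℂ := (2 - ρ₀)⁻¹ with hw
  have hwn : ‖w‖ = ‖2 - ρ₀‖⁻¹ := norm_inv _
  have hw0 : 0 < ‖w‖ := by rw [hwn]; positivity
  have hwne : w ≠ 0 := norm_pos_iff.1 hw0
  have hwd : (1 + d)⁻¹ ≤ ‖w‖ := by
    rw [hwn]
    exact inv_anti₀ hρ₀0 ((hmin' ρ hρL).trans hρd)
  have hd1 : 0 < 1 + d := lt_of_lt_of_le (lt_of_lt_of_le hρ₀0 (hmin' ρ hρL)) hρd
  have hw89 : 8 / 9 ≤ ‖w‖ := by
    refine le_trans ?_ hwd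
    rw [le_inv_comm₀ (by norm_num) hd1]
    norm_num
    linarith
  -- the exponent
  set m₀ : ℕ := ⌈10 * Real.log (8 * 10 ^ 5 * A)⌉₊ with hm₀
  have hlogA : 0 ≤ Real.log A := Real.log_nonneg hA
  have hlogbig : 0 < Real.log (8 * 10 ^ 5 * A) := Real.log_pos (by linarith)
  have hm₀1 : 10 * Real.log (8 * 10 ^ 5 * A) ≤ m₀ := Nat.le_ceil _
  have hm₀pos : 1 ≤ m₀ := by
    have : (0 : ℝ) < m₀ := lt_of_lt_of_le (by positivity) hm₀1
    exact_mod_cast this
  have hm₀2 : (m₀ : ℝ) ≤ 160 * (1 + Real.log A) := by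
    have h1 : (m₀ : ℝ) < 10 * Real.log (8 * 10 ^ 5 * A) + 1 := Nat.ceil_lt_add_one (by positivity)
    have h2 : Real.log (8 * 10 ^ 5 * A) = Real.log (8 * 10 ^ 5) + Real.log A := Real.log_mul (by norm_num) (by linarith)
    have h3 : Real.log (8 * 10 ^ 5) ≤ 15 := by
      rw [Real.log_le_iff_le_exp (by norm_num)]
      have h4 : Real.exp 15 = Real.exp 1 ^ 15 := by rw [← Real.exp_nat_mul]; norm_num
      rw [h4]
      have h5 : (2.7 : ℝ) ^ 15 ≤ Real.exp 1 ^ 15 := pow_le_pow_left₀ (by norm_num) (by have := Real.exp_one_gt_d9; linarith) 15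
      refine le_trans ?_ h5
      norm_num
    rw [h2] at h1
    linarith
  set L' : List ℂ := (L.erase ρ₀).map (fun r => ((2 - r)⁻¹) ^ m₀) with hL'
  have hperm := List.perm_cons_erase hρ₀
  have hL'len : L'.length + 1 = L.length := by
    rw [hL', List.length_map, hperm.length_eq, List.length_cons]
  obtain ⟨j, hj1, hj2, hj3⟩ := power_sum L' (w := w ^ m₀) (pow_ne_zero _ hwne) (by
    intro z hz
    rw [hL', List.mem_map] at hz
    obtain ⟨r, hr, rfl⟩ := hz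
    have hrL : r ∈ L := List.mem_of_mem_erase hr
    rw [norm_pow, norm_pow, norm_inv, hwn]
    apply pow_le_pow_left₀ (by positivity)
    exact inv_anti₀ hρ₀0 (hmin' r hrL)) (J := 8 * L.length) (by rw [hL'len])
  set M : ℕ := m₀ * j with hM
  have hM1 : 1 ≤ M := Nat.mul_pos hm₀pos hj1
  obtain ⟨m, hm⟩ : ∃ m, M = m + 1 := ⟨M - 1, by omega⟩
  have hsum : (w ^ m₀) ^ j + (L'.map (fun z => z ^ j)).sum = (L.map (fun r => ((2 - r)⁻¹) ^ (m + 1))).sum := by
    rw [(hperm.map (fun r => ((2 - r)⁻¹) ^ (m + 1))).sum_eq, List.map_cons, List.sum_cons, ← hm, hM, ← pow_mul, hL', List.map_map]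
    congr 2
    apply List.map_congr_left
    intro r _
    simp only [Function.comp_apply]
    rw [← pow_mul]
  rw [hsum, norm_pow, ← pow_mul, ← hM] at hj3
  -- the logarithmic derivative
  have hEv : (fun z => deriv G z / G z) =ᶠ[𝓝 2] fun z => (L.map (fun r => (z - r)⁻¹)).sum + deriv H z / H z := by
    filter_upwards [hG.continuous.continuousAt.eventually_ne hG2] with z hz
    exact Pool.Agent.H437R2.logDeriv_factor L G H hH hfac hz
  have hHd : DifferentiableOn ℂ (fun z => deriv H z / H z) (ball (2 : ℂ) (4 / 3)) := by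
    intro z hz
    have h1 : DifferentiableAt ℂ (deriv H) z := (hH.analyticAt z).deriv.differentiableAt
    exact (h1.div (hH z) (hHne z (ball_subset_closedBall hz))).differentiableWithinAt
  have hHan : AnalyticAt ℂ (fun z => deriv H z / H z) 2 := hHd.analyticAt (isOpen_ball.mem_nhds (mem_ball_self (by norm_num)))
  have hTm := hT m
  rw [hEv.iteratedDeriv_eq, iteratedDeriv_fun_add (cd_list L hLne m) hHan.contDiffAt, iter_list m L hLne] at hTm
  have hfac0 : (m ! : ℂ) ≠ 0 := by exact_mod_cast m.factorial_ne_zero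
  have hsq : ((-1 : ℂ) ^ m) * (-1) ^ m = 1 := by
    rw [← mul_pow]; norm_num
  have e1 : (-1) ^ m * ((-1) ^ m * (m ! : ℂ) * (L.map (fun r => ((2 - r)⁻¹) ^ (m + 1))).sum + iteratedDeriv m (fun z => deriv H z / H z) 2) / (m ! : ℂ) =
      (L.map (fun r => ((2 - r)⁻¹) ^ (m + 1))).sum + (-1) ^ m * iteratedDeriv m (fun z => deriv H z / H z) 2 / (m ! : ℂ) := by
    rw [mul_add, add_div]
    congr 1
    rw [show (-1 : ℂ) ^ m * ((-1) ^ m * (m ! : ℂ) * (L.map (fun r => ((2 - r)⁻¹) ^ (m + 1))).sum) =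
      ((-1) ^ m * (-1) ^ m) * ((m ! : ℂ) * (L.map (fun r => ((2 - r)⁻¹) ^ (m + 1))).sum) by ring, hsq, one_mul, mul_div_cancel_left₀ _ hfac0]
  rw [e1, add_re] at hTm
  have hErr : ‖(-1) ^ m * iteratedDeriv m (fun z => deriv H z / H z) 2 / (m ! : ℂ)‖ ≤ 40000 * A / (5 / 4) ^ m := by
    rw [norm_div, norm_mul, norm_pow, norm_neg, norm_one, one_pow, one_mul, Complex.norm_natCast, div_le_iff₀ (by exact_mod_cast m.factorial_pos)]
    refine (Complex.norm_iteratedDeriv_le_of_forall_mem_sphere_norm_le m (show (0 : ℝ) < 5 / 4 by norm_num) ?_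
      (fun z hz => hEb z (sphere_subset_closedBall hz))).trans (le_of_eq (by ring))
    apply DifferentiableOn.diffContOnCl
    apply hHd.mono
    rw [closure_ball _ (by norm_num)]
    exact closedBall_subset_ball (by norm_num)
  have hErr2 := (abs_le.1 ((Complex.abs_re_le_norm _).trans hErr)).1
  -- the error is small
  have hsmall : 40000 * A / (5 / 4) ^ m ≤ 1 / 16 * ‖w‖ ^ M := by
    have h1 : (8 / 9 : ℝ) ^ M ≤ ‖w‖ ^ M := pow_le_pow_left₀ (by norm_num) hw89 M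
    have h2 : (9 / 10 : ℝ) ^ M ≤ 1 / (8 * 10 ^ 5 * A) := by
      have h3 : (9 / 10 : ℝ) ^ M ≤ (9 / 10 : ℝ) ^ m₀ := pow_le_pow_of_le_one (by norm_num) (by norm_num) (Nat.le_mul_of_pos_right _ hj1)
      refine h3.trans ?_
      have h4 : (9 / 10 : ℝ) ≤ Real.exp (-(1 / 10)) := by
        have := Real.add_one_le_exp (-(1 / 10) : ℝ)
        linarith
      have h41 : (m₀ : ℝ) * (-(1 / 10)) ≤ -Real.log (8 * 10 ^ 5 * A) := by
        have h42 : (m₀ : ℝ) * (-(1 / 10)) = -(m₀ / 10) := by ring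
        rw [h42, neg_le_neg_iff, le_div_iff₀ (by norm_num)]
        linarith only [hm₀1]
      calc (9 / 10 : ℝ) ^ m₀ ≤ Real.exp (-(1 / 10)) ^ m₀ := pow_le_pow_left₀ (by norm_num) h4 m₀
        _ = Real.exp (m₀ * (-(1 / 10))) := (Real.exp_nat_mul _ _).symm
        _ ≤ Real.exp (-Real.log (8 * 10 ^ 5 * A)) := Real.exp_le_exp.2 h41
        _ = 1 / (8 * 10 ^ 5 * A) := by rw [Real.exp_neg, Real.exp_log (by linarith), one_div]
    have h5 : (1 : ℝ) / (5 / 4) ^ m = (5 / 4) * ((9 / 10) ^ M * (8 / 9) ^ M) := by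
      rw [← mul_pow, hm, pow_succ]
      have : (9 / 10 * (8 / 9) : ℝ) = (5 / 4)⁻¹ := by norm_num
      rw [this, inv_pow]
      field_simp
    have h6 : 40000 * A / (5 / 4) ^ m = 40000 * A * (1 / (5 / 4) ^ m) := by ring
    rw [h6, h5]
    have hA0 : 0 < A := by linarith
    calc 40000 * A * (5 / 4 * ((9 / 10) ^ M * (8 / 9) ^ M)) ≤ 40000 * A * (5 / 4 * (1 / (8 * 10 ^ 5 * A) * ‖w‖ ^ M)) := by gcongr
      _ = 1 / 16 * ‖w‖ ^ M := by field_simp; norm_num
  have hkey : 1 / 16 * ‖w‖ ^ M ≤ 2 * M * b := by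
    have hMr : (M : ℝ) = m + 1 := by rw [hm]; push_cast; ring
    rw [hMr]
    linarith
  -- the size of the exponent
  set Λ : ℝ := 10 ^ 5 * A * (1 + Real.log A) with hΛ
  have hMΛ : (M : ℝ) ≤ Λ := by
    have hj2' : (j : ℝ) ≤ 8 * L.length := by exact_mod_cast hj2
    have hj3' : (j : ℝ) ≤ 72 * A := by linarith
    have e : (M : ℝ) = m₀ * j := by rw [hM]; push_cast; ring
    rw [e, hΛ]
    calc (m₀ : ℝ) * j ≤ (160 * (1 + Real.log A)) * (72 * A) := mul_le_mul hm₀2 hj3' (Nat.cast_nonneg _) (by positivity)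
      _ = 11520 * (A * (1 + Real.log A)) := by ring
      _ ≤ 10 ^ 5 * (A * (1 + Real.log A)) := by
          apply mul_le_mul_of_nonneg_right (by norm_num)
          apply mul_nonneg (by linarith) (by linarith)
      _ = _ := by ring
  have hwM : Real.exp (-(d * M)) ≤ ‖w‖ ^ M := by
    have h1 : Real.exp (-(d * M)) = (Real.exp d)⁻¹ ^ M := by
      rw [← Real.exp_neg, ← Real.exp_nat_mul]
      congr 1
      ring
    rw [h1]
    apply pow_le_pow_left₀ (by positivity)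
    refine le_trans ?_ hwd
    apply inv_anti₀ hd1
    have := Real.add_one_le_exp d
    linarith
  have h1 : Real.exp (-(d * M)) ≤ 32 * M * b := by linarith
  have h2 : 1 ≤ 32 * M * b * Real.exp (d * M) := by
    have h3 := mul_le_mul_of_nonneg_right h1 (Real.exp_pos (d * M)).le
    rw [← Real.exp_add] at h3
    simpa using h3
  refine h2.trans ?_
  have h3 : Real.exp (d * M) ≤ Real.exp (d * Λ) := Real.exp_le_exp.2 (mul_le_mul_of_nonneg_left hMΛ hd0)
  have h4 : 32 * (M : ℝ) * b ≤ 32 * Λ * b := by gcongr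
  exact mul_le_mul h4 h3 (Real.exp_pos _).le (by positivity)

end Pool.Agent.J4H81.PT.DH
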