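import Pool.Agent.J4H81.PT.XCa
import Pool.Agent.J4H81.PT.SHb

/-!
# Growing prime tuples, all x: the smoothed sums in a region of general width (helper81)
-/

set_option autoImplicit false

namespace Pool.Agent.J4H81.PT.ZF

open Complex Filter Topology Set MeasureTheory Metric
open scoped Interval
open DirichletCharacter
open Pool.Agent.H807R2.Dav (ee norm_ee ee_add ee_zero)

/-- the regular part of zeta -/
theorem zeta0_x : ∃ C : ℝ, 1 ≤ C ∧ ∀ l a d : ℝ, 4 ≤ l → 0 ≤ d → d ≤ 1 / 4 → 0 ≤ a → d * (2 * l + 1) ≤ a → ∀ s : ℂ, 1 - d ≤ s.re →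
    Real.log (|s.im| + 2) ≤ l → s.re ≤ 2 → ‖riemannZeta₀ s‖ ≤ C * l * Real.exp a := by
  obtain ⟨D, hD⟩ := (isCompact_closedBall (1 : ℂ) 1).exists_bound_of_continuousOn differentiable_riemannZeta₀.continuous.continuousOn
  refine ⟨|D| + 8, ?_, ?_⟩
  · have := abs_nonneg D
    linarith
  intro l a d hl hd0 hd4 ha0 had s hs1 htl hs2
  have hl0 : 0 < l := by linarith
  have hea : 1 ≤ Real.exp a := Real.one_le_exp ha0
  have hD0 := abs_nonneg D
  rcases le_or_gt ‖s - 1‖ 1 with hcase | hcase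
  · have h1 : ‖riemannZeta₀ s‖ ≤ |D| := (hD s (by rw [mem_closedBall, dist_eq_norm]; exact hcase)).trans (le_abs_self D)
    have h2 : |D| ≤ |D| * l := le_mul_of_one_le_right hD0 (by linarith)
    have h3 : 0 ≤ 8 * l := by positivity
    have h4 : (|D| + 8) * l ≤ (|D| + 8) * l * Real.exp a := le_mul_of_one_le_right (by positivity) hea
    nlinarith only [h1, h2, h3, h4]
  · have hne : s ≠ 1 := by
      rintro rfl
      simp at hcase
      linarith
    have hz0 : riemannZeta₀ s = riemannZeta s - (s - 1)⁻¹ := by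
      rw [riemannZeta_eq_inv_sub_add hne]; ring
    set Q : ℝ := |s.im| + 2 with hQdef
    have hQ : 1 ≤ Q := by
      have := abs_nonneg s.im
      rw [hQdef]
      linarith
    have hσ : 3 / 4 ≤ s.re := by linarith
    have hσ0 : 0 < s.re := by linarith
    obtain ⟨h1, h2, h3⟩ := Pool.Agent.H378R2.M1.ceil_bounds hQ
    set N := ⌈Q ^ 2⌉₊ with hN
    have hN0 : 0 < N := h1
    have hNr : (0 : ℝ) < N := by exact_mod_cast h1
    have hlogN : Real.log N ≤ 2 * l + 1 := by
      calc Real.log N ≤ Real.log (2 * Q ^ 2) := Real.log_le_log hNr h3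
        _ = Real.log 2 + 2 * Real.log Q := by
            rw [Real.log_mul (by norm_num) (by positivity), Real.log_pow]; push_cast; ring
        _ ≤ 2 * l + 1 := by
            have := Real.log_two_lt_d9
            linarith
    have hlogN0 : 0 ≤ Real.log N := Real.log_nonneg (by exact_mod_cast h1)
    have ha3 : (1 - s.re) * Real.log N ≤ a := by
      calc (1 - s.re) * Real.log N ≤ d * Real.log N := by gcongr; linarith
        _ ≤ d * (2 * l + 1) := by gcongr
        _ ≤ a := had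
    have hz := Pool.Agent.H307R2.zeta_eq h1 hσ0 hne
    have hA : ‖∑ n ∈ Finset.Icc 1 N, (n : ℂ) ^ (-s)‖ ≤ Real.exp a * (2 * l + 2) := by
      calc ‖∑ n ∈ Finset.Icc 1 N, (n : ℂ) ^ (-s)‖
          ≤ ∑ n ∈ Finset.Icc 1 N, (n : ℝ) ^ (-s.re) := by
            refine norm_sum_le_of_le _ fun n hn => ?_
            rw [Finset.mem_Icc] at hn
            have hn0 : 0 < n := by omega
            rw [Complex.norm_natCast_cpow_of_pos hn0, Complex.neg_re]
        _ ≤ Real.exp a * (1 + Real.log N) := Pool.Agent.H378R2.M1.sum_rpow_le ha0 ha3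
        _ ≤ Real.exp a * (2 * l + 2) := mul_le_mul_of_nonneg_left (by linarith) (by linarith)
    have hC : ‖(N : ℂ) ^ (1 - s) / (s - 1)‖ ≤ Real.exp a := by
      rw [norm_div, Complex.norm_natCast_cpow_of_pos hN0, div_le_iff₀ (by linarith)]
      have e : (1 - s).re = 1 - s.re := by simp
      rw [e, Real.rpow_def_of_pos hNr]
      calc Real.exp (Real.log N * (1 - s.re)) ≤ Real.exp a := by
            apply Real.exp_le_exp.2
            linarith
        _ ≤ Real.exp a * ‖s - 1‖ := le_mul_of_one_le_right (by linarith) hcase.le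
    have hB : ‖s * Pool.Agent.H307R2.TM N Pool.Agent.H307R2.Ez s‖ ≤ 4 / 3 := by
      have hs3 : ‖s‖ ≤ |s.im| + 2 := by
        have := Complex.norm_le_abs_re_add_abs_im s
        rw [abs_of_pos hσ0] at this
        linarith
      calc ‖s * Pool.Agent.H307R2.TM N Pool.Agent.H307R2.Ez s‖ = ‖s‖ * ‖Pool.Agent.H307R2.TM N Pool.Agent.H307R2.Ez s‖ := norm_mul _ _
        _ ≤ (|s.im| + 2) * (1 * ((N : ℝ) ^ (-s.re) / s.re)) :=
            mul_le_mul hs3 (Pool.Agent.H307R2.TM_norm_le h1 Pool.Agent.H307R2.Ez_norm_le hσ0) (norm_nonneg _) (by positivity)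
        _ = Q * ((N : ℝ) ^ (-s.re) / s.re) := by rw [hQdef]; ring
        _ ≤ 4 / 3 := Pool.Agent.H378R2.M1.tail_le hQ hσ
    have hinv : ‖(s - 1)⁻¹‖ ≤ 1 := by
      rw [norm_inv]
      exact inv_le_one_of_one_le₀ hcase.le
    have hzeta : ‖riemannZeta s‖ ≤ Real.exp a * (2 * l + 2) + Real.exp a + 4 / 3 := by
      rw [hz]
      exact (norm_add_le _ _).trans (add_le_add ((norm_add_le _ _).trans (add_le_add hA hC)) hB)
    rw [hz0]
    refine (norm_sub_le _ _).trans ?_
    have h5 : 0 ≤ |D| * l * Real.exp a := by positivity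
    have h6 : 4 * Real.exp a ≤ l * Real.exp a := mul_le_mul_of_nonneg_right hl (by linarith)
    nlinarith only [hzeta, hinv, h5, h6, hea]

/-- the general estimate, region of width `d` -/
theorem tw_gen_x {d l M C₂ : ℝ} (hl : 8 ≤ l) (hd : 1 / l ^ 2 ≤ d) (hd1 : d ≤ 1 / 8) (hM : 0 ≤ M) (hC₂ : 1 ≤ C₂)
    {g : ℕ → ℂ} {H : ℂ → ℂ} (hs : ∀ y : ℝ, 1 < y → LSeriesSummable g (y : ℂ))
    (hH : ∀ s : ℂ, 1 < s.re → LSeries g s = H s)
    (hdH : ∀ s : ℂ, 1 - d / 2 ≤ s.re → s.re ≤ 1 + d → |s.im| ≤ Real.exp l - 1 → DifferentiableAt ℂ H s ∧ ‖H s‖ ≤ M)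
    (hg : ∀ y : ℝ, 1 < y → y ≤ 2 → ∀ s : ℂ, s.re = y → ‖LSeries g s‖ ≤ C₂ / (y - 1) ^ 2)
    {ξ : ℝ} (hξ : |2 * Real.pi * ξ| ≤ Real.exp l / 4) {x : ℝ} (hx : 1 ≤ x) (hxl : Real.log x ≤ l ^ 2) (hdx : d * Real.log x ≤ 2 * l) :
    ‖∑ n ∈ Finset.Icc 1 ⌊x⌋₊, twl g ξ n * ((Real.log (x / n) : ℝ) : ℂ)‖ ≤
      (8 * M + 6 * (C₂ * l ^ 4)) * (x * Real.exp (-(d * Real.log x / 2))) := by
  have hl0 : 0 < l := by linarith
  have hd0 : 0 < d := lt_of_lt_of_le (by positivity) hd
  have hx0 : 0 < x := by linarith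
  have hlx : 0 ≤ Real.log x := Real.log_nonneg hx
  have hel : 1 + l ≤ Real.exp l := by have := Real.add_one_le_exp l; linarith
  set c' : ℝ := 1 + 1 / l ^ 2 with hc'
  have hl2 : 0 < 1 / l ^ 2 := by positivity
  have hc'1 : 1 < c' := by linarith
  have hc'2 : c' ≤ 2 := by linarith
  set σ : ℝ := 1 - d / 2 with hσ
  have hσ1 : 1 / 2 ≤ σ := by rw [hσ]; linarith
  have hσc : σ ≤ c' := by rw [hσ]; linarith
  set Tt : ℝ := Real.exp l / 2 with hTt
  have hT1 : 1 ≤ Tt := by rw [hTt]; linarith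
  have h := shift_bound (a := twl g ξ) (F := fun s => H (s + ((2 * Real.pi * ξ : ℝ) : ℂ) * I)) (c := c') (σ := σ) (Tt := Tt)
    (M := M) (M' := C₂ / (c' - 1) ^ 2) (x := x) hc'1 hc'2 hσ1 hσc hT1 hx (fun y hy => summ_twl ξ (hs y hy))
    (fun s hs' => by
      rw [lser_twl]
      apply hH
      simp [hs']
      linarith)
    (fun s hs' => by
      rw [mem_reProdIm, Set.uIcc_of_le hσc, Set.uIcc_of_le (by linarith)] at hs'
      have h1 := (hdH (s + ((2 * Real.pi * ξ : ℝ) : ℂ) * I) (by simp; linarith [hs'.1.1]) (by simp; linarith [hs'.1.2]) (by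
        have e : (s + ((2 * Real.pi * ξ : ℝ) : ℂ) * I).im = s.im + 2 * Real.pi * ξ := by simp
        rw [e]
        refine (abs_add_le _ _).trans ?_
        have h2 := abs_le.2 hs'.2
        linarith)).1
      apply DifferentiableAt.differentiableWithinAt
      exact DifferentiableAt.comp s h1 (by fun_prop))
    (fun s hs' => by
      rw [mem_reProdIm, Set.uIcc_of_le hσc, Set.uIcc_of_le (by linarith)] at hs'
      exact (hdH (s + ((2 * Real.pi * ξ : ℝ) : ℂ) * I) (by simp; linarith [hs'.1.1]) (by simp; linarith [hs'.1.2]) (by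
        have e : (s + ((2 * Real.pi * ξ : ℝ) : ℂ) * I).im = s.im + 2 * Real.pi * ξ := by simp
        rw [e]
        refine (abs_add_le _ _).trans ?_
        have h2 := abs_le.2 hs'.2
        linarith)).2)
    (fun s hs' => by
      rw [lser_twl]
      apply hg c' hc'1 hc'2
      simp [hs'])
  refine h.trans ?_
  have e1 : C₂ / (c' - 1) ^ 2 = C₂ * l ^ 4 := by
    rw [hc']
    field_simp
    ring
  rw [e1]
  have hxσ : x ^ σ = x * Real.exp (-(d * Real.log x / 2)) := by
    rw [Real.rpow_def_of_pos hx0]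
    nth_rewrite 2 [← Real.exp_log hx0]
    rw [← Real.exp_add]
    congr 1
    rw [hσ]
    ring
  have hxc : x ^ c' ≤ 3 * x := by
    rw [Real.rpow_def_of_pos hx0]
    have e2 : Real.log x * c' = Real.log x + Real.log x * (1 / l ^ 2) := by rw [hc']; ring
    rw [e2, Real.exp_add, Real.exp_log hx0]
    have h3 : Real.log x * (1 / l ^ 2) ≤ 1 := by
      rw [mul_one_div, div_le_one (by positivity)]
      exact hxl
    have h4 : Real.exp (Real.log x * (1 / l ^ 2)) ≤ 3 := (Real.exp_le_exp.2 h3).trans (by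
      have := Real.exp_one_lt_d9
      linarith)
    nlinarith [Real.exp_pos (Real.log x * (1 / l ^ 2))]
  have hE : 1 / Tt ≤ 2 * Real.exp (-(d * Real.log x / 2)) := by
    have h5 : d * Real.log x / 2 ≤ l := by linarith
    have h6 : 1 / Tt = 2 * Real.exp (-l) := by
      rw [hTt, Real.exp_neg]
      field_simp
    rw [h6]
    have := Real.exp_le_exp.2 (neg_le_neg h5)
    linarith
  set E : ℝ := Real.exp (-(d * Real.log x / 2)) with hE'
  have hE0 : 0 < E := Real.exp_pos _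
  have h7 : M / Tt ^ 2 ≤ M * (2 * E) := by
    have h8 : M / Tt ^ 2 ≤ M / Tt := by
      apply div_le_div_of_nonneg_left hM (by linarith)
      nlinarith
    have h9 : M / Tt = M * (1 / Tt) := by ring
    rw [h9] at h8
    refine h8.trans ?_
    gcongr
  have h10 : C₂ * l ^ 4 / Tt ≤ C₂ * l ^ 4 * (2 * E) := by
    have h9 : C₂ * l ^ 4 / Tt = C₂ * l ^ 4 * (1 / Tt) := by ring
    rw [h9]
    gcongr
  calc 2 * M * x ^ σ + x ^ c' * (M / Tt ^ 2 + C₂ * l ^ 4 / Tt) ≤
        2 * M * (x * E) + 3 * x * (M * (2 * E) + C₂ * l ^ 4 * (2 * E)) := by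
        rw [hxσ]
        have h11 : 0 ≤ M / Tt ^ 2 + C₂ * l ^ 4 / Tt := by positivity
        have h13 : x ^ c' * (M / Tt ^ 2 + C₂ * l ^ 4 / Tt) ≤ 3 * x * (M * (2 * E) + C₂ * l ^ 4 * (2 * E)) := by
          apply mul_le_mul hxc (add_le_add h7 h10) h11 (by positivity)
        linarith
    _ = _ := by ring

/-- the coefficients `n ^ (-b)` -/
noncomputable def pb (b : ℝ) (n : ℕ) : ℂ := ((Real.exp (-(b * Real.log n)) : ℝ) : ℂ)

theorem term_pb (b : ℝ) (s : ℂ) (n : ℕ) : LSeries.term (pb b) s n = LSeries.term 1 (s + (b : ℂ)) n := by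
  rcases Nat.eq_zero_or_pos n with rfl | hn
  · simp
  · rw [LSeries.term_of_ne_zero hn.ne', LSeries.term_of_ne_zero hn.ne']
    have hnc : (n : ℂ) ≠ 0 := by exact_mod_cast hn.ne'
    have h1 : (n : ℂ) ^ (s + (b : ℂ)) = (n : ℂ) ^ s * (pb b n)⁻¹ := by
      rw [Complex.cpow_add _ _ hnc]
      congr 1
      rw [Complex.cpow_def_of_ne_zero hnc, ← Complex.natCast_log]
      unfold pb
      rw [Complex.ofReal_exp, ← Complex.exp_neg]
      congr 1
      push_cast
      ring
    rw [h1]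
    have h2 : pb b n ≠ 0 := by
      unfold pb
      exact_mod_cast (Real.exp_pos _).ne'
    have h3 : (n : ℂ) ^ s ≠ 0 := by
      rw [Complex.cpow_def_of_ne_zero hnc]; exact Complex.exp_ne_zero _
    simp only [Pi.one_apply]
    field_simp

theorem lser_pb {b : ℝ} (hb : 0 ≤ b) {s : ℂ} (hs : 1 < s.re) : LSeriesSummable (pb b) s ∧ LSeries (pb b) s = riemannZeta (s + b) := by
  have h1 : 1 < (s + (b : ℂ)).re := by simp; linarith
  constructor
  · have h2 : LSeriesSummable (1 : ℕ → ℂ) (s + b) := LSeriesSummable_one_iff.2 h1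
    unfold LSeriesSummable at h2 ⊢
    refine h2.congr fun n => ?_
    rw [term_pb]
  · rw [← LSeries_one_eq_riemannZeta h1]
    unfold LSeries
    exact tsum_congr fun n => term_pb b s n

end Pool.Agent.J4H81.PT.ZF
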