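import Pool.Agent.J4H81.PT.XBb
import Pool.Agent.J4H81.PT.XCb

/-!
# Growing prime tuples, all x: the Deuring-Heilbronn inequality from positivity (helper81)
-/

set_option autoImplicit false

namespace Pool.Agent.J4H81.PT.DH

open Complex Filter Topology Set Metric
open DirichletCharacter
open Pool.Agent.J4H81.PT.ZF (F1 F1_diff F1_eq F1_mul az Gz LS_az)
open scoped Nat

theorem logMul_iter (a : ℕ → ℂ) (m n : ℕ) : (LSeries.logMul^[m] a) n = ((Real.log n ^ m : ℝ) : ℂ) * a n := by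
  induction m with
  | zero => simp
  | succ m ih =>
    rw [Function.iterate_succ_apply', LSeries.logMul, ih, ← Complex.natCast_log]
    push_cast
    ring

theorem tm_pos {a : ℕ → ℂ} (ha : ∀ n, 0 ≤ (a n).re) {x : ℝ} (h : LSeries.abscissaOfAbsConv a < x) (m : ℕ) :
    0 ≤ ((-1) ^ m * iteratedDeriv m (LSeries a) x).re := by
  have h' : LSeries.abscissaOfAbsConv a < (x : ℂ).re := by simpa using h
  rw [LSeries_iteratedDeriv _ h', ← mul_assoc, ← pow_add, Even.neg_one_pow ⟨m, rfl⟩, one_mul]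
  have hs : LSeriesSummable (LSeries.logMul^[m] a) x := LSeriesSummable_of_abscissaOfAbsConv_lt_re (by simpa using h)
  unfold LSeries
  rw [Complex.re_tsum hs]
  refine tsum_nonneg fun n => ?_
  rcases Nat.eq_zero_or_pos n with rfl | hn
  · simp
  · rw [LSeries.term_of_ne_zero hn.ne', logMul_iter]
    have e : (n : ℂ) ^ (x : ℂ) = (((n : ℝ) ^ x : ℝ) : ℂ) := by
      rw [Complex.ofReal_cpow (Nat.cast_nonneg n)]
      simp
    rw [e, mul_div_right_comm, ← Complex.ofReal_div, Complex.re_ofReal_mul]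
    have h1 : 0 ≤ Real.log n := Real.log_natCast_nonneg n
    have := ha n
    positivity

theorem ld_zeta {s : ℂ} (hs : 1 < s.re) : LSeries (fun n => ((ArithmeticFunction.vonMangoldt n : ℝ) : ℂ)) s =
    (s - 1)⁻¹ - deriv riemannZeta₁ s / riemannZeta₁ s := by
  obtain ⟨h1, h2⟩ := LS_az hs
  have h3 : LSeriesSummable (1 : ℕ → ℂ) s := LSeriesSummable_one_iff.2 hs
  have e : (fun n : ℕ => ((ArithmeticFunction.vonMangoldt n : ℝ) : ℂ)) = az + 1 := by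
    funext n
    simp only [Pi.add_apply, Pi.one_apply, az]
    ring
  rw [e, LSeries_add h1 h3, h2, LSeries_one_eq_riemannZeta hs]
  have hne : s ≠ 1 := by
    rintro rfl
    simp at hs
  rw [riemannZeta_eq_inv_sub_add hne]
  unfold Gz
  ring

theorem ld_chi {q : ℕ} [NeZero q] (χ : DirichletCharacter ℂ q) {s : ℂ} (hs : 1 < s.re) :
    LSeriesSummable (fun n : ℕ => χ (n : ZMod q) * ((ArithmeticFunction.vonMangoldt n : ℝ) : ℂ)) s ∧
    LSeries (fun n : ℕ => χ (n : ZMod q) * ((ArithmeticFunction.vonMangoldt n : ℝ) : ℂ)) s = -(deriv (LFunction χ) s / LFunction χ s) := by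
  have hge : (fun n : ℕ => χ (n : ZMod q) * ((ArithmeticFunction.vonMangoldt n : ℝ) : ℂ)) =
      (fun n : ℕ => χ (n : ZMod q)) * (fun n : ℕ => ((ArithmeticFunction.vonMangoldt n : ℝ) : ℂ)) := rfl
  rw [hge]
  refine ⟨DirichletCharacter.LSeriesSummable_twist_vonMangoldt χ hs, ?_⟩
  rw [DirichletCharacter.LSeries_twist_vonMangoldt_eq χ hs, DirichletCharacter.deriv_LFunction_eq_deriv_LSeries χ hs,
    DirichletCharacter.LFunction_eq_LSeries χ hs, neg_div]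

theorem F1_ne {q : ℕ} [NeZero q] {χ : DirichletCharacter ℂ q} (h1 : χ ≠ 1) {b : ℝ} (h0 : LFunction χ ((1 - b : ℝ) : ℂ) = 0)
    {s : ℂ} (hs : 1 ≤ s.re) : F1 χ (1 - b) s ≠ 0 := by
  intro h
  have := F1_mul h0 s
  rw [h, mul_zero] at this
  exact DirichletCharacter.LFunction_ne_zero_of_one_le_re χ (Or.inl h1) hs this

theorem ld_exc {q : ℕ} [NeZero q] {χ : DirichletCharacter ℂ q} (h1 : χ ≠ 1) {b : ℝ} (h0 : LFunction χ ((1 - b : ℝ) : ℂ) = 0)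
    {s : ℂ} (hs : 1 < s.re) : LSeries (fun n : ℕ => χ (n : ZMod q) * ((ArithmeticFunction.vonMangoldt n : ℝ) : ℂ)) s =
      -(s - ((1 - b : ℝ) : ℂ))⁻¹ - deriv (F1 χ (1 - b)) s / F1 χ (1 - b) s := by
  rw [(ld_chi χ hs).2]
  have hval : LFunction χ s = (s - ((1 - b : ℝ) : ℂ)) * F1 χ (1 - b) s := F1_mul h0 s
  have hmul : LFunction χ = fun z => (z - ((1 - b : ℝ) : ℂ)) * F1 χ (1 - b) z := by
    funext z
    exact F1_mul h0 z
  have hLne : LFunction χ s ≠ 0 := DirichletCharacter.LFunction_ne_zero_of_one_le_re χ (Or.inl h1) hs.le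
  have hderiv : deriv (LFunction χ) s = F1 χ (1 - b) s + (s - ((1 - b : ℝ) : ℂ)) * deriv (F1 χ (1 - b)) s := by
    have hh : HasDerivAt (fun z => (z - ((1 - b : ℝ) : ℂ)) * F1 χ (1 - b) z) (1 * F1 χ (1 - b) s + (s - ((1 - b : ℝ) : ℂ)) * deriv (F1 χ (1 - b)) s) s :=
      ((hasDerivAt_id s).sub_const _).mul (F1_diff h1 (1 - b) s).hasDerivAt
    rw [one_mul] at hh
    rw [hmul]
    exact hh.deriv
  have hne1 : s - ((1 - b : ℝ) : ℂ) ≠ 0 := fun h => hLne (by rw [hval, h, zero_mul])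
  have hne2 : F1 χ (1 - b) s ≠ 0 := fun h => hLne (by rw [hval, h, mul_zero])
  rw [hderiv, hval]
  field_simp
  ring

theorem pow_diff_le {u v : ℂ} (hu : ‖u‖ ≤ 1) (hv : ‖v‖ ≤ 1) (M : ℕ) : ‖u ^ M - v ^ M‖ ≤ M * ‖u - v‖ := by
  induction M with
  | zero => simp
  | succ M ih =>
    have e : u ^ (M + 1) - v ^ (M + 1) = u * (u ^ M - v ^ M) + (u - v) * v ^ M := by ring
    rw [e]
    refine (norm_add_le _ _).trans ?_
    rw [norm_mul, norm_mul, norm_pow]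
    have h1 : ‖u‖ * ‖u ^ M - v ^ M‖ ≤ 1 * (M * ‖u - v‖) := mul_le_mul hu ih (norm_nonneg _) zero_le_one
    have h2 : ‖u - v‖ * ‖v‖ ^ M ≤ ‖u - v‖ * 1 := mul_le_mul_of_nonneg_left (pow_le_one₀ (norm_nonneg _) hv) (norm_nonneg _)
    push_cast
    linarith

theorem inv_diff_le {γ b : ℝ} (hb : 0 ≤ b) (M : ℕ) :
    ‖((2 : ℂ) - (1 - γ * I))⁻¹ ^ M - ((2 : ℂ) - ((1 - b : ℝ) - γ * I))⁻¹ ^ M‖ ≤ M * b := by
  have hre : ∀ z : ℂ, 1 ≤ z.re → ‖z⁻¹‖ ≤ 1 := by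
    intro z hz
    rw [norm_inv]
    apply inv_le_one_of_one_le₀
    exact hz.trans ((le_abs_self _).trans (Complex.abs_re_le_norm z))
  have h1 : 1 ≤ ((2 : ℂ) - (1 - γ * I)).re := by simp; norm_num
  have h2 : 1 ≤ ((2 : ℂ) - ((1 - b : ℝ) - γ * I)).re := by simp; linarith
  refine (pow_diff_le (hre _ h1) (hre _ h2) M).trans ?_
  apply mul_le_mul_of_nonneg_left _ (Nat.cast_nonneg _)
  have hne1 : (2 : ℂ) - (1 - γ * I) ≠ 0 := by
    intro h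
    rw [h, zero_re] at h1
    norm_num at h1
  have hne2 : (2 : ℂ) - ((1 - b : ℝ) - γ * I) ≠ 0 := by
    intro h
    rw [h, zero_re] at h2
    norm_num at h2
  have e : ((2 : ℂ) - (1 - γ * I))⁻¹ - ((2 : ℂ) - ((1 - b : ℝ) - γ * I))⁻¹ =
      (b : ℂ) * (((2 : ℂ) - (1 - γ * I))⁻¹ * ((2 : ℂ) - ((1 - b : ℝ) - γ * I))⁻¹) := by
    rw [inv_sub_inv hne1 hne2]
    push_cast
    field_simp
    ring
  rw [e, norm_mul, norm_mul, Complex.norm_real, Real.norm_of_nonneg hb]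
  have := mul_le_one₀ (hre _ h1) (norm_nonneg _) (hre _ h2)
  exact mul_le_of_le_one_right hb this

/-- the inequality for the Taylor coefficients -/
theorem dh_T {q₁ : ℕ} [NeZero q₁] {χ₁ : DirichletCharacter ℂ q₁} {b : ℝ} (h1 : χ₁ ≠ 1) (hb : 0 < b) (h0 : LFunction χ₁ ((1 - b : ℝ) : ℂ) = 0)
    {g₃ g₄ : ℂ → ℂ} (hg₃ : Differentiable ℂ g₃) (hg₄ : Differentiable ℂ g₄) (hn₃ : ∀ s : ℂ, 1 < s.re → g₃ s ≠ 0) (hn₄ : ∀ s : ℂ, 1 < s.re → g₄ s ≠ 0)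
    {a₃ a₄ : ℕ → ℂ} {ε γ : ℝ} (hε : 0 ≤ ε) (hε1 : ε ≤ 1)
    (ha₃ : ∀ s : ℂ, 1 < s.re → LSeriesSummable a₃ s ∧ LSeries a₃ s = ε * (s - (1 - γ * I))⁻¹ - deriv g₃ s / g₃ s)
    (ha₄ : ∀ s : ℂ, 1 < s.re → LSeriesSummable a₄ s ∧ LSeries a₄ s = -(ε * (s - ((1 - b : ℝ) - γ * I))⁻¹) - deriv g₄ s / g₄ s)
    (hpos : ∀ n : ℕ, 0 ≤ (((ArithmeticFunction.vonMangoldt n : ℝ) : ℂ) + χ₁ (n : ZMod q₁) * ((ArithmeticFunction.vonMangoldt n : ℝ) : ℂ) + (a₃ n + a₄ n)).re)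
    (m : ℕ) : ((-1) ^ m * iteratedDeriv m (fun z => deriv (fun z => riemannZeta₁ z * F1 χ₁ (1 - b) z * (g₃ z * g₄ z)) z /
      (riemannZeta₁ z * F1 χ₁ (1 - b) z * (g₃ z * g₄ z))) 2 / (m ! : ℂ)).re ≤ 2 * (m + 1) * b := by
  set a : ℕ → ℂ := ((fun n : ℕ => ((ArithmeticFunction.vonMangoldt n : ℝ) : ℂ)) + (fun n : ℕ => χ₁ (n : ZMod q₁) * ((ArithmeticFunction.vonMangoldt n : ℝ) : ℂ))) + (a₃ + a₄) with ha
  set G : ℂ → ℂ := fun z => riemannZeta₁ z * F1 χ₁ (1 - b) z * (g₃ z * g₄ z) with hG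
  have hsumm : ∀ s : ℂ, 1 < s.re → LSeriesSummable a s := by
    intro s hs
    exact (((ArithmeticFunction.LSeriesSummable_vonMangoldt hs)).add (ld_chi χ₁ hs).1).add ((ha₃ s hs).1.add (ha₄ s hs).1)
  have habs : LSeries.abscissaOfAbsConv a < ((2 : ℝ) : EReal) := by
    refine lt_of_le_of_lt (LSeries.abscissaOfAbsConv_le_of_forall_lt_LSeriesSummable (x := 1) (fun y hy => hsumm y (by simpa using hy))) ?_
    exact_mod_cast (by norm_num : (1 : ℝ) < 2)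
  have hposT := tm_pos (a := a) (fun n => hpos n) habs m
  -- the identity
  have hident : ∀ s : ℂ, 1 < s.re → LSeries a s = ((s - 1)⁻¹ - (s - ((1 - b : ℝ) : ℂ))⁻¹ + ε * ((s - (1 - γ * I))⁻¹ - (s - ((1 - b : ℝ) - γ * I))⁻¹)) - deriv G s / G s := by
    intro s hs
    have hζne : riemannZeta₁ s ≠ 0 := by
      intro h
      have := Pool.Agent.H437R2.z1_zero_re h
      linarith
    have hζd : DifferentiableAt ℂ riemannZeta₁ s := differentiable_riemannZeta₁ s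
    have hFd := F1_diff h1 (1 - b) s
    have hFne := F1_ne h1 h0 hs.le
    have hlog : deriv G s / G s = (deriv riemannZeta₁ s / riemannZeta₁ s + deriv (F1 χ₁ (1 - b)) s / F1 χ₁ (1 - b) s) + (deriv g₃ s / g₃ s + deriv g₄ s / g₄ s) := by
      have e1 := logDeriv_mul s hζne hFne hζd hFd
      have e2 := logDeriv_mul s (hn₃ s hs) (hn₄ s hs) (hg₃ s) (hg₄ s)
      have e3 := logDeriv_mul (f := fun z => riemannZeta₁ z * F1 χ₁ (1 - b) z) (g := fun z => g₃ z * g₄ z) s (mul_ne_zero hζne hFne) (mul_ne_zero (hn₃ s hs) (hn₄ s hs)) (hζd.mul hFd) ((hg₃ s).mul (hg₄ s))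
      simp only [logDeriv_apply] at e1 e2 e3
      rw [← e1, ← e2, ← e3]
    rw [ha, LSeries_add (((ArithmeticFunction.LSeriesSummable_vonMangoldt hs)).add (ld_chi χ₁ hs).1) ((ha₃ s hs).1.add (ha₄ s hs).1),
      LSeries_add (ArithmeticFunction.LSeriesSummable_vonMangoldt hs) (ld_chi χ₁ hs).1, LSeries_add (ha₃ s hs).1 (ha₄ s hs).1,
      ld_zeta hs, ld_exc h1 h0 hs, (ha₃ s hs).2, (ha₄ s hs).2, hlog]
    ring
  have hEv : LSeries a =ᶠ[𝓝 (2 : ℂ)] fun s => ((s - 1)⁻¹ - (s - ((1 - b : ℝ) : ℂ))⁻¹ + ε * ((s - (1 - γ * I))⁻¹ - (s - ((1 - b : ℝ) - γ * I))⁻¹)) - deriv G s / G s := by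
    have hopen : IsOpen {s : ℂ | 1 < s.re} := isOpen_lt continuous_const Complex.continuous_re
    filter_upwards [hopen.mem_nhds (show (2 : ℂ) ∈ {s : ℂ | 1 < s.re} by norm_num)] with s hs
    exact hident s hs
  have hne1 : (2 : ℂ) ≠ 1 := by norm_num
  have hne2 : (2 : ℂ) ≠ ((1 - b : ℝ) : ℂ) := by
    intro h
    have := congrArg Complex.re h
    simp at this
    linarith
  have hne3 : (2 : ℂ) ≠ 1 - γ * I := by
    intro h
    have := congrArg Complex.re h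
    simp at this
  have hne4 : (2 : ℂ) ≠ (1 - b : ℝ) - γ * I := by
    intro h
    have := congrArg Complex.re h
    simp at this
    linarith
  have hGd : Differentiable ℂ G := (differentiable_riemannZeta₁.mul (F1_diff h1 (1 - b))).mul (hg₃.mul hg₄)
  have hG2 : G 2 ≠ 0 := by
    have h2 : (1 : ℝ) < (2 : ℂ).re := by norm_num
    refine mul_ne_zero (mul_ne_zero ?_ (F1_ne h1 h0 h2.le)) (mul_ne_zero (hn₃ _ h2) (hn₄ _ h2))
    intro h
    have := Pool.Agent.H437R2.z1_zero_re h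
    norm_num at this
  have hGan : AnalyticAt ℂ (fun s => deriv G s / G s) 2 := ((hGd.analyticAt 2).deriv).div (hGd.analyticAt 2) hG2
  have hc1 := cd_inv hne1 (m : WithTop ℕ∞)
  have hc2 := cd_inv hne2 (m : WithTop ℕ∞)
  have hc3 := cd_inv hne3 (m : WithTop ℕ∞)
  have hc4 := cd_inv hne4 (m : WithTop ℕ∞)
  have hcast : ((2 : ℝ) : ℂ) = 2 := by norm_num
  rw [hcast, hEv.iteratedDeriv_eq, iteratedDeriv_fun_sub ((hc1.sub hc2).add (contDiffAt_const.mul (hc3.sub hc4))) hGan.contDiffAt,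
    iteratedDeriv_fun_add (hc1.sub hc2) (contDiffAt_const.mul (hc3.sub hc4)), iteratedDeriv_fun_sub hc1 hc2] at hposT
  have h34 : iteratedDeriv m (fun s : ℂ => (ε : ℂ) * ((s - (1 - γ * I))⁻¹ - (s - ((1 - b : ℝ) - γ * I))⁻¹)) 2 =
      ε * ((-1) ^ m * (m ! : ℂ) * ((2 - (1 - γ * I))⁻¹) ^ (m + 1) - (-1) ^ m * (m ! : ℂ) * ((2 - ((1 - b : ℝ) - γ * I))⁻¹) ^ (m + 1)) := by
    have h5 := iteratedDeriv_fun_const_smul (n := m) (hc3.sub hc4) (ε : ℂ)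
    simp only [smul_eq_mul] at h5
    rw [h5, iteratedDeriv_fun_sub hc3 hc4, iter_inv, iter_inv]
  rw [h34, iter_inv, iter_inv] at hposT
  have hfac0 : (m ! : ℂ) ≠ 0 := by exact_mod_cast m.factorial_ne_zero
  have hfacr : (0 : ℝ) < (m ! : ℝ) := by exact_mod_cast m.factorial_pos
  have hsq : ((-1 : ℂ) ^ m) * (-1) ^ m = 1 := by
    rw [← mul_pow]; norm_num
  set X : ℂ := ((2 - 1 : ℂ)⁻¹ ^ (m + 1) - (2 - ((1 - b : ℝ) : ℂ))⁻¹ ^ (m + 1)) + ε * ((2 - (1 - γ * I))⁻¹ ^ (m + 1) - (2 - ((1 - b : ℝ) - γ * I))⁻¹ ^ (m + 1)) with hX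
  set Y : ℂ := (-1) ^ m * iteratedDeriv m (fun z => deriv G z / G z) 2 / (m ! : ℂ) with hY
  have hXY : (-1) ^ m * ((-1) ^ m * (m ! : ℂ) * (2 - 1 : ℂ)⁻¹ ^ (m + 1) - (-1) ^ m * (m ! : ℂ) * (2 - ((1 - b : ℝ) : ℂ))⁻¹ ^ (m + 1) +
      ε * ((-1) ^ m * (m ! : ℂ) * ((2 - (1 - γ * I))⁻¹) ^ (m + 1) - (-1) ^ m * (m ! : ℂ) * ((2 - ((1 - b : ℝ) - γ * I))⁻¹) ^ (m + 1)) -
      iteratedDeriv m (fun s => deriv G s / G s) 2) = ((m ! : ℝ) : ℂ) * (X - Y) := by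
    have hY2 : ((m ! : ℝ) : ℂ) * Y = (-1) ^ m * iteratedDeriv m (fun z => deriv G z / G z) 2 := by
      rw [hY]
      push_cast
      field_simp
    rw [mul_sub ((m ! : ℝ) : ℂ) X Y, hY2, hX]
    push_cast
    linear_combination ((m ! : ℂ) * ((2 - 1 : ℂ)⁻¹ ^ (m + 1) - (2 - (1 - (b : ℂ)))⁻¹ ^ (m + 1)) + ε * (m ! : ℂ) * ((2 - (1 - γ * I))⁻¹ ^ (m + 1) - (2 - (1 - (b : ℂ) - γ * I))⁻¹ ^ (m + 1))) * hsq
  rw [hXY, Complex.re_ofReal_mul, sub_re] at hposT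
  have hYX : Y.re ≤ X.re := by
    by_contra hcon
    have : (m ! : ℝ) * (X.re - Y.re) < 0 := mul_neg_of_pos_of_neg hfacr (by linarith)
    linarith
  refine hYX.trans ?_
  have hXb : ‖X‖ ≤ 2 * (m + 1) * b := by
    rw [hX]
    refine (norm_add_le _ _).trans ?_
    have i1 := inv_diff_le (γ := 0) hb.le (m + 1)
    have i2 := inv_diff_le (γ := γ) hb.le (m + 1)
    simp only [ofReal_zero, zero_mul, sub_zero] at i1
    rw [norm_mul, Complex.norm_real, Real.norm_of_nonneg hε]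
    have i3 := mul_le_mul_of_nonneg_right hε1 (norm_nonneg ((2 - (1 - γ * I))⁻¹ ^ (m + 1) - (2 - ((1 - b : ℝ) - γ * I))⁻¹ ^ (m + 1)))
    push_cast at i1 i2 i3 ⊢
    linarith
  exact (Complex.re_le_norm X).trans hXb

end Pool.Agent.J4H81.PT.DH
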