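import Pool.Agent.J4H81.PT.XEb

/-!
# Growing prime tuples, all x: the mean values of the smoothed sums (helper81)
-/

set_option autoImplicit false

namespace Pool.Agent.J4H81.PT

open Finset MeasureTheory
open Pool.Agent.H807R2.Dav (ee norm_ee ee_add ee_zero ee_int ee_eq dd dd_le)
open Pool.Agent.H398R2.BV (Prim prim_ne_one card_prim_le)

theorem rphi {r : ℕ} (hr : 1 ≤ r) : (r : ℝ) / (Nat.totient r : ℝ) ≤ (1 + Real.log r) ^ 4 := by
  have h1 := Pool.Agent.Helper112.ratio_sq_le r (by omega)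
  have h2 : ∑ e ∈ r.divisors, ((e.divisors.card : ℝ) ^ 3 / e) ≤ ∑ e ∈ Icc 1 r, ((e.divisors.card : ℝ) ^ 3 / e) := by
    apply sum_le_sum_of_subset_of_nonneg
    · intro e he
      rw [Nat.mem_divisors] at he
      rw [mem_Icc]
      exact ⟨Nat.pos_of_dvd_of_pos he.1 (by omega), Nat.le_of_dvd (by omega) he.1⟩
    · intro e _ _
      positivity
  have h3 := Pool.Agent.H398R2.BV.sum_card_pow_div 3 r
  have h4 : ((r : ℝ) / (Nat.totient r : ℝ)) ^ 2 ≤ ((1 + Real.log r) ^ 4) ^ 2 := by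
    refine (h1.trans (h2.trans h3)).trans (le_of_eq ?_)
    ring
  have h5 : 0 ≤ Real.log r := Real.log_natCast_nonneg r
  exact (sq_le_sq₀ (by positivity) (by positivity)).1 h4

/-- the sums of pure powers -/
noncomputable def PW (b : ℝ) (M : ℕ) (x ξ : ℝ) : ℂ :=
  ∑ n ∈ Icc 1 M, ((Real.exp (-(b * Real.log n)) : ℝ) : ℂ) * ee (-(ξ * Real.log n)) * ((lp (Real.log x) (Real.log n) : ℝ) : ℂ)

theorem PW_cont (b : ℝ) (M : ℕ) (x : ℝ) : Continuous (PW b M x) := by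
  unfold PW
  apply continuous_finsetSum
  intro n _
  exact (continuous_const.mul (ee_cont'.comp (by fun_prop))).mul continuous_const

/-- Abel summation with a decreasing weight -/
theorem abel_dec (z : ℕ → ℂ) (w : ℕ → ℝ) (hw : ∀ n, 1 ≤ n → w (n + 1) ≤ w n) (hw0 : ∀ n, 0 ≤ w n) (hw1 : w 1 ≤ 1) {B : ℝ} (K : ℕ)
    (hB : ∀ j, 1 ≤ j → j ≤ K → ‖∑ i ∈ Icc 1 j, z i‖ ≤ B) (hB0 : 0 ≤ B) : ‖∑ i ∈ Icc 1 K, ((w i : ℝ) : ℂ) * z i‖ ≤ B := by
  have e : ∀ K : ℕ, ∑ i ∈ Icc 1 K, ((w i : ℝ) : ℂ) * z i =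
      ((w (K + 1) : ℝ) : ℂ) * ∑ i ∈ Icc 1 K, z i + ∑ i ∈ Icc 1 K, ((w i - w (i + 1) : ℝ) : ℂ) * ∑ j ∈ Icc 1 i, z j := by
    intro K
    induction K with
    | zero => simp
    | succ K ih =>
      rw [sum_Icc_succ_top (by omega), ih, sum_Icc_succ_top (by omega) (fun b => ((w b - w (b + 1) : ℝ) : ℂ) * ∑ i ∈ Icc 1 b, z i),
        sum_Icc_succ_top (by omega) z]
      push_cast
      ring
  rcases Nat.eq_zero_or_pos K with hK | hK
  · subst hK
    simpa using hB0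
  rw [e]
  have h1 : ‖((w (K + 1) : ℝ) : ℂ) * ∑ i ∈ Icc 1 K, z i‖ ≤ w (K + 1) * B := by
    rw [norm_mul, Complex.norm_real, Real.norm_of_nonneg (hw0 _)]
    exact mul_le_mul_of_nonneg_left (hB K hK le_rfl) (hw0 _)
  have h2 : ‖∑ i ∈ Icc 1 K, ((w i - w (i + 1) : ℝ) : ℂ) * ∑ j ∈ Icc 1 i, z j‖ ≤ ∑ i ∈ Icc 1 K, (w i - w (i + 1)) * B := by
    refine norm_sum_le_of_le _ fun i hi => ?_
    rw [mem_Icc] at hi
    rw [norm_mul, Complex.norm_real, Real.norm_of_nonneg (by linarith [hw i hi.1])]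
    exact mul_le_mul_of_nonneg_left (hB i hi.1 hi.2) (by linarith [hw i hi.1])
  have h3 : ∀ K : ℕ, ∑ i ∈ Icc 1 K, (w i - w (i + 1)) * B = (w 1 - w (K + 1)) * B := by
    intro K
    induction K with
    | zero => simp
    | succ K ih =>
      rw [sum_Icc_succ_top (by omega), ih]
      ring
  rw [h3] at h2
  calc _ ≤ w (K + 1) * B + (w 1 - w (K + 1)) * B := (norm_add_le _ _).trans (add_le_add h1 h2)
    _ = w 1 * B := by ring
    _ ≤ 1 * B := mul_le_mul_of_nonneg_right hw1 hB0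
    _ = B := one_mul _

theorem PW_le {b : ℝ} (hb : 0 ≤ b) (M : ℕ) {x T : ℝ} (hx : 1 ≤ x) (hxM : x ≤ M) (hT : 1 ≤ T) {ξ : ℝ} (hξ : |ξ| ≤ T) :
    ‖PW b M x ξ‖ ≤ 2 * (1 + Real.log M) * x * (1 / (1 + |ξ|)) + 9 * T * (1 + Real.log M) ^ 2 := by
  have hlM : 0 ≤ Real.log M := Real.log_natCast_nonneg M
  set Lm : ℝ := 1 + Real.log M with hLm
  have hLm1 : 1 ≤ Lm := by rw [hLm]; linarith
  have hx0 : 0 < x := by linarith
  have hlogx : 0 ≤ Real.log x := Real.log_nonneg hx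
  have hlx : Real.log x ≤ Lm := by
    have := Real.log_le_log hx0 hxM
    rw [hLm]; linarith
  have hM0 : (0 : ℝ) < M := by linarith
  have hM1x : Real.log x ≤ Real.log ((M + 1 : ℕ) : ℝ) := by
    apply Real.log_le_log hx0
    push_cast
    linarith
  have h0 := w0_bound (fun n => ((Real.exp (-(b * Real.log n)) : ℝ) : ℂ) * ee (-(ξ * Real.log n))) hlogx
    (by positivity : 0 ≤ 2 / (1 + |ξ|) * x + (2 + 7 * T * Lm)) M hM1x (by
    intro k hk hkx
    have hk0 : (0 : ℝ) < k := by exact_mod_cast hk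
    have h3 : (k : ℝ) ≤ x := (Real.log_le_log_iff hk0 hx0).1 hkx
    apply abel_dec (fun n => ee (-(ξ * Real.log n))) (fun n => Real.exp (-(b * Real.log n)))
    · intro n hn
      apply Real.exp_le_exp.2
      have := mul_le_mul_of_nonneg_left (log_succ_mono hn) hb
      linarith
    · intro n
      exact (Real.exp_pos _).le
    · simp
    · intro j hj1 hjk
      have hj0 : (0 : ℝ) < j := by exact_mod_cast hj1
      have hjx : (j : ℝ) ≤ x := le_trans (by exact_mod_cast hjk) h3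
      refine (pow_sum ξ j hj1).trans ?_
      have h4 : Real.log j ≤ Lm := (Real.log_le_log hj0 hjx).trans hlx
      have h5 : 0 ≤ Real.log j := Real.log_natCast_nonneg j
      have h6 : 7 * |ξ| * Real.log j ≤ 7 * T * Lm := by gcongr
      have h7 : 2 * (j : ℝ) / (1 + |ξ|) ≤ 2 / (1 + |ξ|) * x := by
        rw [div_mul_eq_mul_div]
        gcongr
      linarith
    · positivity)
  refine le_trans (le_of_eq ?_) (h0.trans ?_)
  · unfold PW
    rfl
  · have hTL : 1 ≤ T * Lm := one_le_mul_of_one_le_of_one_le hT hLm1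
    calc (2 / (1 + |ξ|) * x + (2 + 7 * T * Lm)) * Real.log x ≤ (2 / (1 + |ξ|) * x + 9 * (T * Lm)) * Lm := by
          apply mul_le_mul (by linarith) hlx hlogx (by positivity)
      _ = _ := by ring

theorem PW_int {b : ℝ} (hb : 0 ≤ b) (M : ℕ) {x T : ℝ} (hx : 1 ≤ x) (hxM : x ≤ M) (hT : 1 ≤ T) (hTM : Real.log (1 + T) ≤ 1 + Real.log M) :
    ∫ ξ in (-T)..T, ‖PW b M x ξ‖ ≤ 4 * (1 + Real.log M) ^ 2 * x + 18 * T ^ 2 * (1 + Real.log M) ^ 2 := by
  have hlM : 0 ≤ Real.log M := Real.log_natCast_nonneg M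
  set Lm : ℝ := 1 + Real.log M with hLm
  have hLm1 : 1 ≤ Lm := by rw [hLm]; linarith
  have hci : Continuous fun ξ : ℝ => 2 * Lm * x * (1 / (1 + |ξ|)) := by
    apply Continuous.mul continuous_const
    apply Continuous.div continuous_const (by fun_prop)
    intro ξ
    positivity
  have hmid : ∫ ξ in (-T)..T, 2 * Lm * x * (1 / (1 + |ξ|)) = 2 * Lm * x * (2 * Real.log (1 + T)) := by
    rw [intervalIntegral.integral_const_mul, inv_int (by linarith)]
  calc ∫ ξ in (-T)..T, ‖PW b M x ξ‖ ≤ ∫ ξ in (-T)..T, (2 * Lm * x * (1 / (1 + |ξ|)) + 9 * T * Lm ^ 2) := by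
        apply intervalIntegral.integral_mono_on (by linarith) ((PW_cont b M x).norm.intervalIntegrable _ _)
        · exact (hci.intervalIntegrable _ _).add intervalIntegrable_const
        · intro ξ hξ
          exact PW_le hb M hx hxM hT (abs_le.2 hξ)
    _ = 2 * Lm * x * (2 * Real.log (1 + T)) + 18 * T ^ 2 * Lm ^ 2 := by
        rw [intervalIntegral.integral_add (hci.intervalIntegrable _ _) intervalIntegrable_const, hmid, intervalIntegral.integral_const]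
        rw [smul_eq_mul]
        ring
    _ ≤ 2 * Lm * x * (2 * Lm) + 18 * T ^ 2 * Lm ^ 2 := by gcongr
    _ = _ := by ring

/-- the smoothed sums with and without the exceptional main term -/
theorem QSx_le (x₁ : PC) (b : ℝ) {f : ℕ} (hf : 1 ≤ f) {χ : DirichletCharacter ℂ f} (hχ : χ ∈ Prim f) (M : ℕ) (x ξ : ℝ) :
    ‖QSx x₁ b ⟨f, χ⟩ M x ξ‖ ≤ ‖QS f χ M x ξ‖ + (open Classical in if (⟨f, χ⟩ : PC) = x₁ then ‖PW b M x ξ‖ else 0) := by
  classical
  by_cases h1 : (⟨f, χ⟩ : PC) = ⟨1, 1⟩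
  · have hz : QSx x₁ b ⟨f, χ⟩ M x ξ = QS f χ M x ξ := by
      rw [h1]
      have : f = 1 := congrArg Sigma.fst h1
      subst this
      have hχ1 : χ = 1 := DirichletCharacter.level_one χ
      subst hχ1
      unfold QSx QS kk
      refine sum_congr rfl fun n _ => ?_
      rw [if_pos rfl, if_pos rfl]
      ring
    rw [hz]
    have : 0 ≤ (if (⟨f, χ⟩ : PC) = x₁ then ‖PW b M x ξ‖ else 0) := by
      split_ifs
      · exact norm_nonneg _
      · exact le_rfl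
    linarith
  · have hf2 : 2 ≤ f := by
      by_contra hcon
      have hf1 : f = 1 := by omega
      subst hf1
      apply h1
      rw [DirichletCharacter.level_one χ]
    have hχ1 : χ ≠ 1 := prim_ne_one hf2 hχ
    by_cases h2 : (⟨f, χ⟩ : PC) = x₁
    · have hz : QSx x₁ b ⟨f, χ⟩ M x ξ = QS f χ M x ξ + PW b M x ξ := by
        unfold QSx QS PW kk
        rw [← sum_add_distrib]
        refine sum_congr rfl fun n _ => ?_
        rw [if_neg h1, if_pos h2, if_neg hχ1]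
        ring
      rw [hz, if_pos h2]
      exact norm_add_le _ _
    · have hz : QSx x₁ b ⟨f, χ⟩ M x ξ = QS f χ M x ξ := by
        unfold QSx QS kk
        refine sum_congr rfl fun n _ => ?_
        rw [if_neg h1, if_neg h2, if_neg hχ1]
        ring
      rw [hz, if_neg h2, add_zero]

/-- the mean values -/
theorem mean_x (x₁ : PC) {b : ℝ} (hb : 0 ≤ b) (R M U : ℕ) {T Z : ℝ} (hT : 1 ≤ T) (hTN : T ≤ M) (hU : 7 * T * (1 + (R : ℝ) ^ 2) ≤ U)
    (hZ0 : 0 ≤ Z) (hZ : ∀ f ∈ Icc 1 R, (f : ℝ) / (Nat.totient f : ℝ) ≤ Z) {x : ℝ} (hx : 1 ≤ x) (hxM : x ≤ M) :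
    ∑ f ∈ Icc 1 R, (f : ℝ) / (Nat.totient f : ℝ) * ∑ χ ∈ Prim f, (∫ ξ in (-T)..T, ‖QSx x₁ b ⟨f, χ⟩ M x ξ‖) ≤
      256 * (1 + Real.log M) ^ 4 * M + 200 * T ^ 2 * U ^ 2 * (R : ℝ) ^ 3 * (1 + Real.log M) ^ 3 +
        Z * (4 * (1 + Real.log M) ^ 2 * M + 18 * T ^ 2 * (1 + Real.log M) ^ 2) := by
  classical
  have hlM : 0 ≤ Real.log M := Real.log_natCast_nonneg M
  have hM0 : (0 : ℝ) < M := by linarith
  have hlogT : Real.log (1 + T) ≤ 1 + Real.log M := by
    have h1 : Real.log (1 + T) ≤ Real.log (2 * M) := Real.log_le_log (by linarith) (by linarith)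
    rw [Real.log_mul (by norm_num) hM0.ne'] at h1
    have := Real.log_two_lt_d9
    linarith
  set Lm : ℝ := 1 + Real.log M with hLm
  have hLm1 : 1 ≤ Lm := by rw [hLm]; linarith
  set C : ℝ := 4 * Lm ^ 2 * M + 18 * T ^ 2 * Lm ^ 2 with hC
  have hC0 : 0 ≤ C := by positivity
  have h1 := vaughan_mean R M U hT hU hx (by linarith) hlogT
  have hQi : ∀ (f : ℕ) (χ : DirichletCharacter ℂ f), IntervalIntegrable (fun ξ => ‖QS f χ M x ξ‖) volume (-T) T :=
    fun f χ => (QS_cont f χ M x).norm.intervalIntegrable _ _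
  have h2 : ∀ f ∈ Icc 1 R, ∀ χ ∈ Prim f, (∫ ξ in (-T)..T, ‖QSx x₁ b ⟨f, χ⟩ M x ξ‖) ≤
      (∫ ξ in (-T)..T, ‖QS f χ M x ξ‖) + (if (⟨f, χ⟩ : PC) = x₁ then C else 0) := by
    intro f hf χ hχ
    rw [mem_Icc] at hf
    have hle := fun ξ => QSx_le x₁ b hf.1 hχ M x ξ
    by_cases hs : (⟨f, χ⟩ : PC) = x₁
    · rw [if_pos hs]
      simp_rw [if_pos hs] at hle
      have hint := PW_int hb M hx hxM hT hlogT
      have h3 : (∫ ξ in (-T)..T, ‖QSx x₁ b ⟨f, χ⟩ M x ξ‖) ≤ ∫ ξ in (-T)..T, (‖QS f χ M x ξ‖ + ‖PW b M x ξ‖) := by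
        apply intervalIntegral.integral_mono_on (by linarith) ((QSx_cont x₁ b _ M x).norm.intervalIntegrable _ _)
        · exact (hQi f χ).add ((PW_cont b M x).norm.intervalIntegrable _ _)
        · intro ξ _
          exact hle ξ
      rw [intervalIntegral.integral_add (hQi f χ) ((PW_cont b M x).norm.intervalIntegrable _ _)] at h3
      have h4 : 4 * Lm ^ 2 * x ≤ 4 * Lm ^ 2 * M := by gcongr
      rw [hC]
      linarith
    · rw [if_neg hs, add_zero]
      simp_rw [if_neg hs, add_zero] at hle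
      apply intervalIntegral.integral_mono_on (by linarith) ((QSx_cont x₁ b _ M x).norm.intervalIntegrable _ _) (hQi f χ)
      intro ξ _
      exact hle ξ
  have h3 : ∑ f ∈ Icc 1 R, (f : ℝ) / (Nat.totient f : ℝ) * ∑ χ ∈ Prim f, (if (⟨f, χ⟩ : PC) = x₁ then C else 0) ≤ Z * C := by
    have e : ∑ f ∈ Icc 1 R, (f : ℝ) / (Nat.totient f : ℝ) * ∑ χ ∈ Prim f, (if (⟨f, χ⟩ : PC) = x₁ then C else 0) =
        ∑ s ∈ (Icc 1 R).sigma (fun f => Prim f), (s.1 : ℝ) / (Nat.totient s.1 : ℝ) * (if s = x₁ then C else 0) := by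
      rw [sum_sigma]
      refine sum_congr rfl fun f _ => ?_
      rw [mul_sum]
    rw [e]
    calc ∑ s ∈ (Icc 1 R).sigma (fun f => Prim f), (s.1 : ℝ) / (Nat.totient s.1 : ℝ) * (if s = x₁ then C else 0) ≤
          ∑ s ∈ (Icc 1 R).sigma (fun f => Prim f), (if s = x₁ then Z * C else 0) := by
          apply sum_le_sum
          intro s hs
          rw [mem_sigma] at hs
          split_ifs
          · exact mul_le_mul_of_nonneg_right (hZ s.1 hs.1) hC0
          · rw [mul_zero]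
      _ ≤ Z * C := by
          rw [sum_ite_eq']
          split_ifs
          · exact le_rfl
          · exact mul_nonneg hZ0 hC0
  calc ∑ f ∈ Icc 1 R, (f : ℝ) / (Nat.totient f : ℝ) * ∑ χ ∈ Prim f, (∫ ξ in (-T)..T, ‖QSx x₁ b ⟨f, χ⟩ M x ξ‖) ≤
        ∑ f ∈ Icc 1 R, (f : ℝ) / (Nat.totient f : ℝ) * ∑ χ ∈ Prim f, ((∫ ξ in (-T)..T, ‖QS f χ M x ξ‖) + (if (⟨f, χ⟩ : PC) = x₁ then C else 0)) := by
        apply sum_le_sum
        intro f hf
        exact mul_le_mul_of_nonneg_left (sum_le_sum (h2 f hf)) (by positivity)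
    _ = ∑ f ∈ Icc 1 R, (f : ℝ) / (Nat.totient f : ℝ) * ∑ χ ∈ Prim f, (∫ ξ in (-T)..T, ‖QS f χ M x ξ‖) +
        ∑ f ∈ Icc 1 R, (f : ℝ) / (Nat.totient f : ℝ) * ∑ χ ∈ Prim f, (if (⟨f, χ⟩ : PC) = x₁ then C else 0) := by
        rw [← sum_add_distrib]
        refine sum_congr rfl fun f _ => ?_
        rw [sum_add_distrib, mul_add]
    _ ≤ (256 * Lm ^ 4 * x + 200 * T ^ 2 * U ^ 2 * (R : ℝ) ^ 3 * Lm ^ 3) + Z * C := add_le_add h1 h3
    _ ≤ _ := by
        have : 256 * Lm ^ 4 * x ≤ 256 * Lm ^ 4 * M := by gcongr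
        linarith

end Pool.Agent.J4H81.PT
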