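import Pool.Agent.J4H81.PT.XCb
import Pool.Agent.J4H81.PT.XEc

/-!
# Growing prime tuples, all x: uniform bounds for the smoothed sums (helper81)
-/

set_option autoImplicit false

namespace Pool.Agent.J4H81.PT

open Finset MeasureTheory
open DirichletCharacter
open Pool.Agent.H807R2.Dav (ee norm_ee ee_add ee_zero ee_int ee_eq dd dd_le)
open Pool.Agent.H398R2.BV (Prim prim_ne_one card_prim_le)
open Pool.Agent.J4H81.PT.ZF (twl az tw_gen_x logder_char_x logder_zeta_x logder_F1 F1 F1_mul F1_diff zeta0_x pb lser_pb coef_sum Gz LS_az Gz_diff)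

/-- no zeros in the region of width `d` up to the exceptional one -/
def ZR (q₁ : ℕ) [NeZero q₁] (χ₁ : DirichletCharacter ℂ q₁) (b d l : ℝ) : Prop :=
  (∀ (f : ℕ) [NeZero f] (χ : DirichletCharacter ℂ f), χ.IsPrimitive → χ ≠ 1 → Real.log f ≤ l → (⟨f, χ⟩ : PC) ≠ ⟨q₁, χ₁⟩ →
    ∀ s : ℂ, 1 - d ≤ s.re → |s.im| ≤ Real.exp l → LFunction χ s ≠ 0) ∧
  (∀ s : ℂ, 1 - d ≤ s.re → |s.im| ≤ Real.exp l → riemannZeta₁ s ≠ 0) ∧
  (∀ s : ℂ, 1 - d ≤ s.re → |s.im| ≤ Real.exp l → F1 χ₁ (1 - b) s ≠ 0)

/-- uniform bound for the smoothed sums -/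
theorem QSx_sup : ∃ C : ℝ, 1 ≤ C ∧ ∀ l : ℝ, 8 ≤ l → ∀ (q₁ : ℕ) [NeZero q₁] (χ₁ : DirichletCharacter ℂ q₁) (b d : ℝ),
    χ₁ ≠ 1 → Real.log q₁ ≤ l → 0 < b → b ≤ 1 / 8 → LFunction χ₁ ((1 - b : ℝ) : ℂ) = 0 → 1 / l ^ 2 ≤ d → d ≤ 1 / 8 → ZR q₁ χ₁ b d l →
    ∀ N : ℕ, 4 * l ≤ Real.log N → Real.log N ≤ l ^ 2 → d * Real.log N ≤ 2 * l →
    ∀ f : ℕ, 1 ≤ f → Real.log f ≤ l → ∀ χ ∈ Prim f, ∀ ξ : ℝ, |2 * Real.pi * ξ| ≤ Real.exp l / 4 →
      ∀ x : ℝ, 1 ≤ x → x ≤ N → ‖QSx ⟨q₁, χ₁⟩ b ⟨f, χ⟩ N x ξ‖ ≤ C * l ^ 4 * (N * Real.exp (-(d * Real.log N / 4))) := by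
  obtain ⟨C₂, hC₂, h2⟩ := coef_sum
  obtain ⟨C₃, hC₃, h3⟩ := zeta0_x
  refine ⟨8 * (8000 + 6 * C₃) + 6 * C₂, by linarith, ?_⟩
  intro l hl q₁ _ χ₁ b d hχ₁ hq₁ hb hb1 hzero hd hd1 hZR N hN4 hNl hdN f hf hfl χ hχ ξ hξ x hx hxN
  obtain ⟨hZ1, hZ2, hZ3⟩ := hZR
  have hl0 : 0 < l := by linarith
  have hd0 : 0 < d := lt_of_lt_of_le (by positivity) hd
  have hx0 : 0 < x := by linarith
  have hN0 : (0 : ℝ) < N := by linarith
  have hlx : Real.log x ≤ Real.log N := Real.log_le_log hx0 hxN
  have hlogx : 0 ≤ Real.log x := Real.log_nonneg hx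
  have hdx : d * Real.log x ≤ 2 * l := (mul_le_mul_of_nonneg_left hlx hd0.le).trans hdN
  have hedl : 1 ≤ Real.exp (d * l) := Real.one_le_exp (by positivity)
  set M : ℝ := (8000 + 6 * C₃) * l ^ 3 * Real.exp (d * l) with hM
  have hM0 : 0 ≤ M := by positivity
  -- the regular part of zeta
  have hz0 : ∀ s : ℂ, 1 - d / 2 ≤ s.re → s.re ≤ 2 → |s.im| ≤ Real.exp l - 1 → ‖riemannZeta₀ s‖ ≤ 6 * C₃ * l ^ 3 * Real.exp (d * l) := by
    intro s hs1 hs2 hs3
    have h4 := h3 (l + 1) (d * l + 1) (d / 2) (by linarith) (by linarith) (by linarith) (by positivity) (by nlinarith) s hs1 (by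
      have h7 : |s.im| + 2 ≤ Real.exp (l + 1) := by
        rw [Real.exp_add]
        have h8 := Real.exp_one_gt_d9
        have h9 := Real.add_one_le_exp l
        nlinarith
      have h10 : 0 < |s.im| + 2 := by have := abs_nonneg s.im; linarith
      rw [← Real.log_exp (l + 1)]
      exact Real.log_le_log h10 h7) hs2
    refine h4.trans ?_
    rw [Real.exp_add]
    have h5 := Real.exp_one_lt_d9
    have h6 : (l + 1) * Real.exp 1 ≤ 6 * l ^ 3 := by
      have h7 : l ≤ l ^ 3 := by
        calc l = l ^ 1 := (pow_one l).symm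
          _ ≤ l ^ 3 := pow_le_pow_right₀ (by linarith) (by norm_num)
      nlinarith
    calc C₃ * (l + 1) * (Real.exp (d * l) * Real.exp 1) = C₃ * Real.exp (d * l) * ((l + 1) * Real.exp 1) := by ring
      _ ≤ C₃ * Real.exp (d * l) * (6 * l ^ 3) := by gcongr
      _ = _ := by ring
  have h8M : 8000 * l ^ 3 + 6 * C₃ * l ^ 3 * Real.exp (d * l) ≤ M := by
    rw [hM]
    have : 8000 * l ^ 3 ≤ 8000 * l ^ 3 * Real.exp (d * l) := le_mul_of_one_le_right (by positivity) hedl
    linarith
  have h8M' : 8000 * l ^ 3 ≤ M := by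
    have : 0 ≤ 6 * C₃ * l ^ 3 * Real.exp (d * l) := by positivity
    linarith
  -- the final estimate
  have hfin : (8 * M + 6 * (C₂ * l ^ 4)) * (x * Real.exp (-(d * Real.log x / 2))) ≤
      (8 * (8000 + 6 * C₃) + 6 * C₂) * l ^ 4 * (N * Real.exp (-(d * Real.log N / 4))) := by
    have h4 : 8 * M + 6 * (C₂ * l ^ 4) ≤ (8 * (8000 + 6 * C₃) + 6 * C₂) * l ^ 4 * Real.exp (d * l) := by
      have h5 : l ^ 3 ≤ l ^ 4 := pow_le_pow_right₀ (by linarith) (by norm_num)
      have h6 : M ≤ (8000 + 6 * C₃) * l ^ 4 * Real.exp (d * l) := by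
        rw [hM]; gcongr
      have h7 : C₂ * l ^ 4 ≤ C₂ * l ^ 4 * Real.exp (d * l) := le_mul_of_one_le_right (by positivity) hedl
      linarith
    have h5 : x * Real.exp (-(d * Real.log x / 2)) ≤ N * Real.exp (-(d * Real.log N / 2)) := by
      have e1 : ∀ y : ℝ, 0 < y → y * Real.exp (-(d * Real.log y / 2)) = Real.exp ((1 - d / 2) * Real.log y) := by
        intro y hy
        nth_rewrite 1 [← Real.exp_log hy]
        rw [← Real.exp_add]
        congr 1
        ring
      rw [e1 x hx0, e1 N hN0]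
      apply Real.exp_le_exp.2
      exact mul_le_mul_of_nonneg_left hlx (by linarith)
    calc (8 * M + 6 * (C₂ * l ^ 4)) * (x * Real.exp (-(d * Real.log x / 2))) ≤
          ((8 * (8000 + 6 * C₃) + 6 * C₂) * l ^ 4 * Real.exp (d * l)) * (N * Real.exp (-(d * Real.log N / 2))) := by
          apply mul_le_mul h4 h5 (by positivity) (by positivity)
      _ = (8 * (8000 + 6 * C₃) + 6 * C₂) * l ^ 4 * (N * Real.exp (d * l + -(d * Real.log N / 2))) := by rw [Real.exp_add]; ring
      _ ≤ _ := by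
          have h6 : d * l + -(d * Real.log N / 2) ≤ -(d * Real.log N / 4) := by
            have := mul_le_mul_of_nonneg_left hN4 hd0.le
            linarith
          have h7 := Real.exp_le_exp.2 h6
          gcongr
  refine le_trans ?_ hfin
  have hxl : Real.log x ≤ l ^ 2 := hlx.trans hNl
  by_cases hs1 : (⟨f, χ⟩ : PC) = ⟨1, 1⟩
  · -- the principal character
    have h4 : QSx ⟨q₁, χ₁⟩ b ⟨f, χ⟩ N x ξ = ∑ n ∈ Icc 1 ⌊x⌋₊, twl az ξ n * ((Real.log (x / n) : ℝ) : ℂ) := by
      rw [← QS_form az ξ hx N hxN]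
      unfold QSx az kk
      rw [hs1]
      refine sum_congr rfl fun n _ => ?_
      rw [if_pos rfl]
      simp only
      rw [MulChar.one_apply (isUnit_of_subsingleton _), mul_one]
      ring
    rw [h4]
    have hgb : ∀ n : ℕ, ‖az n‖ ≤ ArithmeticFunction.vonMangoldt n + 1 := by
      intro n
      unfold az
      refine (norm_sub_le _ _).trans ?_
      rw [norm_one, Complex.norm_real, Real.norm_of_nonneg ArithmeticFunction.vonMangoldt_nonneg]
    apply tw_gen_x (H := Gz) hl hd hd1 hM0 hC₂ _ _ _ _ hξ hx hxl hdx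
    · intro y hy
      exact (LS_az (by simpa using hy)).1
    · intro s hs
      exact (LS_az hs).2
    · intro s ha1 ha2 ha3
      obtain ⟨h5, h6⟩ := logder_zeta_x hl hd hd1 hZ2 ha1 ha2 ha3
      refine ⟨Gz_diff h5, ?_⟩
      unfold Gz
      refine (norm_sub_le _ _).trans ?_
      rw [norm_neg]
      have h7 := hz0 s ha1 (by linarith) ha3
      linarith
    · intro y hy hy2 s hs
      exact (h2 _ hgb y hy hy2).2 s hs
  · have hf2 : 2 ≤ f := by
      by_contra hcon
      have hf1 : f = 1 := by omega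
      subst hf1
      apply hs1
      rw [DirichletCharacter.level_one χ]
    have : NeZero f := ⟨by omega⟩
    have hχ1 : χ ≠ 1 := prim_ne_one hf2 hχ
    have hp : χ.IsPrimitive := by
      classical
      unfold Prim at hχ
      exact (mem_filter.1 hχ).2
    by_cases hs2 : (⟨f, χ⟩ : PC) = ⟨q₁, χ₁⟩
    · -- the exceptional character
      have hfq : f = q₁ := congrArg Sigma.fst hs2
      subst hfq
      have hχχ : χ = χ₁ := by
        have := (Sigma.mk.inj_iff.1 hs2).2
        exact eq_of_heq this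
      subst hχχ
      set g : ℕ → ℂ := (fun n : ℕ => ((ArithmeticFunction.vonMangoldt n : ℝ) : ℂ) * χ (n : ZMod f)) + pb b with hg
      have h4 : QSx ⟨f, χ⟩ b ⟨f, χ⟩ N x ξ = ∑ n ∈ Icc 1 ⌊x⌋₊, twl g ξ n * ((Real.log (x / n) : ℝ) : ℂ) := by
        rw [← QS_form g ξ hx N hxN]
        unfold QSx kk
        refine sum_congr rfl fun n _ => ?_
        rw [if_neg hs1, if_pos rfl]
        rfl
      rw [h4]
      have hgb : ∀ n : ℕ, ‖g n‖ ≤ ArithmeticFunction.vonMangoldt n + 1 := by
        intro n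
        rw [hg, Pi.add_apply]
        refine (norm_add_le _ _).trans (add_le_add ?_ ?_)
        · rw [norm_mul, Complex.norm_real, Real.norm_of_nonneg ArithmeticFunction.vonMangoldt_nonneg]
          have h3 := χ.norm_le_one (n : ZMod f)
          exact mul_le_of_le_one_right ArithmeticFunction.vonMangoldt_nonneg h3
        · unfold pb
          rw [Complex.norm_real, Real.norm_of_nonneg (Real.exp_pos _).le, Real.exp_le_one_iff]
          have := mul_nonneg hb.le (Real.log_natCast_nonneg n)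
          linarith
      have hge : (fun n : ℕ => ((ArithmeticFunction.vonMangoldt n : ℝ) : ℂ) * χ (n : ZMod f)) =
          (fun n : ℕ => χ (n : ZMod f)) * (fun n : ℕ => ((ArithmeticFunction.vonMangoldt n : ℝ) : ℂ)) := by
        funext n
        simp only [Pi.mul_apply]
        ring
      have hsum : ∀ s : ℂ, 1 < s.re → LSeriesSummable (fun n : ℕ => ((ArithmeticFunction.vonMangoldt n : ℝ) : ℂ) * χ (n : ZMod f)) s := by
        intro s hs
        rw [hge]
        exact DirichletCharacter.LSeriesSummable_twist_vonMangoldt χ hs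
      apply tw_gen_x (H := fun s => -(deriv (F1 χ (1 - b)) s / F1 χ (1 - b) s) + riemannZeta₀ (s + b)) hl hd hd1 hM0 hC₂ _ _ _ _ hξ hx hxl hdx
      · intro y hy
        exact (hsum (y : ℂ) (by simpa using hy)).add (lser_pb hb.le (by simpa using hy)).1
      · intro s hs
        rw [hg, LSeries_add (hsum s hs) (lser_pb hb.le hs).1, (lser_pb hb.le hs).2, hge, DirichletCharacter.LSeries_twist_vonMangoldt_eq χ hs]
        have e1 := DirichletCharacter.deriv_LFunction_eq_deriv_LSeries χ hs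
        have e2 := DirichletCharacter.LFunction_eq_LSeries χ hs
        rw [← e1, ← e2]
        have hmul : LFunction χ = fun z => (z - ((1 - b : ℝ) : ℂ)) * F1 χ (1 - b) z := by
          funext z
          exact F1_mul hzero z
        have hLne : LFunction χ s ≠ 0 := DirichletCharacter.LFunction_ne_zero_of_one_le_re χ (Or.inl hχ1) hs.le
        have hval : LFunction χ s = (s - ((1 - b : ℝ) : ℂ)) * F1 χ (1 - b) s := F1_mul hzero s
        have hderiv : deriv (LFunction χ) s = F1 χ (1 - b) s + (s - ((1 - b : ℝ) : ℂ)) * deriv (F1 χ (1 - b)) s := by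
          have hh : HasDerivAt (fun z => (z - ((1 - b : ℝ) : ℂ)) * F1 χ (1 - b) z) (1 * F1 χ (1 - b) s + (s - ((1 - b : ℝ) : ℂ)) * deriv (F1 χ (1 - b)) s) s :=
            ((hasDerivAt_id s).sub_const _).mul (F1_diff hχ1 (1 - b) s).hasDerivAt
          rw [one_mul] at hh
          rw [hmul]
          exact hh.deriv
        have hne1 : s - ((1 - b : ℝ) : ℂ) ≠ 0 := fun h => hLne (by rw [hval, h, zero_mul])
        have hne2 : F1 χ (1 - b) s ≠ 0 := fun h => hLne (by rw [hval, h, mul_zero])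
        have hsb : s + b ≠ 1 := by
          intro h
          apply hne1
          push_cast
          linear_combination h
        rw [hderiv, hval, riemannZeta_eq_inv_sub_add hsb]
        have e3 : s + (b : ℂ) - 1 = s - ((1 - b : ℝ) : ℂ) := by push_cast; ring
        rw [e3]
        field_simp
        ring
      · intro s ha1 ha2 ha3
        obtain ⟨h5, h6⟩ := logder_F1 hl hd hd1 f χ hχ1 hq₁ hb hb1 hzero hZ3 ha1 ha2 ha3
        refine ⟨?_, ?_⟩
        · have hdd : DifferentiableAt ℂ (deriv (F1 χ (1 - b))) s := ((F1_diff hχ1 (1 - b)).analyticAt s).deriv.differentiableAt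
          have hd0' : DifferentiableAt ℂ (fun s : ℂ => riemannZeta₀ (s + b)) s :=
            DifferentiableAt.comp s (g := riemannZeta₀) (f := fun s : ℂ => s + (b : ℂ)) (differentiable_riemannZeta₀ (s + b)) (differentiableAt_id.add_const _)
          exact ((hdd.div (F1_diff hχ1 (1 - b) s) h5).neg).add hd0'
        · refine (norm_add_le _ _).trans ?_
          rw [norm_neg]
          have h7 := hz0 (s + b) (by simp; linarith) (by simp; linarith) (by simpa using ha3)
          linarith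
      · intro y hy hy2 s hs
        exact (h2 _ hgb y hy hy2).2 s hs
    · -- other characters
      have h4 : QSx ⟨q₁, χ₁⟩ b ⟨f, χ⟩ N x ξ = ∑ n ∈ Icc 1 ⌊x⌋₊, twl (fun n => ((ArithmeticFunction.vonMangoldt n : ℝ) : ℂ) * χ (n : ZMod f)) ξ n * ((Real.log (x / n) : ℝ) : ℂ) := by
        rw [← QS_form _ ξ hx N hxN]
        unfold QSx kk
        refine sum_congr rfl fun n _ => ?_
        rw [if_neg hs1, if_neg hs2, add_zero]
      rw [h4]
      have hgb : ∀ n : ℕ, ‖((ArithmeticFunction.vonMangoldt n : ℝ) : ℂ) * χ (n : ZMod f)‖ ≤ ArithmeticFunction.vonMangoldt n + 1 := by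
        intro n
        rw [norm_mul, Complex.norm_real, Real.norm_of_nonneg ArithmeticFunction.vonMangoldt_nonneg]
        have h3 := χ.norm_le_one (n : ZMod f)
        have h4 : 0 ≤ ArithmeticFunction.vonMangoldt n := ArithmeticFunction.vonMangoldt_nonneg
        nlinarith [norm_nonneg (χ (n : ZMod f))]
      have hge : (fun n : ℕ => ((ArithmeticFunction.vonMangoldt n : ℝ) : ℂ) * χ (n : ZMod f)) =
          (fun n : ℕ => χ (n : ZMod f)) * (fun n : ℕ => ((ArithmeticFunction.vonMangoldt n : ℝ) : ℂ)) := by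
        funext n
        simp only [Pi.mul_apply]
        ring
      apply tw_gen_x (H := fun s => -(deriv (LFunction χ) s / LFunction χ s)) hl hd hd1 hM0 hC₂ _ _ _ _ hξ hx hxl hdx
      · intro y hy
        rw [hge]
        exact DirichletCharacter.LSeriesSummable_twist_vonMangoldt χ (by simpa using hy)
      · intro s hs
        rw [hge, DirichletCharacter.LSeries_twist_vonMangoldt_eq χ hs,
          DirichletCharacter.deriv_LFunction_eq_deriv_LSeries χ hs,
          DirichletCharacter.LFunction_eq_LSeries χ hs, neg_div]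
      · intro s ha1 ha2 ha3
        obtain ⟨h5, h6⟩ := logder_char_x hl hd hd1 f χ hχ1 hfl (hZ1 f χ hp hχ1 hfl hs2) ha1 ha2 ha3
        refine ⟨?_, by rw [norm_neg]; linarith⟩
        have hdiff : Differentiable ℂ (LFunction χ) := differentiable_LFunction hχ1
        have hdd : DifferentiableAt ℂ (deriv (LFunction χ)) s :=
          (hdiff.analyticAt s).deriv.differentiableAt
        exact (hdd.div (hdiff s) h5).neg
      · intro y hy hy2 s hs
        exact (h2 _ hgb y hy hy2).2 s hs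

end Pool.Agent.J4H81.PT
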