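import Pool.Agent.J4H81.PT.EAc
import Pool.Agent.J4H81.PT.XFa

/-!
# Growing prime tuples, all x: the energy on the major arcs for general weights (helper81)
-/

set_option autoImplicit false

namespace Pool.Agent.J4H81.PT

open Finset MeasureTheory
open Pool.Agent.H807R2.Dav (ee norm_ee ee_add ee_zero ee_int ee_eq dd dd_le dd_nonneg dd_ge dd_add_int ee_add_int dd_neg)
open H343 (GS GS_expand GS_one)
open Pool.Agent.H398R2.BV (Prim prim_ne_one)

open Classical in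
/-- the twisted sums -/
noncomputable def DDc (c ω : ℕ → ℝ) (N : ℕ) (f : ℕ) (χ : DirichletCharacter ℂ f) (β : ℝ) : ℂ :=
  ∑ n ∈ range N, (((c n : ℝ) : ℂ) * χ (n : ZMod f) - (if χ = 1 then ((ω n : ℝ) : ℂ) else 0)) * ee (n * β)

/-- the difference near a fraction -/
theorem major_point_gen {W Q N N₁ q a : ℕ} (hWs : Squarefree W) {ω : ℕ → ℝ} (hω : Wt ω N N₁) {c : ℕ → ℝ} (hcp : ∀ n, c n ≠ 0 → n.Prime ∧ N₁ < n) (ha : a ∈ Fr q) (hqQ : q ≤ Q)
    (hqN : q ≤ N₁) {β : ℝ} (hβ : 2 * Real.pi * |β| ≤ 2 / ((W * Q : ℕ) : ℝ) ^ 2) :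
    ‖hat (cx (hc W Q c ω)) N ((a : ℝ) / q + β) - ((1 / (Nat.totient q : ℝ) : ℝ) : ℂ) *
      ∑ χ : DirichletCharacter ℂ q, χ (a : ZMod q) * (GS χ⁻¹ * DDc c ω N q χ β)‖ ≤ 3 * ((W * Q : ℕ) : ℝ) ^ 3 := by
  classical
  have hq : 1 ≤ q := by have := (mem_Fr.1 ha).1; omega
  have h1 := model_major hWs ω (hω.zero_ge N le_rfl) ha hqQ hβ
  have h2 := hω.TV_le' N
  have hcop : ∀ n, ((c n : ℝ) : ℂ) ≠ 0 → n.Coprime q := by
    intro n hn
    have h3 : c n ≠ 0 := by exact_mod_cast hn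
    obtain ⟨hp, hn1⟩ := hcp n h3
    rw [Nat.Prime.coprime_iff_not_dvd hp]
    intro hd
    have := Nat.le_of_dvd hq hd
    omega
  have e : hat (cx (hc W Q c ω)) N ((a : ℝ) / q + β) - ((1 / (Nat.totient q : ℝ) : ℝ) : ℂ) *
      ∑ χ : DirichletCharacter ℂ q, χ (a : ZMod q) * (GS χ⁻¹ * DDc c ω N q χ β) =
      -(∑ n ∈ range N, ((ω n * GW W Q (n : ℤ) : ℝ) : ℂ) * ee (n * ((a : ℝ) / q + β)) - ((cc q : ℝ) : ℂ) * vh ω N β) := by
    have e1 : hat (cx (hc W Q c ω)) N ((a : ℝ) / q + β) = ∑ n ∈ range N, ((c n : ℝ) : ℂ) * ee (n * ((a : ℝ) / q + β)) -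
        ∑ n ∈ range N, ((ω n * GW W Q (n : ℤ) : ℝ) : ℂ) * ee (n * ((a : ℝ) / q + β)) := by
      unfold hat cx hc
      rw [← sum_sub_distrib]
      refine sum_congr rfl fun n _ => ?_
      push_cast; ring
    have e2 := char_expand (N := N) hq ha (fun n => ((c n : ℝ) : ℂ)) hcop β
    have e3 : ∑ χ : DirichletCharacter ℂ q, χ (a : ZMod q) * (GS χ⁻¹ * DDc c ω N q χ β) =
        ∑ χ : DirichletCharacter ℂ q, χ (a : ZMod q) * (GS χ⁻¹ * ∑ n ∈ range N, ((c n : ℝ) : ℂ) * χ (n : ZMod q) * ee (n * β)) -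
          ((ArithmeticFunction.moebius q : ℤ) : ℂ) * vh ω N β := by
      have e4 : ∀ χ : DirichletCharacter ℂ q, DDc c ω N q χ β =
          ∑ n ∈ range N, ((c n : ℝ) : ℂ) * χ (n : ZMod q) * ee (n * β) - (if χ = 1 then vh ω N β else 0) := by
        intro χ
        unfold DDc vh
        split_ifs
        · rw [← sum_sub_distrib]
          refine sum_congr rfl fun n _ => ?_
          push_cast; ring
        · rw [sub_zero]
          refine sum_congr rfl fun n _ => ?_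
          push_cast; ring
      simp_rw [e4]
      have e5 : ∀ χ : DirichletCharacter ℂ q, χ (a : ZMod q) * (GS χ⁻¹ * (∑ n ∈ range N, ((c n : ℝ) : ℂ) * χ (n : ZMod q) * ee (n * β) -
          (if χ = 1 then vh ω N β else 0))) = χ (a : ZMod q) * (GS χ⁻¹ * ∑ n ∈ range N, ((c n : ℝ) : ℂ) * χ (n : ZMod q) * ee (n * β)) -
          (if χ = 1 then ((ArithmeticFunction.moebius q : ℤ) : ℂ) * vh ω N β else 0) := by
        intro χ
        split_ifs with hχ
        · subst hχ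
          have hu : IsUnit ((a : ℕ) : ZMod q) := (ZMod.isUnit_iff_coprime a q).2 (mem_Fr.1 ha).2
          rw [inv_one, GS_one q hq, MulChar.one_apply hu]
          ring
        · ring
      simp_rw [e5]
      rw [sum_sub_distrib, sum_ite_eq' univ (1 : DirichletCharacter ℂ q)]
      simp
    rw [e1, e2, e3]
    unfold cc
    push_cast
    ring
  rw [e, norm_neg]
  refine h1.trans ?_
  have : 0 ≤ ((W * Q : ℕ) : ℝ) ^ 3 := by positivity
  nlinarith

/-- the twisted sums depend only on the primitive character -/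
theorem DDc_changeLevel {N N₁ f m : ℕ} {ω c : ℕ → ℝ} (hcp : ∀ n, c n ≠ 0 → n.Prime ∧ N₁ < n) (hm : 1 ≤ m) (hmN : m ≤ N₁) (h : f ∣ m)
    (ψ : DirichletCharacter ℂ f) (β : ℝ) : DDc c ω N m (DirichletCharacter.changeLevel h ψ) β = DDc c ω N f ψ β := by
  classical
  have : NeZero m := ⟨by omega⟩
  have hiff : DirichletCharacter.changeLevel h ψ = 1 ↔ ψ = 1 := by
    constructor
    · intro h1
      exact DirichletCharacter.changeLevel_injective h (by rw [h1, map_one])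
    · rintro rfl
      exact map_one _
  unfold DDc
  simp_rw [hiff]
  refine sum_congr rfl fun n _ => ?_
  by_cases hz : c n = 0
  · rw [hz]; simp
  · obtain ⟨hp, hn1⟩ := hcp n hz
    have hcop : n.Coprime m := by
      rw [Nat.Prime.coprime_iff_not_dvd hp]
      intro hd
      have := Nat.le_of_dvd hm hd
      omega
    have h1 := DirichletCharacter.changeLevel_eq_cast_of_dvd' ψ h (a := (n : ℤ))
      (by exact_mod_cast Nat.isCoprime_iff_coprime.mpr hcop)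
    push_cast at h1
    rw [h1]

/-- the mean square over the fractions with denominator `q` -/
theorem frac_mean_gen {W Q N N₁ q : ℕ} (hWs : Squarefree W) {ω : ℕ → ℝ} (hω : Wt ω N N₁) {c : ℕ → ℝ} (hcp : ∀ n, c n ≠ 0 → n.Prime ∧ N₁ < n) (hq : 1 ≤ q) (hqQ : q ≤ Q)
    (hqN : q ≤ N₁) {β : ℝ} (hβ : 2 * Real.pi * |β| ≤ 2 / ((W * Q : ℕ) : ℝ) ^ 2) :
    ∑ a ∈ Fr q, ‖hat (cx (hc W Q c ω)) N ((a : ℝ) / q + β)‖ ^ 2 ≤
      2 / (Nat.totient q : ℝ) * ∑ f ∈ q.divisors, (f : ℝ) * ∑ ψ ∈ Prim f, ‖DDc c ω N f ψ β‖ ^ 2 +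
        18 * q * ((W * Q : ℕ) : ℝ) ^ 6 := by
  classical
  have : NeZero q := ⟨by omega⟩
  have hφ : (0 : ℝ) < Nat.totient q := by exact_mod_cast Nat.totient_pos.2 hq
  set X : ℝ := ((W * Q : ℕ) : ℝ) with hX
  have hX0 : 0 ≤ X := Nat.cast_nonneg _
  have h1 : ∀ a ∈ Fr q, ‖hat (cx (hc W Q c ω)) N ((a : ℝ) / q + β)‖ ^ 2 ≤
      2 * ‖((1 / (Nat.totient q : ℝ) : ℝ) : ℂ) * ∑ χ : DirichletCharacter ℂ q, χ (a : ZMod q) * (GS χ⁻¹ * DDc c ω N q χ β)‖ ^ 2 +
        2 * (3 * X ^ 3) ^ 2 := by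
    intro a ha
    have h2 := major_point_gen hWs hω hcp ha hqQ hqN hβ
    set u := hat (cx (hc W Q c ω)) N ((a : ℝ) / q + β)
    set v := ((1 / (Nat.totient q : ℝ) : ℝ) : ℂ) * ∑ χ : DirichletCharacter ℂ q, χ (a : ZMod q) * (GS χ⁻¹ * DDc c ω N q χ β)
    have h3 : ‖u‖ ≤ ‖v‖ + 3 * X ^ 3 := by
      have : u = v + (u - v) := by ring
      rw [this]
      exact (norm_add_le _ _).trans (by linarith)
    have h4 : 0 ≤ 3 * X ^ 3 := by positivity
    calc ‖u‖ ^ 2 ≤ (‖v‖ + 3 * X ^ 3) ^ 2 := pow_le_pow_left₀ (norm_nonneg _) h3 2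
      _ ≤ _ := by nlinarith [sq_nonneg (‖v‖ - 3 * X ^ 3)]
  refine (sum_le_sum h1).trans ?_
  rw [sum_add_distrib, ← mul_sum, sum_const, nsmul_eq_mul]
  have h2 := sum_Fr_le hq (fun χ => GS χ⁻¹ * DDc c ω N q χ β)
  have h3 : ∑ χ : DirichletCharacter ℂ q, ‖GS χ⁻¹ * DDc c ω N q χ β‖ ^ 2 ≤
      ∑ f ∈ q.divisors, ∑ ψ ∈ Prim f, (f : ℝ) * ‖DDc c ω N f ψ β‖ ^ 2 := by
    apply by_conductor q (fun χ => ‖GS χ⁻¹ * DDc c ω N q χ β‖ ^ 2) (fun χ => sq_nonneg _)
      (fun f ψ => (f : ℝ) * ‖DDc c ω N f ψ β‖ ^ 2)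
    intro f hf ψ
    rw [norm_mul, mul_pow, DDc_changeLevel hcp hq hqN hf]
    apply mul_le_mul_of_nonneg_right _ (sq_nonneg _)
    rw [H343.Gauss.GS_eq]
    refine (Pool.Agent.H341R2.EM.gauss_le q _).trans ?_
    rw [DirichletCharacter.conductor_inv]
    have hf0 : 0 < f := Nat.pos_of_dvd_of_pos hf hq
    have : (DirichletCharacter.changeLevel hf ψ).conductor ≤ f := by
      rw [DirichletCharacter.conductor_changeLevel]
      exact Nat.le_of_dvd hf0 ψ.conductor_dvd_level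
    exact_mod_cast this
  have h4 : ((Fr q).card : ℝ) ≤ q := by
    rw [card_Fr]
    exact_mod_cast Nat.totient_le q
  have h5 : (1 : ℝ) / (Nat.totient q : ℝ) * ∑ χ : DirichletCharacter ℂ q, ‖GS χ⁻¹ * DDc c ω N q χ β‖ ^ 2 ≤
      1 / (Nat.totient q : ℝ) * ∑ f ∈ q.divisors, ∑ ψ ∈ Prim f, (f : ℝ) * ‖DDc c ω N f ψ β‖ ^ 2 :=
    mul_le_mul_of_nonneg_left h3 (by positivity)
  have h6 : ∑ f ∈ q.divisors, (f : ℝ) * ∑ ψ ∈ Prim f, ‖DDc c ω N f ψ β‖ ^ 2 =
      ∑ f ∈ q.divisors, ∑ ψ ∈ Prim f, (f : ℝ) * ‖DDc c ω N f ψ β‖ ^ 2 := by simp_rw [mul_sum]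
  rw [h6]
  have h7 : ((Fr q).card : ℝ) * (2 * (3 * X ^ 3) ^ 2) ≤ q * (2 * (3 * X ^ 3) ^ 2) := by gcongr
  have h8 : (q : ℝ) * (2 * (3 * X ^ 3) ^ 2) = 18 * q * X ^ 6 := by ring
  have h9 : 2 / (Nat.totient q : ℝ) * ∑ f ∈ q.divisors, ∑ ψ ∈ Prim f, (f : ℝ) * ‖DDc c ω N f ψ β‖ ^ 2 =
      2 * (1 / (Nat.totient q : ℝ) * ∑ f ∈ q.divisors, ∑ ψ ∈ Prim f, (f : ℝ) * ‖DDc c ω N f ψ β‖ ^ 2) := by ring
  rw [h9]
  linarith

/-- the mean squares of the twisted sums -/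
noncomputable def EEc (c ω : ℕ → ℝ) (N R : ℕ) (Δ : ℝ) : ℝ :=
  ∑ f ∈ Icc 1 R, (f : ℝ) / (Nat.totient f : ℝ) * ∑ ψ ∈ Prim f, ∫ β in (-Δ)..Δ, ‖DDc c ω N f ψ β‖ ^ 2

theorem DDc_cont (c ω : ℕ → ℝ) (N : ℕ) (f : ℕ) (χ : DirichletCharacter ℂ f) : Continuous (DDc c ω N f χ) := by
  unfold DDc
  apply continuous_finsetSum
  intro s _
  exact continuous_const.mul (ee_cont.comp (by fun_prop))

/-- the energy on the major arcs -/
theorem energy_major_gen {W Q T P N₁ : ℕ} (hWs : Squarefree W) (hT : 0 < T) {ω : ℕ → ℝ} (hω : Wt ω (W * T) N₁)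
    {c : ℕ → ℝ} (hcp : ∀ n, c n ≠ 0 → n.Prime ∧ N₁ < n)
    (hRQ : W * P ≤ Q) (hRN : W * P ≤ N₁) (hβ : 2 * Real.pi * ((P : ℝ) / (W * T : ℕ)) ≤ 2 / ((W * Q : ℕ) : ℝ) ^ 2)
    (hsmall : (P : ℝ) / (W * T : ℕ) * (W * P : ℕ) < 1) :
    ∫ θ in (0 : ℝ)..1, {θ : ℝ | W * θ ∈ MA P ((P : ℝ) / T)}.indicator (fun θ => ‖hat (cx (hc W Q c ω)) (W * T) θ‖ ^ 2) θ ≤
      4 * (∑ q ∈ Icc 1 (W * P), 1 / (Nat.totient q : ℝ)) * EEc c ω (W * T) (W * P) ((P : ℝ) / (W * T : ℕ)) +
        72 * ((W * P : ℕ) : ℝ) ^ 2 * ((W * Q : ℕ) : ℝ) ^ 6 * ((P : ℝ) / (W * T : ℕ)) := by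
  classical
  have hWpos : 0 < W := Nat.pos_of_ne_zero hWs.ne_zero
  set Δ : ℝ := (P : ℝ) / (W * T : ℕ) with hΔ
  have hΔ0 : 0 ≤ Δ := by positivity
  set G : ℝ → ℝ := fun θ => ‖hat (cx (hc W Q c ω)) (W * T) θ‖ ^ 2 with hG
  have hGc : Continuous G := ((hat_cont _ _).norm).pow 2
  have hG0 : ∀ x, 0 ≤ G x := fun x => sq_nonneg _
  have hGper : ∀ x, G (x + 1) = G x := by
    intro x
    have := hat_int (cx (hc W Q c ω)) (W * T) x 1
    rw [Int.cast_one] at this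
    rw [hG]; simp only; rw [this]
  set R := W * P with hR
  set X : ℝ := ((W * Q : ℕ) : ℝ) with hX
  have hMm : MeasurableSet {θ : ℝ | W * θ ∈ MA P ((P : ℝ) / T)} := (measurable_const.mul measurable_id) (MA_meas _ _)
  have hii : ∀ (B : Set ℝ), MeasurableSet B → IntervalIntegrable (B.indicator G) volume 0 1 := by
    intro B hB
    rw [intervalIntegrable_iff]
    exact (hGc.intervalIntegrable 0 1).def'.indicator hB
  have hiqa : ∀ q a : ℕ, IntervalIntegrable (fun θ => (Set.Icc ((a : ℝ) / q - Δ) ((a : ℝ) / q + Δ)).indicator G θ +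
      (Set.Icc (((a : ℝ) / q + 1) - Δ) (((a : ℝ) / q + 1) + Δ)).indicator G θ) volume 0 1 :=
    fun q a => (hii _ measurableSet_Icc).add (hii _ measurableSet_Icc)
  have hiq : ∀ q : ℕ, IntervalIntegrable (fun θ => ∑ a ∈ Fr q, ((Set.Icc ((a : ℝ) / q - Δ) ((a : ℝ) / q + Δ)).indicator G θ +
      (Set.Icc (((a : ℝ) / q + 1) - Δ) (((a : ℝ) / q + 1) + Δ)).indicator G θ)) volume 0 1 :=
    fun q => ii_sum _ _ fun a _ => hiqa q a
  -- pointwise bound by the sum over the arcs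
  have h1 : ∫ θ in (0 : ℝ)..1, {θ : ℝ | W * θ ∈ MA P ((P : ℝ) / T)}.indicator G θ ≤
      ∫ θ in (0 : ℝ)..1, ∑ q ∈ Icc 1 R, ∑ a ∈ Fr q, ((Set.Icc ((a : ℝ) / q - Δ) ((a : ℝ) / q + Δ)).indicator G θ +
        (Set.Icc (((a : ℝ) / q + 1) - Δ) (((a : ℝ) / q + 1) + Δ)).indicator G θ) := by
    apply intervalIntegral.integral_mono_on zero_le_one (hii _ hMm)
    · apply ii_sum
      intro q _
      exact hiq q
    · intro θ hθ
      have hnn : ∀ q ∈ Icc 1 R, ∀ a ∈ Fr q, 0 ≤ (Set.Icc ((a : ℝ) / q - Δ) ((a : ℝ) / q + Δ)).indicator G θ +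
          (Set.Icc (((a : ℝ) / q + 1) - Δ) (((a : ℝ) / q + 1) + Δ)).indicator G θ :=
        fun q _ a _ => add_nonneg (Set.indicator_nonneg (fun _ _ => hG0 _) _) (Set.indicator_nonneg (fun _ _ => hG0 _) _)
      by_cases hm : θ ∈ {θ : ℝ | W * θ ∈ MA P ((P : ℝ) / T)}
      · rw [Set.indicator_of_mem hm]
        obtain ⟨q, hq, a, ha, hor⟩ := cover hWpos hT hθ.1 hθ.2 hm hsmall
        refine le_trans ?_ (single_le_sum (f := fun q => ∑ a ∈ Fr q, ((Set.Icc ((a : ℝ) / q - Δ) ((a : ℝ) / q + Δ)).indicator G θ +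
          (Set.Icc (((a : ℝ) / q + 1) - Δ) (((a : ℝ) / q + 1) + Δ)).indicator G θ)) (fun q hq => sum_nonneg (hnn q hq)) hq)
        refine le_trans ?_ (single_le_sum (f := fun a : ℕ => ((Set.Icc ((a : ℝ) / q - Δ) ((a : ℝ) / q + Δ)).indicator G θ +
          (Set.Icc (((a : ℝ) / q + 1) - Δ) (((a : ℝ) / q + 1) + Δ)).indicator G θ)) (fun a ha => hnn q hq a ha) ha)
        rcases hor with h | h
        · have hmem : θ ∈ Set.Icc ((a : ℝ) / q - Δ) ((a : ℝ) / q + Δ) := by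
            have := abs_le.1 h
            constructor <;> linarith [this.1, this.2]
          rw [Set.indicator_of_mem hmem]
          have := Set.indicator_nonneg (s := Set.Icc (((a : ℝ) / q + 1) - Δ) (((a : ℝ) / q + 1) + Δ)) (f := G) (fun _ _ => hG0 _) θ
          linarith
        · have hmem : θ ∈ Set.Icc (((a : ℝ) / q + 1) - Δ) (((a : ℝ) / q + 1) + Δ) := by
            have := abs_le.1 h
            constructor <;> linarith [this.1, this.2]
          rw [Set.indicator_of_mem hmem]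
          have := Set.indicator_nonneg (s := Set.Icc ((a : ℝ) / q - Δ) ((a : ℝ) / q + Δ)) (f := G) (fun _ _ => hG0 _) θ
          linarith
      · rw [Set.indicator_of_notMem hm]
        exact sum_nonneg fun q hq => sum_nonneg (hnn q hq)
  refine h1.trans ?_
  rw [intervalIntegral.integral_finsetSum (fun q _ => hiq q)]
  -- one denominator
  have h2 : ∀ q ∈ Icc 1 R, ∫ θ in (0 : ℝ)..1, ∑ a ∈ Fr q, ((Set.Icc ((a : ℝ) / q - Δ) ((a : ℝ) / q + Δ)).indicator G θ +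
        (Set.Icc (((a : ℝ) / q + 1) - Δ) (((a : ℝ) / q + 1) + Δ)).indicator G θ) ≤
      4 * (1 / (Nat.totient q : ℝ)) * ∑ f ∈ q.divisors, (f : ℝ) * ∑ ψ ∈ Prim f, (∫ β in (-Δ)..Δ, ‖DDc c ω (W * T) f ψ β‖ ^ 2) +
        72 * R * X ^ 6 * Δ := by
    intro q hq
    rw [mem_Icc] at hq
    rw [intervalIntegral.integral_finsetSum (fun a _ => hiqa q a)]
    have h3 : ∀ a ∈ Fr q, ∫ θ in (0 : ℝ)..1, ((Set.Icc ((a : ℝ) / q - Δ) ((a : ℝ) / q + Δ)).indicator G θ +
        (Set.Icc (((a : ℝ) / q + 1) - Δ) (((a : ℝ) / q + 1) + Δ)).indicator G θ) ≤ 2 * ∫ β in (-Δ)..Δ, G ((a : ℝ) / q + β) := by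
      intro a _
      rw [intervalIntegral.integral_add (hii _ measurableSet_Icc) (hii _ measurableSet_Icc)]
      have h4 := ind_int_le G hGc hG0 ((a : ℝ) / q) Δ hΔ0
      have h5 := ind_int_le G hGc hG0 ((a : ℝ) / q + 1) Δ hΔ0
      have h6 : ∫ β in (-Δ)..Δ, G ((a : ℝ) / q + 1 + β) = ∫ β in (-Δ)..Δ, G ((a : ℝ) / q + β) := by
        apply intervalIntegral.integral_congr
        intro β _
        simp only
        rw [← hGper ((a : ℝ) / q + β)]
        congr 1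
        ring
      rw [h6] at h5
      linarith
    refine (sum_le_sum h3).trans ?_
    have hGs : ∀ a : ℕ, IntervalIntegrable (fun β => G ((a : ℝ) / q + β)) volume (-Δ) Δ :=
      fun a => (hGc.comp (by fun_prop : Continuous fun β : ℝ => (a : ℝ) / q + β)).intervalIntegrable _ _
    rw [← mul_sum, ← intervalIntegral.integral_finsetSum (fun a _ => hGs a)]
    have hDc : ∀ f (ψ : DirichletCharacter ℂ f), Continuous (fun β => ‖DDc c ω (W * T) f ψ β‖ ^ 2) :=
      fun f ψ => ((DDc_cont c ω (W * T) f ψ).norm).pow 2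
    have h7 : ∫ β in (-Δ)..Δ, ∑ a ∈ Fr q, G ((a : ℝ) / q + β) ≤
        ∫ β in (-Δ)..Δ, (2 / (Nat.totient q : ℝ) * ∑ f ∈ q.divisors, (f : ℝ) * ∑ ψ ∈ Prim f, ‖DDc c ω (W * T) f ψ β‖ ^ 2 + 18 * q * X ^ 6) := by
      apply intervalIntegral.integral_mono_on (by linarith)
      · apply Continuous.intervalIntegrable
        apply continuous_finsetSum
        intro a _
        exact hGc.comp (by fun_prop : Continuous fun β : ℝ => (a : ℝ) / q + β)
      · apply Continuous.intervalIntegrable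
        apply Continuous.add _ continuous_const
        apply Continuous.mul continuous_const
        apply continuous_finsetSum
        intro f _
        apply Continuous.mul continuous_const
        apply continuous_finsetSum
        intro ψ _
        exact hDc f ψ
      · intro β hβm
        apply frac_mean_gen hWs hω hcp hq.1 (hq.2.trans hRQ) (hq.2.trans hRN)
        refine le_trans ?_ hβ
        apply mul_le_mul_of_nonneg_left _ (by positivity)
        rw [abs_le]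
        exact hβm
    have h8 : ∫ β in (-Δ)..Δ, (2 / (Nat.totient q : ℝ) * ∑ f ∈ q.divisors, (f : ℝ) * ∑ ψ ∈ Prim f, ‖DDc c ω (W * T) f ψ β‖ ^ 2 + 18 * q * X ^ 6) =
        2 / (Nat.totient q : ℝ) * ∑ f ∈ q.divisors, (f : ℝ) * ∑ ψ ∈ Prim f, (∫ β in (-Δ)..Δ, ‖DDc c ω (W * T) f ψ β‖ ^ 2) + 36 * q * X ^ 6 * Δ := by
      rw [intervalIntegral.integral_add]
      · rw [intervalIntegral.integral_const_mul, intervalIntegral.integral_finsetSum, intervalIntegral.integral_const, smul_eq_mul]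
        · congr 1
          · congr 1
            refine sum_congr rfl fun f _ => ?_
            rw [intervalIntegral.integral_const_mul, intervalIntegral.integral_finsetSum]
            intro ψ _
            exact (hDc f ψ).intervalIntegrable _ _
          · ring
        · intro f _
          apply Continuous.intervalIntegrable
          apply Continuous.mul continuous_const
          apply continuous_finsetSum
          intro ψ _
          exact hDc f ψ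
      · apply Continuous.intervalIntegrable
        apply Continuous.mul continuous_const
        apply continuous_finsetSum
        intro f _
        apply Continuous.mul continuous_const
        apply continuous_finsetSum
        intro ψ _
        exact hDc f ψ
      · exact (continuous_const).intervalIntegrable _ _
    rw [h8] at h7
    have h9 : 36 * (q : ℝ) * X ^ 6 * Δ ≤ 36 * R * X ^ 6 * Δ := by
      have : (q : ℝ) ≤ R := by exact_mod_cast hq.2
      gcongr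
    have h10 : 4 * (1 / (Nat.totient q : ℝ)) * ∑ f ∈ q.divisors, (f : ℝ) * ∑ ψ ∈ Prim f, (∫ β in (-Δ)..Δ, ‖DDc c ω (W * T) f ψ β‖ ^ 2) =
        2 * (2 / (Nat.totient q : ℝ) * ∑ f ∈ q.divisors, (f : ℝ) * ∑ ψ ∈ Prim f, (∫ β in (-Δ)..Δ, ‖DDc c ω (W * T) f ψ β‖ ^ 2)) := by ring
    rw [h10]
    linarith
  refine (sum_le_sum h2).trans ?_
  rw [sum_add_distrib, sum_const, Nat.card_Icc, nsmul_eq_mul, Nat.add_sub_cancel]
  apply add_le_add
  · -- exchange of summations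
    set Y : ℕ → ℝ := fun f => (f : ℝ) * ∑ ψ ∈ Prim f, (∫ β in (-Δ)..Δ, ‖DDc c ω (W * T) f ψ β‖ ^ 2) with hY
    have hY0 : ∀ f, 0 ≤ Y f := by
      intro f
      apply mul_nonneg (Nat.cast_nonneg f)
      apply sum_nonneg
      intro ψ _
      apply intervalIntegral.integral_nonneg (by linarith)
      intro β _
      exact sq_nonneg _
    have e1 : ∑ q ∈ Icc 1 R, 4 * (1 / (Nat.totient q : ℝ)) * ∑ f ∈ q.divisors, Y f =
        4 * ∑ f ∈ Icc 1 R, Y f * ∑ q ∈ (Icc 1 R).filter (fun q => f ∣ q), 1 / (Nat.totient q : ℝ) := by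
      have h4 : ∀ q ∈ Icc 1 R, 4 * (1 / (Nat.totient q : ℝ)) * ∑ f ∈ q.divisors, Y f =
          ∑ f ∈ Icc 1 R, if f ∣ q then 4 * (1 / (Nat.totient q : ℝ)) * Y f else 0 := by
        intro q hq
        rw [mem_Icc] at hq
        rw [mul_sum, ← sum_filter]
        apply sum_congr _ fun _ _ => rfl
        ext f
        rw [Nat.mem_divisors, mem_filter, mem_Icc]
        constructor
        · rintro ⟨h5, h6⟩
          exact ⟨⟨Nat.pos_of_dvd_of_pos h5 (by omega), (Nat.le_of_dvd (by omega) h5).trans hq.2⟩, h5⟩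
        · rintro ⟨_, h5⟩
          exact ⟨h5, by omega⟩
      rw [sum_congr rfl h4, sum_comm, mul_sum]
      refine sum_congr rfl fun f _ => ?_
      rw [← sum_filter, mul_sum, mul_sum]
      refine sum_congr rfl fun q _ => ?_
      ring
    rw [e1]
    unfold EEc
    rw [mul_assoc]
    apply mul_le_mul_of_nonneg_left _ (by norm_num)
    rw [mul_sum (Icc 1 R) _ (∑ q ∈ Icc 1 R, 1 / (Nat.totient q : ℝ))]
    apply sum_le_sum
    intro f hf
    rw [mem_Icc] at hf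
    calc Y f * ∑ q ∈ (Icc 1 R).filter (fun q => f ∣ q), 1 / (Nat.totient q : ℝ) ≤
          Y f * (1 / (Nat.totient f : ℝ) * ∑ q ∈ Icc 1 R, 1 / (Nat.totient q : ℝ)) :=
          mul_le_mul_of_nonneg_left (sum_mult_le hf.1) (hY0 f)
      _ = _ := by rw [hY]; ring
  · apply le_of_eq
    ring

end Pool.Agent.J4H81.PT
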