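import Pool.Agent.J4H81.PT.XEc
import Pool.Agent.J4H81.PT.XD

/-!
# Growing prime tuples, all x: the twist by the exceptional character (helper81)
-/

set_option autoImplicit false

namespace Pool.Agent.J4H81.PT

open Finset MeasureTheory
open Pool.Agent.H807R2.Dav (ee norm_ee ee_add ee_zero ee_int ee_eq dd dd_le)
open Pool.Agent.H398R2.BV (Prim prim_ne_one card_prim_le)

/-- the product with a character, modulo the product of the moduli -/
noncomputable def twp (x₁ s : PC) : DirichletCharacter ℂ (x₁.1 * s.1) :=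
  DirichletCharacter.changeLevel (Nat.dvd_mul_right x₁.1 s.1) x₁.2 * DirichletCharacter.changeLevel (Nat.dvd_mul_left s.1 x₁.1) s.2

/-- the primitive character behind the product -/
noncomputable def tws (x₁ s : PC) : PC := ⟨(twp x₁ s).conductor, (twp x₁ s).primitiveCharacter⟩

theorem tws_prim (x₁ s : PC) : (tws x₁ s).2.IsPrimitive := DirichletCharacter.primitiveCharacter_isPrimitive _

theorem tws_le {x₁ s : PC} (h₁ : 1 ≤ x₁.1) (hs : 1 ≤ s.1) : 1 ≤ (tws x₁ s).1 ∧ (tws x₁ s).1 ≤ x₁.1 * s.1 := by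
  have : NeZero (x₁.1 * s.1) := ⟨(Nat.mul_pos h₁ hs).ne'⟩
  exact ⟨Nat.pos_of_ne_zero (DirichletCharacter.conductor_ne_zero _), Nat.le_of_dvd (Nat.mul_pos h₁ hs) (DirichletCharacter.conductor_dvd_level _)⟩

theorem tws_apply (x₁ s : PC) {n : ℕ} (hn : n.Coprime (x₁.1 * s.1)) : (tws x₁ s).2 (n : ZMod (tws x₁ s).1) = x₁.2 (n : ZMod x₁.1) * s.2 (n : ZMod s.1) := by
  have hc : IsCoprime (n : ℤ) ((x₁.1 * s.1 : ℕ) : ℤ) := Nat.isCoprime_iff_coprime.mpr hn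
  have h1 := DirichletCharacter.primitiveCharacter_apply_of_isCoprime (χ := twp x₁ s) hc
  have h2 := DirichletCharacter.changeLevel_eq_cast_of_dvd' x₁.2 (Nat.dvd_mul_right x₁.1 s.1) hc
  have h3 := DirichletCharacter.changeLevel_eq_cast_of_dvd' s.2 (Nat.dvd_mul_left s.1 x₁.1) hc
  push_cast at h1 h2 h3
  show (twp x₁ s).primitiveCharacter (n : ZMod (twp x₁ s).conductor) = _
  rw [h1]
  unfold twp
  rw [MulChar.mul_apply, ← h2, ← h3]

/-- primitive characters which agree on almost all integers are equal -/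
theorem pc_ext {s s' : PC} {M : ℕ} (hM : 1 ≤ M) (h : s.1 ∣ M) (h' : s'.1 ∣ M) (hp : s.2.IsPrimitive) (hp' : s'.2.IsPrimitive)
    (he : ∀ n : ℕ, n.Coprime M → s.2 (n : ZMod s.1) = s'.2 (n : ZMod s'.1)) : s = s' := by
  have : NeZero M := ⟨by omega⟩
  have h1 : DirichletCharacter.changeLevel h s.2 = DirichletCharacter.changeLevel h' s'.2 := by
    apply MulChar.ext
    intro a
    have hco : (a : ZMod M).val.Coprime M := ZMod.val_coe_unit_coprime a
    have hc : IsCoprime (((a : ZMod M).val : ℕ) : ℤ) (M : ℤ) := Nat.isCoprime_iff_coprime.mpr hco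
    have h2 := DirichletCharacter.changeLevel_eq_cast_of_dvd' s.2 h hc
    have h3 := DirichletCharacter.changeLevel_eq_cast_of_dvd' s'.2 h' hc
    have h4 := he _ hco
    push_cast at h2 h3
    rw [ZMod.natCast_zmod_val] at h2 h3
    rw [h2, h3]
    exact h4
  have h5 := DirichletCharacter.conductor_changeLevel (χ := s.2) h
  have h6 := DirichletCharacter.conductor_changeLevel (χ := s'.2) h'
  rw [h1, h6] at h5
  obtain ⟨f, ψ⟩ := s
  obtain ⟨f', ψ'⟩ := s'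
  simp only at *
  have hf : f = f' := by
    rw [← hp, ← hp']
    exact h5.symm
  subst hf
  congr 1
  exact DirichletCharacter.changeLevel_injective h h1

theorem x_sq {x₁ : PC} (h2 : x₁.2 ^ 2 = 1) {n : ℕ} (hn : n.Coprime x₁.1) : x₁.2 (n : ZMod x₁.1) * x₁.2 (n : ZMod x₁.1) = 1 := by
  have h3 : (x₁.2 ^ 2) (n : ZMod x₁.1) = 1 := by
    rw [h2, MulChar.one_apply ((ZMod.isUnit_iff_coprime n x₁.1).2 hn)]
  rw [← h3, sq, MulChar.mul_apply]


theorem tws_inj {x₁ s s' : PC} (h₁ : 1 ≤ x₁.1) (hs : 1 ≤ s.1) (hs' : 1 ≤ s'.1) (hx2 : x₁.2 ^ 2 = 1) (hp : s.2.IsPrimitive) (hp' : s'.2.IsPrimitive)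
    (h : tws x₁ s = tws x₁ s') : s = s' := by
  refine pc_ext (M := x₁.1 * (s.1 * s'.1)) (Nat.mul_pos h₁ (Nat.mul_pos hs hs')) ?_ ?_ hp hp' ?_
  · exact Dvd.dvd.mul_left (Nat.dvd_mul_right _ _) _
  · exact Dvd.dvd.mul_left (Nat.dvd_mul_left _ _) _
  · intro n hn
    have hn1 : n.Coprime x₁.1 := hn.coprime_dvd_right (Nat.dvd_mul_right _ _)
    have hns : n.Coprime (x₁.1 * s.1) := hn.coprime_dvd_right (Nat.mul_dvd_mul_left _ (Nat.dvd_mul_right _ _))
    have hns' : n.Coprime (x₁.1 * s'.1) := hn.coprime_dvd_right (Nat.mul_dvd_mul_left _ (Nat.dvd_mul_left _ _))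
    have h1 := tws_apply x₁ s hns
    have h2 := tws_apply x₁ s' hns'
    have h3 := x_sq hx2 hn1
    have h4 : x₁.2 (n : ZMod x₁.1) * s.2 (n : ZMod s.1) = x₁.2 (n : ZMod x₁.1) * s'.2 (n : ZMod s'.1) := by
      rw [← h1, ← h2, h]
    calc s.2 (n : ZMod s.1) = (x₁.2 (n : ZMod x₁.1) * x₁.2 (n : ZMod x₁.1)) * s.2 (n : ZMod s.1) := by rw [h3, one_mul]
      _ = x₁.2 (n : ZMod x₁.1) * (x₁.2 (n : ZMod x₁.1) * s.2 (n : ZMod s.1)) := by ring
      _ = x₁.2 (n : ZMod x₁.1) * (x₁.2 (n : ZMod x₁.1) * s'.2 (n : ZMod s'.1)) := by rw [h4]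
      _ = (x₁.2 (n : ZMod x₁.1) * x₁.2 (n : ZMod x₁.1)) * s'.2 (n : ZMod s'.1) := by ring
      _ = s'.2 (n : ZMod s'.1) := by rw [h3, one_mul]

theorem tws_one {x₁ : PC} (h₁ : 1 ≤ x₁.1) (hp : x₁.2.IsPrimitive) : tws x₁ ⟨1, 1⟩ = x₁ := by
  have hd := DirichletCharacter.conductor_dvd_level (twp x₁ ⟨1, 1⟩)
  refine pc_ext (M := x₁.1 * 1) (by omega) hd (Nat.dvd_mul_right _ _) (tws_prim _ _) hp ?_
  intro n hn
  rw [tws_apply x₁ ⟨1, 1⟩ hn]
  simp only
  rw [MulChar.one_apply (isUnit_of_subsingleton _), mul_one]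

theorem tws_self {x₁ : PC} (h₁ : 1 ≤ x₁.1) (hx2 : x₁.2 ^ 2 = 1) : tws x₁ x₁ = ⟨1, 1⟩ := by
  have hd := DirichletCharacter.conductor_dvd_level (twp x₁ x₁)
  refine pc_ext (M := x₁.1 * x₁.1) (Nat.mul_pos h₁ h₁) hd (one_dvd _) (tws_prim _ _) DirichletCharacter.isPrimitive_one_level_one ?_
  intro n hn
  rw [tws_apply x₁ x₁ hn, x_sq hx2 (hn.coprime_dvd_right (Nat.dvd_mul_right _ _))]
  simp only
  rw [MulChar.one_apply (isUnit_of_subsingleton _)]

theorem one_of_prim {s : PC} (hs : 1 ≤ s.1) (hp : s.2.IsPrimitive) (h : s.2 = 1) : s = ⟨1, 1⟩ := by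
  obtain ⟨f, ψ⟩ := s
  simp only at *
  have : NeZero f := ⟨by omega⟩
  have h1 : f = 1 := by
    rw [← hp, h, DirichletCharacter.conductor_one]
  subst h1
  rw [h]

/-- the power -/
noncomputable def uu (b : ℝ) (n : ℕ) : ℝ := Real.exp (-(b * Real.log n))

theorem uu_pos (b : ℝ) (n : ℕ) : 0 < uu b n := Real.exp_pos _

theorem uu_le_one {b : ℝ} (hb : 0 ≤ b) (n : ℕ) : uu b n ≤ 1 := by
  unfold uu
  rw [Real.exp_le_one_iff]
  have := mul_nonneg hb (Real.log_natCast_nonneg n)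
  linarith

theorem uu_anti {b : ℝ} (hb : 0 ≤ b) : Antitone (uu b) := by
  intro m n h
  apply Real.exp_le_exp.2
  have := mul_le_mul_of_nonneg_left (log_nat_mono h) hb
  linarith

/-- the main terms cancel -/
theorem kk_sum {x₁ s : PC} (h₁ : 1 ≤ x₁.1) (hx2 : x₁.2 ^ 2 = 1) (hxp : x₁.2.IsPrimitive) (hx1 : x₁.2 ≠ 1) (hs : 1 ≤ s.1) (hp : s.2.IsPrimitive)
    (b : ℝ) (n : ℕ) : kk x₁ b s n + ((uu b n : ℝ) : ℂ) * kk x₁ b (tws x₁ s) n =
      (open Classical in if s.2 = 1 then -(1 - ((uu b n : ℝ) : ℂ) ^ 2) else 0) := by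
  classical
  have hx11 : x₁ ≠ ⟨1, 1⟩ := by
    rintro rfl
    exact hx1 rfl
  by_cases h1 : s = ⟨1, 1⟩
  · have e : s.2 = 1 := by rw [h1]
    rw [if_pos e, h1, tws_one h₁ hxp]
    unfold kk uu
    rw [if_pos rfl, if_neg hx11, if_pos rfl]
    ring
  · have e : s.2 ≠ 1 := fun h => h1 (one_of_prim hs hp h)
    rw [if_neg e]
    by_cases h2 : s = x₁
    · rw [h2, tws_self h₁ hx2]
      unfold kk uu
      rw [if_neg hx11, if_pos rfl, if_pos rfl]
      ring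
    · have h3 : tws x₁ s ≠ ⟨1, 1⟩ := by
        intro h
        rw [← tws_self h₁ hx2] at h
        exact h2 (tws_inj h₁ hs h₁ hx2 hp hxp h)
      have h4 : tws x₁ s ≠ x₁ := by
        intro h
        have h5 := tws_one h₁ hxp
        rw [← h5] at h
        rw [h5] at h
        exact h1 (tws_inj h₁ hs le_rfl hx2 hp DirichletCharacter.isPrimitive_one_level_one (h.trans h5.symm))
      unfold kk
      rw [if_neg h1, if_neg h2, if_neg h3, if_neg h4]
      ring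

/-- the weight on the primes -/
noncomputable def cw (x₁ : PC) (b ρ : ℝ) (ω : ℕ → ℝ) (n : ℕ) : ℝ := 1 / ρ * (nu n * ω n * (1 + (x₁.2 (n : ZMod x₁.1)).re * uu b n))

/-- the model weight -/
noncomputable def vw (b ρ : ℝ) (ω : ℕ → ℝ) (n : ℕ) : ℝ := 1 / ρ * ((1 - uu b n ^ 2) * ω n)

theorem x_real {x₁ : PC} (hx2 : x₁.2 ^ 2 = 1) {n : ℕ} (hn : n.Coprime x₁.1) : (((x₁.2 (n : ZMod x₁.1)).re : ℝ) : ℂ) = x₁.2 (n : ZMod x₁.1) := by
  have h := x_sq hx2 hn
  have h2 : (x₁.2 (n : ZMod x₁.1) - 1) * (x₁.2 (n : ZMod x₁.1) + 1) = 0 := by linear_combination h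
  rcases mul_eq_zero.1 h2 with h3 | h3
  · have : x₁.2 (n : ZMod x₁.1) = 1 := by linear_combination h3
    rw [this]; simp
  · have : x₁.2 (n : ZMod x₁.1) = -1 := by linear_combination h3
    rw [this]; simp

theorem cw_decomp {x₁ s : PC} (h₁ : 1 ≤ x₁.1) (hx2 : x₁.2 ^ 2 = 1) (hxp : x₁.2.IsPrimitive) (hx1 : x₁.2 ≠ 1) (hs : 1 ≤ s.1) (hp : s.2.IsPrimitive)
    (b ρ : ℝ) (ω : ℕ → ℝ) {n N₁ : ℕ} (hn : N₁ < n) (hN₁ : x₁.1 * s.1 ≤ N₁) :
    ((cw x₁ b ρ ω n : ℝ) : ℂ) * s.2 (n : ZMod s.1) - (open Classical in if s.2 = 1 then ((vw b ρ ω n : ℝ) : ℂ) else 0) =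
      ((1 / ρ : ℝ) : ℂ) * (cfx x₁ b ω s n + cfx x₁ b (fun n => uu b n * ω n) (tws x₁ s) n) := by
  classical
  have hk := kk_sum h₁ hx2 hxp hx1 hs hp b n
  have hv : (if s.2 = 1 then ((vw b ρ ω n : ℝ) : ℂ) else 0) = -(((1 / ρ : ℝ) : ℂ) * ((ω n : ℝ) : ℂ) *
      (kk x₁ b s n + ((uu b n : ℝ) : ℂ) * kk x₁ b (tws x₁ s) n)) := by
    rw [hk]
    split_ifs
    · unfold vw
      push_cast
      ring
    · ring
  rw [hv]
  by_cases hν : nu n = 0
  · unfold cw cfx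
    rw [hν]
    push_cast
    ring
  · have hpr : n.Prime := by
      by_contra hcon
      apply hν
      unfold nu
      rw [if_neg hcon]
    have hcop : n.Coprime (x₁.1 * s.1) := by
      rw [Nat.Prime.coprime_iff_not_dvd hpr]
      intro hd
      have := Nat.le_of_dvd (Nat.mul_pos h₁ hs) hd
      omega
    have e1 := tws_apply x₁ s hcop
    have e2 := x_real hx2 (hcop.coprime_dvd_right (Nat.dvd_mul_right _ _))
    unfold cw cfx
    rw [e1]
    push_cast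
    rw [e2]
    ring

end Pool.Agent.J4H81.PT
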