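import Pool.Agent.J4H81.PT.XBc
import Pool.Agent.J4H81.PT.XCc
import Pool.Agent.J4H81.PT.XEd

/-!
# Growing prime tuples, all x: repulsion of the zeros by an exceptional zero (helper81)
-/

set_option autoImplicit false

namespace Pool.Agent.J4H81.PT.DH

open Complex Filter Topology Set Metric
open DirichletCharacter
open Pool.Agent.H807R2.Dav (ee norm_ee)
open Pool.Agent.J4H81.PT.ZF (F1 F1_diff F1_eq F1_mul twl lser_twl term_twl)

/-- bounded growth -/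
def Rb (E : ℝ) (k : ℕ) (g : ℂ → ℂ) : Prop := ∀ z ∈ closedBall (2 : ℂ) (3 / 2), ‖g z‖ ≤ E ^ k * ‖g 2‖

theorem ball_facts {z : ℂ} (hz : z ∈ closedBall (2 : ℂ) (3 / 2)) {E γ : ℝ} (hγ : |γ| ≤ E) :
    1 / 2 ≤ (z + γ * I).re ∧ ‖z + γ * I‖ ≤ E + 7 / 2 := by
  rw [mem_closedBall, dist_eq_norm] at hz
  have h1 := (abs_le.1 ((Complex.abs_re_le_norm (z - 2)).trans hz)).1
  have h2 : (z - 2).re = z.re - 2 := by simp
  rw [h2] at h1
  refine ⟨by simp; linarith, ?_⟩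
  have h3 : ‖z‖ ≤ 7 / 2 := by
    have e : z = (z - 2) + 2 := by ring
    rw [e]
    refine (norm_add_le _ _).trans ?_
    have : ‖(2 : ℂ)‖ = 2 := by simp
    linarith
  refine (norm_add_le _ _).trans ?_
  rw [norm_mul, Complex.norm_real, Complex.norm_I, mul_one, Real.norm_eq_abs]
  linarith

theorem rb_L {q : ℕ} [NeZero q] {χ : DirichletCharacter ℂ q} (h1 : χ ≠ 1) {E γ : ℝ} (hE : 300 ≤ E) (hγ : |γ| ≤ E) {k : ℕ} (hq : (q : ℝ) ≤ E ^ k) :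
    Rb E (k + 2) (fun z => LFunction χ (z + γ * I)) := by
  intro z hz
  obtain ⟨h2, h3⟩ := ball_facts hz hγ
  have hE0 : 0 < E := by linarith
  have h4 := Pool.Agent.Helper368_LD.L_growth h1 (s := z + γ * I) (by linarith)
  have h5 : 1 / 4 ≤ ‖LFunction χ (2 + γ * I)‖ := Pool.Agent.Helper368_LD.L_lower_two χ (by simp)
  have hEk : 1 ≤ E ^ k := one_le_pow₀ (by linarith)
  have hq0 : (0 : ℝ) ≤ q := Nat.cast_nonneg _
  have h6 : ((q : ℝ) + 1) / (z + γ * I).re ≤ 4 * E ^ k := by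
    rw [div_le_iff₀ (by linarith)]
    nlinarith
  calc ‖LFunction χ (z + γ * I)‖ ≤ ‖z + γ * I‖ * (((q : ℝ) + 1) / (z + γ * I).re) := h4
    _ ≤ (E + 7 / 2) * (4 * E ^ k) := by
        apply mul_le_mul h3 h6 _ (by linarith)
        apply div_nonneg <;> linarith
    _ ≤ E ^ (k + 2) * (1 / 4) := by
        have e : E ^ (k + 2) * (1 / 4) = (E * E / 16) * (4 * E ^ k) := by ring
        rw [e]
        apply mul_le_mul_of_nonneg_right _ (by positivity)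
        nlinarith
    _ ≤ E ^ (k + 2) * ‖LFunction χ (2 + γ * I)‖ := mul_le_mul_of_nonneg_left h5 (by positivity)

theorem rb_zeta {E γ : ℝ} (hE : 300 ≤ E) (hγ : |γ| ≤ E) : Rb E 3 (fun z => riemannZeta₁ (z + γ * I)) := by
  intro z hz
  obtain ⟨h2, h3⟩ := ball_facts hz hγ
  have hE0 : 0 < E := by linarith
  have h4 := Pool.Agent.H437R2.z1_norm_le (s := z + γ * I) h2
  have h5 : 1 / 4 ≤ ‖riemannZeta₁ (2 + γ * I)‖ := by
    have hre : (2 + γ * I : ℂ).re = 2 := by simp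
    have hne : (2 + γ * I : ℂ) ≠ 1 := by
      intro h
      rw [h] at hre
      norm_num at hre
    have h6 := Pool.Agent.Helper368_LD.L_lower_two (1 : DirichletCharacter ℂ 1) hre
    rw [LFunction_modOne_eq] at h6
    rw [Pool.Agent.H437R2.z1_of_ne hne, norm_mul]
    have h7 : 1 ≤ ‖(2 + γ * I : ℂ) - 1‖ := by
      have h8 := Complex.abs_re_le_norm ((2 + γ * I : ℂ) - 1)
      rw [sub_re, hre, one_re] at h8
      norm_num at h8
      exact h8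
    calc (1 / 4 : ℝ) = 1 * (1 / 4) := by norm_num
      _ ≤ _ := mul_le_mul h7 h6 (by norm_num) (norm_nonneg _)
  calc ‖riemannZeta₁ (z + γ * I)‖ ≤ 3 * (‖z + γ * I‖ + 1) ^ 2 := h4
    _ ≤ 3 * (E + 7 / 2 + 1) ^ 2 := by gcongr
    _ ≤ E ^ 3 * (1 / 4) := by nlinarith
    _ ≤ E ^ 3 * ‖riemannZeta₁ (2 + γ * I)‖ := mul_le_mul_of_nonneg_left h5 (by positivity)

theorem rb_F1 {q : ℕ} [NeZero q] {χ : DirichletCharacter ℂ q} (h1 : χ ≠ 1) {b : ℝ} (hb : 0 < b) (hb1 : b ≤ 1 / 8)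
    (h0 : LFunction χ ((1 - b : ℝ) : ℂ) = 0) {E γ : ℝ} (hE : 300 ≤ E) (hγ : |γ| ≤ E) (hq : (q : ℝ) ≤ E) :
    Rb E 4 (fun z => F1 χ (1 - b) (z + γ * I)) := by
  have hE0 : 0 < E := by linarith
  have hq0 : (0 : ℝ) ≤ q := Nat.cast_nonneg _
  have hfar : ∀ w : ℂ, 1 / 2 ≤ w.re → ‖w‖ ≤ E + 7 / 2 → 1 / 4 ≤ ‖w - ((1 - b : ℝ) : ℂ)‖ → ‖F1 χ (1 - b) w‖ ≤ 32 * E ^ 2 := by
    intro w hw1 hw2 hw3
    have hne : w ≠ ((1 - b : ℝ) : ℂ) := by
      rintro rfl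
      rw [sub_self, norm_zero] at hw3
      linarith
    rw [F1_eq h0 hne, norm_div, div_le_iff₀ (by linarith)]
    have h4 := Pool.Agent.Helper368_LD.L_growth h1 (s := w) (by linarith)
    have h6 : ((q : ℝ) + 1) / w.re ≤ 2 * (E + 1) := by
      rw [div_le_iff₀ (by linarith)]
      nlinarith
    calc ‖LFunction χ w‖ ≤ ‖w‖ * (((q : ℝ) + 1) / w.re) := h4
      _ ≤ (E + 7 / 2) * (2 * (E + 1)) := by
          apply mul_le_mul hw2 h6 _ (by linarith)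
          apply div_nonneg <;> linarith
      _ ≤ 32 * E ^ 2 * (1 / 4) := by nlinarith
      _ ≤ _ := mul_le_mul_of_nonneg_left hw3 (by positivity)
  intro z hz
  obtain ⟨h2, h3⟩ := ball_facts hz hγ
  have hup : ‖F1 χ (1 - b) (z + γ * I)‖ ≤ 32 * E ^ 2 := by
    rcases le_or_gt (1 / 4) ‖(z + γ * I) - ((1 - b : ℝ) : ℂ)‖ with h5 | h5
    · exact hfar _ h2 h3 h5
    · refine Complex.norm_le_of_forall_mem_frontier_norm_le (U := ball ((1 - b : ℝ) : ℂ) (1 / 4)) isBounded_ball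
        (F1_diff h1 _).diffContOnCl ?_ (subset_closure (by rw [mem_ball, dist_eq_norm]; exact h5))
      intro w hw
      have hw' : ‖w - ((1 - b : ℝ) : ℂ)‖ = 1 / 4 := by
        have := frontier_ball_subset_sphere hw
        rwa [mem_sphere, dist_eq_norm] at this
      have h6 := Complex.abs_re_le_norm (w - ((1 - b : ℝ) : ℂ))
      rw [hw', sub_re, ofReal_re] at h6
      have h8 := abs_le.1 h6
      refine hfar w (by linarith [h8.1]) ?_ hw'.ge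
      have e : w = (w - ((1 - b : ℝ) : ℂ)) + ((1 - b : ℝ) : ℂ) := by ring
      rw [e]
      refine (norm_add_le _ _).trans ?_
      rw [hw', Complex.norm_real, Real.norm_of_nonneg (by linarith)]
      linarith
  have hre : (2 + γ * I : ℂ).re = 2 := by simp
  have h5 : 1 / 4 ≤ ‖LFunction χ (2 + γ * I)‖ := Pool.Agent.Helper368_LD.L_lower_two χ hre
  have hne : (2 + γ * I : ℂ) ≠ ((1 - b : ℝ) : ℂ) := by
    intro h
    have := congrArg Complex.re h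
    simp at this
    linarith
  have hlow : 1 / (4 * (2 * E)) ≤ ‖F1 χ (1 - b) (2 + γ * I)‖ := by
    rw [F1_eq h0 hne, norm_div]
    have h6 : ‖(2 + γ * I : ℂ) - ((1 - b : ℝ) : ℂ)‖ ≤ 2 * E := by
      have e : (2 + γ * I : ℂ) - ((1 - b : ℝ) : ℂ) = ((1 + b : ℝ) : ℂ) + γ * I := by push_cast; ring
      rw [e]
      refine (norm_add_le _ _).trans ?_
      rw [Complex.norm_real, Real.norm_of_nonneg (by linarith), norm_mul, Complex.norm_I, mul_one, Complex.norm_real, Real.norm_eq_abs]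
      linarith
    have h8 : 0 < ‖(2 + γ * I : ℂ) - ((1 - b : ℝ) : ℂ)‖ := norm_pos_iff.2 (sub_ne_zero.2 hne)
    calc 1 / (4 * (2 * E)) = (1 / 4) / (2 * E) := by field_simp
      _ ≤ (1 / 4) / ‖(2 + γ * I : ℂ) - ((1 - b : ℝ) : ℂ)‖ := div_le_div_of_nonneg_left (by norm_num) h8 h6
      _ ≤ _ := by gcongr
  calc ‖F1 χ (1 - b) (z + γ * I)‖ ≤ 32 * E ^ 2 := hup
    _ ≤ E ^ 4 * (1 / (4 * (2 * E))) := by
        have e : E ^ 4 * (1 / (4 * (2 * E))) = E ^ 2 * (E / 8) := by field_simp; norm_num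
        rw [e]
        have : 32 ≤ E / 8 := by linarith
        nlinarith [sq_nonneg E]
    _ ≤ E ^ 4 * ‖F1 χ (1 - b) (2 + γ * I)‖ := mul_le_mul_of_nonneg_left hlow (by positivity)

/-- the exponent in the inequality of repulsion -/
noncomputable def Lm (l : ℝ) : ℝ := 10 ^ 5 * (14 * l) * (1 + Real.log (14 * l))

theorem deriv_shift (g : ℂ → ℂ) (c s : ℂ) : deriv (fun z => g (z + c)) s = deriv g (s + c) := deriv_comp_add_const g c s

theorem dh_gen {q₁ : ℕ} [NeZero q₁] {χ₁ : DirichletCharacter ℂ q₁} {b l : ℝ} (hl : 8 ≤ l) (h1 : χ₁ ≠ 1) (hb : 0 < b) (hb1 : b ≤ 1 / 8)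
    (h0 : LFunction χ₁ ((1 - b : ℝ) : ℂ) = 0) (hq : Real.log q₁ ≤ l)
    {g₃ g₄ : ℂ → ℂ} (hg₃ : Differentiable ℂ g₃) (hg₄ : Differentiable ℂ g₄) (hn₃ : ∀ s : ℂ, 1 < s.re → g₃ s ≠ 0) (hn₄ : ∀ s : ℂ, 1 < s.re → g₄ s ≠ 0)
    (hr₃ : Rb (Real.exp l) 3 g₃) (hr₄ : Rb (Real.exp l) 4 g₄)
    {a₃ a₄ : ℕ → ℂ} {ε γ : ℝ} (hε : 0 ≤ ε) (hε1 : ε ≤ 1)
    (ha₃ : ∀ s : ℂ, 1 < s.re → LSeriesSummable a₃ s ∧ LSeries a₃ s = ε * (s - (1 - γ * I))⁻¹ - deriv g₃ s / g₃ s)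
    (ha₄ : ∀ s : ℂ, 1 < s.re → LSeriesSummable a₄ s ∧ LSeries a₄ s = -(ε * (s - ((1 - b : ℝ) - γ * I))⁻¹) - deriv g₄ s / g₄ s)
    (hpos : ∀ n : ℕ, 0 ≤ (((ArithmeticFunction.vonMangoldt n : ℝ) : ℂ) + χ₁ (n : ZMod q₁) * ((ArithmeticFunction.vonMangoldt n : ℝ) : ℂ) + (a₃ n + a₄ n)).re)
    {d : ℝ} (hd0 : 0 ≤ d) (hd : d ≤ 1 / 8) (hz : g₃ ((1 - d : ℝ) : ℂ) * g₄ ((1 - d : ℝ) : ℂ) = 0) :
    1 ≤ 32 * Lm l * b * Real.exp (d * Lm l) := by
  set E : ℝ := Real.exp l with hE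
  have hE300 : 300 ≤ E := by
    have h2 : Real.exp 8 ≤ E := Real.exp_le_exp.2 hl
    have h3 : (2.7 : ℝ) ^ 8 ≤ Real.exp 8 := by
      have h4 : Real.exp 8 = Real.exp 1 ^ 8 := by rw [← Real.exp_nat_mul]; norm_num
      rw [h4]
      exact pow_le_pow_left₀ (by norm_num) (by have := Real.exp_one_gt_d9; linarith) 8
    have h5 : (300 : ℝ) ≤ 2.7 ^ 8 := by norm_num
    linarith
  have hE0 : 0 < E := by linarith
  have hq1 : (1 : ℝ) ≤ q₁ := by exact_mod_cast Nat.one_le_iff_ne_zero.2 (NeZero.ne q₁)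
  have hqE : (q₁ : ℝ) ≤ E := by
    rw [← Real.log_le_iff_le_exp (by linarith)]; exact hq
  have r1 : Rb E 3 riemannZeta₁ := by
    have := rb_zeta hE300 (γ := 0) (by simpa using hE0.le)
    simpa using this
  have r2 : Rb E 4 (F1 χ₁ (1 - b)) := by
    have := rb_F1 h1 hb hb1 h0 hE300 (γ := 0) (by simpa using hE0.le) hqE
    simpa using this
  have hGd : Differentiable ℂ (fun z => riemannZeta₁ z * F1 χ₁ (1 - b) z * (g₃ z * g₄ z)) :=
    (differentiable_riemannZeta₁.mul (F1_diff h1 (1 - b))).mul (hg₃.mul hg₄)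
  have hG2 : riemannZeta₁ 2 * F1 χ₁ (1 - b) 2 * (g₃ 2 * g₄ 2) ≠ 0 := by
    have h2 : (1 : ℝ) < (2 : ℂ).re := by norm_num
    refine mul_ne_zero (mul_ne_zero ?_ (F1_ne h1 h0 h2.le)) (mul_ne_zero (hn₃ _ h2) (hn₄ _ h2))
    intro h
    have := Pool.Agent.H437R2.z1_zero_re h
    norm_num at this
  have hcore := dh_core (G := fun z => riemannZeta₁ z * F1 χ₁ (1 - b) z * (g₃ z * g₄ z)) hGd (A := 14 * l) (b := b) (by linarith) hb.le hG2 ?_
    (fun m => dh_T h1 hb h0 hg₃ hg₄ hn₃ hn₄ hε hε1 ha₃ ha₄ hpos m) (ρ := ((1 - d : ℝ) : ℂ)) (by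
      show riemannZeta₁ ((1 - d : ℝ) : ℂ) * F1 χ₁ (1 - b) ((1 - d : ℝ) : ℂ) * (g₃ ((1 - d : ℝ) : ℂ) * g₄ ((1 - d : ℝ) : ℂ)) = 0
      rw [hz, mul_zero]) hd0 hd (by
      have e : (2 : ℂ) - ((1 - d : ℝ) : ℂ) = ((1 + d : ℝ) : ℂ) := by push_cast; ring
      rw [e, Complex.norm_real, Real.norm_of_nonneg (by linarith)])
  · exact hcore
  · intro z hz
    show ‖riemannZeta₁ z * F1 χ₁ (1 - b) z * (g₃ z * g₄ z)‖ ≤ Real.exp (14 * l) * ‖riemannZeta₁ 2 * F1 χ₁ (1 - b) 2 * (g₃ 2 * g₄ 2)‖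
    rw [norm_mul, norm_mul, norm_mul, norm_mul, norm_mul, norm_mul]
    have e : Real.exp (14 * l) = E ^ 3 * E ^ 4 * (E ^ 3 * E ^ 4) := by
      rw [hE, ← Real.exp_nat_mul, ← Real.exp_nat_mul, ← Real.exp_add, ← Real.exp_add]
      congr 1
      push_cast
      ring
    rw [e]
    calc ‖riemannZeta₁ z‖ * ‖F1 χ₁ (1 - b) z‖ * (‖g₃ z‖ * ‖g₄ z‖) ≤
          (E ^ 3 * ‖riemannZeta₁ 2‖) * (E ^ 4 * ‖F1 χ₁ (1 - b) 2‖) * ((E ^ 3 * ‖g₃ 2‖) * (E ^ 4 * ‖g₄ 2‖)) := by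
          have i1 := r1 z hz
          have i2 := r2 z hz
          have i3 := hr₃ z hz
          have i4 := hr₄ z hz
          gcongr
      _ = _ := by ring

theorem real_val {x₁ : PC} (hx2 : x₁.2 ^ 2 = 1) (n : ℕ) : ∃ r : ℝ, x₁.2 (n : ZMod x₁.1) = (r : ℂ) ∧ -1 ≤ r := by
  by_cases hn : n.Coprime x₁.1
  · refine ⟨(x₁.2 (n : ZMod x₁.1)).re, (x_real hx2 hn).symm, ?_⟩
    have h1 := (Complex.abs_re_le_norm (x₁.2 (n : ZMod x₁.1))).trans (x₁.2.norm_le_one _)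
    exact (abs_le.1 h1).1
  · refine ⟨0, ?_, by norm_num⟩
    rw [Complex.ofReal_zero]
    apply MulChar.map_nonunit
    rw [ZMod.isUnit_iff_coprime]
    exact hn

theorem twp_val {x₁ s : PC} (n : ℕ) : twp x₁ s (n : ZMod (x₁.1 * s.1)) = x₁.2 (n : ZMod x₁.1) * s.2 (n : ZMod s.1) := by
  by_cases hn : n.Coprime (x₁.1 * s.1)
  · have hc : IsCoprime (n : ℤ) ((x₁.1 * s.1 : ℕ) : ℤ) := Nat.isCoprime_iff_coprime.mpr hn
    have h2 := DirichletCharacter.changeLevel_eq_cast_of_dvd' x₁.2 (Nat.dvd_mul_right x₁.1 s.1) hc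
    have h3 := DirichletCharacter.changeLevel_eq_cast_of_dvd' s.2 (Nat.dvd_mul_left s.1 x₁.1) hc
    push_cast at h2 h3
    unfold twp
    rw [MulChar.mul_apply, ← h2, ← h3]
  · rw [MulChar.map_nonunit _ (by rw [ZMod.isUnit_iff_coprime]; exact hn)]
    rw [Nat.coprime_mul_iff_right, not_and_or] at hn
    rcases hn with hn | hn
    · rw [MulChar.map_nonunit x₁.2 (by rw [ZMod.isUnit_iff_coprime]; exact hn), zero_mul]
    · rw [MulChar.map_nonunit s.2 (by rw [ZMod.isUnit_iff_coprime]; exact hn), mul_zero]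

theorem twp_ne_one {x₁ s : PC} (h₁ : 1 ≤ x₁.1) (hs : 1 ≤ s.1) (hx2 : x₁.2 ^ 2 = 1) (hp₁ : x₁.2.IsPrimitive) (hp : s.2.IsPrimitive) (hne : s ≠ x₁) :
    twp x₁ s ≠ 1 := by
  intro h
  apply hne
  refine pc_ext (M := x₁.1 * s.1) (Nat.mul_pos h₁ hs) (Nat.dvd_mul_left _ _) (Nat.dvd_mul_right _ _) hp hp₁ ?_
  intro n hn
  have h1 := twp_val (x₁ := x₁) (s := s) n
  rw [h, MulChar.one_apply ((ZMod.isUnit_iff_coprime _ _).2 hn)] at h1
  have h2 := x_sq hx2 (hn.coprime_dvd_right (Nat.dvd_mul_right _ _))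
  calc s.2 (n : ZMod s.1) = (x₁.2 (n : ZMod x₁.1) * x₁.2 (n : ZMod x₁.1)) * s.2 (n : ZMod s.1) := by rw [h2, one_mul]
    _ = x₁.2 (n : ZMod x₁.1) * (x₁.2 (n : ZMod x₁.1) * s.2 (n : ZMod s.1)) := by ring
    _ = x₁.2 (n : ZMod x₁.1) := by rw [← h1, mul_one]

theorem pos_gen {Λ r ζre : ℝ} {e z : ℂ} (hΛ : 0 ≤ Λ) (hr : -1 ≤ r) (he : ‖e‖ = 1) (hz : ‖z‖ ≤ 1) (hζ : ζre = 0) :
    0 ≤ ((Λ : ℂ) + (r : ℂ) * (Λ : ℂ) + (z * Λ * e + (r * z) * Λ * e)).re + ζre := by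
  have e1 : (Λ : ℂ) + (r : ℂ) * (Λ : ℂ) + (z * Λ * e + (r * z) * Λ * e) = ((Λ * (1 + r) : ℝ) : ℂ) * (1 + z * e) := by push_cast; ring
  rw [e1, Complex.re_ofReal_mul, hζ, add_zero]
  have h1 : |(z * e).re| ≤ 1 := by
    refine (Complex.abs_re_le_norm _).trans ?_
    rw [norm_mul, he, mul_one]
    exact hz
  have h2 := (abs_le.1 h1).1
  have h3 : 0 ≤ (1 + z * e).re := by
    rw [add_re, one_re]
    linarith
  have h4 : 0 ≤ 1 + r := by linarith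
  positivity

theorem summ_twl' {g : ℕ → ℂ} (ξ : ℝ) {s : ℂ} (h : LSeriesSummable g (s + ((2 * Real.pi * ξ : ℝ) : ℂ) * I)) : LSeriesSummable (twl g ξ) s := by
  unfold LSeriesSummable at h ⊢
  refine h.congr fun n => ?_
  rw [term_twl]

/-- repulsion for the zeros of other L-functions -/
theorem dh_char {q₁ : ℕ} [NeZero q₁] {χ₁ : DirichletCharacter ℂ q₁} {b l : ℝ} (hl : 8 ≤ l) (h1 : χ₁ ≠ 1) (h2 : χ₁ ^ 2 = 1) (hp₁ : χ₁.IsPrimitive)
    (hb : 0 < b) (hb1 : b ≤ 1 / 8) (h0 : LFunction χ₁ ((1 - b : ℝ) : ℂ) = 0) (hq : Real.log q₁ ≤ l)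
    {f : ℕ} [NeZero f] {χ : DirichletCharacter ℂ f} (hp : χ.IsPrimitive) (hχ : χ ≠ 1) (hf : Real.log f ≤ l) (hne : (⟨f, χ⟩ : PC) ≠ ⟨q₁, χ₁⟩)
    {s : ℂ} (hs1 : 7 / 8 ≤ s.re) (hs2 : |s.im| ≤ Real.exp l) (hs : LFunction χ s = 0) :
    1 ≤ 32 * Lm l * b * Real.exp ((1 - s.re) * Lm l) := by
  have hs3 : s.re < 1 := by
    by_contra hcon
    exact DirichletCharacter.LFunction_ne_zero_of_one_le_re χ (Or.inl hχ) (not_lt.1 hcon) hs
  set γ : ℝ := s.im with hγ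
  set ξ : ℝ := γ / (2 * Real.pi) with hξ
  have hξγ : ((2 * Real.pi * ξ : ℝ) : ℂ) = (γ : ℂ) := by
    congr 1
    rw [hξ]
    field_simp
  set x₁ : PC := ⟨q₁, χ₁⟩ with hx₁
  set x : PC := ⟨f, χ⟩ with hx
  have hq1 : 1 ≤ q₁ := Nat.pos_of_ne_zero (NeZero.ne q₁)
  have hf1 : 1 ≤ f := Nat.pos_of_ne_zero (NeZero.ne f)
  have : NeZero (x₁.1 * x.1) := ⟨(Nat.mul_pos hq1 hf1).ne'⟩
  have htw : twp x₁ x ≠ 1 := twp_ne_one hq1 hf1 h2 hp₁ hp hne
  have hfr : (1 : ℝ) ≤ f := by exact_mod_cast hf1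
  have hqr : (1 : ℝ) ≤ q₁ := by exact_mod_cast hq1
  have hfE : (f : ℝ) ≤ Real.exp l := by
    rw [← Real.log_le_iff_le_exp (by linarith)]; exact hf
  have hqE : (q₁ : ℝ) ≤ Real.exp l := by
    rw [← Real.log_le_iff_le_exp (by linarith)]; exact hq
  have hE300 : 300 ≤ Real.exp l := by
    have h2 : Real.exp 8 ≤ Real.exp l := Real.exp_le_exp.2 hl
    have h3 : (2.7 : ℝ) ^ 8 ≤ Real.exp 8 := by
      have h4 : Real.exp 8 = Real.exp 1 ^ 8 := by rw [← Real.exp_nat_mul]; norm_num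
      rw [h4]
      exact pow_le_pow_left₀ (by norm_num) (by have := Real.exp_one_gt_d9; linarith) 8
    have h5 : (300 : ℝ) ≤ 2.7 ^ 8 := by norm_num
    linarith
  have hdχ : Differentiable ℂ (LFunction χ) := differentiable_LFunction hχ
  have hdt : Differentiable ℂ (LFunction (twp x₁ x)) := differentiable_LFunction htw
  have hsh : Differentiable ℂ (fun z : ℂ => z + γ * I) := differentiable_id.add_const _
  have hzero : ((1 - (1 - s.re) : ℝ) : ℂ) + γ * I = s := by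
    apply Complex.ext <;> simp [hγ]
  refine dh_gen hl h1 hb hb1 h0 hq (g₃ := fun z => LFunction χ (z + γ * I)) (g₄ := fun z => LFunction (twp x₁ x) (z + γ * I))
    (hdχ.comp hsh) (hdt.comp hsh) ?_ ?_ ?_ ?_
    (a₃ := twl (fun n : ℕ => χ (n : ZMod f) * ((ArithmeticFunction.vonMangoldt n : ℝ) : ℂ)) ξ)
    (a₄ := twl (fun n : ℕ => twp x₁ x (n : ZMod (x₁.1 * x.1)) * ((ArithmeticFunction.vonMangoldt n : ℝ) : ℂ)) ξ) (ε := 0) (γ := γ) le_rfl zero_le_one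
    ?_ ?_ ?_ (by linarith) (by linarith) ?_
  · intro z hz
    exact DirichletCharacter.LFunction_ne_zero_of_one_le_re χ (Or.inl hχ) (by simpa using hz.le)
  · intro z hz
    exact DirichletCharacter.LFunction_ne_zero_of_one_le_re _ (Or.inl htw) (by simpa using hz.le)
  · exact rb_L hχ hE300 hs2 (k := 1) (by simpa using hfE)
  · refine rb_L htw hE300 hs2 (k := 2) ?_
    have e : ((x₁.1 * x.1 : ℕ) : ℝ) = q₁ * f := by push_cast; rfl
    rw [e, sq]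
    gcongr
  · intro z hz
    have hz' : 1 < (z + γ * I).re := by simpa using hz
    refine ⟨summ_twl' ξ (by rw [hξγ]; exact (ld_chi χ hz').1), ?_⟩
    rw [lser_twl, hξγ, (ld_chi χ hz').2, deriv_shift (LFunction χ) (γ * I) z]
    simp
  · intro z hz
    have hz' : 1 < (z + γ * I).re := by simpa using hz
    refine ⟨summ_twl' ξ (by rw [hξγ]; exact (ld_chi (twp x₁ x) hz').1), ?_⟩
    rw [lser_twl, hξγ, (ld_chi (twp x₁ x) hz').2, deriv_shift (LFunction (twp x₁ x)) (γ * I) z]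
    simp
  · intro n
    obtain ⟨r, hr1, hr2⟩ := real_val (x₁ := x₁) h2 n
    have hr1' : χ₁ (n : ZMod q₁) = (r : ℂ) := hr1
    unfold twl
    beta_reduce
    rw [twp_val (x₁ := x₁) (s := x) n, hr1]
    have := pos_gen (Λ := ArithmeticFunction.vonMangoldt n) (r := r) (ζre := 0) (e := ee (-(ξ * Real.log n))) (z := χ (n : ZMod f))
      ArithmeticFunction.vonMangoldt_nonneg hr2 (norm_ee _) (χ.norm_le_one _) rfl
    rw [add_zero] at this
    exact this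
  · show LFunction χ (((1 - (1 - s.re) : ℝ) : ℂ) + γ * I) * LFunction (twp x₁ x) (((1 - (1 - s.re) : ℝ) : ℂ) + γ * I) = 0
    rw [hzero, hs, zero_mul]

/-- repulsion for the zeros of the zeta function and of the exceptional L-function -/
theorem dh_zeta {q₁ : ℕ} [NeZero q₁] {χ₁ : DirichletCharacter ℂ q₁} {b l : ℝ} (hl : 8 ≤ l) (h1 : χ₁ ≠ 1) (h2 : χ₁ ^ 2 = 1)
    (hb : 0 < b) (hb1 : b ≤ 1 / 8) (h0 : LFunction χ₁ ((1 - b : ℝ) : ℂ) = 0) (hq : Real.log q₁ ≤ l)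
    {s : ℂ} (hs1 : 7 / 8 ≤ s.re) (hs3 : s.re ≤ 1) (hs2 : |s.im| ≤ Real.exp l) (hs : riemannZeta₁ s * F1 χ₁ (1 - b) s = 0) :
    1 ≤ 32 * Lm l * b * Real.exp ((1 - s.re) * Lm l) := by
  set γ : ℝ := s.im with hγ
  set ξ : ℝ := γ / (2 * Real.pi) with hξ
  have hξγ : ((2 * Real.pi * ξ : ℝ) : ℂ) = (γ : ℂ) := by
    congr 1
    rw [hξ]
    field_simp
  set x₁ : PC := ⟨q₁, χ₁⟩ with hx₁
  have hq1 : 1 ≤ q₁ := Nat.pos_of_ne_zero (NeZero.ne q₁)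
  have hqr : (1 : ℝ) ≤ q₁ := by exact_mod_cast hq1
  have hqE : (q₁ : ℝ) ≤ Real.exp l := by
    rw [← Real.log_le_iff_le_exp (by linarith)]; exact hq
  have hE300 : 300 ≤ Real.exp l := by
    have h2 : Real.exp 8 ≤ Real.exp l := Real.exp_le_exp.2 hl
    have h3 : (2.7 : ℝ) ^ 8 ≤ Real.exp 8 := by
      have h4 : Real.exp 8 = Real.exp 1 ^ 8 := by rw [← Real.exp_nat_mul]; norm_num
      rw [h4]
      exact pow_le_pow_left₀ (by norm_num) (by have := Real.exp_one_gt_d9; linarith) 8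
    have h5 : (300 : ℝ) ≤ 2.7 ^ 8 := by norm_num
    linarith
  have hdF : Differentiable ℂ (F1 χ₁ (1 - b)) := F1_diff h1 (1 - b)
  have hsh : Differentiable ℂ (fun z : ℂ => z + γ * I) := differentiable_id.add_const _
  have hzero : ((1 - (1 - s.re) : ℝ) : ℂ) + γ * I = s := by
    apply Complex.ext <;> simp [hγ]
  refine dh_gen hl h1 hb hb1 h0 hq (g₃ := fun z => riemannZeta₁ (z + γ * I)) (g₄ := fun z => F1 χ₁ (1 - b) (z + γ * I))
    (differentiable_riemannZeta₁.comp hsh) (hdF.comp hsh) ?_ ?_ (rb_zeta hE300 hs2) (rb_F1 h1 hb hb1 h0 hE300 hs2 hqE)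
    (a₃ := twl (fun n : ℕ => ((ArithmeticFunction.vonMangoldt n : ℝ) : ℂ)) ξ)
    (a₄ := twl (fun n : ℕ => χ₁ (n : ZMod q₁) * ((ArithmeticFunction.vonMangoldt n : ℝ) : ℂ)) ξ) (ε := 1) (γ := γ) zero_le_one le_rfl
    ?_ ?_ ?_ (by linarith) (by linarith) ?_
  · intro z hz h
    have := Pool.Agent.H437R2.z1_zero_re h
    simp at this
    linarith
  · intro z hz
    exact F1_ne h1 h0 (by simpa using hz.le)
  · intro z hz
    have hz' : 1 < (z + γ * I).re := by simpa using hz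
    refine ⟨summ_twl' ξ (by rw [hξγ]; exact ArithmeticFunction.LSeriesSummable_vonMangoldt hz'), ?_⟩
    rw [lser_twl, hξγ, ld_zeta hz', deriv_shift riemannZeta₁ (γ * I) z]
    have e : z - (1 - γ * I) = z + γ * I - 1 := by ring
    rw [e]
    push_cast
    ring
  · intro z hz
    have hz' : 1 < (z + γ * I).re := by simpa using hz
    refine ⟨summ_twl' ξ (by rw [hξγ]; exact (ld_chi χ₁ hz').1), ?_⟩
    rw [lser_twl, hξγ, ld_exc h1 h0 hz', deriv_shift (F1 χ₁ (1 - b)) (γ * I) z]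
    have e : z - ((1 - b : ℝ) - γ * I) = z + γ * I - ((1 - b : ℝ) : ℂ) := by ring
    rw [e]
    push_cast
    ring
  · intro n
    obtain ⟨r, hr1, hr2⟩ := real_val (x₁ := x₁) h2 n
    have hr1' : χ₁ (n : ZMod q₁) = (r : ℂ) := hr1
    unfold twl
    beta_reduce
    rw [hr1']
    have := pos_gen (Λ := ArithmeticFunction.vonMangoldt n) (r := r) (ζre := 0) (e := ee (-(ξ * Real.log n))) (z := 1)
      ArithmeticFunction.vonMangoldt_nonneg hr2 (norm_ee _) (by simp) rfl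
    simpa using this
  · show riemannZeta₁ (((1 - (1 - s.re) : ℝ) : ℂ) + γ * I) * F1 χ₁ (1 - b) (((1 - (1 - s.re) : ℝ) : ℂ) + γ * I) = 0
    rw [hzero, hs]

/-- a wide region without zeros -/
theorem dh_ZR {q₁ : ℕ} [NeZero q₁] {χ₁ : DirichletCharacter ℂ q₁} {b d l : ℝ} (hl : 8 ≤ l) (h1 : χ₁ ≠ 1) (h2 : χ₁ ^ 2 = 1) (hp₁ : χ₁.IsPrimitive)
    (hb : 0 < b) (hb1 : b ≤ 1 / 8) (h0 : LFunction χ₁ ((1 - b : ℝ) : ℂ) = 0) (hq : Real.log q₁ ≤ l) (hd : d ≤ 1 / 8)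
    (hbd : 32 * Lm l * b * Real.exp (d * Lm l) < 1) : ZR q₁ χ₁ b d l := by
  have hLm : 0 < Lm l := by
    unfold Lm
    have : 0 ≤ Real.log (14 * l) := Real.log_nonneg (by linarith)
    positivity
  have key : ∀ s : ℂ, 1 - d ≤ s.re → ¬ 1 ≤ 32 * Lm l * b * Real.exp ((1 - s.re) * Lm l) := by
    intro s hs hcon
    have h3 : Real.exp ((1 - s.re) * Lm l) ≤ Real.exp (d * Lm l) := by
      apply Real.exp_le_exp.2
      apply mul_le_mul_of_nonneg_right _ hLm.le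
      linarith
    have h4 : 32 * Lm l * b * Real.exp ((1 - s.re) * Lm l) ≤ 32 * Lm l * b * Real.exp (d * Lm l) := mul_le_mul_of_nonneg_left h3 (by positivity)
    linarith
  refine ⟨?_, ?_, ?_⟩
  · intro f _ χ hp hχ hf hne s hs1 hs2 hs
    exact key s hs1 (dh_char hl h1 h2 hp₁ hb hb1 h0 hq hp hχ hf hne (by linarith) hs2 hs)
  · intro s hs1 hs2 hs
    have hs3 := Pool.Agent.H437R2.z1_zero_re hs
    exact key s hs1 (dh_zeta hl h1 h2 hb hb1 h0 hq (by linarith) hs3.le hs2 (by rw [hs, zero_mul]))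
  · intro s hs1 hs2 hs
    have hs3 : s.re ≤ 1 := by
      by_contra hcon
      exact F1_ne h1 h0 (not_le.1 hcon).le hs
    exact key s hs1 (dh_zeta hl h1 h2 hb hb1 h0 hq (by linarith) hs3 hs2 (by rw [hs, mul_zero]))

end Pool.Agent.J4H81.PT.DH
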