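import Pool.Agent.J4H81.PT.ZFc
import Pool.Agent.J4H81.PT.XA

/-!
# Growing prime tuples, all x: logarithmic derivatives in a region of general width (helper81)
-/

set_option autoImplicit false

namespace Pool.Agent.J4H81.PT.ZF

open Complex Filter Topology Set Metric
open DirichletCharacter

theorem exp_big {l : ℝ} (hl : 8 ≤ l) : l ^ 2 ≤ Real.exp (2 * l) ∧ 54 * 32 ≤ Real.exp (100 * l) / 1 ∧ 8 ≤ Real.exp l := by
  have h1 : l ≤ Real.exp l := by have := Real.add_one_le_exp l; linarith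
  refine ⟨?_, ?_, ?_⟩
  · have h2 : Real.exp (2 * l) = Real.exp l ^ 2 := by rw [← Real.exp_nat_mul]; norm_num
    rw [h2]
    exact pow_le_pow_left₀ (by linarith) h1 2
  · rw [div_one]
    have h3 : Real.exp (100 * l) = Real.exp (50 * l) * Real.exp (50 * l) := by rw [← Real.exp_add]; congr 1; ring
    have h4 := Real.add_one_le_exp (50 * l)
    have h5 : (401 : ℝ) ≤ Real.exp (50 * l) := by linarith
    rw [h3]
    nlinarith only [h5]
  · linarith

/-- logarithmic derivatives of L-functions, region of width `d` -/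
theorem logder_char_x {d l : ℝ} (hl : 8 ≤ l) (hd : 1 / l ^ 2 ≤ d) (hd1 : d ≤ 1 / 8) (f : ℕ) [NeZero f] (χ : DirichletCharacter ℂ f)
    (h1 : χ ≠ 1) (hfl : Real.log f ≤ l) (hno : ∀ s : ℂ, 1 - d ≤ s.re → |s.im| ≤ Real.exp l → LFunction χ s ≠ 0) {s : ℂ}
    (hs1 : 1 - d / 2 ≤ s.re) (hs2 : s.re ≤ 1 + d) (hs3 : |s.im| ≤ Real.exp l - 1) :
    LFunction χ s ≠ 0 ∧ ‖deriv (LFunction χ) s / LFunction χ s‖ ≤ 8000 * l ^ 3 := by
  have hl0 : 0 < l := by linarith
  have hd0 : 0 < d := lt_of_lt_of_le (by positivity) hd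
  obtain ⟨hb1, hb2, hb3⟩ := exp_big hl
  rw [div_one] at hb2
  have hf1 : (1 : ℝ) ≤ f := by exact_mod_cast Nat.one_le_iff_ne_zero.2 (NeZero.ne f)
  have hfe : (f : ℝ) ≤ Real.exp l := by
    rw [← Real.log_le_iff_le_exp (by linarith)]; exact hfl
  have hnz : LFunction χ s ≠ 0 := hno s (by linarith) (by linarith)
  refine ⟨hnz, ?_⟩
  have hinv : 1 / d ≤ l ^ 2 := by
    rw [div_le_iff₀ hd0]
    rw [div_le_iff₀ (by positivity)] at hd
    linarith
  have hgen := logder_gen (F := LFunction χ) (differentiable_LFunction h1) (δ := d) (K := 120 * l)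
    (A := Real.exp l * Real.exp l * 32) (B := d / 27) (t := s.im) hd0 (by linarith) (by positivity) (by positivity) ?_ ?_ ?_ ?_ hs1 hs2 rfl
  · refine hgen.trans ?_
    have e : 64 * (120 * l) / d = 7680 * l * (1 / d) := by ring
    rw [e]
    have h2 : 7680 * l * (1 / d) ≤ 7680 * l * l ^ 2 := mul_le_mul_of_nonneg_left hinv (by positivity)
    have h3 : 0 ≤ l ^ 3 := by positivity
    nlinarith only [h2, h3]
  · have h5 : Real.exp (120 * l) = Real.exp l * Real.exp l * (Real.exp (16 * l) * (Real.exp (2 * l) * Real.exp (100 * l))) := by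
      rw [← Real.exp_add, ← Real.exp_add, ← Real.exp_add, ← Real.exp_add]
      congr 1
      ring
    rw [h5]
    have h6 : 1 ≤ Real.exp (2 * l) * d := by
      rw [div_le_iff₀ (by positivity)] at hd
      have : l ^ 2 * d ≤ Real.exp (2 * l) * d := mul_le_mul_of_nonneg_right hb1 hd0.le
      linarith
    have h7 : 1 ≤ Real.exp (16 * l) := Real.one_le_exp (by positivity)
    have h8 : (32 : ℝ) ≤ Real.exp (16 * l) * (Real.exp (2 * l) * Real.exp (100 * l)) * (d / 27) := by
      have e : Real.exp (16 * l) * (Real.exp (2 * l) * Real.exp (100 * l)) * (d / 27) =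
          Real.exp (16 * l) * ((Real.exp (2 * l) * d) * (Real.exp (100 * l) / 27)) := by ring
      rw [e]
      have h9 : (32 : ℝ) ≤ Real.exp (100 * l) / 27 := by rw [le_div_iff₀ (by norm_num)]; linarith
      calc (32 : ℝ) = 1 * (1 * 32) := by norm_num
        _ ≤ _ := by gcongr
    have h10 : 0 < Real.exp l * Real.exp l := by positivity
    nlinarith only [h8, h10, mul_le_mul_of_nonneg_left h8 h10.le]
  · intro z hz1 hz2
    refine hno z hz1 ?_
    have := abs_sub_abs_le_abs_sub z.im s.im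
    linarith
  · intro z hz1 hz2 hz3
    have hzre : 0 < z.re := by linarith
    have h5 := Pool.Agent.Helper368_LD.L_growth h1 hzre
    have h6 : ‖z‖ ≤ Real.exp l + 3 := by
      have h7 := Complex.norm_le_abs_re_add_abs_im z
      rw [abs_of_pos hzre] at h7
      have := abs_sub_abs_le_abs_sub z.im s.im
      linarith
    have h7 : ((f : ℝ) + 1) / z.re ≤ 4 * Real.exp l := by
      rw [div_le_iff₀ hzre]
      have : 3 / 4 ≤ z.re := by linarith
      nlinarith
    calc ‖LFunction χ z‖ ≤ ‖z‖ * (((f : ℝ) + 1) / z.re) := h5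
      _ ≤ (Real.exp l + 3) * (4 * Real.exp l) := by gcongr
      _ ≤ Real.exp l * Real.exp l * 32 := by nlinarith
  · have h5 := lower_char χ (s := ((1 + d : ℝ) : ℂ) + s.im * I) (by simp; linarith) (by simp; linarith)
    have h6 : (((1 + d : ℝ) : ℂ) + s.im * I).re - 1 = d := by simp
    rw [h6] at h5
    exact h5

/-- logarithmic derivative of zeta, region of width `d` -/
theorem logder_zeta_x {d l : ℝ} (hl : 8 ≤ l) (hd : 1 / l ^ 2 ≤ d) (hd1 : d ≤ 1 / 8)
    (hno : ∀ s : ℂ, 1 - d ≤ s.re → |s.im| ≤ Real.exp l → riemannZeta₁ s ≠ 0) {s : ℂ}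
    (hs1 : 1 - d / 2 ≤ s.re) (hs2 : s.re ≤ 1 + d) (hs3 : |s.im| ≤ Real.exp l - 1) :
    riemannZeta₁ s ≠ 0 ∧ ‖deriv riemannZeta₁ s / riemannZeta₁ s‖ ≤ 8000 * l ^ 3 := by
  have hl0 : 0 < l := by linarith
  have hd0 : 0 < d := lt_of_lt_of_le (by positivity) hd
  obtain ⟨hb1, hb2, hb3⟩ := exp_big hl
  rw [div_one] at hb2
  have hnz : riemannZeta₁ s ≠ 0 := hno s (by linarith) (by linarith)
  refine ⟨hnz, ?_⟩
  have hinv : 1 / d ≤ l ^ 2 := by
    rw [div_le_iff₀ hd0]
    rw [div_le_iff₀ (by positivity)] at hd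
    linarith
  have hgen := logder_gen (F := riemannZeta₁) differentiable_riemannZeta₁ (δ := d) (K := 120 * l)
    (A := Real.exp l * Real.exp l * 12) (B := d * (d / 27)) (t := s.im) hd0 (by linarith) (by positivity) (by positivity) ?_ ?_ ?_ ?_ hs1 hs2 rfl
  · refine hgen.trans ?_
    have e : 64 * (120 * l) / d = 7680 * l * (1 / d) := by ring
    rw [e]
    have h2 : 7680 * l * (1 / d) ≤ 7680 * l * l ^ 2 := mul_le_mul_of_nonneg_left hinv (by positivity)
    have h3 : 0 ≤ l ^ 3 := by positivity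
    nlinarith only [h2, h3]
  · have h5 : Real.exp (120 * l) = Real.exp l * Real.exp l * (Real.exp (14 * l) * (Real.exp (2 * l) * Real.exp (2 * l) * Real.exp (100 * l))) := by
      rw [← Real.exp_add, ← Real.exp_add, ← Real.exp_add, ← Real.exp_add, ← Real.exp_add]
      congr 1
      ring
    rw [h5]
    have h6 : 1 ≤ Real.exp (2 * l) * d := by
      rw [div_le_iff₀ (by positivity)] at hd
      have : l ^ 2 * d ≤ Real.exp (2 * l) * d := mul_le_mul_of_nonneg_right hb1 hd0.le
      linarith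
    have h7 : 1 ≤ Real.exp (14 * l) := Real.one_le_exp (by positivity)
    have h8 : (12 : ℝ) ≤ Real.exp (14 * l) * (Real.exp (2 * l) * Real.exp (2 * l) * Real.exp (100 * l)) * (d * (d / 27)) := by
      have e : Real.exp (14 * l) * (Real.exp (2 * l) * Real.exp (2 * l) * Real.exp (100 * l)) * (d * (d / 27)) =
          Real.exp (14 * l) * ((Real.exp (2 * l) * d) * (Real.exp (2 * l) * d) * (Real.exp (100 * l) / 27)) := by ring
      rw [e]
      have h9 : (12 : ℝ) ≤ Real.exp (100 * l) / 27 := by rw [le_div_iff₀ (by norm_num)]; linarith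
      calc (12 : ℝ) = 1 * (1 * 1 * 12) := by norm_num
        _ ≤ _ := by gcongr
    have h10 : 0 < Real.exp l * Real.exp l := by positivity
    nlinarith only [h8, h10, mul_le_mul_of_nonneg_left h8 h10.le]
  · intro z hz1 hz2
    refine hno z hz1 ?_
    have := abs_sub_abs_le_abs_sub z.im s.im
    linarith
  · intro z hz1 hz2 hz3
    have hzre : 0 < z.re := by linarith
    have h5 := Pool.Agent.H437R2.z1_norm_le (s := z) (by linarith)
    have h6 : ‖z‖ ≤ Real.exp l + 2 := by
      have h7 := Complex.norm_le_abs_re_add_abs_im z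
      rw [abs_of_pos hzre] at h7
      have := abs_sub_abs_le_abs_sub z.im s.im
      linarith
    calc ‖riemannZeta₁ z‖ ≤ 3 * (‖z‖ + 1) ^ 2 := h5
      _ ≤ 3 * (Real.exp l + 3) ^ 2 := by
          have h8 : ‖z‖ + 1 ≤ Real.exp l + 3 := by linarith
          gcongr
      _ ≤ Real.exp l * Real.exp l * 12 := by nlinarith
  · have hne : ((1 + d : ℝ) : ℂ) + s.im * I ≠ 1 := by
      intro h
      have := congrArg Complex.re h
      simp at this
      linarith
    rw [Pool.Agent.H437R2.z1_of_ne hne, norm_mul]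
    have h5 := lower_char (1 : DirichletCharacter ℂ 1) (s := ((1 + d : ℝ) : ℂ) + s.im * I) (by simp; linarith) (by simp; linarith)
    have h6 : (((1 + d : ℝ) : ℂ) + s.im * I).re - 1 = d := by simp
    rw [h6, LFunction_modOne_eq] at h5
    have h7 : d ≤ ‖((1 + d : ℝ) : ℂ) + s.im * I - 1‖ := by
      have h8 := Complex.abs_re_le_norm (((1 + d : ℝ) : ℂ) + s.im * I - 1)
      rw [sub_re, one_re, h6, abs_of_pos hd0] at h8
      exact h8
    gcongr

/-- the L-function of the exceptional character without its exceptional zero -/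
noncomputable def F1 {q : ℕ} [NeZero q] (χ : DirichletCharacter ℂ q) (β : ℝ) : ℂ → ℂ := dslope (LFunction χ) (β : ℂ)

theorem F1_diff {q : ℕ} [NeZero q] {χ : DirichletCharacter ℂ q} (h1 : χ ≠ 1) (β : ℝ) : Differentiable ℂ (F1 χ β) := by
  intro z
  have h := (Complex.differentiableOn_dslope (s := Set.univ) (c := (β : ℂ)) (f := LFunction χ) Filter.univ_mem).2
    (differentiable_LFunction h1).differentiableOn
  exact h.differentiableAt Filter.univ_mem

theorem F1_eq {q : ℕ} [NeZero q] {χ : DirichletCharacter ℂ q} {β : ℝ} (h0 : LFunction χ β = 0) {z : ℂ} (hz : z ≠ β) :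
    F1 χ β z = LFunction χ z / (z - β) := by
  unfold F1
  rw [dslope_of_ne _ hz, slope_def_field, h0, sub_zero]

theorem F1_mul {q : ℕ} [NeZero q] {χ : DirichletCharacter ℂ q} {β : ℝ} (h0 : LFunction χ β = 0) (z : ℂ) :
    LFunction χ z = (z - β) * F1 χ β z := by
  by_cases hz : z = β
  · rw [hz, h0, sub_self, zero_mul]
  · rw [F1_eq h0 hz]
    have : z - β ≠ 0 := sub_ne_zero.2 hz
    field_simp

/-- logarithmic derivative of the exceptional L-function without its exceptional zero -/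
theorem logder_F1 {d l : ℝ} (hl : 8 ≤ l) (hd : 1 / l ^ 2 ≤ d) (hd1 : d ≤ 1 / 8) (f : ℕ) [NeZero f] (χ : DirichletCharacter ℂ f)
    (h1 : χ ≠ 1) (hfl : Real.log f ≤ l) {b : ℝ} (hb : 0 < b) (hb1 : b ≤ 1 / 8) (h0 : LFunction χ ((1 - b : ℝ) : ℂ) = 0)
    (hno : ∀ s : ℂ, 1 - d ≤ s.re → |s.im| ≤ Real.exp l → F1 χ (1 - b) s ≠ 0) {s : ℂ}
    (hs1 : 1 - d / 2 ≤ s.re) (hs2 : s.re ≤ 1 + d) (hs3 : |s.im| ≤ Real.exp l - 1) :
    F1 χ (1 - b) s ≠ 0 ∧ ‖deriv (F1 χ (1 - b)) s / F1 χ (1 - b) s‖ ≤ 8000 * l ^ 3 := by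
  have hl0 : 0 < l := by linarith
  have hd0 : 0 < d := lt_of_lt_of_le (by positivity) hd
  obtain ⟨hb1', hb2, hb3⟩ := exp_big hl
  rw [div_one] at hb2
  have hf1 : (1 : ℝ) ≤ f := by exact_mod_cast Nat.one_le_iff_ne_zero.2 (NeZero.ne f)
  have hfe : (f : ℝ) ≤ Real.exp l := by
    rw [← Real.log_le_iff_le_exp (by linarith)]; exact hfl
  have hnz : F1 χ (1 - b) s ≠ 0 := hno s (by linarith) (by linarith)
  refine ⟨hnz, ?_⟩
  have hinv : 1 / d ≤ l ^ 2 := by
    rw [div_le_iff₀ hd0]
    rw [div_le_iff₀ (by positivity)] at hd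
    linarith
  -- growth of the L-function
  have hgrow : ∀ z : ℂ, 1 / 2 ≤ z.re → z.re ≤ 2 → |z.im| ≤ Real.exp l + 1 → ‖LFunction χ z‖ ≤ Real.exp l * Real.exp l * 8 := by
    intro z hz1 hz2 hz3
    have hzre : 0 < z.re := by linarith
    have h5 := Pool.Agent.Helper368_LD.L_growth h1 hzre
    have h6 : ‖z‖ ≤ Real.exp l + 3 := by
      have h7 := Complex.norm_le_abs_re_add_abs_im z
      rw [abs_of_pos hzre] at h7
      linarith
    have h7 : ((f : ℝ) + 1) / z.re ≤ 3 * Real.exp l := by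
      rw [div_le_iff₀ hzre]
      nlinarith
    calc ‖LFunction χ z‖ ≤ ‖z‖ * (((f : ℝ) + 1) / z.re) := h5
      _ ≤ (Real.exp l + 3) * (3 * Real.exp l) := by gcongr
      _ ≤ Real.exp l * Real.exp l * 8 := by nlinarith
  have hgen := logder_gen (F := F1 χ (1 - b)) (F1_diff h1 _) (δ := d) (K := 120 * l)
    (A := Real.exp l * Real.exp l * 32) (B := d / 27 / (2 * Real.exp l)) (t := s.im) hd0 (by linarith) (by positivity) (by positivity) ?_ ?_ ?_ ?_ hs1 hs2 rfl
  · refine hgen.trans ?_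
    have e : 64 * (120 * l) / d = 7680 * l * (1 / d) := by ring
    rw [e]
    have h2 : 7680 * l * (1 / d) ≤ 7680 * l * l ^ 2 := mul_le_mul_of_nonneg_left hinv (by positivity)
    have h3 : 0 ≤ l ^ 3 := by positivity
    nlinarith only [h2, h3]
  · have h5 : Real.exp (120 * l) = Real.exp l * Real.exp l * (Real.exp (15 * l) * (Real.exp (2 * l) * Real.exp (100 * l))) * Real.exp l := by
      rw [← Real.exp_add, ← Real.exp_add, ← Real.exp_add, ← Real.exp_add, ← Real.exp_add]
      congr 1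
      ring
    rw [h5]
    have h6 : 1 ≤ Real.exp (2 * l) * d := by
      rw [div_le_iff₀ (by positivity)] at hd
      have : l ^ 2 * d ≤ Real.exp (2 * l) * d := mul_le_mul_of_nonneg_right hb1' hd0.le
      linarith
    have h7 : 1 ≤ Real.exp (15 * l) := Real.one_le_exp (by positivity)
    have h8 : (32 : ℝ) ≤ Real.exp (15 * l) * (Real.exp (2 * l) * Real.exp (100 * l)) * (d / 54) := by
      have e : Real.exp (15 * l) * (Real.exp (2 * l) * Real.exp (100 * l)) * (d / 54) =
          Real.exp (15 * l) * ((Real.exp (2 * l) * d) * (Real.exp (100 * l) / 54)) := by ring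
      rw [e]
      have h9 : (32 : ℝ) ≤ Real.exp (100 * l) / 54 := by rw [le_div_iff₀ (by norm_num)]; linarith
      calc (32 : ℝ) = 1 * (1 * 32) := by norm_num
        _ ≤ _ := by gcongr
    have h10 : 0 < Real.exp l * Real.exp l := by positivity
    have h11 : Real.exp l * Real.exp l * (Real.exp (15 * l) * (Real.exp (2 * l) * Real.exp (100 * l))) * Real.exp l * (d / 27 / (2 * Real.exp l)) =
        Real.exp l * Real.exp l * (Real.exp (15 * l) * (Real.exp (2 * l) * Real.exp (100 * l)) * (d / 54)) := by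
      field_simp
      norm_num
    rw [h11]
    exact mul_le_mul_of_nonneg_left h8 h10.le
  · intro z hz1 hz2
    refine hno z hz1 ?_
    have := abs_sub_abs_le_abs_sub z.im s.im
    linarith
  · -- growth by the maximum principle
    have hfar : ∀ z : ℂ, 1 / 2 ≤ z.re → z.re ≤ 2 → |z.im| ≤ Real.exp l + 1 → 1 / 4 ≤ ‖z - ((1 - b : ℝ) : ℂ)‖ → ‖F1 χ (1 - b) z‖ ≤ Real.exp l * Real.exp l * 32 := by
      intro z hz1 hz2 hz3 hz4
      have hne : z ≠ ((1 - b : ℝ) : ℂ) := by
        rintro rfl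
        rw [sub_self, norm_zero] at hz4
        linarith
      rw [F1_eq h0 hne, norm_div, div_le_iff₀ (by linarith)]
      have h5 := hgrow z hz1 hz2 hz3
      have h6 : Real.exp l * Real.exp l * 32 * (1 / 4) ≤ Real.exp l * Real.exp l * 32 * ‖z - ((1 - b : ℝ) : ℂ)‖ := by gcongr
      linarith
    intro z hz1 hz2 hz3
    have him : |z.im| ≤ Real.exp l := by
      have := abs_sub_abs_le_abs_sub z.im s.im
      linarith
    rcases le_or_gt (1 / 4) ‖z - ((1 - b : ℝ) : ℂ)‖ with h5 | h5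
    · exact hfar z (by linarith) hz2 (by linarith) h5
    · refine Complex.norm_le_of_forall_mem_frontier_norm_le (U := ball ((1 - b : ℝ) : ℂ) (1 / 4)) isBounded_ball
        (F1_diff h1 _).diffContOnCl ?_ (subset_closure (by rw [mem_ball, dist_eq_norm]; exact h5))
      intro w hw
      have hw' : ‖w - ((1 - b : ℝ) : ℂ)‖ = 1 / 4 := by
        have := frontier_ball_subset_sphere hw
        rwa [mem_sphere, dist_eq_norm] at this
      have h6 := Complex.abs_re_le_norm (w - ((1 - b : ℝ) : ℂ))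
      have h7 := Complex.abs_im_le_norm (w - ((1 - b : ℝ) : ℂ))
      rw [hw', sub_re, ofReal_re] at h6
      rw [hw', sub_im, ofReal_im, sub_zero] at h7
      have h8 := abs_le.1 h6
      exact hfar w (by linarith [h8.1]) (by linarith [h8.2]) (by linarith) hw'.ge
  · have h5 := lower_char χ (s := ((1 + d : ℝ) : ℂ) + s.im * I) (by simp; linarith) (by simp; linarith)
    have h6 : (((1 + d : ℝ) : ℂ) + s.im * I).re - 1 = d := by simp
    rw [h6] at h5
    have hne : ((1 + d : ℝ) : ℂ) + s.im * I ≠ ((1 - b : ℝ) : ℂ) := by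
      intro h
      have := congrArg Complex.re h
      simp at this
      linarith
    rw [F1_eq h0 hne, norm_div]
    have h7 : ‖((1 + d : ℝ) : ℂ) + s.im * I - ((1 - b : ℝ) : ℂ)‖ ≤ 2 * Real.exp l := by
      have e : ((1 + d : ℝ) : ℂ) + s.im * I - ((1 - b : ℝ) : ℂ) = ((d + b : ℝ) : ℂ) + s.im * I := by push_cast; ring
      rw [e]
      refine (norm_add_le _ _).trans ?_
      rw [Complex.norm_real, Real.norm_of_nonneg (by linarith), norm_mul, Complex.norm_I, mul_one, Complex.norm_real, Real.norm_eq_abs]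
      linarith
    have h8 : 0 < ‖((1 + d : ℝ) : ℂ) + s.im * I - ((1 - b : ℝ) : ℂ)‖ := norm_pos_iff.2 (sub_ne_zero.2 hne)
    calc d / 27 / (2 * Real.exp l) ≤ d / 27 / ‖((1 + d : ℝ) : ℂ) + s.im * I - ((1 - b : ℝ) : ℂ)‖ :=
          div_le_div_of_nonneg_left (by positivity) h8 h7
      _ ≤ _ := by gcongr

end Pool.Agent.J4H81.PT.ZF
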