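import Pool.Agent.J4H81.PT.EBa

/-!
# Growing prime tuples, all x: decomposition of weights into hinge functions (helper81)
-/

set_option autoImplicit false

namespace Pool.Agent.J4H81.PT

open Finset MeasureTheory
open Pool.Agent.H807R2.Dav (ee norm_ee ee_add ee_zero ee_int ee_eq dd dd_le)
open Pool.Agent.H398R2.BV (Prim prim_ne_one card_prim_le)

/-- combinations of hinge functions with nodes at the logarithms of the integers up to `N` -/
def Cmb (ω : ℕ → ℝ) (N : ℕ) (A : ℝ) : Prop :=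
  ∃ c : ℕ → ℝ, (∀ n, 1 ≤ n → n ≤ N → ω n = ∑ j ∈ Icc 2 N, c j * lp (Real.log j) (Real.log n)) ∧ ∑ j ∈ Icc 2 N, |c j| ≤ A

theorem Cmb.add {ω ω' : ℕ → ℝ} {N : ℕ} {A A' : ℝ} (h : Cmb ω N A) (h' : Cmb ω' N A') : Cmb (fun n => ω n + ω' n) N (A + A') := by
  obtain ⟨c, h1, h2⟩ := h
  obtain ⟨c', h1', h2'⟩ := h'
  refine ⟨fun j => c j + c' j, ?_, ?_⟩
  · intro n hn hn'
    simp only
    rw [h1 n hn hn', h1' n hn hn', ← sum_add_distrib]
    refine sum_congr rfl fun j _ => ?_
    ring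
  · calc ∑ j ∈ Icc 2 N, |c j + c' j| ≤ ∑ j ∈ Icc 2 N, (|c j| + |c' j|) := sum_le_sum fun j _ => abs_add_le _ _
      _ ≤ A + A' := by rw [sum_add_distrib]; exact add_le_add h2 h2'

theorem Cmb.smul {ω : ℕ → ℝ} {N : ℕ} {A : ℝ} (h : Cmb ω N A) (a : ℝ) : Cmb (fun n => a * ω n) N (|a| * A) := by
  obtain ⟨c, h1, h2⟩ := h
  refine ⟨fun j => a * c j, ?_, ?_⟩
  · intro n hn hn'
    simp only
    rw [h1 n hn hn', mul_sum]
    refine sum_congr rfl fun j _ => ?_
    ring
  · simp_rw [abs_mul]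
    rw [← mul_sum]
    exact mul_le_mul_of_nonneg_left h2 (abs_nonneg a)

/-- the slopes -/
noncomputable def slp (φ : ℝ → ℝ) (j : ℕ) : ℝ := (φ (Real.log ((j - 1 : ℕ) : ℝ)) - φ (Real.log j)) / (Real.log j - Real.log ((j - 1 : ℕ) : ℝ))

theorem log_step_pos {j : ℕ} (hj : 2 ≤ j) : 0 < Real.log j - Real.log ((j - 1 : ℕ) : ℝ) := by
  have h1 : (0 : ℝ) < ((j - 1 : ℕ) : ℝ) := by exact_mod_cast (by omega : 0 < j - 1)
  have h2 : ((j - 1 : ℕ) : ℝ) < j := by exact_mod_cast (by omega : j - 1 < j)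
  have := Real.log_lt_log h1 h2
  linarith

theorem hinge_sum (φ : ℝ → ℝ) (n : ℕ) (hn : 1 ≤ n) : ∀ M, n ≤ M →
    ∑ j ∈ Icc 2 M, (slp φ j - slp φ (j + 1)) * lp (Real.log j) (Real.log n) =
      φ (Real.log n) - φ (Real.log M) - slp φ (M + 1) * (Real.log M - Real.log n) := by
  have hn0 : (0 : ℝ) < n := by exact_mod_cast hn
  intro M hM
  induction M, hM using Nat.le_induction with
  | base =>
    rw [sub_self, sub_self, mul_zero, sub_zero]
    apply sum_eq_zero
    intro j hj
    rw [mem_Icc] at hj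
    have hj0 : (0 : ℝ) < j := by exact_mod_cast (by omega : 0 < j)
    have : Real.log j ≤ Real.log n := Real.log_le_log hj0 (by exact_mod_cast hj.2)
    rw [lp_zero this, mul_zero]
  | succ M hM ih =>
    rw [sum_Icc_succ_top (by omega), ih]
    have hM0 : (0 : ℝ) < M := by exact_mod_cast (by omega : 0 < M)
    have h1 : Real.log n ≤ Real.log ((M + 1 : ℕ) : ℝ) := Real.log_le_log hn0 (by exact_mod_cast (by omega : n ≤ M + 1))
    have h2 : lp (Real.log ((M + 1 : ℕ) : ℝ)) (Real.log n) = Real.log ((M + 1 : ℕ) : ℝ) - Real.log n := by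
      unfold lp
      rw [max_eq_right (by linarith)]
    rw [h2]
    have h3 : slp φ (M + 1) * (Real.log ((M + 1 : ℕ) : ℝ) - Real.log M) = φ (Real.log M) - φ (Real.log ((M + 1 : ℕ) : ℝ)) := by
      unfold slp
      rw [Nat.add_sub_cancel]
      have h4 : 0 < Real.log ((M + 1 : ℕ) : ℝ) - Real.log M := by
        have := Real.log_lt_log hM0 (show (M : ℝ) < ((M + 1 : ℕ) : ℝ) by push_cast; linarith)
        linarith
      rw [div_mul_cancel₀ _ h4.ne']
    linear_combination h3

theorem tele_slp (φ : ℝ → ℝ) : ∀ M, 1 ≤ M → ∑ j ∈ Icc 2 M, (slp φ j - slp φ (j + 1)) = slp φ 2 - slp φ (M + 1) := by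
  intro M hM
  induction M, hM using Nat.le_induction with
  | base => simp
  | succ M hM ih =>
    rw [sum_Icc_succ_top (by omega), ih]
    ring

/-- decreasing convex functions vanishing at the end are combinations of hinge functions -/
theorem cmb_convex {φ : ℝ → ℝ} (hφ : ConvexOn ℝ Set.univ φ) {N : ℕ} (hN : 1 ≤ N) (hz : ∀ t, Real.log N ≤ t → φ t = 0) {A : ℝ}
    (hA : ∀ t, 0 ≤ t → φ 0 - φ t ≤ A * t) : Cmb (fun n => φ (Real.log n)) N A := by
  have hN0 : (0 : ℝ) < N := by exact_mod_cast hN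
  have hlogN1 : Real.log N ≤ Real.log ((N + 1 : ℕ) : ℝ) := Real.log_le_log hN0 (by push_cast; linarith)
  have hend : slp φ (N + 1) = 0 := by
    unfold slp
    rw [Nat.add_sub_cancel, hz _ le_rfl, hz _ hlogN1]
    simp
  refine ⟨fun j => slp φ j - slp φ (j + 1), ?_, ?_⟩
  · intro n hn hnN
    rw [hinge_sum φ n hn N hnN, hend, hz _ le_rfl]
    simp
  · have hpos : ∀ j ∈ Icc 2 N, |slp φ j - slp φ (j + 1)| = slp φ j - slp φ (j + 1) := by
      intro j hj
      rw [mem_Icc] at hj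
      apply abs_of_nonneg
      have h1 := log_step_pos hj.1
      have h2 := log_step_pos (show 2 ≤ j + 1 by omega)
      rw [Nat.add_sub_cancel] at h2
      have h3 := hφ.slope_mono_adjacent (Set.mem_univ (Real.log ((j - 1 : ℕ) : ℝ))) (Set.mem_univ (Real.log ((j + 1 : ℕ) : ℝ)))
        (show Real.log ((j - 1 : ℕ) : ℝ) < Real.log j by linarith) (show Real.log j < Real.log ((j + 1 : ℕ) : ℝ) by linarith)
      unfold slp
      rw [Nat.add_sub_cancel]
      have e1 : (φ (Real.log ((j - 1 : ℕ) : ℝ)) - φ (Real.log j)) / (Real.log j - Real.log ((j - 1 : ℕ) : ℝ)) =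
          -((φ (Real.log j) - φ (Real.log ((j - 1 : ℕ) : ℝ))) / (Real.log j - Real.log ((j - 1 : ℕ) : ℝ))) := by ring
      have e2 : (φ (Real.log j) - φ (Real.log ((j + 1 : ℕ) : ℝ))) / (Real.log ((j + 1 : ℕ) : ℝ) - Real.log j) =
          -((φ (Real.log ((j + 1 : ℕ) : ℝ)) - φ (Real.log j)) / (Real.log ((j + 1 : ℕ) : ℝ) - Real.log j)) := by ring
      rw [e1, e2]
      linarith
    rw [sum_congr rfl hpos, tele_slp φ N hN, hend, sub_zero]
    unfold slp
    have h1 := log_step_pos (le_refl 2)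
    rw [div_le_iff₀ h1]
    have h2 : Real.log ((2 - 1 : ℕ) : ℝ) = 0 := by norm_num
    rw [h2, sub_zero]
    apply hA
    exact Real.log_natCast_nonneg 2

/-- the hinge functions with an exponential factor -/
theorem cmb_hinge {N : ℕ} (hN : 1 ≤ N) {a b : ℝ} (ha : 0 ≤ a) (haN : a ≤ Real.log N) (hb : 0 ≤ b) :
    Cmb (fun n => lp a (Real.log n) * Real.exp (-(b * Real.log n))) N (1 + b * Real.log N) := by
  have hlogN : 0 ≤ Real.log N := ha.trans haN
  have hconv1 : ConvexOn ℝ Set.univ (fun t : ℝ => lp a t) := by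
    unfold lp
    have h1 : ConvexOn ℝ Set.univ (fun _ : ℝ => (0 : ℝ)) := convexOn_const 0 convex_univ
    have h2 : ConvexOn ℝ Set.univ (fun t : ℝ => a - t) := by
      refine ⟨convex_univ, fun x _ y _ s t _ _ hst => ?_⟩
      simp only [smul_eq_mul]
      have : a = (s + t) * a := by rw [hst, one_mul]
      linarith
    exact h1.sup h2
  have hconv2 : ConvexOn ℝ Set.univ (fun t : ℝ => Real.exp (-(b * t))) := by
    have h1 := convexOn_exp
    refine ⟨convex_univ, fun x _ y _ s t hs ht hst => ?_⟩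
    have h2 := h1.2 (Set.mem_univ (-(b * x))) (Set.mem_univ (-(b * y))) hs ht hst
    simp only [smul_eq_mul] at h2 ⊢
    have e : -(b * (s * x + t * y)) = s * -(b * x) + t * -(b * y) := by ring
    rw [e]
    exact h2
  have hanti1 : Antitone (fun t : ℝ => lp a t) := fun u v h => lp_anti a h
  have hanti2 : Antitone (fun t : ℝ => Real.exp (-(b * t))) := by
    intro u v h
    apply Real.exp_le_exp.2
    have := mul_le_mul_of_nonneg_left h hb
    linarith
  have hprod : ConvexOn ℝ Set.univ (fun t : ℝ => lp a t * Real.exp (-(b * t))) := by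
    refine ConvexOn.mul hconv1 hconv2 (fun x _ => lp_nonneg a x) (fun x _ => (Real.exp_pos _).le) ?_
    intro u _ v _ huv
    have h1 : v ≤ u := by
      by_contra hcon
      push Not at hcon
      have := hanti2 hcon.le
      simp only at huv this
      linarith
    exact hanti1 h1
  have h := cmb_convex hprod hN (fun t ht => by rw [lp_zero (haN.trans ht), zero_mul]) (A := 1 + b * Real.log N) (by
    intro t ht
    have e1 : lp a 0 = a := by unfold lp; rw [sub_zero, max_eq_right ha]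
    have h1 : a - t ≤ lp a t := le_max_right _ _
    have h2 := Real.add_one_le_exp (-(b * t))
    have h3 : Real.exp (-(b * t)) ≤ 1 := Real.exp_le_one_iff.2 (by have := mul_nonneg hb ht; linarith)
    have h4 := lp_nonneg a t
    have h5 := Real.exp_pos (-(b * t))
    have hbt : 0 ≤ b * t := mul_nonneg hb ht
    rw [e1, mul_zero, neg_zero, Real.exp_zero, mul_one]
    rcases le_total a t with hat | hat
    · have h6 : 0 ≤ lp a t * Real.exp (-(b * t)) := mul_nonneg h4 h5.le
      have h7 : 0 ≤ b * Real.log N * t := by positivity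
      linarith
    · have h6 : (a - t) * Real.exp (-(b * t)) ≤ lp a t * Real.exp (-(b * t)) := mul_le_mul_of_nonneg_right h1 h5.le
      have h7 : (a - t) * (1 - b * t) ≤ (a - t) * Real.exp (-(b * t)) := mul_le_mul_of_nonneg_left (by linarith) (by linarith)
      have h8 : a * (b * t) ≤ Real.log N * (b * t) := mul_le_mul_of_nonneg_right haN hbt
      have h9 : 0 ≤ t * (b * t) := mul_nonneg ht hbt
      nlinarith only [h6, h7, h8, h9])
  exact h

/-- the smooth weight with an exponential factor -/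
theorem cmb_om {κ₀ : ℝ} (hκ₀ : 0 < κ₀) {N N₁ : ℕ} (hN₁ : 1 ≤ N₁) (h : Real.log N₁ + κ₀ ≤ Real.log N) {b : ℝ} (hb : 0 ≤ b) :
    Cmb (fun n => Real.exp (-(b * Real.log n)) * om κ₀ N N₁ n) N (4 / κ₀ * (1 + b * Real.log N)) := by
  have hlogN₁ : 0 ≤ Real.log N₁ := Real.log_natCast_nonneg N₁
  have hN1 : 1 ≤ N := by
    rcases Nat.eq_zero_or_pos N with h0 | h0
    · rw [h0] at h
      simp at h
      linarith
    · exact h0
  have c1 := cmb_hinge hN1 (show 0 ≤ Real.log N by linarith) le_rfl hb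
  have c2 := cmb_hinge hN1 (show 0 ≤ Real.log N - κ₀ by linarith) (by linarith) hb
  have c3 := cmb_hinge hN1 (show 0 ≤ Real.log N₁ + κ₀ by linarith) h hb
  have c4 := cmb_hinge hN1 hlogN₁ (by linarith) hb
  have h5 := (((c1.smul (1 / κ₀)).add (c2.smul (-(1 / κ₀)))).add (c3.smul (-(1 / κ₀)))).add (c4.smul (1 / κ₀))
  obtain ⟨c, hc1, hc2⟩ := h5
  refine ⟨c, ?_, ?_⟩
  · intro n hn hnN
    rw [← hc1 n hn hnN]
    simp only
    rw [om_eq hκ₀]
    ring
  · refine hc2.trans (le_of_eq ?_)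
    rw [abs_neg, abs_of_pos (by positivity : 0 < 1 / κ₀)]
    ring

end Pool.Agent.J4H81.PT
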