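import Pool.Agent.J4H81.PT.XEa
import Pool.Agent.J4H81.PT.EBb

/-!
# Growing prime tuples, all x: the energy with an exceptional main term (helper81)
-/

set_option autoImplicit false

namespace Pool.Agent.J4H81.PT

open Finset MeasureTheory
open Pool.Agent.H807R2.Dav (ee norm_ee ee_add ee_zero ee_int ee_eq dd dd_le)
open Pool.Agent.H398R2.BV (Prim prim_ne_one card_prim_le)

/-- characters of all moduli -/
abbrev PC := (m : ℕ) × DirichletCharacter ℂ m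

open Classical in
/-- the main term attached to a primitive character -/
noncomputable def kk (x₁ : PC) (b : ℝ) (s : PC) (n : ℕ) : ℂ :=
  if s = ⟨1, 1⟩ then -1 else if s = x₁ then ((Real.exp (-(b * Real.log n)) : ℝ) : ℂ) else 0

theorem kk_le (x₁ : PC) {b : ℝ} (hb : 0 ≤ b) (s : PC) (n : ℕ) : ‖kk x₁ b s n‖ ≤ 1 := by
  classical
  unfold kk
  split_ifs
  · simp
  · rw [Complex.norm_real, Real.norm_of_nonneg (Real.exp_pos _).le, Real.exp_le_one_iff]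
    have := mul_nonneg hb (Real.log_natCast_nonneg n)
    linarith
  · simp

/-- the smoothed sums -/
noncomputable def QSx (x₁ : PC) (b : ℝ) (s : PC) (M : ℕ) (x ξ : ℝ) : ℂ :=
  ∑ n ∈ Icc 1 M, (((ArithmeticFunction.vonMangoldt n : ℝ) : ℂ) * s.2 (n : ZMod s.1) + kk x₁ b s n) * ee (-(ξ * Real.log n)) *
    ((lp (Real.log x) (Real.log n) : ℝ) : ℂ)

theorem QSx_cont (x₁ : PC) (b : ℝ) (s : PC) (M : ℕ) (x : ℝ) : Continuous (QSx x₁ b s M x) := by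
  unfold QSx
  apply continuous_finsetSum
  intro n _
  exact (continuous_const.mul (ee_cont'.comp (by fun_prop))).mul continuous_const

/-- the coefficients -/
noncomputable def cfx (x₁ : PC) (b : ℝ) (ω : ℕ → ℝ) (s : PC) (n : ℕ) : ℂ :=
  ((ω n : ℝ) : ℂ) * (((nu n : ℝ) : ℂ) * s.2 (n : ZMod s.1) + kk x₁ b s n)

theorem cfx_le (x₁ : PC) {b : ℝ} (hb : 0 ≤ b) {ω : ℕ → ℝ} {N N₁ : ℕ} (hω : Wt ω N N₁) (s : PC) {n : ℕ} (hn : n ∈ Ioo N₁ N) :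
    ‖cfx x₁ b ω s n‖ ≤ 1 + Real.log N := by
  rw [mem_Ioo] at hn
  unfold cfx
  rw [norm_mul, Complex.norm_real, Real.norm_of_nonneg (hω.nonneg n)]
  have hn0 : (0 : ℝ) < n := by exact_mod_cast (by omega : 0 < n)
  have hlog : Real.log n ≤ Real.log N := Real.log_le_log hn0 (by exact_mod_cast hn.2.le)
  have h1 : ‖((nu n : ℝ) : ℂ) * s.2 (n : ZMod s.1) + kk x₁ b s n‖ ≤ 1 + Real.log N := by
    refine (norm_add_le _ _).trans ?_
    have h2 : ‖((nu n : ℝ) : ℂ) * s.2 (n : ZMod s.1)‖ ≤ Real.log N := by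
      rw [norm_mul, Complex.norm_real, Real.norm_of_nonneg (nu_nonneg n)]
      have h3 := s.2.norm_le_one (n : ZMod s.1)
      have h4 : nu n ≤ Real.log n := by
        unfold nu; split_ifs
        · exact le_rfl
        · exact Real.log_natCast_nonneg n
      have h5 := nu_nonneg n
      nlinarith [norm_nonneg (s.2 (n : ZMod s.1))]
    have h3 := kk_le x₁ hb s n
    linarith
  have h2 := hω.le_one n
  have h3 := hω.nonneg n
  have h4 : 0 ≤ 1 + Real.log N := (norm_nonneg _).trans h1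
  calc ω n * _ ≤ 1 * (1 + Real.log N) := mul_le_mul h2 h1 (norm_nonneg _) zero_le_one
    _ = _ := one_mul _

/-- the sums with logarithmic frequencies through the smoothed sums -/
theorem PL_QSx (x₁ : PC) (b : ℝ) {N N₁ : ℕ} (hN : 1 ≤ N) {ω : ℕ → ℝ} (hω : Wt ω N N₁) {c : ℕ → ℝ}
    (hc : ∀ n, 1 ≤ n → n ≤ N → ω n = ∑ j ∈ Icc 2 N, c j * lp (Real.log j) (Real.log n)) (s : PC) (ξ : ℝ) :
    ‖PL (Ioo N₁ N) (cfx x₁ b ω s) ξ‖ ≤ ∑ j ∈ Icc 2 N, |c j| * ‖QSx x₁ b s N j ξ‖ + 2 * Real.sqrt N * Real.log N := by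
  have hsub : ∀ g : ℕ → ℂ, (∀ n, ω n = 0 → g n = 0) → ∑ n ∈ Ioo N₁ N, g n = ∑ n ∈ Icc 1 N, g n := by
    intro g hg
    apply sum_subset
    · intro n hn
      rw [mem_Ioo] at hn
      rw [mem_Icc]
      omega
    · intro n hn hn'
      rw [mem_Icc] at hn
      rw [mem_Ioo] at hn'
      apply hg
      rcases (by omega : n ≤ N₁ ∨ N ≤ n) with h1 | h1
      · exact hω.zero_le n h1
      · exact hω.zero_ge n h1
  have hsub2 : ∀ g : ℕ → ℂ, (∀ n, ω n = 0 → g n = 0) → ∑ n ∈ Ioo N₁ N, g n = ∑ n ∈ range N, g n := by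
    intro g hg
    apply sum_subset
    · intro n hn
      rw [mem_Ioo] at hn
      rw [mem_range]
      exact hn.2
    · intro n hn hn'
      rw [mem_range] at hn
      rw [mem_Ioo] at hn'
      exact hg n (hω.zero_le n (by omega))
  have e1 : PL (Ioo N₁ N) (cfx x₁ b ω s) ξ = ∑ n ∈ Icc 1 N, cfx x₁ b ω s n * ee (-(ξ * Real.log n)) := by
    unfold PL
    apply hsub
    intro n hn
    unfold cfx
    rw [hn]
    simp
  have e2 : ∑ n ∈ Icc 1 N, cfx x₁ b ω s n * ee (-(ξ * Real.log n)) =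
      ∑ j ∈ Icc 2 N, ((c j : ℝ) : ℂ) * QSx x₁ b s N j ξ -
      ∑ n ∈ range N, ((ArithmeticFunction.vonMangoldt n - nu n : ℝ) : ℂ) * (((ω n : ℝ) : ℂ) * s.2 (n : ZMod s.1) * ee (-(ξ * Real.log n))) := by
    rw [← hsub2 _ (fun n hn => by rw [hn]; simp), hsub _ (fun n hn => by rw [hn]; simp)]
    have h3 : ∑ j ∈ Icc 2 N, ((c j : ℝ) : ℂ) * QSx x₁ b s N j ξ =
        ∑ n ∈ Icc 1 N, ((ω n : ℝ) : ℂ) * ((((ArithmeticFunction.vonMangoldt n : ℝ) : ℂ) * s.2 (n : ZMod s.1) + kk x₁ b s n) * ee (-(ξ * Real.log n))) := by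
      unfold QSx
      simp_rw [mul_sum]
      rw [sum_comm]
      refine sum_congr rfl fun n hn => ?_
      rw [mem_Icc] at hn
      rw [hc n hn.1 hn.2]
      push_cast
      rw [sum_mul]
      refine sum_congr rfl fun j _ => ?_
      ring
    rw [h3, ← sum_sub_distrib]
    refine sum_congr rfl fun n _ => ?_
    unfold cfx
    push_cast
    ring
  rw [e1, e2]
  refine (norm_sub_le _ _).trans (add_le_add ?_ ?_)
  · refine norm_sum_le_of_le _ fun j _ => ?_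
    rw [norm_mul, Complex.norm_real, Real.norm_eq_abs]
  · apply nu_vM_diff hN
    intro n
    rw [norm_mul, norm_mul, norm_ee, mul_one, Complex.norm_real, Real.norm_of_nonneg (hω.nonneg n)]
    exact mul_le_one₀ (hω.le_one n) (norm_nonneg _) (s.2.norm_le_one _)

/-- the bound for the energy from a uniform bound `D₀` and a mean bound `V` for the smoothed sums -/
theorem EEx_bound (x₁ : PC) {b : ℝ} (hb : 0 ≤ b) {N N₁ R : ℕ} (hR : 1 ≤ R) (hN₁ : 1 ≤ N₁) {ω : ℕ → ℝ} (hω : Wt ω N N₁) {A : ℝ}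
    (hcmb : Cmb ω N A) {T κ Δ D₀ V : ℝ} (hT : 1 ≤ T) (hTN : T ≤ N) (hκ : 0 < κ) (hκ1 : κ ≤ 1) (hΔ : 0 ≤ Δ)
    (hD : ∀ f ∈ Icc 1 R, ∀ χ ∈ Prim f, ∀ ξ : ℝ, |ξ| ≤ T → ∀ x : ℝ, 1 ≤ x → x ≤ N → ‖QSx x₁ b ⟨f, χ⟩ N x ξ‖ ≤ D₀)
    (hV : ∀ x : ℝ, 1 ≤ x → x ≤ N → ∑ f ∈ Icc 1 R, (f : ℝ) / (Nat.totient f : ℝ) * ∑ χ ∈ Prim f, (∫ ξ in (-T)..T, ‖QSx x₁ b ⟨f, χ⟩ N x ξ‖) ≤ V) :
    ∑ f ∈ Icc 1 R, (f : ℝ) / (Nat.totient f : ℝ) * ∑ ψ ∈ Prim f, (∫ β in (-Δ)..Δ, ‖∑ n ∈ Ioo N₁ N, cfx x₁ b ω ⟨f, ψ⟩ n * ee (n * β)‖ ^ 2) ≤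
      6 / N₁ * ((A * D₀ + 2 * Real.sqrt N * (1 + Real.log N)) * (A * V + 4 * (R : ℝ) ^ 2 * T * Real.sqrt N * (1 + Real.log N))) +
      (R : ℝ) ^ 2 * (1200 * N / (N₁ * κ ^ 2 * T ^ 2) * (N * (1 + Real.log N) ^ 2) + 160 * Δ ^ 3 * (N * κ * (N * (1 + Real.log N))) ^ 2) := by
  classical
  obtain ⟨c, hc, hcA⟩ := hcmb
  have hN₁0 : (0 : ℝ) < N₁ := by exact_mod_cast hN₁
  have hN₁1 : (1 : ℝ) ≤ N₁ := by exact_mod_cast hN₁
  have hlogN : 0 ≤ Real.log N := Real.log_natCast_nonneg N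
  have hN1 : (1 : ℝ) ≤ N := hT.trans hTN
  have hN0 : (0 : ℝ) < N := by linarith
  have hNn : 1 ≤ N := by exact_mod_cast hN1
  set Ln : ℝ := 1 + Real.log N with hLn
  have hLn1 : 1 ≤ Ln := by rw [hLn]; linarith
  have hlogle : Real.log N ≤ Ln := by rw [hLn]; linarith
  have h11 : (1 : DirichletCharacter ℂ 1) ∈ Prim 1 := by
    unfold Prim
    rw [mem_filter]
    exact ⟨mem_univ _, DirichletCharacter.isPrimitive_one_level_one⟩
  have hD₀ : 0 ≤ D₀ := (norm_nonneg _).trans (hD 1 (mem_Icc.2 ⟨le_rfl, hR⟩) 1 h11 0 (by rw [abs_zero]; linarith) 1 le_rfl hN1)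
  have hc0 : 0 ≤ ∑ j ∈ Icc 2 N, |c j| := sum_nonneg fun _ _ => abs_nonneg _
  have hA0 : 0 ≤ A := hc0.trans hcA
  have hV0 : 0 ≤ V := by
    refine le_trans ?_ (hV 1 le_rfl hN1)
    apply sum_nonneg
    intro f _
    apply mul_nonneg (by positivity)
    apply sum_nonneg
    intro χ _
    apply intervalIntegral.integral_nonneg (by linarith)
    intro ξ _
    exact norm_nonneg _
  set 𝒟 : ℝ := A * D₀ + 2 * Real.sqrt N * Ln with h𝒟
  have hsq0 : 0 ≤ Real.sqrt N := Real.sqrt_nonneg _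
  have h𝒟0 : 0 ≤ 𝒟 := by positivity
  set w : ℕ → ℝ := fun f => (f : ℝ) / (Nat.totient f : ℝ) with hw
  have hw0 : ∀ f, 0 ≤ w f := fun f => by positivity
  set cc' : (f : ℕ) → DirichletCharacter ℂ f → ℕ → ℂ := fun f χ => cfx x₁ b ω ⟨f, χ⟩ with hcc'
  set S : Finset ℕ := Ioo N₁ N with hS
  set I : (f : ℕ) → DirichletCharacter ℂ f → ℝ := fun f χ => ∫ ξ in (-T)..T, ‖PL S (cc' f χ) ξ‖ ^ 2 with hI
  have hj : ∀ j ∈ Icc 2 N, (1 : ℝ) ≤ (j : ℝ) ∧ (j : ℝ) ≤ N := by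
    intro j hj
    rw [mem_Icc] at hj
    exact ⟨by exact_mod_cast (by omega : 1 ≤ j), by exact_mod_cast hj.2⟩
  have hii : ∀ (s : PC) (x : ℝ), IntervalIntegrable (fun ξ => ‖QSx x₁ b s N x ξ‖) volume (-T) T := fun s x => (QSx_cont x₁ b s N x).norm.intervalIntegrable _ _
  have hIle : ∀ f ∈ Icc 1 R, ∀ χ ∈ Prim f, I f χ ≤ 𝒟 * (∑ j ∈ Icc 2 N, |c j| * (∫ ξ in (-T)..T, ‖QSx x₁ b ⟨f, χ⟩ N j ξ‖) + 4 * T * Real.sqrt N * Ln) := by
    intro f hf χ hχ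
    have hpt : ∀ ξ ∈ Set.Icc (-T) T, ‖PL S (cc' f χ) ξ‖ ^ 2 ≤ 𝒟 * (∑ j ∈ Icc 2 N, |c j| * ‖QSx x₁ b ⟨f, χ⟩ N j ξ‖ + 2 * Real.sqrt N * Ln) := by
      intro ξ hξ
      have hξT : |ξ| ≤ T := abs_le.2 hξ
      have h1 := PL_QSx x₁ b hNn hω hc ⟨f, χ⟩ ξ
      have h2 : ‖PL S (cc' f χ) ξ‖ ≤ ∑ j ∈ Icc 2 N, |c j| * ‖QSx x₁ b ⟨f, χ⟩ N j ξ‖ + 2 * Real.sqrt N * Ln := by
        refine h1.trans ?_
        gcongr
      have h3 : ‖PL S (cc' f χ) ξ‖ ≤ 𝒟 := by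
        refine h2.trans ?_
        rw [h𝒟]
        have h4 : ∑ j ∈ Icc 2 N, |c j| * ‖QSx x₁ b ⟨f, χ⟩ N j ξ‖ ≤ ∑ j ∈ Icc 2 N, |c j| * D₀ := by
          apply sum_le_sum
          intro j hj'
          obtain ⟨hj1, hj2⟩ := hj j hj'
          exact mul_le_mul_of_nonneg_left (hD f hf χ hχ ξ hξT j hj1 hj2) (abs_nonneg _)
        rw [← sum_mul] at h4
        have h5 : (∑ j ∈ Icc 2 N, |c j|) * D₀ ≤ A * D₀ := mul_le_mul_of_nonneg_right hcA hD₀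
        linarith
      rw [sq]
      exact mul_le_mul h3 h2 (norm_nonneg _) h𝒟0
    have hsi : IntervalIntegrable (fun ξ => ∑ j ∈ Icc 2 N, |c j| * ‖QSx x₁ b ⟨f, χ⟩ N j ξ‖) volume (-T) T :=
      ii_sum _ _ fun j _ => (hii _ _).const_mul _
    calc I f χ ≤ ∫ ξ in (-T)..T, 𝒟 * (∑ j ∈ Icc 2 N, |c j| * ‖QSx x₁ b ⟨f, χ⟩ N j ξ‖ + 2 * Real.sqrt N * Ln) := by
          apply intervalIntegral.integral_mono_on (by linarith)
          · exact ((PL_cont S (cc' f χ)).norm.pow 2).intervalIntegrable _ _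
          · exact (hsi.add intervalIntegrable_const).const_mul _
          · exact hpt
      _ = _ := by
          rw [intervalIntegral.integral_const_mul, intervalIntegral.integral_add hsi intervalIntegrable_const,
            intervalIntegral.integral_finsetSum (fun j _ => (hii _ _).const_mul _), intervalIntegral.integral_const,
            smul_eq_mul]
          simp_rw [intervalIntegral.integral_const_mul]
          ring
  have hItot : ∑ f ∈ Icc 1 R, w f * ∑ χ ∈ Prim f, I f χ ≤ 𝒟 * (A * V + 4 * (R : ℝ) ^ 2 * T * Real.sqrt N * Ln) := by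
    calc ∑ f ∈ Icc 1 R, w f * ∑ χ ∈ Prim f, I f χ ≤ ∑ f ∈ Icc 1 R, w f * ∑ χ ∈ Prim f, 𝒟 * (∑ j ∈ Icc 2 N, |c j| * (∫ ξ in (-T)..T, ‖QSx x₁ b ⟨f, χ⟩ N j ξ‖) +
          4 * T * Real.sqrt N * Ln) := by
          apply sum_le_sum
          intro f hf
          exact mul_le_mul_of_nonneg_left (sum_le_sum (hIle f hf)) (hw0 f)
      _ = 𝒟 * (∑ j ∈ Icc 2 N, |c j| * (∑ f ∈ Icc 1 R, w f * ∑ χ ∈ Prim f, (∫ ξ in (-T)..T, ‖QSx x₁ b ⟨f, χ⟩ N j ξ‖)) +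
          (∑ f ∈ Icc 1 R, w f * ((Prim f).card : ℝ)) * (4 * T * Real.sqrt N * Ln)) := by
          have e1 : ∑ j ∈ Icc 2 N, |c j| * (∑ f ∈ Icc 1 R, w f * ∑ χ ∈ Prim f, (∫ ξ in (-T)..T, ‖QSx x₁ b ⟨f, χ⟩ N j ξ‖)) =
              ∑ f ∈ Icc 1 R, w f * ∑ χ ∈ Prim f, ∑ j ∈ Icc 2 N, |c j| * (∫ ξ in (-T)..T, ‖QSx x₁ b ⟨f, χ⟩ N j ξ‖) := by
            simp_rw [mul_sum]
            rw [sum_comm]
            refine sum_congr rfl fun f _ => ?_
            rw [sum_comm]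
            refine sum_congr rfl fun χ _ => sum_congr rfl fun j _ => ?_
            ring
          rw [e1, sum_mul, ← sum_add_distrib, mul_sum]
          refine sum_congr rfl fun f _ => ?_
          rw [← mul_sum, sum_add_distrib, sum_const, nsmul_eq_mul]
          ring
      _ ≤ 𝒟 * (A * V + (R : ℝ) ^ 2 * (4 * T * Real.sqrt N * Ln)) := by
          apply mul_le_mul_of_nonneg_left _ h𝒟0
          apply add_le_add
          · calc ∑ j ∈ Icc 2 N, |c j| * (∑ f ∈ Icc 1 R, w f * ∑ χ ∈ Prim f, (∫ ξ in (-T)..T, ‖QSx x₁ b ⟨f, χ⟩ N j ξ‖)) ≤ ∑ j ∈ Icc 2 N, |c j| * V := by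
                  apply sum_le_sum
                  intro j hj'
                  obtain ⟨hj1, hj2⟩ := hj j hj'
                  exact mul_le_mul_of_nonneg_left (hV j hj1 hj2) (abs_nonneg _)
              _ = (∑ j ∈ Icc 2 N, |c j|) * V := by rw [sum_mul]
              _ ≤ A * V := mul_le_mul_of_nonneg_right hcA hV0
          · exact mul_le_mul_of_nonneg_right (weight_card R) (by positivity)
      _ = _ := by ring
  -- the sizes of the coefficients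
  have hcard : (S.card : ℝ) ≤ N := by
    rw [hS, Nat.card_Ioo]
    exact_mod_cast (by omega : N - N₁ - 1 ≤ N)
  have hs1 : ∀ (f : ℕ) (χ : DirichletCharacter ℂ f), ∑ n ∈ S, ‖cc' f χ n‖ ≤ N * Ln := by
    intro f χ
    calc ∑ n ∈ S, ‖cc' f χ n‖ ≤ ∑ n ∈ S, Ln := sum_le_sum fun n hn => cfx_le x₁ hb hω ⟨f, χ⟩ hn
      _ = S.card * Ln := by rw [sum_const, nsmul_eq_mul]
      _ ≤ N * Ln := mul_le_mul_of_nonneg_right hcard (by linarith)
  have hs2 : ∀ (f : ℕ) (χ : DirichletCharacter ℂ f), ∑ n ∈ S, ‖cc' f χ n‖ ^ 2 ≤ N * Ln ^ 2 := by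
    intro f χ
    calc ∑ n ∈ S, ‖cc' f χ n‖ ^ 2 ≤ ∑ n ∈ S, Ln ^ 2 := sum_le_sum fun n hn => pow_le_pow_left₀ (norm_nonneg _) (cfx_le x₁ hb hω ⟨f, χ⟩ hn) 2
      _ = S.card * Ln ^ 2 := by rw [sum_const, nsmul_eq_mul]
      _ ≤ N * Ln ^ 2 := mul_le_mul_of_nonneg_right hcard (by positivity)
  set E : ℝ := 1200 * N / (N₁ * κ ^ 2 * T ^ 2) * (N * Ln ^ 2) + 160 * Δ ^ 3 * (N * κ * (N * Ln)) ^ 2 with hE
  have hE0 : 0 ≤ E := by positivity
  have hone : ∀ (f : ℕ) (χ : DirichletCharacter ℂ f), (∫ β in (-Δ)..Δ, ‖∑ n ∈ S, cc' f χ n * ee (n * β)‖ ^ 2) ≤ 6 / N₁ * I f χ + E := by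
    intro f χ
    have h1 := add_energy S hN₁1 (fun n hn => by
      rw [hS, mem_Ioo] at hn
      exact ⟨by exact_mod_cast hn.1.le, by exact_mod_cast hn.2.le⟩) (cc' f χ) hκ hκ1 hT hTN hΔ
    refine h1.trans ?_
    rw [hE, ← add_assoc]
    have h2 := hs1 f χ
    have h3 := hs2 f χ
    have h4 : 0 ≤ ∑ n ∈ S, ‖cc' f χ n‖ := sum_nonneg fun _ _ => norm_nonneg _
    gcongr
  calc ∑ f ∈ Icc 1 R, (f : ℝ) / (Nat.totient f : ℝ) * ∑ ψ ∈ Prim f, (∫ β in (-Δ)..Δ, ‖∑ n ∈ S, cc' f ψ n * ee (n * β)‖ ^ 2) ≤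
        ∑ f ∈ Icc 1 R, w f * ∑ ψ ∈ Prim f, (6 / N₁ * I f ψ + E) := by
        apply sum_le_sum
        intro f _
        exact mul_le_mul_of_nonneg_left (sum_le_sum fun ψ _ => hone f ψ) (hw0 f)
    _ = 6 / N₁ * (∑ f ∈ Icc 1 R, w f * ∑ χ ∈ Prim f, I f χ) + (∑ f ∈ Icc 1 R, w f * ((Prim f).card : ℝ)) * E := by
        rw [mul_sum, sum_mul, ← sum_add_distrib]
        refine sum_congr rfl fun f _ => ?_
        rw [sum_add_distrib, ← mul_sum, sum_const, nsmul_eq_mul]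
        ring
    _ ≤ 6 / N₁ * (𝒟 * (A * V + 4 * (R : ℝ) ^ 2 * T * Real.sqrt N * Ln)) + (R : ℝ) ^ 2 * E := by
        apply add_le_add
        · exact mul_le_mul_of_nonneg_left hItot (by positivity)
        · exact mul_le_mul_of_nonneg_right (weight_card R) hE0

end Pool.Agent.J4H81.PT
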