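import Pool.Agent.J4H81.PT.XEd

/-!
# Growing prime tuples, all x: the energy of the corrected weight (helper81)
-/

set_option autoImplicit false

namespace Pool.Agent.J4H81.PT

open Finset MeasureTheory
open Pool.Agent.H807R2.Dav (ee norm_ee ee_add ee_zero ee_int ee_eq dd dd_le)
open Pool.Agent.H398R2.BV (Prim prim_ne_one card_prim_le)

/-- the exponential sum with coefficients `cfx` -/
noncomputable def HX (x₁ : PC) (b : ℝ) (ω : ℕ → ℝ) (N₁ N : ℕ) (s : PC) (β : ℝ) : ℂ :=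
  ∑ n ∈ Ioo N₁ N, cfx x₁ b ω s n * ee (n * β)

theorem HX_cont (x₁ : PC) (b : ℝ) (ω : ℕ → ℝ) (N₁ N : ℕ) (s : PC) : Continuous (HX x₁ b ω N₁ N s) := by
  unfold HX
  apply continuous_finsetSum
  intro n _
  exact continuous_const.mul (ee_cont.comp (by fun_prop))

theorem one_le_w {f : ℕ} (hf : 1 ≤ f) : 1 ≤ (f : ℝ) / (Nat.totient f : ℝ) := by
  have hφ : (0 : ℝ) < Nat.totient f := by exact_mod_cast Nat.totient_pos.2 hf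
  rw [le_div_iff₀ hφ, one_mul]
  exact_mod_cast Nat.totient_le f

theorem DDc_decomp {x₁ : PC} (h₁ : 1 ≤ x₁.1) (hx2 : x₁.2 ^ 2 = 1) (hxp : x₁.2.IsPrimitive) (hx1 : x₁.2 ≠ 1) {f : ℕ} (hf : 1 ≤ f)
    {ψ : DirichletCharacter ℂ f} (hψ : ψ.IsPrimitive) (b ρ : ℝ) {ω : ℕ → ℝ} {N N₁ : ℕ} (hω : Wt ω N N₁) (hN₁ : x₁.1 * f ≤ N₁) (β : ℝ) :
    DDc (cw x₁ b ρ ω) (vw b ρ ω) N f ψ β =
      ((1 / ρ : ℝ) : ℂ) * (HX x₁ b ω N₁ N ⟨f, ψ⟩ β + HX x₁ b (fun n => uu b n * ω n) N₁ N (tws x₁ ⟨f, ψ⟩) β) := by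
  classical
  have h1 : DDc (cw x₁ b ρ ω) (vw b ρ ω) N f ψ β = ∑ n ∈ Ioo N₁ N, (((cw x₁ b ρ ω n : ℝ) : ℂ) * ψ (n : ZMod f) -
      (if ψ = 1 then ((vw b ρ ω n : ℝ) : ℂ) else 0)) * ee (n * β) := by
    unfold DDc
    symm
    apply sum_subset
    · intro n hn
      rw [mem_Ioo] at hn
      rw [mem_range]
      exact hn.2
    · intro n hn hn'
      rw [mem_range] at hn
      rw [mem_Ioo] at hn'
      have h0 : ω n = 0 := hω.zero_le n (by omega)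
      unfold cw vw
      rw [h0]
      simp
  rw [h1]
  unfold HX
  rw [← sum_add_distrib, mul_sum]
  refine sum_congr rfl fun n hn => ?_
  rw [mem_Ioo] at hn
  have h2 := cw_decomp (s := ⟨f, ψ⟩) h₁ hx2 hxp hx1 hf hψ b ρ ω hn.1 hN₁
  simp only at h2
  rw [h2]
  ring

/-- the energy of the corrected weight -/
theorem EEc_le {x₁ : PC} (h₁ : 1 ≤ x₁.1) (hx2 : x₁.2 ^ 2 = 1) (hxp : x₁.2.IsPrimitive) (hx1 : x₁.2 ≠ 1) {b ρ : ℝ} (hρ : 0 < ρ)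
    {ω : ℕ → ℝ} {N N₁ R : ℕ} (hω : Wt ω N N₁) (hN₁ : x₁.1 * R ≤ N₁) {Δ Z : ℝ} (hΔ : 0 ≤ Δ)
    (hZ : ∀ f ∈ Icc 1 R, (f : ℝ) / (Nat.totient f : ℝ) ≤ Z) :
    EEc (cw x₁ b ρ ω) (vw b ρ ω) N R Δ ≤ 2 / ρ ^ 2 *
      ((∑ f ∈ Icc 1 R, (f : ℝ) / (Nat.totient f : ℝ) * ∑ ψ ∈ Prim f, (∫ β in (-Δ)..Δ, ‖HX x₁ b ω N₁ N ⟨f, ψ⟩ β‖ ^ 2)) +
      Z * (∑ f ∈ Icc 1 (x₁.1 * R), (f : ℝ) / (Nat.totient f : ℝ) * ∑ ψ ∈ Prim f, (∫ β in (-Δ)..Δ, ‖HX x₁ b (fun n => uu b n * ω n) N₁ N ⟨f, ψ⟩ β‖ ^ 2))) := by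
  classical
  have hprim : ∀ (f : ℕ) (ψ : DirichletCharacter ℂ f), ψ ∈ Prim f ↔ ψ.IsPrimitive := by
    intro f ψ
    unfold Prim
    rw [mem_filter]
    exact ⟨fun h => h.2, fun h => ⟨mem_univ _, h⟩⟩
  set X : PC → ℝ := fun s => ∫ β in (-Δ)..Δ, ‖HX x₁ b (fun n => uu b n * ω n) N₁ N s β‖ ^ 2 with hX
  set Y : PC → ℝ := fun s => ∫ β in (-Δ)..Δ, ‖HX x₁ b ω N₁ N s β‖ ^ 2 with hY
  have hX0 : ∀ s, 0 ≤ X s := fun s => intervalIntegral.integral_nonneg (by linarith) fun _ _ => sq_nonneg _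
  have hY0 : ∀ s, 0 ≤ Y s := fun s => intervalIntegral.integral_nonneg (by linarith) fun _ _ => sq_nonneg _
  have hiX : ∀ s, IntervalIntegrable (fun β => ‖HX x₁ b (fun n => uu b n * ω n) N₁ N s β‖ ^ 2) volume (-Δ) Δ :=
    fun s => ((HX_cont _ _ _ _ _ s).norm.pow 2).intervalIntegrable _ _
  have hiY : ∀ s, IntervalIntegrable (fun β => ‖HX x₁ b ω N₁ N s β‖ ^ 2) volume (-Δ) Δ :=
    fun s => ((HX_cont _ _ _ _ _ s).norm.pow 2).intervalIntegrable _ _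
  have h1 : ∀ f ∈ Icc 1 R, ∀ ψ ∈ Prim f, (∫ β in (-Δ)..Δ, ‖DDc (cw x₁ b ρ ω) (vw b ρ ω) N f ψ β‖ ^ 2) ≤
      2 / ρ ^ 2 * (Y ⟨f, ψ⟩ + X (tws x₁ ⟨f, ψ⟩)) := by
    intro f hf ψ hψ
    rw [mem_Icc] at hf
    rw [hprim] at hψ
    have hN₁f : x₁.1 * f ≤ N₁ := (Nat.mul_le_mul_left _ hf.2).trans hN₁
    have h2 : ∀ β, ‖DDc (cw x₁ b ρ ω) (vw b ρ ω) N f ψ β‖ ^ 2 ≤
        2 / ρ ^ 2 * (‖HX x₁ b ω N₁ N ⟨f, ψ⟩ β‖ ^ 2 + ‖HX x₁ b (fun n => uu b n * ω n) N₁ N (tws x₁ ⟨f, ψ⟩) β‖ ^ 2) := by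
      intro β
      rw [DDc_decomp h₁ hx2 hxp hx1 hf.1 hψ b ρ hω hN₁f β, norm_mul, Complex.norm_real, Real.norm_of_nonneg (by positivity), mul_pow]
      set p := HX x₁ b ω N₁ N ⟨f, ψ⟩ β
      set q := HX x₁ b (fun n => uu b n * ω n) N₁ N (tws x₁ ⟨f, ψ⟩) β
      have h3 : ‖p + q‖ ^ 2 ≤ 2 * (‖p‖ ^ 2 + ‖q‖ ^ 2) := by
        have h4 := norm_add_le p q
        have h5 : ‖p + q‖ ^ 2 ≤ (‖p‖ + ‖q‖) ^ 2 := pow_le_pow_left₀ (norm_nonneg _) h4 2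
        nlinarith [sq_nonneg (‖p‖ - ‖q‖)]
      calc (1 / ρ) ^ 2 * ‖p + q‖ ^ 2 ≤ (1 / ρ) ^ 2 * (2 * (‖p‖ ^ 2 + ‖q‖ ^ 2)) := mul_le_mul_of_nonneg_left h3 (by positivity)
        _ = _ := by field_simp
    calc (∫ β in (-Δ)..Δ, ‖DDc (cw x₁ b ρ ω) (vw b ρ ω) N f ψ β‖ ^ 2) ≤
          ∫ β in (-Δ)..Δ, 2 / ρ ^ 2 * (‖HX x₁ b ω N₁ N ⟨f, ψ⟩ β‖ ^ 2 + ‖HX x₁ b (fun n => uu b n * ω n) N₁ N (tws x₁ ⟨f, ψ⟩) β‖ ^ 2) := by
          apply intervalIntegral.integral_mono_on (by linarith)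
          · exact ((DDc_cont _ _ N f ψ).norm.pow 2).intervalIntegrable _ _
          · exact ((hiY _).add (hiX _)).const_mul _
          · intro β _
            exact h2 β
      _ = _ := by rw [intervalIntegral.integral_const_mul, intervalIntegral.integral_add (hiY _) (hiX _)]
  have e1 : ∀ (Q : ℕ) (G : PC → ℝ), ∑ f ∈ Icc 1 Q, (f : ℝ) / (Nat.totient f : ℝ) * ∑ ψ ∈ Prim f, G ⟨f, ψ⟩ =
      ∑ s ∈ (Icc 1 Q).sigma (fun f => Prim f), (s.1 : ℝ) / (Nat.totient s.1 : ℝ) * G s := by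
    intro Q G
    rw [sum_sigma]
    refine sum_congr rfl fun f _ => ?_
    rw [mul_sum]
  have hZ0 : ∀ s ∈ (Icc 1 R).sigma (fun f => Prim f), (s.1 : ℝ) / (Nat.totient s.1 : ℝ) * X (tws x₁ s) ≤ Z * X (tws x₁ s) := by
    intro s hs
    rw [mem_sigma] at hs
    exact mul_le_mul_of_nonneg_right (hZ s.1 hs.1) (hX0 _)
  have h3 : ∑ f ∈ Icc 1 R, (f : ℝ) / (Nat.totient f : ℝ) * ∑ ψ ∈ Prim f, X (tws x₁ ⟨f, ψ⟩) ≤
      Z * ∑ f ∈ Icc 1 (x₁.1 * R), (f : ℝ) / (Nat.totient f : ℝ) * ∑ ψ ∈ Prim f, X ⟨f, ψ⟩ := by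
    rcases Nat.eq_zero_or_pos R with hR0 | hR0
    · subst hR0
      simp
    have hZ1 : 0 ≤ Z := le_trans (by positivity) (hZ 1 (mem_Icc.2 ⟨le_rfl, hR0⟩))
    rw [e1 R (fun s => X (tws x₁ s)), e1 (x₁.1 * R) X]
    refine (sum_le_sum hZ0).trans ?_
    rw [← mul_sum]
    apply mul_le_mul_of_nonneg_left _ hZ1
    have hinj : Set.InjOn (tws x₁) (((Icc 1 R).sigma (fun f => Prim f) : Finset PC) : Set PC) := by
      intro s hs s' hs' h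
      rw [mem_coe, mem_sigma] at hs hs'
      have h4 := mem_Icc.1 hs.1
      have h5 := mem_Icc.1 hs'.1
      exact tws_inj h₁ h4.1 h5.1 hx2 ((hprim _ _).1 hs.2) ((hprim _ _).1 hs'.2) h
    rw [← sum_image (f := X) hinj]
    calc ∑ s ∈ ((Icc 1 R).sigma (fun f => Prim f)).image (tws x₁), X s ≤ ∑ s ∈ (Icc 1 (x₁.1 * R)).sigma (fun f => Prim f), X s := by
          apply sum_le_sum_of_subset_of_nonneg
          · intro s hs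
            rw [mem_image] at hs
            obtain ⟨s', hs', rfl⟩ := hs
            rw [mem_sigma] at hs' ⊢
            have h4 := mem_Icc.1 hs'.1
            obtain ⟨h5, h6⟩ := tws_le h₁ h4.1
            refine ⟨mem_Icc.2 ⟨h5, h6.trans (Nat.mul_le_mul_left _ h4.2)⟩, ?_⟩
            exact (hprim _ _).2 (tws_prim _ _)
          · intro s _ _
            exact hX0 s
      _ ≤ ∑ s ∈ (Icc 1 (x₁.1 * R)).sigma (fun f => Prim f), (s.1 : ℝ) / (Nat.totient s.1 : ℝ) * X s := by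
          apply sum_le_sum
          intro s hs
          rw [mem_sigma] at hs
          have h4 := mem_Icc.1 hs.1
          exact le_mul_of_one_le_left (hX0 s) (one_le_w h4.1)
  unfold EEc
  calc ∑ f ∈ Icc 1 R, (f : ℝ) / (Nat.totient f : ℝ) * ∑ ψ ∈ Prim f, (∫ β in (-Δ)..Δ, ‖DDc (cw x₁ b ρ ω) (vw b ρ ω) N f ψ β‖ ^ 2) ≤
        ∑ f ∈ Icc 1 R, (f : ℝ) / (Nat.totient f : ℝ) * ∑ ψ ∈ Prim f, 2 / ρ ^ 2 * (Y ⟨f, ψ⟩ + X (tws x₁ ⟨f, ψ⟩)) := by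
        apply sum_le_sum
        intro f hf
        exact mul_le_mul_of_nonneg_left (sum_le_sum (h1 f hf)) (by positivity)
    _ = 2 / ρ ^ 2 * (∑ f ∈ Icc 1 R, (f : ℝ) / (Nat.totient f : ℝ) * ∑ ψ ∈ Prim f, Y ⟨f, ψ⟩ +
        ∑ f ∈ Icc 1 R, (f : ℝ) / (Nat.totient f : ℝ) * ∑ ψ ∈ Prim f, X (tws x₁ ⟨f, ψ⟩)) := by
        rw [← sum_add_distrib, mul_sum]
        refine sum_congr rfl fun f _ => ?_
        rw [← mul_sum, sum_add_distrib]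
        ring
    _ ≤ _ := by
        apply mul_le_mul_of_nonneg_left _ (by positivity)
        linarith

end Pool.Agent.J4H81.PT
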