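import Pool.Agent.J4H81.PT.XEd
import Pool.Agent.J4H81.PT.TR
import Pool.Agent.J4H81.PT.FCc

/-!
# Growing prime tuples, all x: the corrected weight on the minor arcs (helper81)
-/

set_option autoImplicit false

namespace Pool.Agent.J4H81.PT

open Finset MeasureTheory
open Pool.Agent.H807R2.Dav (ee norm_ee ee_add ee_zero ee_int ee_eq dd dd_le)

/-- the weighted primes on the minor arcs -/
theorem prime_minor_all {N N₁ P : ℕ} (hP : 1 ≤ P) (hP3 : P * P * P ≤ N) (hN₁ : P * P ≤ N₁)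
    {ω : ℕ → ℝ} (hω : Wt ω N N₁) {θ : ℝ}
    (hθ : ∀ q : ℕ, 1 ≤ q → q ≤ P → ∀ a : ℤ, (P : ℝ) / N < |θ - a / q|) :
    ‖∑ n ∈ range N, ((ω n * nu n : ℝ) : ℂ) * ee (n * θ)‖ ≤
      3 * ((Nat.log 2 N + 1 : ℕ) * Bd N P) + 2 * Real.sqrt N * Real.log N := by
  have hN : 1 ≤ N := (Nat.mul_pos (Nat.mul_pos hP hP) hP).trans_le hP3
  have hN0 : (0 : ℝ) < N := by exact_mod_cast hN
  have hP0 : (0 : ℝ) < P := by exact_mod_cast hP
  set K : ℕ := N / P with hK
  have hPN : P ≤ N := by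
    calc P ≤ P * P * P := by nlinarith [Nat.mul_pos hP hP]
      _ ≤ N := hP3
  have hK0 : 0 < K := Nat.div_pos hPN hP
  obtain ⟨r, hr1, hr2⟩ := Real.exists_rat_abs_sub_le_and_den_le θ hK0
  have hrd : 0 < r.den := r.den_pos
  have hrd0 : (0 : ℝ) < r.den := by exact_mod_cast hrd
  have hcast : (r : ℝ) = (r.num : ℝ) / (r.den : ℝ) := by
    rw [Rat.cast_def]
  rw [hcast] at hr1
  have hK1 : (N : ℝ) / P ≤ K + 1 := by
    rw [div_le_iff₀ hP0]
    have : N < (K + 1) * P := by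
      rw [hK]
      have := Nat.lt_div_mul_add hP (a := N)
      linarith
    have h2 : (N : ℝ) < ((K + 1 : ℕ) : ℝ) * P := by exact_mod_cast this
    push_cast at h2
    linarith
  have hPq : P ≤ r.den := by
    by_contra hcon
    push Not at hcon
    have h1 := hθ r.den hrd hcon.le r.num
    have h2 : 1 / (((K : ℝ) + 1) * r.den) ≤ P / N := by
      rw [div_le_div_iff₀ (by positivity) hN0, one_mul]
      have h3 : (N : ℝ) ≤ P * (K + 1) := by
        rw [div_le_iff₀ hP0] at hK1; linarith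
      have h4 : (1 : ℝ) ≤ r.den := by exact_mod_cast hrd
      calc (N : ℝ) ≤ P * (K + 1) := h3
        _ ≤ P * (K + 1) * r.den := le_mul_of_one_le_right (by positivity) h4
        _ = _ := by ring
    linarith
  refine prime_minor hP hP3 hPq ?_ ?_ ?_ hN₁ hω (c := r.num)
  · calc r.den * P ≤ K * P := Nat.mul_le_mul_right _ hr2
      _ ≤ N := Nat.div_mul_le_self _ _
  · rw [Int.isCoprime_iff_nat_coprime]
    simpa using r.reduced
  · refine hr1.trans ?_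
    apply one_div_le_one_div_of_le (by positivity)
    rw [sq]
    apply mul_le_mul_of_nonneg_right _ hrd0.le
    have : (r.den : ℝ) ≤ K := by exact_mod_cast hr2
    linarith

/-- multiplication with a periodic function -/
theorem twist_bound {q N : ℕ} (hq : 0 < q) (g : ℕ → ℂ) (h : ℕ → ℂ) (hper : ∀ n, h (n % q) = h n) (hb : ∀ n, ‖h n‖ ≤ 1) (θ : ℝ) {m : ℝ}
    (hm : ∀ j < q, ‖∑ n ∈ range N, g n * ee (n * (θ + (j : ℝ) / q))‖ ≤ m) : ‖∑ n ∈ range N, g n * h n * ee (n * θ)‖ ≤ q * m := by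
  have hq0 : (q : ℝ) ≠ 0 := by exact_mod_cast hq.ne'
  have hqc : (q : ℂ) ≠ 0 := by exact_mod_cast hq.ne'
  have hm0 : 0 ≤ m := (norm_nonneg _).trans (hm 0 hq)
  have horth : ∀ n : ℕ, h n = ∑ r ∈ range q, h r * ((1 / (q : ℂ)) * ∑ j ∈ range q, ee ((j : ℝ) * ((n : ℤ) - r : ℤ) / q)) := by
    intro n
    have h1 : ∀ r ∈ range q, h r * ((1 / (q : ℂ)) * ∑ j ∈ range q, ee ((j : ℝ) * ((n : ℤ) - r : ℤ) / q)) = if r = n % q then h r else 0 := by
      intro r hr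
      rw [mem_range] at hr
      have h3 := H336V.RamanAux.geom q hq ((n : ℤ) - r)
      simp_rw [ex_ee] at h3
      rw [h3]
      have hiff : ((q : ℤ) ∣ (n : ℤ) - r) ↔ r = n % q := by
        constructor
        · intro hd
          have h4 : (r : ℤ) ≡ n [ZMOD q] := (Int.modEq_iff_dvd).2 hd
          have h5 : r ≡ n [MOD q] := Int.natCast_modEq_iff.1 h4
          have h6 : r % q = n % q := h5
          rwa [Nat.mod_eq_of_lt hr] at h6
        · intro he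
          have h5 : r ≡ n [MOD q] := by
            show r % q = n % q
            rw [he, Nat.mod_mod]
          exact (Int.modEq_iff_dvd).1 (Int.natCast_modEq_iff.2 h5)
      by_cases hd : (q : ℤ) ∣ (n : ℤ) - r
      · rw [if_pos hd, if_pos (hiff.1 hd)]
        field_simp
      · rw [if_neg hd, if_neg (fun h => hd (hiff.2 h))]
        ring
    rw [sum_congr rfl h1, sum_ite_eq', if_pos (mem_range.2 (Nat.mod_lt n hq)), hper]
  have e : ∑ n ∈ range N, g n * h n * ee (n * θ) =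
      ∑ j ∈ range q, ((1 / (q : ℂ)) * ∑ r ∈ range q, h r * ee (-((j : ℝ) * r / q))) * ∑ n ∈ range N, g n * ee (n * (θ + (j : ℝ) / q)) := by
    have h2 : ∀ n ∈ range N, g n * h n * ee (n * θ) =
        ∑ j ∈ range q, ∑ r ∈ range q, (1 / (q : ℂ)) * (h r * ee (-((j : ℝ) * r / q))) * (g n * ee (n * (θ + (j : ℝ) / q))) := by
      intro n _
      nth_rewrite 1 [horth n]
      rw [mul_sum, sum_mul, sum_comm]
      refine sum_congr rfl fun r _ => ?_
      rw [mul_sum, mul_sum, mul_sum, sum_mul]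
      refine sum_congr rfl fun j _ => ?_
      have h3 : ee ((j : ℝ) * ((n : ℤ) - r : ℤ) / q) * ee (n * θ) = ee (-((j : ℝ) * r / q)) * ee (n * (θ + (j : ℝ) / q)) := by
        rw [← ee_add, ← ee_add]
        congr 1
        push_cast
        field_simp
        ring
      linear_combination (g n * h r * (1 / (q : ℂ))) * h3
    rw [sum_congr rfl h2, sum_comm]
    refine sum_congr rfl fun j _ => ?_
    rw [mul_sum]
    refine sum_congr rfl fun n _ => ?_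
    rw [mul_sum, sum_mul]
  rw [e]
  calc ‖∑ j ∈ range q, ((1 / (q : ℂ)) * ∑ r ∈ range q, h r * ee (-((j : ℝ) * r / q))) * ∑ n ∈ range N, g n * ee (n * (θ + (j : ℝ) / q))‖ ≤
        ∑ j ∈ range q, m := by
        refine norm_sum_le_of_le _ fun j hj => ?_
        rw [mem_range] at hj
        rw [norm_mul]
        have h4 : ‖(1 / (q : ℂ)) * ∑ r ∈ range q, h r * ee (-((j : ℝ) * r / q))‖ ≤ 1 := by
          rw [norm_mul, norm_div, norm_one, Complex.norm_natCast]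
          have h5 : ‖∑ r ∈ range q, h r * ee (-((j : ℝ) * r / q))‖ ≤ q := by
            calc _ ≤ ∑ r ∈ range q, (1 : ℝ) := norm_sum_le_of_le _ fun r _ => by
                  rw [norm_mul, norm_ee, mul_one]; exact hb r
              _ = q := by simp
          have hq1 : (0 : ℝ) < q := by exact_mod_cast hq
          rw [one_div, inv_mul_le_iff₀ hq1, mul_one]
          exact h5
        calc _ ≤ 1 * m := mul_le_mul h4 (hm j hj) (norm_nonneg _) zero_le_one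
          _ = m := one_mul m
    _ = q * m := by rw [sum_const, card_range, nsmul_eq_mul]

theorem Bd_anti {N P P' : ℕ} (hP : 1 ≤ P) (h : P ≤ P') : Bd N P' ≤ Bd N P := by
  unfold Bd
  have h1 : (0 : ℝ) < P := by exact_mod_cast hP
  have h2 : (P : ℝ) ≤ P' := by exact_mod_cast h
  have h3 : Real.sqrt P ≤ Real.sqrt P' := Real.sqrt_le_sqrt h2
  have h4 : 0 < Real.sqrt P := Real.sqrt_pos.2 h1
  apply mul_le_mul_of_nonneg_left _ (by positivity)
  exact div_le_div_of_nonneg_left (Nat.cast_nonneg _) h4 h3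

/-- the total bound on the minor arcs -/
noncomputable def MM (N P W Q : ℕ) : ℝ :=
  3 * ((Nat.log 2 N + 1 : ℕ) * Bd N P) + 2 * Real.sqrt N * Real.log N + (((W * Q : ℕ) : ℝ) ^ 3 * 3 + 2 * (N / Real.sqrt P))

/-- the corrected weight on the minor arcs -/
theorem cw_minor {x₁ : PC} (h₁ : 1 ≤ x₁.1) {W Q N N₁ P P₁ : ℕ} (hWs : Squarefree W) (hP₁ : 1 ≤ P₁) (hPP : x₁.1 * P₁ ≤ P) (hP3 : P * P * P ≤ N)
    (hN₁ : P * P ≤ N₁) {ω : ℕ → ℝ} (hω : Wt ω N N₁) (hWQ : 0 < W * Q) {b ρ : ℝ} (hb : 0 ≤ b) (hρ : 0 < ρ) (hρ1 : ρ ≤ 1)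
    (hv : Wt (vw b ρ ω) N N₁) {θ : ℝ} (hθ : ∀ q : ℕ, 1 ≤ q → q ≤ P → ∀ a : ℤ, (P : ℝ) / N < |θ - a / q|) :
    ‖hat (cx (hc W Q (cw x₁ b ρ ω) (vw b ρ ω))) N θ‖ ≤ (x₁.1 + 3) / ρ * MM N P₁ W Q := by
  have hP₁P : P₁ ≤ P := le_trans (Nat.le_mul_of_pos_left P₁ h₁) hPP
  have hP : 1 ≤ P := hP₁.trans hP₁P
  have hP₁3 : P₁ * P₁ * P₁ ≤ N := (Nat.mul_le_mul (Nat.mul_le_mul hP₁P hP₁P) hP₁P).trans hP3
  have hP₁2 : P₁ * P₁ ≤ N₁ := (Nat.mul_le_mul hP₁P hP₁P).trans hN₁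
  have hN : 1 ≤ N := (Nat.mul_pos (Nat.mul_pos hP hP) hP).trans_le hP3
  have hN0 : (0 : ℝ) < N := by exact_mod_cast hN
  have hq0 : (0 : ℝ) < x₁.1 := by exact_mod_cast h₁
  have hlogN : 0 ≤ Real.log N := Real.log_natCast_nonneg N
  have hBd0 : 0 ≤ Bd N P₁ := by unfold Bd; positivity
  set B₁ : ℝ := 3 * ((Nat.log 2 N + 1 : ℕ) * Bd N P₁) + 2 * Real.sqrt N * Real.log N with hB₁
  have hB₁0 : 0 ≤ B₁ := by positivity
  have hM0 : B₁ ≤ MM N P₁ W Q := by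
    unfold MM
    have : 0 ≤ ((W * Q : ℕ) : ℝ) ^ 3 * 3 + 2 * (N / Real.sqrt P₁) := by positivity
    linarith
  set M := MM N P₁ W Q with hM
  have hMnn : 0 ≤ M := hB₁0.trans hM0
  have hBP : 3 * ((Nat.log 2 N + 1 : ℕ) * Bd N P) + 2 * Real.sqrt N * Real.log N ≤ B₁ := by
    have := Bd_anti (N := N) hP₁ hP₁P
    rw [hB₁]
    gcongr
  -- the untwisted part
  have t1 : ‖∑ n ∈ range N, ((ω n * nu n : ℝ) : ℂ) * ee (n * θ)‖ ≤ M := (prime_minor_all hP hP3 hN₁ hω hθ).trans (hBP.trans hM0)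
  -- the twisted part
  have hωu : Wt (fun n => uu b n * ω n) N N₁ := hω.mul_anti (uu_anti hb) (fun n => (uu_pos b n).le) (fun n => uu_le_one hb n)
  have t2 : ‖∑ n ∈ range N, ((uu b n * ω n * nu n : ℝ) : ℂ) * (((x₁.2 (n : ZMod x₁.1)).re : ℝ) : ℂ) * ee (n * θ)‖ ≤ x₁.1 * M := by
    apply twist_bound h₁ (fun n => ((uu b n * ω n * nu n : ℝ) : ℂ)) (fun n => (((x₁.2 (n : ZMod x₁.1)).re : ℝ) : ℂ))
    · intro n
      rw [ZMod.natCast_mod]
    · intro n
      rw [Complex.norm_real, Real.norm_eq_abs]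
      exact (Complex.abs_re_le_norm _).trans (x₁.2.norm_le_one _)
    · intro j _
      refine le_trans (prime_minor_all hP₁ hP₁3 hP₁2 hωu ?_) hM0
      intro q hq1 hqP a
      have hq0' : (q : ℝ) ≠ 0 := by exact_mod_cast (by omega : q ≠ 0)
      have hqq : q * x₁.1 ≤ P := by
        calc q * x₁.1 ≤ P₁ * x₁.1 := Nat.mul_le_mul_right _ hqP
          _ = x₁.1 * P₁ := Nat.mul_comm _ _
          _ ≤ P := hPP
      have h1 := hθ (q * x₁.1) (Nat.mul_pos hq1 h₁) hqq (a * x₁.1 - j * q)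
      have e : θ - ((a * x₁.1 - j * q : ℤ) : ℝ) / ((q * x₁.1 : ℕ) : ℝ) = θ + (j : ℝ) / x₁.1 - a / q := by
        push_cast
        field_simp
        ring
      rw [e] at h1
      refine lt_of_le_of_lt ?_ h1
      have : (P₁ : ℝ) ≤ P := by exact_mod_cast hP₁P
      gcongr
  -- the model
  have t3 := minor (Q := Q) hWs hP hP3 hN₁ hv hWQ hθ
  have t4 := prime_minor_all hP hP3 hN₁ hv hθ
  have hMP : 3 * ((Nat.log 2 N + 1 : ℕ) * Bd N P) + 2 * Real.sqrt N * Real.log N + (((W * Q : ℕ) : ℝ) ^ 3 * 3 + 2 * (N / Real.sqrt P)) ≤ M := by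
    rw [hM]
    unfold MM
    have h1 : (N : ℝ) / Real.sqrt P ≤ N / Real.sqrt P₁ := by
      have h2 : (0 : ℝ) < P₁ := by exact_mod_cast hP₁
      have h3 : (P₁ : ℝ) ≤ P := by exact_mod_cast hP₁P
      exact div_le_div_of_nonneg_left hN0.le (Real.sqrt_pos.2 h2) (Real.sqrt_le_sqrt h3)
    linarith
  have hMP' : 3 * ((Nat.log 2 N + 1 : ℕ) * Bd N P) + 2 * Real.sqrt N * Real.log N ≤ M := hBP.trans hM0
  have e : hat (cx (hc W Q (cw x₁ b ρ ω) (vw b ρ ω))) N θ =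
      ((1 / ρ : ℝ) : ℂ) * (∑ n ∈ range N, ((ω n * nu n : ℝ) : ℂ) * ee (n * θ) +
        ∑ n ∈ range N, ((uu b n * ω n * nu n : ℝ) : ℂ) * (((x₁.2 (n : ZMod x₁.1)).re : ℝ) : ℂ) * ee (n * θ)) +
      (∑ n ∈ range N, ((vw b ρ ω n * (nu n - GW W Q (n : ℤ)) : ℝ) : ℂ) * ee (n * θ) - ∑ n ∈ range N, ((vw b ρ ω n * nu n : ℝ) : ℂ) * ee (n * θ)) := by
    unfold hat cx hc cw
    rw [← sum_add_distrib, mul_sum, ← sum_sub_distrib, ← sum_add_distrib]
    refine sum_congr rfl fun n _ => ?_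
    push_cast
    ring
  rw [e]
  have n1 : ‖((1 / ρ : ℝ) : ℂ) * (∑ n ∈ range N, ((ω n * nu n : ℝ) : ℂ) * ee (n * θ) +
        ∑ n ∈ range N, ((uu b n * ω n * nu n : ℝ) : ℂ) * (((x₁.2 (n : ZMod x₁.1)).re : ℝ) : ℂ) * ee (n * θ))‖ ≤ 1 / ρ * (M + x₁.1 * M) := by
    rw [norm_mul, Complex.norm_real, Real.norm_of_nonneg (by positivity)]
    exact mul_le_mul_of_nonneg_left ((norm_add_le _ _).trans (add_le_add t1 t2)) (by positivity)
  have n2 := norm_sub_le (∑ n ∈ range N, ((vw b ρ ω n * (nu n - GW W Q (n : ℤ)) : ℝ) : ℂ) * ee (n * θ)) (∑ n ∈ range N, ((vw b ρ ω n * nu n : ℝ) : ℂ) * ee (n * θ))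
  have h1ρ : 1 ≤ 1 / ρ := by rw [le_div_iff₀ hρ]; linarith
  have n3 : 2 * M ≤ 1 / ρ * (2 * M) := le_mul_of_one_le_left (by linarith) h1ρ
  refine (norm_add_le _ _).trans ?_
  have e2 : (x₁.1 + 3) / ρ * M = 1 / ρ * (M + x₁.1 * M) + 1 / ρ * (2 * M) := by ring
  rw [e2]
  linarith

end Pool.Agent.J4H81.PT
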