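import Pool.Agent.J4H81.PT.XEe
import Pool.Agent.J4H81.PT.FCb

/-!
# Growing prime tuples, all x: the energy with parameters (helper81)
-/

set_option autoImplicit false

namespace Pool.Agent.J4H81.PT

open Finset MeasureTheory Filter
open Pool.Agent.H807R2.Dav (ee norm_ee ee_add ee_zero ee_int ee_eq dd dd_le)
open Pool.Agent.H398R2.BV (Prim prim_ne_one card_prim_le)

theorem cw_supp {x₁ : PC} {b ρ : ℝ} {ω : ℕ → ℝ} {N N₁ : ℕ} (hω : Wt ω N N₁) {n : ℕ} (h : cw x₁ b ρ ω n ≠ 0) : n.Prime ∧ N₁ < n := by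
  constructor
  · by_contra hcon
    apply h
    unfold cw nu
    rw [if_neg hcon]
    simp
  · by_contra hcon
    apply h
    unfold cw
    rw [hω.zero_le n (by omega)]
    simp

theorem EEc_nonneg (c ω : ℕ → ℝ) (N R : ℕ) {Δ : ℝ} (hΔ : 0 ≤ Δ) : 0 ≤ EEc c ω N R Δ := by
  unfold EEc
  apply sum_nonneg
  intro f _
  apply mul_nonneg (by positivity)
  apply sum_nonneg
  intro χ _
  exact intervalIntegral.integral_nonneg (by linarith) fun _ _ => by positivity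

/-- the energy bound with parameters, one weight -/
theorem EEx_par : ∃ l₀ : ℝ, 100 ≤ l₀ ∧ ∀ l : ℝ, l₀ ≤ l → ∀ (x₁ : PC) (b : ℝ), 0 ≤ b → b ≤ 1 →
    ∀ (N N₁ R P₁ q : ℕ) (η A e₂ C₁ : ℝ) (ω : ℕ → ℝ), Wt ω N N₁ → Cmb ω N A → 0 ≤ A → A ≤ 256 * l ^ 3 →
    Real.exp (l / 50) / 2 ≤ P₁ → (P₁ : ℝ) ≤ Real.exp (l / 50) → 1 ≤ R → (R : ℝ) ≤ Real.exp (l / 40) → (R : ℝ) ^ 2 ≤ (P₁ : ℝ) ^ 3 →
    (q : ℝ) ^ 3 ≤ P₁ → 1 / l ≤ η → η ≤ 1 → η * N / 128 ≤ N₁ → Real.exp (100 * l) ≤ N → Real.log N ≤ l ^ 2 → 0 < e₂ → 1 ≤ C₁ →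
    (∀ f : ℕ, 1 ≤ f → Real.log f ≤ l → ∀ χ ∈ Prim f, ∀ ξ : ℝ, |2 * Real.pi * ξ| ≤ Real.exp l / 4 →
      ∀ x : ℝ, 1 ≤ x → x ≤ N → ‖QSx x₁ b ⟨f, χ⟩ N x ξ‖ ≤ C₁ * l ^ 4 * (N * e₂)) →
    ∑ f ∈ Icc 1 R, (f : ℝ) / (Nat.totient f : ℝ) * ∑ ψ ∈ Prim f, (∫ β in (-((q * P₁ : ℕ) / (N : ℝ)))..((q * P₁ : ℕ) / (N : ℝ)), ‖HX x₁ b ω N₁ N ⟨f, ψ⟩ β‖ ^ 2) ≤
      10 ^ 12 * C₁ * l ^ 19 * (N * (e₂ + Real.exp (-(l / 10)))) := by
  obtain ⟨l₂, hl₂⟩ := eventually_atTop.1 ((poly_exp (show (0 : ℝ) < 99 by norm_num) 6 360000).and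
    ((poly_exp (show (0 : ℝ) < 49 by norm_num) 4 72)))
  refine ⟨max l₂ 100, le_max_right _ _, ?_⟩
  intro l hl x₁ b hb hb1 N N₁ R P₁ q η A e₂ C₁ ω hω hcmb hA0 hA hP1 hP2 hR1 hRle hRP hqP hη hη1 hN₁l hN hNl he₂0 hC₁ hsup
  have hl100 : 100 ≤ l := (le_max_right _ _).trans hl
  have hll₂ : l₂ ≤ l := (le_max_left _ _).trans hl
  obtain ⟨hp1, hp2⟩ := hl₂ l hll₂
  have hl0 : 0 < l := by linarith
  have hl1 : 1 ≤ l := by linarith
  have hη0 : 0 < η := lt_of_lt_of_le (by positivity) hη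
  have hNpos : (0 : ℝ) < N := lt_of_lt_of_le (Real.exp_pos _) hN
  have hN1 : (1 : ℝ) ≤ N := by
    have : 1 ≤ Real.exp (100 * l) := Real.one_le_exp (by positivity)
    linarith
  have hPexp : (2 : ℝ) ≤ Real.exp (l / 50) := by
    have := Real.add_one_le_exp (l / 50)
    linarith
  have hP1' : (1 : ℝ) ≤ P₁ := by linarith
  have hP0 : (0 : ℝ) < P₁ := by linarith
  have hR1' : (1 : ℝ) ≤ R := by exact_mod_cast hR1
  have hlogR : Real.log R ≤ l / 40 := by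
    rw [← Real.log_exp (l / 40)]
    exact Real.log_le_log (by linarith) hRle
  -- parameters of the energy bound
  set T₁ : ℝ := (P₁ : ℝ) ^ 10 with hT₁
  have hT₁1 : 1 ≤ T₁ := one_le_pow₀ hP1'
  have hT₁le : T₁ ≤ Real.exp (l / 5) := by
    calc T₁ ≤ Real.exp (l / 50) ^ 10 := pow_le_pow_left₀ hP0.le hP2 10
      _ = Real.exp (l / 5) := by
          rw [← Real.exp_nat_mul]
          congr 1
          push_cast
          ring
  have hT₁N : T₁ ≤ N := hT₁le.trans ((Real.exp_le_exp.2 (by linarith)).trans hN)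
  set κ : ℝ := 1 / (P₁ : ℝ) ^ 6 with hκ
  have hκ0 : 0 < κ := by positivity
  have hκ1 : κ ≤ 1 := by
    rw [hκ, div_le_one (by positivity)]
    exact one_le_pow₀ hP1'
  set Δ : ℝ := (q * P₁ : ℕ) / (N : ℝ) with hΔ
  have hΔ0 : 0 ≤ Δ := by positivity
  set U : ℕ := ⌈7 * T₁ * (1 + (R : ℝ) ^ 2)⌉₊ with hU
  have hU1 : 7 * T₁ * (1 + (R : ℝ) ^ 2) ≤ U := Nat.le_ceil _
  have hU2 : (U : ℝ) ≤ 15 * (T₁ * (R : ℝ) ^ 2) := by
    have h1 : (U : ℝ) < 7 * T₁ * (1 + (R : ℝ) ^ 2) + 1 := Nat.ceil_lt_add_one (by positivity)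
    have h2 : 1 ≤ (R : ℝ) ^ 2 := one_le_pow₀ hR1'
    nlinarith only [h1, h2, hT₁1, mul_nonneg (sub_nonneg.2 hT₁1) (sub_nonneg.2 h2)]
  have hU3 : (U : ℝ) ≤ 15 * Real.exp (l / 4) := by
    refine hU2.trans ?_
    have h1 : T₁ * (R : ℝ) ^ 2 ≤ Real.exp (l / 5) * Real.exp (l / 40) ^ 2 := by gcongr
    have h2 : Real.exp (l / 5) * Real.exp (l / 40) ^ 2 = Real.exp (l / 4) := by
      rw [← Real.exp_nat_mul, ← Real.exp_add]
      congr 1
      push_cast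
      ring
    linarith
  have hN₁pos : (0 : ℝ) < N₁ := lt_of_lt_of_le (by positivity) hN₁l
  have hN₁1 : 1 ≤ N₁ := by exact_mod_cast hN₁pos
  set D₀ : ℝ := C₁ * l ^ 4 * (N * e₂) with hD₀
  have hD : ∀ f ∈ Icc 1 R, ∀ χ ∈ Prim f, ∀ ξ : ℝ, |ξ| ≤ T₁ → ∀ x : ℝ, 1 ≤ x → x ≤ N → ‖QSx x₁ b ⟨f, χ⟩ N x ξ‖ ≤ D₀ := by
    intro f hf χ hχ ξ hξ x hx hxN
    rw [mem_Icc] at hf
    apply hsup f hf.1 _ χ hχ ξ _ x hx hxN
    · have h1 : Real.log f ≤ Real.log R := Real.log_le_log (by exact_mod_cast hf.1) (by exact_mod_cast hf.2)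
      linarith
    · rw [abs_mul, abs_of_pos (by positivity : 0 < 2 * Real.pi)]
      have h1 : 2 * Real.pi ≤ 7 := by have := Real.pi_lt_d2; linarith
      have h2 : 2 * Real.pi * |ξ| ≤ 7 * Real.exp (l / 5) := mul_le_mul h1 (hξ.trans hT₁le) (abs_nonneg _) (by norm_num)
      refine h2.trans ?_
      have h3 : Real.exp l = Real.exp (l / 5) * Real.exp (4 * l / 5) := by rw [← Real.exp_add]; congr 1; ring
      have h4 : 28 ≤ Real.exp (4 * l / 5) := by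
        have := Real.add_one_le_exp (4 * l / 5)
        linarith
      rw [h3]
      have := Real.exp_pos (l / 5)
      nlinarith only [h4, this]
  -- the mean values
  set e₁ : ℝ := Real.exp (-(l / 10)) with he₁
  have he₁0 : 0 < e₁ := Real.exp_pos _
  set Ln : ℝ := 1 + Real.log N with hLn
  have hlogN : 0 ≤ Real.log N := Real.log_nonneg hN1
  have hLn0 : 0 ≤ Ln := by linarith
  have hLn2 : Ln ≤ 2 * l ^ 2 := by
    have : 1 ≤ l ^ 2 := one_le_pow₀ hl1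
    linarith
  set Z : ℝ := l ^ 4 with hZdef
  have hZ0 : 0 ≤ Z := by positivity
  have hZ : ∀ f ∈ Icc 1 R, (f : ℝ) / (Nat.totient f : ℝ) ≤ Z := by
    intro f hf
    rw [mem_Icc] at hf
    refine (rphi hf.1).trans ?_
    have h1 : Real.log f ≤ Real.log R := Real.log_le_log (by exact_mod_cast hf.1) (by exact_mod_cast hf.2)
    have h2 : 0 ≤ Real.log f := Real.log_natCast_nonneg f
    exact pow_le_pow_left₀ (by linarith) (by linarith) 4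
  have hV1 := fun x hx hxN => mean_x x₁ hb R N U hT₁1 hT₁N hU1 hZ0 hZ (x := x) hx hxN
  rw [← hLn] at hV1
  have hVle : 256 * Ln ^ 4 * N + 200 * T₁ ^ 2 * U ^ 2 * (R : ℝ) ^ 3 * Ln ^ 3 + Z * (4 * Ln ^ 2 * N + 18 * T₁ ^ 2 * Ln ^ 2) ≤ 4200 * l ^ 8 * N := by
    have h1 : 256 * Ln ^ 4 * N ≤ 4096 * l ^ 8 * N := by
      calc 256 * Ln ^ 4 * N ≤ 256 * (2 * l ^ 2) ^ 4 * N := by gcongr
        _ = _ := by ring
    have h2 : 200 * T₁ ^ 2 * U ^ 2 * (R : ℝ) ^ 3 * Ln ^ 3 ≤ N := by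
      calc 200 * T₁ ^ 2 * U ^ 2 * (R : ℝ) ^ 3 * Ln ^ 3 ≤ 200 * Real.exp (l / 5) ^ 2 * (15 * Real.exp (l / 4)) ^ 2 * Real.exp (l / 40) ^ 3 * (2 * l ^ 2) ^ 3 := by gcongr
        _ = 360000 * l ^ 6 * (Real.exp (l / 5) ^ 2 * Real.exp (l / 4) ^ 2 * Real.exp (l / 40) ^ 3) := by ring
        _ ≤ Real.exp (99 * l) * Real.exp (1 * l) := by
            apply mul_le_mul hp1 _ (by positivity) (Real.exp_pos _).le
            rw [← Real.exp_nat_mul, ← Real.exp_nat_mul, ← Real.exp_nat_mul, ← Real.exp_add, ← Real.exp_add]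
            apply Real.exp_le_exp.2
            push_cast
            linarith
        _ = Real.exp (100 * l) := by rw [← Real.exp_add]; congr 1; ring
        _ ≤ N := hN
    have h3 : 18 * T₁ ^ 2 * Ln ^ 2 ≤ N := by
      calc 18 * T₁ ^ 2 * Ln ^ 2 ≤ 18 * Real.exp (l / 5) ^ 2 * (2 * l ^ 2) ^ 2 := by gcongr
        _ = 72 * l ^ 4 * Real.exp (l / 5) ^ 2 := by ring
        _ ≤ Real.exp (49 * l) * Real.exp (l / 5) ^ 2 := by gcongr
        _ ≤ Real.exp (100 * l) := by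
            rw [← Real.exp_nat_mul, ← Real.exp_add]
            apply Real.exp_le_exp.2
            push_cast
            linarith
        _ ≤ N := hN
    have h4 : Z * (4 * Ln ^ 2 * N + 18 * T₁ ^ 2 * Ln ^ 2) ≤ l ^ 4 * (4 * (2 * l ^ 2) ^ 2 * N + N) := by
      rw [hZdef]
      gcongr
    have h8 : (1 : ℝ) ≤ l ^ 8 := one_le_pow₀ hl1
    have h48 : l ^ 4 ≤ l ^ 8 := pow_le_pow_right₀ hl1 (by norm_num)
    have h5 : N ≤ l ^ 8 * N := le_mul_of_one_le_left hNpos.le h8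
    have h6 : l ^ 4 * N ≤ l ^ 8 * N := mul_le_mul_of_nonneg_right h48 hNpos.le
    have h7 : l ^ 4 * (4 * (2 * l ^ 2) ^ 2 * N + N) = 16 * (l ^ 8 * N) + l ^ 4 * N := by ring
    nlinarith only [h1, h2, h4, h5, h6, h7, mul_nonneg (pow_nonneg hl0.le 8) hNpos.le]
  have hEE := EEx_bound x₁ hb hR1 hN₁1 hω hcmb hT₁1 hT₁N hκ0 hκ1 hΔ0 hD
    (V := 4200 * l ^ 8 * N) (fun x hx hxN => (hV1 x hx hxN).trans hVle)
  rw [← hLn] at hEE
  have hHX : ∀ (s : PC) (β : ℝ), HX x₁ b ω N₁ N s β = ∑ n ∈ Ioo N₁ N, cfx x₁ b ω s n * ee (n * β) := fun s β => rfl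
  simp_rw [hHX]
  refine hEE.trans ?_
  have hsqrt : Real.sqrt N ≤ N * Real.exp (-(50 * l)) := by
    have h1 : Real.exp (50 * l) ≤ Real.sqrt N := by
      apply Real.le_sqrt_of_sq_le
      rw [← Real.exp_nat_mul]
      refine le_trans (Real.exp_le_exp.2 ?_) hN
      push_cast
      linarith
    have h2 : Real.sqrt N * Real.sqrt N = N := Real.mul_self_sqrt hNpos.le
    have h3 : Real.exp (50 * l) * Real.exp (-(50 * l)) = 1 := by rw [← Real.exp_add, add_neg_cancel, Real.exp_zero]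
    have h4 := Real.sqrt_nonneg (N : ℝ)
    have h5 := Real.exp_pos (-(50 * l))
    calc Real.sqrt N = Real.sqrt N * (Real.exp (50 * l) * Real.exp (-(50 * l))) := by rw [h3, mul_one]
      _ ≤ Real.sqrt N * (Real.sqrt N * Real.exp (-(50 * l))) := by gcongr
      _ = N * Real.exp (-(50 * l)) := by rw [← mul_assoc, h2]
  have hsqrt0 := Real.sqrt_nonneg (N : ℝ)
  have h50 : Real.exp (-(50 * l)) ≤ e₁ := Real.exp_le_exp.2 (by linarith)
  -- the first factor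
  have hAA : A * D₀ + 2 * Real.sqrt N * Ln ≤ 256 * C₁ * l ^ 7 * (N * (e₂ + e₁)) := by
    have h1 : A * D₀ ≤ 256 * l ^ 3 * D₀ := mul_le_mul_of_nonneg_right hA (by positivity)
    have h2 : 2 * Real.sqrt N * Ln ≤ 2 * (N * e₁) * (2 * l ^ 2) := by
      have : Real.sqrt N ≤ N * e₁ := hsqrt.trans (mul_le_mul_of_nonneg_left h50 hNpos.le)
      gcongr
    have h3 : 2 * (N * e₁) * (2 * l ^ 2) ≤ 256 * C₁ * l ^ 7 * (N * e₁) := by
      have h4 : l ^ 2 ≤ l ^ 7 := pow_le_pow_right₀ hl1 (by norm_num)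
      have h5 : 0 ≤ N * e₁ := by positivity
      calc 2 * (N * e₁) * (2 * l ^ 2) = 4 * l ^ 2 * (N * e₁) := by ring
        _ ≤ 256 * C₁ * l ^ 7 * (N * e₁) := by
            apply mul_le_mul_of_nonneg_right _ h5
            calc 4 * l ^ 2 ≤ 256 * 1 * l ^ 7 := by linarith [pow_nonneg hl0.le 7]
              _ ≤ 256 * C₁ * l ^ 7 := by gcongr
    calc A * D₀ + 2 * Real.sqrt N * Ln ≤ 256 * l ^ 3 * D₀ + 256 * C₁ * l ^ 7 * (N * e₁) := by linarith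
      _ = _ := by rw [hD₀]; ring
  -- the second factor
  have hB : A * (4200 * l ^ 8 * N) + 4 * (R : ℝ) ^ 2 * T₁ * Real.sqrt N * Ln ≤ 1100000 * l ^ 11 * N := by
    have h3 : 4 * (R : ℝ) ^ 2 * T₁ * Real.sqrt N * Ln ≤ N := by
      calc 4 * (R : ℝ) ^ 2 * T₁ * Real.sqrt N * Ln ≤ 4 * Real.exp (l / 40) ^ 2 * Real.exp (l / 5) * (N * Real.exp (-(50 * l))) * (2 * l ^ 2) := by gcongr
        _ = (8 * l ^ 2) * (Real.exp (l / 40) ^ 2 * Real.exp (l / 5) * Real.exp (-(50 * l))) * N := by ring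
        _ ≤ (72 * l ^ 4) * (Real.exp (l / 40) ^ 2 * Real.exp (l / 5) * Real.exp (-(50 * l))) * N := by
            have h24 : l ^ 2 ≤ l ^ 4 := pow_le_pow_right₀ hl1 (by norm_num)
            have h72 : 8 * l ^ 2 ≤ 72 * l ^ 4 := by linarith [pow_nonneg hl0.le 4]
            gcongr
        _ ≤ Real.exp (49 * l) * (Real.exp (l / 40) ^ 2 * Real.exp (l / 5) * Real.exp (-(50 * l))) * N := by gcongr
        _ ≤ 1 * N := by
            apply mul_le_mul_of_nonneg_right _ hNpos.le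
            rw [← Real.exp_nat_mul, ← Real.exp_add, ← Real.exp_add, ← Real.exp_add]
            apply Real.exp_le_one_iff.2
            push_cast
            linarith
        _ = N := one_mul _
    have h4 : A * (4200 * l ^ 8 * N) ≤ 256 * l ^ 3 * (4200 * l ^ 8 * N) := mul_le_mul_of_nonneg_right hA (by positivity)
    have h11 : (1 : ℝ) ≤ l ^ 11 := one_le_pow₀ hl1
    have h5 : N ≤ l ^ 11 * N := le_mul_of_one_le_left hNpos.le h11
    have h6 : 256 * l ^ 3 * (4200 * l ^ 8 * N) = 1075200 * (l ^ 11 * N) := by ring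
    nlinarith only [h3, h4, h5, h6, mul_nonneg (pow_nonneg hl0.le 11) hNpos.le]
  -- the first part
  have hN₁' : 6 / (N₁ : ℝ) ≤ 768 * l / N := by
    rw [div_le_div_iff₀ hN₁pos hNpos]
    have h1 : (N : ℝ) / 128 / l ≤ N₁ := by
      refine le_trans ?_ hN₁l
      calc (N : ℝ) / 128 / l = (1 / l) * N / 128 := by ring
        _ ≤ η * N / 128 := by gcongr
    rw [div_le_iff₀ hl0] at h1
    linarith
  have hpart1 : 6 / (N₁ : ℝ) * ((A * D₀ + 2 * Real.sqrt N * Ln) * (A * (4200 * l ^ 8 * N) + 4 * (R : ℝ) ^ 2 * T₁ * Real.sqrt N * Ln)) ≤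
      3 * 10 ^ 11 * C₁ * l ^ 19 * (N * (e₂ + e₁)) := by
    have hA0' : 0 ≤ A * D₀ + 2 * Real.sqrt N * Ln := by positivity
    have hB0 : 0 ≤ A * (4200 * l ^ 8 * N) + 4 * (R : ℝ) ^ 2 * T₁ * Real.sqrt N * Ln := by positivity
    calc _ ≤ 768 * l / N * ((256 * C₁ * l ^ 7 * (N * (e₂ + e₁))) * (1100000 * l ^ 11 * N)) := by
          apply mul_le_mul hN₁' _ (by positivity) (by positivity)
          exact mul_le_mul hAA hB hB0 (by positivity)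
      _ = 216268800000 * C₁ * l ^ 19 * (N * (e₂ + e₁)) := by
          field_simp
          ring
      _ ≤ _ := by
          have : 0 ≤ C₁ * l ^ 19 * (N * (e₂ + e₁)) := by positivity
          linarith only [this]
  -- the second part
  have hP5 : 1 / (P₁ : ℝ) ^ 5 ≤ 32 * e₁ := by
    have h1 : (Real.exp (l / 50) / 2) ^ 5 ≤ (P₁ : ℝ) ^ 5 := by gcongr
    have h2 : (Real.exp (l / 50) / 2) ^ 5 = Real.exp (l / 10) / 32 := by
      rw [div_pow, ← Real.exp_nat_mul]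
      congr 2
      · push_cast; ring
      · norm_num
    rw [h2] at h1
    rw [div_le_iff₀ (by positivity)]
    have h3 : e₁ * Real.exp (l / 10) = 1 := by rw [he₁, ← Real.exp_add]; simp
    nlinarith only [h1, h3, he₁0, mul_le_mul_of_nonneg_left h1 he₁0.le]
  have hpart2 : (R : ℝ) ^ 2 * (1200 * N / (N₁ * κ ^ 2 * T₁ ^ 2) * (N * Ln ^ 2) + 160 * Δ ^ 3 * (N * κ * (N * Ln)) ^ 2) ≤ 2 * 10 ^ 7 * l ^ 5 * (N * e₁) := by
    have h1 : 1200 * (N : ℝ) / (N₁ * κ ^ 2 * T₁ ^ 2) ≤ 153600 * l / (P₁ : ℝ) ^ 8 := by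
      have h2 : 1200 * (N : ℝ) / (N₁ * κ ^ 2 * T₁ ^ 2) = 200 * (6 / N₁) * N / (P₁ : ℝ) ^ 8 := by
        rw [hκ, hT₁]
        field_simp
        norm_num
      rw [h2]
      apply div_le_div_of_nonneg_right _ (by positivity)
      calc 200 * (6 / (N₁ : ℝ)) * N ≤ 200 * (768 * l / N) * N := by gcongr
        _ = 153600 * l := by field_simp; ring
    have h3 : 160 * Δ ^ 3 * (N * κ * (N * Ln)) ^ 2 ≤ 160 * N * Ln ^ 2 / (P₁ : ℝ) ^ 8 := by
      have h4 : 160 * Δ ^ 3 * (N * κ * (N * Ln)) ^ 2 = (q : ℝ) ^ 3 * (160 * N * Ln ^ 2 / (P₁ : ℝ) ^ 9) := by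
        rw [hΔ, hκ]
        push_cast
        field_simp
      rw [h4]
      calc (q : ℝ) ^ 3 * (160 * N * Ln ^ 2 / (P₁ : ℝ) ^ 9) ≤ P₁ * (160 * N * Ln ^ 2 / (P₁ : ℝ) ^ 9) := by
            apply mul_le_mul_of_nonneg_right hqP (by positivity)
        _ = _ := by field_simp
    have hl5 : l ^ 4 ≤ l ^ 5 := pow_le_pow_right₀ hl1 (by norm_num)
    calc (R : ℝ) ^ 2 * (1200 * N / (N₁ * κ ^ 2 * T₁ ^ 2) * (N * Ln ^ 2) + 160 * Δ ^ 3 * (N * κ * (N * Ln)) ^ 2) ≤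
          (P₁ : ℝ) ^ 3 * (153600 * l / (P₁ : ℝ) ^ 8 * (N * (2 * l ^ 2) ^ 2) + 160 * N * (2 * l ^ 2) ^ 2 / (P₁ : ℝ) ^ 8) := by
          apply mul_le_mul hRP _ (by positivity) (by positivity)
          apply add_le_add
          · gcongr
          · refine h3.trans ?_
            gcongr
      _ = 614400 * l ^ 5 * N * (1 / (P₁ : ℝ) ^ 5) + 640 * l ^ 4 * N * (1 / (P₁ : ℝ) ^ 5) := by
          field_simp
          ring
      _ ≤ 614400 * l ^ 5 * N * (1 / (P₁ : ℝ) ^ 5) + 640 * l ^ 5 * N * (1 / (P₁ : ℝ) ^ 5) := by gcongr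
      _ = 615040 * l ^ 5 * N * (1 / (P₁ : ℝ) ^ 5) := by ring
      _ ≤ 615040 * l ^ 5 * N * (32 * e₁) := by gcongr
      _ ≤ _ := by
          have : 0 ≤ l ^ 5 * (N * e₁) := by positivity
          linarith only [this]
  have h1 : 2 * 10 ^ 7 * l ^ 5 * (N * e₁) ≤ 10 ^ 9 * C₁ * l ^ 19 * (N * (e₂ + e₁)) := by
    have h2 : l ^ 5 ≤ l ^ 19 := pow_le_pow_right₀ hl1 (by norm_num)
    have h3 : N * e₁ ≤ N * (e₂ + e₁) := by
      apply mul_le_mul_of_nonneg_left _ hNpos.le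
      linarith
    calc 2 * 10 ^ 7 * l ^ 5 * (N * e₁) ≤ 10 ^ 9 * 1 * l ^ 19 * (N * (e₂ + e₁)) := by
          have h5 : (2 : ℝ) * 10 ^ 7 ≤ 10 ^ 9 * 1 := by norm_num
          gcongr
      _ ≤ _ := by gcongr
  have h2 : 0 ≤ C₁ * l ^ 19 * (N * (e₂ + e₁)) := by positivity
  nlinarith only [hpart1, hpart2, h1, h2]

end Pool.Agent.J4H81.PT
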