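import Pool.Agent.J4H81.PT.XGa

/-!
# Growing prime tuples, all x: the energy on the major arcs with parameters (helper81)
-/

set_option autoImplicit false

namespace Pool.Agent.J4H81.PT

open Finset MeasureTheory Filter
open Pool.Agent.H807R2.Dav (ee norm_ee ee_add ee_zero ee_int ee_eq dd dd_le)
open Pool.Agent.H398R2.BV (Prim prim_ne_one card_prim_le)

/-- the energy on the major arcs -/
theorem energy_x : ∃ (K : ℕ) (l₀ : ℝ), 100 ≤ l₀ ∧ ∀ l : ℝ, l₀ ≤ l → ∀ (x₁ : PC) (b ρ : ℝ), 1 ≤ x₁.1 → x₁.2 ^ 2 = 1 → x₁.2.IsPrimitive → x₁.2 ≠ 1 →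
    (x₁.1 : ℝ) ≤ Real.exp (l / 2000) → 0 ≤ b → b ≤ 1 → 0 < ρ → ρ ≤ 1 →
    ∀ (W T P₁ N₁ : ℕ) (η e₂ C₁ : ℝ), Squarefree W → 0 < T → (W : ℝ) ≤ Real.exp (l / 700) → Real.exp (l / 50) / 2 ≤ P₁ → (P₁ : ℝ) ≤ Real.exp (l / 50) →
    1 / l ≤ η → η ≤ 1 → η * (W * T : ℕ) / 128 ≤ N₁ → (N₁ : ℝ) ≤ (W * T : ℕ) / 4 → Real.exp (100 * l) ≤ (W * T : ℕ) → Real.log (W * T : ℕ) ≤ l ^ 2 →
    0 < e₂ → 1 ≤ C₁ → Wt (vw b ρ (om (η / 32) (W * T : ℕ) N₁)) (W * T) N₁ →
    (∀ f : ℕ, 1 ≤ f → Real.log f ≤ l → ∀ χ ∈ Prim f, ∀ ξ : ℝ, |2 * Real.pi * ξ| ≤ Real.exp l / 4 →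
      ∀ x : ℝ, 1 ≤ x → x ≤ (W * T : ℕ) → ‖QSx x₁ b ⟨f, χ⟩ (W * T) x ξ‖ ≤ C₁ * l ^ 4 * ((W * T : ℕ) * e₂)) →
    (∑ q ∈ Icc 1 (W * (x₁.1 * P₁)), 1 / (Nat.totient q : ℝ) ≤ l ^ K) ∧
    ∫ θ in (0 : ℝ)..1, {θ : ℝ | W * θ ∈ MA (x₁.1 * P₁) (((x₁.1 * P₁ : ℕ) : ℝ) / T)}.indicator
      (fun θ => ‖hat (cx (hc W (W * (x₁.1 * P₁)) (cw x₁ b ρ (om (η / 32) (W * T : ℕ) N₁)) (vw b ρ (om (η / 32) (W * T : ℕ) N₁)))) (W * T) θ‖ ^ 2) θ ≤
      10 ^ 14 * C₁ * l ^ K / ρ ^ 2 * ((W * T : ℕ) * (e₂ + Real.exp (-(l / 10)))) := by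
  obtain ⟨l₁, hl₁, hpar⟩ := EEx_par
  obtain ⟨k₀, hk₀⟩ := Pool.Agent.N728.SP.GDW.sum_phi
  set K₀ : ℕ := 2 ^ k₀ with hK₀
  refine ⟨K₀ + 23, max l₁ 2000, by
    have := le_max_left l₁ (2000 : ℝ)
    linarith, ?_⟩
  intro l hl x₁ b ρ h₁ hx2 hxp hx1 hq hb hb1 hρ hρ1 W T P₁ N₁ η e₂ C₁ hWs hT hW hP1 hP2 hη hη1 hN₁l hN₁u hN hNl he₂0 hC₁ hv hsup
  have hl2000 : 2000 ≤ l := (le_max_right _ _).trans hl
  have hll₁ : l₁ ≤ l := (le_max_left _ _).trans hl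
  have hl0 : 0 < l := by linarith
  have hl1 : 1 ≤ l := by linarith
  set N : ℕ := W * T with hNdef
  set q : ℕ := x₁.1 with hqdef
  have hWpos : 0 < W := Nat.pos_of_ne_zero hWs.ne_zero
  have hW1 : (1 : ℝ) ≤ W := by exact_mod_cast hWpos
  have hW0 : (0 : ℝ) < W := by linarith
  have hq1 : (1 : ℝ) ≤ q := by exact_mod_cast h₁
  have hη0 : 0 < η := lt_of_lt_of_le (by positivity) hη
  have hNpos : (0 : ℝ) < N := lt_of_lt_of_le (Real.exp_pos _) hN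
  have hN1 : (1 : ℝ) ≤ N := by
    have : 1 ≤ Real.exp (100 * l) := Real.one_le_exp (by positivity)
    linarith
  have hlogN : 0 ≤ Real.log N := Real.log_nonneg hN1
  have hPexp : (2 : ℝ) ≤ Real.exp (l / 50) := by
    have := Real.add_one_le_exp (l / 50)
    linarith
  have hP1' : (1 : ℝ) ≤ P₁ := by linarith
  have hP₁pos : 0 < P₁ := by
    have : (0 : ℝ) < P₁ := by linarith
    exact_mod_cast this
  have hP0 : (0 : ℝ) < P₁ := by linarith
  set P : ℕ := q * P₁ with hP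
  have hPpos : 0 < P := Nat.mul_pos h₁ hP₁pos
  have hPr : (P : ℝ) = q * P₁ := by rw [hP]; push_cast; ring
  set R : ℕ := W * P with hR
  have hRr : (R : ℝ) = W * (q * P₁) := by rw [hR]; push_cast; rw [hPr]
  have hR1 : 1 ≤ R := Nat.mul_pos hWpos hPpos
  have hR1' : (1 : ℝ) ≤ R := by exact_mod_cast hR1
  set R' : ℕ := q * R with hR'
  have hR'r : (R' : ℝ) = q * (W * (q * P₁)) := by rw [hR']; push_cast; rw [hRr]
  have hR'1 : 1 ≤ R' := Nat.mul_pos h₁ hR1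
  have hRR' : R ≤ R' := Nat.le_mul_of_pos_left R h₁
  have hPle : (P : ℝ) ≤ Real.exp (l / 48) := by
    rw [hPr]
    calc (q : ℝ) * P₁ ≤ Real.exp (l / 2000) * Real.exp (l / 50) := by gcongr
      _ = Real.exp (l / 2000 + l / 50) := (Real.exp_add _ _).symm
      _ ≤ Real.exp (l / 48) := Real.exp_le_exp.2 (by linarith)
  have hR'le : (R' : ℝ) ≤ Real.exp (l / 40) := by
    rw [hR'r]
    calc (q : ℝ) * (W * (q * P₁)) ≤ Real.exp (l / 2000) * (Real.exp (l / 700) * (Real.exp (l / 2000) * Real.exp (l / 50))) := by gcongr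
      _ = Real.exp (l / 2000 + (l / 700 + (l / 2000 + l / 50))) := by rw [Real.exp_add, Real.exp_add, Real.exp_add]
      _ ≤ Real.exp (l / 40) := Real.exp_le_exp.2 (by linarith)
  have hRle : (R : ℝ) ≤ Real.exp (l / 40) := le_trans (by exact_mod_cast hRR') hR'le
  have hlogR : Real.log R ≤ l / 40 := by
    rw [← Real.log_exp (l / 40)]
    exact Real.log_le_log (by linarith) hRle
  have hR'P : (R' : ℝ) ^ 2 ≤ (P₁ : ℝ) ^ 3 := by
    rw [hR'r]
    have h1 : (q : ℝ) ^ 4 * (W : ℝ) ^ 2 ≤ P₁ := by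
      calc (q : ℝ) ^ 4 * (W : ℝ) ^ 2 ≤ Real.exp (l / 2000) ^ 4 * Real.exp (l / 700) ^ 2 := by gcongr
        _ = Real.exp (l / 500 + l / 350) := by rw [← Real.exp_nat_mul, ← Real.exp_nat_mul, ← Real.exp_add]; congr 1; push_cast; ring
        _ ≤ Real.exp (l / 50) / 2 := by
            have h2 : Real.exp (l / 50) = Real.exp (l / 500 + l / 350) * Real.exp (l / 50 - (l / 500 + l / 350)) := by rw [← Real.exp_add]; congr 1; ring
            have h3 : 2 ≤ Real.exp (l / 50 - (l / 500 + l / 350)) := by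
              have := Real.add_one_le_exp (l / 50 - (l / 500 + l / 350))
              linarith
            rw [h2]
            have := Real.exp_pos (l / 500 + l / 350)
            nlinarith only [h3, this]
        _ ≤ P₁ := hP1
    calc ((q : ℝ) * (W * (q * P₁))) ^ 2 = ((q : ℝ) ^ 4 * (W : ℝ) ^ 2) * (P₁ : ℝ) ^ 2 := by ring
      _ ≤ (P₁ : ℝ) * (P₁ : ℝ) ^ 2 := mul_le_mul_of_nonneg_right h1 (by positivity)
      _ = _ := by ring
  have hRP : (R : ℝ) ^ 2 ≤ (P₁ : ℝ) ^ 3 := by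
    refine le_trans ?_ hR'P
    have : (R : ℝ) ≤ R' := by exact_mod_cast hRR'
    gcongr
  have hq3 : (q : ℝ) ^ 3 ≤ P₁ := by
    calc (q : ℝ) ^ 3 ≤ Real.exp (l / 2000) ^ 3 := by gcongr
      _ = Real.exp (3 * l / 2000) := by rw [← Real.exp_nat_mul]; congr 1; push_cast; ring
      _ ≤ Real.exp (l / 50) / 2 := by
          have h2 : Real.exp (l / 50) = Real.exp (3 * l / 2000) * Real.exp (l / 50 - 3 * l / 2000) := by rw [← Real.exp_add]; congr 1; ring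
          have h3 : 2 ≤ Real.exp (l / 50 - 3 * l / 2000) := by
            have := Real.add_one_le_exp (l / 50 - 3 * l / 2000)
            linarith
          rw [h2]
          have := Real.exp_pos (3 * l / 2000)
          nlinarith only [h3, this]
      _ ≤ P₁ := hP1
  -- the sum of reciprocals of totients
  have hS : ∑ q ∈ Icc 1 R, 1 / (Nat.totient q : ℝ) ≤ l ^ K₀ := by
    refine (hk₀ R).trans ?_
    apply pow_le_pow_left₀
    · have := Real.log_nonneg hR1'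
      linarith
    · linarith
  refine ⟨hS.trans (pow_le_pow_right₀ hl1 (by omega)), ?_⟩
  have hκ₀ : 0 < η / 32 := by positivity
  have hN₁pos : (0 : ℝ) < N₁ := lt_of_lt_of_le (by positivity) hN₁l
  have hN₁1 : 1 ≤ N₁ := by exact_mod_cast hN₁pos
  have hlogs : Real.log N₁ + η / 32 ≤ Real.log N := by
    have h1 : Real.log N₁ ≤ Real.log (N / 4) := Real.log_le_log hN₁pos hN₁u
    rw [Real.log_div hNpos.ne' (by norm_num)] at h1
    have h2 : Real.log 4 = 2 * Real.log 2 := by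
      rw [show (4 : ℝ) = 2 ^ 2 by norm_num, Real.log_pow]
      norm_num
    have := Real.log_two_gt_d9
    linarith
  have hω := om_wt hκ₀ hlogs
  set ω := om (η / 32) N N₁ with hωdef
  have hωu : Wt (fun n => uu b n * ω n) N N₁ := hω.mul_anti (uu_anti hb) (fun n => (uu_pos b n).le) (fun n => uu_le_one hb n)
  have hA32 : 4 / (η / 32) ≤ 128 * l := by
    have h1 : 4 / (η / 32) = 128 * (1 / η) := by field_simp; norm_num
    rw [h1]
    apply mul_le_mul_of_nonneg_left _ (by norm_num)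
    rw [div_le_iff₀ hη0]
    rw [div_le_iff₀ hl0] at hη
    linarith
  have hAle : ∀ b' : ℝ, 0 ≤ b' → b' ≤ 1 → 4 / (η / 32) * (1 + b' * Real.log N) ≤ 256 * l ^ 3 := by
    intro b' hb' hb'1
    have h1 : 1 + b' * Real.log N ≤ 2 * l ^ 2 := by
      have h2 : b' * Real.log N ≤ 1 * l ^ 2 := mul_le_mul hb'1 hNl hlogN zero_le_one
      have h3 : 1 ≤ l ^ 2 := one_le_pow₀ hl1
      linarith
    calc 4 / (η / 32) * (1 + b' * Real.log N) ≤ 128 * l * (2 * l ^ 2) := by gcongr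
      _ = _ := by ring
  have hAnn : ∀ b' : ℝ, 0 ≤ b' → 0 ≤ 4 / (η / 32) * (1 + b' * Real.log N) := fun b' hb' => by positivity
  have hc0 : Cmb ω N (4 / (η / 32) * (1 + 0 * Real.log N)) := by
    obtain ⟨c, hc1, hc2⟩ := cmb_om hκ₀ hN₁1 hlogs (le_refl (0 : ℝ))
    refine ⟨c, fun n hn hnN => ?_, hc2⟩
    rw [← hc1 n hn hnN]
    simp only [zero_mul, neg_zero, Real.exp_zero, one_mul, hωdef]
  have hcb : Cmb (fun n => uu b n * ω n) N (4 / (η / 32) * (1 + b * Real.log N)) := cmb_om hκ₀ hN₁1 hlogs hb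
  set e₁ : ℝ := Real.exp (-(l / 10)) with he₁
  have he₁0 : 0 < e₁ := Real.exp_pos _
  set Δ : ℝ := ((P : ℕ) : ℝ) / (N : ℕ) with hΔ
  have hΔ0 : 0 ≤ Δ := by positivity
  have hS1 := hpar l hll₁ x₁ b hb hb1 N N₁ R P₁ q η _ e₂ C₁ ω hω hc0 (hAnn 0 le_rfl) (hAle 0 le_rfl zero_le_one) hP1 hP2 hR1 hRle hRP hq3 hη hη1 hN₁l hN hNl he₂0 hC₁ hsup
  have hS2 := hpar l hll₁ x₁ b hb hb1 N N₁ R' P₁ q η _ e₂ C₁ _ hωu hcb (hAnn b hb) (hAle b hb hb1) hP1 hP2 hR'1 hR'le hR'P hq3 hη hη1 hN₁l hN hNl he₂0 hC₁ hsup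
  -- sizes
  have hexpN₁ : Real.exp l ≤ N₁ := by
    refine le_trans ?_ hN₁l
    have h2 : (1 / l) * Real.exp (100 * l) / 128 ≤ η * N / 128 := by gcongr
    refine le_trans ?_ h2
    rw [le_div_iff₀ (by norm_num), one_div_mul_eq_div, le_div_iff₀ hl0]
    have h3 : Real.exp (100 * l) = Real.exp l * Real.exp (99 * l) := by rw [← Real.exp_add]; congr 1; ring
    rw [h3, mul_assoc]
    apply mul_le_mul_of_nonneg_left _ (Real.exp_pos _).le
    have h4 := Real.add_one_le_exp l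
    have h6 : Real.exp (99 * l) = Real.exp l * Real.exp (98 * l) := by rw [← Real.exp_add]; congr 1; ring
    have h7 : 128 ≤ Real.exp (98 * l) := by
      have := Real.add_one_le_exp (98 * l)
      linarith
    rw [h6]
    have h8 := Real.exp_pos l
    nlinarith only [h4, h7, hl0, h8]
  have hqRN₁ : q * R ≤ N₁ := by
    have h1 : ((q * R : ℕ) : ℝ) ≤ N₁ := by
      refine le_trans ?_ ((Real.exp_le_exp.2 (by linarith : l / 40 ≤ l)).trans hexpN₁)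
      exact hR'le
    exact_mod_cast h1
  set Z : ℝ := l ^ 4 with hZdef
  have hZ : ∀ f ∈ Icc 1 R, (f : ℝ) / (Nat.totient f : ℝ) ≤ Z := by
    intro f hf
    rw [mem_Icc] at hf
    refine (rphi hf.1).trans ?_
    have h1 : Real.log f ≤ Real.log R := Real.log_le_log (by exact_mod_cast hf.1) (by exact_mod_cast hf.2)
    have h2 : 0 ≤ Real.log f := Real.log_natCast_nonneg f
    exact pow_le_pow_left₀ (by linarith) (by linarith) 4
  have hEEc := EEc_le h₁ hx2 hxp hx1 (b := b) hρ hω hqRN₁ hΔ0 hZ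
  set B : ℝ := 10 ^ 12 * C₁ * l ^ 19 * (N * (e₂ + e₁)) with hB
  have hB0 : 0 ≤ B := by positivity
  have hEE' : EEc (cw x₁ b ρ ω) (vw b ρ ω) N R Δ ≤ 4 / ρ ^ 2 * l ^ 4 * B := by
    refine hEEc.trans ?_
    have h1 : (∑ f ∈ Icc 1 R, (f : ℝ) / (Nat.totient f : ℝ) * ∑ ψ ∈ Prim f, (∫ β in (-Δ)..Δ, ‖HX x₁ b ω N₁ N ⟨f, ψ⟩ β‖ ^ 2)) +
      Z * (∑ f ∈ Icc 1 (q * R), (f : ℝ) / (Nat.totient f : ℝ) * ∑ ψ ∈ Prim f, (∫ β in (-Δ)..Δ, ‖HX x₁ b (fun n => uu b n * ω n) N₁ N ⟨f, ψ⟩ β‖ ^ 2)) ≤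
        B + Z * B := add_le_add hS1 (mul_le_mul_of_nonneg_left hS2 (by positivity))
    have h2 : B + Z * B ≤ 2 * l ^ 4 * B := by
      have : (1 : ℝ) ≤ l ^ 4 := one_le_pow₀ hl1
      rw [hZdef]
      nlinarith only [this, hB0, mul_nonneg (sub_nonneg.2 this) hB0]
    calc _ ≤ 2 / ρ ^ 2 * (2 * l ^ 4 * B) := mul_le_mul_of_nonneg_left (h1.trans h2) (by positivity)
      _ = _ := by ring
  -- the major arcs
  have hPN : (P : ℝ) * Real.exp l ≤ N := by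
    calc (P : ℝ) * Real.exp l ≤ Real.exp (l / 48) * Real.exp l := by gcongr
      _ = Real.exp (l / 48 + l) := (Real.exp_add _ _).symm
      _ ≤ Real.exp (100 * l) := Real.exp_le_exp.2 (by linarith)
      _ ≤ N := hN
  have hP0' : (0 : ℝ) < P := by exact_mod_cast hPpos
  have hWQ : ((W * R : ℕ) : ℝ) ≤ Real.exp (l / 30) := by
    push_cast
    calc (W : ℝ) * R ≤ Real.exp (l / 700) * Real.exp (l / 40) := by gcongr
      _ = Real.exp (l / 700 + l / 40) := (Real.exp_add _ _).symm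
      _ ≤ _ := Real.exp_le_exp.2 (by linarith)
  have hWR0 : (0 : ℝ) < ((W * R : ℕ) : ℝ) := by exact_mod_cast Nat.mul_pos hWpos hR1
  have hmaj := energy_major_gen (W := W) (Q := R) (T := T) (P := P) (N₁ := N₁) hWs hT hv (c := cw x₁ b ρ ω) (fun n h => cw_supp hω h) le_rfl
    ((Nat.le_mul_of_pos_left R h₁).trans hqRN₁) (by
      rw [← hΔ, hΔ, le_div_iff₀ (by positivity)]
      have h1 : 2 * Real.pi * (P / (N : ℕ)) * ((W * R : ℕ) : ℝ) ^ 2 ≤ 7 * (P / (N : ℕ)) * Real.exp (l / 30) ^ 2 := by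
        have h2 : 2 * Real.pi ≤ 7 := by have := Real.pi_lt_d2; linarith
        gcongr
      refine h1.trans ?_
      have h3 : 7 * (P / (N : ℕ)) * Real.exp (l / 30) ^ 2 = 7 * Real.exp (l / 30) ^ 2 * P / (N : ℕ) := by ring
      rw [h3, div_le_iff₀ hNpos]
      have h4 : Real.exp (l / 30) ^ 2 * 4 ≤ Real.exp l := by
        rw [← Real.exp_nat_mul]
        have h5 : Real.exp l = Real.exp ((2 : ℕ) * (l / 30)) * Real.exp (14 * l / 15) := by
          rw [← Real.exp_add]; congr 1; push_cast; ring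
        rw [h5]
        have h6 : 4 ≤ Real.exp (14 * l / 15) := by
          have := Real.add_one_le_exp (14 * l / 15)
          linarith
        exact mul_le_mul_of_nonneg_left h6 (Real.exp_pos _).le
      have h7 : P * (Real.exp (l / 30) ^ 2 * 4) ≤ P * Real.exp l := mul_le_mul_of_nonneg_left h4 hP0'.le
      have h8 : 0 ≤ (P : ℝ) * Real.exp (l / 30) ^ 2 := by positivity
      linarith only [h7, h8, hPN]) (by
      rw [div_mul_eq_mul_div, div_lt_one hNpos]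
      have h1 : (P : ℝ) * (R : ℕ) ≤ P * Real.exp (l / 40) := mul_le_mul_of_nonneg_left hRle hP0'.le
      have h2 : Real.exp (l / 40) < Real.exp l := Real.exp_lt_exp.2 (by linarith)
      have h3 : (P : ℝ) * Real.exp (l / 40) < P * Real.exp l := mul_lt_mul_of_pos_left h2 hP0'
      linarith)
  refine hmaj.trans ?_
  have h1ρ : 1 ≤ 1 / ρ ^ 2 := by
    rw [le_div_iff₀ (by positivity), one_mul]
    exact pow_le_one₀ hρ.le hρ1
  have h1 : 4 * (∑ q ∈ Icc 1 R, 1 / (Nat.totient q : ℝ)) * EEc (cw x₁ b ρ ω) (vw b ρ ω) N R Δ ≤ 4 * l ^ K₀ * (4 / ρ ^ 2 * l ^ 4 * B) := by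
    have h2 := EEc_nonneg (cw x₁ b ρ ω) (vw b ρ ω) N R hΔ0
    have h3 : 0 ≤ ∑ q ∈ Icc 1 R, 1 / (Nat.totient q : ℝ) := sum_nonneg fun q _ => by positivity
    gcongr
  have h2 : 72 * ((R : ℕ) : ℝ) ^ 2 * ((W * R : ℕ) : ℝ) ^ 6 * Δ ≤ l ^ K₀ * (4 / ρ ^ 2 * l ^ 4 * B) := by
    have h3 : 72 * ((R : ℕ) : ℝ) ^ 2 * ((W * R : ℕ) : ℝ) ^ 6 * Δ ≤ 72 * (Real.exp (l / 40) ^ 2 * Real.exp (l / 30) ^ 6) * Δ := by
      calc 72 * ((R : ℕ) : ℝ) ^ 2 * ((W * R : ℕ) : ℝ) ^ 6 * Δ ≤ 72 * Real.exp (l / 40) ^ 2 * Real.exp (l / 30) ^ 6 * Δ := by gcongr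
        _ = _ := by ring
    have h4 : Real.exp (l / 40) ^ 2 * Real.exp (l / 30) ^ 6 * P ≤ Real.exp l := by
      calc Real.exp (l / 40) ^ 2 * Real.exp (l / 30) ^ 6 * P ≤ Real.exp (l / 40) ^ 2 * Real.exp (l / 30) ^ 6 * Real.exp (l / 48) := by gcongr
        _ ≤ Real.exp l := by
            rw [← Real.exp_nat_mul, ← Real.exp_nat_mul, ← Real.exp_add, ← Real.exp_add]
            apply Real.exp_le_exp.2
            push_cast
            linarith
    have h5 : 72 * (Real.exp (l / 40) ^ 2 * Real.exp (l / 30) ^ 6) * Δ ≤ N * e₁ := by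
      have h6 : 72 * (Real.exp (l / 40) ^ 2 * Real.exp (l / 30) ^ 6) * Δ = 72 * (Real.exp (l / 40) ^ 2 * Real.exp (l / 30) ^ 6 * P) / N := by
        rw [hΔ]; ring
      rw [h6, div_le_iff₀ hNpos]
      have h7 : Real.exp (99 * l) ≤ N * e₁ := by
        have h8 : Real.exp (99 * l) ≤ Real.exp (100 * l) * e₁ := by
          rw [he₁, ← Real.exp_add]
          exact Real.exp_le_exp.2 (by linarith)
        exact h8.trans (mul_le_mul_of_nonneg_right hN he₁0.le)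
      have h9 : 72 * Real.exp l ≤ Real.exp (99 * l) * N := by
        have h10 : Real.exp (99 * l) = Real.exp l * Real.exp (98 * l) := by rw [← Real.exp_add]; congr 1; ring
        have h11 : 72 ≤ Real.exp (98 * l) := by
          have := Real.add_one_le_exp (98 * l)
          linarith
        have h12 : Real.exp l * 72 ≤ Real.exp l * Real.exp (98 * l) := mul_le_mul_of_nonneg_left h11 (Real.exp_pos _).le
        have h13 : 0 < Real.exp (99 * l) := Real.exp_pos _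
        have h14 : Real.exp (99 * l) * 1 ≤ Real.exp (99 * l) * N := mul_le_mul_of_nonneg_left hN1 h13.le
        linarith only [h10, h12, h14]
      calc 72 * (Real.exp (l / 40) ^ 2 * Real.exp (l / 30) ^ 6 * P) ≤ 72 * Real.exp l := by gcongr
        _ ≤ Real.exp (99 * l) * N := h9
        _ ≤ N * e₁ * N := mul_le_mul_of_nonneg_right h7 hNpos.le
    refine h3.trans (h5.trans ?_)
    have h8 : (1 : ℝ) ≤ l ^ K₀ := one_le_pow₀ hl1
    have h10 : N * e₁ ≤ B := by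
      have h19 : (1 : ℝ) ≤ l ^ 19 := one_le_pow₀ hl1
      have h11 : N * e₁ ≤ N * (e₂ + e₁) := by
        apply mul_le_mul_of_nonneg_left _ hNpos.le
        linarith
      have h12 : (1 : ℝ) ≤ 10 ^ 12 * C₁ * l ^ 19 := by
        calc (1 : ℝ) ≤ 10 ^ 12 * 1 * 1 := by norm_num
          _ ≤ 10 ^ 12 * C₁ * l ^ 19 := by gcongr
      exact h11.trans (le_mul_of_one_le_left (by positivity) h12)
    have h13 : (1 : ℝ) ≤ 4 / ρ ^ 2 * l ^ 4 := by
      have h14 : (1 : ℝ) ≤ l ^ 4 := one_le_pow₀ hl1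
      have h15 : (1 : ℝ) ≤ 4 / ρ ^ 2 := by
        have : 4 / ρ ^ 2 = 4 * (1 / ρ ^ 2) := by ring
        linarith
      exact one_le_mul_of_one_le_of_one_le h15 h14
    calc N * e₁ ≤ 1 * (1 * B) := by linarith
      _ ≤ l ^ K₀ * (4 / ρ ^ 2 * l ^ 4 * B) := by gcongr
  have h3 : 0 ≤ C₁ * l ^ (K₀ + 23) / ρ ^ 2 * (N * (e₂ + e₁)) := by positivity
  calc _ ≤ 4 * l ^ K₀ * (4 / ρ ^ 2 * l ^ 4 * B) + l ^ K₀ * (4 / ρ ^ 2 * l ^ 4 * B) := add_le_add h1 h2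
    _ = 20 * 10 ^ 12 * (C₁ * l ^ (K₀ + 23) / ρ ^ 2 * (N * (e₂ + e₁))) := by rw [hB, pow_add l K₀ 23]; ring
    _ ≤ 10 ^ 14 * (C₁ * l ^ (K₀ + 23) / ρ ^ 2 * (N * (e₂ + e₁))) := mul_le_mul_of_nonneg_right (by norm_num) h3
    _ = _ := by ring

end Pool.Agent.J4H81.PT
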