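import Pool.Agent.J4H81.PT.XGb
import Pool.Agent.J4H81.PT.XFb
import Pool.Agent.J4H81.PT.XFc
import Pool.Agent.J4H81.PT.XCc

/-!
# Growing prime tuples, all x: parameters for the exceptional case (helper81)
-/

set_option autoImplicit false

namespace Pool.Agent.J4H81.PT

open Finset MeasureTheory Filter

/-- the weight has almost full mass on every class -/
theorem om_mass2 {W T N₁ : ℕ} (hW : 0 < W) {η : ℝ} (hη : 0 < η) (hη1 : η ≤ 1) (hN₁ : 1 ≤ N₁)
    (hN₁u : (N₁ : ℝ) ≤ η * (W * T : ℕ) / 64) (hηT : 32 ≤ η * T) :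
    ∀ r < W, (1 - η / 8) * T ≤ ∑ s ∈ range T, om (η / 32) (W * T : ℕ) N₁ (r + W * s) := by
  intro r hr
  have hT0 : (0 : ℝ) < T := by
    by_contra h
    have : (T : ℝ) ≤ 0 := not_lt.1 h
    nlinarith
  have hW0 : (0 : ℝ) < W := by exact_mod_cast hW
  have hN0 : (0 : ℝ) < (W * T : ℕ) := by push_cast; positivity
  have hN₁0 : (0 : ℝ) < N₁ := by exact_mod_cast hN₁
  have hκ0 : 0 < η / 32 := by positivity
  have hlogs : Real.log N₁ + η / 32 ≤ Real.log (W * T : ℕ) := by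
    have h1 : Real.log N₁ ≤ Real.log ((W * T : ℕ) / 64) := Real.log_le_log hN₁0 (by
      refine hN₁u.trans ?_
      have : η * (W * T : ℕ) ≤ 1 * (W * T : ℕ) := mul_le_mul_of_nonneg_right hη1 hN0.le
      linarith)
    rw [Real.log_div hN0.ne' (by norm_num)] at h1
    have h2 : Real.log 64 = 6 * Real.log 2 := by
      rw [show (64 : ℝ) = 2 ^ 6 by norm_num, Real.log_pow]
      norm_num
    have := Real.log_two_gt_d9
    linarith
  have hwt := om_wt hκ0 hlogs
  set a : ℕ := ⌈η * T / 32⌉₊ with ha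
  set b : ℕ := ⌊T * (1 - η / 32)⌋₊ with hb
  have ha1 : η * T / 32 ≤ a := Nat.le_ceil _
  have ha2 : (a : ℝ) < η * T / 32 + 1 := Nat.ceil_lt_add_one (by positivity)
  have hb0 : 0 ≤ T * (1 - η / 32) := mul_nonneg hT0.le (by linarith)
  have hb1 : (b : ℝ) ≤ T * (1 - η / 32) := Nat.floor_le hb0
  have hb2 : T * (1 - η / 32) < b + 1 := Nat.lt_floor_add_one _
  have hbT : b ≤ T := by
    have : (b : ℝ) ≤ T := hb1.trans (by nlinarith)
    exact_mod_cast this
  have hsub : Ico a b ⊆ range T := by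
    intro s hs
    rw [mem_Ico] at hs
    rw [mem_range]
    omega
  have hone : ∀ s ∈ Ico a b, om (η / 32) (W * T : ℕ) N₁ (r + W * s) = 1 := by
    intro s hs
    rw [mem_Ico] at hs
    have hs1 : (a : ℝ) ≤ s := by exact_mod_cast hs.1
    have hs2 : (s : ℝ) + 1 ≤ b := by exact_mod_cast hs.2
    have hs0 : 0 < η * T / 32 := by positivity
    have hr1 : (r : ℝ) + 1 ≤ W := by exact_mod_cast hr
    have hr0 : (0 : ℝ) ≤ r := Nat.cast_nonneg _
    have hlow : (W : ℝ) * (η * T / 32) ≤ ((r + W * s : ℕ) : ℝ) := by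
      push_cast
      have : (W : ℝ) * (η * T / 32) ≤ W * s := mul_le_mul_of_nonneg_left (ha1.trans hs1) hW0.le
      linarith
    have hn0 : (0 : ℝ) < ((r + W * s : ℕ) : ℝ) := lt_of_lt_of_le (by positivity) hlow
    have hup : ((r + W * s : ℕ) : ℝ) ≤ (W * T : ℕ) * (1 - η / 32) := by
      push_cast
      have h1 : (W : ℝ) * (s + 1) ≤ W * (T * (1 - η / 32)) := mul_le_mul_of_nonneg_left (hs2.trans hb1) hW0.le
      nlinarith only [h1, hr1]
    apply om_one hκ0
    · have h1 : (N₁ : ℝ) * Real.exp (η / 32) ≤ ((r + W * s : ℕ) : ℝ) := by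
        have h2 : Real.exp (η / 32) ≤ 2 := by
          have h3 : Real.exp (η / 32) ≤ Real.exp (1 / 2) := Real.exp_le_exp.2 (by linarith)
          have h4 : Real.exp (1 / 2) ^ 2 = Real.exp 1 := by
            rw [← Real.exp_nat_mul]; norm_num
          have h5 := Real.exp_one_lt_d9
          have h6 := Real.exp_pos (1 / 2 : ℝ)
          nlinarith only [h3, h4, h5, h6]
        calc (N₁ : ℝ) * Real.exp (η / 32) ≤ (η * (W * T : ℕ) / 64) * 2 := by gcongr
          _ = W * (η * T / 32) := by push_cast; ring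
          _ ≤ _ := hlow
      have h2 := Real.log_le_log (by positivity) h1
      rwa [Real.log_mul hN₁0.ne' (Real.exp_pos _).ne', Real.log_exp] at h2
    · have h1 : ((r + W * s : ℕ) : ℝ) ≤ (W * T : ℕ) * Real.exp (-(η / 32)) := by
        refine hup.trans (mul_le_mul_of_nonneg_left ?_ hN0.le)
        have := Real.add_one_le_exp (-(η / 32))
        linarith
      have h2 := Real.log_le_log hn0 h1
      rw [Real.log_mul hN0.ne' (Real.exp_pos _).ne', Real.log_exp] at h2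
      linarith
  calc (1 - η / 8) * T ≤ (b : ℝ) - a := by
        nlinarith only [hb2, ha2, hηT]
    _ ≤ ((Ico a b).card : ℝ) := by
        rw [Nat.card_Ico]
        have : (b : ℝ) ≤ ((b - a : ℕ) : ℝ) + a := by exact_mod_cast (by omega : b ≤ b - a + a)
        linarith
    _ = ∑ s ∈ Ico a b, om (η / 32) (W * T : ℕ) N₁ (r + W * s) := by
        rw [sum_congr rfl hone, sum_const, nsmul_eq_mul, mul_one]
    _ ≤ _ := sum_le_sum_of_subset_of_nonneg hsub fun s _ _ => hwt.nonneg _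

/-- the normalisation -/
noncomputable def rr (b : ℝ) (N : ℕ) : ℝ := 1 - uu b N ^ 2

theorem uu_sq (b : ℝ) (n : ℕ) : uu b n ^ 2 = Real.exp (-(2 * b * Real.log n)) := by
  unfold uu
  rw [← Real.exp_nat_mul]
  congr 1
  push_cast
  ring

theorem rr_ge {b : ℝ} (hb : 0 < b) (hb1 : b ≤ 1 / 2) {N : ℕ} (hN : 1 ≤ Real.log N) : b ≤ rr b N := by
  unfold rr
  rw [uu_sq]
  have h1 : Real.exp (-(2 * b * Real.log N)) ≤ Real.exp (-(2 * b)) := by
    apply Real.exp_le_exp.2
    nlinarith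
  have h2 : Real.exp (-(2 * b)) * (1 + 2 * b) ≤ 1 := by
    have h3 := Real.add_one_le_exp (2 * b)
    calc Real.exp (-(2 * b)) * (1 + 2 * b) ≤ Real.exp (-(2 * b)) * Real.exp (2 * b) := by
          apply mul_le_mul_of_nonneg_left _ (Real.exp_pos _).le
          linarith
      _ = 1 := by rw [← Real.exp_add]; simp
  have h4 : Real.exp (-(2 * b)) ≤ 1 - b := by
    have h5 : Real.exp (-(2 * b)) * (1 + 2 * b) ≤ (1 - b) * (1 + 2 * b) := by
      refine h2.trans ?_
      nlinarith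
    exact le_of_mul_le_mul_right h5 (by linarith)
  linarith

theorem rr_le_one (b : ℝ) (N : ℕ) : rr b N ≤ 1 := by
  unfold rr
  have := sq_nonneg (uu b N)
  linarith

/-- concavity -/
theorem rr_conc {b : ℝ} {N n : ℕ} (hN : 0 < Real.log N) (hn : Real.log n ≤ Real.log N) :
    Real.log n / Real.log N * rr b N ≤ 1 - uu b n ^ 2 := by
  have h0 : 0 ≤ Real.log n := Real.log_natCast_nonneg n
  set t : ℝ := Real.log n / Real.log N with ht
  have ht0 : 0 ≤ t := div_nonneg h0 hN.le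
  have ht1 : t ≤ 1 := (div_le_one hN).2 hn
  have h1 := convexOn_exp.2 (Set.mem_univ (0 : ℝ)) (Set.mem_univ (-(2 * b * Real.log N))) (show 0 ≤ 1 - t by linarith) ht0 (by ring)
  simp only [smul_eq_mul, mul_zero, zero_add, Real.exp_zero, mul_one] at h1
  have h2 : t * -(2 * b * Real.log N) = -(2 * b * Real.log n) := by
    rw [ht]; field_simp
  rw [h2] at h1
  unfold rr
  rw [uu_sq, uu_sq]
  linarith

/-- the model weight is a weight -/
theorem vw_wt {b : ℝ} (hb : 0 ≤ b) {ω : ℕ → ℝ} {N N₁ : ℕ} (hω : Wt ω N N₁) (hρ : 0 < rr b N) : Wt (vw b (rr b N) ω) N N₁ := by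
  have hg : Monotone (fun n : ℕ => 1 / rr b N * (1 - uu b (min n N) ^ 2)) := by
    intro m n h
    apply mul_le_mul_of_nonneg_left _ (by positivity)
    have h1 : uu b (min n N) ≤ uu b (min m N) := uu_anti hb (min_le_min_right N h)
    have h2 := pow_le_pow_left₀ (uu_pos b _).le h1 2
    linarith
  have h1 := hω.mul_mono hg (fun n => by
    have h1 := uu_le_one hb (min n N)
    have h2 := pow_le_one₀ (uu_pos b (min n N)).le h1 (n := 2)
    have : 0 ≤ 1 - uu b (min n N) ^ 2 := by linarith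
    positivity) (fun n => by
    have h1 : uu b N ≤ uu b (min n N) := uu_anti hb (min_le_right n N)
    have h2 := pow_le_pow_left₀ (uu_pos b _).le h1 2
    rw [one_div, inv_mul_le_iff₀ hρ, mul_one]
    show 1 - uu b (min n N) ^ 2 ≤ 1 - uu b N ^ 2
    linarith)
  have e : (fun n => 1 / rr b N * (1 - uu b (min n N) ^ 2) * ω n) = vw b (rr b N) ω := by
    funext n
    unfold vw
    rcases le_or_gt N n with h | h
    · rw [hω.zero_ge n h]; ring
    · rw [min_eq_left h.le]; ring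
  rw [e] at h1
  exact h1

/-- the model weight is almost the weight -/
theorem vw_ge {b : ℝ} {ω : ℕ → ℝ} {N N₁ : ℕ} (hω : Wt ω N N₁) (hρ : 0 < rr b N) (hN : 0 < Real.log N) {ε : ℝ}
    (h : (1 - ε) * Real.log N ≤ Real.log N₁) (n : ℕ) : (1 - ε) * ω n ≤ vw b (rr b N) ω n := by
  unfold vw
  rcases le_or_gt n N₁ with h1 | h1
  · rw [hω.zero_le n h1]; simp
  rcases le_or_gt N n with h2 | h2
  · rw [hω.zero_ge n h2]; simp
  have h3 : Real.log N₁ ≤ Real.log n := log_nat_mono h1.le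
  have h4 : Real.log n ≤ Real.log N := log_nat_mono h2.le
  have h5 := rr_conc (b := b) hN h4
  have h6 : 1 - ε ≤ Real.log n / Real.log N := by
    rw [le_div_iff₀ hN]
    linarith
  have h7 : (1 - ε) * rr b N ≤ 1 - uu b n ^ 2 := (mul_le_mul_of_nonneg_right h6 hρ.le).trans h5
  have h8 : 1 - ε ≤ 1 / rr b N * (1 - uu b n ^ 2) := by
    rw [one_div, ← div_eq_inv_mul, le_div_iff₀ hρ]
    exact h7
  calc (1 - ε) * ω n ≤ (1 / rr b N * (1 - uu b n ^ 2)) * ω n := mul_le_mul_of_nonneg_right h8 (hω.nonneg n)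
    _ = _ := by ring

theorem cw_nonneg {x₁ : PC} {b ρ : ℝ} (hb : 0 ≤ b) (hρ : 0 < ρ) {ω : ℕ → ℝ} {N N₁ : ℕ} (hω : Wt ω N N₁) (n : ℕ) : 0 ≤ cw x₁ b ρ ω n := by
  unfold cw
  have h1 : |(x₁.2 (n : ZMod x₁.1)).re| ≤ 1 := (Complex.abs_re_le_norm _).trans (x₁.2.norm_le_one _)
  have h2 := uu_pos b n
  have h3 := uu_le_one hb n
  have h4 : 0 ≤ 1 + (x₁.2 (n : ZMod x₁.1)).re * uu b n := by
    have h5 : |(x₁.2 (n : ZMod x₁.1)).re * uu b n| ≤ 1 := by
      rw [abs_mul, abs_of_pos h2]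
      exact mul_le_one₀ h1 h2.le h3
    linarith [neg_abs_le ((x₁.2 (n : ZMod x₁.1)).re * uu b n)]
  have h5 : 0 ≤ nu n := by
    unfold nu
    split_ifs
    · exact Real.log_natCast_nonneg n
    · exact le_rfl
  have := hω.nonneg n
  positivity

theorem cw_le {x₁ : PC} {b ρ : ℝ} (hb : 0 ≤ b) (hρ : 0 < ρ) {ω : ℕ → ℝ} {N N₁ : ℕ} (hω : Wt ω N N₁) (n : ℕ) : cw x₁ b ρ ω n ≤ 2 * Real.log N / ρ := by
  have hlogN : 0 ≤ Real.log N := Real.log_natCast_nonneg N
  unfold cw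
  rcases le_or_gt N n with h | h
  · rw [hω.zero_ge n h]
    simp only [mul_zero, zero_mul]
    positivity
  have h1 : |(x₁.2 (n : ZMod x₁.1)).re| ≤ 1 := (Complex.abs_re_le_norm _).trans (x₁.2.norm_le_one _)
  have h2 := uu_pos b n
  have h3 := uu_le_one hb n
  have h5 : |(x₁.2 (n : ZMod x₁.1)).re * uu b n| ≤ 1 := by
    rw [abs_mul, abs_of_pos h2]
    exact mul_le_one₀ h1 h2.le h3
  have h4 : 0 ≤ 1 + (x₁.2 (n : ZMod x₁.1)).re * uu b n := by
    linarith [neg_abs_le ((x₁.2 (n : ZMod x₁.1)).re * uu b n)]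
  have h6 : 1 + (x₁.2 (n : ZMod x₁.1)).re * uu b n ≤ 2 := by
    linarith [le_abs_self ((x₁.2 (n : ZMod x₁.1)).re * uu b n)]
  have h7 : 0 ≤ nu n := by
    unfold nu
    split_ifs
    · exact Real.log_natCast_nonneg n
    · exact le_rfl
  have h8 : nu n ≤ Real.log N := by
    unfold nu
    split_ifs
    · exact log_nat_mono h.le
    · exact hlogN
  have h9 : nu n * ω n ≤ Real.log N * 1 := mul_le_mul h8 (hω.le_one n) (hω.nonneg n) hlogN
  have h10 : 0 ≤ nu n * ω n := mul_nonneg h7 (hω.nonneg n)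
  calc 1 / ρ * (nu n * ω n * (1 + (x₁.2 (n : ZMod x₁.1)).re * uu b n)) ≤ 1 / ρ * (Real.log N * 1 * 2) := by gcongr
    _ = _ := by ring

/-- the third term of the main inequality -/
theorem third_x {l : ℝ} (hl : 2000 ≤ l) {K k T U M₀ : ℕ} {η B₀ Λ₂ m₀ : ℝ} (hη : 8000 / l ≤ η)
    (hk : (2 * B₀) ^ k ≤ Real.exp (l / 1000)) (hkl : (k : ℝ) ≤ l) (hTl : Real.exp (99 * l) ≤ T) (hB1 : 1 ≤ B₀)
    (hBl : B₀ ≤ l ^ 3 * Real.exp (l / 20000)) (hF : l ^ 6 ≤ Real.exp l) (hm₀ : m₀ ^ 2 * Λ₂ ≤ 16 * T ^ 2 * Real.exp (-(l / 75) + l / 1500) * l ^ (K + 3)) (hΛ : 0 < Λ₂) (hU : U = ⌊η * T / (2 * B₀)⌋₊)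
    (hM : M₀ = ⌈256 * m₀ ^ 2 * Λ₂ / (η ^ 2 * T)⌉₊) :
    (U + 1) * B₀ ≤ η * T ∧ 0 < U ∧ (2 * B₀) ^ k * (1 + 2 * k * M₀) / U ≤ 20000 * l ^ (K + 12) * Real.exp (-(l / 100)) := by
  have hl0 : 0 < l := by linarith
  have hl1 : 1 ≤ l := by linarith
  have hT0 : (0 : ℝ) < T := lt_of_lt_of_le (Real.exp_pos _) hTl
  have hη0 : 0 < η := lt_of_lt_of_le (by positivity) hη
  have hB0 : 0 < B₀ := by linarith
  have hηl : 8000 ≤ η * l := by rwa [div_le_iff₀ hl0] at hη
  set E : ℝ := Real.exp (l / 20000) with hE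
  have hE0 : 0 < E := Real.exp_pos _
  have hE1 : 1 ≤ E := Real.one_le_exp (by positivity)
  -- the large quantity
  have hbig : 4 * (l ^ 3 * E) ≤ η * T := by
    have h1 : l ^ 4 * E ≤ T := by
      calc l ^ 4 * E ≤ Real.exp l * Real.exp l := by
            have h2 : l ^ 4 ≤ l ^ 6 := pow_le_pow_right₀ hl1 (by norm_num)
            have h3 : E ≤ Real.exp l := Real.exp_le_exp.2 (by linarith)
            exact mul_le_mul (h2.trans hF) h3 hE0.le (Real.exp_pos _).le
        _ = Real.exp (2 * l) := by rw [← Real.exp_add]; congr 1; ring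
        _ ≤ Real.exp (99 * l) := Real.exp_le_exp.2 (by linarith)
        _ ≤ T := hTl
    have h2 : η * (l ^ 4 * E) ≤ η * T := mul_le_mul_of_nonneg_left h1 hη0.le
    have h3 : η * (l ^ 4 * E) = (η * l) * (l ^ 3 * E) := by ring
    have h4 : 0 < l ^ 3 * E := by positivity
    nlinarith only [h2, h3, hηl, h4]
  have hq : 2 ≤ η * T / (2 * B₀) := by
    rw [le_div_iff₀ (by positivity)]
    linarith
  have hU1 : (U : ℝ) ≤ η * T / (2 * B₀) := by
    rw [hU]; exact Nat.floor_le (by positivity)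
  have hU2 : η * T / (2 * B₀) < U + 1 := by
    rw [hU]; exact Nat.lt_floor_add_one _
  have hU3 : (1 : ℝ) < U := by linarith
  have hU4 : T / (l ^ 4 * E) ≤ (U : ℝ) := by
    have h1 : η * T / (4 * B₀) ≤ U := by
      have : η * T / (4 * B₀) = η * T / (2 * B₀) / 2 := by field_simp; norm_num
      rw [this]
      linarith
    refine le_trans ?_ h1
    rw [div_le_div_iff₀ (by positivity) (by positivity)]
    have h2 : T * (4 * B₀) ≤ T * (4 * (l ^ 3 * E)) := by gcongr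
    have h3 : η * T * (l ^ 4 * E) = T * ((η * l) * (l ^ 3 * E)) := by ring
    rw [h3]
    refine h2.trans (mul_le_mul_of_nonneg_left ?_ hT0.le)
    have h4 : 0 < l ^ 3 * E := by positivity
    nlinarith only [hηl, h4]
  refine ⟨?_, by exact_mod_cast (by linarith : (0 : ℝ) < U), ?_⟩
  · rw [le_div_iff₀ (by positivity)] at hU1
    nlinarith only [hU1, mul_pos (sub_pos.2 hU3) hB0]
  · have hUpos : (0 : ℝ) < U := by linarith
    set e : ℝ := Real.exp (-(l / 75) + l / 1500) with he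
    have he0 : 0 < e := Real.exp_pos _
    have hM1 : (M₀ : ℝ) ≤ 4096 * (T * e) * l ^ (K + 5) + 1 := by
      have h2 : (M₀ : ℝ) < 256 * m₀ ^ 2 * Λ₂ / (η ^ 2 * T) + 1 := by
        rw [hM]; exact Nat.ceil_lt_add_one (by positivity)
      have h3 : 256 * m₀ ^ 2 * Λ₂ / (η ^ 2 * T) ≤ 4096 * (T * e) * l ^ (K + 5) := by
        rw [div_le_iff₀ (by positivity)]
        have h5 : 1 ≤ (η * l) ^ 2 := one_le_pow₀ (by linarith)
        have h6 : 4096 * (T * e) * l ^ (K + 5) * (η ^ 2 * T) = 256 * (16 * T ^ 2 * e * l ^ (K + 3)) * (η * l) ^ 2 := by ring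
        rw [h6]
        have h7 : 256 * m₀ ^ 2 * Λ₂ ≤ 256 * (16 * T ^ 2 * e * l ^ (K + 3)) := by linarith
        have h8 : 0 ≤ 256 * (16 * T ^ 2 * e * l ^ (K + 3)) := by positivity
        exact h7.trans (le_mul_of_one_le_right h8 h5)
      linarith
    have hTe : 1 ≤ T * e := by
      calc (1 : ℝ) ≤ Real.exp (99 * l + (-(l / 75) + l / 1500)) := Real.one_le_exp (by linarith)
        _ = Real.exp (99 * l) * e := Real.exp_add _ _
        _ ≤ T * e := mul_le_mul_of_nonneg_right hTl he0.le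
    have h2 : 1 + 2 * (k : ℝ) * M₀ ≤ 20000 * l ^ (K + 6) * (T * e) := by
      have hk0 : (0 : ℝ) ≤ k := Nat.cast_nonneg _
      have hlK : 1 ≤ l ^ (K + 5) := one_le_pow₀ hl1
      have h3 : (k : ℝ) * M₀ ≤ l * (4096 * (T * e) * l ^ (K + 5) + 1) := mul_le_mul hkl hM1 (Nat.cast_nonneg _) hl0.le
      have h4 : l * (4096 * (T * e) * l ^ (K + 5) + 1) = 4096 * (l ^ (K + 6) * (T * e)) + l := by ring
      have h5 : l ≤ l ^ (K + 6) * (T * e) := by
        calc l = l * 1 * 1 := by ring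
          _ ≤ l * l ^ (K + 5) * (T * e) := by gcongr
          _ = _ := by ring
      nlinarith only [h3, h4, h5, hl1]
    have hz : 0 ≤ 1 + 2 * (k : ℝ) * M₀ := by positivity
    have hexp : Real.exp (l / 1000) * e * E ≤ Real.exp (-(l / 100)) := by
      rw [he, hE, ← Real.exp_add, ← Real.exp_add]
      exact Real.exp_le_exp.2 (by linarith)
    have hlK2 : l ^ (K + 10) ≤ l ^ (K + 12) := pow_le_pow_right₀ hl1 (by omega)
    calc (2 * B₀) ^ k * (1 + 2 * k * M₀) / U ≤ Real.exp (l / 1000) * (20000 * l ^ (K + 6) * (T * e)) / (T / (l ^ 4 * E)) := by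
          apply div_le_div₀ (by positivity) _ (by positivity) hU4
          exact mul_le_mul hk h2 hz (Real.exp_pos _).le
      _ = 20000 * l ^ (K + 10) * (Real.exp (l / 1000) * e * E) := by
          field_simp
          ring
      _ ≤ 20000 * l ^ (K + 10) * Real.exp (-(l / 100)) := mul_le_mul_of_nonneg_left hexp (by positivity)
      _ ≤ _ := by gcongr

end Pool.Agent.J4H81.PT
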