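import Pool.Agent.J4H81.PT.XGc

/-!
# Growing prime tuples, all x: the result in the exceptional case (helper81)
-/

set_option autoImplicit false

namespace Pool.Agent.J4H81.PT

open Finset MeasureTheory Filter
open DirichletCharacter

open Classical in
/-- the exceptional tuples in the presence of an exceptional zero -/
theorem exc_step : ∃ (C l₀ : ℝ) (K : ℕ), 0 < C ∧ ∀ l : ℝ, l₀ ≤ l → ∀ (q₁ : ℕ) [NeZero q₁] (χ₁ : DirichletCharacter ℂ q₁) (b d : ℝ),
    χ₁ ^ 2 = 1 → χ₁.IsPrimitive → χ₁ ≠ 1 → (q₁ : ℝ) ≤ Real.exp (l / 20000) → 0 < b → b ≤ 1 / 8 → Real.exp (-(l / 20000)) ≤ b →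
    LFunction χ₁ ((1 - b : ℝ) : ℂ) = 0 → 1 / l ^ 2 ≤ d → d ≤ 1 / 8 → ZR q₁ χ₁ b d l →
    ∀ (y k : ℕ) (η r : ℝ), 0 < η → η ≤ 1 / 2 → 8 / η + 2 ≤ l / 1000 → Real.log l ≤ η * l → 4 * k * η ≤ 1 → Real.exp (-r) ≤ b → 0 ≤ r →
    (k : ℝ) * (Real.log (4 * l ^ 2) + r) ≤ l / 1000 → Real.exp (101 * l) ≤ y → Real.log (y + 1 : ℕ) ≤ l ^ 2 → d * Real.log (y + 1 : ℕ) ≤ 2 * l →
    (((admissibleSets y k).filter (fun A => ¬ HasPrimes y A)).card : ℝ) ≤
      (16 * k * η + 16000 * k / l + C * l ^ K / b ^ 3 * (Real.exp (-(d * Real.log y / 4)) + Real.exp (-(l / 100)))) *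
        ((admissibleSets y k).card : ℝ) := by
  obtain ⟨K, l₁, hl₁, hen⟩ := energy_x
  obtain ⟨C₁, hC₁, hsup⟩ := QSx_sup
  obtain ⟨l₂, hl₂⟩ := eventually_atTop.1 (((poly_exp (show (0 : ℝ) < 1 / 1000 by norm_num) 14 (10 ^ 9))).and
    ((poly_exp (show (0 : ℝ) < 1 by norm_num) 6 (10 ^ 6))))
  refine ⟨10 ^ 19 * C₁, max (max l₁ l₂) 10000, 2 * K + 12, by linarith, ?_⟩
  intro l hl q₁ _ χ₁ b d hχ2 hχp hχ1 hq₁ hb hb8 hbl hzero hd hd8 hZR y k η r hη hη2 hηl hηlog hkη hrb hr hk hy hyl hdy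
  have hl2000 : 10000 ≤ l := (le_max_right _ _).trans hl
  have hll₁ : l₁ ≤ l := (le_max_left _ _).trans ((le_max_left _ _).trans hl)
  have hll₂ : l₂ ≤ l := (le_max_right _ _).trans ((le_max_left _ _).trans hl)
  obtain ⟨hF1, hF2⟩ := hl₂ l hll₂
  rw [one_mul] at hF2
  have hl0 : 0 < l := by linarith
  have hl1 : 1 ≤ l := by linarith
  have hη8 : 8000 / l ≤ η := by
    rw [div_le_iff₀ hl0]
    have h1 : 8 / η ≤ l / 1000 := by linarith
    rw [div_le_iff₀ hη] at h1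
    linarith
  have hη1 : 1 / l ≤ η := le_trans (by gcongr; norm_num) hη8
  have hηl8 : 8000 ≤ η * l := by rwa [div_le_iff₀ hl0] at hη8
  have hk0 : (0 : ℝ) ≤ k := Nat.cast_nonneg _
  -- k is small
  have hlog8 : 8 ≤ Real.log (4 * l ^ 2) + r := by
    have h0 : 8 ≤ Real.log (4 * l ^ 2) := by
      rw [Real.le_log_iff_exp_le (by positivity)]
      have h1 : Real.exp 8 = Real.exp 1 ^ 8 := by rw [← Real.exp_nat_mul]; norm_num
      have h2 : Real.exp 1 ^ 8 ≤ 3 ^ 8 := pow_le_pow_left₀ (Real.exp_pos _).le (by have := Real.exp_one_lt_d9; linarith) 8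
      rw [h1]
      refine h2.trans ?_
      nlinarith only [hl2000]
    linarith
  have hk8 : (k : ℝ) ≤ l / 8000 := by
    have : (k : ℝ) * 8 ≤ k * (Real.log (4 * l ^ 2) + r) := mul_le_mul_of_nonneg_left hlog8 hk0
    linarith
  have hkl : (k : ℝ) ≤ l := by linarith
  -- the parameters
  set w : ℕ := ⌊l / 1000⌋₊ with hw
  have hw1 : (w : ℝ) ≤ l / 1000 := Nat.floor_le (by positivity)
  have hw2 : l / 1000 < w + 1 := Nat.lt_floor_add_one _
  have hwpos : (0 : ℝ) < w := by linarith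
  set W : ℕ := primorial w with hW
  have hWs : Squarefree W := squarefree_primorial w
  have hWpos : 0 < W := primorial_pos w
  have : NeZero W := ⟨hWpos.ne'⟩
  have hW0 : (0 : ℝ) < W := by exact_mod_cast hWpos
  have hW1 : (1 : ℝ) ≤ W := by exact_mod_cast hWpos
  have hWl : (W : ℝ) ≤ Real.exp (l / 700) := by
    have h1 : (W : ℝ) ≤ (4 : ℝ) ^ w := by exact_mod_cast primorial_le_four_pow w
    have h2 : (4 : ℝ) ^ w = Real.exp (w * (2 * Real.log 2)) := by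
      rw [Real.exp_nat_mul, show 2 * Real.log 2 = Real.log (2 ^ 2) by rw [Real.log_pow]; norm_num, Real.exp_log (by norm_num)]
      norm_num
    rw [h2] at h1
    refine h1.trans (Real.exp_le_exp.2 ?_)
    have h3 := Real.log_two_lt_d9
    have h4 : (w : ℝ) * (2 * Real.log 2) ≤ (l / 1000) * (2 * 0.6931471808) := by gcongr
    linarith
  set P₁ : ℕ := ⌊Real.exp (l / 50)⌋₊ with hP₁
  have hPexp : (2 : ℝ) ≤ Real.exp (l / 50) := by
    have := Real.add_one_le_exp (l / 50)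
    linarith
  have hP2 : (P₁ : ℝ) ≤ Real.exp (l / 50) := Nat.floor_le (Real.exp_pos _).le
  have hP1 : Real.exp (l / 50) / 2 ≤ P₁ := by
    have : Real.exp (l / 50) < P₁ + 1 := Nat.lt_floor_add_one _
    linarith
  have hP₁pos : 1 ≤ P₁ := by
    have : (0 : ℝ) < P₁ := by linarith
    exact_mod_cast this
  have hq1 : 1 ≤ q₁ := Nat.pos_of_ne_zero (NeZero.ne q₁)
  have hq1' : (1 : ℝ) ≤ q₁ := by exact_mod_cast hq1
  have hq0 : (0 : ℝ) < q₁ := by linarith
  set P : ℕ := q₁ * P₁ with hP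
  have hPpos : 1 ≤ P := Nat.mul_pos hq1 hP₁pos
  have hPr : (P : ℝ) = q₁ * P₁ := by rw [hP]; push_cast; ring
  have hPl : (P : ℝ) ≤ Real.exp (l / 48) := by
    rw [hPr]
    calc (q₁ : ℝ) * P₁ ≤ Real.exp (l / 20000) * Real.exp (l / 50) := by gcongr
      _ = Real.exp (l / 20000 + l / 50) := (Real.exp_add _ _).symm
      _ ≤ Real.exp (l / 48) := Real.exp_le_exp.2 (by linarith)
  set Q : ℕ := W * P with hQ
  have hQ1 : 1 ≤ Q := Nat.mul_pos hWpos hPpos
  have hQl : (Q : ℝ) ≤ Real.exp (l / 40) := by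
    rw [hQ, Nat.cast_mul]
    calc (W : ℝ) * P ≤ Real.exp (l / 700) * Real.exp (l / 48) := by gcongr
      _ = Real.exp (l / 700 + l / 48) := (Real.exp_add _ _).symm
      _ ≤ Real.exp (l / 40) := Real.exp_le_exp.2 (by linarith)
  set T : ℕ := (y + 1) / W with hT
  have hmod : W * T + (y + 1) % W = y + 1 := Nat.div_add_mod (y + 1) W
  have hmodlt : (y + 1) % W < W := Nat.mod_lt _ hWpos
  set N : ℕ := W * T with hN
  have hNy : (N : ℝ) ≤ (y + 1 : ℕ) := by exact_mod_cast (by omega : N ≤ y + 1)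
  have hyW : (y : ℝ) ≤ N + W := by exact_mod_cast (by omega : y ≤ N + W)
  have hWy : (W : ℝ) ≤ y / 2 := by
    have h1 : 2 * Real.exp (l / 700) ≤ Real.exp (101 * l) := by
      calc 2 * Real.exp (l / 700) ≤ Real.exp (l / 50) * Real.exp (l / 700) := by gcongr
        _ = Real.exp (l / 50 + l / 700) := (Real.exp_add _ _).symm
        _ ≤ Real.exp (101 * l) := Real.exp_le_exp.2 (by linarith)
    linarith
  have hNy2 : (y : ℝ) / 2 ≤ N := by linarith
  have hNl : Real.exp (100 * l) ≤ N := by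
    have h1 : 2 * Real.exp (100 * l) ≤ Real.exp (101 * l) := by
      calc 2 * Real.exp (100 * l) ≤ Real.exp (l / 50) * Real.exp (100 * l) := by gcongr
        _ = Real.exp (l / 50 + 100 * l) := (Real.exp_add _ _).symm
        _ ≤ Real.exp (101 * l) := Real.exp_le_exp.2 (by linarith)
    linarith
  have hN0 : (0 : ℝ) < N := lt_of_lt_of_le (Real.exp_pos _) hNl
  have hNpos : 0 < N := by exact_mod_cast hN0
  have hlogNy : Real.log N ≤ Real.log (y + 1 : ℕ) := Real.log_le_log hN0 hNy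
  have hlogN2 : Real.log N ≤ l ^ 2 := hlogNy.trans hyl
  have hlogN1 : 100 * l ≤ Real.log N := by
    rw [← Real.log_exp (100 * l)]
    exact Real.log_le_log (Real.exp_pos _) hNl
  have hTpos : 0 < T := Nat.pos_of_mul_pos_left hNpos
  have hT0 : (0 : ℝ) < T := by exact_mod_cast hTpos
  have hNWT : (N : ℝ) = W * T := by rw [hN]; push_cast; ring
  have hTl : Real.exp (99 * l) ≤ T := by
    by_contra hcon
    have h1 : (N : ℝ) < Real.exp (100 * l) := by
      rw [hNWT]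
      calc (W : ℝ) * T ≤ Real.exp (l / 700) * T := mul_le_mul_of_nonneg_right hWl hT0.le
        _ < Real.exp (l / 700) * Real.exp (99 * l) := mul_lt_mul_of_pos_left (not_le.1 hcon) (Real.exp_pos _)
        _ = Real.exp (l / 700 + 99 * l) := (Real.exp_add _ _).symm
        _ ≤ Real.exp (100 * l) := Real.exp_le_exp.2 (by linarith)
    linarith
  have hη1' : η ≤ 1 := by linarith
  have hFl : l ^ 6 ≤ Real.exp l := by
    refine le_trans ?_ hF2
    nlinarith only [pow_pos hl0 6]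
  -- big quantities
  have hTbig : 10 ^ 6 * l ^ 6 * Real.exp (98 * l) ≤ T := by
    calc 10 ^ 6 * l ^ 6 * Real.exp (98 * l) ≤ Real.exp l * Real.exp (98 * l) := mul_le_mul_of_nonneg_right hF2 (Real.exp_pos _).le
      _ = Real.exp (99 * l) := by rw [← Real.exp_add]; congr 1; ring
      _ ≤ T := hTl
  have hηT : 10 ^ 6 * l ^ 5 * Real.exp (98 * l) ≤ η * T := by
    have h1 : η * (10 ^ 6 * l ^ 6 * Real.exp (98 * l)) ≤ η * T := mul_le_mul_of_nonneg_left hTbig hη.le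
    have h2 : η * (10 ^ 6 * l ^ 6 * Real.exp (98 * l)) = (η * l) * (10 ^ 6 * l ^ 5 * Real.exp (98 * l)) := by ring
    rw [h2] at h1
    have h3 : 0 ≤ 10 ^ 6 * l ^ 5 * Real.exp (98 * l) := by positivity
    have h4 : 10 ^ 6 * l ^ 5 * Real.exp (98 * l) ≤ (η * l) * (10 ^ 6 * l ^ 5 * Real.exp (98 * l)) := le_mul_of_one_le_left h3 (by linarith)
    linarith
  have he98 : 1 ≤ Real.exp (98 * l) := Real.one_le_exp (by positivity)
  have hl5 : 1 ≤ l ^ 5 := one_le_pow₀ hl1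
  have hηT6 : 10 ^ 6 ≤ η * T := by
    refine le_trans ?_ hηT
    have : 1 ≤ l ^ 5 * Real.exp (98 * l) := one_le_mul_of_one_le_of_one_le hl5 he98
    linarith
  have hTN : (T : ℝ) ≤ N := by rw [hNWT]; exact le_mul_of_one_le_left hT0.le hW1
  have hηN : 10 ^ 6 ≤ η * N := hηT6.trans (mul_le_mul_of_nonneg_left hTN hη.le)
  set N₁ : ℕ := ⌊η * N / 64⌋₊ with hN₁
  have hN₁1 : (N₁ : ℝ) ≤ η * N / 64 := Nat.floor_le (by positivity)
  have hN₁2 : η * N / 64 < N₁ + 1 := Nat.lt_floor_add_one _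
  have hN₁3 : η * N / 128 ≤ N₁ := by linarith
  have hN₁pos : 1 ≤ N₁ := by
    have : (0 : ℝ) < N₁ := by linarith
    exact_mod_cast this
  have hN₁4 : (N₁ : ℝ) ≤ N / 4 := by
    have : η * N ≤ 1 * N := mul_le_mul_of_nonneg_right hη1' hN0.le
    linarith
  have hlogs : Real.log N₁ + η / 32 ≤ Real.log N := by
    have h1 : Real.log N₁ ≤ Real.log (N / 4) := Real.log_le_log (by exact_mod_cast hN₁pos) hN₁4
    rw [Real.log_div hN0.ne' (by norm_num)] at h1
    have h2 : Real.log 4 = 2 * Real.log 2 := by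
      rw [show (4 : ℝ) = 2 ^ 2 by norm_num, Real.log_pow]
      norm_num
    have := Real.log_two_gt_d9
    linarith
  have hω := om_wt (show 0 < η / 32 by positivity) hlogs
  have hmass₀ := om_mass2 (T := T) hWpos hη hη1' hN₁pos (by rw [← hN]; exact hN₁1) (by linarith)
  rw [← hN] at hmass₀
  -- the normalisation
  set ρ : ℝ := rr b N with hρdef
  have hρb : b ≤ ρ := rr_ge hb (by linarith) (by linarith)
  have hρ : 0 < ρ := by linarith
  have hρ1 : ρ ≤ 1 := rr_le_one b N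
  have hρl : Real.exp (-(l / 20000)) ≤ ρ := hbl.trans hρb
  have hρinv : 1 / ρ ≤ Real.exp (l / 20000) := by
    rw [div_le_iff₀ hρ]
    calc (1 : ℝ) = Real.exp (l / 20000) * Real.exp (-(l / 20000)) := by rw [← Real.exp_add]; simp
      _ ≤ Real.exp (l / 20000) * ρ := mul_le_mul_of_nonneg_left hρl (Real.exp_pos _).le
  have hρr : 1 / ρ ≤ Real.exp r := by
    rw [div_le_iff₀ hρ]
    calc (1 : ℝ) = Real.exp r * Real.exp (-r) := by rw [← Real.exp_add]; simp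
      _ ≤ Real.exp r * ρ := mul_le_mul_of_nonneg_left (hrb.trans hρb) (Real.exp_pos _).le
  have h1ρ : 1 ≤ 1 / ρ := by rw [le_div_iff₀ hρ]; linarith
  have hv := vw_wt hb.le hω hρ
  rw [← hρdef] at hv
  have hmass : ∀ r < W, (1 - η / 4) * T ≤ ∑ s ∈ range T, vw b ρ (om (η / 32) N N₁) (r + W * s) := by
    intro r hrW
    have hεN : (1 - η / 8) * Real.log N ≤ Real.log N₁ := by
      have h1 : Real.log (η * N / 128) ≤ Real.log N₁ := Real.log_le_log (by positivity) hN₁3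
      have h2 : Real.log (η * N / 128) = Real.log (η / 128) + Real.log N := by
        rw [← Real.log_mul (by positivity) hN0.ne']
        congr 1
        ring
      have h3 : -Real.log l ≤ Real.log (η / 128) := by
        rw [← Real.log_inv]
        apply Real.log_le_log (by positivity)
        rw [le_div_iff₀ (by norm_num), inv_mul_le_iff₀ hl0]
        linarith
      have h4 : η * (100 * l) ≤ η * Real.log N := mul_le_mul_of_nonneg_left hlogN1 hη.le
      have h5 : 0 ≤ η * l := by positivity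
      linarith
    have h1 : ∀ s ∈ range T, (1 - η / 8) * om (η / 32) N N₁ (r + W * s) ≤ vw b ρ (om (η / 32) N N₁) (r + W * s) :=
      fun s _ => vw_ge hω hρ (by linarith) hεN _
    have h2 := sum_le_sum h1
    rw [← mul_sum] at h2
    refine le_trans ?_ h2
    have h3 := mul_le_mul_of_nonneg_left (hmass₀ r hrW) (show 0 ≤ 1 - η / 8 by linarith)
    refine le_trans ?_ h3
    have h4 : (1 - η / 8) * ((1 - η / 8) * (T : ℝ)) = (1 - η / 4) * T + η ^ 2 / 64 * T := by ring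
    rw [h4]
    have : 0 ≤ η ^ 2 / 64 * (T : ℝ) := by positivity
    linarith
  -- the energy
  set x₁ : PC := ⟨q₁, χ₁⟩ with hx₁
  have hlogq : Real.log q₁ ≤ l := by
    have : Real.log q₁ ≤ Real.log (Real.exp (l / 20000)) := Real.log_le_log hq0 hq₁
    rw [Real.log_exp] at this
    linarith
  have hdN : d * Real.log N ≤ 2 * l := by
    have hd0 : 0 < d := lt_of_lt_of_le (by positivity) hd
    exact (mul_le_mul_of_nonneg_left hlogNy hd0.le).trans hdy
  obtain ⟨hS, hEt⟩ := hen l hll₁ x₁ b ρ hq1 hχ2 hχp hχ1 (hq₁.trans (Real.exp_le_exp.2 (by linarith))) hb.le (by linarith) hρ hρ1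
    W T P₁ N₁ η (Real.exp (-(d * Real.log N / 4))) C₁ hWs hTpos hWl hP1 hP2 hη1 hη1' (by rw [← hN]; exact hN₁3)
    (by rw [← hN]; exact hN₁4) (by rw [← hN]; exact hNl) (by rw [← hN]; exact hlogN2) (Real.exp_pos _) hC₁ (by rw [← hN]; exact hv) (by
      rw [← hN]
      intro f hf hfl χ hχ ξ hξ x hx hxN
      exact hsup l (by linarith) q₁ χ₁ b d hχ1 hlogq hb hb8 hzero hd hd8 hZR N (by linarith) hlogN2 hdN f hf hfl χ hχ ξ hξ x hx hxN)
  have hxP : x₁.1 * P₁ = P := rfl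
  rw [hxP, ← hQ] at hS hEt
  rw [← hN] at hEt
  -- P
  have hexpP3 : ((P * P * P : ℕ) : ℝ) ≤ Real.exp l := by
    rw [Nat.cast_mul, Nat.cast_mul]
    calc (P : ℝ) * P * P ≤ Real.exp (l / 48) * Real.exp (l / 48) * Real.exp (l / 48) := by gcongr
      _ = Real.exp (l / 48 + l / 48 + l / 48) := by rw [Real.exp_add, Real.exp_add]
      _ ≤ Real.exp l := Real.exp_le_exp.2 (by linarith)
  have hP3 : P * P * P ≤ N := by
    have : ((P * P * P : ℕ) : ℝ) ≤ N := hexpP3.trans ((Real.exp_le_exp.2 (by linarith)).trans hNl)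
    exact_mod_cast this
  have hPP : P * P ≤ N₁ := by
    have h1 : ((P * P : ℕ) : ℝ) ≤ ((P * P * P : ℕ) : ℝ) := by
      exact_mod_cast Nat.le_mul_of_pos_right _ hPpos
    have h2 : Real.exp l * 128 ≤ η * N := by
      calc Real.exp l * 128 ≤ 10 ^ 6 * l ^ 5 * Real.exp (98 * l) := by
            have h3 : Real.exp l ≤ Real.exp (98 * l) := Real.exp_le_exp.2 (by linarith)
            have h4 : (128 : ℝ) ≤ 10 ^ 6 * l ^ 5 := by linarith
            calc Real.exp l * 128 ≤ Real.exp (98 * l) * (10 ^ 6 * l ^ 5) := by gcongr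
              _ = _ := by ring
        _ ≤ η * T := hηT
        _ ≤ η * N := mul_le_mul_of_nonneg_left hTN hη.le
    have h3 : ((P * P : ℕ) : ℝ) ≤ N₁ := by linarith
    exact_mod_cast h3
  set m₀ : ℝ := 4 * q₁ ^ 4 / ρ * (T * Real.exp (-(l / 150))) with hm₀
  have hm0nn : 0 ≤ m₀ := by positivity
  have hm0 := m0_bound (by linarith) hF1 hWpos hTpos hWl hP1 hP2 (by rw [← hN]; exact hNl) (by rw [← hN]; exact hlogN2) hTl
  rw [← hN] at hm0
  have hMM : MM N P₁ W Q ≤ q₁ ^ 3 * (T * Real.exp (-(l / 150))) := by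
    have hq3 : (1 : ℝ) ≤ q₁ ^ 3 := one_le_pow₀ hq1'
    refine le_trans ?_ (mul_le_mul_of_nonneg_left hm0 (by positivity))
    unfold MM
    have hBd0 : 0 ≤ Bd N P₁ := by unfold Bd; positivity
    have e : ((W * Q : ℕ) : ℝ) = q₁ * ((W * (W * P₁) : ℕ) : ℝ) := by
      rw [hQ, hP]; push_cast; ring
    rw [e, mul_pow]
    have hlogN0 : 0 ≤ Real.log N := Real.log_natCast_nonneg N
    have h1 : 0 ≤ 3 * (((Nat.log 2 N + 1 : ℕ) : ℝ) * Bd N P₁) + 2 * Real.sqrt N * Real.log N := by positivity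
    have h2 : 0 ≤ 2 * ((N : ℝ) / Real.sqrt P₁) := by positivity
    have h3 := mul_le_mul_of_nonneg_right hq3 h1
    have h4 := mul_le_mul_of_nonneg_right hq3 h2
    rw [one_mul] at h3 h4
    have h5 : (q₁ : ℝ) ^ 3 * (3 * (((Nat.log 2 N + 1 : ℕ) : ℝ) * Bd N P₁) + 2 * Real.sqrt N * Real.log N + (((W * (W * P₁) : ℕ) : ℝ) ^ 3 * 3 + 2 * ((N : ℝ) / Real.sqrt P₁))) =
      (q₁ : ℝ) ^ 3 * (3 * (((Nat.log 2 N + 1 : ℕ) : ℝ) * Bd N P₁) + 2 * Real.sqrt N * Real.log N) + (q₁ : ℝ) ^ 3 * ((W * (W * P₁) : ℕ) : ℝ) ^ 3 * 3 + (q₁ : ℝ) ^ 3 * (2 * ((N : ℝ) / Real.sqrt P₁)) := by ring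
    rw [h5]
    linarith
  have hminor : ∀ θ : ℝ, (∀ q : ℕ, 1 ≤ q → q ≤ P → ∀ a : ℤ, (P : ℝ) / (N : ℕ) < |θ - a / q|) →
      ‖hat (cx (hc W Q (cw x₁ b ρ (om (η / 32) N N₁)) (vw b ρ (om (η / 32) N N₁)))) N θ‖ ≤ m₀ := by
    intro θ hθ
    have h1 := cw_minor (x₁ := x₁) hq1 (Q := Q) hWs hP₁pos (le_of_eq hxP) hP3 hPP hω (Nat.mul_pos hWpos hQ1) hb.le hρ hρ1 hv hθ
    refine h1.trans ?_
    have hcast : ((x₁.1 : ℕ) : ℝ) = q₁ := rfl
    rw [hcast]
    calc ((q₁ : ℝ) + 3) / ρ * MM N P₁ W Q ≤ (4 * q₁) / ρ * (q₁ ^ 3 * (T * Real.exp (-(l / 150)))) := by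
          apply mul_le_mul _ hMM _ (by positivity)
          · apply div_le_div_of_nonneg_right _ hρ.le
            linarith
          · unfold MM
            have hBd0 : 0 ≤ Bd N P₁ := by unfold Bd; positivity
            have hlogN0 : 0 ≤ Real.log N := Real.log_natCast_nonneg N
            positivity
      _ = m₀ := by rw [hm₀]; ring
  -- the bound for the weights
  set B₀ : ℝ := 2 * Real.log N / ρ with hB₀
  have hB₀e : B₀ = 2 * Real.log N * (1 / ρ) := by rw [hB₀]; ring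
  have hB1 : 1 ≤ B₀ := by
    rw [hB₀e]
    exact one_le_mul_of_one_le_of_one_le (by linarith) h1ρ
  have hBl : B₀ ≤ l ^ 3 * Real.exp (l / 20000) := by
    rw [hB₀e]
    have h1 : 2 * Real.log N ≤ l ^ 3 := by
      have : l ^ 3 = l * l ^ 2 := by ring
      rw [this]
      nlinarith only [hlogN2, hl2000, sq_nonneg l]
    exact mul_le_mul h1 hρinv (by positivity) (by positivity)
  have hkB : (2 * B₀) ^ k ≤ Real.exp (l / 1000) := by
    have h1 : 2 * B₀ ≤ 4 * l ^ 2 * Real.exp r := by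
      rw [hB₀e]
      calc 2 * (2 * Real.log N * (1 / ρ)) = 4 * Real.log N * (1 / ρ) := by ring
        _ ≤ 4 * l ^ 2 * Real.exp r := by gcongr
    calc (2 * B₀) ^ k ≤ (4 * l ^ 2 * Real.exp r) ^ k := pow_le_pow_left₀ (by linarith) h1 k
      _ = Real.exp (k * (Real.log (4 * l ^ 2) + r)) := by
          rw [Real.exp_nat_mul, Real.exp_add, Real.exp_log (by positivity)]
      _ ≤ Real.exp (l / 1000) := Real.exp_le_exp.2 hk
  set Λ₂ : ℝ := l ^ (K + 3) / ρ with hΛ₂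
  have hΛ0 : 0 < Λ₂ := by positivity
  have hmΛ : m₀ ^ 2 * Λ₂ ≤ 16 * T ^ 2 * Real.exp (-(l / 75) + l / 1500) * l ^ (K + 3) := by
    have e : m₀ ^ 2 * Λ₂ = 16 * T ^ 2 * (Real.exp (-(l / 150)) ^ 2 * ((q₁ : ℝ) ^ 8 * (1 / ρ) ^ 3)) * l ^ (K + 3) := by
      rw [hm₀, hΛ₂]; field_simp; ring
    rw [e]
    apply mul_le_mul_of_nonneg_right _ (by positivity)
    apply mul_le_mul_of_nonneg_left _ (by positivity)
    calc Real.exp (-(l / 150)) ^ 2 * ((q₁ : ℝ) ^ 8 * (1 / ρ) ^ 3) ≤ Real.exp (-(l / 150)) ^ 2 * (Real.exp (l / 20000) ^ 8 * Real.exp (l / 20000) ^ 3) := by gcongr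
      _ = Real.exp (-(l / 75) + 11 * l / 20000) := by
          rw [← Real.exp_nat_mul, ← Real.exp_nat_mul, ← Real.exp_nat_mul, ← Real.exp_add, ← Real.exp_add]
          congr 1
          push_cast
          ring
      _ ≤ _ := Real.exp_le_exp.2 (by linarith)
  set U : ℕ := ⌊η * T / (2 * B₀)⌋₊ with hU
  set M₀ : ℕ := ⌈256 * m₀ ^ 2 * Λ₂ / (η ^ 2 * T)⌉₊ with hM₀
  obtain ⟨hUB, hUpos, hthird⟩ := third_x (K := K) (by linarith) hη8 hkB hkl hTl hB1 hBl hFl hmΛ hΛ0 hU hM₀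
  have hUT : U + 1 ≤ T := by
    have h1 : ((U : ℝ) + 1) * 1 ≤ (U + 1) * B₀ := mul_le_mul_of_nonneg_left hB1 (by positivity)
    have h2 : η * T ≤ 1 * T := mul_le_mul_of_nonneg_right hη1' hT0.le
    have h3 : ((U + 1 : ℕ) : ℝ) ≤ T := by push_cast; linarith
    exact_mod_cast h3
  have hlK : 1 ≤ l ^ K := one_le_pow₀ hl1
  have hΛ : ∑ q ∈ Icc 1 Q, 1 / (Nat.totient q : ℝ) + 1 + 2 * B₀ ≤ Λ₂ := by
    have h1 : l ^ (K + 3) = l ^ K * l ^ 3 := pow_add _ _ _
    have h2 : l ^ K + 1 + 4 * l ^ 2 ≤ l ^ K * l ^ 3 := by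
      have h3 : 6 * l ^ 2 ≤ l ^ 3 := by
        have : l ^ 3 = l * l ^ 2 := by ring
        rw [this]
        exact mul_le_mul_of_nonneg_right (by linarith) (sq_nonneg l)
      have h4 : 1 ≤ l ^ 2 := one_le_pow₀ hl1
      have h5 : l ^ K * (6 * l ^ 2) ≤ l ^ K * l ^ 3 := mul_le_mul_of_nonneg_left h3 (by linarith)
      have h6 : l ^ K ≤ l ^ K * l ^ 2 := le_mul_of_one_le_right (by linarith) h4
      have h7 : l ^ 2 ≤ l ^ K * l ^ 2 := le_mul_of_one_le_left (by linarith) hlK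
      linarith
    have h3 : Λ₂ = l ^ K * l ^ 3 * (1 / ρ) := by rw [hΛ₂, h1]; ring
    rw [h3]
    have h4 : (l ^ K + 1 + 4 * l ^ 2) * (1 / ρ) ≤ l ^ K * l ^ 3 * (1 / ρ) := mul_le_mul_of_nonneg_right h2 (by positivity)
    refine le_trans ?_ h4
    have h5 : l ^ K ≤ l ^ K * (1 / ρ) := le_mul_of_one_le_right (by linarith) h1ρ
    have h6 : 2 * B₀ ≤ 4 * l ^ 2 * (1 / ρ) := by
      rw [hB₀e]
      have : Real.log N * (1 / ρ) ≤ l ^ 2 * (1 / ρ) := mul_le_mul_of_nonneg_right hlogN2 (by positivity)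
      linarith
    have h7 : (l ^ K + 1 + 4 * l ^ 2) * (1 / ρ) = l ^ K * (1 / ρ) + 1 / ρ + 4 * l ^ 2 * (1 / ρ) := by ring
    rw [h7]
    linarith
  have hQT : 100 * (Q : ℝ) ^ 4 ≤ η * T := by
    have h1 : (Q : ℝ) ^ 4 ≤ Real.exp (98 * l) := by
      calc (Q : ℝ) ^ 4 ≤ Real.exp (l / 40) ^ 4 := pow_le_pow_left₀ (Nat.cast_nonneg _) hQl 4
        _ = Real.exp (l / 10) := by rw [← Real.exp_nat_mul]; congr 1; push_cast; ring
        _ ≤ Real.exp (98 * l) := Real.exp_le_exp.2 (by linarith)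
    refine le_trans ?_ hηT
    have h2 : (100 : ℝ) ≤ 10 ^ 6 * l ^ 5 := by linarith
    calc 100 * (Q : ℝ) ^ 4 ≤ (10 ^ 6 * l ^ 5) * Real.exp (98 * l) := by gcongr
      _ = _ := by ring
  have hmain := core_step_gen (k := k) (W := W) (y := y) (T := T) (Q := Q) (N₁ := N₁) (P := P) (w := w) (U := U) (M₀ := M₀)
    (ω := vw b ρ (om (η / 32) N N₁)) (c := cw x₁ b ρ (om (η / 32) N N₁)) (B₀ := B₀) (m₀ := m₀) (Λ₂ := Λ₂)
    (Et := 10 ^ 14 * C₁ * l ^ K / ρ ^ 2 * (N * (Real.exp (-(d * Real.log N / 4)) + Real.exp (-(l / 10))))) hWs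
    (fun p hp hpw => by rw [hW]; exact hp.dvd_primorial_iff.2 hpw) hT hTpos hUpos hUT
    (by
      have : (k : ℝ) ≤ w := by linarith
      exact_mod_cast this)
    (by
      have : (2 : ℝ) ≤ w := by linarith
      exact_mod_cast this)
    hQ1 hPpos (by rw [← hN]; exact hv) (fun n => cw_nonneg hb.le hρ hω n) (fun n => cw_le hb.le hρ hω n)
    (by
      rw [← hN]
      intro n hn
      unfold cw
      rw [hω.zero_ge n hn]
      ring) (fun n hn => (cw_supp hω hn).1) hη (by linarith) hm0nn (by rw [← hN]; exact hminor)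
    hΛ hmass hQT (by linarith)
    (by
      have h1 : 2 * (k : ℝ) / w ≤ 1 / 2 := by
        rw [div_le_iff₀ hwpos]
        linarith
      linarith)
    hUB (Nat.le_ceil _) (by rw [← hN]; exact hEt)
  rw [← hN] at hmain
  set B : ℝ := (((admissibleSets y k).filter (fun A => ¬ HasPrimes y A)).card : ℝ) with hB
  set A : ℝ := ((admissibleSets y k).card : ℝ) with hA
  have hA0 : 0 ≤ A := Nat.cast_nonneg _
  have hB0 : 0 ≤ B := Nat.cast_nonneg _
  set e₁ : ℝ := Real.exp (-(l / 100)) with he₁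
  set e₂ : ℝ := Real.exp (-(d * Real.log y / 4)) with he₂
  have he₁0 : 0 < e₁ := Real.exp_pos _
  have he₂0 : 0 < e₂ := Real.exp_pos _
  have hinvT : 1 / (T : ℝ) ≤ e₁ / l ^ 2 := by
    rw [div_le_div_iff₀ hT0 (by positivity), one_mul]
    have h1 : l ^ 2 ≤ 10 ^ 6 * l ^ 6 := by
      have : l ^ 2 ≤ l ^ 6 := pow_le_pow_right₀ hl1 (by norm_num)
      have h0 : 0 ≤ l ^ 6 := by positivity
      linarith
    have h2 : 1 ≤ e₁ * Real.exp (98 * l) := by
      rw [he₁, ← Real.exp_add]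
      exact Real.one_le_exp (by linarith)
    calc l ^ 2 ≤ 10 ^ 6 * l ^ 6 * (e₁ * Real.exp (98 * l)) := h1.trans (le_mul_of_one_le_right (by positivity) h2)
      _ = e₁ * (10 ^ 6 * l ^ 6 * Real.exp (98 * l)) := by ring
      _ ≤ e₁ * T := mul_le_mul_of_nonneg_left hTbig he₁0.le
  have he₁1 : e₁ ≤ 1 := Real.exp_le_one_iff.2 (by linarith)
  have hk2 : (k : ℝ) ^ 2 / T ≤ 1 / 2 := by
    have h1 : (k : ℝ) ^ 2 ≤ (l / 8000) ^ 2 := pow_le_pow_left₀ hk0 hk8 2
    calc (k : ℝ) ^ 2 / T = k ^ 2 * (1 / T) := by ring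
      _ ≤ (l / 8000) ^ 2 * (e₁ / l ^ 2) := by gcongr
      _ = e₁ / 64000000 := by field_simp; norm_num
      _ ≤ 1 / 2 := by linarith
  have hkT : (k : ℝ) / T ≤ e₁ := by
    calc (k : ℝ) / T = k * (1 / T) := by ring
      _ ≤ l * (e₁ / l ^ 2) := by gcongr
      _ = e₁ / l := by field_simp
      _ ≤ e₁ / 1 := by gcongr
      _ = e₁ := div_one _
  have hkw : 4 * (k : ℝ) / w ≤ 8000 * k / l := by
    rw [div_le_div_iff₀ hwpos hl0]
    have h1 : l ≤ 2000 * w := by linarith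
    have h2 : 4 * (k : ℝ) * l ≤ 4 * k * (2000 * w) := mul_le_mul_of_nonneg_left h1 (by positivity)
    linarith
  have hρ3 : (1 / ρ) ^ 3 ≤ 1 / b ^ 3 := by
    rw [one_div_pow]
    apply one_div_le_one_div_of_le (by positivity)
    exact pow_le_pow_left₀ hb.le hρb 3
  have hd0 : 0 < d := lt_of_lt_of_le (by positivity) hd
  have hterm : (k : ℝ) * (10 ^ 4 * Λ₂ * (10 ^ 14 * C₁ * l ^ K / ρ ^ 2 * (N * (Real.exp (-(d * Real.log N / 4)) + Real.exp (-(l / 10))))) / (η ^ 3 * N)) ≤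
      10 ^ 18 * C₁ * l ^ (2 * K + 7) * (1 / b ^ 3) * (2 * (e₂ + e₁)) := by
    have h1 : Real.exp (-(d * Real.log N / 4)) ≤ 2 * e₂ := by
      have h2 : Real.log y ≤ Real.log N + Real.log 2 := by
        rw [← Real.log_mul hN0.ne' (by norm_num)]
        apply Real.log_le_log
        · exact lt_of_lt_of_le (Real.exp_pos _) hy
        · linarith
      have h3 : (2 : ℝ) * e₂ = Real.exp (Real.log 2 + -(d * Real.log y / 4)) := by
        rw [Real.exp_add, Real.exp_log (by norm_num)]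
      rw [h3]
      apply Real.exp_le_exp.2
      have h4 : d * Real.log y ≤ d * (Real.log N + Real.log 2) := mul_le_mul_of_nonneg_left h2 hd0.le
      have h5 : 0 ≤ Real.log 2 := Real.log_nonneg (by norm_num)
      nlinarith only [h4, h5, hd8, mul_nonneg h5 (sub_nonneg.2 hd8)]
    have h2 : Real.exp (-(l / 10)) ≤ e₁ := Real.exp_le_exp.2 (by linarith)
    have h3 : Real.exp (-(d * Real.log N / 4)) + Real.exp (-(l / 10)) ≤ 2 * (e₂ + e₁) := by linarith
    set s : ℝ := Real.exp (-(d * Real.log N / 4)) + Real.exp (-(l / 10)) with hs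
    have hs0 : 0 < s := by positivity
    have h4 : (k : ℝ) * (10 ^ 4 * Λ₂ * (10 ^ 14 * C₁ * l ^ K / ρ ^ 2 * (N * s)) / (η ^ 3 * N)) = 10 ^ 18 * C₁ * (k * l ^ (2 * K + 3) * (1 / η ^ 3)) * (1 / ρ) ^ 3 * s := by
      rw [hΛ₂]
      field_simp
      ring
    rw [h4]
    have h5 : 1 / η ^ 3 ≤ l ^ 3 := by
      rw [div_le_iff₀ (by positivity)]
      have : 1 ≤ (η * l) ^ 3 := one_le_pow₀ (by linarith)
      calc (1 : ℝ) ≤ (η * l) ^ 3 := this
        _ = l ^ 3 * η ^ 3 := by ring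
    have h6 : (k : ℝ) * l ^ (2 * K + 3) * (1 / η ^ 3) ≤ l * l ^ (2 * K + 3) * l ^ 3 := by gcongr
    have h7 : l * l ^ (2 * K + 3) * l ^ 3 = l ^ (2 * K + 7) := by ring
    rw [h7] at h6
    gcongr
  have hlow : (1 / 2) * B ≤ (1 - (k : ℝ) ^ 2 / T) * B := mul_le_mul_of_nonneg_right (by linarith) hB0
  have hl2K : l ^ (K + 12) ≤ l ^ (2 * K + 12) := pow_le_pow_right₀ hl1 (by omega)
  have hl2K' : l ^ (2 * K + 7) ≤ l ^ (2 * K + 12) := pow_le_pow_right₀ hl1 (by omega)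
  have hl2K1 : 1 ≤ l ^ (2 * K + 12) := one_le_pow₀ hl1
  have hb3 : 1 ≤ 1 / b ^ 3 := by
    rw [le_div_iff₀ (by positivity), one_mul]
    exact pow_le_one₀ hb.le (by linarith)
  set X : ℝ := C₁ * l ^ (2 * K + 12) * (1 / b ^ 3) with hX
  have hsum : 8 * k * η + 4 * k / w + (2 * B₀) ^ k * (1 + 2 * k * M₀) / U +
      k * (10 ^ 4 * Λ₂ * (10 ^ 14 * C₁ * l ^ K / ρ ^ 2 * (N * (Real.exp (-(d * Real.log N / 4)) + Real.exp (-(l / 10))))) / (η ^ 3 * N)) + k / T ≤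
      8 * k * η + 8000 * k / l + 5 * 10 ^ 18 * X * (e₂ + e₁) := by
    have hXl : l ^ (2 * K + 12) ≤ X := by
      rw [hX]
      calc l ^ (2 * K + 12) = 1 * l ^ (2 * K + 12) * 1 := by ring
        _ ≤ C₁ * l ^ (2 * K + 12) * (1 / b ^ 3) := by gcongr
    have hX1 : 1 ≤ X := hl2K1.trans hXl
    have h1 : 20000 * l ^ (K + 12) * e₁ ≤ 20000 * X * e₁ := by gcongr; exact hl2K.trans hXl
    have h2 : e₁ ≤ X * e₁ := le_mul_of_one_le_left he₁0.le hX1
    have h3 : 10 ^ 18 * C₁ * l ^ (2 * K + 7) * (1 / b ^ 3) * (2 * (e₂ + e₁)) ≤ 10 ^ 18 * X * (2 * (e₂ + e₁)) := by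
      apply mul_le_mul_of_nonneg_right _ (by positivity)
      calc 10 ^ 18 * C₁ * l ^ (2 * K + 7) * (1 / b ^ 3) ≤ 10 ^ 18 * C₁ * l ^ (2 * K + 12) * (1 / b ^ 3) := by gcongr
        _ = _ := by rw [hX]; ring
    have h4 : 0 ≤ X * e₂ := by positivity
    have h5 : 0 ≤ X * e₁ := by positivity
    linarith
  have hfin := hmain.trans (mul_le_mul_of_nonneg_right hsum hA0)
  have hgoal : (16 * k * η + 16000 * k / l + 10 ^ 19 * C₁ * l ^ (2 * K + 12) / b ^ 3 * (e₂ + e₁)) * A =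
      2 * ((8 * k * η + 8000 * k / l + 5 * 10 ^ 18 * X * (e₂ + e₁)) * A) := by rw [hX]; ring
  rw [hgoal]
  linarith

end Pool.Agent.J4H81.PT
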