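import Pool.Agent.H307R2.Sg6
import Pool.Agent.J4H81.PT.XA
import Pool.Agent.Helper368_LD.LogDer

/-!
# Growing prime tuples, all x: a lower bound for the distance of an exceptional zero from 1 (helper81)
-/

set_option autoImplicit false

namespace Pool.Agent.J4H81.PT.ZF

open Complex Filter Topology Set Metric
open DirichletCharacter

/-- from Siegel's theorem with the exponent 1 -/
theorem b_lower : ∃ c : ℝ, 0 < c ∧ c ≤ 1 ∧ ∀ (q : ℕ) [NeZero q] (χ : DirichletCharacter ℂ q) (b : ℝ), χ.IsPrimitive → χ ^ 2 = 1 → χ ≠ 1 →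
    0 < b → b ≤ 1 / 8 → LFunction χ ((1 - b : ℝ) : ℂ) = 0 → c / q ^ 2 ≤ b := by
  obtain ⟨c, hc, h⟩ := Pool.Agent.H307R2.siegel 1 one_pos
  refine ⟨min 1 (c / 18), lt_min one_pos (by positivity), min_le_left _ _, ?_⟩
  intro q _ χ b hp h2 h1 hb hb1 hz
  have hq1 : (1 : ℝ) ≤ q := by exact_mod_cast Nat.one_le_iff_ne_zero.2 (NeZero.ne q)
  have hq0 : (0 : ℝ) < q := by linarith
  have h3 := h q χ hp h2 h1
  have hdiff : Differentiable ℂ (LFunction χ) := differentiable_LFunction h1
  have hder : ∀ z ∈ closedBall (1 : ℂ) (1 / 8), ‖deriv (LFunction χ) z‖ ≤ 18 * q := by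
    intro z hz
    rw [mem_closedBall, dist_eq_norm] at hz
    have h4 : ‖deriv (LFunction χ) z‖ ≤ (22 / 5 * q) / (1 / 4) := by
      apply Complex.norm_deriv_le_of_forall_mem_sphere_norm_le (by norm_num) hdiff.diffContOnCl
      intro w hw
      rw [mem_sphere, dist_eq_norm] at hw
      have h5 : ‖w - 1‖ ≤ 3 / 8 := by
        have h6 : w - 1 = (w - z) + (z - 1) := by ring
        rw [h6]
        refine (norm_add_le _ _).trans ?_
        rw [hw]
        linarith
      have h6 : 5 / 8 ≤ w.re := by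
        have h7 := Complex.abs_re_le_norm (w - 1)
        rw [sub_re, one_re] at h7
        have h8 := neg_abs_le (w.re - 1)
        linarith
      have h9 : ‖w‖ ≤ 11 / 8 := by
        have h10 : w = (w - 1) + 1 := by ring
        rw [h10]
        refine (norm_add_le _ _).trans ?_
        rw [norm_one]
        linarith
      refine (Pool.Agent.Helper368_LD.L_growth h1 (by linarith)).trans ?_
      have h11 : ((q : ℝ) + 1) / w.re ≤ 16 / 5 * q := by
        rw [div_le_iff₀ (by linarith)]
        nlinarith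
      calc ‖w‖ * (((q : ℝ) + 1) / w.re) ≤ 11 / 8 * (16 / 5 * q) := by
            apply mul_le_mul h9 h11 _ (by norm_num)
            apply div_nonneg <;> linarith
        _ = 22 / 5 * q := by ring
    linarith
  have h4 := (convex_closedBall (1 : ℂ) (1 / 8)).norm_image_sub_le_of_norm_deriv_le (fun z _ => hdiff z) hder
    (x := ((1 - b : ℝ) : ℂ)) (y := 1) (by
      rw [mem_closedBall, dist_eq_norm]
      have : ((1 - b : ℝ) : ℂ) - 1 = ((-b : ℝ) : ℂ) := by push_cast; ring
      rw [this, Complex.norm_real, Real.norm_eq_abs, abs_neg, abs_of_pos hb]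
      exact hb1) (mem_closedBall_self (by norm_num))
  rw [hz, sub_zero] at h4
  have h5 : (1 : ℂ) - ((1 - b : ℝ) : ℂ) = (b : ℂ) := by push_cast; ring
  rw [h5, Complex.norm_real, Real.norm_eq_abs, abs_of_pos hb] at h4
  rw [Real.rpow_neg hq0.le, Real.rpow_one] at h3
  have h6 : c * (q : ℝ)⁻¹ ≤ 18 * q * b := h3.trans h4
  have h7 : c ≤ 18 * q ^ 2 * b := by
    rw [← div_eq_mul_inv, div_le_iff₀ hq0] at h6
    calc c ≤ 18 * q * b * q := h6
      _ = _ := by ring
  rw [div_le_iff₀ (by positivity)]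
  have h8 : min 1 (c / 18) ≤ c / 18 := min_le_right _ _
  linarith

end Pool.Agent.J4H81.PT.ZF
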