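import Pool.Agent.J4H81.PT.XGd
import Pool.Agent.J4H81.PT.FCe
import Pool.Agent.J4H81.PT.XBd
import Pool.Agent.J4H81.PT.XHa

/-!
# Growing prime tuples, all x: the good and the exceptional scales (helper81)
-/

set_option autoImplicit false

namespace Pool.Agent.J4H81.PT

open Finset MeasureTheory Filter
open DirichletCharacter
open Pool.Agent.J4H81.PT.ZF (NoZ ExZ b_lower)
open Pool.Agent.J4H81.PT.DH (Lm dh_ZR)

theorem exp_small {C u v : ℝ} {K : ℕ} (h : (K + 1) * u + C ≤ v) : C * Real.exp (K * u) * Real.exp (-v) ≤ Real.exp (-u) := by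
  have h1 : C ≤ Real.exp C := by
    have := Real.add_one_le_exp C
    linarith
  calc C * Real.exp (K * u) * Real.exp (-v) ≤ Real.exp C * Real.exp (K * u) * Real.exp (-v) := by gcongr
    _ = Real.exp (C + K * u + -v) := by rw [Real.exp_add, Real.exp_add]
    _ ≤ Real.exp (-u) := Real.exp_le_exp.2 (by linarith)

open Classical in
theorem good_case {c₀ : ℝ} (hc₀ : 0 < c₀) (hc₀1 : c₀ ≤ 1) {δ : ℝ} (hδ : 0 < δ) : ∃ U : ℝ, 1 ≤ U ∧
    ∀ u t g : ℝ, U ≤ u → 1 ≤ t → Real.log (u ^ 32 * t ^ 2) ≤ u → u ^ 18 * t ≤ g → g ≤ u ^ 27 * t ^ 2 → NoZ c₀ g →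
    ∀ y k : ℕ, 1 ≤ k → (k : ℝ) ≤ t → 0 < y → δ * (u ^ 32 * t ^ 2) ≤ Real.log y → Real.log (y + 1 : ℕ) ≤ u ^ 32 * t ^ 2 + 1 →
    (((admissibleSets y k).filter (fun A => ¬ HasPrimes y A)).card : ℝ) ≤ (k / t) * ((admissibleSets y k).card : ℝ) := by
  obtain ⟨c, C, l₀, K, hc, hc1, hC, hstep⟩ := final_step hc₀ hc₀1
  set Z : ℝ := c * δ / 2 with hZ
  have hZ0 : 0 < Z := by positivity
  refine ⟨max (max (10 ^ 6) l₀) (max (((K : ℝ) + 1 + 4 * C) / Z) (max ((K : ℝ) + 1 + 4 * C) (101 / δ))), ?_, ?_⟩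
  · exact (by norm_num : (1 : ℝ) ≤ 10 ^ 6).trans ((le_max_left _ _).trans (le_max_left _ _))
  intro u t g hU ht hlog hg1 hg2 hno y k hk1 hkt hy hly hly1
  have hu6 : 10 ^ 6 ≤ u := ((le_max_left _ _).trans (le_max_left _ _)).trans hU
  have hul₀ : l₀ ≤ u := ((le_max_right _ _).trans (le_max_left _ _)).trans hU
  have huZ : ((K : ℝ) + 1 + 4 * C) / Z ≤ u := ((le_max_left _ _).trans (le_max_right _ _)).trans hU
  have huK : (K : ℝ) + 1 + 4 * C ≤ u := ((le_max_left _ _).trans ((le_max_right _ _).trans (le_max_right _ _))).trans hU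
  have huδ : 101 / δ ≤ u := ((le_max_right _ _).trans ((le_max_right _ _).trans (le_max_right _ _))).trans hU
  rw [div_le_iff₀ hZ0] at huZ
  rw [div_le_iff₀ hδ] at huδ
  have hu0 : 0 < u := by linarith
  have hu1 : 1 ≤ u := by linarith
  have ht0 : 0 < t := by linarith
  have hpw : ∀ n : ℕ, 1 ≤ u ^ n := fun n => one_le_pow₀ hu1
  have hpw2 : ∀ m n : ℕ, m ≤ n → u ^ m ≤ u ^ n := fun m n h => pow_le_pow_right₀ hu1 h
  have htt : t ≤ t ^ 2 := le_self_pow₀ ht (by norm_num)
  have ht2 : 1 ≤ t ^ 2 := one_le_pow₀ ht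
  have hu18t : 1 ≤ u ^ 18 * t := one_le_mul_of_one_le_of_one_le (hpw 18) ht
  have hug : u ≤ g := by
    have h1 : u ≤ u ^ 18 := le_self_pow₀ hu1 (by norm_num)
    have h2 : u ^ 18 ≤ u ^ 18 * t := le_mul_of_one_le_right (by positivity) ht
    linarith
  have hg0 : 0 < g := by linarith
  set L : ℝ := u ^ 32 * t ^ 2 with hL
  have hgL : g ≤ L := by
    refine hg2.trans ?_
    rw [hL]
    exact mul_le_mul_of_nonneg_right (hpw2 27 32 (by norm_num)) (by positivity)
  have hL1 : 1 ≤ L := one_le_mul_of_one_le_of_one_le (hpw 32) ht2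
  have hL0 : 0 < L := by linarith
  set η : ℝ := 1 / (u ^ 17 * t) with hη
  have hη0 : 0 < η := by positivity
  have hk0 : (0 : ℝ) ≤ k := Nat.cast_nonneg _
  have hk1' : (1 : ℝ) ≤ k := by exact_mod_cast hk1
  have hy0 : (0 : ℝ) < y := by exact_mod_cast hy
  have hu17 : 10 ^ 6 ≤ u ^ 17 * t := by
    have h1 : u ≤ u ^ 17 := le_self_pow₀ hu1 (by norm_num)
    have h2 : u ^ 17 ≤ u ^ 17 * t := le_mul_of_one_le_right (by positivity) ht
    linarith
  have hmain := hstep g (hul₀.trans hug) hno y k η hη0 ?_ ?_ ?_ ?_ ?_ ?_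
  · refine hmain.trans (mul_le_mul_of_nonneg_right ?_ (Nat.cast_nonneg _))
    have hkt0 : 0 ≤ (k : ℝ) / t := by positivity
    -- first term
    have h1 : 16 * (k : ℝ) * η ≤ 1 / 4 * (k / t) := by
      have e : 16 * (k : ℝ) * η = (16 / u ^ 17) * (k / t) := by rw [hη]; field_simp
      rw [e]
      apply mul_le_mul_of_nonneg_right _ hkt0
      rw [div_le_iff₀ (by positivity)]
      have : u ≤ u ^ 17 := le_self_pow₀ hu1 (by norm_num)
      linarith
    have h2 : 16000 * (k : ℝ) / g ≤ 1 / 4 * (k / t) := by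
      have e : 16000 * (k : ℝ) / (u ^ 18 * t) = (16000 / u ^ 18) * (k / t) := by field_simp
      calc 16000 * (k : ℝ) / g ≤ 16000 * (k : ℝ) / (u ^ 18 * t) := div_le_div_of_nonneg_left (by positivity) (by positivity) hg1
        _ = (16000 / u ^ 18) * (k / t) := e
        _ ≤ 1 / 4 * (k / t) := by
            apply mul_le_mul_of_nonneg_right _ hkt0
            rw [div_le_iff₀ (by positivity)]
            have : u ≤ u ^ 18 := le_self_pow₀ hu1 (by norm_num)
            linarith
    have hgK : g ^ K ≤ Real.exp (K * u) := by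
      calc g ^ K ≤ L ^ K := pow_le_pow_left₀ hg0.le hgL K
        _ = Real.exp (K * Real.log L) := by rw [Real.exp_nat_mul, Real.exp_log hL0]
        _ ≤ Real.exp (K * u) := by
            apply Real.exp_le_exp.2
            exact mul_le_mul_of_nonneg_left hlog (Nat.cast_nonneg _)
    have hexpu : Real.exp (-u) ≤ k / t := by
      have h5 : t ≤ Real.exp u := by
        calc t ≤ t ^ 2 := htt
          _ ≤ u ^ 32 * t ^ 2 := le_mul_of_one_le_left (by positivity) (hpw 32)
          _ = Real.exp (Real.log L) := (Real.exp_log hL0).symm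
          _ ≤ Real.exp u := Real.exp_le_exp.2 hlog
      rw [le_div_iff₀ ht0]
      calc Real.exp (-u) * t ≤ Real.exp (-u) * Real.exp u := mul_le_mul_of_nonneg_left h5 (Real.exp_pos _).le
        _ = 1 := by rw [← Real.exp_add]; simp
        _ ≤ k := hk1'
    have h3 : 4 * C * g ^ K * Real.exp (-(c * Real.log y / (2 * g))) ≤ k / t := by
      refine le_trans ?_ hexpu
      have h6 : Z * u ^ 5 ≤ c * Real.log y / (2 * g) := by
        rw [le_div_iff₀ (by positivity)]
        have h7 : Z * u ^ 5 * (2 * g) ≤ Z * u ^ 5 * (2 * (u ^ 27 * t ^ 2)) := by gcongr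
        have h8 : Z * u ^ 5 * (2 * (u ^ 27 * t ^ 2)) = c * (δ * L) := by rw [hZ, hL]; ring
        rw [h8] at h7
        exact h7.trans (mul_le_mul_of_nonneg_left hly hc.le)
      have h7 : (K + 1) * u + 4 * C ≤ Z * u ^ 5 := by
        have h8 : u ≤ u ^ 4 := le_self_pow₀ hu1 (by norm_num)
        have h9 : (K + 1 + 4 * C) * u ≤ (Z * u) * u ^ 4 := by
          have : (K + 1 + 4 * C) ≤ Z * u := by linarith
          exact mul_le_mul this h8 hu0.le (by positivity)
        have h10 : (Z * u) * u ^ 4 = Z * u ^ 5 := by ring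
        have h11 : 4 * C ≤ 4 * C * u := le_mul_of_one_le_right (by positivity) hu1
        linarith
      calc 4 * C * g ^ K * Real.exp (-(c * Real.log y / (2 * g))) ≤ 4 * C * Real.exp (K * u) * Real.exp (-(Z * u ^ 5)) := by
            apply mul_le_mul _ (Real.exp_le_exp.2 (by linarith)) (Real.exp_pos _).le (by positivity)
            exact mul_le_mul_of_nonneg_left hgK (by positivity)
        _ ≤ Real.exp (-u) := exp_small h7
    have h4 : 4 * C * g ^ K * Real.exp (-(g / 100)) ≤ k / t := by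
      refine le_trans ?_ hexpu
      have h7 : (K + 1) * u + 4 * C ≤ g / 100 := by
        have h8 : u ^ 3 ≤ g := by
          have h1 : u ^ 3 ≤ u ^ 18 := hpw2 3 18 (by norm_num)
          have h2 : u ^ 18 ≤ u ^ 18 * t := le_mul_of_one_le_right (by positivity) ht
          linarith
        have h9 : (K + 1 + 4 * C) * u ≤ u * u := mul_le_mul_of_nonneg_right huK hu0.le
        have h11 : 4 * C ≤ 4 * C * u := le_mul_of_one_le_right (by positivity) hu1
        have h12 : 100 * (u * u) ≤ u ^ 3 := by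
          have : u ^ 3 = u * (u * u) := by ring
          rw [this]
          exact mul_le_mul_of_nonneg_right (by linarith) (by positivity)
        rw [le_div_iff₀ (by norm_num)]
        linarith
      calc 4 * C * g ^ K * Real.exp (-(g / 100)) ≤ 4 * C * Real.exp (K * u) * Real.exp (-(g / 100)) := by gcongr
        _ ≤ Real.exp (-u) := exp_small h7
    have h5 : C * g ^ K * (Real.exp (-(c * Real.log y / (2 * g))) + Real.exp (-(g / 100))) ≤ 1 / 2 * (k / t) := by
      have e : C * g ^ K * (Real.exp (-(c * Real.log y / (2 * g))) + Real.exp (-(g / 100))) =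
        1 / 4 * (4 * C * g ^ K * Real.exp (-(c * Real.log y / (2 * g)))) + 1 / 4 * (4 * C * g ^ K * Real.exp (-(g / 100))) := by ring
      rw [e]
      linarith
    linarith
  · -- η ≤ 1 / 2
    rw [hη, div_le_iff₀ (by positivity)]
    linarith
  · have h1 : 8 / η = 8 * (u ^ 17 * t) := by rw [hη]; field_simp
    rw [h1]
    have h2 : (8000 + 2000) * (u ^ 17 * t) ≤ u ^ 18 * t := by
      have e : u ^ 18 * t = u * (u ^ 17 * t) := by ring
      rw [e]
      exact mul_le_mul_of_nonneg_right (by linarith) (by positivity)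
    rw [le_div_iff₀ (by norm_num)]
    linarith
  · have h1 : 4 * (k : ℝ) * η ≤ 4 * t * η := by gcongr
    have h2 : 4 * t * η = 4 / u ^ 17 := by rw [hη]; field_simp
    have h3 : 4 / u ^ 17 ≤ 1 := by
      rw [div_le_iff₀ (by positivity)]
      have : u ≤ u ^ 17 := le_self_pow₀ hu1 (by norm_num)
      linarith
    linarith
  · have h1 : Real.log (2 * g ^ 2) ≤ 3 * u := by
      rw [Real.log_mul (by norm_num) (by positivity), Real.log_pow]
      have h2 : Real.log g ≤ u := (Real.log_le_log hg0 hgL).trans hlog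
      have h3 := Real.log_two_lt_d9
      push_cast
      linarith
    have hg1' : 1 ≤ g := by linarith
    have h3 : 0 ≤ Real.log (2 * g ^ 2) := Real.log_nonneg (by nlinarith only [hg1'])
    have h4 : (k : ℝ) * Real.log (2 * g ^ 2) ≤ t * (3 * u) := mul_le_mul hkt h1 h3 ht0.le
    have h5 : 3000 * (t * u) ≤ u ^ 18 * t := by
      have e : u ^ 18 * t = u ^ 17 * (t * u) := by ring
      rw [e]
      apply mul_le_mul_of_nonneg_right _ (by positivity)
      have : u ≤ u ^ 17 := le_self_pow₀ hu1 (by norm_num)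
      linarith
    rw [le_div_iff₀ (by norm_num)]
    linarith
  · rw [← Real.le_log_iff_exp_le hy0]
    refine le_trans ?_ hly
    have h1 : 101 * g ≤ 101 * (u ^ 27 * t ^ 2) := by linarith
    refine h1.trans ?_
    have e : δ * L = (u * δ * u ^ 4) * (u ^ 27 * t ^ 2) := by rw [hL]; ring
    rw [e]
    apply mul_le_mul_of_nonneg_right _ (by positivity)
    have : u * δ ≤ u * δ * u ^ 4 := le_mul_of_one_le_right (by positivity) (hpw 4)
    linarith
  · refine hly1.trans ?_
    have h1 : (u ^ 18 * t) ^ 2 ≤ g ^ 2 := pow_le_pow_left₀ (by positivity) hg1 2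
    have e : (u ^ 18 * t) ^ 2 = u ^ 4 * L := by rw [hL]; ring
    rw [e] at h1
    have h2 : 2 * L ≤ u ^ 4 * L := by
      apply mul_le_mul_of_nonneg_right _ hL0.le
      have : u ≤ u ^ 4 := le_self_pow₀ hu1 (by norm_num)
      linarith
    linarith

end Pool.Agent.J4H81.PT
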