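import Pool.Agent.J4H81.PT.XGe

/-!
# Growing prime tuples, all x: the exceptional scale (helper81)
-/

set_option autoImplicit false

namespace Pool.Agent.J4H81.PT

open Finset MeasureTheory Filter
open DirichletCharacter
open Pool.Agent.J4H81.PT.ZF (NoZ ExZ b_lower)
open Pool.Agent.J4H81.PT.DH (Lm dh_ZR)

/-- the width of the region without zeros -/
theorem width {b l δ u t : ℝ} (hb : 0 < b) (hu : 10 ^ 8 ≤ u) (ht : 1 ≤ t) (hδu : 10 ^ 8 ≤ δ * u) (hδ : 0 < δ)
    (hl : l = u ^ 24 * t ^ 2) (hlog : Real.log l ≤ u) (hlog2 : 3 * 10 ^ 8 ≤ Real.log l) (hbl : b ≤ 1 / (l * Real.log l ^ 2))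
    (hB : -Real.log b ≤ 5 * (u ^ 18 * t)) :
    ∃ d : ℝ, 1 / l ^ 2 ≤ d ∧ d ≤ 1 / 8 ∧ d ≤ 1 / u ^ 8 ∧ 32 * Lm l * b * Real.exp (d * Lm l) < 1 ∧
      u ^ 4 - 3 * Real.log b ≤ d * (δ * (u ^ 32 * t ^ 2)) / 4 := by
  have hu0 : 0 < u := by linarith
  have hu1 : 1 ≤ u := by linarith
  have ht0 : 0 < t := by linarith
  have hpw : ∀ n : ℕ, 1 ≤ u ^ n := fun n => one_le_pow₀ hu1
  have hpw2 : ∀ m n : ℕ, m ≤ n → u ^ m ≤ u ^ n := fun m n h => pow_le_pow_right₀ hu1 h
  have ht2 : 1 ≤ t ^ 2 := one_le_pow₀ ht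
  have htt : t ≤ t ^ 2 := le_self_pow₀ ht (by norm_num)
  have hl24 : u ^ 24 ≤ l := by rw [hl]; exact le_mul_of_one_le_right (by positivity) ht2
  have hul : u ≤ l := (le_self_pow₀ hu1 (by norm_num)).trans hl24
  have hl0 : 0 < l := by linarith
  have hl1 : 1 ≤ l := by linarith
  set g : ℝ := Real.log l with hg
  have hg0 : 0 < g := by linarith
  set B : ℝ := -Real.log b with hBdef
  -- the size of Lm
  have hLm : Lm l ≤ 28 * 10 ^ 5 * (l * g) := by
    unfold Lm
    have h1 : Real.log (14 * l) ≤ 3 + g := by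
      rw [Real.log_mul (by norm_num) hl0.ne']
      have h2 : Real.log 14 ≤ 3 := by
        rw [Real.log_le_iff_le_exp (by norm_num)]
        have h4 : Real.exp 3 = Real.exp 1 ^ 3 := by rw [← Real.exp_nat_mul]; norm_num
        rw [h4]
        have h5 : (2.7 : ℝ) ^ 3 ≤ Real.exp 1 ^ 3 := pow_le_pow_left₀ (by norm_num) (by have := Real.exp_one_gt_d9; linarith) 3
        refine le_trans ?_ h5
        norm_num
      linarith
    have h3 : 1 + Real.log (14 * l) ≤ 2 * g := by linarith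
    calc 10 ^ 5 * (14 * l) * (1 + Real.log (14 * l)) ≤ 10 ^ 5 * (14 * l) * (2 * g) := mul_le_mul_of_nonneg_left h3 (by positivity)
      _ = _ := by ring
  have hLm0 : 0 < Lm l := by
    unfold Lm
    have : 0 ≤ Real.log (14 * l) := Real.log_nonneg (by linarith)
    positivity
  set Λ : ℝ := Lm l with hΛ
  have h32 : 32 * Λ * b ≤ 1 / 3 := by
    have h1 : 32 * Λ * b ≤ 32 * (28 * 10 ^ 5 * (l * g)) * (1 / (l * g ^ 2)) := by gcongr
    have h2 : 32 * (28 * 10 ^ 5 * (l * g)) * (1 / (l * g ^ 2)) = 32 * (28 * 10 ^ 5) / g := by field_simp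
    rw [h2] at h1
    refine h1.trans ?_
    rw [div_le_iff₀ hg0]
    linarith
  set D : ℝ := -Real.log (32 * Λ * b) with hD
  have h32p : 0 < 32 * Λ * b := by positivity
  have hD1 : 1 ≤ D := by
    have h1 : Real.log (32 * Λ * b) ≤ Real.log (1 / 3) := Real.log_le_log h32p h32
    have h2 : Real.log (1 / 3) = -Real.log 3 := by rw [one_div, Real.log_inv]
    have h3 : 1 ≤ Real.log 3 := by
      rw [Real.le_log_iff_exp_le (by norm_num)]
      have := Real.exp_one_lt_d9
      linarith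
    linarith
  have hDe : 32 * Λ * b = Real.exp (-D) := by rw [hD, neg_neg, Real.exp_log h32p]
  have hDB : D = B - Real.log (32 * Λ) := by
    rw [hD, Real.log_mul (by positivity) hb.ne', hBdef]
    ring
  have ha : Real.log (32 * Λ) ≤ 2 * g := by
    have h1 : 32 * Λ ≤ l ^ 2 := by
      have h2 : 32 * (28 * 10 ^ 5 * (l * g)) ≤ l * l := by
        have h3 : g ≤ u := hlog
        have h4 : 32 * (28 * 10 ^ 5) * g ≤ l := by
          have h5 : 32 * (28 * 10 ^ 5) * g ≤ u * u := by
            have h6 : (32 * (28 * 10 ^ 5) : ℝ) ≤ u := by linarith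
            exact mul_le_mul h6 h3 hg0.le hu0.le
          have h7 : u * u = u ^ 2 := by ring
          rw [h7] at h5
          exact h5.trans ((hpw2 2 24 (by norm_num)).trans hl24)
        calc 32 * (28 * 10 ^ 5 * (l * g)) = l * (32 * (28 * 10 ^ 5) * g) := by ring
          _ ≤ l * l := mul_le_mul_of_nonneg_left h4 hl0.le
      rw [sq]
      linarith
    have h2 := Real.log_le_log (by positivity) h1
    rw [Real.log_pow] at h2
    push_cast at h2
    exact h2
  have hDg : B / (4 * g) ≤ D := by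
    rw [div_le_iff₀ (by positivity)]
    rcases le_or_gt (4 * g) B with h1 | h1
    · have h2 : B / 2 ≤ D := by linarith
      have h3 : B / 2 * (4 * g) ≤ D * (4 * g) := mul_le_mul_of_nonneg_right h2 (by positivity)
      have h4 : B ≤ B / 2 * (4 * g) := by
        have h5 : B / 2 * (4 * g) = B * (2 * g) := by ring
        rw [h5]
        exact le_mul_of_one_le_right (by linarith) (by linarith)
      linarith
    · have h3 : 1 * (4 * g) ≤ D * (4 * g) := mul_le_mul_of_nonneg_right hD1 (by positivity)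
      linarith
  have hB1 : 1 ≤ B := by
    have h1 : Real.log b ≤ Real.log (1 / (l * g ^ 2)) := Real.log_le_log hb hbl
    rw [one_div, Real.log_inv, Real.log_mul hl0.ne' (by positivity)] at h1
    have h2 : 0 ≤ Real.log (g ^ 2) := Real.log_nonneg (one_le_pow₀ (by linarith))
    rw [← hg] at h1
    linarith
  set d : ℝ := min (D / (2 * Λ)) (1 / u ^ 8) with hd
  have hdΛ : d * Λ ≤ D / 2 := by
    have h1 : d * Λ ≤ D / (2 * Λ) * Λ := mul_le_mul_of_nonneg_right (min_le_left _ _) hLm0.le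
    have h2 : D / (2 * Λ) * Λ = D / 2 := by field_simp
    linarith
  refine ⟨d, ?_, ?_, min_le_right _ _, ?_, ?_⟩
  · apply le_min
    · rw [div_le_div_iff₀ (by positivity) (by positivity), one_mul]
      have h1 : 2 * Λ ≤ l ^ 2 := by
        have h2 : 32 * Λ ≤ l ^ 2 := by
          have h3 := Real.exp_le_exp.2 ha
          rw [Real.exp_log (by positivity)] at h3
          have h4 : Real.exp (2 * g) = l ^ 2 := by
            rw [hg, two_mul, Real.exp_add, Real.exp_log hl0, sq]
          rwa [h4] at h3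
        linarith
      calc 2 * Λ ≤ l ^ 2 := h1
        _ ≤ D * l ^ 2 := le_mul_of_one_le_left (by positivity) hD1
    · apply one_div_le_one_div_of_le (by positivity)
      calc u ^ 8 ≤ u ^ 48 := hpw2 8 48 (by norm_num)
        _ = (u ^ 24) ^ 2 := by ring
        _ ≤ l ^ 2 := pow_le_pow_left₀ (by positivity) hl24 2
  · refine (min_le_right _ _).trans ?_
    apply one_div_le_one_div_of_le (by norm_num)
    have : u ≤ u ^ 8 := le_self_pow₀ hu1 (by norm_num)
    linarith
  · rw [hDe, ← Real.exp_add, Real.exp_lt_one_iff]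
    linarith
  · have e3 : u ^ 4 - 3 * Real.log b = u ^ 4 + 3 * B := by rw [hBdef]; ring
    rw [e3]
    rcases min_choice (D / (2 * Λ)) (1 / u ^ 8) with h1 | h1
    · rw [hd, h1]
      have h2 : Λ ≤ 28 * 10 ^ 5 * (u ^ 25 * t ^ 2) := by
        refine hLm.trans ?_
        have h3 : l * g ≤ u ^ 25 * t ^ 2 := by
          rw [hl]
          calc u ^ 24 * t ^ 2 * g ≤ u ^ 24 * t ^ 2 * u := mul_le_mul_of_nonneg_left hlog (by positivity)
            _ = _ := by ring
        linarith
      have h4 : B / (4 * u) ≤ D := by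
        refine le_trans ?_ hDg
        exact div_le_div_of_nonneg_left (by linarith) (by positivity) (by linarith)
      have h5 : B / (4 * u) / (2 * (28 * 10 ^ 5 * (u ^ 25 * t ^ 2))) ≤ D / (2 * Λ) := by
        apply div_le_div₀ (by linarith) h4 (by positivity) (by linarith)
      have h6 : B / (4 * u) / (2 * (28 * 10 ^ 5 * (u ^ 25 * t ^ 2))) * (δ * (u ^ 32 * t ^ 2)) / 4 = B * (δ * u) * u ^ 5 / (4 * 4 * (2 * (28 * 10 ^ 5))) := by
        field_simp
      have h7 : B / (4 * u) / (2 * (28 * 10 ^ 5 * (u ^ 25 * t ^ 2))) * (δ * (u ^ 32 * t ^ 2)) / 4 ≤ D / (2 * Λ) * (δ * (u ^ 32 * t ^ 2)) / 4 := by gcongr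
      refine le_trans ?_ h7
      rw [h6, le_div_iff₀ (by norm_num)]
      have h8 : B * 10 ^ 8 * u ^ 5 ≤ B * (δ * u) * u ^ 5 := by gcongr
      have h9 : u ^ 4 + 3 * B ≤ B * u ^ 5 := by
        have h10 : 4 * u ^ 4 ≤ u ^ 5 := by
          have : u ^ 5 = u * u ^ 4 := by ring
          rw [this]
          exact mul_le_mul_of_nonneg_right (by linarith) (by positivity)
        have h11 : u ^ 4 ≤ B * u ^ 4 := le_mul_of_one_le_left (by positivity) hB1
        have h12 : B ≤ B * u ^ 4 := le_mul_of_one_le_right (by linarith) (hpw 4)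
        have h13 : B * (4 * u ^ 4) ≤ B * u ^ 5 := mul_le_mul_of_nonneg_left h10 (by linarith)
        linarith
      have h14 : 0 ≤ B * u ^ 5 := by positivity
      linarith
    · rw [hd, h1]
      have e : 1 / u ^ 8 * (δ * (u ^ 32 * t ^ 2)) / 4 = (δ * u) * (u ^ 23 * t ^ 2) / 4 := by field_simp
      rw [e, le_div_iff₀ (by norm_num)]
      have h2 : 10 ^ 8 * (u ^ 23 * t ^ 2) ≤ (δ * u) * (u ^ 23 * t ^ 2) := mul_le_mul_of_nonneg_right hδu (by positivity)
      have h3 : u ^ 18 * t ≤ u ^ 23 * t ^ 2 := mul_le_mul (hpw2 18 23 (by norm_num)) htt ht0.le (by positivity)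
      have h4 : u ^ 4 ≤ u ^ 23 * t ^ 2 := by
        have h5 := hpw2 4 23 (by norm_num)
        have h6 : u ^ 23 ≤ u ^ 23 * t ^ 2 := le_mul_of_one_le_right (by positivity) ht2
        linarith
      linarith

open Classical in
theorem exc_case {δ : ℝ} (hδ : 0 < δ) : ∃ U : ℝ, 1 ≤ U ∧
    ∀ u t : ℝ, U ≤ u → 1 ≤ t → Real.log (u ^ 32 * t ^ 2) ≤ u →
    ∀ (q : ℕ) [NeZero q] (χ : DirichletCharacter ℂ q) (β : ℝ), ExZ q χ β → Real.log q ≤ 2 * (u ^ 18 * t) →
    1 - β ≤ 1 / (u ^ 24 * t ^ 2 * Real.log (u ^ 24 * t ^ 2) ^ 2) →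
    ∀ y k : ℕ, 1 ≤ k → (k : ℝ) ≤ t → 0 < y → δ * (u ^ 32 * t ^ 2) ≤ Real.log y → Real.log (y + 1 : ℕ) ≤ u ^ 32 * t ^ 2 + 1 →
    (((admissibleSets y k).filter (fun A => ¬ HasPrimes y A)).card : ℝ) ≤ (k / t) * ((admissibleSets y k).card : ℝ) := by
  obtain ⟨C, l₀, K, hC, hstep⟩ := exc_step
  obtain ⟨c₀, hc₀, hc₀1, hblow⟩ := b_lower
  refine ⟨max (max (Real.exp (10 ^ 8)) l₀) (max ((K : ℝ) + 1 + 4 * C) (max (10 ^ 8 / δ) (-Real.log c₀))), ?_, ?_⟩
  · refine le_trans ?_ ((le_max_left _ _).trans (le_max_left _ _))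
    exact Real.one_le_exp (by norm_num)
  intro u t hU ht hlogL q _ χ β hex hq hβ y k hk1 hkt hy hly hly1
  have huE : Real.exp (10 ^ 8) ≤ u := ((le_max_left _ _).trans (le_max_left _ _)).trans hU
  have hul₀ : l₀ ≤ u := ((le_max_right _ _).trans (le_max_left _ _)).trans hU
  have huK : (K : ℝ) + 1 + 4 * C ≤ u := ((le_max_left _ _).trans (le_max_right _ _)).trans hU
  have huδ : 10 ^ 8 / δ ≤ u := ((le_max_left _ _).trans ((le_max_right _ _).trans (le_max_right _ _))).trans hU
  have huc : -Real.log c₀ ≤ u := ((le_max_right _ _).trans ((le_max_right _ _).trans (le_max_right _ _))).trans hU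
  rw [div_le_iff₀ hδ, mul_comm] at huδ
  have hu8 : 10 ^ 8 ≤ u := by
    have := Real.add_one_le_exp (10 ^ 8 : ℝ)
    linarith
  have hu0 : 0 < u := by linarith
  have hu1 : 1 ≤ u := by linarith
  have ht0 : 0 < t := by linarith
  have hpw : ∀ n : ℕ, 1 ≤ u ^ n := fun n => one_le_pow₀ hu1
  have hpw2 : ∀ m n : ℕ, m ≤ n → u ^ m ≤ u ^ n := fun m n h => pow_le_pow_right₀ hu1 h
  have htt : t ≤ t ^ 2 := le_self_pow₀ ht (by norm_num)
  have ht2 : 1 ≤ t ^ 2 := one_le_pow₀ ht
  obtain ⟨hp, hχ1, hχ2, hβ1, hz⟩ := hex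
  set b : ℝ := 1 - β with hb
  have hb0 : 0 < b := by linarith
  have hzb : LFunction χ ((1 - b : ℝ) : ℂ) = 0 := by
    have e : 1 - b = β := by rw [hb]; ring
    rw [e]; exact hz
  set l : ℝ := u ^ 24 * t ^ 2 with hl
  have hl24 : u ^ 24 ≤ l := by rw [hl]; exact le_mul_of_one_le_right (by positivity) ht2
  have hul : u ≤ l := (le_self_pow₀ hu1 (by norm_num)).trans hl24
  have hl0 : 0 < l := by linarith
  have hl1 : 1 ≤ l := by linarith
  set L : ℝ := u ^ 32 * t ^ 2 with hL
  have hlL : l ≤ L := by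
    rw [hl, hL]
    exact mul_le_mul_of_nonneg_right (hpw2 24 32 (by norm_num)) (by positivity)
  have hL1 : 1 ≤ L := hl1.trans hlL
  have hL0 : 0 < L := by linarith
  have hlog : Real.log l ≤ u := (Real.log_le_log hl0 hlL).trans hlogL
  have hlog2 : 3 * 10 ^ 8 ≤ Real.log l := by
    have h1 : Real.log (u ^ 24) ≤ Real.log l := Real.log_le_log (by positivity) hl24
    rw [Real.log_pow] at h1
    have h2 : 10 ^ 8 ≤ Real.log u := by
      rw [← Real.log_exp (10 ^ 8)]
      exact Real.log_le_log (Real.exp_pos _) huE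
    push_cast at h1
    linarith
  have hb8 : b ≤ 1 / 8 := by
    refine hβ.trans ?_
    apply one_div_le_one_div_of_le (by norm_num)
    have h1 : 1 ≤ Real.log l ^ 2 := one_le_pow₀ (by linarith)
    have h2 : l ≤ l * Real.log l ^ 2 := le_mul_of_one_le_right hl0.le h1
    linarith
  have hq1 : (1 : ℝ) ≤ q := by exact_mod_cast Nat.one_le_iff_ne_zero.2 (NeZero.ne q)
  have hq0 : (0 : ℝ) < q := by linarith
  have hu18t : 1 ≤ u ^ 18 * t := one_le_mul_of_one_le_of_one_le (hpw 18) ht
  -- the lower bound for b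
  have hB : -Real.log b ≤ 5 * (u ^ 18 * t) := by
    have h1 := hblow q χ b hp hχ2 hχ1 hb0 hb8 hzb
    have h2 := Real.log_le_log (by positivity) h1
    rw [Real.log_div hc₀.ne' (by positivity), Real.log_pow] at h2
    push_cast at h2
    have h3 : u ≤ u ^ 18 * t := by
      have h4 : u ≤ u ^ 18 := le_self_pow₀ hu1 (by norm_num)
      have h5 : u ^ 18 ≤ u ^ 18 * t := le_mul_of_one_le_right (by positivity) ht
      linarith
    linarith
  obtain ⟨d, hd1, hd8, hdu, hdΛ, hdB⟩ := width hb0 hu8 ht huδ hδ hl hlog hlog2 hβ hB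
  have hd0 : 0 < d := lt_of_lt_of_le (by positivity) hd1
  have h5m : 5 * (u ^ 18 * t) ≤ l / 20000 := by
    rw [le_div_iff₀ (by norm_num), hl]
    have e : u ^ 24 * t ^ 2 = (u ^ 6 * t) * (u ^ 18 * t) := by ring
    rw [e]
    have h1 : 5 * (u ^ 18 * t) * 20000 = 100000 * (u ^ 18 * t) := by ring
    rw [h1]
    apply mul_le_mul_of_nonneg_right _ (by positivity)
    have h4 : u ≤ u ^ 6 := le_self_pow₀ hu1 (by norm_num)
    have h5 : u ^ 6 ≤ u ^ 6 * t := le_mul_of_one_le_right (by positivity) ht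
    linarith
  have hlogq : Real.log q ≤ l := by
    have : 0 ≤ l := hl0.le
    linarith
  have hZR := dh_ZR (by linarith : (8 : ℝ) ≤ l) hχ1 hχ2 hp hb0 hb8 hzb hlogq hd8 hdΛ
  set η : ℝ := 1 / (u ^ 17 * t) with hη
  have hη0 : 0 < η := by positivity
  have hk0 : (0 : ℝ) ≤ k := Nat.cast_nonneg _
  have hk1' : (1 : ℝ) ≤ k := by exact_mod_cast hk1
  have hy0 : (0 : ℝ) < y := by exact_mod_cast hy
  have hu17 : 10 ^ 8 ≤ u ^ 17 * t := by
    have h1 : u ≤ u ^ 17 := le_self_pow₀ hu1 (by norm_num)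
    have h2 : u ^ 17 ≤ u ^ 17 * t := le_mul_of_one_le_right (by positivity) ht
    linarith
  have hmain := hstep l (hul₀.trans hul) q χ b d hχ2 hp hχ1 (by
      rw [← Real.log_le_iff_le_exp hq0]
      linarith) hb0 hb8 (by
      rw [← Real.le_log_iff_exp_le hb0]
      linarith) hzb hd1 hd8 hZR y k η (5 * (u ^ 18 * t)) hη0 ?_ ?_ ?_ ?_ ?_ (by positivity) ?_ ?_ ?_ ?_
  · refine hmain.trans (mul_le_mul_of_nonneg_right ?_ (Nat.cast_nonneg _))
    have hkt0 : 0 ≤ (k : ℝ) / t := by positivity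
    -- first term
    have h1 : 16 * (k : ℝ) * η ≤ 1 / 4 * (k / t) := by
      have e : 16 * (k : ℝ) * η = (16 / u ^ 17) * (k / t) := by rw [hη]; field_simp
      rw [e]
      apply mul_le_mul_of_nonneg_right _ hkt0
      rw [div_le_iff₀ (by positivity)]
      have : u ≤ u ^ 17 := le_self_pow₀ hu1 (by norm_num)
      linarith
    have h2 : 16000 * (k : ℝ) / l ≤ 1 / 4 * (k / t) := by
      have e : 16000 * (k : ℝ) / (u ^ 24 * t) = (16000 / u ^ 24) * (k / t) := by field_simp
      have h3 : u ^ 24 * t ≤ l := by rw [hl]; exact mul_le_mul_of_nonneg_left htt (by positivity)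
      calc 16000 * (k : ℝ) / l ≤ 16000 * (k : ℝ) / (u ^ 24 * t) := div_le_div_of_nonneg_left (by positivity) (by positivity) h3
        _ = (16000 / u ^ 24) * (k / t) := e
        _ ≤ 1 / 4 * (k / t) := by
            apply mul_le_mul_of_nonneg_right _ hkt0
            rw [div_le_iff₀ (by positivity)]
            have : u ≤ u ^ 24 := le_self_pow₀ hu1 (by norm_num)
            linarith
    have hlK : l ^ K ≤ Real.exp (K * u) := by
      calc l ^ K = Real.exp (K * Real.log l) := by rw [Real.exp_nat_mul, Real.exp_log hl0]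
        _ ≤ Real.exp (K * u) := by
            apply Real.exp_le_exp.2
            exact mul_le_mul_of_nonneg_left hlog (Nat.cast_nonneg _)
    have hexpu : Real.exp (-u) ≤ k / t := by
      have h5 : t ≤ Real.exp u := by
        calc t ≤ t ^ 2 := htt
          _ ≤ u ^ 32 * t ^ 2 := le_mul_of_one_le_left (by positivity) (hpw 32)
          _ = Real.exp (Real.log L) := (Real.exp_log hL0).symm
          _ ≤ Real.exp u := Real.exp_le_exp.2 hlogL
      rw [le_div_iff₀ ht0]
      calc Real.exp (-u) * t ≤ Real.exp (-u) * Real.exp u := mul_le_mul_of_nonneg_left h5 (Real.exp_pos _).le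
        _ = 1 := by rw [← Real.exp_add]; simp
        _ ≤ k := hk1'
    have hb3 : 1 / b ^ 3 = Real.exp (-3 * Real.log b) := by
      have e : -3 * Real.log b = -(((3 : ℕ) : ℝ) * Real.log b) := by push_cast; ring
      rw [e, Real.exp_neg, Real.exp_nat_mul, Real.exp_log hb0, one_div]
    have h7 : (K + 1) * u + 4 * C ≤ u ^ 4 := by
      have h9 : (K + 1 + 4 * C) * u ≤ u * u := mul_le_mul_of_nonneg_right huK hu0.le
      have h11 : 4 * C ≤ 4 * C * u := le_mul_of_one_le_right (by positivity) hu1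
      have h12 : u * u ≤ u ^ 4 := by
        have : u * u = u ^ 2 := by ring
        rw [this]
        exact hpw2 2 4 (by norm_num)
      linarith
    have h3 : 1 / b ^ 3 * Real.exp (-(d * Real.log y / 4)) ≤ Real.exp (-u ^ 4) := by
      rw [hb3, ← Real.exp_add]
      apply Real.exp_le_exp.2
      have h4 : d * (δ * L) ≤ d * Real.log y := mul_le_mul_of_nonneg_left hly hd0.le
      linarith
    have h4 : 1 / b ^ 3 * Real.exp (-(l / 100)) ≤ Real.exp (-u ^ 4) := by
      rw [hb3, ← Real.exp_add]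
      apply Real.exp_le_exp.2
      have h5 : u ^ 4 ≤ u ^ 18 * t := by
        have h6 := hpw2 4 18 (by norm_num)
        have h8 : u ^ 18 ≤ u ^ 18 * t := le_mul_of_one_le_right (by positivity) ht
        linarith
      linarith
    have h5 : C * l ^ K / b ^ 3 * (Real.exp (-(d * Real.log y / 4)) + Real.exp (-(l / 100))) ≤ 1 / 2 * (k / t) := by
      have e : C * l ^ K / b ^ 3 * (Real.exp (-(d * Real.log y / 4)) + Real.exp (-(l / 100))) =
        C * l ^ K * (1 / b ^ 3 * Real.exp (-(d * Real.log y / 4)) + 1 / b ^ 3 * Real.exp (-(l / 100))) := by ring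
      rw [e]
      have h6 : C * l ^ K * (1 / b ^ 3 * Real.exp (-(d * Real.log y / 4)) + 1 / b ^ 3 * Real.exp (-(l / 100))) ≤
          C * Real.exp (K * u) * (Real.exp (-u ^ 4) + Real.exp (-u ^ 4)) := by gcongr
      have h8 := exp_small h7
      have h9 : C * Real.exp (K * u) * (Real.exp (-u ^ 4) + Real.exp (-u ^ 4)) = 1 / 2 * (4 * C * Real.exp (K * u) * Real.exp (-u ^ 4)) := by ring
      rw [h9] at h6
      linarith
    linarith
  · -- η ≤ 1 / 2
    rw [hη, div_le_iff₀ (by positivity)]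
    linarith
  · have h1 : 8 / η = 8 * (u ^ 17 * t) := by rw [hη]; field_simp
    rw [h1]
    have h2 : (8000 + 2000) * (u ^ 17 * t) ≤ l := by
      have e : l = (u ^ 7 * t) * (u ^ 17 * t) := by rw [hl]; ring
      rw [e]
      apply mul_le_mul_of_nonneg_right _ (by positivity)
      have h4 : u ≤ u ^ 7 := le_self_pow₀ hu1 (by norm_num)
      have h5 : u ^ 7 ≤ u ^ 7 * t := le_mul_of_one_le_right (by positivity) ht
      linarith
    rw [le_div_iff₀ (by norm_num)]
    linarith
  · have h1 : η * l = u ^ 7 * t := by rw [hη, hl]; field_simp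
    rw [h1]
    have h4 : u ≤ u ^ 7 := le_self_pow₀ hu1 (by norm_num)
    have h5 : u ^ 7 ≤ u ^ 7 * t := le_mul_of_one_le_right (by positivity) ht
    linarith
  · have h1 : 4 * (k : ℝ) * η ≤ 4 * t * η := by gcongr
    have h2 : 4 * t * η = 4 / u ^ 17 := by rw [hη]; field_simp
    have h3 : 4 / u ^ 17 ≤ 1 := by
      rw [div_le_iff₀ (by positivity)]
      have : u ≤ u ^ 17 := le_self_pow₀ hu1 (by norm_num)
      linarith
    linarith
  · rw [← Real.le_log_iff_exp_le hb0]
    linarith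
  · have h1 : Real.log (4 * l ^ 2) ≤ 4 * u := by
      rw [Real.log_mul (by norm_num) (by positivity), Real.log_pow]
      have h3 : Real.log 4 ≤ 4 := by
        have := Real.log_le_sub_one_of_pos (show (0 : ℝ) < 4 by norm_num)
        linarith
      push_cast
      linarith
    have h3 : 0 ≤ Real.log (4 * l ^ 2) := Real.log_nonneg (by nlinarith only [hl1])
    have h2 : Real.log (4 * l ^ 2) + 5 * (u ^ 18 * t) ≤ 6 * (u ^ 18 * t) := by
      have h4 : 4 * u ≤ u ^ 18 * t := by
        have h5 : u * u ≤ u ^ 18 := by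
          have : u * u = u ^ 2 := by ring
          rw [this]
          exact hpw2 2 18 (by norm_num)
        have h6 : 4 * u ≤ u * u := mul_le_mul_of_nonneg_right (by linarith) hu0.le
        have h8 : u ^ 18 ≤ u ^ 18 * t := le_mul_of_one_le_right (by positivity) ht
        linarith
      linarith
    have h4 : (k : ℝ) * (Real.log (4 * l ^ 2) + 5 * (u ^ 18 * t)) ≤ t * (6 * (u ^ 18 * t)) := mul_le_mul hkt h2 (by positivity) ht0.le
    refine h4.trans ?_
    rw [le_div_iff₀ (by norm_num), hl]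
    have e : u ^ 24 * t ^ 2 = u ^ 6 * (u ^ 18 * t ^ 2) := by ring
    rw [e]
    have e2 : t * (6 * (u ^ 18 * t)) * 1000 = 6000 * (u ^ 18 * t ^ 2) := by ring
    rw [e2]
    apply mul_le_mul_of_nonneg_right _ (by positivity)
    have : u ≤ u ^ 6 := le_self_pow₀ hu1 (by norm_num)
    linarith
  · rw [← Real.le_log_iff_exp_le hy0]
    refine le_trans ?_ hly
    have e : δ * L = (δ * u * u ^ 7) * l := by rw [hL, hl]; ring
    rw [e]
    apply mul_le_mul_of_nonneg_right _ hl0.le
    have : δ * u ≤ δ * u * u ^ 7 := le_mul_of_one_le_right (by positivity) (hpw 7)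
    linarith
  · refine hly1.trans ?_
    have e : l ^ 2 = (u ^ 16 * t ^ 2) * L := by rw [hL, hl]; ring
    rw [e]
    have h2 : 2 * L ≤ (u ^ 16 * t ^ 2) * L := by
      apply mul_le_mul_of_nonneg_right _ hL0.le
      have h4 : u ≤ u ^ 16 := le_self_pow₀ hu1 (by norm_num)
      have h5 : u ^ 16 ≤ u ^ 16 * t ^ 2 := le_mul_of_one_le_right (by positivity) ht2
      linarith
    linarith
  · have h1 : d * Real.log (y + 1 : ℕ) ≤ 1 / u ^ 8 * (L + 1) := by
      apply mul_le_mul hdu hly1 (Real.log_natCast_nonneg _) (by positivity)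
    refine h1.trans ?_
    have h2 : 1 / u ^ 8 * (L + 1) ≤ 1 / u ^ 8 * (2 * L) := mul_le_mul_of_nonneg_left (by linarith) (by positivity)
    refine h2.trans (le_of_eq ?_)
    rw [hL, hl]
    field_simp

end Pool.Agent.J4H81.PT
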