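import Pool.Agent.J4H81.PT.XGf

/-!
# Growing prime tuples: almost all admissible sets, all large x (helper81)
-/

set_option autoImplicit false

namespace Pool.Agent.J4H81.PT

open Finset MeasureTheory Filter
open Pool.Agent.J4H81.PT.ZF (NoZ ExZ scale_choice)

open Classical in
/-- **Main theorem for all large `x`.** -/
theorem main_all {δ : ℝ} (hδ : 0 < δ) (hδ1 : δ < 1 / 2) : ∃ x₀ : ℝ, 1 ≤ x₀ ∧
    ∀ x : ℝ, x₀ ≤ x → ∀ y : ℕ, x ^ δ ≤ y → (y : ℝ) ≤ x → ∀ k : ℕ, 1 ≤ k →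
      (((admissibleSets y k).filter (fun A => ¬ HasPrimes y A)).card : ℝ) ≤
        (k / Real.log x ^ (1 / 2 - δ)) * ((admissibleSets y k).card : ℝ) := by
  obtain ⟨c, l₀, hc, hc1, hl₀, hchoice⟩ := scale_choice
  obtain ⟨U₁, hU₁, hgood⟩ := good_case hc hc1 hδ
  obtain ⟨U₂, hU₂, hexc⟩ := exc_case hδ
  have hδ16 : 0 < δ / 16 := by linarith
  have hlog := (isLittleO_log_rpow_atTop hδ16).bound (show (0 : ℝ) < 1 by norm_num)
  have hev := ((tendsto_rpow_atTop hδ16).eventually (eventually_ge_atTop (max (max U₁ U₂) (max l₀ 2)))).and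
    (hlog.and (eventually_ge_atTop (1 : ℝ)))
  obtain ⟨L₁, hL₁⟩ := eventually_atTop.1 hev
  refine ⟨Real.exp (max L₁ 1), Real.one_le_exp ((zero_le_one).trans (le_max_right _ _)), ?_⟩
  intro x hx y hy1 hy2 k hk1
  have hx0 : 0 < x := lt_of_lt_of_le (Real.exp_pos _) hx
  have hLL : max L₁ 1 ≤ Real.log x := by
    rw [Real.le_log_iff_exp_le hx0]
    exact hx
  have hx1 : 1 ≤ x := by
    have : (1 : ℝ) ≤ Real.exp (max L₁ 1) := Real.one_le_exp ((zero_le_one).trans (le_max_right _ _))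
    linarith
  obtain ⟨hu, hlogu, hL1⟩ := hL₁ (Real.log x) ((le_max_left _ _).trans hLL)
  set L : ℝ := Real.log x with hL
  have hL0 : 0 < L := by linarith
  set u : ℝ := L ^ (δ / 16) with hudef
  set t : ℝ := L ^ (1 / 2 - δ) with htdef
  have huU₁ : U₁ ≤ u := ((le_max_left _ _).trans (le_max_left _ _)).trans hu
  have huU₂ : U₂ ≤ u := ((le_max_right _ _).trans (le_max_left _ _)).trans hu
  have hul₀ : l₀ ≤ u := ((le_max_left _ _).trans (le_max_right _ _)).trans hu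
  have hu2 : 2 ≤ u := ((le_max_right _ _).trans (le_max_right _ _)).trans hu
  have hu1 : 1 ≤ u := by linarith
  have hu0 : 0 < u := by linarith
  have ht1 : 1 ≤ t := Real.one_le_rpow hL1 (by linarith)
  have ht0 : 0 < t := by linarith
  have hupow : ∀ n : ℕ, u ^ n = L ^ (δ / 16 * n) := by
    intro n
    rw [hudef, ← Real.rpow_natCast, ← Real.rpow_mul hL0.le]
  have hLut : u ^ 32 * t ^ 2 = L := by
    rw [hupow, htdef, ← Real.rpow_natCast, ← Real.rpow_mul hL0.le, ← Real.rpow_add hL0]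
    have e : δ / 16 * (32 : ℕ) + (1 / 2 - δ) * (2 : ℕ) = 1 := by push_cast; ring
    rw [e, Real.rpow_one]
  have hlogL : Real.log (u ^ 32 * t ^ 2) ≤ u := by
    rw [hLut]
    rw [Real.norm_of_nonneg (Real.log_nonneg hL1), Real.norm_of_nonneg hu0.le, one_mul] at hlogu
    exact hlogu
  rcases lt_or_ge t (k : ℝ) with hk | hk
  · have h1 : (((admissibleSets y k).filter (fun A => ¬ HasPrimes y A)).card : ℝ) ≤ ((admissibleSets y k).card : ℝ) := by
      exact_mod_cast card_filter_le _ _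
    refine h1.trans (le_mul_of_one_le_left (Nat.cast_nonneg _) ?_)
    rw [le_div_iff₀ ht0]
    linarith
  have hxδ : x ^ δ = Real.exp (δ * L) := by
    rw [Real.rpow_def_of_pos hx0, mul_comm, hL]
  have hy0 : (0 : ℝ) < y := lt_of_lt_of_le (Real.rpow_pos_of_pos hx0 _) hy1
  have hlogy : δ * (u ^ 32 * t ^ 2) ≤ Real.log y := by
    rw [hLut, Real.le_log_iff_exp_le hy0, ← hxδ]
    exact hy1
  have hlogy1 : Real.log (y + 1 : ℕ) ≤ u ^ 32 * t ^ 2 + 1 := by
    rw [hLut]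
    have h1 : ((y + 1 : ℕ) : ℝ) ≤ x * Real.exp 1 := by
      push_cast
      have h3 : 2 ≤ Real.exp 1 := by have := Real.exp_one_gt_d9; linarith
      nlinarith only [hy2, hx1, h3]
    have h2 := Real.log_le_log (by positivity) h1
    rw [Real.log_mul hx0.ne' (Real.exp_pos _).ne', Real.log_exp] at h2
    exact h2
  have hypos : 0 < y := by exact_mod_cast hy0
  have hpw2 : ∀ m n : ℕ, m ≤ n → u ^ m ≤ u ^ n := fun m n h => pow_le_pow_right₀ hu1 h
  have htt : t ≤ t ^ 2 := le_self_pow₀ ht1 (by norm_num)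
  have ht2 : 1 ≤ t ^ 2 := one_le_pow₀ ht1
  have hl24 : u ^ 24 ≤ u ^ 24 * t ^ 2 := le_mul_of_one_le_right (by positivity) ht2
  have hul : u ≤ u ^ 24 * t ^ 2 := (le_self_pow₀ hu1 (by norm_num)).trans hl24
  have hlpos : 0 < u ^ 24 * t ^ 2 := by positivity
  rcases hchoice (u ^ 24 * t ^ 2) (hul₀.trans hul) (u ^ 18 * t) (one_le_mul_of_one_le_of_one_le (one_le_pow₀ hu1) ht1) (by
      have e : u ^ 24 * t ^ 2 = (u ^ 6 * t) * (u ^ 18 * t) := by ring
      rw [e]
      apply mul_le_mul_of_nonneg_right _ (by positivity)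
      have h4 : u ≤ u ^ 6 := le_self_pow₀ hu1 (by norm_num)
      have h5 : u ^ 6 ≤ u ^ 6 * t := le_mul_of_one_le_right (by positivity) ht1
      linarith) with ⟨g, hg1, hg2, hno⟩ | ⟨q, i, χ, β, hex, hq, hβ⟩
  · refine hgood u t g huU₁ ht1 hlogL hg1 ?_ hno y k hk1 hk hypos hlogy hlogy1
    refine hg2.trans ?_
    have h1 : Real.log (u ^ 24 * t ^ 2) ≤ u := by
      refine le_trans ?_ hlogL
      apply Real.log_le_log hlpos
      exact mul_le_mul_of_nonneg_right (hpw2 24 32 (by norm_num)) (by positivity)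
    have h2 : 0 ≤ Real.log (u ^ 24 * t ^ 2) := Real.log_nonneg (by linarith)
    calc u ^ 24 * t ^ 2 * Real.log (u ^ 24 * t ^ 2) ^ 3 ≤ u ^ 24 * t ^ 2 * u ^ 3 := by gcongr
      _ = u ^ 27 * t ^ 2 := by ring
  · exact hexc u t huU₂ ht1 hlogL q χ β hex hq hβ y k hk1 hk hypos hlogy hlogy1

end Pool.Agent.J4H81.PT
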