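import Pool.Agent.Y568.FK.LD
import Pool.Agent.Y960.FK.Zfr
import Pool.Agent.H437R2.A1
import Pool.Agent.Erdos456.LDich

/-!
# Growing prime tuples: zero-free regions (helper81)
-/

set_option autoImplicit false

namespace Pool.Agent.J4H81.PT.ZF

open Complex Filter Topology Set Metric
open Pool.Agent.Y755.FK (S_LD S_ZFR)
open Pool.Agent.Y960.FK (FF cf cf_sum FF_eq cf_re_sum AA AA_nonneg term_eq norm_it comb comb2 val_sq)
open Pool.Agent.Y568.FK (core t_LD KK KK_nonneg norm_c_le one_le_ell)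
open DirichletCharacter

/-- `3 + 4 cos + cos 2 ≥ 0` for an arbitrary character -/
theorem comb3 {q : ℕ} [NeZero q] (χ : DirichletCharacter ℂ q) {σ : ℝ} (hσ : 1 < σ) (t : ℝ) :
    0 ≤ 3 * FF (1 : DirichletCharacter ℂ q) (σ + (0 : ℝ) * I) + 4 * FF χ (σ + t * I) +
      FF (χ ^ 2) (σ + (2 * t : ℝ) * I) := by
  have hre : ∀ y : ℝ, 1 < ((σ : ℂ) + y * I).re := fun y => by simpa using hσ
  rw [FF_eq _ (hre _), FF_eq _ (hre _), FF_eq _ (hre _), ← tsum_mul_left, ← tsum_mul_left,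
    ← ((cf_re_sum (1 : DirichletCharacter ℂ q) (hre 0)).mul_left 3).tsum_add
      ((cf_re_sum χ (hre t)).mul_left 4),
    ← (((cf_re_sum (1 : DirichletCharacter ℂ q) (hre 0)).mul_left 3).add
      ((cf_re_sum χ (hre t)).mul_left 4)).tsum_add
      (cf_re_sum (χ ^ 2) (hre (2 * t)))]
  refine tsum_nonneg fun n => ?_
  rcases eq_or_ne n 0 with rfl | hn
  · simp
  rw [term_eq _ _ _ hn, term_eq _ _ _ hn, term_eq _ _ _ hn, re_ofReal_mul, re_ofReal_mul,
    re_ofReal_mul]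
  have hA := AA_nonneg σ n
  suffices h : 0 ≤ 3 * (((1 : DirichletCharacter ℂ q) n : ℂ) / (n : ℂ) ^ ((0 : ℝ) * I)).re +
      4 * ((χ n : ℂ) / (n : ℂ) ^ (t * I)).re +
      (((χ ^ 2) n : ℂ) / (n : ℂ) ^ ((2 * t : ℝ) * I)).re by
    have := mul_nonneg hA h
    linarith
  by_cases hu : IsUnit (n : ZMod q)
  · have h4 : ((1 : DirichletCharacter ℂ q) n : ℂ) = 1 := MulChar.one_apply hu
    have h5 : ((χ ^ 2) n : ℂ) = (χ n : ℂ) ^ 2 := MulChar.pow_apply' _ (by norm_num) _
    have h6 : ‖(χ n : ℂ)‖ = 1 := by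
      obtain ⟨u, hu'⟩ := hu
      rw [← hu']
      exact χ.unit_norm_eq_one u
    rw [h4, h5]
    set w : ℂ := (χ n : ℂ) / (n : ℂ) ^ (t * I) with hw
    have hn0 : (n : ℂ) ≠ 0 := by exact_mod_cast hn
    have e1 : (1 : ℂ) / (n : ℂ) ^ ((0 : ℝ) * I) = 1 := by simp
    have e2 : (χ n : ℂ) ^ 2 / (n : ℂ) ^ ((2 * t : ℝ) * I) = w ^ 2 := by
      rw [hw, div_pow, ← cpow_nat_mul]
      congr 2
      push_cast
      ring
    have e3 : ‖w‖ = 1 := by rw [hw, norm_div, norm_it t hn, div_one, h6]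
    rw [e1, e2]
    have e4 : w.re * w.re + w.im * w.im = 1 := by
      rw [← Complex.normSq_apply, Complex.normSq_eq_norm_sq, e3]
      norm_num
    have e5 : (w ^ 2).re = w.re * w.re - w.im * w.im := by
      rw [sq, mul_re]
    rw [e5, one_re]
    nlinarith [sq_nonneg (w.re + 1)]
  · have h4 : ((1 : DirichletCharacter ℂ q) n : ℂ) = 0 := MulChar.map_nonunit _ hu
    have h5 : ((χ ^ 2) n : ℂ) = 0 := MulChar.map_nonunit _ hu
    have h6 : (χ n : ℂ) = 0 := MulChar.map_nonunit _ hu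
    rw [h4, h5, h6]
    simp

theorem log_bound {l : ℝ} (hl : 1 ≤ l) {q : ℕ} [NeZero q] (hq : Real.log q ≤ l) {y : ℝ} (hy : |y| ≤ 2 * Real.exp l) :
    Real.log (q * (|y| + 3)) ≤ 4 * l := by
  have hq0 : (0 : ℝ) < q := by exact_mod_cast Nat.pos_of_ne_zero (NeZero.ne q)
  rw [Real.log_mul hq0.ne' (by positivity)]
  have he : Real.exp 1 ≤ Real.exp l := Real.exp_le_exp.2 hl
  have h27 := Real.exp_one_gt_d9
  have h1 : Real.log (|y| + 3) ≤ 3 * l := by
    have h2 : |y| + 3 ≤ Real.exp (3 * l) := by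
      have h3 : Real.exp (3 * l) = Real.exp l * (Real.exp l * Real.exp l) := by
        rw [← Real.exp_add, ← Real.exp_add]; congr 1; ring
      rw [h3]
      have h4 : 2.7 ≤ Real.exp l := by linarith
      nlinarith
    calc Real.log (|y| + 3) ≤ Real.log (Real.exp (3 * l)) := Real.log_le_log (by positivity) h2
      _ = 3 * l := Real.log_exp _
  linarith

/-- zero-free region for complex characters -/
theorem zf_complex : ∃ c : ℝ, 0 < c ∧ c ≤ 1 ∧ ∀ (l : ℝ), 1 ≤ l → ∀ (q : ℕ) [NeZero q] (χ : DirichletCharacter ℂ q),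
    Real.log q ≤ l → χ ^ 2 ≠ 1 → ∀ s : ℂ, 1 - c / l ≤ s.re → |s.im| ≤ Real.exp l → LFunction χ s ≠ 0 := by
  obtain ⟨C, hC, hLD, hLD0⟩ := t_LD
  set a : ℝ := 1 / (100 * (C + 1)) with ha
  have ha0 : 0 < a := by positivity
  have ha1 : a ≤ 1 / 100 := by
    rw [ha]
    apply one_div_le_one_div_of_le (by norm_num)
    linarith
  refine ⟨a / 10, by positivity, by linarith, ?_⟩
  intro l hl q _ χ hq hχ2 ρ h1 h2 hρ
  have hl0 : 0 < l := by linarith
  have hχ : χ ≠ 1 := by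
    rintro rfl
    exact hχ2 (one_pow 2)
  have hlt : ρ.re < 1 := by
    by_contra hcon
    exact LFunction_ne_zero_of_one_le_re χ (Or.inl hχ) (not_lt.1 hcon) hρ
  set h : ℝ := a / l with hh
  have hh0 : 0 < h := by positivity
  have hh1 : h ≤ 1 / 100 := by
    rw [hh, div_le_iff₀ hl0]
    nlinarith
  have hinv : 1 / h = 100 * (C + 1) * l := by rw [hh, ha]; field_simp
  have hc : a / 10 / l = h / 10 := by rw [hh]; ring
  rw [hc] at h1
  have h4 := comb3 χ (σ := 1 + h) (by linarith) ρ.im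
  set s0 : ℂ := ((1 + h : ℝ) : ℂ) + (0 : ℝ) * I with hs0
  set s1 : ℂ := ((1 + h : ℝ) : ℂ) + ρ.im * I with hs1
  set s2 : ℂ := ((1 + h : ℝ) : ℂ) + (2 * ρ.im : ℝ) * I with hs2
  have r0 : s0.re = 1 + h := by simp [hs0]
  have r1 : s1.re = 1 + h := by simp [hs1]
  have r2 : s2.re = 1 + h := by simp [hs2]
  have i0 : s0.im = 0 := by simp [hs0]
  have i1 : s1.im = ρ.im := by simp [hs1]
  have i2 : s2.im = 2 * ρ.im := by simp [hs2]
  have hexp : 0 < Real.exp l := Real.exp_pos l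
  have b0 := hLD0 q s0 (by linarith) (by linarith)
  have b0' := log_bound hl hq (y := s0.im) (by rw [i0, abs_zero]; linarith)
  have b2 := (hLD q (χ ^ 2) hχ2 s2 (by linarith) (by linarith)).1
  have b2' := log_bound hl hq (y := s2.im) (by rw [i2, abs_mul, abs_of_pos (by norm_num : (0 : ℝ) < 2)]; linarith)
  have e1 : s1 - ρ = ((1 + h - ρ.re : ℝ) : ℂ) := by
    apply Complex.ext
    · simp [hs1]
    · simp [hs1]
  have b1 := ((hLD q χ hχ s1 (by linarith) (by linarith)).2.1 ρ hρ (by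
    rw [e1, Complex.norm_real, Real.norm_eq_abs, abs_of_pos (by linarith)]
    linarith))
  have b1' := log_bound hl hq (y := s1.im) (by rw [i1]; linarith)
  have c1 : 10 / (11 * h) ≤ (1 / (s1 - ρ)).re := by
    rw [e1, ← Complex.ofReal_one, ← Complex.ofReal_div, Complex.ofReal_re,
      div_le_div_iff₀ (by positivity) (by linarith)]
    linarith
  have c0 : (1 / (s0 - 1)).re = 1 / h := by
    have : s0 - 1 = ((h : ℝ) : ℂ) := by
      apply Complex.ext
      · simp [hs0]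
      · simp [hs0]
    rw [this, ← Complex.ofReal_one, ← Complex.ofReal_div, Complex.ofReal_re]
  rw [c0] at b0
  have f1 : 10 / (11 * h) = 10 / 11 * (1 / h) := by field_simp
  rw [f1, hinv] at c1
  rw [hinv] at b0
  have g0 := mul_le_mul_of_nonneg_left b0' hC
  have g1 := mul_le_mul_of_nonneg_left b1' hC
  have g2 := mul_le_mul_of_nonneg_left b2' hC
  unfold FF at h4
  have hCl : 0 ≤ C * l := by positivity
  linarith

/-- one-sided bound for zeta with a zero subtracted -/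
theorem zeta_part2 : ∃ C : ℝ, 0 ≤ C ∧ ∀ s : ℂ, 1 < s.re → s.re ≤ 3 / 2 →
    ∀ ρ : ℂ, riemannZeta₁ ρ = 0 → ‖s - ρ‖ ≤ 1 / 8 →
    -(deriv riemannZeta s / riemannZeta s).re ≤ (1 / (s - 1)).re + C * Real.log (|s.im| + 3) - (1 / (s - ρ)).re := by
  obtain ⟨A, hA1, hA⟩ := Pool.Agent.Y757.LS.zeta_bounds (a := 3 / 2) (by norm_num)
  have hA0 : 0 < A := by linarith
  have hlA : 0 ≤ Real.log (24 * A) := Real.log_nonneg (by linarith)
  refine ⟨KK * (Real.log (24 * A) + 3), mul_nonneg KK_nonneg (by linarith), ?_⟩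
  intro s h1 h2 ρ hρ hsρ
  have hs1 : s ≠ 1 := by
    rintro rfl
    simp at h1
  have hs10 : s - 1 ≠ 0 := sub_ne_zero.2 hs1
  have hz0 : riemannZeta s ≠ 0 := riemannZeta_ne_zero_of_one_le_re h1.le
  have ht := abs_nonneg s.im
  set c : ℂ := ((3 / 2 : ℝ) : ℂ) + s.im * I with hc
  have hcre : c.re = 3 / 2 := by simp [hc]
  have hc1 : c ≠ 1 := by
    intro h
    have := congrArg Complex.re h
    rw [hcre] at this
    norm_num at this
  have hM : ∀ z ∈ closedBall (((3 / 2 : ℝ) : ℂ) + s.im * I) (7 / 8),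
      ‖riemannZeta₁ z‖ ≤ 3 * (|s.im| + 4) ^ 2 := by
    intro z hz
    obtain ⟨hz1, hz2⟩ := norm_c_le s.im hz
    refine (Pool.Agent.H437R2.z1_norm_le (by linarith)).trans ?_
    have : ‖z‖ + 1 ≤ |s.im| + 4 := by linarith
    gcongr
  have hmF : 1 / (2 * A) ≤ ‖riemannZeta₁ (((3 / 2 : ℝ) : ℂ) + s.im * I)‖ := by
    rw [← hc, Pool.Agent.H437R2.z1_of_ne hc1, norm_mul]
    have h3 : 1 / 2 ≤ ‖c - 1‖ := by
      have h4 := abs_re_le_norm (c - 1)
      rw [sub_re, hcre, one_re] at h4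
      refine le_trans ?_ h4
      norm_num
    have h4 := (hA c (by rw [hcre])).2
    calc 1 / (2 * A) = 1 / 2 * (1 / A) := by field_simp
      _ ≤ ‖c - 1‖ * ‖riemannZeta c‖ := by gcongr
  obtain ⟨-, c2, -⟩ := core differentiable_riemannZeta₁
    (fun ρ hρ => (Pool.Agent.H437R2.z1_zero_re hρ).le) h1 h2 (m := 1 / (2 * A))
    (M := 3 * (|s.im| + 4) ^ 2) (by positivity) hmF hM
  have c1 := c2 ρ hρ hsρ
  have hd : deriv riemannZeta₁ s = riemannZeta s + (s - 1) * deriv riemannZeta s := by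
    have h1 : HasDerivAt (fun w => (w - 1) * riemannZeta w)
        (1 * riemannZeta s + (s - 1) * deriv riemannZeta s) s :=
      ((hasDerivAt_id s).sub_const 1).mul (differentiableAt_riemannZeta hs1).hasDerivAt
    have h2 : riemannZeta₁ =ᶠ[𝓝 s] fun w => (w - 1) * riemannZeta w := by
      filter_upwards [isOpen_ne.mem_nhds hs1] with w hw using Pool.Agent.H437R2.z1_of_ne hw
    rw [h2.deriv_eq, h1.deriv, one_mul]
  have e : deriv riemannZeta₁ s / riemannZeta₁ s =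
      1 / (s - 1) + deriv riemannZeta s / riemannZeta s := by
    rw [hd, Pool.Agent.H437R2.z1_of_ne hs1]
    field_simp
  rw [e, add_re] at c1
  have hell := one_le_ell (x := |s.im| + 3) (by linarith)
  have hlog : Real.log (3 * (|s.im| + 4) ^ 2 / (1 / (2 * A))) ≤
      Real.log (24 * A) + 2 * Real.log (|s.im| + 3) := by
    have e2 : 2 * Real.log (|s.im| + 3) = Real.log ((|s.im| + 3) ^ 2) := by
      rw [Real.log_pow]; norm_num
    rw [e2, ← Real.log_mul (by positivity) (by positivity)]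
    apply Real.log_le_log (by positivity)
    rw [div_div_eq_mul_div, div_one]
    have h5 : (|s.im| + 4) ^ 2 ≤ 4 * (|s.im| + 3) ^ 2 := by nlinarith
    nlinarith
  have hfin : KK * (Real.log (3 * (|s.im| + 4) ^ 2 / (1 / (2 * A))) + 1) ≤
      KK * (Real.log (24 * A) + 3) * Real.log (|s.im| + 3) := by
    rw [mul_assoc]
    apply mul_le_mul_of_nonneg_left _ KK_nonneg
    nlinarith
  linarith

theorem FF_one_zeta (s : ℂ) : FF (1 : DirichletCharacter ℂ 1) s = -(deriv riemannZeta s / riemannZeta s).re := by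
  unfold FF
  rw [LFunction_modOne_eq]

/-- zero-free region for zeta -/
theorem zf_zeta : ∃ c l₀ : ℝ, 0 < c ∧ c ≤ 1 ∧ 1 ≤ l₀ ∧ ∀ (l : ℝ), l₀ ≤ l → ∀ s : ℂ, 1 - c / l ≤ s.re →
    |s.im| ≤ Real.exp l → riemannZeta₁ s ≠ 0 := by
  obtain ⟨C0, hC0, hLD, hLD0⟩ := t_LD
  obtain ⟨C1, hC1, hZ⟩ := zeta_part2
  obtain ⟨r, hr, hball⟩ := Metric.eventually_nhds_iff.1 riemannZeta₁_ne_zero_of_near_one
  -- constants
  set r' : ℝ := min (r / 4) 1 with hr'
  have hr'0 : 0 < r' := lt_min (by linarith) one_pos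
  have hr'1 : r' ≤ 1 := min_le_right _ _
  have hr'r : r' ≤ r / 4 := min_le_left _ _
  set C : ℝ := C0 + C1 + 5 / r' ^ 2 with hC
  have hCC : 0 ≤ C := by positivity
  set a : ℝ := 1 / (100 * (C + 1)) with ha
  have ha0 : 0 < a := by positivity
  have ha1 : a ≤ 1 / 100 := by
    rw [ha]
    apply one_div_le_one_div_of_le (by norm_num)
    linarith
  refine ⟨a / 10, max 1 (1 / r'), by positivity, by linarith, le_max_left _ _, ?_⟩
  intro l hl0 ρ h1 h2 hρ
  have hl : 1 ≤ l := (le_max_left _ _).trans hl0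
  have hlr : 1 / r' ≤ l := (le_max_right _ _).trans hl0
  have hlp : 0 < l := by linarith
  have hlt := Pool.Agent.H437R2.z1_zero_re hρ
  set h : ℝ := a / l with hh
  have hh0 : 0 < h := by positivity
  have hh1 : h ≤ 1 / 100 := by
    rw [hh, div_le_iff₀ hlp]
    nlinarith
  have hinv : 1 / h = 100 * (C + 1) * l := by rw [hh, ha]; field_simp
  have hc : a / 10 / l = h / 10 := by rw [hh]; ring
  rw [hc] at h1
  -- the zero is far from one
  have him : r' ≤ |ρ.im| := by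
    by_contra hcon
    push Not at hcon
    apply hball (y := ρ) _ hρ
    rw [dist_eq_norm]
    refine (Complex.norm_le_abs_re_add_abs_im _).trans_lt ?_
    rw [sub_re, sub_im, one_re, one_im, sub_zero, abs_of_neg (by linarith)]
    have h5 : h ≤ r' := by
      rw [hh, div_le_iff₀ hlp]
      rw [div_le_iff₀ hr'0] at hlr
      nlinarith
    linarith
  have h4 := comb (q := 1) (χ := 1) (one_pow 2) (σ := 1 + h) (by linarith) ρ.im
  set s0 : ℂ := ((1 + h : ℝ) : ℂ) + (0 : ℝ) * I with hs0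
  set s1 : ℂ := ((1 + h : ℝ) : ℂ) + ρ.im * I with hs1
  set s2 : ℂ := ((1 + h : ℝ) : ℂ) + (2 * ρ.im : ℝ) * I with hs2
  have r0 : s0.re = 1 + h := by simp [hs0]
  have r1 : s1.re = 1 + h := by simp [hs1]
  have r2 : s2.re = 1 + h := by simp [hs2]
  have i0 : s0.im = 0 := by simp [hs0]
  have i1 : s1.im = ρ.im := by simp [hs1]
  have i2 : s2.im = 2 * ρ.im := by simp [hs2]
  have hexp : 0 < Real.exp l := Real.exp_pos l
  have hq1 : Real.log ((1 : ℕ) : ℝ) ≤ l := by simp; linarith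
  have b0 : FF (1 : DirichletCharacter ℂ 1) s0 ≤ (1 / (s0 - 1)).re + C0 * Real.log (((1 : ℕ) : ℝ) * (|s0.im| + 3)) :=
    hLD0 1 s0 (by linarith) (by linarith)
  have b0' := log_bound (q := 1) hl hq1 (y := s0.im) (by rw [i0, abs_zero]; linarith)
  have b2 : FF (1 : DirichletCharacter ℂ 1) s2 ≤ (1 / (s2 - 1)).re + C0 * Real.log (((1 : ℕ) : ℝ) * (|s2.im| + 3)) :=
    hLD0 1 s2 (by linarith) (by linarith)
  have b2' := log_bound (q := 1) hl hq1 (y := s2.im) (by rw [i2, abs_mul, abs_of_pos (by norm_num : (0 : ℝ) < 2)]; linarith)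
  have e1 : s1 - ρ = ((1 + h - ρ.re : ℝ) : ℂ) := by
    apply Complex.ext
    · simp [hs1]
    · simp [hs1]
  have b1 := hZ s1 (by linarith) (by linarith) ρ hρ (by
    rw [e1, Complex.norm_real, Real.norm_eq_abs, abs_of_pos (by linarith)]
    linarith)
  rw [← FF_one_zeta] at b1
  have b1' := log_bound (q := 1) hl hq1 (y := s1.im) (by rw [i1]; linarith)
  have c1 : 10 / (11 * h) ≤ (1 / (s1 - ρ)).re := by
    rw [e1, ← Complex.ofReal_one, ← Complex.ofReal_div, Complex.ofReal_re,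
      div_le_div_iff₀ (by positivity) (by linarith)]
    linarith
  have c0 : (1 / (s0 - 1)).re = 1 / h := by
    have : s0 - 1 = ((h : ℝ) : ℂ) := by
      apply Complex.ext
      · simp [hs0]
      · simp [hs0]
    rw [this, ← Complex.ofReal_one, ← Complex.ofReal_div, Complex.ofReal_re]
  have cgen : ∀ s : ℂ, s.re = 1 + h → r' ≤ |s.im| → (1 / (s - 1)).re ≤ 1 / r' ^ 2 := by
    intro s hre him'
    rw [one_div, Complex.inv_re, Complex.normSq_apply]
    have e2 : (s - 1).re = h := by rw [sub_re, hre, one_re]; ring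
    have e3 : (s - 1).im = s.im := by rw [sub_im, one_im, sub_zero]
    rw [e2, e3]
    have h5 : r' ^ 2 ≤ s.im * s.im := by
      rw [← abs_mul_abs_self s.im, sq]
      exact mul_self_le_mul_self hr'0.le him'
    have h6 : 0 < r' ^ 2 := by positivity
    rw [div_le_div_iff₀ (by nlinarith [mul_self_nonneg h]) h6]
    nlinarith [mul_self_nonneg h]
  have c1' := cgen s1 r1 (by rw [i1]; exact him)
  have c2' := cgen s2 r2 (by rw [i2, abs_mul, abs_of_pos (by norm_num : (0 : ℝ) < 2)]; linarith [abs_nonneg ρ.im])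
  rw [c0] at b0
  have f1 : 10 / (11 * h) = 10 / 11 * (1 / h) := by field_simp
  rw [f1, hinv] at c1
  rw [hinv] at b0
  have hlog1 : Real.log (|s1.im| + 3) ≤ 4 * l := by
    have : ((1 : ℕ) : ℝ) * (|s1.im| + 3) = |s1.im| + 3 := by push_cast; ring
    rw [← this]; exact b1'
  have g0 := mul_le_mul_of_nonneg_left b0' hC0
  have g1 := mul_le_mul_of_nonneg_left hlog1 hC1
  have g2 := mul_le_mul_of_nonneg_left b2' hC0
  have hb0 : FF (1 : DirichletCharacter ℂ 1) s0 ≤ 100 * (C + 1) * l + C0 * (4 * l) := by linarith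
  have hb1 : FF (1 : DirichletCharacter ℂ 1) s1 ≤ 1 / r' ^ 2 + C1 * (4 * l) - 10 / 11 * (100 * (C + 1) * l) := by linarith
  have hb2 : FF (1 : DirichletCharacter ℂ 1) s2 ≤ 1 / r' ^ 2 + C0 * (4 * l) := b2.trans (add_le_add c2' g2)
  have hr2 : 1 / r' ^ 2 * 5 = 5 / r' ^ 2 := by ring
  have hr3 : 5 / r' ^ 2 ≤ 5 / r' ^ 2 * l := le_mul_of_one_le_right (by positivity) hl
  have hCl : C * l = C0 * l + C1 * l + 5 / r' ^ 2 * l := by rw [hC]; ring
  have h0l : 0 ≤ C0 * l := by positivity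
  have h1l : 0 ≤ C1 * l := by positivity
  have h2l : 0 ≤ 5 / r' ^ 2 * l := by positivity
  linarith

end Pool.Agent.J4H81.PT.ZF
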