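import Pool.Agent.J4H81.PT.ZFa

/-!
# Growing prime tuples: scales without exceptional zeros (helper81)
-/

set_option autoImplicit false

namespace Pool.Agent.J4H81.PT.ZF

open Complex Filter Topology Set Metric
open Pool.Agent.Y755.FK (S_LD S_ZFR)
open Pool.Agent.Y960.FK (FF cf cf_sum FF_eq cf_re_sum AA AA_nonneg term_eq norm_it comb comb2 val_sq t_ZFR)
open Pool.Agent.Y568.FK (core t_LD KK KK_nonneg norm_c_le one_le_ell)
open DirichletCharacter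

/-- the values of a real character are real and at least `-1` -/
theorem real_val {q : ℕ} [NeZero q] {χ : DirichletCharacter ℂ q} (h2 : χ ^ 2 = 1) (n : ℕ) :
    ∃ x : ℝ, (χ n : ℂ) = x ∧ -1 ≤ x := by
  rcases val_sq h2 n with ⟨h3, _⟩ | ⟨h3, _⟩
  · exact ⟨0, by rw [h3]; simp, by norm_num⟩
  · have h4 : ((χ n : ℂ) - 1) * ((χ n : ℂ) + 1) = 0 := by
      have : ((χ n : ℂ) - 1) * ((χ n : ℂ) + 1) = (χ n : ℂ) ^ 2 - 1 := by ring
      rw [this, h3, sub_self]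
    rcases mul_eq_zero.1 h4 with h | h
    · exact ⟨1, by rw [sub_eq_zero.1 h]; simp, by norm_num⟩
    · exact ⟨-1, by rw [eq_neg_of_add_eq_zero_left h]; simp, le_rfl⟩

/-- positivity of `(1 + χ₁) (1 + χ₂)` -/
theorem comb_pair {q₁ q₂ : ℕ} [NeZero q₁] [NeZero q₂] [NeZero (q₁ * q₂)] {χ₁ : DirichletCharacter ℂ q₁}
    {χ₂ : DirichletCharacter ℂ q₂} (h₁ : χ₁ ^ 2 = 1) (h₂ : χ₂ ^ 2 = 1) {σ : ℝ} (hσ : 1 < σ) :
    0 ≤ FF (1 : DirichletCharacter ℂ 1) (σ + (0 : ℝ) * I) + FF χ₁ (σ + (0 : ℝ) * I) + FF χ₂ (σ + (0 : ℝ) * I) +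
      FF (changeLevel (q₁.dvd_mul_right q₂) χ₁ * changeLevel (q₂.dvd_mul_left q₁) χ₂) (σ + (0 : ℝ) * I) := by
  have hre : 1 < ((σ : ℂ) + (0 : ℝ) * I).re := by simpa using hσ
  set χ₃ := changeLevel (q₁.dvd_mul_right q₂) χ₁ * changeLevel (q₂.dvd_mul_left q₁) χ₂ with hχ₃
  rw [FF_eq _ hre, FF_eq _ hre, FF_eq _ hre, FF_eq _ hre]
  have s0 := cf_re_sum (1 : DirichletCharacter ℂ 1) hre
  have s1 := cf_re_sum χ₁ hre
  have s2 := cf_re_sum χ₂ hre
  have s3 := cf_re_sum χ₃ hre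
  rw [← s0.tsum_add s1, ← (s0.add s1).tsum_add s2, ← ((s0.add s1).add s2).tsum_add s3]
  refine tsum_nonneg fun n => ?_
  rcases eq_or_ne n 0 with rfl | hn
  · simp
  rw [term_eq _ _ _ hn, term_eq _ _ _ hn, term_eq _ _ _ hn, term_eq _ _ _ hn, re_ofReal_mul, re_ofReal_mul,
    re_ofReal_mul, re_ofReal_mul]
  have hA := AA_nonneg σ n
  have e1 : (n : ℂ) ^ ((0 : ℝ) * I) = 1 := by simp
  obtain ⟨x₁, hx₁, hx₁'⟩ := real_val h₁ n
  obtain ⟨x₂, hx₂, hx₂'⟩ := real_val h₂ n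
  have h3 : (χ₃ n : ℂ) = ((x₁ * x₂ : ℝ) : ℂ) := by
    rw [hχ₃, Pool.Agent.Erdos456.mul_char_apply, hx₁, hx₂]
    push_cast
    ring
  have h4 : ((1 : DirichletCharacter ℂ 1) n : ℂ) = 1 := by
    apply MulChar.one_apply
    exact isUnit_of_subsingleton _
  rw [e1, div_one, div_one, div_one, div_one, h3, h4, hx₁, hx₂, one_re, ofReal_re, ofReal_re, ofReal_re]
  have : AA σ n * 1 + AA σ n * x₁ + AA σ n * x₂ + AA σ n * (x₁ * x₂) = AA σ n * ((1 + x₁) * (1 + x₂)) := by ring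
  rw [this]
  exact mul_nonneg hA (mul_nonneg (by linarith) (by linarith))

/-- different primitive characters have a non-principal product -/
theorem prod_ne_one {q₁ q₂ : ℕ} [NeZero q₁] [NeZero q₂] [NeZero (q₁ * q₂)] {χ₁ : DirichletCharacter ℂ q₁}
    {χ₂ : DirichletCharacter ℂ q₂} (p₁ : χ₁.IsPrimitive) (p₂ : χ₂.IsPrimitive) (h₂ : χ₂ ^ 2 = 1)
    (hne : ¬ ∃ h : q₁ = q₂, h ▸ χ₁ = χ₂) :
    changeLevel (q₁.dvd_mul_right q₂) χ₁ * changeLevel (q₂.dvd_mul_left q₁) χ₂ ≠ 1 := by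
  intro h3
  apply hne
  have e2 : changeLevel (q₂.dvd_mul_left q₁) χ₂ * changeLevel (q₂.dvd_mul_left q₁) χ₂ = 1 := by
    rw [← map_mul, ← pow_two, h₂, map_one]
  have e : changeLevel (q₁.dvd_mul_right q₂) χ₁ = changeLevel (q₂.dvd_mul_left q₁) χ₂ := by
    rw [← h3] at e2
    exact (mul_right_cancel e2).symm
  have e4 := congrArg conductor e
  rw [conductor_changeLevel, conductor_changeLevel, (isPrimitive_def χ₁).mp p₁, (isPrimitive_def χ₂).mp p₂] at e4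
  subst e4
  exact ⟨rfl, changeLevel_injective _ e⟩

/-- the theorem of Landau and Page -/
theorem landau_page : ∃ c : ℝ, 0 < c ∧ c ≤ 1 ∧ ∀ l : ℝ, 1 ≤ l → ∀ (q₁ q₂ : ℕ) [NeZero q₁] [NeZero q₂]
    (χ₁ : DirichletCharacter ℂ q₁) (χ₂ : DirichletCharacter ℂ q₂), χ₁.IsPrimitive → χ₂.IsPrimitive → χ₁ ≠ 1 → χ₂ ≠ 1 →
    χ₁ ^ 2 = 1 → χ₂ ^ 2 = 1 → Real.log q₁ ≤ l → Real.log q₂ ≤ l → (¬ ∃ h : q₁ = q₂, h ▸ χ₁ = χ₂) →
    ∀ β₁ β₂ : ℝ, LFunction χ₁ β₁ = 0 → LFunction χ₂ β₂ = 0 → 1 - c / l ≤ β₁ → 1 - c / l ≤ β₂ → False := by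
  obtain ⟨C, hC, hLD, hLD0⟩ := t_LD
  set a : ℝ := 1 / (100 * (C + 1)) with ha
  have ha0 : 0 < a := by positivity
  have ha1 : a ≤ 1 / 100 := by
    rw [ha]
    apply one_div_le_one_div_of_le (by norm_num)
    linarith
  refine ⟨a / 10, by positivity, by linarith, ?_⟩
  intro l hl q₁ q₂ _ _ χ₁ χ₂ p₁ p₂ n₁ n₂ r₁ r₂ hq₁ hq₂ hne β₁ β₂ z₁ z₂ hβ₁ hβ₂
  have hl0 : 0 < l := by linarith
  have hN : NeZero (q₁ * q₂) := ⟨mul_ne_zero (NeZero.ne q₁) (NeZero.ne q₂)⟩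
  have h3 := prod_ne_one p₁ p₂ r₂ hne
  set χ₃ := changeLevel (q₁.dvd_mul_right q₂) χ₁ * changeLevel (q₂.dvd_mul_left q₁) χ₂ with hχ₃
  have hlt₁ : β₁ < 1 := by
    by_contra hcon
    exact LFunction_ne_zero_of_one_le_re χ₁ (Or.inl n₁) (s := β₁) (by simpa using not_lt.1 hcon) z₁
  have hlt₂ : β₂ < 1 := by
    by_contra hcon
    exact LFunction_ne_zero_of_one_le_re χ₂ (Or.inl n₂) (s := β₂) (by simpa using not_lt.1 hcon) z₂
  set h : ℝ := a / l with hh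
  have hh0 : 0 < h := by positivity
  have hh1 : h ≤ 1 / 100 := by
    rw [hh, div_le_iff₀ hl0]
    nlinarith
  have hinv : 1 / h = 100 * (C + 1) * l := by rw [hh, ha]; field_simp
  have hc : a / 10 / l = h / 10 := by rw [hh]; ring
  rw [hc] at hβ₁ hβ₂
  have hcomb := comb_pair (q₁ := q₁) (q₂ := q₂) r₁ r₂ (σ := 1 + h) (by linarith)
  rw [← hχ₃] at hcomb
  set s0 : ℂ := ((1 + h : ℝ) : ℂ) + (0 : ℝ) * I with hs0
  have r0 : s0.re = 1 + h := by simp [hs0]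
  have i0 : s0.im = 0 := by simp [hs0]
  have hexp : 0 < Real.exp l := Real.exp_pos l
  have hq1 : Real.log ((1 : ℕ) : ℝ) ≤ l := by simp; linarith
  have hy0 : |s0.im| ≤ 2 * Real.exp l := by rw [i0, abs_zero]; linarith
  have b0 : FF (1 : DirichletCharacter ℂ 1) s0 ≤ (1 / (s0 - 1)).re + C * Real.log (((1 : ℕ) : ℝ) * (|s0.im| + 3)) :=
    hLD0 1 s0 (by linarith) (by linarith)
  have b0' := log_bound (q := 1) hl hq1 hy0
  have e1 : s0 - β₁ = ((1 + h - β₁ : ℝ) : ℂ) := by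
    apply Complex.ext
    · simp [hs0]
    · simp [hs0]
  have e2 : s0 - β₂ = ((1 + h - β₂ : ℝ) : ℂ) := by
    apply Complex.ext
    · simp [hs0]
    · simp [hs0]
  have b1 : FF χ₁ s0 ≤ C * Real.log (q₁ * (|s0.im| + 3)) - (1 / (s0 - β₁)).re :=
    ((hLD q₁ χ₁ n₁ s0 (by linarith) (by linarith)).2.1 β₁ z₁ (by
      rw [e1, Complex.norm_real, Real.norm_eq_abs, abs_of_pos (by linarith)]; linarith))
  have b2 : FF χ₂ s0 ≤ C * Real.log (q₂ * (|s0.im| + 3)) - (1 / (s0 - β₂)).re :=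
    ((hLD q₂ χ₂ n₂ s0 (by linarith) (by linarith)).2.1 β₂ z₂ (by
      rw [e2, Complex.norm_real, Real.norm_eq_abs, abs_of_pos (by linarith)]; linarith))
  have b3 : FF χ₃ s0 ≤ C * Real.log (((q₁ * q₂ : ℕ) : ℝ) * (|s0.im| + 3)) :=
    (hLD (q₁ * q₂) χ₃ h3 s0 (by linarith) (by linarith)).1
  have b1' := log_bound (q := q₁) hl hq₁ hy0
  have b2' := log_bound (q := q₂) hl hq₂ hy0
  have b3' : Real.log (((q₁ * q₂ : ℕ) : ℝ) * (|s0.im| + 3)) ≤ 8 * l := by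
    have h5 : Real.log ((q₁ * q₂ : ℕ) : ℝ) ≤ 2 * l := by
      push_cast
      rw [Real.log_mul (by exact_mod_cast NeZero.ne q₁) (by exact_mod_cast NeZero.ne q₂)]
      linarith
    have h6 := log_bound (q := q₁ * q₂) (l := 2 * l) (by linarith) h5 (y := s0.im) (by
      rw [i0, abs_zero]; positivity)
    linarith
  have c1 : 10 / (11 * h) ≤ (1 / (s0 - β₁)).re := by
    rw [e1, ← Complex.ofReal_one, ← Complex.ofReal_div, Complex.ofReal_re,
      div_le_div_iff₀ (by positivity) (by linarith)]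
    linarith
  have c2 : 10 / (11 * h) ≤ (1 / (s0 - β₂)).re := by
    rw [e2, ← Complex.ofReal_one, ← Complex.ofReal_div, Complex.ofReal_re,
      div_le_div_iff₀ (by positivity) (by linarith)]
    linarith
  have c0 : (1 / (s0 - 1)).re = 1 / h := by
    have : s0 - 1 = ((h : ℝ) : ℂ) := by
      apply Complex.ext
      · simp [hs0]
      · simp [hs0]
    rw [this, ← Complex.ofReal_one, ← Complex.ofReal_div, Complex.ofReal_re]
  rw [c0] at b0
  have f1 : 10 / (11 * h) = 10 / 11 * (1 / h) := by field_simp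
  rw [f1, hinv] at c1 c2
  rw [hinv] at b0
  have g0 := mul_le_mul_of_nonneg_left b0' hC
  have g1 := mul_le_mul_of_nonneg_left b1' hC
  have g2 := mul_le_mul_of_nonneg_left b2' hC
  have g3 := mul_le_mul_of_nonneg_left b3' hC
  have hb0 := b0.trans (add_le_add le_rfl g0)
  have hb1 := b1.trans (sub_le_sub g1 c1)
  have hb2 := b2.trans (sub_le_sub g2 c2)
  have hb3 := b3.trans g3
  have hCl : 0 ≤ C * l := by positivity
  linarith

/-- no zeros of primitive L-functions in the classical region at the scale `l` -/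
def NoZ (c l : ℝ) : Prop := ∀ (f : ℕ) [NeZero f] (χ : DirichletCharacter ℂ f), χ.IsPrimitive → χ ≠ 1 → Real.log f ≤ l →
  ∀ s : ℂ, 1 - c / l ≤ s.re → |s.im| ≤ Real.exp l → LFunction χ s ≠ 0

/-- there are arbitrarily large scales without exceptional zeros -/
theorem good_scales : ∃ c : ℝ, 0 < c ∧ c ≤ 1 ∧ ∀ L₀ : ℝ, ∃ l : ℝ, L₀ ≤ l ∧ NoZ c l := by
  obtain ⟨c₁, hc₁, hc₁', hcomplex⟩ := zf_complex
  obtain ⟨c₂, hc₂, hc₂', hLP⟩ := landau_page
  obtain ⟨c₃, hc₃, hreal⟩ := t_ZFR t_LD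
  set c : ℝ := min (c₁) (min (c₂ / 2) (c₃ / 4)) with hc
  have hc0 : 0 < c := lt_min hc₁ (lt_min (by linarith) (by linarith))
  have hcc1 : c ≤ c₁ := min_le_left _ _
  have hcc2 : c ≤ c₂ / 2 := (min_le_right _ _).trans (min_le_left _ _)
  have hcc3 : c ≤ c₃ / 4 := (min_le_right _ _).trans (min_le_right _ _)
  refine ⟨c, hc0, by linarith, ?_⟩
  intro L₀'
  set L₀ : ℝ := max L₀' 1 with hL₀
  have hL₀1 : 1 ≤ L₀ := le_max_right _ _
  by_cases hgood : NoZ c L₀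
  · exact ⟨L₀, le_max_left _ _, hgood⟩
  -- analysis of a bad scale
  have hbad : ∀ l : ℝ, 1 ≤ l → ¬ NoZ c l → ∃ (f : ℕ) (_ : NeZero f) (χ : DirichletCharacter ℂ f), χ.IsPrimitive ∧ χ ≠ 1 ∧
      χ ^ 2 = 1 ∧ Real.log f ≤ l ∧ ∃ β : ℝ, LFunction χ β = 0 ∧ 1 - c / l ≤ β := by
    intro l hl hn
    unfold NoZ at hn
    push Not at hn
    obtain ⟨f, hf0, χ, hp, h1, hfl, s, hs1, hs2, hs3⟩ := hn
    have hl0 : 0 < l := by linarith
    have hsq : χ ^ 2 = 1 := by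
      by_contra hcon
      refine hcomplex l hl f χ hfl hcon s ?_ hs2 hs3
      have : c / l ≤ c₁ / l := by gcongr
      linarith
    have hexp2 : 2 ≤ Real.exp l := by
      have := Real.add_one_le_exp l
      linarith
    obtain ⟨β, hβ1, hβ⟩ := hreal f χ hsq h1 (Real.exp l) hexp2
    have hf1 : (1 : ℝ) ≤ f := by exact_mod_cast Nat.one_le_iff_ne_zero.2 (NeZero.ne f)
    have hlog : Real.log (f * Real.exp l) ≤ 2 * l := by
      rw [Real.log_mul (by linarith) (Real.exp_pos _).ne', Real.log_exp]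
      linarith
    have hlog0 : 0 < Real.log (f * Real.exp l) := by
      rw [Real.log_mul (by linarith) (Real.exp_pos _).ne', Real.log_exp]
      have := Real.log_nonneg hf1
      linarith
    have hs4 : 1 - c₃ / Real.log (f * Real.exp l) ≤ s.re := by
      have h5 : c₃ / (2 * l) ≤ c₃ / Real.log (f * Real.exp l) := by gcongr
      have h6 : c / l ≤ c₃ / (2 * l) := by
        rw [div_le_div_iff₀ hl0 (by linarith)]
        nlinarith
      linarith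
    obtain ⟨h7, _⟩ := hβ s hs4 hs2 hs3
    refine ⟨f, hf0, χ, hp, h1, hsq, hfl, β, ?_, ?_⟩
    · rw [← h7]; exact hs3
    · have : s.re = β := by rw [h7]; simp
      rw [← this]; exact hs1
  obtain ⟨f₁, hf₁0, χ₁, hp₁, hn₁, hr₁, hf₁, β₁, hz₁, hβ₁⟩ := hbad L₀ hL₀1 hgood
  have hlt₁ : β₁ < 1 := by
    by_contra hcon
    exact LFunction_ne_zero_of_one_le_re χ₁ (Or.inl hn₁) (s := β₁) (by simpa using not_lt.1 hcon) hz₁
  set l : ℝ := 2 * c / (1 - β₁) with hl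
  have hd : 0 < 1 - β₁ := by linarith
  have hlL : L₀ ≤ l := by
    rw [hl, le_div_iff₀ hd]
    have h1 : 1 - β₁ ≤ c / L₀ := by linarith
    have h2 : L₀ * (1 - β₁) ≤ c := by
      rw [le_div_iff₀ (by linarith)] at h1
      linarith
    linarith
  have hl1 : 1 ≤ l := hL₀1.trans hlL
  have hl0 : 0 < l := by linarith
  have hβl : 1 - β₁ = 2 * c / l := by
    rw [hl]
    field_simp
  refine ⟨l, (le_max_left _ _).trans hlL, ?_⟩
  by_contra hbad2
  obtain ⟨f₂, hf₂0, χ₂, hp₂, hn₂, hr₂, hf₂, β₂, hz₂, hβ₂⟩ := hbad l hl1 hbad2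
  by_cases hsame : ∃ h : f₁ = f₂, h ▸ χ₁ = χ₂
  · obtain ⟨h, h'⟩ := hsame
    subst h
    simp only at h'
    subst h'
    -- two different zeros of one real character
    have hexp2 : 2 ≤ Real.exp l := by
      have := Real.add_one_le_exp l
      linarith
    obtain ⟨β, hβ1, hβ⟩ := hreal f₁ χ₁ hr₁ hn₁ (Real.exp l) hexp2
    have hf1 : (1 : ℝ) ≤ f₁ := by exact_mod_cast Nat.one_le_iff_ne_zero.2 (NeZero.ne f₁)
    have hlog : Real.log (f₁ * Real.exp l) ≤ 2 * l := by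
      rw [Real.log_mul (by linarith) (Real.exp_pos _).ne', Real.log_exp]
      linarith
    have hlog0 : 0 < Real.log (f₁ * Real.exp l) := by
      rw [Real.log_mul (by linarith) (Real.exp_pos _).ne', Real.log_exp]
      have := Real.log_nonneg hf1
      linarith
    have h5 : c₃ / (2 * l) ≤ c₃ / Real.log (f₁ * Real.exp l) := by gcongr
    have h6 : 2 * c / l ≤ c₃ / (2 * l) := by
      rw [div_le_div_iff₀ hl0 (by linarith)]
      nlinarith
    have h6' : c / l ≤ 2 * c / l := by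
      apply div_le_div_of_nonneg_right _ hl0.le
      linarith
    have hexp0 : |(0 : ℝ)| ≤ Real.exp l := by rw [abs_zero]; exact (Real.exp_pos l).le
    have e1 := (hβ (β₁ : ℂ) (by rw [ofReal_re]; linarith) (by rw [ofReal_im]; exact hexp0) hz₁).1
    have e2 := (hβ (β₂ : ℂ) (by rw [ofReal_re]; linarith) (by rw [ofReal_im]; exact hexp0) hz₂).1
    have e3 : β₁ = β₂ := by
      have := e1.trans e2.symm
      exact_mod_cast this
    rw [← e3] at hβ₂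
    have h7 : 0 < c / l := by positivity
    have h8 : 2 * c / l = c / l + c / l := by ring
    linarith
  · refine hLP l hl1 f₁ f₂ χ₁ χ₂ hp₁ hp₂ hn₁ hn₂ hr₁ hr₂ (hf₁.trans hlL) hf₂ hsame β₁ β₂ hz₁ hz₂ ?_ ?_
    · have : 2 * c / l ≤ c₂ / l := by gcongr; linarith
      linarith
    · have : c / l ≤ c₂ / l := by gcongr; linarith
      linarith

end Pool.Agent.J4H81.PT.ZF
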