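import Pool.Agent.J4H81.PT.ZFb
import Pool.Agent.Helper368_LD.LogDer
import Pool.Agent.H378R2.M1a

/-!
# Growing prime tuples: logarithmic derivatives in the classical region (helper81)
-/

set_option autoImplicit false

namespace Pool.Agent.J4H81.PT.ZF

open Complex Filter Topology Set Metric
open DirichletCharacter

/-- logarithmic derivative near the line one, general form -/
theorem logder_gen {F : ℂ → ℂ} (hF : Differentiable ℂ F) {δ K A B t : ℝ} (hδ : 0 < δ) (hδ1 : δ ≤ 1 / 4) (hK : 0 < K)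
    (hB : 0 < B) (hAB : A ≤ Real.exp K * B)
    (hz : ∀ z : ℂ, 1 - δ ≤ z.re → |z.im - t| ≤ 1 → F z ≠ 0)
    (hA : ∀ z : ℂ, 1 - δ ≤ z.re → z.re ≤ 2 → |z.im - t| ≤ 1 → ‖F z‖ ≤ A)
    (hc : B ≤ ‖F ((1 + δ : ℝ) + t * I)‖) {s : ℂ} (hs1 : 1 - δ / 2 ≤ s.re) (hs2 : s.re ≤ 1 + δ) (hs3 : s.im = t) :
    ‖deriv F s / F s‖ ≤ 64 * K / δ := by
  set z0 : ℂ := ((1 + δ : ℝ) : ℂ) + t * I with hz0
  have hz0re : z0.re = 1 + δ := by simp [hz0]
  have hz0im : z0.im = t := by simp [hz0]
  set f : ℂ → ℂ := fun z => F (z0 + z) with hf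
  have hfd : Differentiable ℂ f := hF.comp ((differentiable_const z0).add differentiable_id)
  have hball : ∀ z ∈ ball (0 : ℂ) (2 * δ), 1 - δ ≤ (z0 + z).re ∧ (z0 + z).re ≤ 2 ∧ |(z0 + z).im - t| ≤ 1 := by
    intro z hz'
    rw [mem_ball_zero_iff] at hz'
    have h1 := Complex.abs_re_le_norm z
    have h2 := Complex.abs_im_le_norm z
    have h3 := abs_le.1 (h1.trans hz'.le)
    rw [add_re, add_im, hz0re, hz0im]
    refine ⟨by linarith [h3.1], by linarith [h3.2], ?_⟩
    rw [add_sub_cancel_left]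
    linarith
  have hM : 1 < Real.exp K := Real.one_lt_exp_iff.2 hK
  have h := Pool.Agent.Helper368_LD.logder_disc (f := f) (R := 2 * δ) (M := Real.exp K) (ρ := 3 * δ / 2) hM (by positivity)
    (by linarith) hfd.differentiableOn (fun z hz' => by
      obtain ⟨h1, _, h3⟩ := hball z hz'
      exact hz _ h1 h3) (fun z hz' => by
      obtain ⟨h1, h2, h3⟩ := hball z hz'
      have h4 := hA _ h1 h2 h3
      have h5 : f 0 = F z0 := by rw [hf]; simp
      rw [h5]
      calc ‖f z‖ ≤ A := h4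
        _ ≤ Real.exp K * B := hAB
        _ ≤ Real.exp K * ‖F z0‖ := by gcongr) (z := s - z0) (by
      have e : s - z0 = ((s.re - (1 + δ) : ℝ) : ℂ) := by
        apply Complex.ext
        · simp [hz0]
        · simp [hz0, hs3]
      rw [e, Complex.norm_real, Real.norm_eq_abs, abs_le]
      constructor <;> linarith)
  have h1 : f (s - z0) = F s := by rw [hf]; simp
  have h2 : deriv f (s - z0) = deriv F s := by
    rw [hf]
    have := deriv_comp_const_add (f := F) z0 (s - z0)
    rw [this]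
    congr 1
    ring
  rw [h1, h2, Real.log_exp] at h
  refine h.trans (le_of_eq ?_)
  field_simp
  norm_num

theorem sum_inv_le {σ : ℝ} (h1 : 1 < σ) (h2 : σ ≤ 2) : ∑' n : ℕ, 1 / (n : ℝ) ^ σ ≤ 27 / (σ - 1) := by
  have h3 : riemannZeta (σ : ℂ) = ((∑' n : ℕ, 1 / (n : ℝ) ^ σ : ℝ) : ℂ) := by
    rw [zeta_eq_tsum_one_div_nat_cpow (by simpa using h1), Complex.ofReal_tsum]
    refine tsum_congr fun n => ?_
    push_cast
    rw [Complex.ofReal_cpow (Nat.cast_nonneg n)]
    simp
  have h4 := Pool.Agent.H437R2.z1_norm_le (s := (σ : ℂ)) (by simp; linarith)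
  have hne : (σ : ℂ) ≠ 1 := by
    intro h
    have : σ = 1 := by exact_mod_cast h
    linarith
  rw [Pool.Agent.H437R2.z1_of_ne hne, norm_mul, h3] at h4
  have e1 : ‖((σ : ℂ) - 1)‖ = σ - 1 := by
    rw [← Complex.ofReal_one, ← Complex.ofReal_sub, Complex.norm_real, Real.norm_eq_abs, abs_of_pos (by linarith)]
  have h5 : 0 ≤ ∑' n : ℕ, 1 / (n : ℝ) ^ σ := tsum_nonneg fun n => by positivity
  rw [e1, Complex.norm_real, Real.norm_eq_abs, abs_of_nonneg h5, Complex.norm_real, Real.norm_eq_abs,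
    abs_of_pos (by linarith)] at h4
  rw [le_div_iff₀ (by linarith)]
  nlinarith

theorem lower_char {q : ℕ} [NeZero q] (χ : DirichletCharacter ℂ q) {s : ℂ} (h1 : 1 < s.re) (h2 : s.re ≤ 2) :
    (s.re - 1) / 27 ≤ ‖LFunction χ s‖ := by
  have h3 := DirichletCharacter.LSeries.mul_mu_eq_one χ h1
  rw [← DirichletCharacter.LFunction_eq_LSeries χ h1] at h3
  set f : ℕ → ℂ := (fun n : ℕ => χ (n : ZMod q)) * (fun n => (ArithmeticFunction.moebius n : ℂ)) with hf
  have h4 : ‖LSeries f s‖ ≤ 27 / (s.re - 1) := by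
    refine (Pool.Agent.Y757.LS.lseries_bound h1 f (fun n => ?_) le_rfl).trans (sum_inv_le h1 h2)
    have h : |ArithmeticFunction.moebius n| ≤ 1 := ArithmeticFunction.abs_moebius_le_one
    have h' : ‖((ArithmeticFunction.moebius n : ℤ) : ℂ)‖ ≤ 1 := by
      rw [Complex.norm_intCast]
      exact_mod_cast h
    rw [hf, Pi.mul_apply, norm_mul]
    exact mul_le_one₀ (χ.norm_le_one _) (norm_nonneg _) h'
  have h5 : ‖LFunction χ s‖ * ‖LSeries f s‖ = 1 := by
    rw [← norm_mul, h3, norm_one]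
  have h6 : (0 : ℝ) < s.re - 1 := by linarith
  have h7 : 1 ≤ ‖LFunction χ s‖ * (27 / (s.re - 1)) := by
    calc (1 : ℝ) = ‖LFunction χ s‖ * ‖LSeries f s‖ := h5.symm
      _ ≤ _ := mul_le_mul_of_nonneg_left h4 (norm_nonneg _)
  rw [div_le_iff₀ (by norm_num)]
  rw [mul_div_assoc', le_div_iff₀ h6] at h7
  linarith

/-- logarithmic derivatives of primitive L-functions at a good scale -/
theorem logder_char {c : ℝ} (hc : 0 < c) (hc1 : c ≤ 1) : ∃ C : ℝ, 1 ≤ C ∧ ∀ l : ℝ, 4 ≤ l → NoZ c l →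
    ∀ (f : ℕ) [NeZero f] (χ : DirichletCharacter ℂ f), χ.IsPrimitive → χ ≠ 1 → Real.log f ≤ l →
    ∀ s : ℂ, 1 - c / (2 * l) ≤ s.re → s.re ≤ 1 + c / l → |s.im| ≤ Real.exp l - 1 →
      LFunction χ s ≠ 0 ∧ ‖deriv (LFunction χ) s / LFunction χ s‖ ≤ C * l ^ 2 := by
  refine ⟨64 * (10 + 108 / c) / c + 1, by have : 0 ≤ 64 * (10 + 108 / c) / c := by positivity
                                          linarith, ?_⟩
  intro l hl hno f _ χ hp h1 hfl s hs1 hs2 hs3
  have hl0 : 0 < l := by linarith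
  set δ : ℝ := c / l with hδ
  have hδ0 : 0 < δ := by positivity
  have hδ1 : δ ≤ 1 / 4 := by
    rw [hδ, div_le_div_iff₀ hl0 (by norm_num)]
    linarith
  have hhalf : c / (2 * l) = δ / 2 := by rw [hδ]; field_simp
  rw [hhalf] at hs1
  have hf1 : (1 : ℝ) ≤ f := by exact_mod_cast Nat.one_le_iff_ne_zero.2 (NeZero.ne f)
  have hfe : (f : ℝ) ≤ Real.exp l := by
    rw [← Real.log_le_iff_le_exp (by linarith)]; exact hfl
  have he4 : 4 ≤ Real.exp l := by
    have := Real.add_one_le_exp l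
    linarith
  have hnz : LFunction χ s ≠ 0 := hno f χ hp h1 hfl s (by linarith) (by linarith)
  refine ⟨hnz, ?_⟩
  set K : ℝ := (10 + 108 / c) * l with hK
  have hK0 : 0 < K := by positivity
  have hgen := logder_gen (F := LFunction χ) (differentiable_LFunction h1) (δ := δ) (K := K)
    (A := Real.exp l * Real.exp l * 32) (B := δ / 27) (t := s.im) hδ0 hδ1 hK0 (by positivity) ?_ ?_ ?_ ?_ hs1 hs2 rfl
  · refine hgen.trans ?_
    have e : 64 * K / δ = 64 * (10 + 108 / c) / c * l ^ 2 := by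
      rw [hK, hδ]
      field_simp
    rw [e]
    nlinarith [sq_nonneg l]
  · -- growth against lower bound
    have h5 : Real.exp K = Real.exp l * Real.exp l * (Real.exp (8 * l) * Real.exp (108 / c * l)) := by
      rw [← Real.exp_add, ← Real.exp_add, ← Real.exp_add]
      congr 1
      rw [hK]; ring
    rw [h5]
    have h6 : 32 ≤ Real.exp (8 * l) := by
      have := Real.add_one_le_exp (8 * l)
      linarith
    have h7 : 27 / δ ≤ Real.exp (108 / c * l) := by
      have h8 := Real.add_one_le_exp (108 / c * l)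
      have h9 : 27 / δ = 27 / c * l := by rw [hδ]; field_simp
      rw [h9]
      have h10 : 27 / c * l ≤ 108 / c * l := by gcongr; norm_num
      linarith
    have h8 : 1 ≤ Real.exp (108 / c * l) * (δ / 27) := by
      rw [div_le_iff₀ hδ0] at h7
      linarith
    calc Real.exp l * Real.exp l * 32 ≤ Real.exp l * Real.exp l * (Real.exp (8 * l) * (Real.exp (108 / c * l) * (δ / 27))) := by
          gcongr
          calc (32 : ℝ) ≤ Real.exp (8 * l) * 1 := by linarith
            _ ≤ _ := by gcongr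
      _ = _ := by ring
  · intro z hz1 hz2
    refine hno f χ hp h1 hfl z hz1 ?_
    have := abs_sub_abs_le_abs_sub z.im s.im
    linarith
  · intro z hz1 hz2 hz3
    have hzre : 0 < z.re := by linarith
    have h5 := Pool.Agent.Helper368_LD.L_growth h1 hzre
    have h6 : ‖z‖ ≤ Real.exp l + 3 := by
      have h7 := Complex.norm_le_abs_re_add_abs_im z
      rw [abs_of_pos hzre] at h7
      have := abs_sub_abs_le_abs_sub z.im s.im
      linarith
    have h7 : ((f : ℝ) + 1) / z.re ≤ 4 * Real.exp l := by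
      rw [div_le_iff₀ hzre]
      have : 3 / 4 ≤ z.re := by linarith
      nlinarith
    calc ‖LFunction χ z‖ ≤ ‖z‖ * (((f : ℝ) + 1) / z.re) := h5
      _ ≤ (Real.exp l + 3) * (4 * Real.exp l) := by gcongr
      _ ≤ Real.exp l * Real.exp l * 32 := by nlinarith
  · have h5 := lower_char χ (s := ((1 + δ : ℝ) : ℂ) + s.im * I) (by simp; linarith) (by simp; linarith)
    have h6 : (((1 + δ : ℝ) : ℂ) + s.im * I).re - 1 = δ := by simp
    rw [h6] at h5
    exact h5

/-- logarithmic derivative of zeta -/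
theorem logder_zeta : ∃ c C l₀ : ℝ, 0 < c ∧ c ≤ 1 ∧ 1 ≤ C ∧ 4 ≤ l₀ ∧ ∀ l : ℝ, l₀ ≤ l →
    ∀ s : ℂ, 1 - c / (2 * l) ≤ s.re → s.re ≤ 1 + c / l → |s.im| ≤ Real.exp l - 1 →
      riemannZeta₁ s ≠ 0 ∧ ‖deriv riemannZeta₁ s / riemannZeta₁ s‖ ≤ C * l ^ 2 := by
  obtain ⟨c, l₀, hc, hc1, hl₀, hz⟩ := zf_zeta
  refine ⟨c, 64 * (20 + 108 / c) / c + 1, max l₀ 4, hc, hc1, ?_, le_max_right _ _, ?_⟩
  · have : 0 ≤ 64 * (20 + 108 / c) / c := by positivity
    linarith
  intro l hl' s hs1 hs2 hs3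
  have hl : 4 ≤ l := (le_max_right _ _).trans hl'
  have hl0' : l₀ ≤ l := (le_max_left _ _).trans hl'
  have hl0 : 0 < l := by linarith
  set δ : ℝ := c / l with hδ
  have hδ0 : 0 < δ := by positivity
  have hδ1 : δ ≤ 1 / 4 := by
    rw [hδ, div_le_div_iff₀ hl0 (by norm_num)]
    linarith
  have hhalf : c / (2 * l) = δ / 2 := by rw [hδ]; field_simp
  rw [hhalf] at hs1
  have he4 : 4 ≤ Real.exp l := by
    have := Real.add_one_le_exp l
    linarith
  have hnz : riemannZeta₁ s ≠ 0 := hz l hl0' s (by linarith) (by linarith)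
  refine ⟨hnz, ?_⟩
  set K : ℝ := (20 + 108 / c) * l with hK
  have hK0 : 0 < K := by positivity
  have hgen := logder_gen (F := riemannZeta₁) differentiable_riemannZeta₁ (δ := δ) (K := K)
    (A := Real.exp l * Real.exp l * 12) (B := δ * (δ / 27)) (t := s.im) hδ0 hδ1 hK0 (by positivity) ?_ ?_ ?_ ?_ hs1 hs2 rfl
  · refine hgen.trans ?_
    have e : 64 * K / δ = 64 * (20 + 108 / c) / c * l ^ 2 := by
      rw [hK, hδ]
      field_simp
    rw [e]
    nlinarith [sq_nonneg l]
  · have h5 : Real.exp K = Real.exp l * Real.exp l * (Real.exp (18 * l) * (Real.exp (54 / c * l) * Real.exp (54 / c * l))) := by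
      rw [← Real.exp_add, ← Real.exp_add, ← Real.exp_add, ← Real.exp_add]
      congr 1
      rw [hK]; ring
    rw [h5]
    have h6 : 12 ≤ Real.exp (18 * l) := by
      have := Real.add_one_le_exp (18 * l)
      linarith
    have h7 : 27 / δ ≤ Real.exp (54 / c * l) := by
      have h8 := Real.add_one_le_exp (54 / c * l)
      have h9 : 27 / δ = 27 / c * l := by rw [hδ]; field_simp
      rw [h9]
      have h10 : 27 / c * l ≤ 54 / c * l := by gcongr; norm_num
      linarith
    have h8 : 1 ≤ Real.exp (54 / c * l) * (δ / 27) := by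
      rw [div_le_iff₀ hδ0] at h7
      linarith
    have h9 : 1 ≤ Real.exp (54 / c * l) * δ := by
      have : Real.exp (54 / c * l) * (δ / 27) ≤ Real.exp (54 / c * l) * δ := by
        apply mul_le_mul_of_nonneg_left _ (Real.exp_pos _).le
        linarith
      linarith
    calc Real.exp l * Real.exp l * 12 ≤ Real.exp l * Real.exp l * (Real.exp (18 * l) * ((Real.exp (54 / c * l) * δ) * (Real.exp (54 / c * l) * (δ / 27)))) := by
          gcongr
          calc (12 : ℝ) ≤ Real.exp (18 * l) * (1 * 1) := by linarith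
            _ ≤ _ := by gcongr
      _ = _ := by ring
  · intro z hz1 hz2
    refine hz l hl0' z hz1 ?_
    have := abs_sub_abs_le_abs_sub z.im s.im
    linarith
  · intro z hz1 hz2 hz3
    have hzre : 0 < z.re := by linarith
    have h5 := Pool.Agent.H437R2.z1_norm_le (s := z) (by linarith)
    have h6 : ‖z‖ ≤ Real.exp l + 2 := by
      have h7 := Complex.norm_le_abs_re_add_abs_im z
      rw [abs_of_pos hzre] at h7
      have := abs_sub_abs_le_abs_sub z.im s.im
      linarith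
    calc ‖riemannZeta₁ z‖ ≤ 3 * (‖z‖ + 1) ^ 2 := h5
      _ ≤ 3 * (Real.exp l + 3) ^ 2 := by
          have h8 : ‖z‖ + 1 ≤ Real.exp l + 3 := by linarith
          gcongr
      _ ≤ Real.exp l * Real.exp l * 12 := by nlinarith
  · have hne : ((1 + δ : ℝ) : ℂ) + s.im * I ≠ 1 := by
      intro h
      have := congrArg Complex.re h
      simp at this
      linarith
    rw [Pool.Agent.H437R2.z1_of_ne hne, norm_mul]
    have h5 := lower_char (1 : DirichletCharacter ℂ 1) (s := ((1 + δ : ℝ) : ℂ) + s.im * I) (by simp; linarith) (by simp; linarith)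
    have h6 : (((1 + δ : ℝ) : ℂ) + s.im * I).re - 1 = δ := by simp
    rw [h6, LFunction_modOne_eq] at h5
    have h7 : δ ≤ ‖((1 + δ : ℝ) : ℂ) + s.im * I - 1‖ := by
      have h8 := Complex.abs_re_le_norm (((1 + δ : ℝ) : ℂ) + s.im * I - 1)
      rw [sub_re, one_re, h6, abs_of_pos hδ0] at h8
      exact h8
    gcongr

/-- the regular part of zeta -/
theorem zeta0_bound : ∃ C : ℝ, 1 ≤ C ∧ ∀ l : ℝ, 4 ≤ l → ∀ s : ℂ, 1 - 1 / l ≤ s.re → s.re ≤ 2 →
    Real.log (|s.im| + 2) ≤ l → ‖riemannZeta₀ s‖ ≤ C * l := by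
  obtain ⟨D, hD⟩ := (isCompact_closedBall (1 : ℂ) 1).exists_bound_of_continuousOn differentiable_riemannZeta₀.continuous.continuousOn
  refine ⟨|D| + 1 + (Real.exp 3 * 3 + Real.exp 3 + 3), ?_, ?_⟩
  · have := abs_nonneg D
    have := Real.exp_pos 3
    linarith
  intro l hl s hs1 hs2 htl
  have hl0 : 0 < l := by linarith
  have he3 := Real.exp_pos 3
  have hD0 := abs_nonneg D
  rcases le_or_gt ‖s - 1‖ 1 with hcase | hcase
  · have h1 : ‖riemannZeta₀ s‖ ≤ |D| := (hD s (by rw [mem_closedBall, dist_eq_norm]; exact hcase)).trans (le_abs_self D)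
    have h2 : |D| ≤ |D| * l := le_mul_of_one_le_right hD0 (by linarith)
    have h3 : 0 ≤ (1 + (Real.exp 3 * 3 + Real.exp 3 + 3)) * l := by positivity
    nlinarith
  · have hne : s ≠ 1 := by
      rintro rfl
      simp at hcase
      linarith
    have hz0 : riemannZeta₀ s = riemannZeta s - (s - 1)⁻¹ := by
      rw [riemannZeta_eq_inv_sub_add hne]; ring
    set Q : ℝ := |s.im| + 2 with hQdef
    have hQ : 1 ≤ Q := by
      have := abs_nonneg s.im
      rw [hQdef]
      linarith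
    have hl4 : 1 / l ≤ 1 / 4 := one_div_le_one_div_of_le (by norm_num) hl
    have hσ : 3 / 4 ≤ s.re := by linarith
    have hσ0 : 0 < s.re := by linarith
    obtain ⟨h1, h2, h3⟩ := Pool.Agent.H378R2.M1.ceil_bounds hQ
    set N := ⌈Q ^ 2⌉₊ with hN
    have hN0 : 0 < N := h1
    have hNr : (0 : ℝ) < N := by exact_mod_cast h1
    have hlogN : Real.log N ≤ 2 * l + 1 := by
      calc Real.log N ≤ Real.log (2 * Q ^ 2) := Real.log_le_log hNr h3
        _ = Real.log 2 + 2 * Real.log Q := by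
            rw [Real.log_mul (by norm_num) (by positivity), Real.log_pow]; push_cast; ring
        _ ≤ 2 * l + 1 := by
            have := Real.log_two_lt_d9
            linarith
    have hlogN0 : 0 ≤ Real.log N := Real.log_nonneg (by exact_mod_cast h1)
    have ha3 : (1 - s.re) * Real.log N ≤ 3 := by
      calc (1 - s.re) * Real.log N ≤ (1 / l) * Real.log N := by gcongr; linarith
        _ ≤ (1 / l) * (2 * l + 1) := by gcongr
        _ ≤ 3 := by
            rw [div_mul_eq_mul_div, one_mul, div_le_iff₀ hl0]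
            linarith
    have hz := Pool.Agent.H307R2.zeta_eq h1 hσ0 hne
    have hA : ‖∑ n ∈ Finset.Icc 1 N, (n : ℂ) ^ (-s)‖ ≤ Real.exp 3 * (2 * l + 2) := by
      calc ‖∑ n ∈ Finset.Icc 1 N, (n : ℂ) ^ (-s)‖
          ≤ ∑ n ∈ Finset.Icc 1 N, (n : ℝ) ^ (-s.re) := by
            refine norm_sum_le_of_le _ fun n hn => ?_
            rw [Finset.mem_Icc] at hn
            have hn0 : 0 < n := by omega
            rw [Complex.norm_natCast_cpow_of_pos hn0, Complex.neg_re]
        _ ≤ Real.exp 3 * (1 + Real.log N) := Pool.Agent.H378R2.M1.sum_rpow_le (by norm_num) ha3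
        _ ≤ Real.exp 3 * (2 * l + 2) := mul_le_mul_of_nonneg_left (by linarith) he3.le
    have hC : ‖(N : ℂ) ^ (1 - s) / (s - 1)‖ ≤ Real.exp 3 := by
      rw [norm_div, Complex.norm_natCast_cpow_of_pos hN0, div_le_iff₀ (by linarith)]
      have e : (1 - s).re = 1 - s.re := by simp
      rw [e, Real.rpow_def_of_pos hNr]
      calc Real.exp (Real.log N * (1 - s.re)) ≤ Real.exp 3 := by
            apply Real.exp_le_exp.2
            linarith
        _ ≤ Real.exp 3 * ‖s - 1‖ := le_mul_of_one_le_right he3.le hcase.le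
    have hB : ‖s * Pool.Agent.H307R2.TM N Pool.Agent.H307R2.Ez s‖ ≤ 4 / 3 := by
      have hs3 : ‖s‖ ≤ |s.im| + 2 := by
        have := Complex.norm_le_abs_re_add_abs_im s
        rw [abs_of_pos hσ0] at this
        linarith
      calc ‖s * Pool.Agent.H307R2.TM N Pool.Agent.H307R2.Ez s‖ = ‖s‖ * ‖Pool.Agent.H307R2.TM N Pool.Agent.H307R2.Ez s‖ := norm_mul _ _
        _ ≤ (|s.im| + 2) * (1 * ((N : ℝ) ^ (-s.re) / s.re)) :=
            mul_le_mul hs3 (Pool.Agent.H307R2.TM_norm_le h1 Pool.Agent.H307R2.Ez_norm_le hσ0) (norm_nonneg _) (by positivity)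
        _ = Q * ((N : ℝ) ^ (-s.re) / s.re) := by rw [hQdef]; ring
        _ ≤ 4 / 3 := Pool.Agent.H378R2.M1.tail_le hQ hσ
    have hinv : ‖(s - 1)⁻¹‖ ≤ 1 := by
      rw [norm_inv]
      exact inv_le_one_of_one_le₀ hcase.le
    have hzeta : ‖riemannZeta s‖ ≤ Real.exp 3 * (2 * l + 2) + Real.exp 3 + 4 / 3 := by
      rw [hz]
      exact (norm_add_le _ _).trans (add_le_add ((norm_add_le _ _).trans (add_le_add hA hC)) hB)
    rw [hz0]
    refine (norm_sub_le _ _).trans ?_
    have h5 : Real.exp 3 * (2 * l + 2) + Real.exp 3 + 4 / 3 + 1 ≤ (Real.exp 3 * 3 + Real.exp 3 + 3) * l := by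
      nlinarith
    have h6 : 0 ≤ (|D| + 1) * l := by positivity
    nlinarith

end Pool.Agent.J4H81.PT.ZF
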